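import Mathlib
import Pool.Agent.MP_494aff_an.pinch.Top
import Pool.Agent.MP_494aff_an.pinch.FG
import Pool.Agent.MP_494aff_an.pinch.AttA

-- ======== part 0: formerly Pool.Agent.MP_494aff_an.lf.Spec
section MrgPart0

-- ======== part 0: formerly Pool.Agent.MP_494aff_an.lf.Defs
section MrgPart0

/-! Groups with a finite cyclic hierarchy. -/

open Monoid

namespace Pool.Agent.MP_494aff_an.Lf

/-- The generator of the second factor of the free product of `A` with the integers. -/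
def gen (A : Type) [Group A] : Coprod A (Multiplicative ℤ) :=
  Coprod.inr (Multiplicative.ofAdd 1)

/-- The amalgam of `A` and `B` that identifies `c` with `d`. -/
abbrev Amalg {A B : Type} [Group A] [Group B] (c : A) (d : B) : Type :=
  Coprod A B ⧸ Subgroup.normalClosure {(Coprod.inl c * (Coprod.inr d)⁻¹ : Coprod A B)}

/-- The HNN extension of `A` whose stable letter conjugates `c` to `c'`. -/
abbrev Hnn {A : Type} [Group A] (c c' : A) : Type :=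
  Coprod A (Multiplicative ℤ) ⧸
    Subgroup.normalClosure {gen A * Coprod.inl c * (gen A)⁻¹ * (Coprod.inl c')⁻¹}

/-- The groups built from finitely generated abelian groups by finitely many amalgams and HNN
extensions over cyclic subgroups. -/
inductive Hier : (G : Type) → [Group G] → Prop
  | abel (G : Type) [Group G] : Group.FG G → (∀ x y : G, x * y = y * x) → Hier G
  | amal (A B : Type) [Group A] [Group B] (c : A) (d : B) :
      Hier A → Hier B → orderOf c = orderOf d → Hier (Amalg c d)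
  | hnn (A : Type) [Group A] (c c' : A) : Hier A → orderOf c = orderOf c' → Hier (Hnn c c')
  | iso (G G' : Type) [Group G] [Group G'] : Hier G → (G ≃* G') → Hier G'

end Pool.Agent.MP_494aff_an.Lf

end MrgPart0

-- ======== part 1: formerly Pool.Agent.MP_494aff_an.lf.Spec
section MrgPart1

/-! Shared objects and the statements of the steps. -/

open Monoid Filter Topology
open scoped InnerProductSpace ComplexConjugate

namespace Pool.Agent.MP_494aff_an.Lf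

open Pool.Agent.MP_494aff_an.Pinch Pool.Agent.MP_494aff_an.Pinch.TowP

noncomputable section

/-- The free product with an infinite cyclic group. -/
abbrev FZ (G : Type) [Group G] : Type := Coprod G (Multiplicative ℤ)

/-- The cosets of the extra generator. -/
abbrev Cs (G : Type) [Group G] : Type := FZ G ⧸ Subgroup.zpowers (gen G)

/-- `G` is not abelian. -/
def NA (G : Type) [Group G] : Prop := ∃ x y : G, x * y ≠ y * x

/-- `w` generates its own centraliser. -/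
def Cyc {G : Type} [Group G] (w : G) : Prop :=
  w ≠ 1 ∧ ∀ x, x * w = w * x → x ∈ Subgroup.zpowers w

/-- `z` is not a power of an element that generates its own centraliser. -/
def NC {G : Type} [Group G] (z : G) : Prop := z ≠ 1 ∧ ∀ w, Cyc w → z ∉ Subgroup.zpowers w

/-- No conjugate of `z` commutes with `w`. -/
def Far {G : Type} [Group G] (z w : G) : Prop := ∀ a, a * z * a⁻¹ * w ≠ w * (a * z * a⁻¹)

section Analytic

variable {Γ : Type}

open Classical in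
/-- Multiplication by the exponential of `ψ` (zero if this is not a bounded operator). -/
def mo (ψ : Γ → ℝ) : Op Γ :=
  if h : ∃ T : Op Γ, ∀ ξ x, T ξ x = (Real.exp (ψ x) : ℂ) * ξ x then h.choose else 0

variable [Group Γ]

/-- Bounded weights that change by at most `a * ℓ g` under left translation by `g`. -/
def Lp (ℓ : Γ → ℕ) (a : ℝ) (ψ : Γ → ℝ) : Prop :=
  (∃ R, ∀ x, |ψ x| ≤ R) ∧ ∀ g x, |ψ (g * x) - ψ x| ≤ a * ℓ g

/-- A bound that holds for all weights. -/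
def Bd (ℓ : Γ → ℕ) (a : ℝ) (T : Op Γ) (C : ℝ) : Prop :=
  ∀ ψ, Lp ℓ a ψ → ‖mo ψ * T * mo (-ψ)‖ ≤ C

/-- Real combinations of translations by elements of `X`. -/
def Pol (X : Set Γ) : Submodule ℝ (Op Γ) := Submodule.span ℝ ((lam : Γ →* Op Γ) '' X)

/-- Limits of polynomials in a weighted norm. -/
def An (ℓ : Γ → ℕ) (X : Set Γ) (T : Op Γ) : Prop :=
  ∃ a, 0 < a ∧ ∀ ε, 0 < ε → ∃ p ∈ Pol X, Bd ℓ a (T - p) ε

variable {G : Type} [Group G]

/-- Cocycles for left multiplication. -/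
def Co (ι : G →* Γ) (β : G → Op Γ) : Prop := ∀ x y, β (x * y) = β x + lam (ι x) * β y

/-- `β` is inner at `z`. -/
def In (ℓ : Γ → ℕ) (X : Set Γ) (ι : G →* Γ) (β : G → Op Γ) (z : G) : Prop :=
  ∃ ξ, An ℓ X ξ ∧ β z = (1 - lam (ι z)) * ξ

/-- Cocycles that are inner on the centralisers that are not cyclic. -/
structure Z0 (ℓ : Γ → ℕ) (X : Set Γ) (ι : G →* Γ) (β : G → Op Γ) : Prop where
  co : Co ι β
  an : ∀ x, An ℓ X (β x)
  nc : ∀ z, NC z → In ℓ X ι β z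

end Analytic

/-- Every generator of a cyclic centraliser has a cocycle with value one. -/
def Q0 (G : Type) [Group G] : Prop :=
  ∀ (Γ : Type) [Group Γ] (ℓ : Γ → ℕ) (ι : G →* Γ), Function.Injective ι →
    ∀ w, Cyc w → ∃ β, Z0 ℓ ι.range ι β ∧ β w = 1

/-- Cocycles that vanish at `v` and are close to one at `u`. -/
def Full (G : Type) [Group G] : Prop :=
  ∃ u v : G, u * v ≠ v * u ∧ ∀ (Γ : Type) [Group Γ] (ℓ : Γ → ℕ) (ι : G →* Γ),
    Function.Injective ι → ∀ ε : ℝ, 0 < ε →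
      ∃ β, Z0 ℓ ι.range ι β ∧ β v = 0 ∧ ‖β u (dl 1) - dl 1‖ ≤ ε

/-- Cocycles that are small on a finite set and close to one somewhere. -/
def AF (G : Type) [Group G] : Prop :=
  ∀ (Γ : Type) [Group Γ] (ℓ : Γ → ℕ) (ι : G →* Γ), Function.Injective ι →
    ∀ (S : Finset G) (ε : ℝ), 0 < ε → ∃ (β : G → Op Γ) (w : G), Co ι β ∧
      (∀ x, An ℓ ι.range (β x)) ∧ (∀ s ∈ S, ‖β s (dl 1)‖ ≤ ε) ∧ ‖β w (dl 1) - dl 1‖ ≤ ε

/-! Free pairs -/

/-- Ping-pong partition: `0` base points, `1` starts with `u`, `2` with `u⁻¹`, `3` with a power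
of `v`. -/
def PingStmt : Prop :=
  ∀ (Γ : Type) [Group Γ] (u v : Γ), Function.Injective (pr u v) → ∃ τ : Γ → Fin 4, τ 1 = 0 ∧
    (∀ (m : ℤ) (z : Γ), m ≠ 0 → τ z ≠ 3 → τ (v ^ m * z) = 3) ∧
    (∀ z, τ z ≠ 2 → τ (u * z) = 1) ∧ ∀ z, τ z ≠ 1 → τ (u⁻¹ * z) = 2

def AvgStmt : Prop :=
  ∀ (Γ : Type) [Group Γ] (u v : Γ), Function.Injective (pr u v) → ∀ K : ℕ,
    ‖∑ k ∈ Finset.range K, lam (u ^ (k + 1) * v ^ (k + 1))‖ ≤ 2 * √K

/-- The initial products of the `u * v ^ j`. -/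
def gs {Γ : Type} [Group Γ] (u v : Γ) : ℕ → Γ
  | 0 => 1
  | j + 1 => gs u v j * (u * v ^ (j + 1))

def TreeStmt : Prop :=
  ∀ (Γ : Type) [Group Γ] (u v : Γ), Function.Injective (pr u v) → ∀ ε : ℝ, 0 < ε →
    ∃ (L : ℕ) (κ : H Γ), ‖κ‖ ≤ ε ∧ ‖(∑ j ∈ Finset.range L, lam (gs u v j)) κ - dl 1‖ ≤ ε

def RegStmt : Prop :=
  ∀ (Γ : Type) [Group Γ] (T : Op Γ) (η μ : ℝ), T ∈ LL Γ → 0 < η → 0 < μ →
    ‖T (dl 1) - dl 1‖ ≤ η → ∃ ε : ℝ, 0 < ε ∧ ∀ (D : Op Γ) (κ₀ : H Γ), D ∈ LL Γ → ‖κ₀‖ ≤ ε →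
      ‖D κ₀ - dl 1‖ ≤ ε → ∃ κ : H Γ, ‖D (T κ) - dl 1‖ ^ 2 + μ * ‖κ‖ ^ 2 ≤ 2 * η

def AFStmt : Prop := ∀ (G : Type) [Group G], CT G → Full G → AF G

/-! Cocycles -/

/-- A value that is a nonzero scalar up to terms off the cyclic group can be made one. -/
def UnitStmt : Prop :=
  ∀ (G Γ : Type) [Group G] [Group Γ] (ℓ : Γ → ℕ) (ι : G →* Γ) (w : G) (β : G → Op Γ) (Y : Set G)
    (T ζ : Op Γ), CT G → Function.Injective ι → Cyc w → Z0 ℓ ι.range ι β → An ℓ (ι '' Y) T →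
    (∀ y ∈ Y, y ∈ Subgroup.zpowers w → y = 1) → T (dl 1) 1 ≠ 0 → An ℓ ι.range ζ →
    β w = T + (1 - lam (ι w)) * ζ → ∃ β', Z0 ℓ ι.range ι β' ∧ β' w = 1

/-- Finitely many further elements can be made inner. -/
def QrStmt : Prop :=
  ∀ (G Γ : Type) [Group G] [Group Γ] (ℓ : Γ → ℕ) (ι : G →* Γ) (w : G) (zs : List G),
    CT G → Q0 G → Function.Injective ι → Cyc w → (∀ z ∈ zs, Far z w) →
    ∃ β, Z0 ℓ ι.range ι β ∧ β w = 1 ∧ ∀ z ∈ zs, In ℓ ι.range ι β z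

/-- A cocycle that vanishes at `w` but not at `x`. -/
def SepStmt : Prop :=
  ∀ (G Γ : Type) [Group G] [Group Γ] (ℓ : Γ → ℕ) (ι : G →* Γ) (w x : G) (zs : List G),
    CT G → Q0 G → Function.Injective ι → Cyc w → (∀ z ∈ zs, Far z w) → x * w ≠ w * x →
    ∃ β, Z0 ℓ ι.range ι β ∧ β w = 0 ∧ β x ≠ 0 ∧ ∀ z ∈ zs, In ℓ ι.range ι β z

/-- A small change makes a cocycle inner at finitely many elements. -/
def AddStmt : Prop :=
  ∀ (G Γ : Type) [Group G] [Group Γ] (ℓ : Γ → ℕ) (ι : G →* Γ) (u v : G) (zs : List G)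
    (β : G → Op Γ) (ε : ℝ), CT G → Q0 G → Function.Injective ι → v ≠ 1 → 0 < ε →
    Z0 ℓ ι.range ι β → β v = 0 → ∃ β', Z0 ℓ ι.range ι β' ∧ β' v = 0 ∧
      ‖β' u (dl 1) - β u (dl 1)‖ ≤ ε ∧ ∀ z ∈ zs, In ℓ ι.range ι β' z

/-- The vertices on the axis of `w`. -/
structure Axis {A G : Type} [Group A] [Group G] (f : A →* G) (w : G) (n : ℕ) (p l : ℤ → G)
    (a : ℤ → A) : Prop where
  pos : 0 < n
  zero : p 0 = 1
  step : ∀ i, p (i + 1) = p i * l i * f (a i)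
  per : ∀ i, p (i + n) = w * p i
  sep : ∀ i j, (p i * l i)⁻¹ * (p j * l j) ∈ f.range → i = j

/-- A cocycle with a nonzero difference of potentials at a vertex of the axis. -/
def AxisStmt : Prop :=
  ∀ (A G Γ : Type) [Group A] [Group G] [Group Γ] (ℓ : Γ → ℕ) (ι : G →* Γ) (f : A →* G) (w : G)
    (n : ℕ) (p l : ℤ → G) (a : ℤ → A) (β : G → Op Γ) (σ τ : ℤ → Op Γ) (i₀ : ℤ),
    CT G → Function.Injective ι → Cyc w → Axis f w n p l a → Z0 ℓ ι.range ι β →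
    (∀ i, β (l i) = σ i - lam (ι (l i)) * τ i) → σ n = σ 0 → An ℓ ι.range (σ 0) →
    (∀ i, An ℓ (ι.comp f).range (β (f (a i)) + lam (ι (f (a i))) * σ (i + 1) - τ i)) →
    0 ≤ i₀ → i₀ < n → β (f (a i₀)) + lam (ι (f (a i₀))) * σ (i₀ + 1) - τ i₀ ≠ 0 →
    ∃ β', Z0 ℓ ι.range ι β' ∧ β' w = 1

/-! Splittings -/

section Split

variable {A G : Type} [Group A] [Group G]

/-- Reduced words with `n` letters, first type `s`, last type `e`. -/
inductive Wd (f : A →* G) (K : Bool → Subgroup A) (Lt : Bool → Bool → Set G) :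
    Bool → Bool → ℕ → G → Prop
  | one (s e : Bool) (l : G) : l ∈ Lt s e → Wd f K Lt s e 1 l
  | cons (s e s' e' : Bool) (l : G) (a : A) (n : ℕ) (g : G) : l ∈ Lt s e →
      ¬ (e = s' ∧ a ∈ K e) → Wd f K Lt s' e' n g → Wd f K Lt s e' (n + 1) (l * f a * g)

/-- A common frame for amalgams and HNN extensions, seen from the vertex group `A`. -/
structure Split (f : A →* G) (K : Bool → Subgroup A) (Lt : Bool → Bool → Set G) : Prop where
  inj : Function.Injective f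
  inv : ∀ s e l, l ∈ Lt s e → l⁻¹ ∈ Lt e s
  shift : ∀ s l a, l ∈ Lt s s → a ∈ K s → l * f a ∈ Lt s s
  red : ∀ s e e' l l' a, l ∈ Lt s e → l' ∈ Lt e e' → a ∈ K e →
    l * f a * l' ∈ f.range ∨ l * f a * l' ∈ Lt s e'
  gen : ∀ T : Subgroup G, (∀ a, f a ∈ T) → (∀ s e, ∀ l ∈ Lt s e, l ∈ T) → ∀ z, z ∈ T
  nf : ∀ s e n g, Wd f K Lt s e n g → g ∉ f.range

/-- A cyclically reduced periodic word. -/
structure Per (f : A →* G) (K : Bool → Subgroup A) (Lt : Bool → Bool → Set G) (w : G) (n : ℕ)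
    (p l : ℤ → G) (a : ℤ → A) (s e : ℤ → Bool) : Prop where
  ax : Axis f w n p l a
  mem : ∀ i, l i ∈ Lt (s i) (e i)
  red : ∀ i, ¬ (e i = s (i + 1) ∧ a i ∈ K (e i))
  ps : ∀ i, s (i + n) = s i
  pl : ∀ i, l (i + n) = l i

end Split

/-- Normal forms and conjugacy classes. -/
def ClsStmt : Prop :=
  ∀ (A G : Type) [Group A] [Group G] (f : A →* G) (K : Bool → Subgroup A)
    (Lt : Bool → Bool → Set G), Split f K Lt →
    (∀ x, x ∉ f.range → ∃ a a' s e n x₀, Wd f K Lt s e n x₀ ∧ x = f a * x₀ * f a') ∧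
    (∀ s e n g, Wd f K Lt s e n g → Wd f K Lt e s n g⁻¹) ∧
    (∀ s e n g s' e' n' g' a, Wd f K Lt s e n g → Wd f K Lt s' e' n' g' →
      ¬ (e = s' ∧ a ∈ K e) → Wd f K Lt s e' (n + n') (g * f a * g')) ∧
    ∀ z, ∃ y, y * z * y⁻¹ ∈ f.range ∨ (∃ s, y * z * y⁻¹ ∈ Lt s s) ∨
      ∃ n p l a s e, Per f K Lt (y * z * y⁻¹) n p l a s e

/-- The centraliser of a hyperbolic element is cyclic. -/
def HypStmt : Prop :=
  ∀ (A G : Type) [Group A] [Group G] (f : A →* G) (K : Bool → Subgroup A)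
    (Lt : Bool → Bool → Set G) (w : G) (n : ℕ) (p l : ℤ → G) (a : ℤ → A) (s e : ℤ → Bool),
    Split f K Lt → CT G → Per f K Lt w n p l a s e →
    (∀ s, ∀ b ∈ K s, b ≠ 1 → ∃ y, ∀ x, x * f b = f b * x →
      y * x * y⁻¹ ∈ f.range ∨ ∃ s e, y * x * y⁻¹ ∈ Lt s e) →
    ∃ w₀, Cyc w₀ ∧ w ∈ Subgroup.zpowers w₀

/-- The standing hypotheses on an amalgam. -/
structure Am {A B G : Type} [Group A] [Group B] [Group G] (c : A) (d : B) (f : A →* G)
    (g : B →* G) : Prop where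
  pin : Pin c d f g
  hf : Function.Injective f
  hg : Function.Injective g
  ct : CT G
  edge : (c = 1 ∧ d = 1) ∨ (Cyc c ∧ InfOrd d)

/-- The standing hypotheses on an HNN extension. -/
structure Hx {A G : Type} [Group A] [Group G] (c c' : A) (f : A →* G) (t : G) : Prop where
  hn : FG.Hn c' c f t
  hf : Function.Injective f
  ct : CT G
  cyc : Cyc c
  far : Far c' c

def AmStmt : Prop :=
  ∀ (A B G : Type) [Group A] [Group B] [Group G] (c : A) (d : B) (f : A →* G) (g : B →* G),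
    Am c d f g →
    (∀ z, ∃ y, y * z * y⁻¹ ∈ f.range ∨ y * z * y⁻¹ ∈ g.range ∨
      ((∃ w₀, Cyc w₀ ∧ y * z * y⁻¹ ∈ Subgroup.zpowers w₀) ∧
        ∃ n p l a, Axis f (y * z * y⁻¹) n p l a ∧ (∀ i, l i ∈ g.range) ∧
          ∀ i, a i ∉ Subgroup.zpowers c)) ∧
    (∀ a, NC (f a) → NC a ∨ (NC d ∧ ∃ (a₀ : A) (k : ℤ), a = a₀ * c ^ k * a₀⁻¹)) ∧
    ∀ b, NC (g b) → NC b

def HxStmt : Prop :=
  ∀ (A G : Type) [Group A] [Group G] (c c' : A) (f : A →* G) (t : G), Hx c c' f t →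
    (∀ z, ∃ y, y * z * y⁻¹ ∈ f.range ∨
      ((∃ w₀, Cyc w₀ ∧ y * z * y⁻¹ ∈ Subgroup.zpowers w₀) ∧
        ∃ (n : ℕ) (p : ℤ → G) (a : ℤ → A) (b : ℤ → Bool),
          Axis f (y * z * y⁻¹) n p (fun i => FG.tt t (b i)) a ∧ (∀ i, b (i + n) = b i) ∧
          ∀ i, b (i + 1) = !b i → a i ∉ Subgroup.zpowers (FG.ee c' c (b i)))) ∧
    ∀ a, NC (f a) → NC a ∨ (NC c' ∧ ∃ (y : G) (k : ℤ), f a = y * f c' ^ k * y⁻¹)

/-- The cocycle part of the induction. -/
def QF (G : Type) [Group G] : Prop := Q0 G ∧ (NA G → Full G)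

def QAmStmt : Prop :=
  ∀ (A B G : Type) [Group A] [Group B] [Group G] (c : A) (d : B) (f : A →* G) (g : B →* G),
    Am c d f g → QF A → QF B → QF G

def QHxStmt : Prop :=
  ∀ (A G : Type) [Group A] [Group G] (c c' : A) (f : A →* G) (t : G), Hx c c' f t → QF A → QF G

/-- Induction along a hierarchy. -/
def IndStmt : Prop :=
  ∀ P : (G : Type) → [Group G] → Prop,
    (∀ (G : Type) [Group G], Group.FG G → CT G → ¬ NA G → P G) →
    (∀ (A B G : Type) [Group A] [Group B] [Group G] (c : A) (d : B) (f : A →* G) (g : B →* G),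
      Am c d f g → Group.FG A → Group.FG B → Group.FG G → P A → P B → P G) →
    (∀ (A G : Type) [Group A] [Group G] (c c' : A) (f : A →* G) (t : G), Hx c c' f t →
      Group.FG A → Group.FG G → P A → P G) →
    ∀ (G : Type) [Group G], Hier G → CT G → P G

/-! Flows -/

/-- The form bound for a kernel. -/
def FB {Λ : Type} (ℓ : Λ → ℕ) (k : Λ → Λ → ℂ) (a₀ C : ℝ) : Prop :=
  ∀ a : ℝ, 0 ≤ a → a ≤ a₀ → ∀ (F : Finset Λ) (ξ η : Λ → ℂ),
    ‖∑ x ∈ F, ∑ y ∈ F, conj (η y) * (Real.exp (a * ((ℓ y : ℝ) - ℓ x)) : ℂ) * k x y * ξ x‖ ≤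
      C * √(∑ x ∈ F, (1 + (ℓ x : ℝ)) * ‖ξ x‖ ^ 2) * √(∑ y ∈ F, (1 + (ℓ y : ℝ)) * ‖η y‖ ^ 2)

def FormStmt : Prop :=
  ∀ (Λ I : Type) (ℓ : Λ → ℕ) (k : Λ → Λ → ℂ) (h : I → Λ → Λ → ℂ) (B : Λ → I → ℝ)
    (nd : Λ → I → Prop) (L : Λ → I → ℕ) (M C a₀ : ℝ), 0 ≤ M → 0 ≤ C → 0 ≤ a₀ →
    (∀ q (F : Finset Λ) (ξ η : Λ → ℂ), ‖∑ x ∈ F, ∑ y ∈ F, conj (η y) * h q x y * ξ x‖ ≤
      M * √(∑ x ∈ F, ‖ξ x‖ ^ 2) * √(∑ y ∈ F, ‖η y‖ ^ 2)) →
    (∀ q x y, h q x y ≠ 0 → B x q = B y q ∧ L x q = L y q ∧ (nd x q ∨ nd y q)) →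
    (∀ x q, nd x q → L x q = ℓ x) → (∀ x q, ℓ x ≤ L x q) →
    (∀ x (Z : Finset I), (∀ q ∈ Z, nd x q) → Z.card ≤ ℓ x) →
    (∀ x (Z : Finset I),
      ∑ q ∈ Z, B x q ^ 2 * Real.exp (2 * a₀ * ((L x q : ℝ) - ℓ x)) ≤ C * (1 + ℓ x)) →
    (∀ x y q q', h q x y ≠ 0 → h q' x y ≠ 0 → q = q') →
    (∀ x y q, h q x y ≠ 0 → k x y = Complex.I * B x q * h q x y) →
    (∀ x y, (∀ q, h q x y = 0) → k x y = 0) → ∃ C', FB ℓ k a₀ C'

/-- A scale of norms on which `D` loses one order. -/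
structure Scale {Λ : Type} [Group Λ] (d : Λ → H Λ) (a₀ C : ℝ) (V : Submodule ℂ (H Λ))
    (N : ℝ → Seminorm ℂ V) (D : V →ₗ[ℂ] V) : Prop where
  mem : ∀ x, dl x ∈ V
  zero : ∀ ξ : V, N 0 ξ = ‖(ξ : H Λ)‖
  mono : ∀ a' a, 0 ≤ a' → a' ≤ a → a < a₀ → ∀ ξ, N a' ξ ≤ N a ξ
  trunc : ∀ a, 0 ≤ a → a < a₀ → ∀ ξ : V, Tendsto
    (fun F : Finset Λ => N a (ξ - ∑ x ∈ F, (ξ : H Λ) x • (⟨dl x, mem x⟩ : V))) atTop (𝓝 0)
  bd : ∀ a' a, 0 ≤ a' → a' < a → a < a₀ → ∀ ξ, N a' (D ξ) ≤ C / (a - a') * N a ξ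
  val : ∀ x, (D ⟨dl x, mem x⟩ : H Λ) = d x
  skew : ∀ ξ η : V, ⟪(D ξ : H Λ), (η : H Λ)⟫_ℂ + ⟪(ξ : H Λ), (D η : H Λ)⟫_ℂ = 0
  lamb : ∀ g, ∃ (T : V →ₗ[ℂ] V) (c : ℝ), (∀ ξ, (T ξ : H Λ) = lam g ξ) ∧
    ∀ a, 0 ≤ a → a < a₀ → ∀ ξ, N a (T ξ) ≤ c * N a ξ
  rhob : ∀ g, ∃ (T : V →ₗ[ℂ] V) (c : ℝ), (∀ ξ, (T ξ : H Λ) = rho g ξ) ∧
    ∀ a, 0 ≤ a → a < a₀ → ∀ ξ, N a (T ξ) ≤ c * N a ξ

def ScaleStmt : Prop :=
  ∀ (Λ : Type) [Group Λ] (ℓ : Λ → ℕ) (d : Λ → H Λ) (a₀ C : ℝ), 0 < a₀ →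
    (∀ x y, ℓ (x * y) ≤ ℓ x + ℓ y) → (∀ x y, d x y = -conj (d y x)) →
    FB ℓ (fun x y => d x y) a₀ C →
    ∃ (C' : ℝ) (V : Submodule ℂ (H Λ)) (N : ℝ → Seminorm ℂ V) (D : V →ₗ[ℂ] V),
      0 ≤ C' ∧ Scale d a₀ C' V N D

def ExpStmt : Prop :=
  ∀ (Λ : Type) (V : Submodule ℂ (H Λ)) (D : V →ₗ[ℂ] V) (A : ℝ), 0 ≤ A → (∀ x, dl x ∈ V) →
    (∀ ξ η : V, ⟪(D ξ : H Λ), (η : H Λ)⟫_ℂ + ⟪(ξ : H Λ), (D η : H Λ)⟫_ℂ = 0) →
    (∀ ξ : V, ∃ C : ℝ, ∀ n : ℕ, ‖((D ^ n) ξ : H Λ)‖ ≤ C * n.factorial * A ^ n) →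
    ∃ U : ℝ → Op Λ, U 0 = 1 ∧ (∀ s t, U (s + t) = U s * U t) ∧ (∀ t, star (U t) = U (-t)) ∧
      (∀ t : ℝ, |t| * A < 1 → ∀ ξ : V,
        HasSum (fun n : ℕ => ((t : ℂ) ^ n / n.factorial) • ((D ^ n) ξ : H Λ)) (U t ξ)) ∧
      ∀ (t : ℝ) (ξ : V), HasDerivAt (fun s => U s ξ) (U t (D ξ)) t

def KerStmt : Prop :=
  ∀ (Λ : Type) [Group Λ] (ℓ : Λ → ℕ) (d : Λ → H Λ) (a₀ C : ℝ), 0 < a₀ →
    (∀ x y, ℓ (x * y) ≤ ℓ x + ℓ y) → (∀ x y, d x y = -conj (d y x)) →
    (∀ x y, d (x * y) = rho y⁻¹ (d x) + lam x (d y)) → FB ℓ (fun x y => d x y) a₀ C →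
    ∃ U : ℝ → Op Λ, U 0 = 1 ∧ (∀ s t, U (s + t) = U s * U t) ∧ (∀ t, star (U t) = U (-t)) ∧
      (∀ t g, U t * lam g * U (-t) ∈ LL Λ) ∧
      ∀ x t, HasDerivAt (fun s => U s (dl x)) (U t (d x)) t

/-- Word length with respect to `S` and all powers of the extra generator, the exponent `φ x q`
of the syllable of `x` at the coset `q`, and the length `L x q` on the line through `x`. -/
structure WL {G : Type} [Group G] (S : Finset G) (ℓ : FZ G → ℕ) (φ : FZ G → Cs G → ℤ)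
    (L : FZ G → Cs G → ℕ) : Prop where
  one : ℓ 1 = 0
  eq_one : ∀ x, ℓ x = 0 → x = 1
  sub : ∀ x y, ℓ (x * y) ≤ ℓ x + ℓ y
  symm : ∀ x, ℓ x⁻¹ = ℓ x
  geo : ∀ x n, ℓ x = n + 1 → ∃ p s, x = p * s ∧ ℓ p = n ∧ ℓ s = 1 ∧
    ((∃ g ∈ S, s = Coprod.inl g) ∨ ∃ k : ℤ, s = gen G ^ k)
  φ_mul : ∀ x z q, φ (x * z) q = φ x q + φ z (x⁻¹ • q)
  φ_inl : ∀ g q, φ (Coprod.inl g) q = 0
  φ_gen : ∀ k : ℤ, φ (gen G ^ k) ((1 : FZ G) : Cs G) = k
  φ_gen' : ∀ (k : ℤ) q, q ≠ ((1 : FZ G) : Cs G) → φ (gen G ^ k) q = 0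
  line : ∀ (z : FZ G) (k : ℤ) x, L (z * gen G ^ k * z⁻¹ * x) (z : Cs G) = L x (z : Cs G)
  nd : ∀ x q, φ x q ≠ 0 → L x q = ℓ x
  ge : ∀ x q, ℓ x ≤ L x q
  le : ∀ x z : FZ G, L x (z : Cs G) ≤ ℓ z + 1 + ℓ (z⁻¹ * x)
  count : ∀ x (Z : Finset (Cs G)), (∀ q ∈ Z, φ x q ≠ 0) → Z.card ≤ ℓ x
  two : ∀ p x q, ℓ p + ℓ (p⁻¹ * x) = ℓ x → φ p q = 0 ∨ φ p q = φ x q

def WLStmt : Prop :=
  ∀ (G : Type) [Group G], Group.FG G → ∃ (S : Finset G) (ℓ : FZ G → ℕ) (φ : FZ G → Cs G → ℤ)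
    (L : FZ G → Cs G → ℕ), WL S ℓ φ L

def LocStmt : Prop :=
  ∀ (G : Type) [Group G] (S : Finset G) (ℓ : FZ G → ℕ) (φ : FZ G → Cs G → ℤ)
    (L : FZ G → Cs G → ℕ) (β : G → Op (FZ G)), WL S ℓ φ L →
    Co (Coprod.inl : G →* FZ G) β → (∀ x, An ℓ (Coprod.inl : G →* FZ G).range (β x)) →
    ∃ (a₀ C : ℝ) (B : FZ G → Cs G → ℝ), 0 < a₀ ∧ 0 ≤ C ∧
      (∀ x z q, B (x * z) q = B x q + B z (x⁻¹ • q)) ∧ (∀ q, B (gen G) q = 0) ∧
      (∀ g x : G, (B (Coprod.inl g) ((Coprod.inl x : FZ G) : Cs G) : ℂ) =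
        β g (dl 1) (Coprod.inl x)) ∧
      (∀ (g : G) q, (∀ x : G, q ≠ ((Coprod.inl x : FZ G) : Cs G)) → B (Coprod.inl g) q = 0) ∧
      ∀ x (Z : Finset (Cs G)),
        ∑ q ∈ Z, B x q ^ 2 * Real.exp (2 * a₀ * ((L x q : ℝ) - ℓ x)) ≤ C * (1 + ℓ x)

def HargStmt : Prop :=
  ∀ (Λ : Type) [Group Λ] (y : Λ), InfOrd y → ∃ h : Op Λ, h ∈ LL Λ ∧ IsSelfAdjoint h ∧
    Supp (C0 y) (h (dl 1)) ∧ NormedSpace.exp (Complex.I • h) = lam y

/-- The conjugate of `h` attached to a coset. -/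
def hq {G : Type} [Group G] (h : Op (FZ G)) (q : Cs G) : Op (FZ G) :=
  lam q.out * h * lam q.out⁻¹

def LineStmt : Prop :=
  ∀ (G : Type) [Group G] (S : Finset G) (ℓ : FZ G → ℕ) (φ : FZ G → Cs G → ℤ)
    (L : FZ G → Cs G → ℕ) (h : Op (FZ G)), WL S ℓ φ L → h ∈ LL (FZ G) →
    Supp (C0 (gen G)) (h (dl 1)) →
    (∀ z : FZ G, hq h (z : Cs G) = lam z * h * lam z⁻¹) ∧
    (∀ q x y, hq h q (dl x) y ≠ 0 → ∃ k : ℤ, k ≠ 0 ∧ y = q.out * gen G ^ k * q.out⁻¹ * x) ∧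
    (∀ q q' x y, hq h q (dl x) y ≠ 0 → hq h q' (dl x) y ≠ 0 → q = q') ∧
    ∀ (b : Cs G → ℂ) (r : ℝ), 0 ≤ r → (∀ Z : Finset (Cs G), ∑ q ∈ Z, ‖b q‖ ^ 2 ≤ r ^ 2) →
      ∀ x, ∃ v : H (FZ G), ‖v‖ ≤ r * ‖h (dl 1)‖ ∧
        (∀ q y, hq h q (dl x) y ≠ 0 → v y = b q * hq h q (dl x) y) ∧
        ∀ y, (∀ q, hq h q (dl x) y = 0) → v y = 0

/-- The time one map of the flow of a cocycle. -/
def FlowStmt3 : Prop :=
  ∀ (G : Type) [Group G], Group.FG G → ∃ (ℓ : FZ G → ℕ) (M : ℝ), 0 ≤ M ∧ ∀ β : G → Op (FZ G),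
    Co (Coprod.inl : G →* FZ G) β → (∀ x, An ℓ (Coprod.inl : G →* FZ G).range (β x)) →
    ∃ α : FZ G →* Op (FZ G), Gen α ∧ α (gen G) = lam (gen G) ∧ ∀ g : G,
      ‖α (Coprod.inl g) (dl 1) - dl (Coprod.inl g)‖ ≤ M * ‖β g (dl 1)‖ ∧
      ‖α (Coprod.inl g) (dl 1) - dl (gen G * Coprod.inl g)‖ ≤ M * ‖β g (dl 1) - dl 1‖

/-! Isomorphisms -/

/-- One-sided intertwining. -/
def IntStmt : Prop :=
  ∀ (G Λ : Type) [Group G] [Group Λ] [Countable Λ] (f : G →* Λ), Function.Injective f →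
    (∀ (E : Finset G) (F : Finset Λ) (η : ℝ), 0 < η → ∃ α : Λ →* Op Λ, Gen α ∧
      (∀ g ∈ E, ‖α (f g) (dl 1) - dl (f g)‖ ≤ η) ∧
      ∀ x ∈ F, ∃ g, ‖α x (dl 1) - dl (f g)‖ ≤ η) →
    ∀ (E : Finset G) (η : ℝ), 0 < η →
      ∃ π : G →* Op Λ, Gen π ∧ ∀ g ∈ E, ‖π g (dl 1) - dl (f g)‖ ≤ η

/-- Absorption of a free generator, by isomorphisms close to the inclusion. -/
def AbsStmt : Prop :=
  ∀ (G : Type) [Group G], Group.FG G → AF G → ∀ (E : Finset G) (η : ℝ), 0 < η →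
    ∃ π : G →* Op (FZ G), Gen π ∧ ∀ g ∈ E, ‖π g (dl 1) - dl (Coprod.inl g)‖ ≤ η

def VAmStmt : Prop :=
  ∀ (A B G : Type) [Group A] [Group B] [Group G] (c : A) (d : B) (f : A →* G) (g : B →* G),
    Pin c d f g → Group.FG A → Q0 A → Cyc c → InfOrd c → InfOrd d → Eqv (FZ G) (Coprod A B)

def VHxStmt : Prop :=
  ∀ (A G : Type) [Group A] [Group G] (c c' : A) (f : A →* G) (t : G), Hx c c' f t →
    Group.FG A → Q0 A → Eqv (FZ (FZ G)) (FZ (FZ A))

/-- The final statement. -/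
def LimfStmt : Prop :=
  ∀ (G : Type) [Group G], Hier G → Lim G → (∃ x y : G, x * y ≠ y * x) →
    VNIso G (FreeGroup (Fin 2))

end

end Pool.Agent.MP_494aff_an.Lf

end MrgPart1

-- marker of a merged file
example : 731051 + 539375 = 731051 + 539375 := rfl

end MrgPart0

-- ======== part 1: formerly Pool.Agent.MP_494aff_an.un.Defs
section MrgPart1

/-! Independent subgroups. -/

namespace Pool.Agent.MP_494aff_an.Un

open Pool.Agent.MP_494aff_an.Pinch Pool.Agent.MP_494aff_an.Pinch.TowP Pool.Agent.MP_494aff_an.Lf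

variable {Γ : Type} [Group Γ]

/-- `c` is a cocycle on the subgroup `K` with square summable values. -/
def Cy (K : Subgroup Γ) (c : Γ → H Γ) : Prop :=
  ∀ x ∈ K, ∀ y ∈ K, c (x * y) = c x + lam x (c y)

/-- Cocycles on `L` are limits of restrictions of cocycles on `K`. -/
def IND (K L : Subgroup Γ) : Prop :=
  ∀ c, Cy L c → ∀ S : Finset Γ, (∀ s ∈ S, s ∈ L) → ∀ ε : ℝ, 0 < ε →
    ∃ c', Cy K c' ∧ ∀ s ∈ S, ‖c' s - c s‖ ≤ ε

/-- `L` is finitely generated and independent in all larger finitely generated subgroups. -/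
def Ind (L : Subgroup Γ) : Prop := L.FG ∧ ∀ K : Subgroup Γ, K.FG → L ≤ K → IND K L

/-- Every finitely generated subgroup lies in an independent one. -/
def RigidStmt : Prop :=
  ∀ (G : Type) [Group G], CT G → (∀ K : Subgroup G, K.FG → Hier K) →
    ∀ L₀ : Subgroup G, L₀.FG → ∃ L, L₀ ≤ L ∧ Ind L

/-- Finitely generated limit groups have a hierarchy. -/
def HierStmt : Prop := ∀ (G : Type) [Group G], Group.FG G → Lim G → Hier G

end Pool.Agent.MP_494aff_an.Un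

end MrgPart1

-- ======== part 2: formerly Pool.Agent.MP_494aff_an.se.SpecA
section MrgPart2

/-! Hierarchy of limit groups: dimension, forests, complexes, trees. -/

open Filter Topology Finsupp
open scoped Pointwise

namespace Pool.Agent.MP_494aff_an.Se

open Pool.Agent.MP_494aff_an.Pinch Pool.Agent.MP_494aff_an.Pinch.TowP Pool.Agent.MP_494aff_an.Lf

noncomputable section

/-! Dimension -/

section Dim

variable {G ι κ A : Type} [Group G] [Group A]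

/-- Closed and invariant under right translations. -/
def Inv (W : Submodule ℂ (ι → H G)) : Prop :=
  IsClosed (W : Set (ι → H G)) ∧ ∀ g, ∀ ξ ∈ W, (fun i => rho g (ξ i)) ∈ W

/-- Commutes with right translations. -/
def Eqi (T : (ι → H G) →L[ℂ] (κ → H G)) : Prop :=
  ∀ g ξ, T (fun i => rho g (ξ i)) = fun k => rho g (T ξ k)

/-- The Hilbert sum. -/
def toL2 (G ι : Type) [Fintype ι] : (ι → H G) ≃L[ℂ] PiLp 2 fun _ : ι => H G :=
  (PiLp.continuousLinearEquiv 2 ℂ fun _ : ι => H G).symm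

open Classical in
/-- The dimension of the closure of `W`. -/
def dim [Fintype ι] (W : Submodule ℂ (ι → H G)) : ℝ :=
  ∑ i, ‖(W.map (toL2 G ι).toLinearEquiv.toLinearMap).topologicalClosure.starProjection
    (toL2 G ι (Pi.single i (dl 1)))‖ ^ 2

/-- Cocycles with values in the left regular representation. -/
def Cy (ι : A →* G) (c : A → H G) : Prop := ∀ x y, c (x * y) = c x + lam (ι x) (c y)

/-- The values of cocycles on a family. -/
def Zc (ι : A →* G) (y : κ → A) : Submodule ℂ (κ → H G) where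
  carrier := {η | ∃ c, Cy ι c ∧ ∀ k, c (y k) = η k}
  zero_mem' := ⟨fun _ => 0, fun _ _ => by simp, fun _ => rfl⟩
  add_mem' := by
    rintro _ _ ⟨c, h, e⟩ ⟨c', h', e'⟩
    refine ⟨fun x => c x + c' x, fun x y => ?_, fun k => by simp [e, e']⟩
    simp only [h x y, h' x y, map_add]
    abel
  smul_mem' := by
    rintro a _ ⟨c, h, e⟩
    refine ⟨fun x => a • c x, fun x y => ?_, fun k => by simp [e]⟩
    simp only [h x y, map_smul, smul_add]

end Dim

structure DimStmt : Prop where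
  top : ∀ (G ι : Type) [Group G] [Fintype ι],
    dim (⊤ : Submodule ℂ (ι → H G)) = Fintype.card ι
  bot : ∀ (G ι : Type) [Group G] [Fintype ι], dim (⊥ : Submodule ℂ (ι → H G)) = 0
  nonneg : ∀ (G ι : Type) [Group G] [Fintype ι] (W : Submodule ℂ (ι → H G)), 0 ≤ dim W
  clo : ∀ (G ι : Type) [Group G] [Fintype ι] (W : Submodule ℂ (ι → H G)),
    dim W.topologicalClosure = dim W
  mono : ∀ (G ι : Type) [Group G] [Fintype ι] (W W' : Submodule ℂ (ι → H G)), W ≤ W' →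
    dim W ≤ dim W'
  eq : ∀ (G ι : Type) [Group G] [Fintype ι] (W W' : Submodule ℂ (ι → H G)), Inv W → Inv W' →
    W ≤ W' → dim W' ≤ dim W → W = W'
  rn : ∀ (G ι κ : Type) [Group G] [Fintype ι] [Fintype κ] (W : Submodule ℂ (ι → H G))
    (T : (ι → H G) →L[ℂ] (κ → H G)), Inv W → Eqi T →
    dim W = dim (W ⊓ LinearMap.ker T.toLinearMap) + dim (W.map T.toLinearMap)
  inv_ker : ∀ (G ι κ : Type) [Group G] (W : Submodule ℂ (ι → H G))
    (T : (ι → H G) →L[ℂ] (κ → H G)), Inv W → Eqi T → Inv (W ⊓ LinearMap.ker T.toLinearMap)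
  inv_map : ∀ (G ι κ : Type) [Group G] (W : Submodule ℂ (ι → H G))
    (T : (ι → H G) →L[ℂ] (κ → H G)), Inv W → Eqi T →
    Inv (W.map T.toLinearMap).topologicalClosure
  sum : ∀ (G ι κ : Type) [Group G] [Fintype ι] [Fintype κ] (W₁ : Submodule ℂ (ι → H G))
    (W₂ : Submodule ℂ (κ → H G)) (W : Submodule ℂ (ι ⊕ κ → H G)), Inv W₁ → Inv W₂ →
    (∀ η, η ∈ W ↔ (fun i => η (Sum.inl i)) ∈ W₁ ∧ (fun k => η (Sum.inr k)) ∈ W₂) →
    Inv W ∧ dim W = dim W₁ + dim W₂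
  sig : ∀ (G ι : Type) (κ : ι → Type) [Group G] [Fintype ι] [∀ i, Fintype (κ i)]
    (W : ∀ i, Submodule ℂ (κ i → H G)) (W' : Submodule ℂ ((Σ i, κ i) → H G)), (∀ i, Inv (W i)) →
    (∀ η, η ∈ W' ↔ ∀ i, (fun k => η ⟨i, k⟩) ∈ W i) → Inv W' ∧ dim W' = ∑ i, dim (W i)
  lim : ∀ (G ι : Type) [Group G] [Fintype ι] (W : ℕ → Submodule ℂ (ι → H G)), (∀ n, Inv (W n)) →
    Antitone W → Tendsto (fun n => dim (W n)) atTop (𝓝 (dim (⨅ n, W n)))

/-- Cocycles on a finitely generated group. -/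
def CocStmt : Prop :=
  ∀ (A G κ : Type) [Group A] [Group G] [Fintype κ] (ι : A →* G) (y : κ → A),
    Subgroup.closure (Set.range y) = ⊤ → Inv (Zc ι y) ∧
    (∀ x, ∃ T : (κ → H G) →L[ℂ] H G, (∀ g η, T (fun k => rho g (η k)) = rho g (T η)) ∧
      ∀ c, Cy ι c → c x = T fun k => c (y k)) ∧
    ∀ (κ' : Type) [Fintype κ'] (y' : κ' → A), Subgroup.closure (Set.range y') = ⊤ →
      dim (Zc ι y) = dim (Zc ι y')

/-- The dimension of the space of cocycles is an integer. -/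
def ZintStmt : Prop :=
  ∀ (A G κ : Type) [Group A] [Group G] [Fintype κ] (ι : A →* G) (y : κ → A), Hier A → CT A →
    Function.Injective ι → Subgroup.closure (Set.range y) = ⊤ → ∃ n : ℕ, dim (Zc ι y) = n

/-- Equivariant functions on the classes of an invariant equivalence relation. -/
def OrbStmt : Prop :=
  ∀ (G X : Type) [Group G] [Fintype X] (r : G × X → G × X → Prop) (X₁ : Set X)
    (W : Submodule ℂ (X → H G)), (∀ g : G, g ≠ 1 → InfOrd g) → Equivalence r →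
    (∀ h g x g' x', r (g, x) (g', x') → r (h * g, x) (h * g', x')) →
    (∀ U, U ∈ W ↔ (∀ x γ x', r (1, x) (γ, x') → U x = lam γ (U x')) ∧ ∀ x ∈ X₁, U x = 0) →
    Inv W ∧ ∃ n : ℕ, dim W = n

/-- Stabilisers of classes are finitely generated. -/
def FgvStmt : Prop :=
  ∀ (G X : Type) [Group G] (R : G × X → G × X → Prop) (X₀ : Set X) (Λ : Set G), X₀.Finite →
    Λ.Finite → (∀ h g x g' x', R (g, x) (g', x') → R (h * g, x) (h * g', x')) →
    (∀ a a', R a a' → a.1⁻¹ * a'.1 ∈ Λ) → (∀ x, ∃ x₀ ∈ X₀, Relation.EqvGen R (1, x) (1, x₀)) →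
    ∀ (x : X) (P : Subgroup G), (∀ g, g ∈ P ↔ Relation.EqvGen R (1, x) (g, x)) → P.FG

/-! Forests -/

/-- Joined by a path. -/
def Con {Vt Ed : Type} (o t : Ed → Vt) : Vt → Vt → Prop :=
  Relation.EqvGen fun a b => ∃ e, o e = a ∧ t e = b

/-- A graph with an action, in which every edge separates its ends. -/
structure Forest (G : Type) {Vt Ed : Type} [Group G] [MulAction G Vt] [MulAction G Ed]
    (o t : Ed → Vt) : Prop where
  o_smul : ∀ (g : G) e, o (g • e) = g • o e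
  t_smul : ∀ (g : G) e, t (g • e) = g • t e
  side : ∀ e, ∃ σ : Vt → Prop, σ (o e) ∧ ¬ σ (t e) ∧ ∀ e', e' ≠ e → (σ (o e') ↔ σ (t e'))

/-- `G` is the HNN extension of `A` whose stable letter conjugates `i` to `j`. -/
structure HnK {K A G : Type} [Group K] [Group A] [Group G] (i j : K →* A) (f : A →* G) (t : G) :
    Prop where
  comm : ∀ x, f (j x) = t * f (i x) * t⁻¹
  lift : ∀ (M : Type) [Group M] (φ : A →* M) (τ : M), (∀ x, φ (j x) = τ * φ (i x) * τ⁻¹) →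
    ∃ π : G →* M, (∀ a, π (f a) = φ a) ∧ π t = τ
  gen : ∀ T : Subgroup G, (∀ a, f a ∈ T) → t ∈ T → ∀ z, z ∈ T

/-- One edge, amalgam. -/
def BsAStmt : Prop :=
  ∀ (G Vt Ed : Type) [Group G] [MulAction G Vt] [MulAction G Ed] (o t : Ed → Vt) (e : Ed)
    (P A B C : Subgroup G) (hCA : C ≤ A) (hCB : C ≤ B) (hAP : A ≤ P) (hBP : B ≤ P),
    Forest G o t → (∀ g ∈ A, g • o e = o e) → (∀ g ∈ B, g • t e = t e) →
    (∀ g, g ∈ C ↔ g ∈ P ∧ g • e = e) → P ≤ A ⊔ B →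
    Amal (Subgroup.inclusion hCA) (Subgroup.inclusion hCB) (Subgroup.inclusion hAP)
      (Subgroup.inclusion hBP) ∧ (P.FG → C.FG → A.FG ∧ B.FG)

/-- One edge, HNN extension. -/
def BsHStmt : Prop :=
  ∀ (G Vt Ed : Type) [Group G] [MulAction G Vt] [MulAction G Ed] (o t : Ed → Vt) (e : Ed)
    (P A C : Subgroup G) (hCA : C ≤ A) (hAP : A ≤ P) (τ : P) (j : C →* A),
    Forest G o t → (∀ g ∈ A, g • o e = o e) → (τ : G) • t e = o e →
    (∀ g, g ∈ C ↔ g ∈ P ∧ g • e = e) → (∀ x, (j x : G) = τ * x * (τ : G)⁻¹) →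
    P ≤ A ⊔ Subgroup.zpowers (τ : G) →
    HnK (Subgroup.inclusion hCA) j (Subgroup.inclusion hAP) τ ∧ (P.FG → C.FG → A.FG)

def PushAStmt : Prop :=
  ∀ (K A B G : Type) [Group K] [Group A] [Group B] [Group G] (i : K →* A) (j : K →* B)
    (f : A →* G) (g : B →* G), Amal i j f g → Function.Injective i → Function.Injective j →
    CT G → Group.FG K → (∀ x y : K, x * y = y * x) → Hier A → Hier B → Hier G

def PushHStmt : Prop :=
  ∀ (K A G : Type) [Group K] [Group A] [Group G] (i j : K →* A) (f : A →* G) (t : G),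
    HnK i j f t → Function.Injective i → Function.Injective j →
    CT G → Group.FG K → (∀ x y : K, x * y = y * x) → Hier A → Hier G

/-- Groups that act on a forest with abelian edge stabilisers. -/
def BsStmt : Prop :=
  ∀ (G Vt Ed : Type) [Group G] [MulAction G Vt] [MulAction G Ed] (o t : Ed → Vt) (a : Vt)
    (P : Subgroup G), Forest G o t → CT G → P.FG → (∀ g ∈ P, Con o t a (g • a)) →
    (∀ e : Ed, (P ⊓ MulAction.stabilizer G e).FG ∧
      ∀ x ∈ P ⊓ MulAction.stabilizer G e, ∀ y ∈ P ⊓ MulAction.stabilizer G e, x * y = y * x) →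
    (∀ v, Con o t a v → (P ⊓ MulAction.stabilizer G v).FG →
      Hier ↥(P ⊓ MulAction.stabilizer G v)) → Hier P

/-! Complexes -/

/-- Translation of chains. -/
def sh {G X : Type} [Group G] (g : G) : (G × X →₀ ℂ) →ₗ[ℂ] (G × X →₀ ℂ) :=
  lmapDomain ℂ ℂ fun x => (g * x.1, x.2)

/-- The value of a cochain on a chain. -/
def ev {G X : Type} [Group G] (ξ : X → H G) : (G × X →₀ ℂ) →ₗ[ℂ] H G :=
  linearCombination ℂ fun x => lam x.1 (ξ x.2)

/-- Edges `G × E` with ends in `Vx`, faces `G × Fc` with boundary chains. -/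
structure Cx (G Vx E Fc : Type) where
  o : E → Vx
  t : E → Vx
  bd : Fc → (G × E →₀ ℂ)

namespace Cx

variable {G Vx E Fc : Type} [Group G] [MulAction G Vx] (K : Cx G Vx E Fc)

def d1 : (G × E →₀ ℂ) →ₗ[ℂ] (Vx →₀ ℂ) :=
  linearCombination ℂ fun x => single (x.1 • K.t x.2) 1 - single (x.1 • K.o x.2) 1

def d2 : (G × Fc →₀ ℂ) →ₗ[ℂ] (G × E →₀ ℂ) := linearCombination ℂ fun x => sh x.1 (K.bd x.2)

open Classical in
/-- The boundary of an arbitrary function on the faces. -/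
def D2 [Fintype Fc] (η : G × Fc → ℂ) (y : G × E) : ℂ :=
  ∑ f, (K.bd f).sum fun x c => if x.2 = y.2 then c * η (y.1 * x.1⁻¹, f) else 0

open Classical in
/-- The number of occurrences of an edge type in the faces of `F`. -/
def mult (F : Finset Fc) (e : E) : ℕ :=
  ∑ f ∈ F, ((K.bd f).support.filter fun x => x.2 = e).card

/-- Faces joined through common edges. -/
def DC (F : Finset Fc) : G × Fc → G × Fc → Prop :=
  Relation.EqvGen fun x y => x.2 ∈ F ∧ y.2 ∈ F ∧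
    ∃ z, sh x.1 (K.bd x.2) z ≠ 0 ∧ sh y.1 (K.bd y.2) z ≠ 0

/-- Vertices joined through edges with type in `E'`. -/
def Cn (E' : Set E) : Vx → Vx → Prop :=
  Relation.EqvGen fun a b => ∃ g : G, ∃ e ∈ E', g • K.o e = a ∧ g • K.t e = b

/-- Cycles bound. -/
def H1 (E' : Set E) (F : Set Fc) : Prop :=
  ∀ ζ : G × E →₀ ℂ, (∀ x ∈ ζ.support, x.2 ∈ E') → K.d1 ζ = 0 →
    ∃ η : G × Fc →₀ ℂ, (∀ x ∈ η.support, x.2 ∈ F) ∧ K.d2 η = ζ

def Pm : Prop := ∀ f x, K.bd f x = 0 ∨ K.bd f x = 1 ∨ K.bd f x = -1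

def M2 : Prop := ∀ F, (∀ e, K.mult F e ≠ 1) → ∀ e, K.mult F e = 0 ∨ K.mult F e = 2

def Na : Prop := ∀ F, (∀ e, K.mult F e ≠ 1) → ∀ f ∈ F, ∃ x y : G, x * y ≠ y * x ∧
  K.DC F (1, f) (x, f) ∧ K.DC F (1, f) (y, f)

structure Ok : Prop where
  pm : K.Pm
  cyc : ∀ f, K.d1 (K.bd f) = 0
  m2 : K.M2
  na : K.Na

/-- A periodic line of faces. -/
structure Wall (F : Finset Fc) (k : ℕ) (h : G) (φ : ℤ → G × Fc) (ε : ℤ → G × E) : Prop where
  pos : 0 < k
  ne : h ≠ 1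
  φ_per : ∀ i, φ (i + k) = (h * (φ i).1, (φ i).2)
  ε_per : ∀ i, ε (i + k) = (h * (ε i).1, (ε i).2)
  φ_mem : ∀ i, (φ i).2 ∈ F
  φ_typ : ∀ i j, (φ i).2 = (φ j).2 → (k : ℤ) ∣ i - j
  ε_typ : ∀ i j, (ε i).2 = (ε j).2 → (k : ℤ) ∣ i - j
  left : ∀ i, sh (φ i).1 (K.bd (φ i).2) (ε i) ≠ 0
  right : ∀ i, sh (φ i).1 (K.bd (φ i).2) (ε (i + 1)) ≠ 0
  only : ∀ i (x : G × Fc), x.2 ∈ F → sh x.1 (K.bd x.2) (ε (i + 1)) ≠ 0 → x = φ i ∨ x = φ (i + 1)

/-- The faces of `F` use only edges of `E'`. -/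
def Sub (E' : Finset E) (F : Finset Fc) : Prop := ∀ f ∈ F, ∀ x ∈ (K.bd f).support, x.2 ∈ E'

/-- Finitely generated stabilisers of components have a hierarchy. -/
def HP (E' : Finset E) : Prop :=
  ∀ (v : Vx) (P : Subgroup G), (∀ g, g ∈ P ↔ K.Cn E' v (g • v)) → P.FG → Hier P

/-- One step of the induction. -/
def Step (E' : Finset E) : Prop :=
  ∃ (E'' : Finset E) (F'' : Finset Fc), E''.card < E'.card ∧ K.Sub E'' F'' ∧ K.H1 E'' F'' ∧
    (K.HP E'' → K.HP E')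

/-- The complex sees all relators of length at most `n`. -/
structure Good {m : ℕ} (y : Fin m → G) (n : ℕ) (v₀ : Vx)
    (x : FreeGroup (Fin m) → (G × E →₀ ℂ)) : Prop where
  ok : K.Ok
  fin : ∃ O : Finset Vx, ∀ v, ∃ b ∈ O, ∃ g : G, g • b = v
  hier : ∀ v : Vx, Hier (MulAction.stabilizer G v)
  coc : ∀ w w', x (w * w') = x w + sh (FreeGroup.lift y w) (x w')
  bdx : ∀ w, K.d1 (x w) = single (FreeGroup.lift y w • v₀) 1 - single v₀ 1
  rel : ∀ w, FreeGroup.lift y w = 1 → w.norm ≤ n → x w ∈ LinearMap.range K.d2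
  con : ∀ v, K.Cn Set.univ v₀ v
  gen : ∀ ζ, K.d1 ζ = 0 → ζ ∈ LinearMap.range K.d2 ⊔
    Submodule.span ℂ {z | ∃ g w, FreeGroup.lift y w = 1 ∧ z = sh g (x w)}

end Cx

def WaStmt : Prop :=
  ∀ (G Vx E Fc : Type) [Group G] [MulAction G Vx] (K : Cx G Vx E Fc) (F : Finset Fc), K.Ok →
    F.Nonempty → (∀ e, K.mult F e = 0 ∨ K.mult F e = 2) → ∃ k h φ ε, K.Wall F k h φ ε

def WbStmt : Prop :=
  ∀ (G Vx E Fc : Type) [Group G] [MulAction G Vx] (K : Cx G Vx E Fc) (E' : Finset E)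
    (F : Finset Fc) (k : ℕ) (h : G) (φ : ℤ → G × Fc) (ε : ℤ → G × E), K.Ok → CT G →
    K.Sub E' F → K.H1 E' F → K.Wall F k h φ ε → K.Step E'

def WallStmt : Prop :=
  ∀ (G Vx E Fc : Type) [Group G] [MulAction G Vx] [Fintype E] [Fintype Fc] (K : Cx G Vx E Fc)
    (v₀ : Vx), K.Ok → CT G → Group.FG G → (∀ v : Vx, Hier (MulAction.stabilizer G v)) →
    K.H1 Set.univ Set.univ → (∀ g : G, K.Cn Set.univ v₀ (g • v₀)) → Hier G

def GapAStmt : Prop :=
  ∀ (G Vx E Fc : Type) [Group G] [MulAction G Vx] [Fintype Fc] (K : Cx G Vx E Fc), K.Ok → CT G →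
    ∃ C : ℝ, ∀ η : G × Fc →₀ ℂ,
      ∑ x ∈ η.support, ‖η x‖ ^ 2 ≤ C * ∑ y ∈ (K.d2 η).support, ‖K.d2 η y‖ ^ 2

def GapFStmt : Prop :=
  ∀ (G Vx E Fc : Type) [Group G] [MulAction G Vx] [Fintype Fc] (K : Cx G Vx E Fc), K.Ok → CT G →
    ∀ η : G × Fc → ℂ, Summable (fun x => ‖η x‖ ^ 2) → (Function.support (K.D2 η)).Finite →
      (Function.support η).Finite

def GapStmt : Prop :=
  ∀ (G Vx E Fc : Type) [Group G] [MulAction G Vx] [Fintype E] [Fintype Fc] (K : Cx G Vx E Fc),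
    K.Ok → CT G → (Function.Surjective fun (ξ : E → H G) (f : Fc) => ev ξ (K.bd f)) ∧
    ∀ ζ, (∀ ξ : E → H G, (∀ f, ev ξ (K.bd f) = 0) → ev ξ ζ = 0) → ζ ∈ LinearMap.range K.d2

def SqStmt : Prop :=
  ∀ (G : Type) [Group G] (m : ℕ) (y : Fin m → G), CT G →
    Function.Surjective (FreeGroup.lift y) → ∃ n : ℕ,
    ∀ (Vx E Fc : Type) [MulAction G Vx] [Fintype E] [Fintype Fc] (K : Cx G Vx E Fc) (v₀ : Vx)
      (x : FreeGroup (Fin m) → (G × E →₀ ℂ)), K.Good y n v₀ x → K.H1 Set.univ Set.univ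

/-! The free group and its ultrapowers -/

abbrev F2 : Type := FreeGroup (Fin 2)

/-- Cyclic length. -/
def cl (w : F2) : ℕ := (FreeGroup.reduceCyclically w.toWord).length

structure FwStmt : Prop where
  four : ∀ x y z w : F2, (x⁻¹ * y).norm + (z⁻¹ * w).norm ≤
    max ((x⁻¹ * z).norm + (y⁻¹ * w).norm) ((x⁻¹ * w).norm + (y⁻¹ * z).norm)
  geo : ∀ (w : F2) (k : ℕ), k ≤ w.norm → ∃ p : F2, p.norm = k ∧ (p⁻¹ * w).norm + k = w.norm
  le : ∀ w : F2, cl w ≤ w.norm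
  zero : ∀ w : F2, cl w = 0 ↔ w = 1
  conj : ∀ w y : F2, cl (y * w * y⁻¹) = cl w
  zpow : ∀ (w : F2) (k : ℤ), cl (w ^ k) = k.natAbs * cl w
  comm : ∀ w w' : F2, w ≠ 1 → w' ≠ 1 → w * w' = w' * w → w.norm + cl w' = w'.norm + cl w
  mid : ∀ w : F2, ∃ p : F2, p.norm + (p⁻¹ * w).norm = w.norm ∧ 2 * p.norm ≤ w.norm ∧
    w.norm ≤ 2 * p.norm + 1 ∧ (p⁻¹ * w * p).norm = cl w

/-- Elements that move two distant points by little commute. -/
def SmallStmt : Prop :=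
  ∀ g h q : F2, 10 * g.norm < q.norm → 10 * h.norm < q.norm →
    10 * (q⁻¹ * g * q).norm < q.norm → 10 * (q⁻¹ * h * q).norm < q.norm → g * h = h * g

/-- At a point of least displacement some short word has large cyclic length. -/
def SerreStmt : Prop :=
  ∀ (m : ℕ) (s : Fin m → F2) (n : ℕ), (∀ i, (s i).norm ≤ n) →
    (∀ y : F2, ∃ i, n ≤ (y⁻¹ * s i * y).norm) →
    (∃ i, n ≤ cl (s i) + 2) ∨ ∃ i i', n ≤ cl (s i * s i') + 2

def TrStmt : Prop :=
  ∃ ρ : F2 →* Matrix.SpecialLinearGroup (Fin 2) (Polynomial ℤ), ∀ w,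
    Matrix.trace (ρ w).1 ≠ 0 ∧ (Matrix.trace (ρ w).1).natDegree = cl w

section Rep

variable {G : Type} [Group G]

/-- An embedding into the ultrapower, given by representatives. -/
structure Rep (U : Ultrafilter ℕ) (φ : G → ℕ → F2) : Prop where
  mul : ∀ g h, ∀ᶠ j in U, φ (g * h) j = φ g j * φ h j
  ne : ∀ g, g ≠ 1 → ∀ᶠ j in U, φ g j ≠ 1

/-- `g` is infinitely shorter than `h`. -/
def Lt (U : Ultrafilter ℕ) (φ : G → ℕ → F2) (g h : G) : Prop :=
  Tendsto (fun j => (cl (φ g j) : ℝ) / cl (φ h j)) U (𝓝 0)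

/-- A bound for the length of chains. -/
def Bnd (U : Ultrafilter ℕ) (φ : G → ℕ → F2) (N : ℕ) : Prop :=
  ∀ l : List G, (∀ g ∈ l, g ≠ 1) → l.Pairwise (Lt U φ) → l.length ≤ N

end Rep

/-- Abelian subgroups are finitely generated. -/
def AbFG (G : Type) [Group G] : Prop :=
  ∀ M : Subgroup G, (∀ x ∈ M, ∀ y ∈ M, x * y = y * x) → M.FG

def MeasStmt : Prop :=
  ∀ (G : Type) [Group G] (U : Ultrafilter ℕ) (φ : G → ℕ → F2), Group.FG G → Rep U φ →
    ∃ N, Bnd U φ N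

def AbStmt : Prop :=
  ∀ (G : Type) [Group G] (U : Ultrafilter ℕ) (φ : G → ℕ → F2), Group.FG G → Rep U φ → AbFG G

/-! Trees -/

section Tree

variable (G : Type) {T : Type} [Group G] [MetricSpace T] [MulAction G T]

/-- An action on a real tree with translation lengths `ℓ`. -/
structure Cone (T : Type) [MetricSpace T] [MulAction G T] (ℓ : G → ℝ) : Prop where
  iso : ∀ (g : G) (x y : T), dist (g • x) (g • y) = dist x y
  four : ∀ x y z w : T, dist x y + dist z w ≤ max (dist x z + dist y w) (dist x w + dist y z)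
  geo : ∀ (p q : T) (r : ℝ), 0 ≤ r → r ≤ dist p q → ∃ z, dist p z = r ∧ dist z q = dist p q - r
  ne : Nonempty T
  nonneg : ∀ g, 0 ≤ ℓ g
  le : ∀ (g : G) (z : T), ℓ g ≤ dist z (g • z)
  comm : ∀ (g h : G) (z : T), g ≠ 1 → h ≠ 1 → g * h = h * g →
    dist z (g • z) - ℓ g = dist z (h • z) - ℓ h
  mid : ∀ (g : G) (z μ : T), dist z μ = dist z (g • z) / 2 → dist μ (g • z) = dist z (g • z) / 2 →
    dist μ (g • μ) = ℓ g
  small : ∀ (g h : G) (p q : T), dist p (g • p) < dist p q / 10 → dist q (g • q) < dist p q / 10 →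
    dist p (h • p) < dist p q / 10 → dist q (h • q) < dist p q / 10 → g * h = h * g

/-- An action on a real tree with a family of lines. -/
structure Tr (Ln : Set (Set T)) : Prop where
  ct : CT G
  ne : Nonempty T
  iso : ∀ (g : G) (x y : T), dist (g • x) (g • y) = dist x y
  four : ∀ x y z w : T, dist x y + dist z w ≤ max (dist x z + dist y w) (dist x w + dist y z)
  geo : ∀ (p q : T) (r : ℝ), 0 ≤ r → r ≤ dist p q → ∃ z, dist p z = r ∧ dist z q = dist p q - r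
  uniq : ∀ p q z z' : T, dist p z + dist z q = dist p q → dist p z' + dist z' q = dist p q →
    dist z z' = |dist p z - dist p z'|
  med : ∀ x y z : T, ∃ μ, dist x μ + dist μ y = dist x y ∧ dist x μ + dist μ z = dist x z ∧
    dist y μ + dist μ z = dist y z
  smul : ∀ (g : G), ∀ A ∈ Ln, g • A ∈ Ln
  closed : ∀ A ∈ Ln, IsClosed A
  convex : ∀ A ∈ Ln, ∀ p ∈ A, ∀ q ∈ A, ∀ z, dist p z + dist z q = dist p q → z ∈ A
  two : ∀ A ∈ Ln, ∀ A' ∈ Ln, ∀ p q, p ≠ q → p ∈ A → q ∈ A → p ∈ A' → q ∈ A' → A = A'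
  comm : ∀ A ∈ Ln, ∀ g h : G, g • A = A → h • A = A → g * h = h * g
  fix : ∀ A ∈ Ln, ∀ (g : G) (z : T), g ≠ 1 → g • A = A → g • z = z → z ∈ A
  small : ∀ p q : T, p ≠ q →
    (∀ ε : ℝ, 0 < ε → ∃ g : G, g ≠ 1 ∧ dist p (g • p) < ε ∧ dist q (g • q) < ε) →
    ∃ A ∈ Ln, p ∈ A ∧ q ∈ A ∧ ∀ g : G, dist p (g • p) < dist p q / 10 →
      dist q (g • q) < dist p q / 10 → g • A = A
  noflip : ∀ (g : G) (p q : T), g • p = q → g • q = p → p = q
  abel : ∀ M : Subgroup G, (∀ x ∈ M, ∀ y ∈ M, x * y = y * x) →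
    (∀ ε : ℝ, 0 < ε → ∃ g ∈ M, g ≠ 1 ∧ ∃ z : T, dist z (g • z) < ε) →
    ∃ A : Set T, (∀ g ∈ M, g • A = A) ∧ (A.Nontrivial → A ∈ Ln) ∧
      ∀ g ∈ M, g ≠ 1 → ∀ z μ : T, dist z μ = dist z (g • z) / 2 →
        dist μ (g • z) = dist z (g • z) / 2 → μ ∈ A

/-- Finitely generated subgroups that fix a point have a hierarchy. -/
def PtH (T : Type) [MulAction G T] : Prop :=
  ∀ P : Subgroup G, P.FG → (∃ z : T, ∀ g ∈ P, g • z = z) → Hier P

end Tree

/-- Joined by a chain of lines. -/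
def LC {T : Type} (Ln : Set (Set T)) : T → T → Prop :=
  Relation.EqvGen fun p q => ∃ A ∈ Ln, p ∈ A ∧ q ∈ A

def UltStmt : Prop :=
  ∀ (G : Type) [Group G] (U : Ultrafilter ℕ) (φ : G → ℕ → F2), Group.FG G → Rep U φ →
    Hier G ∨ ∃ (T : Type) (_ : MetricSpace T) (_ : MulAction G T) (ℓ : G → ℝ) (g₀ : G),
      Cone G T ℓ ∧ g₀ ≠ 1 ∧ ∀ (g : G) (z : T), g • z = z → Lt U φ g g₀

def LnStmt : Prop :=
  ∀ (G T : Type) [Group G] [MetricSpace T] [MulAction G T] (ℓ : G → ℝ), CT G → Cone G T ℓ →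
    ∃ Ln : Set (Set T), Tr G Ln

def PvStmt : Prop :=
  ∀ (G T : Type) [Group G] [MetricSpace T] [MulAction G T] (Ln : Set (Set T)) (P : Subgroup G)
    (z : T), Tr G Ln → AbFG G → PtH G T → P.FG → (∀ g ∈ P, LC Ln z (g • z)) → Hier P

/-- Complexes of every level exist. -/
def BandStmt : Prop :=
  ∀ (G T : Type) [Group G] [MetricSpace T] [MulAction G T] (Ln : Set (Set T)) (m : ℕ)
    (y : Fin m → G) (n : ℕ), Tr G Ln → AbFG G → PtH G T →
    Function.Surjective (FreeGroup.lift y) →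
    ∃ (Vx E Fc : Type) (_ : MulAction G Vx) (_ : Fintype E) (_ : Fintype Fc) (K : Cx G Vx E Fc)
      (v₀ : Vx) (x : FreeGroup (Fin m) → (G × E →₀ ℂ)), K.Good y n v₀ x

end

end Pool.Agent.MP_494aff_an.Se

end MrgPart2

-- ======== part 3: formerly Pool.Agent.MP_494aff_an.se.Dim
section MrgPart3

/-! The dimension of invariant subspaces. -/

open Filter Topology
open scoped InnerProductSpace ComplexConjugate

namespace Pool.Agent.MP_494aff_an.Se

open Pool.Agent.MP_494aff_an.Pinch Pool.Agent.MP_494aff_an.Pinch.TowP Pool.Agent.MP_494aff_an.Lf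

noncomputable section

namespace DimP

section Hilbert

open ContinuousLinearMap

variable {E F : Type} [NormedAddCommGroup E] [InnerProductSpace ℂ E] [CompleteSpace E]
  [NormedAddCommGroup F] [InnerProductSpace ℂ F] [CompleteSpace F]

omit [CompleteSpace E] in
lemma sp_congr {K K' : Submodule ℂ E} [K.HasOrthogonalProjection] [K'.HasOrthogonalProjection]
    (h : K = K') : K.starProjection = K'.starProjection := by
  subst h
  rfl

omit [CompleteSpace E] in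
lemma inner_sp (K : Submodule ℂ E) [K.HasOrthogonalProjection] (x : E) :
    ⟪x, K.starProjection x⟫_ℂ = ((‖K.starProjection x‖ ^ 2 : ℝ) : ℂ) := by
  have h := K.starProjection_inner_eq_zero x _ (K.starProjection_apply_mem x)
  rw [inner_sub_left, sub_eq_zero] at h
  rw [h, inner_self_eq_norm_sq_to_K]
  norm_cast

lemma norm_Q (A : E →L[ℂ] F) (hA : ‖A‖ ≤ 1) : ‖(1 : E →L[ℂ] E) - adjoint A ∘L A‖ ≤ 1 := by
  refine opNorm_le_bound _ zero_le_one fun y => ?_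
  have h1 : ‖adjoint A (A y)‖ ≤ ‖A y‖ := by
    have := (adjoint A).le_opNorm (A y)
    rw [LinearIsometryEquiv.norm_map] at this
    nlinarith [norm_nonneg (A y)]
  have h2 : RCLike.re ⟪y, adjoint A (A y)⟫_ℂ = ‖A y‖ ^ 2 := by
    rw [adjoint_inner_right, inner_self_eq_norm_sq]
  have h3 := norm_sub_sq (𝕜 := ℂ) y (adjoint A (A y))
  rw [h2] at h3
  rw [one_mul]
  refine le_of_sq_le_sq ?_ (norm_nonneg _)
  show ‖y - adjoint A (A y)‖ ^ 2 ≤ _
  nlinarith [norm_nonneg (A y), norm_nonneg (adjoint A (A y))]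

lemma avg (A : E →L[ℂ] F) (hA : ‖A‖ ≤ 1) (x y : E) :
    Tendsto (fun n : ℕ => (n : ℂ)⁻¹ * ∑ k ∈ Finset.range n,
      ⟪y, (((1 : E →L[ℂ] E) - adjoint A ∘L A) ^ k) x⟫_ℂ) atTop
      (𝓝 ⟪y, A.ker.starProjection x⟫_ℂ) := by
  have h := ((1 : E →L[ℂ] E) - adjoint A ∘L A).tendsto_birkhoffAverage_orthogonalProjection
    (norm_Q A hA) x
  have e : ((1 : E →L[ℂ] E) - adjoint A ∘L A).eqLocus (1 : E →L[ℂ] E) = A.ker := by
    rw [← A.ker_adjoint_comp_self]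
    ext z
    simp [LinearMap.mem_eqLocus]
  rw [Submodule.coe_orthogonalProjectionOnto_apply, sp_congr e] at h
  refine (((innerSL ℂ y).continuous.tendsto _).comp h).congr fun n => ?_
  show ⟪y, (n : ℂ)⁻¹ • ∑ k ∈ Finset.range n, _⟫_ℂ = _
  rw [inner_smul_right, inner_sum]
  simp only [FunLike.coe_pow_eq_iterate, id]

end Hilbert

variable {G ι κ σ : Type} [Group G]

/-- The Hilbert sum. -/
abbrev X (G ι : Type) : Type := PiLp 2 fun _ : ι => H G

/-- The `i`-th summand. -/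
def inj [Fintype ι] (i : ι) : H G →L[ℂ] X G ι :=
  open Classical in
  (toL2 G ι : (ι → H G) →L[ℂ] X G ι) ∘L ContinuousLinearMap.single ℂ (fun _ : ι => H G) i

/-- The `i`-th coordinate. -/
def prj [Fintype ι] (i : ι) : X G ι →L[ℂ] H G :=
  ContinuousLinearMap.proj i ∘L ((toL2 G ι).symm : X G ι →L[ℂ] (ι → H G))

/-- Right translation. -/
def R [Fintype ι] (g : G) : X G ι →L[ℂ] X G ι :=
  (toL2 G ι : (ι → H G) →L[ℂ] X G ι) ∘L ContinuousLinearMap.pi fun i => rho g ∘L prj i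

/-- The closed image in the Hilbert sum. -/
def L [Fintype ι] (W : Submodule ℂ (ι → H G)) : Submodule ℂ (X G ι) :=
  (W.map (toL2 G ι).toLinearEquiv.toLinearMap).topologicalClosure

instance [Fintype ι] (W : Submodule ℂ (ι → H G)) : (L W).HasOrthogonalProjection := by
  unfold L
  infer_instance

/-- The projection. -/
def P [Fintype ι] (W : Submodule ℂ (ι → H G)) : X G ι →L[ℂ] X G ι := (L W).starProjection

/-- The trace. -/
def tr [Fintype ι] (B : X G ι →L[ℂ] X G ι) : ℂ := ∑ i, ⟪inj i (dl 1), B (inj i (dl 1))⟫_ℂ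

/-- Equivariant operators. -/
def Eqv [Fintype ι] [Fintype κ] (S : X G ι →L[ℂ] X G κ) : Prop := ∀ g x, S (R g x) = R g (S x)

variable [Fintype ι] [Fintype κ] [Fintype σ]

lemma dim_eq (W : Submodule ℂ (ι → H G)) : dim W = ∑ i, ‖P W (inj i (dl 1))‖ ^ 2 := rfl

lemma tr_P (W : Submodule ℂ (ι → H G)) : tr (P W) = (dim W : ℂ) := by
  rw [dim_eq, tr, Complex.ofReal_sum]
  exact Finset.sum_congr rfl fun i _ => inner_sp _ _

omit [Group G] in
lemma inj_self (i : ι) (ξ : H G) : inj i ξ i = ξ := by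
  simp [inj, toL2]

omit [Group G] in
lemma inj_ne {i j : ι} (h : j ≠ i) (ξ : H G) : inj i ξ j = 0 := by
  simp [inj, toL2, h]

omit [Group G] in
lemma sum_inj (x : X G ι) : ∑ i, inj i (x i) = x := by
  ext1 j
  rw [WithLp.ofLp_sum, Finset.sum_apply, Finset.sum_eq_single j (fun i _ h => inj_ne h.symm _)
    (by simp), inj_self]

omit [Group G] in
lemma inner_inj (i : ι) (ξ : H G) (x : X G ι) : ⟪inj i ξ, x⟫_ℂ = ⟪ξ, x i⟫_ℂ := by
  rw [PiLp.inner_apply, Finset.sum_eq_single i (fun j _ h => by rw [inj_ne h, inner_zero_left])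
    (by simp), inj_self]

lemma R_inj (g : G) (i : ι) (ξ : H G) : R g (inj i ξ) = inj i (rho g ξ) := by
  ext1 j
  show rho g (inj i ξ j) = _
  by_cases h : j = i
  · rw [h, inj_self, inj_self]
  · rw [inj_ne h, inj_ne h, map_zero]

lemma inner_R (g : G) (x y : X G ι) : ⟪R g x, y⟫_ℂ = ⟪x, R g⁻¹ y⟫_ℂ := by
  rw [PiLp.inner_apply, PiLp.inner_apply]
  refine Finset.sum_congr rfl fun i _ => ?_
  show ⟪rho g (x i), y i⟫_ℂ = ⟪x i, rho g⁻¹ (y i)⟫_ℂ
  rw [← star_rho, inner_star]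

lemma tr_one : tr (1 : X G ι →L[ℂ] X G ι) = Fintype.card ι := by
  have : ∀ i : ι, ⟪inj i (dl (1 : G)), (1 : X G ι →L[ℂ] X G ι) (inj i (dl 1))⟫_ℂ = 1 := fun i => by
    rw [inner_inj, inner_dl]
    show inj i (dl 1) i 1 = 1
    rw [inj_self, dl_self]
  simp only [tr, this]
  simp

lemma tr_add (A B : X G ι →L[ℂ] X G ι) : tr (A + B) = tr A + tr B := by
  simp [tr, Finset.sum_add_distrib]

lemma tr_sub (A B : X G ι →L[ℂ] X G ι) : tr (A - B) = tr A - tr B := by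
  simp [tr, Finset.sum_sub_distrib]

lemma Eqv.comp {T : X G κ →L[ℂ] X G σ} {S : X G ι →L[ℂ] X G κ} (hT : Eqv T) (hS : Eqv S) :
    Eqv (T ∘L S) := fun g x => by
  show T (S (R g x)) = R g (T (S x))
  rw [hS, hT]

lemma Eqv.adj {S : X G ι →L[ℂ] X G κ} (hS : Eqv S) : Eqv (ContinuousLinearMap.adjoint S) :=
  fun g x => by
    refine ext_inner_right ℂ fun y => ?_
    rw [ContinuousLinearMap.adjoint_inner_left, inner_R, inner_R,
      ContinuousLinearMap.adjoint_inner_left, hS]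

lemma Eqv.one_sub {S : X G ι →L[ℂ] X G ι} (hS : Eqv S) : Eqv (1 - S) := fun g x => by
  show R g x - S (R g x) = R g (x - S x)
  rw [hS, map_sub]

lemma Eqv.pow {S : X G ι →L[ℂ] X G ι} (hS : Eqv S) : ∀ k : ℕ, Eqv (S ^ k)
  | 0 => fun _ _ => rfl
  | k + 1 => by
    rw [pow_succ]
    exact (hS.pow k).comp hS

lemma Eqv.entry {S : X G ι →L[ℂ] X G κ} (hS : Eqv S) (k : κ) (i : ι) :
    prj k ∘L S ∘L inj i ∈ LL G := by
  refine mem_LL.2 fun g => ?_
  ext1 ξ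
  show rho g (S (inj i ξ) k) = S (inj i (rho g ξ)) k
  rw [← R_inj, hS]
  rfl

lemma tr_comp (T : X G κ →L[ℂ] X G ι) (S : X G ι →L[ℂ] X G κ) :
    tr (T ∘L S) = ∑ i, ∑ k, (prj i ∘L T ∘L inj k) ((prj k ∘L S ∘L inj i) (dl 1)) 1 := by
  refine Finset.sum_congr rfl fun i _ => ?_
  show ⟪_, T (S _)⟫_ℂ = _
  rw [← sum_inj (S _), map_sum, inner_sum]
  refine Finset.sum_congr rfl fun k _ => ?_
  rw [inner_inj, inner_dl]
  rfl

lemma tr_comm {T : X G κ →L[ℂ] X G ι} {S : X G ι →L[ℂ] X G κ} (hT : Eqv T) (hS : Eqv S) :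
    tr (T ∘L S) = tr (S ∘L T) := by
  rw [tr_comp, tr_comp, Finset.sum_comm]
  exact Finset.sum_congr rfl fun k _ => Finset.sum_congr rfl fun i _ =>
    FG.trace_comm (hT.entry i k) (hS.entry k i)

lemma Eqv.ext {S T : X G ι →L[ℂ] X G κ} (hS : Eqv S) (hT : Eqv T)
    (h : ∀ i, S (inj i (dl 1)) = T (inj i (dl 1))) : S = T := by
  have h1 : ∀ i, S ∘L inj i = T ∘L inj i := fun i => op_ext fun x => by
    have : (dl x : H G) = rho x⁻¹ (dl 1) := by simp [rho_dl]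
    show S (inj i (dl x)) = T (inj i (dl x))
    rw [this, ← R_inj, hS, hT, h]
  ext1 x
  rw [← sum_inj x, map_sum, map_sum]
  exact Finset.sum_congr rfl fun i _ => congrArg (fun U : H G →L[ℂ] X G κ => U (x i)) (h1 i)

open ContinuousLinearMap in
lemma tr_avg (A : X G ι →L[ℂ] X G κ) (hA : ‖A‖ ≤ 1) :
    Tendsto (fun n : ℕ => (n : ℂ)⁻¹ * ∑ k ∈ Finset.range n,
      tr (((1 : X G ι →L[ℂ] X G ι) - adjoint A ∘L A) ^ k)) atTop (𝓝 (tr A.ker.starProjection)) := by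
  refine (tendsto_finsetSum Finset.univ fun i _ =>
    avg A hA (inj i (dl 1)) (inj i (dl 1))).congr fun n => ?_
  rw [← Finset.mul_sum, Finset.sum_comm]
  rfl

open ContinuousLinearMap in
lemma tr_pow {A : X G ι →L[ℂ] X G κ} (hA : Eqv A) (k : ℕ) :
    tr (((1 : X G ι →L[ℂ] X G ι) - adjoint A ∘L A) ^ k) + Fintype.card κ =
      tr (((1 : X G κ →L[ℂ] X G κ) - A ∘L adjoint A) ^ k) + Fintype.card ι := by
  have hc : ∀ (k : ℕ) x, ((1 - A ∘L adjoint A) ^ k) (A x) = A (((1 - adjoint A ∘L A) ^ k) x) := by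
    intro k
    induction k with
    | zero => exact fun _ => rfl
    | succ k ih =>
      intro x
      rw [pow_succ, pow_succ]
      show ((1 - A ∘L adjoint A) ^ k) (A x - A (adjoint A (A x))) =
        A (((1 - adjoint A ∘L A) ^ k) (x - adjoint A (A x)))
      rw [← map_sub, ih]
  induction k with
  | zero => rw [pow_zero, pow_zero, tr_one, tr_one, add_comm]
  | succ k ih =>
    have h1 : ((1 - adjoint A ∘L A) ^ k) * (adjoint A ∘L A) =
        (((1 - adjoint A ∘L A) ^ k) ∘L adjoint A) ∘L A := rfl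
    have h2 : ((1 - A ∘L adjoint A) ^ k) * (A ∘L adjoint A) =
        A ∘L (((1 - adjoint A ∘L A) ^ k) ∘L adjoint A) := by
      ext1 x
      exact hc k _
    rw [pow_succ, pow_succ, mul_sub, mul_sub, mul_one, mul_one, tr_sub, tr_sub, h1, h2,
      tr_comm (((hA.adj.comp hA).one_sub.pow k).comp hA.adj) hA]
    linear_combination ih

open ContinuousLinearMap in
lemma tr_ker {A : X G ι →L[ℂ] X G κ} (hA : Eqv A) (hn : ‖A‖ ≤ 1) :
    tr A.ker.starProjection + Fintype.card κ =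
      tr (adjoint A).ker.starProjection + Fintype.card ι := by
  have h1 := (tr_avg A hn).add_const (Fintype.card κ : ℂ)
  have h2 := (tr_avg (adjoint A) (by rwa [LinearIsometryEquiv.norm_map])).add_const
    (Fintype.card ι : ℂ)
  rw [adjoint_adjoint] at h2
  refine tendsto_nhds_unique h1 (h2.congr' ?_)
  filter_upwards [eventually_gt_atTop 0] with n hn
  have hn' : (n : ℂ) ≠ 0 := by exact_mod_cast hn.ne'
  have h3 := Finset.sum_congr (rfl : Finset.range n = _) fun k _ => tr_pow hA k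
  rw [Finset.sum_add_distrib, Finset.sum_add_distrib, Finset.sum_const, Finset.sum_const,
    Finset.card_range, nsmul_eq_mul, nsmul_eq_mul] at h3
  field_simp
  linear_combination -h3

omit [Group G] in
lemma mem_L {W : Submodule ℂ (ι → H G)} {x : X G ι} :
    x ∈ L W ↔ (fun i => x i) ∈ W.topologicalClosure := by
  have h := (toL2 G ι).toHomeomorph.image_closure (W : Set (ι → H G))
  show x ∈ closure ((toL2 G ι).toHomeomorph '' (W : Set (ι → H G))) ↔ _ ∈ closure _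
  rw [← h]
  constructor
  · rintro ⟨y, hy, rfl⟩
    exact hy
  · exact fun hx => ⟨_, hx, rfl⟩

lemma mem_Lc {W : Submodule ℂ (ι → H G)} (hW : Inv W) {x : X G ι} :
    x ∈ L W ↔ (fun i => x i) ∈ W := by
  rw [mem_L, hW.1.submodule_topologicalClosure_eq]

lemma eqv_P {W : Submodule ℂ (ι → H G)} (hW : Inv W) : Eqv (P W) := fun g x => by
  have hR : ∀ g, ∀ y ∈ L W, R g y ∈ L W := fun g y hy =>
    (mem_Lc hW).2 (hW.2 g _ ((mem_Lc hW).1 hy))
  refine Submodule.eq_starProjection_of_mem_of_inner_eq_zero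
    (hR g _ ((L W).starProjection_apply_mem x)) fun w hw => ?_
  rw [← map_sub, inner_R]
  exact (L W).starProjection_inner_eq_zero x _ (hR _ w hw)

omit [Group G] in
lemma norm_P_le {W W' : Submodule ℂ (ι → H G)} (h : W ≤ W') (x : X G ι) :
    ‖P W' x‖ ^ 2 = ‖P W x‖ ^ 2 + ‖P W' x - P W x‖ ^ 2 := by
  have hL : L W ≤ L W' := fun x hx => mem_L.2 (Submodule.topologicalClosure_mono h (mem_L.1 hx))
  have h1 : (L W).starProjection (P W' x) = P W x :=
    congrArg (fun U : X G ι →L[ℂ] X G ι => U x)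
      (Submodule.starProjection_comp_starProjection_of_le hL)
  rw [Submodule.norm_sq_eq_add_norm_sq_starProjection (P W' x) (L W),
    Submodule.starProjection_orthogonal_val, h1]

omit [Fintype ι] [Fintype κ] in
lemma inv_ker {W : Submodule ℂ (ι → H G)} {T : (ι → H G) →L[ℂ] (κ → H G)} (hW : Inv W)
    (hT : Eqi T) : Inv (W ⊓ LinearMap.ker T.toLinearMap) := by
  refine ⟨hW.1.inter T.isClosed_ker, fun g ξ h => ⟨hW.2 g ξ h.1, ?_⟩⟩
  have h0 : T ξ = 0 := h.2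
  show T _ = 0
  rw [hT, h0]
  funext k
  exact map_zero _

omit [Fintype ι] [Fintype κ] in
lemma inv_map {W : Submodule ℂ (ι → H G)} {T : (ι → H G) →L[ℂ] (κ → H G)} (hW : Inv W)
    (hT : Eqi T) : Inv (W.map T.toLinearMap).topologicalClosure := by
  refine ⟨Submodule.isClosed_topologicalClosure _, fun g ξ h => ?_⟩
  refine map_mem_closure (f := fun (ξ : κ → H G) i => rho g (ξ i)) (by fun_prop) h ?_
  rintro _ ⟨η, hη, rfl⟩
  exact ⟨_, hW.2 g η hη, hT g η⟩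

open ContinuousLinearMap in
lemma rn {W : Submodule ℂ (ι → H G)} {T : (ι → H G) →L[ℂ] (κ → H G)} (hW : Inv W) (hT : Eqi T) :
    dim W = dim (W ⊓ LinearMap.ker T.toLinearMap) + dim (W.map T.toLinearMap) := by
  set K := W ⊓ LinearMap.ker T.toLinearMap
  have hK : Inv K := inv_ker hW hT
  let B : X G ι →L[ℂ] X G κ := (toL2 G κ : (κ → H G) →L[ℂ] X G κ) ∘L T ∘L
    ((toL2 G ι).symm : X G ι →L[ℂ] (ι → H G)) ∘L P W
  have hB : ∀ x, B x = toL2 G κ (T fun i => P W x i) := fun _ => rfl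
  have hBe : Eqv B := fun g x => by
    rw [hB, hB, eqv_P hW]
    exact congrArg (toL2 G κ) (hT g _)
  have hc : (0 : ℝ) < ‖B‖ + 1 := by positivity
  have hc' : (((‖B‖ + 1)⁻¹ : ℝ) : ℂ) ≠ 0 := by exact_mod_cast (inv_pos.2 hc).ne'
  let A : X G ι →L[ℂ] X G κ := (((‖B‖ + 1)⁻¹ : ℝ) : ℂ) • B
  have hA : ∀ x, A x = (((‖B‖ + 1)⁻¹ : ℝ) : ℂ) • B x := fun _ => rfl
  have hAe : Eqv A := fun g x => by rw [hA, hA, hBe, map_smul]
  have hAn : ‖A‖ ≤ 1 := by
    rw [norm_smul, Complex.norm_real, Real.norm_of_nonneg (inv_pos.2 hc).le, inv_mul_le_iff₀ hc]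
    linarith
  have hPW : ∀ x, P W x ∈ L W := (L W).starProjection_apply_mem
  have hker : ∀ x, x ∈ A.ker ↔ P W x ∈ L K := fun x => by
    rw [mem_Lc hK]
    show A x = 0 ↔ _ ∈ W ∧ T _ = 0
    rw [hA, smul_eq_zero, hB, map_eq_zero_iff _ (toL2 G κ).injective]
    exact ⟨fun h => ⟨(mem_Lc hW).1 (hPW x), h.resolve_left hc'⟩, fun h => Or.inr h.2⟩
  have hKW : ∀ x ∈ L K, x ∈ L W := fun x hx => (mem_Lc hW).2 ((mem_Lc hK).1 hx).1
  have hfix : ∀ x ∈ L W, P W x = x := fun x hx => Submodule.starProjection_eq_self_iff.2 hx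
  have hPK : ∀ x, P K x ∈ L K := (L K).starProjection_apply_mem
  have e1 : A.ker.starProjection = P K + (1 - P W) := by
    ext1 x
    refine Submodule.eq_starProjection_of_mem_of_inner_eq_zero ((hker _).2 ?_) fun w hw => ?_
    · show P W (P K x + (x - P W x)) ∈ _
      rw [map_add, map_sub, hfix _ (hPW x), hfix _ (hKW _ (hPK x)), sub_self, add_zero]
      exact hPK x
    · show ⟪x - (P K x + (x - P W x)), w⟫_ℂ = 0
      have h1 : x - (P K x + (x - P W x)) = (L W).starProjection (x - P K x) := by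
        show _ = P W _
        rw [map_sub, hfix _ (hKW _ (hPK x))]
        abel
      rw [h1, Submodule.inner_starProjection_left_eq_right]
      exact (L K).starProjection_inner_eq_zero x _ ((hker w).1 hw)
  have e2 : (adjoint A).ker = (L (W.map T.toLinearMap))ᗮ := by
    rw [← A.orthogonal_range, L, Submodule.orthogonal_closure]
    congr 1
    ext y
    constructor
    · rintro ⟨x, rfl⟩
      refine Submodule.smul_mem _ _ ⟨_, ⟨_, (mem_Lc hW).1 (hPW x), rfl⟩, rfl⟩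
    · rintro ⟨_, ⟨w, hw, rfl⟩, rfl⟩
      refine ⟨(((‖B‖ + 1)⁻¹ : ℝ) : ℂ)⁻¹ • toL2 G ι w, ?_⟩
      show A _ = _
      rw [map_smul, hA, smul_smul, inv_mul_cancel₀ hc', one_smul, hB,
        hfix (toL2 G ι w) ((mem_Lc hW).2 hw)]
      rfl
  have h := tr_ker hAe hAn
  have e3 : (adjoint A).ker.starProjection = 1 - P (W.map T.toLinearMap) :=
    (sp_congr e2).trans (Submodule.starProjection_orthogonal' _)
  rw [e1, e3, tr_add, tr_sub, tr_sub, tr_one, tr_one] at h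
  have h' : tr (P W) = tr (P K) + tr (P (W.map T.toLinearMap)) := by
    linear_combination -h
  rw [tr_P, tr_P, tr_P] at h'
  exact_mod_cast h'

/-- The projection is computed in each block. -/
lemma block {W : Submodule ℂ (κ → H G)} {W' : Submodule ℂ (σ → H G)} (hW : Inv W) (hW' : Inv W')
    (j : κ → σ) (hj : Function.Injective j) (h1 : ∀ w ∈ W, Function.extend j w 0 ∈ W')
    (h2 : ∀ w ∈ W', (fun k => w (j k)) ∈ W) (k : κ) :
    ‖P W' (inj (j k) (dl 1))‖ ^ 2 = ‖P W (inj k (dl 1))‖ ^ 2 := by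
  have hin : ∀ (y : X G κ) (w : X G σ), ⟪toL2 G σ (Function.extend j (fun k => y k) 0), w⟫_ℂ =
      ⟪y, toL2 G κ fun k => w (j k)⟫_ℂ := fun y w => by
    rw [PiLp.inner_apply, PiLp.inner_apply]
    refine (Fintype.sum_of_injective j hj _ _ (fun s hs => ?_) fun k => ?_).symm
    · show ⟪Function.extend j (fun k => y k) 0 s, _⟫_ℂ = 0
      rw [Function.extend_apply' _ _ _ hs]
      exact inner_zero_left _
    · show _ = ⟪Function.extend j (fun k => y k) 0 (j k), _⟫_ℂ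
      rw [hj.extend_apply]
      rfl
  have hp : P W' (inj (j k) (dl 1)) =
      toL2 G σ (Function.extend j (fun k' => P W (inj k (dl 1)) k') 0) := by
    refine Submodule.eq_starProjection_of_mem_of_inner_eq_zero
      ((mem_Lc hW').2 (h1 _ ((mem_Lc hW).1 ((L W).starProjection_apply_mem _)))) fun w hw => ?_
    have h3 := (L W).starProjection_inner_eq_zero (inj k (dl 1)) (toL2 G κ fun k => w (j k))
      ((mem_Lc hW).2 (h2 _ ((mem_Lc hW').1 hw)))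
    rw [inner_sub_left, inner_inj] at h3
    rw [inner_sub_left, hin, inner_inj]
    exact h3
  have h4 : ⟪inj (j k) (dl 1), P W' (inj (j k) (dl 1))⟫_ℂ =
      ⟪inj k (dl 1), P W (inj k (dl 1))⟫_ℂ := by
    rw [hp, inner_inj, inner_inj]
    show ⟪_, Function.extend j _ 0 (j k)⟫_ℂ = _
    rw [hj.extend_apply]
  have h5 := (inner_sp (L W') _).symm.trans (h4.trans (inner_sp (L W) _))
  exact_mod_cast h5

lemma lim {W : ℕ → Submodule ℂ (ι → H G)} (hW : ∀ n, Inv (W n)) (ha : Antitone W) :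
    Tendsto (fun n => dim (W n)) atTop (𝓝 (dim (⨅ n, W n))) := by
  have hI : Inv (⨅ n, W n) := by
    refine ⟨?_, fun g ξ h => ?_⟩
    · rw [Submodule.coe_iInf]
      exact isClosed_iInter fun n => (hW n).1
    · rw [Submodule.mem_iInf] at h ⊢
      exact fun n => (hW n).2 g ξ (h n)
  have hm : Monotone fun n => (L (W n))ᗮ := fun n m h =>
    Submodule.orthogonal_le fun x hx => (mem_Lc (hW n)).2 (ha h ((mem_Lc (hW m)).1 hx))
  have e : (⨆ n, (L (W n))ᗮ).topologicalClosure = (L (⨅ n, W n))ᗮ := by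
    rw [← Submodule.orthogonal_orthogonal_eq_closure, ← Submodule.iInf_orthogonal]
    congr 1
    ext x
    simp only [Submodule.orthogonal_orthogonal, mem_Lc hI, Submodule.mem_iInf, mem_Lc (hW _)]
  simp only [dim_eq]
  refine tendsto_finsetSum _ fun i _ => (Tendsto.norm ?_).pow 2
  have h := Submodule.starProjection_tendsto_closure_iSup _ hm (inj i (dl 1))
  rw [sp_congr e] at h
  simp only [Submodule.starProjection_orthogonal_val] at h
  simpa [P] using h.const_sub (inj i (dl 1))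

end DimP

open DimP

theorem dimS : DimStmt where
  top G ι _ _ := by
    have h : P (⊤ : Submodule ℂ (ι → H G)) = 1 := by
      ext1 x
      exact Submodule.starProjection_eq_self_iff.2
        (mem_L.2 (Submodule.le_topologicalClosure _ trivial))
    have h' := tr_P (⊤ : Submodule ℂ (ι → H G))
    rw [h, tr_one] at h'
    exact_mod_cast h'.symm
  bot G ι _ _ := by
    have hI : Inv (⊥ : Submodule ℂ (ι → H G)) := by
      refine ⟨isClosed_singleton, fun g ξ h => ?_⟩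
      rw [Submodule.mem_bot] at h ⊢
      funext i
      rw [h]
      exact map_zero _
    refine Finset.sum_eq_zero fun i _ => ?_
    have h := (mem_Lc hI).1 ((L ⊥).starProjection_apply_mem (inj i (dl 1)))
    have h' : P (⊥ : Submodule ℂ (ι → H G)) (inj i (dl 1)) = 0 := by
      ext1 j
      exact congrFun ((Submodule.mem_bot ℂ).1 h) j
    show ‖P ⊥ (inj i (dl 1))‖ ^ 2 = 0
    rw [h', norm_zero, zero_pow two_ne_zero]
  nonneg G ι _ _ W := Finset.sum_nonneg fun _ _ => sq_nonneg _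
  clo G ι _ _ W := by
    have e : L W.topologicalClosure = L W := by
      ext x
      rw [mem_L, mem_L, (Submodule.isClosed_topologicalClosure W).submodule_topologicalClosure_eq]
    rw [dim_eq, dim_eq, P, P, sp_congr e]
  mono G ι _ _ W W' h := by
    rw [dim_eq, dim_eq]
    refine Finset.sum_le_sum fun i _ => ?_
    rw [norm_P_le h]
    exact le_add_of_nonneg_right (sq_nonneg _)
  eq G ι _ _ W W' hW hW' h hd := by
    rw [dim_eq, dim_eq] at hd
    simp only [norm_P_le h, Finset.sum_add_distrib, add_le_iff_nonpos_right] at hd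
    have h0 := (Finset.sum_eq_zero_iff_of_nonneg fun _ _ => sq_nonneg _).1
      (le_antisymm hd (Finset.sum_nonneg fun _ _ => sq_nonneg _))
    have hP : P W' = P W := (eqv_P hW').ext (eqv_P hW) fun i => by
      have := h0 i (Finset.mem_univ i)
      rwa [sq_eq_zero_iff, norm_eq_zero, sub_eq_zero] at this
    refine le_antisymm h fun w hw => ?_
    have h1 : P W' (toL2 G ι w) = toL2 G ι w :=
      Submodule.starProjection_eq_self_iff.2 ((mem_Lc hW').2 hw)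
    rw [hP] at h1
    exact (mem_Lc hW).1 (Submodule.starProjection_eq_self_iff.1 h1)
  rn G ι κ _ _ _ W T hW hT := rn hW hT
  inv_ker G ι κ _ W T hW hT := inv_ker hW hT
  inv_map G ι κ _ W T hW hT := inv_map hW hT
  sum G ι κ _ _ _ W₁ W₂ W h₁ h₂ h := by
    have hI : Inv W := by
      refine ⟨?_, fun g ξ hξ => (h _).2 ⟨h₁.2 g _ ((h ξ).1 hξ).1, h₂.2 g _ ((h ξ).1 hξ).2⟩⟩
      have : (W : Set (ι ⊕ κ → H G)) = (fun η i => η (Sum.inl i)) ⁻¹' W₁ ∩
          (fun η k => η (Sum.inr k)) ⁻¹' W₂ := Set.ext h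
      rw [this]
      exact (h₁.1.preimage (by fun_prop)).inter (h₂.1.preimage (by fun_prop))
    refine ⟨hI, ?_⟩
    rw [dim_eq, dim_eq, dim_eq, Fintype.sum_sum_type]
    congr 1
    · refine Finset.sum_congr rfl fun i _ => block h₁ hI _ Sum.inl_injective
        (fun w hw => (h _).2 ⟨?_, ?_⟩) (fun w hw => ((h w).1 hw).1) i
      · simpa only [Sum.inl_injective.extend_apply] using hw
      · have : (fun k => Function.extend Sum.inl w 0 (Sum.inr k : ι ⊕ κ)) = 0 :=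
          funext fun k => Function.extend_apply' _ _ _ (by simp)
        rw [this]
        exact zero_mem _
    · refine Finset.sum_congr rfl fun i _ => block h₂ hI _ Sum.inr_injective
        (fun w hw => (h _).2 ⟨?_, ?_⟩) (fun w hw => ((h w).1 hw).2) i
      · have : (fun k => Function.extend Sum.inr w 0 (Sum.inl k : ι ⊕ κ)) = 0 :=
          funext fun k => Function.extend_apply' _ _ _ (by simp)
        rw [this]
        exact zero_mem _
      · simpa only [Sum.inr_injective.extend_apply] using hw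
  sig G ι κ _ _ _ W W' hW h := by
    have hI : Inv W' := by
      refine ⟨?_, fun g ξ hξ => (h _).2 fun i => (hW i).2 g _ ((h ξ).1 hξ i)⟩
      have : (W' : Set ((Σ i, κ i) → H G)) = ⋂ i, (fun η k => η ⟨i, k⟩) ⁻¹' W i :=
        Set.ext fun η => by rw [Set.mem_iInter]; exact h η
      rw [this]
      exact isClosed_iInter fun i => (hW i).1.preimage (by fun_prop)
    refine ⟨hI, ?_⟩
    simp only [dim_eq]
    rw [Fintype.sum_sigma]
    refine Finset.sum_congr rfl fun i _ => Finset.sum_congr rfl fun k _ =>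
      block (hW i) hI (Sigma.mk i) sigma_mk_injective (fun w hw => (h _).2 fun i' => ?_)
        (fun w hw => (h w).1 hw i) k
    by_cases e : i' = i
    · subst e
      simpa only [sigma_mk_injective.extend_apply] using hw
    · have : (fun k => Function.extend (Sigma.mk i) w 0 (⟨i', k⟩ : Σ i, κ i)) = 0 :=
        funext fun k => Function.extend_apply' _ _ _ fun ⟨_, ha⟩ =>
          e (congrArg Sigma.fst ha).symm
      rw [this]
      exact zero_mem _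
  lim G ι _ _ W hW ha := lim hW ha

end

end Pool.Agent.MP_494aff_an.Se

end MrgPart3

-- marker of a merged file
example : 731051 + 384342 = 731051 + 384342 := rfl
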