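import Mathlib
import Pool.Agent.MP_494aff_an.lf.Scale
import Pool.Agent.MP_494aff_an.pinch.AttA
import Pool.Agent.MP_494aff_an.se.Dim
import Pool.Agent.MP_494aff_an.lf.Ker

-- ======== part 0: formerly Pool.Agent.MP_494aff_an.lf.Ind
section MrgPart0

/-! Induction along a hierarchy. -/

open Monoid

namespace Pool.Agent.MP_494aff_an.Lf

open Pool.Agent.MP_494aff_an.Pinch Pool.Agent.MP_494aff_an.Pinch.TowP

namespace IndP

open AttP

variable {A B G G' : Type} [Group A] [Group B] [Group G] [Group G']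

lemma quot_lift {C M : Type} [Group C] [Group M] {r : C} (F : C →* M) (h : F r = 1) :
    ∃ π : C ⧸ Subgroup.normalClosure {r} →* M, ∀ x, π (QuotientGroup.mk' _ x) = F x :=
  ⟨QuotientGroup.lift _ F (Subgroup.normalClosure_le_normal (N := F.ker)
    (by rintro _ rfl; exact h)), fun _ => rfl⟩

lemma quot_rel {C : Type} [Group C] (r : C) :
    QuotientGroup.mk' (Subgroup.normalClosure {r}) r = 1 :=
  (QuotientGroup.eq_one_iff r).2 (Subgroup.subset_normalClosure rfl)

lemma pin_amalg (c : A) (d : B) : Pin (G := Amalg c d) c d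
    ((QuotientGroup.mk' _).comp Coprod.inl) ((QuotientGroup.mk' _).comp Coprod.inr) where
  comm := by
    have := quot_rel (Coprod.inl c * (Coprod.inr d)⁻¹ : Coprod A B)
    rwa [map_mul, map_inv, mul_inv_eq_one] at this
  lift := fun M _ φ ψ h => by
    obtain ⟨π, hπ⟩ := quot_lift (r := (Coprod.inl c * (Coprod.inr d)⁻¹ : Coprod A B))
      (Coprod.lift φ ψ) (by simp [h])
    exact ⟨π, fun p => hπ _, fun q => hπ _⟩
  gen := fun T h1 h2 z => by
    obtain ⟨x, rfl⟩ := QuotientGroup.mk'_surjective _ z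
    exact cop_gen _ T h1 h2 x

lemma hn_hnn (c c' : A) : FG.Hn (G := Hnn c c') c' c ((QuotientGroup.mk' _).comp Coprod.inl)
    (QuotientGroup.mk' _ (gen A)) where
  comm := by
    have := quot_rel (gen A * Coprod.inl c * (gen A)⁻¹ * (Coprod.inl c')⁻¹)
    rw [map_mul, map_mul, map_mul, map_inv, map_inv, mul_inv_eq_one] at this
    exact this.symm
  lift := fun M _ φ τ h => by
    obtain ⟨π, hπ⟩ := quot_lift (r := gen A * Coprod.inl c * (gen A)⁻¹ * (Coprod.inl c')⁻¹)
      (Coprod.lift φ (zpowersHom M τ)) (by simp [h, gen])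
    exact ⟨π, fun p => hπ _, (hπ _).trans (by simp [gen])⟩
  gen := fun T h1 h2 z => by
    obtain ⟨x, rfl⟩ := QuotientGroup.mk'_surjective _ z
    exact cop_gen _ T h1 (zm_gen ((QuotientGroup.mk' _).comp Coprod.inr) T h2) x

variable {c c' : A} {d : B} {f : A →* G} {g : B →* G} {t : G}

lemma pin_map (h : Pin c d f g) (e : G ≃* G') :
    Pin c d (e.toMonoidHom.comp f) (e.toMonoidHom.comp g) where
  comm := congrArg e h.comm
  lift := fun M _ φ ψ hφ => by
    obtain ⟨π, h1, h2⟩ := h.lift M φ ψ hφ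
    exact ⟨π.comp e.symm.toMonoidHom, fun p => by simp [h1], fun q => by simp [h2]⟩
  gen := fun T h1 h2 z => by
    simpa using h.gen (T.comap e.toMonoidHom) h1 h2 (e.symm z)

lemma hn_map (h : FG.Hn c' c f t) (e : G ≃* G') : FG.Hn c' c (e.toMonoidHom.comp f) (e t) where
  comm := by simp [h.comm]
  lift := fun M _ φ τ hφ => by
    obtain ⟨π, h1, h2⟩ := h.lift M φ τ hφ
    exact ⟨π.comp e.symm.toMonoidHom, fun p => by simp [h1], by simp [h2]⟩
  gen := fun T h1 h2 z => by
    simpa using h.gen (T.comap e.toMonoidHom) h1 h2 (e.symm z)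

lemma pin_symm (h : Pin c d f g) : Pin d c g f where
  comm := h.comm.symm
  lift := fun M _ φ ψ hφ => by
    obtain ⟨π, h1, h2⟩ := h.lift M ψ φ hφ.symm
    exact ⟨π, h2, h1⟩
  gen := fun T h1 h2 => h.gen T h2 h1

lemma hn_symm (h : FG.Hn c' c f t) : FG.Hn c c' f t⁻¹ where
  comm := by rw [h.comm]; group
  lift := fun M _ φ τ hφ => by
    obtain ⟨π, h1, h2⟩ := h.lift M φ τ⁻¹ (by rw [hφ]; group)
    exact ⟨π, h1, by rw [map_inv, h2, inv_inv]⟩
  gen := fun T h1 h2 => h.gen T h1 (by simpa using h2)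

lemma hn_shift (h : FG.Hn c' c f t) {a : A} (ha : a * c' * a⁻¹ = c) : FG.Hn c c f (f a * t) where
  comm := by
    have : f c = f a * f c' * (f a)⁻¹ := by rw [← ha]; simp
    rw [h.comm] at this
    refine this.trans ?_
    group
  lift := fun M _ φ τ hφ => by
    obtain ⟨π, h1, h2⟩ := h.lift M φ ((φ a)⁻¹ * τ) (by
      have : φ c = φ a * φ c' * (φ a)⁻¹ := by rw [← ha]; simp
      calc φ c' = (φ a)⁻¹ * φ c * φ a := by rw [this]; group
        _ = (φ a)⁻¹ * (τ * φ c * τ⁻¹) * φ a := by rw [← hφ]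
        _ = _ := by group)
    exact ⟨π, h1, by simp [h1, h2]⟩
  gen := fun T h1 h2 => h.gen T h1 (by simpa using mul_mem (inv_mem (h1 a)) h2)

lemma mem_of_top {S : Set A} (hS : Subgroup.closure S = ⊤) {X : Set G} (h : f '' S ⊆ X) (a : A) :
    f a ∈ Subgroup.closure X := by
  have : Subgroup.closure S ≤ (Subgroup.closure X).comap f :=
    (Subgroup.closure_le _).2 fun s hs => Subgroup.subset_closure (h ⟨s, hs, rfl⟩)
  exact this (hS ▸ Subgroup.mem_top a)

lemma fg_pin (h : Pin c d f g) (hA : Group.FG A) (hB : Group.FG B) : Group.FG G := by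
  obtain ⟨S, hS, fS⟩ := Group.fg_iff.1 hA
  obtain ⟨T, hT, fT⟩ := Group.fg_iff.1 hB
  exact Group.fg_iff.2 ⟨f '' S ∪ g '' T, (Subgroup.eq_top_iff' _).2 (h.gen _
    (mem_of_top hS Set.subset_union_left) (mem_of_top hT Set.subset_union_right)),
    (fS.image _).union (fT.image _)⟩

lemma fg_hn (h : FG.Hn c' c f t) (hA : Group.FG A) : Group.FG G := by
  obtain ⟨S, hS, fS⟩ := Group.fg_iff.1 hA
  exact Group.fg_iff.2 ⟨insert t (f '' S), (Subgroup.eq_top_iff' _).2 (h.gen _
    (mem_of_top hS (Set.subset_insert _ _)) (Subgroup.subset_closure (Set.mem_insert _ _))),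
    (fS.image _).insert _⟩

/-- A common cyclic group for two elements of the same order. -/
lemma exists_edge (ho : orderOf c = orderOf d) :
    ∃ (K : Type) (_ : Group K) (i : K →* A) (j : K →* B) (k : K), Function.Injective i ∧
      Function.Injective j ∧ i k = c ∧ j k = d ∧ ∀ x, ∃ n : ℤ, x = k ^ n := by
  have key : ∀ n : ℤ, c ^ n = 1 ↔ d ^ n = 1 := fun n => by
    rw [← orderOf_dvd_iff_zpow_eq_one, ← orderOf_dvd_iff_zpow_eq_one, ho]
  refine ⟨Subgroup.zpowers ((c, d) : A × B), inferInstance,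
    (MonoidHom.fst A B).comp (Subgroup.subtype _), (MonoidHom.snd A B).comp (Subgroup.subtype _),
    ⟨_, Subgroup.mem_zpowers _⟩, (injective_iff_map_eq_one _).2 ?_,
    (injective_iff_map_eq_one _).2 ?_, rfl, rfl, ?_⟩
  · rintro ⟨_, n, rfl⟩ hn
    exact Subtype.ext (Prod.ext hn ((key n).1 hn))
  · rintro ⟨_, n, rfl⟩ hn
    exact Subtype.ext (Prod.ext ((key n).2 hn) hn)
  · rintro ⟨_, n, rfl⟩
    exact ⟨n, Subtype.ext rfl⟩

lemma pin_nf (h : Pin c d f g) (ho : orderOf c = orderOf d) :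
    Function.Injective f ∧ Function.Injective g ∧ ∀ a b, a ∉ Subgroup.zpowers c →
      b ∉ Subgroup.zpowers d → f a * g b ≠ g b * f a := by
  obtain ⟨K, _, i, j, k, hi, hj, e1, e2, hk⟩ := exists_edge ho
  have hA : Amal i j f g :=
    ⟨fun x => by
      obtain ⟨n, rfl⟩ := hk x
      simp only [map_zpow, e1, e2, h.comm],
    fun M _ φ ψ hφ => h.lift M φ ψ (by rw [← e1, ← e2]; exact hφ k), h.gen⟩
  refine ⟨(Gl.nf hA hi hj).1, (Gl.nf (FG.amal_symm hA) hj hi).1, fun a b ha hb e => ?_⟩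
  have ha' : a ∉ i.range := by
    rintro ⟨x, rfl⟩
    obtain ⟨n, rfl⟩ := hk x
    exact ha ⟨n, by simp [e1]⟩
  have hb' : b ∉ j.range := by
    rintro ⟨x, rfl⟩
    obtain ⟨n, rfl⟩ := hk x
    exact hb ⟨n, by simp [e2]⟩
  have T := Gl.Typ.left a _ _ ha' (Gl.Typ.right b _ _ hb' (Gl.Typ.left a⁻¹ _ _
    (fun hm => ha' (inv_mem_iff.1 hm)) (Gl.Typ.right b⁻¹ _ _ (fun hm => hb' (inv_mem_iff.1 hm))
      (Gl.Typ.base (i := i) (j := j) (f := f) (g := g) 1) (by simp)) (by simp)) (by simp))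
    (by simp)
  refine (Gl.nf hA hi hj).2 true _ T ?_
  rw [← mul_assoc, e]
  simp

lemma hn_inj (h : FG.Hn c' c f t) (ho : orderOf c = orderOf c') : Function.Injective f := by
  obtain ⟨K, _, i, j, k, hi, hj, e1, e2, -⟩ := exists_edge ho
  let φ : i.range ≃* j.range := (MonoidHom.ofInjective hi).symm.trans (MonoidHom.ofInjective hj)
  obtain ⟨Φ, hF, -⟩ := h.lift (HNNExtension A _ _ φ) HNNExtension.of HNNExtension.t (by
    have := HNNExtension.equiv_eq_conj (φ := φ) (MonoidHom.ofInjective hi k)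
    simpa [φ, MonoidHom.ofInjective_apply, e1, e2] using this)
  exact fun x y hxy => HNNExtension.of_injective φ
    ((hF x).symm.trans ((congrArg Φ hxy).trans (hF y)))

lemma not_cyc {w : G} (hw : w ≠ 1) (h : ¬ Cyc w) :
    ∃ x, x * w = w * x ∧ x ∉ Subgroup.zpowers w := by
  by_contra hn
  exact h ⟨hw, fun x hx => by
    by_contra hx'
    exact hn ⟨x, hx, hx'⟩⟩

lemma hn_cyc (h : FG.Hn c' c f t) (hf : Function.Injective f) (hG : CT G) (hc : c ≠ 1)
    (hc' : c' ≠ 1) : Cyc c ∨ Cyc c' := by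
  by_contra hn
  obtain ⟨a, a1, a2⟩ := not_cyc hc fun e => hn (Or.inl e)
  obtain ⟨b, b1, b2⟩ := not_cyc hc' fun e => hn (Or.inr e)
  have hA := ct_of_inj hf hG
  have e : t * f a * t⁻¹ * f b = f b * (t * f a * t⁻¹) := by
    refine hG.ct (f c') _ _ (fun e => hc' (hf (by rw [e, map_one]))) ?_ ?_
    · have : f a * f c = f c * f a := by rw [← map_mul, a1, map_mul]
      rw [h.comm]
      calc t * f c * t⁻¹ * (t * f a * t⁻¹) = t * (f c * f a) * t⁻¹ := by group
        _ = t * (f a * f c) * t⁻¹ := by rw [this]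
        _ = _ := by group
    · rw [← map_mul, ← b1, map_mul]
  have R := FG.Rd.cons (a := c') (c := c) (F := f) (t := t) true a false _
    (FG.Rd.cons false b true _ (FG.Rd.cons true a⁻¹ false _ (FG.Rd.one false b⁻¹)
      fun _ hm => a2 (inv_mem_iff.1 hm)) fun _ => b2) fun _ => a2
  refine (FG.britton h (hA.tf _ hc') (hA.tf _ hc)).2 true _ R ⟨1, ?_⟩
  show f 1 = t * f a * (t⁻¹ * f b * (t * f a⁻¹ * (t⁻¹ * f b⁻¹)))
  calc f 1 = f b * (t * f a * t⁻¹) * (t * (f a)⁻¹ * t⁻¹ * (f b)⁻¹) := by rw [map_one]; group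
    _ = t * f a * t⁻¹ * f b * (t * (f a)⁻¹ * t⁻¹ * (f b)⁻¹) := by rw [e]
    _ = _ := by rw [map_inv, map_inv]; group

lemma pin_free (h : FG.Hn (1 : A) 1 f t) : Pin (1 : A) (1 : Zm) f (zpowersHom G t) where
  comm := by simp
  lift := fun M _ φ ψ _ => by
    obtain ⟨π, h1, h2⟩ := h.lift M φ (ψ (Multiplicative.ofAdd 1)) (by simp)
    exact ⟨π, h1, zm_ext (φ := π.comp (zpowersHom G t)) (by simp [h2])⟩
  gen := fun T h1 h2 => h.gen T h1 (by simpa using h2 (Multiplicative.ofAdd 1))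

lemma pin_two (h : FG.Hn c c f t) :
    ∃ g : Zm × Zm →* G, Pin c ((Multiplicative.ofAdd 1, 1) : Zm × Zm) f g := by
  have hc : Commute (f c) t := by
    have := h.comm
    rw [eq_mul_inv_iff_mul_eq] at this
    exact this
  let g : Zm × Zm →* G := (zpowersHom G (f c)).noncommCoprod (zpowersHom G t)
    fun m k => hc.zpow_zpow _ _
  have g1 : g (Multiplicative.ofAdd 1, 1) = f c := by simp [g]
  have g2 : g (1, Multiplicative.ofAdd 1) = t := by simp [g]
  refine ⟨g, g1.symm, fun M _ φ ψ hφ => ?_, fun T h1 h2 => h.gen T h1 (g2 ▸ h2 _)⟩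
  obtain ⟨π, h1, h2⟩ := h.lift M φ (ψ (1, Multiplicative.ofAdd 1)) (by
    rw [hφ, ← map_mul, mul_comm, map_mul, mul_inv_cancel_right])
  refine ⟨π, h1, fun q => ?_⟩
  have e1 : ∀ m, π (g (m, 1)) = ψ (m, 1) :=
    zm_ext (φ := (π.comp g).comp (MonoidHom.inl Zm Zm)) (ψ := ψ.comp (MonoidHom.inl Zm Zm))
      (by show π (g (_, 1)) = ψ (_, 1); rw [g1, h1, hφ])
  have e2 : ∀ m, π (g (1, m)) = ψ (1, m) :=
    zm_ext (φ := (π.comp g).comp (MonoidHom.inr Zm Zm)) (ψ := ψ.comp (MonoidHom.inr Zm Zm))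
      (by show π (g (1, _)) = ψ (1, _); rw [g2, h2])
  have : q = (q.1, 1) * (1, q.2) := by simp
  rw [this, map_mul, map_mul, map_mul, e1, e2]

lemma ord_zero {x : G} (h : InfOrd x) : orderOf x = 0 :=
  orderOf_eq_zero_iff'.2 fun n hn e => hn.ne' (by exact_mod_cast h n (by rw [zpow_natCast, e]))

end IndP

open IndP AttP

theorem ind : IndStmt := by
  intro P h0 h1 h2
  have am : ∀ (A B G : Type) [Group A] [Group B] [Group G] (c : A) (d : B) (f : A →* G)
      (g : B →* G), Pin c d f g → orderOf c = orderOf d → CT G → Group.FG A → Group.FG B →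
      (CT A → P A) → (CT B → P B) → P G := by
    intro A B G _ _ _ c d f g h ho hG fA fB pA pB
    obtain ⟨hf, hg, hn⟩ := pin_nf h ho
    have cA := ct_of_inj hf hG
    have cB := ct_of_inj hg hG
    have e : c = 1 ↔ d = 1 := by rw [← orderOf_eq_one_iff, ho, orderOf_eq_one_iff]
    by_cases hc : c = 1
    · exact h1 A B G c d f g ⟨h, hf, hg, hG, Or.inl ⟨hc, e.1 hc⟩⟩ fA fB (fg_pin h fA fB)
        (pA cA) (pB cB)
    have hd : d ≠ 1 := fun x => hc (e.2 x)
    by_cases k1 : Cyc c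
    · exact h1 A B G c d f g ⟨h, hf, hg, hG, Or.inr ⟨k1, cB.tf d hd⟩⟩ fA fB (fg_pin h fA fB)
        (pA cA) (pB cB)
    by_cases k2 : Cyc d
    · exact h1 B A G d c g f ⟨pin_symm h, hg, hf, hG, Or.inr ⟨k2, cA.tf c hc⟩⟩ fB fA
        (fg_pin h fA fB) (pB cB) (pA cA)
    obtain ⟨a, a1, a2⟩ := not_cyc hc k1
    obtain ⟨b, b1, b2⟩ := not_cyc hd k2
    refine (hn a b a2 b2 (hG.ct (f c) _ _ (fun x => hc (hf (by rw [x, map_one]))) ?_ ?_)).elim
    · rw [← map_mul, ← a1, map_mul]
    · rw [h.comm, ← map_mul, ← b1, map_mul]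
  have ab : ∀ (B : Type) [CommGroup B], Group.FG B → CT B → P B := fun B _ fB cB =>
    h0 B fB cB fun ⟨x, y, e⟩ => e (mul_comm x y)
  have hn : ∀ (A G : Type) [Group A] [Group G] (c c' : A) (f : A →* G) (t : G),
      FG.Hn c' c f t → orderOf c = orderOf c' → CT G → Group.FG A → (CT A → P A) → P G := by
    intro A G _ _ c c' f t h ho hG fA pA
    have hf := hn_inj h ho
    have cA := ct_of_inj hf hG
    have e : c = 1 ↔ c' = 1 := by rw [← orderOf_eq_one_iff, ho, orderOf_eq_one_iff]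
    by_cases hc : c = 1
    · obtain rfl := e.1 hc
      subst hc
      exact am A Zm G 1 1 f _ (IndP.pin_free h) (by simp) hG fA inferInstance pA
        (ab Zm inferInstance)
    have hc' : c' ≠ 1 := fun x => hc (e.2 x)
    by_cases hF : Far c' c
    · rcases hn_cyc h hf hG hc hc' with k | k
      · exact h2 A G c c' f t ⟨h, hf, hG, k, hF⟩ fA (fg_hn h fA) (pA cA)
      · exact h2 A G c' c f t⁻¹ ⟨hn_symm h, hf, hG, k, hF.symm⟩ fA (fg_hn h fA) (pA cA)
    obtain ⟨a, ha⟩ := not_forall.1 hF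
    have ha := not_not.1 ha
    have e1 : f a * t * f c * (f a * t)⁻¹ = f (a * c' * a⁻¹) := by
      rw [map_mul, map_mul, map_inv, h.comm]
      group
    have e2 := csa (x := f c) (y := f a * t) hG (fun x => hc (hf (by rw [x, map_one]))) (by
      rw [e1, ← map_mul, ha, map_mul])
    have e3 : a * c' * a⁻¹ = c := hf (by rw [← e1, e2, mul_inv_cancel_right])
    obtain ⟨g, hp⟩ := pin_two (hn_shift h e3)
    refine am A (Zm × Zm) G c _ f g hp ?_ hG fA inferInstance pA (ab _ inferInstance)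
    rw [ord_zero (cA.tf c hc), ord_zero]
    intro k hk
    simpa using congrArg (fun x : Zm × Zm => x.1.toAdd) hk
  have key : ∀ (G₀ : Type) [Group G₀], Hier G₀ →
      Group.FG G₀ ∧ ∀ (G : Type) [Group G], (G₀ ≃* G) → CT G → P G := by
    intro G₀ _ h
    induction h with
    | abel G₀ hfg hc =>
      refine ⟨hfg, fun G _ e hG => h0 G (Group.fg_of_surjective (f := e.toMonoidHom) e.surjective)
        hG ?_⟩
      rintro ⟨x, y, hxy⟩
      obtain ⟨x, rfl⟩ := e.surjective x
      obtain ⟨y, rfl⟩ := e.surjective y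
      exact hxy (by rw [← map_mul, hc, map_mul])
    | amal A B c d _ _ ho iA iB =>
      exact ⟨fg_pin (pin_amalg c d) iA.1 iB.1, fun G _ e hG => am A B G c d _ _
        (pin_map (pin_amalg c d) e) ho hG iA.1 iB.1 (iA.2 A (MulEquiv.refl A))
        (iB.2 B (MulEquiv.refl B))⟩
    | hnn A c c' _ ho iA =>
      exact ⟨fg_hn (hn_hnn c c') iA.1, fun G _ e hG => hn A G c c' _ _
        (hn_map (hn_hnn c c') e) ho hG iA.1 (iA.2 A (MulEquiv.refl A))⟩
    | iso G₁ G₂ _ e i =>
      have := i.1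
      exact ⟨Group.fg_of_surjective (f := e.toMonoidHom) e.surjective,
        fun G _ e' hG => i.2 G (e.trans e') hG⟩
  exact fun G _ h hG => (key G h).2 G (MulEquiv.refl G) hG

end Pool.Agent.MP_494aff_an.Lf

end MrgPart0

-- ======== part 1: formerly Pool.Agent.MP_494aff_an.se.PushA
section MrgPart1

-- ======== part 0: formerly Pool.Agent.MP_494aff_an.se.Zint
section MrgPart0

/-! The space of cocycles and its dimension. -/

namespace Pool.Agent.MP_494aff_an.Se

open Pool.Agent.MP_494aff_an.Pinch Pool.Agent.MP_494aff_an.Pinch.TowP Pool.Agent.MP_494aff_an.Lf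

noncomputable section

namespace ZintP

variable {A G κ κ' : Type} [Group A] [Group G] {ι : A →* G} {c : A → H G}

lemma rl (g h : G) (ξ : H G) : rho g (lam h ξ) = lam h (rho g ξ) := rho_LL (lam_mem h) g ξ

lemma cy_one (h : Cy ι c) : c 1 = 0 := by
  have := h 1 1
  rw [mul_one, map_one, map_one] at this
  exact left_eq_add.1 this

lemma cy_inv (h : Cy ι c) (x : A) : c x⁻¹ = -lam (ι x⁻¹) (c x) := by
  have := h x⁻¹ x
  rw [inv_mul_cancel, cy_one h] at this
  exact eq_neg_of_add_eq_zero_left this.symm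

lemma cy_cob (ι : A →* G) (ξ : H G) : Cy ι fun x => ξ - lam (ι x) ξ := fun x y => by
  simp only [map_mul, map_sub, ContinuousLinearMap.mul_apply]
  abel

lemma mem_Zc {y : κ → A} {η : κ → H G} : η ∈ Zc ι y ↔ ∃ c, Cy ι c ∧ ∀ k, c (y k) = η k :=
  Iff.rfl

lemma exT (ι : A →* G) {y : κ → A} (hy : Subgroup.closure (Set.range y) = ⊤) (x : A) :
    ∃ T : (κ → H G) →L[ℂ] H G, (∀ g η, T (fun k => rho g (η k)) = rho g (T η)) ∧
      ∀ c, Cy ι c → c x = T fun k => c (y k) := by
  have hx : x ∈ Subgroup.closure (Set.range y) := hy ▸ Subgroup.mem_top x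
  induction hx using Subgroup.closure_induction with
  | mem x hx =>
    obtain ⟨k, rfl⟩ := hx
    exact ⟨ContinuousLinearMap.proj k, fun _ _ => rfl, fun _ _ => rfl⟩
  | one => exact ⟨0, fun _ _ => by simp, fun c h => by simp [cy_one h]⟩
  | mul x z _ _ hx hz =>
    obtain ⟨T, h1, h2⟩ := hx
    obtain ⟨S, h3, h4⟩ := hz
    refine ⟨T + (lam (ι x)).comp S, fun g η => ?_, fun c h => ?_⟩
    · simp only [ContinuousLinearMap.add_apply, ContinuousLinearMap.comp_apply, h1, h3, map_add, rl]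
    · simp only [ContinuousLinearMap.add_apply, ContinuousLinearMap.comp_apply, ← h2 c h, ← h4 c h]
      exact h x z
  | inv x _ hx =>
    obtain ⟨T, h1, h2⟩ := hx
    refine ⟨-(lam (ι x⁻¹)).comp T, fun g η => ?_, fun c h => ?_⟩
    · simp only [ContinuousLinearMap.neg_apply, ContinuousLinearMap.comp_apply, h1, map_neg, rl]
    · simp only [ContinuousLinearMap.neg_apply, ContinuousLinearMap.comp_apply, ← h2 c h]
      exact cy_inv h x

lemma inv_Zc (ι : A →* G) {y : κ → A} (hy : Subgroup.closure (Set.range y) = ⊤) :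
    Inv (Zc ι y) := by
  choose T _ hT using exT ι hy
  refine ⟨?_, ?_⟩
  · have : (Zc ι y : Set (κ → H G)) =
        (⋂ x, ⋂ z, {η | T (x * z) η = T x η + lam (ι x) (T z η)}) ∩ ⋂ k, {η | T (y k) η = η k} := by
      ext η
      simp only [SetLike.mem_coe, mem_Zc, Set.mem_inter_iff, Set.mem_iInter, Set.mem_setOf_eq]
      constructor
      · rintro ⟨c, h, e⟩
        obtain rfl : η = fun k => c (y k) := funext fun k => (e k).symm
        exact ⟨fun x z => by rw [← hT _ c h, ← hT _ c h, ← hT _ c h]; exact h x z,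
          fun k => (hT _ c h).symm⟩
      · rintro ⟨h1, h2⟩
        exact ⟨fun x => T x η, h1, h2⟩
    rw [this]
    exact (isClosed_iInter fun x => isClosed_iInter fun z =>
      isClosed_eq (by fun_prop) (by fun_prop)).inter
      (isClosed_iInter fun k => isClosed_eq (by fun_prop) (by fun_prop))
  · rintro g η ⟨c, h, e⟩
    exact ⟨fun x => rho g (c x), fun x z => by simp only [h x z, map_add, rl],
      fun k => by simp only [e]⟩

lemma dim_inj (hD : DimStmt) [Fintype κ] [Fintype κ'] {W : Submodule ℂ (κ → H G)}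
    {S : (κ → H G) →L[ℂ] (κ' → H G)} (hW : Inv W) (hS : Eqi S)
    (h : ∀ η ∈ W, S η = 0 → η = 0) : dim W = dim (W.map S.toLinearMap) := by
  have : W ⊓ LinearMap.ker S.toLinearMap = ⊥ :=
    (Submodule.eq_bot_iff _).2 fun η hη => h η hη.1 hη.2
  rw [hD.rn G κ κ' W S hW hS, this, hD.bot, zero_add]

lemma dim_chg (hD : DimStmt) [Fintype κ] [Fintype κ'] (ι : A →* G) {y : κ → A} {y' : κ' → A}
    (hy : Subgroup.closure (Set.range y) = ⊤) (hy' : Subgroup.closure (Set.range y') = ⊤) :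
    dim (Zc ι y) = dim (Zc ι y') := by
  choose T h1 hT using exT ι hy
  choose T' _ hT' using exT ι hy'
  have hS : Eqi (ContinuousLinearMap.pi fun k => T (y' k)) := fun g ξ => funext fun k => h1 _ g ξ
  rw [dim_inj hD (inv_Zc ι hy) hS]
  · congr 1
    ext η
    constructor
    · rintro ⟨_, ⟨c, h, e⟩, rfl⟩
      refine ⟨c, h, fun k => ?_⟩
      rw [hT _ c h, funext e]
      rfl
    · rintro ⟨c, h, e⟩
      exact ⟨fun k => c (y k), ⟨c, h, fun _ => rfl⟩,
        funext fun k => ((hT _ c h).symm.trans (e k))⟩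
  · rintro η ⟨c, h, e⟩ h0
    have h2 : (fun k => c (y' k)) = 0 := by
      rw [← h0, ← funext e]
      exact funext fun k => hT _ c h
    refine funext fun k => ?_
    rw [← e k, hT' _ c h, h2, map_zero]
    rfl

lemma dense_cob {g : G} (hg : InfOrd g) : DenseRange fun ξ : H G => ξ - lam g ξ := by
  have h1 : (LinearMap.range ((1 - lam g : Op G) : H G →ₗ[ℂ] H G)).topologicalClosure = ⊤ := by
    rw [Submodule.topologicalClosure_eq_top_iff, Submodule.eq_bot_iff]
    intro η hη
    have h2 : ∀ ξ : H G, inner ℂ (ξ - lam g ξ) η = 0 := fun ξ => hη _ ⟨ξ, rfl⟩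
    have h3 : η - lam g⁻¹ η = 0 := by
      rw [← inner_self_eq_zero (𝕜 := ℂ), inner_sub_right, ← lam_inner g _ (lam g⁻¹ η),
        ← ContinuousLinearMap.mul_apply (lam g) (lam g⁻¹), ← map_mul, mul_inv_cancel, map_one,
        ContinuousLinearMap.one_apply, ← inner_sub_left]
      exact h2 _
    have h4 : InfOrd g⁻¹ := fun k hk => by
      have := hg (-k) (by rw [zpow_neg, ← inv_zpow, hk])
      omega
    exact CoP.fix_zero h4 (sub_eq_zero.1 h3).symm
  exact Submodule.dense_iff_topologicalClosure_eq_top.2 h1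

lemma dim_one (hD : DimStmt) {V : Submodule ℂ (Unit → H G)} {g : G} (hg : InfOrd g)
    (h : ∀ ξ : H G, (fun _ => ξ - lam g ξ) ∈ V) : dim V = 1 := by
  have h1 : V.topologicalClosure = ⊤ := by
    rw [← Submodule.dense_iff_topologicalClosure_eq_top]
    have h2 : DenseRange fun ξ : H G => fun _ : Unit => ξ :=
      Function.Surjective.denseRange fun η => ⟨η (), rfl⟩
    refine (h2.comp (dense_cob hg) (by fun_prop)).mono ?_
    rintro _ ⟨ξ, rfl⟩
    exact h ξ
  rw [← hD.clo, h1, hD.top]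
  simp

lemma inf_map (hι : Function.Injective ι) {a : A} (ha : InfOrd a) : InfOrd (ι a) := fun k hk =>
  ha k (hι (by rw [map_zpow, hk, map_one]))

/-- Affine isometries with a translation as linear part. -/
@[ext] structure Af (G : Type) where
  v : H G
  g : G

instance : Mul (Af G) := ⟨fun a b => ⟨a.v + lam a.g b.v, a.g * b.g⟩⟩

instance : One (Af G) := ⟨⟨0, 1⟩⟩

instance : _root_.Inv (Af G) := ⟨fun a => ⟨-lam a.g⁻¹ a.v, a.g⁻¹⟩⟩

instance : Group (Af G) :=
  Group.ofLeftAxioms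
    (fun a b c => Af.ext (by
      show a.v + lam a.g b.v + lam (a.g * b.g) c.v = a.v + lam a.g (b.v + lam b.g c.v)
      rw [map_mul, map_add, add_assoc]
      rfl) (mul_assoc a.g b.g c.g))
    (fun a => Af.ext (by
      show 0 + lam (1 : G) a.v = a.v
      rw [map_one, zero_add]
      rfl) (one_mul a.g))
    fun a => Af.ext (neg_add_cancel _) (inv_mul_cancel a.g)

/-- The homomorphism of a cocycle. -/
def toAf (h : Cy ι c) : A →* Af G where
  toFun x := ⟨c x, ι x⟩
  map_one' := Af.ext (cy_one h) (map_one ι)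
  map_mul' x y := Af.ext (h x y) (map_mul ι x y)

/-- The linear part. -/
def lin (G : Type) [Group G] : Af G →* G where
  toFun a := a.g
  map_one' := rfl
  map_mul' _ _ := rfl

lemma cy_of {π : A →* Af G} (h : ∀ x, x ∈ ((lin G).comp π).eqLocus ι) :
    Cy ι fun x => (π x).v := fun x y => by
  show (π (x * y)).v = (π x).v + lam (ι x) (π y).v
  have : (π x).g = ι x := h x
  rw [map_mul, ← this]
  rfl

lemma cy_comp {B : Type} [Group B] (h : Cy ι c) (f : B →* A) : Cy (ι.comp f) fun x => c (f x) :=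
  fun x y => (congrArg c (map_mul f x y)).trans (h _ _)

lemma map_mem {B : Type} [Group B] {y : κ → B} (hy : Subgroup.closure (Set.range y) = ⊤)
    (f : B →* A) {T : Subgroup A} (h : ∀ k, f (y k) ∈ T) (p : B) : f p ∈ T :=
  (show (⊤ : Subgroup B) ≤ T.comap f from hy ▸ (Subgroup.closure_le _).2 (by
    rintro _ ⟨k, rfl⟩
    exact h k)) (Subgroup.mem_top p)

lemma fam (h : Group.FG A) : ∃ (κ : Type) (_ : Fintype κ) (y : κ → A),
    Subgroup.closure (Set.range y) = ⊤ := by
  obtain ⟨S, hS⟩ := h.out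
  exact ⟨S, inferInstance, Subtype.val, by rw [Subtype.range_coe_subtype]; exact hS⟩

lemma nat_of {x : ℝ} {n : ℕ} (hx : 0 ≤ x) (h : (n : ℝ) = x + 1) : ∃ m : ℕ, x = m := by
  cases n with
  | zero => exact absurd h (by push_cast; linarith)
  | succ m => exact ⟨m, by push_cast at h; linarith⟩

/-- The claim of the induction. -/
def PP (A : Type) [Group A] : Prop :=
  ∀ (G κ : Type) [Group G] [Fintype κ] (ι : A →* G) (y : κ → A), Function.Injective ι →
    Subgroup.closure (Set.range y) = ⊤ → ∃ n : ℕ, dim (Zc ι y) = n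

lemma pp_ab (hD : DimStmt) (hA : CT A) (hN : ¬ NA A) : PP A := by
  intro G κ _ _ ι y hι hy
  by_cases h : ∀ a : A, a = 1
  · have : Zc ι y = ⊥ := (Submodule.eq_bot_iff _).2 (by
      rintro η ⟨c, hc, e⟩
      exact funext fun k => by rw [← e k, h (y k), cy_one hc]; rfl)
    exact ⟨0, by rw [this, hD.bot, Nat.cast_zero]⟩
  · obtain ⟨a, ha⟩ := not_forall.1 h
    have hi := inf_map hι (hA.tf a ha)
    obtain ⟨T, h1, hT⟩ := exT ι hy a
    have hS : Eqi (ContinuousLinearMap.pi fun _ : Unit => T) := fun g ξ => funext fun _ => h1 g ξ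
    refine ⟨1, ?_⟩
    rw [dim_inj hD (inv_Zc ι hy) hS, Nat.cast_one]
    · refine dim_one hD hi fun ξ => ⟨fun k => ξ - lam (ι (y k)) ξ, ⟨_, cy_cob ι ξ, fun _ => rfl⟩, ?_⟩
      exact funext fun _ => (hT _ (cy_cob ι ξ)).symm
    · rintro η ⟨c, hc, e⟩ h0
      have h2 : c a = 0 := by
        rw [hT c hc, funext e]
        exact congrFun h0 ()
      refine funext fun k => ?_
      rw [← e k]
      refine CoP.fix_zero hi ?_
      have h3 : a * y k = y k * a := by
        by_contra hn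
        exact hN ⟨_, _, hn⟩
      have h4 := hc a (y k)
      rw [h3, hc, h2, map_zero, add_zero, zero_add] at h4
      exact h4.symm

/-- Pairs of vectors. -/
def pw (W₁ : Submodule ℂ (κ → H G)) (W₂ : Submodule ℂ (κ' → H G)) :
    Submodule ℂ (κ ⊕ κ' → H G) :=
  W₁.comap (LinearMap.funLeft ℂ (H G) Sum.inl) ⊓ W₂.comap (LinearMap.funLeft ℂ (H G) Sum.inr)

lemma mem_pw {W₁ : Submodule ℂ (κ → H G)} {W₂ : Submodule ℂ (κ' → H G)} (η : κ ⊕ κ' → H G) :
    η ∈ pw W₁ W₂ ↔ (fun i => η (Sum.inl i)) ∈ W₁ ∧ (fun k => η (Sum.inr k)) ∈ W₂ := Iff.rfl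

/-- Restriction of a family of vectors. -/
def rs (G : Type) (p : κ → κ') : (κ' → H G) →L[ℂ] (κ → H G) :=
  ContinuousLinearMap.pi fun k => ContinuousLinearMap.proj (p k)

lemma pp_am (hD : DimStmt) {B C : Type} [Group B] [Group C] {a : A} {b : B} {f : A →* C}
    {g : B →* C} (h : Am a b f g) (fA : Group.FG A) (fB : Group.FG B) (pA : PP A) (pB : PP B) :
    PP C := by
  intro G κ _ _ ι y hι hy
  obtain ⟨κA, _, yA, hA⟩ := fam fA
  obtain ⟨κB, _, yB, hB⟩ := fam fB
  have hz : Subgroup.closure (Set.range (Sum.elim (fun k => f (yA k)) fun k => g (yB k))) = ⊤ := by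
    refine (Subgroup.eq_top_iff' _).2 (h.pin.gen _ (fun p => ?_) fun q => ?_)
    · exact map_mem hA f (fun k => by exact Subgroup.subset_closure ⟨Sum.inl k, rfl⟩) p
    · exact map_mem hB g (fun k => by exact Subgroup.subset_closure ⟨Sum.inr k, rfl⟩) q
  rw [dim_chg hD ι hy hz]
  obtain ⟨nA, eA⟩ := pA G κA (ι.comp f) yA (hι.comp h.hf) hA
  obtain ⟨nB, eB⟩ := pB G κB (ι.comp g) yB (hι.comp h.hg) hB
  obtain ⟨hW, eW⟩ := hD.sum G κA κB _ _ _ (inv_Zc (ι.comp f) hA) (inv_Zc (ι.comp g) hB) mem_pw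
  obtain ⟨T, h1, hT⟩ := exT (ι.comp f) hA a
  obtain ⟨S, h2, hS⟩ := exT (ι.comp g) hB b
  let D : (κA ⊕ κB → H G) →L[ℂ] (Unit → H G) :=
    ContinuousLinearMap.pi fun _ => T.comp (rs G Sum.inl) - S.comp (rs G Sum.inr)
  have hDa : ∀ η, D η = fun _ => T (fun k => η (Sum.inl k)) - S fun k => η (Sum.inr k) :=
    fun _ => rfl
  have hE : Eqi D := fun x ξ => funext fun _ => by
    simp only [hDa, map_sub]
    rw [h1 x fun k => ξ (Sum.inl k), h2 x fun k => ξ (Sum.inr k)]
  have hK : pw (Zc (ι.comp f) yA) (Zc (ι.comp g) yB) ⊓ LinearMap.ker D.toLinearMap =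
      Zc ι (Sum.elim (fun k => f (yA k)) fun k => g (yB k)) := by
    ext η
    constructor
    · rintro ⟨⟨⟨α, hα, e1⟩, ⟨β, hβ, e2⟩⟩, h0⟩
      have h3 : α a = β b := by
        rw [hT α hα, hS β hβ, funext e1, funext e2]
        exact sub_eq_zero.1 (congrFun h0 ())
      obtain ⟨π, p1, p2⟩ := h.pin.lift (Af G) (toAf hα) (toAf hβ)
        (Af.ext h3 (congrArg ι h.pin.comm))
      refine ⟨_, cy_of (π := π) (h.pin.gen _ (fun p => congrArg Af.g (p1 p))
        fun q => congrArg Af.g (p2 q)), ?_⟩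
      rintro (k | k)
      · exact (congrArg Af.v (p1 _)).trans (e1 k)
      · exact (congrArg Af.v (p2 _)).trans (e2 k)
    · rintro ⟨γ, hγ, e⟩
      refine ⟨⟨⟨_, cy_comp hγ f, fun k => e (Sum.inl k)⟩, ⟨_, cy_comp hγ g, fun k => e (Sum.inr k)⟩⟩,
        funext fun _ => ?_⟩
      rw [← funext e]
      refine sub_eq_zero.2 (((hT _ (cy_comp hγ f)).symm.trans ?_).trans (hS _ (cy_comp hγ g)))
      rw [h.pin.comm]
  have hr := hD.rn G _ _ _ D hW hE
  rw [hK, eW, eA, eB, ← Nat.cast_add] at hr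
  rcases h.edge with ⟨rfl, rfl⟩ | ⟨ha, _⟩
  · have : (pw (Zc (ι.comp f) yA) (Zc (ι.comp g) yB)).map D.toLinearMap = ⊥ :=
      (Submodule.eq_bot_iff _).2 (by
        rintro _ ⟨η, ⟨⟨α, hα, e1⟩, ⟨β, hβ, e2⟩⟩, rfl⟩
        refine funext fun _ => sub_eq_zero.2 ?_
        have e3 := hT α hα
        have e4 := hS β hβ
        rw [funext e1, cy_one hα] at e3
        rw [funext e2, cy_one hβ] at e4
        exact e3.symm.trans e4)
    rw [this, hD.bot, add_zero] at hr
    exact ⟨_, hr.symm⟩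
  · have hi : InfOrd (ι (f a)) :=
      inf_map hι (h.ct.tf _ fun e => ha.1 (h.hf (by rw [e, map_one])))
    rw [dim_one hD hi] at hr
    · exact nat_of (hD.nonneg _ _ _) hr
    · intro ξ
      refine ⟨Sum.elim (fun k => ξ - lam (ι (f (yA k))) ξ) 0,
        ⟨⟨_, cy_cob (ι.comp f) ξ, fun _ => rfl⟩, (Zc (ι.comp g) yB).zero_mem⟩, funext fun _ => ?_⟩
      have e3 := hT _ (cy_cob (ι.comp f) ξ)
      show T _ - S 0 = _
      rw [map_zero, sub_zero]
      exact e3.symm

lemma pp_hx (hD : DimStmt) {C : Type} [Group C] {a a' : A} {f : A →* C} {t : C}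
    (h : Hx a a' f t) (fA : Group.FG A) (pA : PP A) : PP C := by
  intro G κ _ _ ι y hι hy
  obtain ⟨κA, _, yA, hA⟩ := fam fA
  have hz : Subgroup.closure (Set.range (Sum.elim (fun k => f (yA k)) fun _ : Unit => t)) = ⊤ := by
    refine (Subgroup.eq_top_iff' _).2 (h.hn.gen _ (fun p => ?_)
      (Subgroup.subset_closure ⟨Sum.inr (), rfl⟩))
    exact map_mem hA f (fun k => by exact Subgroup.subset_closure ⟨Sum.inl k, rfl⟩) p
  rw [dim_chg hD ι hy hz]
  obtain ⟨nA, eA⟩ := pA G κA (ι.comp f) yA (hι.comp h.hf) hA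
  obtain ⟨hW, eW⟩ := hD.sum G κA Unit _ ⊤ _ (inv_Zc (ι.comp f) hA)
    ⟨isClosed_univ, fun _ _ _ => trivial⟩ mem_pw
  obtain ⟨T, h1, hT⟩ := exT (ι.comp f) hA a
  obtain ⟨S, h2, hS⟩ := exT (ι.comp f) hA a'
  let D : (κA ⊕ Unit → H G) →L[ℂ] (Unit → H G) :=
    ContinuousLinearMap.pi fun _ =>
      (ContinuousLinearMap.proj (Sum.inr ()) + (lam (ι t)).comp (T.comp (rs G Sum.inl))) -
      (S.comp (rs G Sum.inl) + (lam (ι (f a'))).comp (ContinuousLinearMap.proj (Sum.inr ())))
  have hDa : ∀ η, D η = fun _ => (η (Sum.inr ()) + lam (ι t) (T fun k => η (Sum.inl k))) -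
      ((S fun k => η (Sum.inl k)) + lam (ι (f a')) (η (Sum.inr ()))) := fun _ => rfl
  have hE : Eqi D := fun x ξ => funext fun _ => by
    simp only [hDa, map_sub, map_add, rl]
    rw [h1 x fun k => ξ (Sum.inl k), h2 x fun k => ξ (Sum.inl k)]
  have hc : f a' * t = t * f a := by rw [h.hn.comm, inv_mul_cancel_right]
  have hK : pw (Zc (ι.comp f) yA) ⊤ ⊓ LinearMap.ker D.toLinearMap =
      Zc ι (Sum.elim (fun k => f (yA k)) fun _ : Unit => t) := by
    ext η
    constructor
    · rintro ⟨⟨⟨α, hα, e1⟩, -⟩, h0⟩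
      have h3 : α a' + lam (ι (f a')) (η (Sum.inr ())) = η (Sum.inr ()) + lam (ι t) (α a) := by
        rw [hT α hα, hS α hα, funext e1]
        exact (sub_eq_zero.1 (congrFun h0 ())).symm
      obtain ⟨π, p1, p2⟩ := h.hn.lift (Af G) (toAf hα) ⟨η (Sum.inr ()), ι t⟩
        (eq_mul_inv_of_mul_eq (Af.ext h3 (by
          show ι (f a') * ι t = ι t * ι (f a)
          rw [← map_mul, hc, map_mul])))
      refine ⟨_, cy_of (π := π) (h.hn.gen _ (fun p => congrArg Af.g (p1 p))
        (congrArg Af.g p2)), ?_⟩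
      rintro (k | k)
      · exact (congrArg Af.v (p1 _)).trans (e1 k)
      · exact congrArg Af.v p2
    · rintro ⟨γ, hγ, e⟩
      refine ⟨⟨⟨_, cy_comp hγ f, fun k => e (Sum.inl k)⟩, trivial⟩, funext fun _ => ?_⟩
      rw [← funext e]
      have e3 := hT _ (cy_comp hγ f)
      have e4 := hS _ (cy_comp hγ f)
      show (γ t + lam (ι t) (T fun k => γ (f (yA k)))) -
        ((S fun k => γ (f (yA k))) + lam (ι (f a')) (γ t)) = 0
      rw [← e3, ← e4, ← hγ, ← hγ, hc, sub_self]
  have hr := hD.rn G _ _ _ D hW hE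
  have hi : InfOrd (ι (f a')) := inf_map hι (h.ct.tf _ fun e => h.cyc.1 (h.hf (by
    rw [e, one_mul] at hc
    rw [map_one]
    exact (left_eq_mul.1 hc))))
  rw [hK, eW, eA, hD.top, dim_one hD hi] at hr
  · exact ⟨nA, by simpa using hr.symm⟩
  · intro ξ
    refine ⟨Sum.elim 0 fun _ => ξ, ⟨(Zc (ι.comp f) yA).zero_mem, trivial⟩, funext fun _ => ?_⟩
    show (ξ + lam (ι t) (T 0)) - (S 0 + lam (ι (f a')) ξ) = _
    rw [map_zero, map_zero, map_zero, add_zero, zero_add]

end ZintP

theorem coc (hD : DimStmt) : CocStmt := fun _ _ _ _ _ _ ι _ hy =>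
  ⟨ZintP.inv_Zc ι hy, ZintP.exT ι hy, fun _ _ _ hy' => ZintP.dim_chg hD ι hy hy'⟩

theorem zint (hD : DimStmt) (hI : IndStmt) : ZintStmt := fun A G κ _ _ _ ι y hH hC hι hy =>
  hI (fun A _ => ZintP.PP A) (fun _ _ _ h1 h2 => ZintP.pp_ab hD h1 h2)
    (fun _ _ _ _ _ _ _ _ _ _ h fA fB _ pA pB => ZintP.pp_am hD h fA fB pA pB)
    (fun _ _ _ _ _ _ _ _ h fA _ pA => ZintP.pp_hx hD h fA pA) A hH hC G κ ι y hι hy

end

end Pool.Agent.MP_494aff_an.Se

end MrgPart0

-- ======== part 1: formerly Pool.Agent.MP_494aff_an.se.AbA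
section MrgPart1

/-! Subfields of finitely generated fields, and groups whose group ring embeds in one. -/

namespace Pool.Agent.MP_494aff_an.Se.AbP

open scoped IntermediateField.algebraAdjoinAdjoin

lemma finite_alg (k E K : Type) [Field k] [Field E] [Field K] [Algebra k E] [Algebra E K]
    [Algebra k K] [IsScalarTower k E K] [Algebra.EssFiniteType k K] [Algebra.IsAlgebraic k E] :
    Module.Finite k E := by
  classical
  obtain ⟨s, hz⟩ := exists_isTranscendenceBasis k K
  have alg := hz.isAlgebraic_field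
  set z : s → K := Subtype.val
  set F := IntermediateField.adjoin k (Set.range z)
  have : Algebra.EssFiniteType F K := .of_comp k F K
  have : Module.Finite F K := Algebra.finite_of_essFiniteType_of_isAlgebraic
  let b := Module.Basis.ofVectorSpace k E
  have hE : AlgebraicIndependent E z := hz.1.extendScalars E
  have li : LinearIndependent (Algebra.adjoin k (Set.range z)) fun i => algebraMap E K (b i) := by
    rw [linearIndependent_iff']
    intro t g hg i hi
    have hp : ∀ i, ∃ p : MvPolynomial s k, MvPolynomial.aeval z p = g i := fun i =>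
      (Algebra.adjoin_range_eq_range_aeval k z).le (g i).2
    choose p hp using hp
    have h0 : ∑ i ∈ t, MvPolynomial.C (b i) * MvPolynomial.map (algebraMap k E) (p i) = 0 := by
      apply hE
      rw [map_zero, map_sum, ← hg]
      refine Finset.sum_congr rfl fun i _ => ?_
      rw [map_mul, MvPolynomial.aeval_map_algebraMap, hp, MvPolynomial.algHom_C, mul_comm]
      rfl
    have h1 : p i = 0 := by
      ext m
      have h2 := congrArg (MvPolynomial.coeff m) h0
      simp only [MvPolynomial.coeff_sum, MvPolynomial.coeff_C_mul, MvPolynomial.coeff_map,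
        MvPolynomial.coeff_zero] at h2
      refine linearIndependent_iff'.1 b.linearIndependent t (fun i => (p i).coeff m) ?_ i hi
      rw [← h2]
      exact Finset.sum_congr rfl fun i _ => by rw [Algebra.smul_def, mul_comm]
    apply Subtype.ext
    rw [← hp, h1, map_zero]
    rfl
  have li' := (LinearIndependent.iff_fractionRing _ F).1 li
  have := li'.finite
  exact Module.Finite.of_basis b

lemma ess_sub (k E K : Type) [Field k] [Field E] [Field K] [Algebra k E] [Algebra E K]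
    [Algebra k K] [IsScalarTower k E K] [Algebra.EssFiniteType k K] :
    Algebra.EssFiniteType k E := by
  obtain ⟨s, hz⟩ := exists_isTranscendenceBasis k E
  have alg := hz.isAlgebraic_field
  have fin : Finite s := finite_of_algebraicIndependent
    (hz.1.map' (f := IsScalarTower.toAlgHom k E K) (algebraMap E K).injective)
  set F := IntermediateField.adjoin k (Set.range (Subtype.val : s → E))
  have : Algebra.EssFiniteType k F := IntermediateField.essFiniteType_iff.2
    (IntermediateField.fg_adjoin_of_finite (Set.finite_range _))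
  have : Algebra.EssFiniteType F K := .of_comp k F K
  have := finite_alg F E K
  exact .comp k F E

lemma fg_le {k L : Type} [Field k] [Field L] [Algebra k L] {E K : IntermediateField k L}
    (h : E ≤ K) (hK : K.FG) : E.FG := by
  let _ := (IntermediateField.inclusion h).toAlgebra
  have : IsScalarTower k E K := IsScalarTower.of_algebraMap_eq fun _ => rfl
  have := IntermediateField.essFiniteType_iff.2 hK
  exact IntermediateField.essFiniteType_iff.1 (ess_sub k E K)

lemma grp_fg {k L M : Type} [Field k] [Field L] [Algebra k L] [Group M]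
    {K : IntermediateField k L} (hK : K.FG) (χ : M →* L) (h : ∀ m, χ m ∈ K)
    (li : LinearIndependent k χ) : Group.FG M := by
  classical
  obtain ⟨t, ht⟩ := fg_le (E := IntermediateField.adjoin k (Set.range χ))
    (IntermediateField.adjoin_le_iff.2 (Set.range_subset_iff.2 h)) hK
  have h1 : ∀ x ∈ t, ∃ T : Finset M, x ∈ IntermediateField.adjoin k (χ '' T) := by
    intro x hx
    obtain ⟨T, h1, h2⟩ := IntermediateField.exists_finset_of_mem_adjoin
      (ht ▸ IntermediateField.subset_adjoin k _ hx)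
    obtain ⟨T', -, rfl⟩ := Finset.subset_set_image_iff.1 (Set.image_univ ▸ h1)
    exact ⟨T', by rwa [← Finset.coe_image]⟩
  choose! T hT using h1
  refine ⟨t.biUnion T, top_le_iff.1 fun m _ => ?_⟩
  set M₀ := Subgroup.closure (t.biUnion T : Set M)
  have h2 : χ m ∈ IntermediateField.adjoin k (χ '' (t.biUnion T : Set M)) := by
    refine (ht.ge.trans (IntermediateField.adjoin_le_iff.2 fun x hx => ?_))
      (IntermediateField.subset_adjoin k _ ⟨m, rfl⟩)
    exact IntermediateField.adjoin.mono _ _ _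
      (Set.image_mono (Finset.coe_subset.2 (Finset.subset_biUnion_of_mem T hx))) (hT x hx)
  obtain ⟨r, hr, s, hs, e⟩ := IntermediateField.mem_adjoin_iff_div.1 h2
  have h3 : ∀ y ∈ Algebra.adjoin k (χ '' (t.biUnion T : Set M)),
      y ∈ Submodule.span k (χ '' M₀) := by
    intro y hy
    rw [← Subalgebra.mem_toSubmodule, Algebra.adjoin_eq_span] at hy
    refine Submodule.span_mono ?_ hy
    rw [← MonoidHom.map_mclosure, Submonoid.coe_map]
    exact Set.image_mono (Subgroup.le_closure_toSubmonoid _)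
  have h0 : χ m ≠ 0 := ((Group.isUnit m).map χ).ne_zero
  have hs0 : s ≠ 0 := by rintro rfl; exact h0 (by rw [e, div_zero])
  by_contra hm
  have h4 : χ m * s ∈ Submodule.span k (χ '' (M₀ : Set M)ᶜ) := by
    refine Submodule.span_induction (p := fun y _ => χ m * y ∈ _) ?_ ?_ ?_ ?_ (h3 s hs)
    · rintro _ ⟨a, ha, rfl⟩
      exact Submodule.subset_span ⟨m * a, fun h => hm ((M₀.mul_mem_cancel_right ha).1 h),
        map_mul _ _ _⟩
    · rw [mul_zero]; exact zero_mem _
    · intro x y _ _ hx hy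
      rw [mul_add]; exact add_mem hx hy
    · intro a x _ hx
      rw [mul_smul_comm]; exact Submodule.smul_mem _ _ hx
  have h5 : χ m * s = r := by rw [e, div_mul_cancel₀ _ hs0]
  exact mul_ne_zero h0 hs0 (Submodule.disjoint_def.1
    (li.disjoint_span_image disjoint_compl_right) _ (h5 ▸ h3 r hr) h4)

end Pool.Agent.MP_494aff_an.Se.AbP

end MrgPart1

-- ======== part 2: formerly Pool.Agent.MP_494aff_an.se.Ab
section MrgPart2

/-! Abelian subgroups of limit groups are finitely generated. -/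

open Filter

namespace Pool.Agent.MP_494aff_an.Se

open Pool.Agent.MP_494aff_an.Pinch

namespace AbP

section Mat

variable {L : Type} [Field L]

/-- The eigenvalue of `B` on the eigenline of `A` that does not belong to `l'`. -/
def ch (A : Matrix (Fin 2) (Fin 2) L) (l' d : L) (B : Matrix (Fin 2) (Fin 2) L) : L :=
  (B 0 0 * A 0 0 + B 0 1 * A 1 0 + B 1 0 * A 0 1 + B 1 1 * A 1 1 - l' * (B 0 0 + B 1 1)) * d

variable {A B B' : Matrix (Fin 2) (Fin 2) L} {l l' d : L}

lemma ch_one (h1 : l + l' = A.trace) (h3 : (l - l') * d = 1) : ch A l' d 1 = 1 := by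
  rw [Matrix.trace_fin_two] at h1
  simp only [ch, Matrix.one_apply_eq, ne_eq, zero_ne_one, not_false_eq_true, Matrix.one_apply_ne,
    one_ne_zero]
  linear_combination h3 - d * h1

lemma ch_self (h0 : A.det = l * l') (h1 : l + l' = A.trace) (h3 : (l - l') * d = 1) :
    ch A l' d A = l := by
  rw [Matrix.trace_fin_two] at h1
  rw [Matrix.det_fin_two] at h0
  simp only [ch]
  linear_combination l * h3 - 2 * d * h0 - d * (A 0 0 + A 1 1 + l) * h1

lemma ch_eq (B : Matrix (Fin 2) (Fin 2) L) : ch A l' d B = (B * (A - l' • 1)).trace * d := by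
  simp [ch, Matrix.trace_fin_two, Matrix.mul_apply, Fin.sum_univ_two]
  left; ring

lemma sandwich (N B : Matrix (Fin 2) (Fin 2) L) :
    N * B * N = (B * N).trace • N - N.det • B.adjugate := by
  ext i j
  fin_cases i <;> fin_cases j <;>
    simp [Matrix.trace_fin_two, Matrix.mul_apply, Fin.sum_univ_two, Matrix.det_fin_two,
      Matrix.adjugate_fin_two] <;> ring

lemma ch_mul (h0 : A.det = l * l') (h1 : l + l' = A.trace) (h3 : (l - l') * d = 1)
    (hc : B * A = A * B) : ch A l' d (B * B') = ch A l' d B * ch A l' d B' := by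
  rw [Matrix.trace_fin_two] at h1
  rw [Matrix.det_fin_two] at h0
  have hd : (A - l' • 1).det = 0 := by
    simp [Matrix.det_fin_two]
    linear_combination h0 + l' * h1
  have ht : (A - l' • 1).trace = l - l' := by
    simp [Matrix.trace_fin_two]
    linear_combination -h1
  have hc' : B * (A - l' • 1) = (A - l' • 1) * B := by
    rw [mul_sub, sub_mul, hc, mul_smul_comm, smul_mul_assoc, mul_one, one_mul]
  simp only [ch_eq]
  generalize A - l' • 1 = N at hd ht hc'
  have s1 := sandwich N 1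
  have s2 := sandwich N B
  rw [hd, zero_smul, sub_zero] at s1 s2
  rw [mul_one, one_mul, ht] at s1
  have s3 : B * N = ((B * N).trace * d) • N := by
    rw [mul_comm, mul_smul, ← s2, ← hc', mul_assoc, s1, mul_smul_comm, smul_smul, mul_comm d, h3,
      one_smul]
  rw [mul_assoc B, Matrix.trace_mul_comm, mul_assoc, ← hc', s3, mul_smul_comm, Matrix.trace_smul,
    ← s3, smul_eq_mul, mul_assoc]

end Mat

lemma cyc (s : Finset F2) (h : ∀ u ∈ s, ∀ w ∈ s, u * w = w * u) :
    ∃ r : F2, (∀ w ∈ s, ∃ n : ℤ, w = r ^ n) ∧ ∀ y, (∀ w ∈ s, Commute y w) → Commute y r := by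
  classical
  induction s using Finset.induction_on with
  | empty => exact ⟨1, by simp, fun y _ => Commute.one_right y⟩
  | insert a s _ ih =>
    obtain ⟨r, h1, h2⟩ := ih fun u hu w hw =>
      h u (Finset.mem_insert_of_mem hu) w (Finset.mem_insert_of_mem hw)
    obtain ⟨z, p, q, hp, hq⟩ := cyc_of_commute (h2 a fun w hw =>
      h a (Finset.mem_insert_self _ _) w (Finset.mem_insert_of_mem hw))
    obtain ⟨p', hp'⟩ := Int.gcd_dvd_left p q
    obtain ⟨q', hq'⟩ := Int.gcd_dvd_right p q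
    refine ⟨z ^ (Int.gcd p q : ℤ), fun w hw => ?_, fun y hy => ?_⟩
    · rcases Finset.mem_insert.1 hw with rfl | hw
      · exact ⟨p', by rw [← zpow_mul, ← hp', hp]⟩
      · obtain ⟨n, rfl⟩ := h1 w hw
        exact ⟨q' * n, by rw [← zpow_mul, ← mul_assoc, ← hq', zpow_mul, hq]⟩
    · rw [Int.gcd_eq_gcd_ab, zpow_add, zpow_mul, zpow_mul, ← hp, ← hq]
      exact ((hy a (Finset.mem_insert_self _ _)).zpow_right _).mul_right
        ((h2 y fun w hw => hy w (Finset.mem_insert_of_mem hw)).zpow_right _)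

lemma li_zpow {L ι : Type} [Field L] {μ : L} (h : Transcendental ℤ μ) (h0 : μ ≠ 0) (s : Finset ι)
    (n c : ι → ℤ) (hn : Set.InjOn n s) (e : ∑ i ∈ s, c i • μ ^ n i = 0) : ∀ i ∈ s, c i = 0 := by
  have li : LinearIndependent ℤ fun k : ℕ => μ ^ k := by
    have := (Polynomial.basisMonomials ℤ).linearIndependent.map'
      (Polynomial.aeval μ).toLinearMap (LinearMap.ker_eq_bot.2 (transcendental_iff_injective.1 h))
    simpa [Function.comp_def] using this
  obtain ⟨N, hN⟩ : ∃ N : ℤ, ∀ i ∈ s, 0 ≤ n i + N :=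
    ⟨∑ i ∈ s, |n i|, fun i hi => by
      have := Finset.single_le_sum (f := fun i => |n i|) (fun _ _ => abs_nonneg _) hi
      have := neg_abs_le (n i)
      omega⟩
  have li2 := li.comp (fun i : s => (n i + N).toNat) fun i j hij => Subtype.ext (hn i.2 j.2 (by
    have h1 := hN i i.2
    have h2 := hN j j.2
    simp only at hij
    omega))
  intro i hi
  refine Fintype.linearIndependent_iff.1 li2 (fun i => c i) ?_ ⟨i, hi⟩
  have : (∑ i ∈ s, c i • μ ^ n i) * μ ^ N = 0 := by rw [e, zero_mul]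
  rw [← this, Finset.sum_mul, ← Finset.sum_coe_sort s]
  refine Finset.sum_congr rfl fun i _ => ?_
  rw [smul_mul_assoc, ← zpow_add₀ h0, Function.comp, ← zpow_natCast,
    Int.toNat_of_nonneg (hN i i.2)]

/-- Eigenvalue data at one level. -/
lemma level (hT : TrStmt) (hF : FwStmt) {Om : Type} [Field Om] [CharZero Om] [IsAlgClosed Om]
    (f : Polynomial ℤ →+* Om) (hf : Function.Injective f) :
    ∃ (R : F2 →* Matrix (Fin 2) (Fin 2) Om) (l' d : F2 → Om), ∀ a, a ≠ 1 →
      ch (R a) (l' a) (d a) 1 = 1 ∧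
      (∀ u w, u * a = a * u → ch (R a) (l' a) (d a) (R (u * w))
        = ch (R a) (l' a) (d a) (R u) * ch (R a) (l' a) (d a) (R w)) ∧
      ∀ (ι : Type) (s : Finset ι) (w : ι → F2) (c : ι → ℤ), Set.InjOn w s →
        (∀ i ∈ s, w i * a = a * w i) → (∀ i ∈ s, ∀ i' ∈ s, w i * w i' = w i' * w i) →
        ∑ i ∈ s, c i • ch (R a) (l' a) (d a) (R (w i)) = 0 → ∀ i ∈ s, c i = 0 := by
  classical
  obtain ⟨ρ, hρ⟩ := hT
  let R : F2 →* Matrix (Fin 2) (Fin 2) Om :=
    { toFun := fun w => f.mapMatrix (ρ w).1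
      map_one' := by simp
      map_mul' := fun u w => by rw [map_mul, Matrix.SpecialLinearGroup.coe_mul, map_mul] }
  have det : ∀ w, (R w).det = 1 := fun w => by
    rw [show (R w).det = _ from (f.map_det (ρ w).1).symm, (ρ w).2, map_one]
  have tr : ∀ w, (R w).trace = f (ρ w).1.trace := fun w => by
    simp [R, Matrix.trace_fin_two]
  have ex : ∀ t : Om, ∃ l, l * (t - l) = 1 := fun t => by
    obtain ⟨y, hy⟩ := IsAlgClosed.exists_pow_nat_eq (t ^ 2 - 4) two_pos
    exact ⟨(t + y) / 2, by linear_combination (-1 / 4 : Om) * hy⟩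
  choose l hl using fun a => ex (R a).trace
  clear_value R
  refine ⟨R, fun a => (R a).trace - l a, fun a => (l a - ((R a).trace - l a))⁻¹, fun a ha => ?_⟩
  beta_reduce
  have h0 : (R a).det = l a * ((R a).trace - l a) := by rw [det, hl]
  have h1 : l a + ((R a).trace - l a) = (R a).trace := by ring
  have tl : l a ∉ algebraicClosure ℚ Om := by
    intro h
    have h2 : (R a).trace ∈ algebraicClosure ℚ Om := by
      rw [← h1, eq_inv_of_mul_eq_one_right (hl a)]
      exact add_mem h (inv_mem h)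
    rw [mem_algebraicClosure_iff, ← IsFractionRing.isAlgebraic_iff ℤ ℚ Om, tr] at h2
    have h3 : IsAlgebraic ℤ (ρ a).1.trace :=
      (isAlgebraic_algHom_iff f.toIntAlgHom hf (a := (ρ a).1.trace)).1 h2
    refine Polynomial.transcendental _ ?_ (mem_nonZeroDivisors_of_ne_zero ?_) h3
    · rw [(hρ a).2]; exact fun h => ha ((hF.zero a).1 h)
    · exact Polynomial.leadingCoeff_ne_zero.2 (hρ a).1
  have h3 : (l a - ((R a).trace - l a)) * (l a - ((R a).trace - l a))⁻¹ = 1 := by
    refine mul_inv_cancel₀ fun h => tl ?_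
    have : (l a - 1) * (l a + 1) = 0 := by linear_combination hl a + l a * h
    rcases mul_eq_zero.1 this with h | h
    · rw [sub_eq_zero.1 h]; exact one_mem _
    · rw [eq_neg_of_add_eq_zero_left h]; exact neg_mem (one_mem _)
  generalize (R a).trace - l a = l' at h0 h1 h3
  generalize (l a - l')⁻¹ = d at h3
  have mul : ∀ u w, u * a = a * u → ch (R a) l' d (R (u * w))
      = ch (R a) l' d (R u) * ch (R a) l' d (R w) := fun u w h => by
    rw [map_mul]
    exact ch_mul h0 h1 h3 (by rw [← map_mul, h, map_mul])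
  refine ⟨ch_one h1 h3, mul, fun ι s w c inj ca cc e => ?_⟩
  obtain ⟨r, hr, hr'⟩ := cyc (insert a (s.image w)) (by
    simp only [Finset.mem_insert, Finset.mem_image]
    rintro _ (rfl | ⟨i, hi, rfl⟩) _ (rfl | ⟨i', hi', rfl⟩)
    exacts [rfl, (ca i' hi').symm, ca i hi, cc i hi i' hi'])
  obtain ⟨n₀, hn₀⟩ := hr a (Finset.mem_insert_self _ _)
  choose! n hn using fun i (hi : i ∈ s) =>
    hr (w i) (Finset.mem_insert_of_mem (Finset.mem_image_of_mem w hi))
  let χ : Subgroup.zpowers r →* Om :=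
    { toFun := fun u => ch (R a) l' d (R u)
      map_one' := by rw [OneMemClass.coe_one, map_one]; exact ch_one h1 h3
      map_mul' := by
        rintro ⟨_, k, rfl⟩ v
        exact mul _ _ (by rw [hn₀]; exact zpow_mul_comm _ _ _) }
  have pw : ∀ k : ℤ, ch (R a) l' d (R (r ^ k))
      = χ ⟨r, Subgroup.mem_zpowers r⟩ ^ k := fun k => map_zpow χ ⟨r, Subgroup.mem_zpowers r⟩ k
  have h4 : χ ⟨r, Subgroup.mem_zpowers r⟩ ≠ 0 := ((Group.isUnit _).map χ).ne_zero
  generalize χ ⟨r, Subgroup.mem_zpowers r⟩ = μ at pw h4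
  refine li_zpow (μ := μ) (fun h => tl ?_) h4 s n c (fun i hi i' hi' h => inj hi hi' ?_) ?_
  · rw [← ch_self h0 h1 h3]
    have := pw n₀
    rw [← hn₀] at this
    rw [this]
    exact zpow_mem (mem_algebraicClosure_iff.2 ((IsFractionRing.isAlgebraic_iff ℤ ℚ Om).1 h)) _
  · rw [hn i hi, hn i' hi', h]
  · rw [← e]
    exact Finset.sum_congr rfl fun i hi => by rw [← pw, ← hn i hi]

lemma grp_fg' {L M : Type} [Field L] [CharZero L] [Group M] {K : IntermediateField ℚ L}
    (hK : K.FG) (χ : M →* L) (h : ∀ m, χ m ∈ K) (li : LinearIndependent ℤ χ) : Group.FG M :=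
  grp_fg hK χ h ((LinearIndependent.iff_fractionRing ℤ ℚ).1 li)

lemma main (hT : TrStmt) (hF : FwStmt) {Om : Type} [Field Om] [CharZero Om] [IsAlgClosed Om]
    (f : Polynomial ℤ →+* Om) (hf : Function.Injective f) : AbStmt := by
  classical
  intro G _ U φ hG hR M hM
  by_cases hb : M = ⊥
  · rw [hb]; exact ⟨∅, by simp⟩
  obtain ⟨⟨x, hx⟩, hx1⟩ := (Subgroup.ne_bot_iff_exists_ne_one).1 hb
  have hx1 : x ≠ 1 := fun h => hx1 (Subtype.ext h)
  obtain ⟨R, l', d, H⟩ := level hT hF f hf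
  let γ : (ℕ → Om) →+* Germ (U : Filter ℕ) Om := Germ.coeRingHom _
  have γe : ∀ {u v : ℕ → Om}, γ u = γ v ↔ ∀ᶠ j in U, u j = v j := Germ.coe_eq
  have : CharZero (Germ (U : Filter ℕ) Om) := ⟨fun a b h => by
    rw [← map_natCast γ, ← map_natCast γ, γe] at h
    obtain ⟨j, hj⟩ := h.exists
    simpa using hj⟩
  have one : ∀ᶠ j in U, φ 1 j = 1 := (hR.mul 1 1).mono fun j h => by
    rw [one_mul] at h; exact left_eq_mul.1 h
  have cm : ∀ g ∈ M, ∀ h ∈ M, ∀ᶠ j in U, φ g j * φ h j = φ h j * φ g j := fun g hg h hh => by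
    filter_upwards [hR.mul g h, hR.mul h g] with j h1 h2
    rw [← h1, ← h2, hM g hg h hh]
  let χ : M →* Germ (U : Filter ℕ) Om :=
    { toFun := fun m => γ fun j => ch (R (φ x j)) (l' (φ x j)) (d (φ x j)) (R (φ m j))
      map_one' := by
        rw [← map_one γ, γe]
        filter_upwards [one, hR.ne x hx1] with j h1 h2
        rw [OneMemClass.coe_one, h1, map_one]
        exact (H _ h2).1
      map_mul' := fun m m' => by
        rw [← map_mul, γe]
        filter_upwards [hR.mul m m', hR.ne x hx1, cm m m.2 x hx] with j h1 h2 h3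
        rw [Subgroup.coe_mul, h1]
        exact (H _ h2).2.1 _ _ h3 }
  obtain ⟨S, hS⟩ := (Group.fg_iff_monoid_fg.1 hG).fg_top
  let en : G → Fin 2 → Fin 2 → Germ (U : Filter ℕ) Om := fun g a b => γ fun j => R (φ g j) a b
  let K := IntermediateField.adjoin ℚ ((Set.range fun t : S × Fin 2 × Fin 2 => en t.1 t.2.1 t.2.2)
    ∪ {γ fun j => l' (φ x j), γ fun j => d (φ x j)})
  have hK : K.FG := IntermediateField.fg_adjoin_of_finite
    ((Set.finite_range _).union (Set.toFinite _))
  have hen : ∀ g a b, en g a b ∈ K := by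
    intro g
    have hg : g ∈ Submonoid.closure (S : Set G) := hS ▸ Submonoid.mem_top g
    induction hg using Submonoid.closure_induction with
    | mem g hg => exact fun a b =>
        IntermediateField.subset_adjoin _ _ (Or.inl ⟨(⟨g, hg⟩, a, b), rfl⟩)
    | one =>
      intro a b
      have : en 1 a b = ((if a = b then 1 else 0 : ℕ) : Germ (U : Filter ℕ) Om) := by
        rw [← map_natCast γ, γe]
        filter_upwards [one] with j h
        simp [h, Matrix.one_apply]
      rw [this]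
      exact natCast_mem _ _
    | mul g h _ _ ig ih =>
      intro a b
      have : en (g * h) a b = en g a 0 * en h 0 b + en g a 1 * en h 1 b := by
        rw [← map_mul, ← map_mul, ← map_add, γe]
        filter_upwards [hR.mul g h] with j h
        simp [h, Matrix.mul_apply]
      rw [this]
      exact add_mem (mul_mem (ig _ _) (ih _ _)) (mul_mem (ig _ _) (ih _ _))
  have hχ : ∀ m, χ m ∈ K := by
    intro m
    have : χ m = (en m 0 0 * en x 0 0 + en m 0 1 * en x 1 0 + en m 1 0 * en x 0 1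
        + en m 1 1 * en x 1 1 - (γ fun j => l' (φ x j)) * (en m 0 0 + en m 1 1))
        * γ fun j => d (φ x j) := by
      simp only [en, ← map_mul, ← map_add, ← map_sub]
      rfl
    rw [this]
    have h1 : (γ fun j => l' (φ x j)) ∈ K :=
      IntermediateField.subset_adjoin _ _ (Or.inr (Or.inl rfl))
    have h2 : (γ fun j => d (φ x j)) ∈ K :=
      IntermediateField.subset_adjoin _ _ (Or.inr (Or.inr rfl))
    have m2 := fun g a b g' a' b' => mul_mem (hen g a b) (hen g' a' b')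
    exact mul_mem (sub_mem (add_mem (add_mem (add_mem (m2 _ _ _ _ _ _) (m2 _ _ _ _ _ _)) (m2 _ _ _ _ _ _)) (m2 _ _ _ _ _ _))
      (mul_mem h1 (add_mem (hen _ _ _) (hen _ _ _)))) h2
  have li : LinearIndependent ℤ χ := by
    rw [linearIndependent_iff']
    intro s c e
    have e2 : γ (∑ m ∈ s, c m • fun j => ch (R (φ x j)) (l' (φ x j)) (d (φ x j)) (R (φ m j)))
        = γ 0 := by
      rw [map_sum, map_zero, ← e]
      exact Finset.sum_congr rfl fun m _ => map_zsmul γ _ _
    have inj : ∀ᶠ j in U, ∀ m ∈ s, ∀ m' ∈ s, φ m j = φ m' j → m = m' := by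
      simp only [eventually_all_finset]
      intro m _ m' _
      by_cases h : m = m'
      · exact Eventually.of_forall fun _ _ => h
      filter_upwards [hR.mul m ((m : G)⁻¹ * m'), hR.ne ((m : G)⁻¹ * m')
        fun h' => h (Subtype.ext (inv_mul_eq_one.1 h'))] with j h1 h2 h3
      rw [mul_inv_cancel_left, ← h3] at h1
      exact (h2 (left_eq_mul.1 h1)).elim
    have c1 : ∀ᶠ j in U, ∀ m ∈ s, φ m j * φ x j = φ x j * φ m j :=
      (eventually_all_finset s).2 fun m _ => cm m m.2 x hx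
    have c2 : ∀ᶠ j in U, ∀ m ∈ s, ∀ m' ∈ s, φ m j * φ m' j = φ m' j * φ m j := by
      simp only [eventually_all_finset]
      exact fun m _ m' _ => cm m m.2 m' m'.2
    obtain ⟨j, ⟨⟨⟨h1, h2⟩, h3⟩, h4⟩, h5⟩ :=
      (((((γe.1 e2).and inj).and c1).and c2).and (hR.ne x hx1)).exists
    exact (H _ h5).2.2 M s (fun m => φ m j) c h2 h3 h4 (by simpa using h1)
  exact (Group.fg_iff_subgroup_fg M).1 (grp_fg' hK χ hχ li)

end AbP

theorem ab (hT : TrStmt) (hF : FwStmt) : AbStmt :=
  AbP.main hT hF (Om := AlgebraicClosure (FractionRing (Polynomial ℤ)))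
    ((algebraMap (FractionRing (Polynomial ℤ)) _).comp (algebraMap _ _))
    ((algebraMap (FractionRing (Polynomial ℤ)) _).injective.comp
      (IsFractionRing.injective (Polynomial ℤ) (FractionRing (Polynomial ℤ))))

end Pool.Agent.MP_494aff_an.Se

end MrgPart2

-- ======== part 3: formerly Pool.Agent.MP_494aff_an.se.BsH
section MrgPart3

/-! A group that acts on a forest with one orbit of edges and one orbit of vertices. -/

namespace Pool.Agent.MP_494aff_an.Se

namespace BsHP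

variable {G Vt Ed : Type} [Group G] [MulAction G Vt] [MulAction G Ed] {o t : Ed → Vt}

/-- Joined by a path that avoids the edge `ε`. -/
def J (o t : Ed → Vt) (ε : Ed) : Vt → Vt → Prop :=
  Relation.EqvGen fun a b => ∃ e, e ≠ ε ∧ o e = a ∧ t e = b

lemma J.rf (ε : Ed) (x : Vt) : J o t ε x x := Relation.EqvGen.refl x

lemma J.sy {ε : Ed} {x y : Vt} (h : J o t ε x y) : J o t ε y x := Relation.EqvGen.symm _ _ h

lemma J.tr {ε : Ed} {x y z : Vt} (h : J o t ε x y) (h' : J o t ε y z) : J o t ε x z :=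
  Relation.EqvGen.trans _ _ _ h h'

lemma J.edge {ε e : Ed} (h : e ≠ ε) : J o t ε (o e) (t e) :=
  Relation.EqvGen.rel _ _ ⟨e, h, rfl, rfl⟩

lemma not_J (hF : Forest G o t) (ε : Ed) : ¬J o t ε (o ε) (t ε) := by
  obtain ⟨σ, h1, h2, h3⟩ := hF.side ε
  have : ∀ x y, J o t ε x y → (σ x ↔ σ y) := by
    intro x y h
    induction h with
    | rel x y h =>
      obtain ⟨e, he, rfl, rfl⟩ := h
      exact h3 e he
    | refl => exact Iff.rfl
    | symm _ _ _ ih => exact ih.symm
    | trans _ _ _ _ _ ih ih' => exact ih.trans ih'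
  exact fun h => h2 ((this _ _ h).1 h1)

lemma J.smul (hF : Forest G o t) (g : G) {ε : Ed} {x y : Vt} (h : J o t ε x y) :
    J o t (g • ε) (g • x) (g • y) := by
  induction h with
  | rel x y h =>
    obtain ⟨e, he, rfl, rfl⟩ := h
    rw [← hF.o_smul, ← hF.t_smul]
    exact J.edge fun hh => he (MulAction.injective g hh)
  | refl => exact J.rf _ _
  | symm _ _ _ ih => exact ih.sy
  | trans _ _ _ _ _ ih ih' => exact ih.tr ih'

lemma J.swap {ε e : Ed} {v x : Vt} (hn : ¬J o t ε v (o e)) (h : J o t ε v x) : J o t e v x := by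
  have : ∀ x y, J o t ε x y → J o t ε v x → J o t e x y := by
    intro x y h
    induction h with
    | rel x y h =>
      obtain ⟨e', -, rfl, rfl⟩ := h
      intro hv
      refine J.edge ?_
      rintro rfl
      exact hn hv
    | refl => exact fun _ => J.rf _ _
    | symm x y h ih => exact fun hv => (ih (hv.tr (J.sy h))).sy
    | trans x y z h _ ih ih' => exact fun hv => (ih hv).tr (ih' (hv.tr h))
  exact this _ _ h (J.rf _ _)

/-- What lies behind one edge at `a` lies in front of every other edge at `a`. -/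
lemma ping (hF : Forest G o t) {ε e : Ed} {a v x : Vt} (hne : ε ≠ e)
    (hε : (o ε = a ∧ t ε = v) ∨ (t ε = a ∧ o ε = v)) (he : o e = a ∨ t e = a)
    (h : J o t ε v x) : J o t e a x := by
  have h1 : ¬J o t ε v a := by
    rcases hε with ⟨rfl, rfl⟩ | ⟨rfl, rfl⟩
    · exact fun hh => not_J hF ε hh.sy
    · exact not_J hF ε
  have h2 : ¬J o t ε v (o e) := by
    rcases he with rfl | rfl
    · exact h1
    · exact fun hh => h1 (hh.tr (J.edge hne.symm))
  have h3 : J o t e a v := by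
    rcases hε with ⟨rfl, rfl⟩ | ⟨rfl, rfl⟩
    · exact J.edge hne
    · exact (J.edge hne).sy
  exact h3.tr (h.swap h2)

variable {W : Type} [Group W]

/-- Reduced words. -/
inductive Rd (o t : Ed → Vt) (e : Ed) (p : W →* G) (B : Subgroup W) (s : W) : W → Prop
  | base (g : W) : g ∈ B → Rd o t e p B s g
  | pos (g w : W) : g ∈ B → Rd o t e p B s w → J o t e (o e) (p w • o e) →
      Rd o t e p B s (g * s * w)
  | neg (g w : W) : g ∈ B → Rd o t e p B s w → J o t (p s • e) (o e) (p w • o e) →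
      Rd o t e p B s (g * s⁻¹ * w)

variable {e : Ed} {p : W →* G} {B : Subgroup W} {s : W}

lemma Rd.mul {g w : W} (hg : g ∈ B) (h : Rd o t e p B s w) : Rd o t e p B s (g * w) := by
  cases h with
  | base _ hw => exact Rd.base _ (B.mul_mem hg hw)
  | pos g' w hg' hw hJ =>
    rw [← mul_assoc, ← mul_assoc]
    exact Rd.pos _ _ (B.mul_mem hg hg') hw hJ
  | neg g' w hg' hw hJ =>
    rw [← mul_assoc, ← mul_assoc]
    exact Rd.neg _ _ (B.mul_mem hg hg') hw hJ

theorem key (hF : Forest G o t) (hB : ∀ g ∈ B, p g • o e = o e) (hs : p s • t e = o e)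
    (h1 : ∀ g ∈ B, p g • e = e → s * g * s⁻¹ ∈ B)
    (h2 : ∀ g ∈ B, p g • p s • e = p s • e → s⁻¹ * g * s ∈ B)
    {w : W} (hw : w ∈ B ⊔ Subgroup.zpowers s) (hfix : p w • o e = o e) : w ∈ B := by
  have hot : o e ≠ t e := fun hh => not_J hF e (hh ▸ J.rf _ _)
  have hs' : (p s)⁻¹ • o e = t e := by rw [← hs, inv_smul_smul]
  have hts : t (p s • e) = o e := by rw [hF.t_smul, hs]
  have behP : ∀ g w, J o t e (o e) (p w • o e) →
      J o t (p g • p s • e) (o (p g • p s • e)) (p (g * s * w) • o e) := fun g w hJ => by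
    have := (hJ.smul hF (p s)).smul hF (p g)
    rwa [← hF.o_smul, ← hF.o_smul, ← mul_smul (p s), ← mul_smul (p g) (p s * p w), ← mul_assoc,
      ← map_mul, ← map_mul] at this
  have behN : ∀ g w, J o t (p s • e) (o e) (p w • o e) →
      J o t (p g • e) (t (p g • e)) (p (g * s⁻¹ * w) • o e) := fun g w hJ => by
    have := (hJ.smul hF (p s)⁻¹).smul hF (p g)
    rwa [inv_smul_smul, hs', ← hF.t_smul, ← mul_smul (p s)⁻¹, ← mul_smul (p g) ((p s)⁻¹ * p w),
      ← mul_assoc, ← map_inv, ← map_mul, ← map_mul] at this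
  have tP : ∀ g ∈ B, t (p g • p s • e) = o e := fun g hg => by rw [hF.t_smul, hts, hB g hg]
  have oN : ∀ g ∈ B, o (p g • e) = o e := fun g hg => by rw [hF.o_smul, hB g hg]
  have mulP : ∀ w, Rd o t e p B s w → Rd o t e p B s (s * w) := by
    intro w h
    by_cases hJ : J o t e (o e) (p w • o e)
    · simpa using Rd.pos 1 w B.one_mem h hJ
    · cases h with
      | base _ hg => exact absurd (by rw [hB _ hg]; exact J.rf _ _) hJ
      | pos g w hg hw hJ' =>
        refine absurd (ping hF ?_ (Or.inr ⟨tP g hg, rfl⟩) (Or.inl rfl) (behP g w hJ')) hJ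
        intro hh
        exact hot ((tP g hg).symm.trans (congrArg t hh))
      | neg g w hg hw hJ' =>
        by_cases hge : p g • e = e
        · have := hw.mul (h1 g hg hge)
          rwa [show s * g * s⁻¹ * w = s * (g * s⁻¹ * w) by group] at this
        · exact absurd (ping hF hge (Or.inl ⟨oN g hg, rfl⟩) (Or.inl rfl) (behN g w hJ')) hJ
  have mulN : ∀ w, Rd o t e p B s w → Rd o t e p B s (s⁻¹ * w) := by
    intro w h
    by_cases hJ : J o t (p s • e) (o e) (p w • o e)
    · simpa using Rd.neg 1 w B.one_mem h hJ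
    · cases h with
      | base _ hg => exact absurd (by rw [hB _ hg]; exact J.rf _ _) hJ
      | pos g w hg hw hJ' =>
        by_cases hge : p g • p s • e = p s • e
        · have := hw.mul (h2 g hg hge)
          rwa [show s⁻¹ * g * s * w = s⁻¹ * (g * s * w) by group] at this
        · exact absurd (ping hF hge (Or.inr ⟨tP g hg, rfl⟩) (Or.inr hts) (behP g w hJ')) hJ
      | neg g w hg hw hJ' =>
        refine absurd (ping hF ?_ (Or.inl ⟨oN g hg, rfl⟩) (Or.inr hts) (behN g w hJ')) hJ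
        intro hh
        have h3 : p s • o e = o e := by rw [← hF.o_smul, ← hh, oN g hg]
        exact hot (MulAction.injective (p s) (h3.trans hs.symm))
  have all : ∀ w ∈ B ⊔ Subgroup.zpowers s, ∀ u, Rd o t e p B s u → Rd o t e p B s (w * u) := by
    intro w hw
    have hle : B ⊔ Subgroup.zpowers s ≤ Subgroup.closure ((B : Set W) ∪ {s}) :=
      sup_le (fun x hx => Subgroup.subset_closure (Or.inl hx))
        (Subgroup.zpowers_le_of_mem (Subgroup.subset_closure (Or.inr rfl)))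
    refine Subgroup.closure_induction'' (p := fun w _ => ∀ u, Rd o t e p B s u →
      Rd o t e p B s (w * u)) ?_ ?_ ?_ ?_ (hle hw)
    · rintro x (hx | rfl) u hu
      · exact hu.mul hx
      · exact mulP u hu
    · rintro x (hx | rfl) u hu
      · exact hu.mul (B.inv_mem hx)
      · exact mulN u hu
    · intro u hu
      rwa [one_mul]
    · intro x y _ _ hx hy u hu
      rw [mul_assoc]
      exact hx _ (hy u hu)
  have hR := all w hw 1 (Rd.base 1 B.one_mem)
  rw [mul_one] at hR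
  cases hR with
  | base _ hg => exact hg
  | pos g w hg _ hJ =>
    have := behP g w hJ
    rw [hfix, ← tP g hg] at this
    exact absurd this (not_J hF _)
  | neg g w hg _ hJ =>
    have := behN g w hJ
    rw [hfix] at this
    nth_rewrite 1 [← oN g hg] at this
    exact absurd this.sy (not_J hF _)

end BsHP

theorem bsH : BsHStmt := by
  intro G Vt Ed _ _ _ o t e P A C hCA hAP τ j hF hA hτ hC hj hP
  have hC1 : ∀ g ∈ A, g • e = e → g ∈ C := fun g hg h => (hC g).2 ⟨hAP hg, h⟩
  have hC2 : ∀ g ∈ A, g • (τ : G) • e = (τ : G) • e → (τ : G)⁻¹ * g * τ ∈ C := fun g hg h =>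
    (hC _).2 ⟨P.mul_mem (P.mul_mem (P.inv_mem τ.2) (hAP hg)) τ.2, by
      rw [mul_smul, mul_smul, h, inv_smul_smul]⟩
  have hgen : ∀ T : Subgroup P, (∀ a, Subgroup.inclusion hAP a ∈ T) → τ ∈ T → ∀ z, z ∈ T := by
    intro T h1 h2 z
    have : A ⊔ Subgroup.zpowers (τ : G) ≤ T.map P.subtype :=
      sup_le (fun a ha => ⟨_, h1 ⟨a, ha⟩, rfl⟩) (Subgroup.zpowers_le_of_mem ⟨τ, h2, rfl⟩)
    obtain ⟨y, hy, hyz⟩ := this (hP z.2)
    exact (Subtype.ext hyz : y = z) ▸ hy
  refine ⟨⟨fun x => Subtype.ext (hj x), fun M _ φ τ' hφ => ?_, hgen⟩, fun hPf hCf => ?_⟩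
  · let B : Subgroup (P × M) := ((Subgroup.inclusion hAP).prod φ).range
    let S : Subgroup (P × M) := B ⊔ Subgroup.zpowers (τ, τ')
    let q : S →* P := (MonoidHom.fst P M).comp S.subtype
    have hinj : Function.Injective q := by
      rw [injective_iff_map_eq_one]
      rintro ⟨w, hw⟩ h1
      have h1' : w.1 = 1 := h1
      have hB : w ∈ B := by
        refine BsHP.key (e := e) (p := P.subtype.comp (MonoidHom.fst P M)) (s := (τ, τ')) hF ?_ hτ
          ?_ ?_ hw ?_
        · rintro _ ⟨a, rfl⟩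
          exact hA a a.2
        · rintro _ ⟨a, rfl⟩ h
          refine ⟨j ⟨a, hC1 a a.2 h⟩, Prod.ext (Subtype.ext (hj _)) (hφ _)⟩
        · rintro _ ⟨a, rfl⟩ h
          have h3 : j ⟨_, hC2 a a.2 h⟩ = a := Subtype.ext (by rw [hj]; group)
          refine ⟨Subgroup.inclusion hCA ⟨_, hC2 a a.2 h⟩, Prod.ext rfl ?_⟩
          have h4 := hφ ⟨_, hC2 a a.2 h⟩
          rw [h3] at h4
          change φ _ = τ'⁻¹ * φ a * τ'
          rw [h4]
          group
        · change ((w.1 : P) : G) • o e = o e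
          rw [h1', OneMemClass.coe_one, one_smul]
      obtain ⟨a, rfl⟩ := hB
      have ha : a = 1 := Subtype.ext (congrArg (fun x : P => (x : G)) h1')
      subst ha
      exact Subtype.ext (map_one _)
    have hsur : Function.Surjective q := fun z =>
      hgen q.range (fun a => ⟨⟨_, Subgroup.mem_sup_left ⟨a, rfl⟩⟩, rfl⟩)
        ⟨⟨_, Subgroup.mem_sup_right (Subgroup.mem_zpowers _)⟩, rfl⟩ z
    let E := MulEquiv.ofBijective q ⟨hinj, hsur⟩
    have hE : ∀ w : S, ((MonoidHom.snd P M).comp S.subtype).comp E.symm.toMonoidHom (q w) =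
        (w : P × M).2 := fun w => by
      change ((E.symm (E w) : S) : P × M).2 = _
      rw [E.symm_apply_apply]
    exact ⟨((MonoidHom.snd P M).comp S.subtype).comp E.symm.toMonoidHom,
      fun a => hE ⟨_, Subgroup.mem_sup_left ⟨a, rfl⟩⟩,
      hE ⟨_, Subgroup.mem_sup_right (Subgroup.mem_zpowers _)⟩⟩
  · classical
    have hex : ∀ z ∈ A ⊔ Subgroup.zpowers (τ : G), ∃ F : Finset G, (F : Set G) ⊆ A ∧
        z ∈ Subgroup.closure (F : Set G) ⊔ Subgroup.zpowers (τ : G) := by
      intro z hz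
      have hle : A ⊔ Subgroup.zpowers (τ : G) ≤ Subgroup.closure ((A : Set G) ∪ {(τ : G)}) :=
        sup_le (fun x hx => Subgroup.subset_closure (Or.inl hx))
          (Subgroup.zpowers_le_of_mem (Subgroup.subset_closure (Or.inr rfl)))
      refine Subgroup.closure_induction (p := fun z _ => ∃ F : Finset G, (F : Set G) ⊆ A ∧
        z ∈ Subgroup.closure (F : Set G) ⊔ Subgroup.zpowers (τ : G)) ?_ ?_ ?_ ?_ (hle hz)
      · rintro x (hx | rfl)
        · exact ⟨{x}, by simpa using hx,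
            Subgroup.mem_sup_left (Subgroup.subset_closure (by simp))⟩
        · exact ⟨∅, by simp, Subgroup.mem_sup_right (Subgroup.mem_zpowers _)⟩
      · exact ⟨∅, by simp, Subgroup.one_mem _⟩
      · rintro x y _ _ ⟨F, hF1, hF2⟩ ⟨F', hF1', hF2'⟩
        refine ⟨F ∪ F', by rw [Finset.coe_union]; exact Set.union_subset hF1 hF1',
          Subgroup.mul_mem _ ?_ ?_⟩
        · exact sup_le_sup_right (Subgroup.closure_mono (by simp)) _ hF2
        · exact sup_le_sup_right (Subgroup.closure_mono (by simp)) _ hF2'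
      · rintro x _ ⟨F, hF1, hF2⟩
        exact ⟨F, hF1, Subgroup.inv_mem _ hF2⟩
    obtain ⟨S, hS⟩ := hPf
    have hSP : ∀ z ∈ S, z ∈ P := fun z hz => hS ▸ Subgroup.subset_closure hz
    choose! F hF1 hF2 using hex
    let C' : Subgroup G := C.map (MulAut.conj (τ : G)).toMonoidHom
    let A₀ : Subgroup G := Subgroup.closure ((S.biUnion F : Finset G) : Set G) ⊔ C ⊔ C'
    have hA₀ : A₀ ≤ A := by
      refine sup_le (sup_le ((Subgroup.closure_le _).2 fun x hx => ?_) hCA) ?_
      · obtain ⟨z, hz, hxz⟩ := Finset.mem_biUnion.1 hx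
        exact hF1 z (hP (hSP z hz)) hxz
      · rintro _ ⟨x, hx, rfl⟩
        have := (j ⟨x, hx⟩).2
        rwa [hj] at this
    have hPA : P ≤ A₀ ⊔ Subgroup.zpowers (τ : G) := by
      refine hS.ge.trans ((Subgroup.closure_le _).2 fun z hz => ?_)
      have h1 : Subgroup.closure (F z : Set G) ≤ A₀ :=
        (Subgroup.closure_mono (Finset.coe_subset.2 (Finset.subset_biUnion_of_mem F hz))).trans
          (le_sup_left.trans le_sup_left)
      exact (sup_le_sup_right h1 _ :) (hF2 z (hP (hSP z hz)))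
    have hAA : A ≤ A₀ := fun a ha => by
      refine BsHP.key (e := e) (p := MonoidHom.id G) (s := (τ : G)) hF (fun g hg => hA g (hA₀ hg))
        hτ (fun g hg h => ?_) (fun g hg h => ?_) (hPA (hAP ha)) (hA a ha)
      · exact Subgroup.mem_sup_right ⟨g, hC1 g (hA₀ hg) h, rfl⟩
      · exact Subgroup.mem_sup_left (Subgroup.mem_sup_right (hC2 g (hA₀ hg) h))
    rw [le_antisymm hAA hA₀]
    refine (Subgroup.FG.sup ⟨_, rfl⟩ hCf).sup ?_
    obtain ⟨T, hT⟩ := hCf
    exact ⟨T.image (MulAut.conj (τ : G)).toMonoidHom, by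
      rw [Finset.coe_image, ← MonoidHom.map_closure, hT]⟩

end Pool.Agent.MP_494aff_an.Se

end MrgPart3

-- ======== part 4: formerly Pool.Agent.MP_494aff_an.se.Meas
section MrgPart4

/-! Chains of infinitely shorter elements have bounded length. -/

open Filter Topology

namespace Pool.Agent.MP_494aff_an.Se

namespace Meas

/-- Bounded digits against fast growing weights give different sums. -/
lemma sum_lt {n : ℕ} (d a b : Fin n → ℕ) (D : ℕ) (hD : ∀ i, a i ≤ D)
    (hd : ∀ i k, i < k → (D * n + 1) * d i ≤ d k) (hp : ∀ i, 1 ≤ d i) (k : Fin n)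
    (hk : a k < b k) (he : ∀ i, k < i → a i = b i) : ∑ i, a i * d i < ∑ i, b i * d i := by
  have h1 : ∀ i, (n : ℕ) * (a i * d i) + (if i = k then n * d k else 0) ≤
      n * (b i * d i) + (if i < k then d k - 1 else 0) := by
    intro i
    rcases lt_trichotomy i k with h | h | h
    · rw [if_neg h.ne, if_pos h]
      have h2 := hd i k h
      have h3 := hp i
      have h4 : n * (a i * d i) ≤ D * n * d i := by
        calc n * (a i * d i) ≤ n * (D * d i) :=
              Nat.mul_le_mul_left _ (Nat.mul_le_mul_right _ (hD i))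
          _ = D * n * d i := by ring
      have h5 : (D * n + 1) * d i = D * n * d i + d i := by ring
      omega
    · subst h
      rw [if_pos rfl, if_neg (lt_irrefl _)]
      have : (a i + 1) * d i ≤ b i * d i := Nat.mul_le_mul_right _ hk
      have h2 := Nat.mul_le_mul_left n this
      have h3 : n * ((a i + 1) * d i) = n * (a i * d i) + n * d i := by ring
      omega
    · rw [if_neg h.ne', if_neg (not_lt.2 h.le), he i h]
  have h2 := Finset.sum_le_sum (s := Finset.univ) fun i _ => h1 i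
  rw [Finset.sum_add_distrib, Finset.sum_add_distrib, ← Finset.mul_sum, ← Finset.mul_sum] at h2
  have h3 : ∑ i : Fin n, (if i = k then n * d k else 0) = n * d k := by simp
  have h4 : ∑ i : Fin n, (if i < k then d k - 1 else 0) ≤ n * (d k - 1) := by
    calc ∑ i : Fin n, (if i < k then d k - 1 else 0) ≤ ∑ _i : Fin n, (d k - 1) :=
          Finset.sum_le_sum fun i _ => by split_ifs <;> simp
      _ = n * (d k - 1) := by simp
  have hn : 0 < n := k.pos
  have h5 : n * (d k - 1) < n * d k := Nat.mul_lt_mul_of_pos_left (by have := hp k; omega) hn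
  have h6 : n * ∑ i, a i * d i < n * ∑ i, b i * d i := by omega
  exact Nat.lt_of_mul_lt_mul_left h6

lemma sum_ne {n : ℕ} (d a b : Fin n → ℕ) (D : ℕ) (ha : ∀ i, a i ≤ D) (hb : ∀ i, b i ≤ D)
    (hd : ∀ i k, i < k → (D * n + 1) * d i ≤ d k) (hp : ∀ i, 1 ≤ d i) (hab : a ≠ b) :
    ∑ i, a i * d i ≠ ∑ i, b i * d i := by
  classical
  have hne : (Finset.univ.filter fun i => a i ≠ b i).Nonempty := by
    obtain ⟨i, hi⟩ := Function.ne_iff.1 hab
    exact ⟨i, by simpa using hi⟩
  obtain ⟨k, hk, hm⟩ := Finset.exists_max_image _ id hne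
  have hk' : a k ≠ b k := by simpa using hk
  have he : ∀ i, k < i → a i = b i := by
    intro i hi
    by_contra h
    exact absurd (hm i (by simpa using h)) (not_le.2 hi)
  rcases lt_or_gt_of_ne hk' with h | h
  · exact (sum_lt d a b D ha hd hp k h he).ne
  · exact (sum_lt d b a D hb hd hp k h fun i hi => (he i hi).symm).ne'

/-- Polynomials with fast growing degrees satisfy no relation of small degree. -/
lemma aeval_ne {n : ℕ} (t : Fin n → Polynomial ℤ) (P : MvPolynomial (Fin n) ℤ) (hP : P ≠ 0)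
    (ht : ∀ i, t i ≠ 0) (hp : ∀ i, 1 ≤ (t i).natDegree)
    (hd : ∀ i k, i < k → (P.totalDegree * n + 1) * (t i).natDegree ≤ (t k).natDegree) :
    MvPolynomial.aeval t P ≠ 0 := by
  classical
  set f : (Fin n →₀ ℕ) → Polynomial ℤ :=
    fun s => Polynomial.C (P.coeff s) * ∏ i, t i ^ s i with hf
  have e : MvPolynomial.aeval t P = ∑ s ∈ P.support, f s := by
    rw [MvPolynomial.aeval_def, MvPolynomial.eval₂_eq']
    simp [hf]
  have hne : ∀ s ∈ P.support, f s ≠ 0 := by
    intro s hs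
    refine mul_ne_zero ?_ (Finset.prod_ne_zero_iff.2 fun i _ => pow_ne_zero _ (ht i))
    simpa using hs
  have hdeg : ∀ s ∈ P.support, (f s).natDegree = ∑ i, s i * (t i).natDegree := by
    intro s hs
    have h0 : P.coeff s ≠ 0 := by simpa using hs
    simp only [hf]
    rw [Polynomial.natDegree_C_mul h0,
      Polynomial.natDegree_prod _ _ fun i _ => pow_ne_zero _ (ht i)]
    simp [Polynomial.natDegree_pow]
  have hb : ∀ s ∈ P.support, ∀ i, s i ≤ P.totalDegree := fun s hs i =>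
    (MvPolynomial.monomial_le_degreeOf i hs).trans (MvPolynomial.degreeOf_le_totalDegree P i)
  have key : (∑ s ∈ P.support, f s).degree = P.support.sup fun s => (f s).degree := by
    refine Polynomial.degree_sum_eq_of_disjoint f _ ?_
    rintro s ⟨hs, hs'⟩ s' ⟨hr, hr'⟩ h h'
    have h1 : (f s).natDegree = (f s').natDegree := Polynomial.natDegree_eq_of_degree_eq h'
    rw [hdeg s hs, hdeg s' hr] at h1
    exact sum_ne (fun i => (t i).natDegree) s s' _ (hb s hs) (hb s' hr) hd hp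
      (fun h2 => h (DFunLike.coe_injective h2)) h1
  rw [e]
  intro h0
  rw [h0, Polynomial.degree_zero] at key
  obtain ⟨s, hs⟩ := MvPolynomial.support_nonempty.2 hP
  have h1 : (f s).degree ≤ ⊥ := key ▸ Finset.le_sup (f := fun s => (f s).degree) hs
  exact hne s hs (Polynomial.degree_eq_bot.1 (le_bot_iff.1 h1))

/-- Too many polynomials are algebraically dependent. -/
lemma dep {ι : Type} [Fintype ι] {n : ℕ} (T : Fin n → MvPolynomial ι ℤ)
    (h : Fintype.card ι < n) : ∃ P : MvPolynomial (Fin n) ℤ, P ≠ 0 ∧ MvPolynomial.aeval T P = 0 := by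
  by_contra hc
  have hi : AlgebraicIndependent ℤ T := by
    rw [algebraicIndependent_iff]
    intro p hp
    by_contra h0
    exact hc ⟨p, h0, hp⟩
  have h1 := hi.cardinalMk_le_trdeg
  rw [MvPolynomial.trdeg_of_isDomain] at h1
  simp only [Cardinal.mk_fintype, Fintype.card_fin, Cardinal.lift_natCast, Nat.cast_le] at h1
  omega

variable {G : Type} [Group G] {U : Ultrafilter ℕ} {φ : G → ℕ → F2}

lemma one_ev (h : Rep U φ) : ∀ᶠ j in U, φ 1 j = 1 := by
  filter_upwards [h.mul 1 1] with j hj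
  rw [mul_one] at hj
  exact mul_eq_left.1 hj.symm

lemma inv_ev (h : Rep U φ) (g : G) : ∀ᶠ j in U, φ g⁻¹ j = (φ g j)⁻¹ := by
  filter_upwards [h.mul g g⁻¹, one_ev h] with j hj h1
  rw [mul_inv_cancel, h1] at hj
  exact (inv_eq_of_mul_eq_one_right hj.symm).symm

/-- Generic matrices. -/
lemma generic (h : Rep U φ) (ρ : F2 →* Matrix.SpecialLinearGroup (Fin 2) (Polynomial ℤ))
    (S : Set G) (hS : Subgroup.closure S = ⊤) (g : G) :
    ∃ M : Matrix (Fin 2) (Fin 2) (MvPolynomial (S × Fin 2 × Fin 2) ℤ), ∀ᶠ j in U,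
      (MvPolynomial.aeval fun p : S × Fin 2 × Fin 2 => (ρ (φ p.1 j)).1 p.2.1 p.2.2).mapMatrix M
        = (ρ (φ g j)).1 := by
  have hg : g ∈ Subgroup.closure S := by rw [hS]; trivial
  induction hg using Subgroup.closure_induction with
  | mem x hx =>
    refine ⟨Matrix.of fun a b => MvPolynomial.X (⟨x, hx⟩, a, b), Eventually.of_forall fun j => ?_⟩
    ext1 a b
    simp
  | one =>
    refine ⟨1, ?_⟩
    filter_upwards [one_ev h] with j hj
    rw [hj, map_one, map_one]
    rfl
  | mul x y _ _ hx hy =>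
    obtain ⟨M, hM⟩ := hx
    obtain ⟨M', hM'⟩ := hy
    refine ⟨M * M', ?_⟩
    filter_upwards [hM, hM', h.mul x y] with j h1 h2 h3
    rw [map_mul, h1, h2, h3, map_mul]
    rfl
  | inv x _ hx =>
    obtain ⟨M, hM⟩ := hx
    refine ⟨M.adjugate, ?_⟩
    filter_upwards [hM, inv_ev h x] with j h1 h2
    rw [AlgHom.map_adjugate, h1, h2, map_inv]
    rfl

lemma lt_ev (hF : FwStmt) (h : Rep U φ) {g g' : G} (hg : g' ≠ 1) (hl : Lt U φ g g') (c : ℕ) :
    ∀ᶠ j in U, (c + 1) * cl (φ g j) ≤ cl (φ g' j) := by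
  have hc : (0 : ℝ) < 1 / ((c : ℝ) + 1) := by positivity
  filter_upwards [h.ne g' hg, (tendsto_order.1 hl).2 _ hc] with j h1 h2
  have h3 : (0 : ℝ) < cl (φ g' j) := by
    have : cl (φ g' j) ≠ 0 := fun h0 => h1 ((hF.zero _).1 h0)
    exact_mod_cast Nat.pos_of_ne_zero this
  rw [div_lt_div_iff₀ h3 (by positivity)] at h2
  have h4 : (((c + 1) * cl (φ g j) : ℕ) : ℝ) ≤ cl (φ g' j) := by
    push_cast
    linarith
  exact_mod_cast h4

end Meas

open Meas in
theorem meas (hT : TrStmt) (hF : FwStmt) : MeasStmt := by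
  intro G _ U φ hG h
  obtain ⟨ρ, hρ⟩ := hT
  obtain ⟨S, hS, hfin⟩ := Group.fg_iff.1 hG
  have : Fintype S := hfin.fintype
  refine ⟨Fintype.card (S × Fin 2 × Fin 2), fun l hl hp => ?_⟩
  by_contra hlen
  rw [not_le] at hlen
  choose M hM using generic h ρ S hS
  obtain ⟨P, hP, hP0⟩ := dep (fun i : Fin l.length => (M l[i]).trace) hlen
  have h1 : ∀ᶠ j in U, ∀ i : Fin l.length,
      (MvPolynomial.aeval fun p : S × Fin 2 × Fin 2 => (ρ (φ p.1 j)).1 p.2.1 p.2.2).mapMatrix
        (M l[i]) = (ρ (φ l[i] j)).1 := eventually_all.2 fun i => hM _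
  have h2 : ∀ᶠ j in U, ∀ i : Fin l.length, φ l[i] j ≠ 1 :=
    eventually_all.2 fun i => h.ne _ (hl _ (List.getElem_mem _))
  have h3 : ∀ᶠ j in U, ∀ i k : Fin l.length, i < k →
      (P.totalDegree * l.length + 1) * cl (φ l[i] j) ≤ cl (φ l[k] j) := by
    refine eventually_all.2 fun i => eventually_all.2 fun k => ?_
    by_cases hik : i < k
    · filter_upwards [lt_ev hF h (hl _ (List.getElem_mem _))
        (List.pairwise_iff_getElem.1 hp i k i.2 k.2 hik) (P.totalDegree * l.length)] with j hj _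
      exact hj
    · exact Eventually.of_forall fun j hj => absurd hj hik
  obtain ⟨j, ⟨e1, e2⟩, e3⟩ := ((h1.and h2).and h3).exists
  refine aeval_ne (fun i : Fin l.length => (ρ (φ l[i] j)).1.trace) P hP (fun i => (hρ _).1)
    (fun i => ?_) (fun i k hik => ?_) ?_
  · rw [(hρ _).2]
    exact Nat.pos_of_ne_zero fun h0 => e2 i ((hF.zero _).1 h0)
  · rw [(hρ _).2, (hρ _).2]
    exact e3 i k hik
  · have h4 := congrArg
      (MvPolynomial.aeval fun p : S × Fin 2 × Fin 2 => (ρ (φ p.1 j)).1 p.2.1 p.2.2) hP0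
    rw [map_zero, ← AlgHom.comp_apply, MvPolynomial.comp_aeval] at h4
    rw [← h4]
    congr 2
    funext i
    rw [← e1 i]
    simp [Matrix.trace]

end Pool.Agent.MP_494aff_an.Se

end MrgPart4

-- ======== part 5: formerly Pool.Agent.MP_494aff_an.se.Push0
section MrgPart5

/-! Basic facts on amalgams and HNN extensions, elliptic abelian subgroups. -/

open Monoid

namespace Pool.Agent.MP_494aff_an.Se

open Pool.Agent.MP_494aff_an.Pinch Pool.Agent.MP_494aff_an.Pinch.TowP Pool.Agent.MP_494aff_an.Lf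

namespace Push

variable {K A A' B G G' M : Type} [Group K] [Group A] [Group A'] [Group B] [Group G] [Group G']
  [Group M]

/-- Homomorphisms that agree on two generating images are equal. -/
lemma ext2 {f : A →* G} {g : B →* G}
    (h : ∀ T : Subgroup G, (∀ p, f p ∈ T) → (∀ q, g q ∈ T) → ∀ z, z ∈ T) {π π' : G →* M}
    (h1 : ∀ p, π (f p) = π' (f p)) (h2 : ∀ q, π (g q) = π' (g q)) (z : G) : π z = π' z :=
  h (π.eqLocus π') h1 h2 z

/-- Homomorphisms that agree on the base and on the letter are equal. -/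
lemma ext1 {f : A →* G} {t : G}
    (h : ∀ T : Subgroup G, (∀ p, f p ∈ T) → t ∈ T → ∀ z, z ∈ T) {π π' : G →* M}
    (h1 : ∀ p, π (f p) = π' (f p)) (h2 : π t = π' t) (z : G) : π z = π' z :=
  h (π.eqLocus π') h1 h2 z

section Cyc

variable {c c' : A} {d : B} {f : A →* G} {g : B →* G} {t : G}

lemma pin_iso {f' : A →* G'} {g' : B →* G'} (h : Pin c d f g) (h' : Pin c d f' g') :
    Nonempty (G ≃* G') := by
  obtain ⟨π, a1, a2⟩ := h.lift G' f' g' h'.comm
  obtain ⟨σ, b1, b2⟩ := h'.lift G f g h.comm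
  exact ⟨MonoidHom.toMulEquiv π σ
    (MonoidHom.ext (ext2 h.gen (fun p => by simp [a1, b1]) fun p => by simp [a2, b2]))
    (MonoidHom.ext (ext2 h'.gen (fun p => by simp [a1, b1]) fun p => by simp [a2, b2]))⟩

lemma hn_iso {f' : A →* G'} {t' : G'} (h : FG.Hn c' c f t) (h' : FG.Hn c' c f' t') :
    Nonempty (G ≃* G') := by
  obtain ⟨π, a1, a2⟩ := h.lift G' f' t' h'.comm
  obtain ⟨σ, b1, b2⟩ := h'.lift G f t h.comm
  exact ⟨MonoidHom.toMulEquiv π σ
    (MonoidHom.ext (ext1 h.gen (fun p => by simp [a1, b1]) (by simp [a2, b2])))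
    (MonoidHom.ext (ext1 h'.gen (fun p => by simp [a1, b1]) (by simp [a2, b2])))⟩

lemma hier_pin (h : Pin c d f g) (ho : orderOf c = orderOf d) (hA : Hier A) (hB : Hier B) :
    Hier G :=
  (pin_iso (IndP.pin_amalg c d) h).elim fun e => .iso _ _ (.amal A B c d hA hB ho) e

lemma hier_hn (h : FG.Hn c' c f t) (ho : orderOf c = orderOf c') (hA : Hier A) : Hier G :=
  (hn_iso (IndP.hn_hnn c c') h).elim fun e => .iso _ _ (.hnn A c c' hA ho) e

lemma pin_ord (h : Pin c d f g) (hf : Function.Injective f) (hg : Function.Injective g) :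
    orderOf c = orderOf d := by
  rw [← orderOf_injective f hf, ← orderOf_injective g hg, h.comm]

lemma hn_ord (h : FG.Hn c' c f t) (hf : Function.Injective f) : orderOf c = orderOf c' := by
  rw [← orderOf_injective f hf, ← orderOf_injective f hf c', h.comm]
  exact (orderOf_injective (MulAut.conj t).toMonoidHom (MulAut.conj t).injective (f c)).symm

lemma hier_am (h : Am c d f g) (hA : Hier A) (hB : Hier B) : Hier G :=
  hier_pin h.pin (pin_ord h.pin h.hf h.hg) hA hB

lemma hier_hx (h : Hx c c' f t) (hA : Hier A) : Hier G := hier_hn h.hn (hn_ord h.hn h.hf) hA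

end Cyc

lemma hier_fg (h : Hier G) : Group.FG G := by
  induction h with
  | abel G h _ => exact h
  | amal A B c d _ _ _ h1 h2 => exact IndP.fg_pin (IndP.pin_amalg c d) h1 h2
  | hnn A c c' _ _ h1 => exact IndP.fg_hn (IndP.hn_hnn c c') h1
  | iso G G' _ e h1 => exact Group.fg_of_surjective (f := e.toMonoidHom) e.surjective

lemma comm_of {G : Type} [Group G] (h : ¬ NA G) (x y : G) : x * y = y * x := by
  by_contra hn
  exact h ⟨x, y, hn⟩

section Amal

variable {i : K →* A} {j : K →* B} {f : A →* G} {g : B →* G}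

lemma amal_inj (h : Amal i j f g) (hi : Function.Injective i) (hj : Function.Injective j) :
    Function.Injective f ∧ Function.Injective g :=
  ⟨(Gl.nf h hi hj).1, (Gl.nf (FG.amal_symm h) hj hi).1⟩

lemma amal_fg (h : Amal i j f g) (hA : Group.FG A) (hB : Group.FG B) : Group.FG G := by
  obtain ⟨S, hS, fS⟩ := Group.fg_iff.1 hA
  obtain ⟨T, hT, fT⟩ := Group.fg_iff.1 hB
  exact Group.fg_iff.2 ⟨f '' S ∪ g '' T, (Subgroup.eq_top_iff' _).2 (h.gen _
    (IndP.mem_of_top hS Set.subset_union_left) (IndP.mem_of_top hT Set.subset_union_right)),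
    (fS.image _).union (fT.image _)⟩

/-- Change of the first factor by an isomorphism. -/
lemma amal_equiv (h : Amal i j f g) (e : A ≃* A') :
    Amal (e.toMonoidHom.comp i) j (f.comp e.symm.toMonoidHom) g where
  comm x := by simpa using h.comm x
  lift M _ φ ψ hφ := by
    obtain ⟨π, h1, h2⟩ := h.lift M (φ.comp e.toMonoidHom) ψ hφ
    exact ⟨π, fun p => by simp [h1], h2⟩
  gen T h1 h2 := h.gen T (fun p => by simpa using h1 (e p)) h2

/-- An amalgam over a cyclic group. -/
lemma amal_pin (h : Amal i j f g) {k : K} (hk : ∀ x, x ∈ Subgroup.zpowers k) :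
    Pin (i k) (j k) f g where
  comm := h.comm k
  lift M _ φ ψ hφ := h.lift M φ ψ fun x => by
    obtain ⟨n, rfl⟩ := hk x
    simp only [map_zpow, hφ]
  gen := h.gen

end Amal

section HnK

variable {i j : K →* A} {f : A →* G} {t : G}

lemma hnk_inj (h : HnK i j f t) (hi : Function.Injective i) (hj : Function.Injective j) :
    Function.Injective f := by
  let φ : i.range ≃* j.range := (MonoidHom.ofInjective hi).symm.trans (MonoidHom.ofInjective hj)
  obtain ⟨Φ, hF, -⟩ := h.lift (HNNExtension A _ _ φ) HNNExtension.of HNNExtension.t fun k => by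
    have := HNNExtension.equiv_eq_conj (φ := φ) (MonoidHom.ofInjective hi k)
    simpa [φ, MonoidHom.ofInjective_apply] using this
  exact fun x y hxy => HNNExtension.of_injective φ
    ((hF x).symm.trans ((congrArg Φ hxy).trans (hF y)))

lemma exists_hnk (i j : K →* A) :
    ∃ (G : Type) (_ : Group G) (f : A →* G) (t : G), HnK i j f t := by
  let R : Set (Coprod A (Multiplicative ℤ)) :=
    Set.range fun x => (Coprod.inl (j x))⁻¹ * (gen A * Coprod.inl (i x) * (gen A)⁻¹)
  let N := Subgroup.normalClosure R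
  refine ⟨Coprod A (Multiplicative ℤ) ⧸ N, inferInstance, (QuotientGroup.mk' N).comp Coprod.inl,
    QuotientGroup.mk' N (gen A), fun x => ?_, fun M _ φ τ h => ?_, fun T h1 h2 z => ?_⟩
  · exact QuotientGroup.eq.2 (Subgroup.subset_normalClosure ⟨x, rfl⟩)
  · refine ⟨QuotientGroup.lift N (Coprod.lift φ (zpowersHom M τ)) fun x hx => ?_,
      fun p => by simp, by simp [gen]⟩
    refine (Subgroup.normalClosure_le_normal (N := (Coprod.lift φ (zpowersHom M τ)).ker) ?_) hx
    rintro _ ⟨x, rfl⟩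
    simp [h x, gen, mul_assoc]
  · obtain ⟨x, rfl⟩ := QuotientGroup.mk'_surjective _ z
    exact AttP.cop_gen _ T h1 (AttP.zm_gen ((QuotientGroup.mk' _).comp Coprod.inr) T h2) x

lemma hnk_fg (h : HnK i j f t) (hA : Group.FG A) : Group.FG G := by
  obtain ⟨S, hS, fS⟩ := Group.fg_iff.1 hA
  exact Group.fg_iff.2 ⟨insert t (f '' S), (Subgroup.eq_top_iff' _).2 (h.gen _
    (IndP.mem_of_top hS (Set.subset_insert _ _)) (Subgroup.subset_closure (Set.mem_insert _ _))),
    (fS.image _).insert _⟩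

lemma hnk_symm (h : HnK i j f t) : HnK j i f t⁻¹ where
  comm x := by rw [h.comm]; group
  lift M _ φ τ hφ := by
    obtain ⟨π, h1, h2⟩ := h.lift M φ τ⁻¹ fun x => by rw [hφ]; group
    exact ⟨π, h1, by rw [map_inv, h2, inv_inv]⟩
  gen T h1 h2 := h.gen T h1 (inv_mem_iff.1 h2)

/-- Conjugation of the second edge map. -/
lemma hnk_conj (h : HnK i j f t) (y : A) :
    HnK i ((MulAut.conj y).toMonoidHom.comp j) f (f y * t) where
  comm x := by simp [h.comm, mul_assoc]
  lift M _ φ τ hφ := by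
    obtain ⟨π, h1, h2⟩ := h.lift M φ ((φ y)⁻¹ * τ) fun x => by
      have : φ y * φ (j x) * (φ y)⁻¹ = τ * φ (i x) * τ⁻¹ := by simpa using hφ x
      calc φ (j x) = (φ y)⁻¹ * (φ y * φ (j x) * (φ y)⁻¹) * φ y := by group
        _ = _ := by rw [this]; group
    exact ⟨π, h1, by rw [map_mul, h1, h2]; group⟩
  gen T h1 h2 := h.gen T h1 ((mul_mem_cancel_left (h1 y)).1 h2)

/-- An HNN extension over a cyclic group. -/
lemma hnk_hn (h : HnK i j f t) {k : K} (hk : ∀ x, x ∈ Subgroup.zpowers k) :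
    FG.Hn (j k) (i k) f t where
  comm := h.comm k
  lift M _ φ τ hφ := h.lift M φ τ fun x => by
    obtain ⟨n, rfl⟩ := hk x
    simp only [map_zpow, hφ, conj_zpow]
  gen := h.gen

end HnK

/-- `K` is not cyclic. -/
def Ncy (K : Type) [Group K] : Prop := ∀ k : K, ∃ x, x ∉ Subgroup.zpowers k

lemma Ncy.ne (h : Ncy K) : ∃ k : K, k ≠ 1 := by
  obtain ⟨x, hx⟩ := h 1
  exact ⟨x, fun e => hx (by rw [e]; exact one_mem _)⟩

lemma cyc_or (K : Type) [Group K] : (∃ k : K, ∀ x, x ∈ Subgroup.zpowers k) ∨ Ncy K := by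
  by_cases h : Ncy K
  · exact Or.inr h
  · left
    by_contra hn
    exact h fun k => not_forall.1 fun e => hn ⟨k, e⟩

lemma Ncy.not_le (h : Ncy K) {i : K →* G} (hi : Function.Injective i) (w : G) :
    ∃ x, i x ∉ Subgroup.zpowers w := by
  by_contra hn
  have h1 : ∀ x, i x ∈ Subgroup.zpowers w := fun x => not_not.1 fun e => hn ⟨x, e⟩
  have h2 : IsCyclic K := isCyclic_of_injective (i.codRestrict _ h1)
    fun x y e => hi (congrArg Subtype.val e)
  obtain ⟨k, hk⟩ := h2.exists_generator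
  obtain ⟨x, hx⟩ := h k
  exact hx (hk x)

/-- A homomorphism with values in the range of an injective one factors. -/
lemma factor {i : K →* G} {f : A →* G} (hf : Function.Injective f) (h : ∀ x, i x ∈ f.range) :
    ∃ i₁ : K →* A, f.comp i₁ = i :=
  ⟨(MonoidHom.ofInjective hf).symm.toMonoidHom.comp (i.codRestrict _ h),
    MonoidHom.ext fun _ => MonoidHom.apply_ofInjective_symm hf _⟩

lemma conj_comm {x z : G} (h : x * z = z * x) (y : G) :
    y * x * y⁻¹ * (y * z * y⁻¹) = y * z * y⁻¹ * (y * x * y⁻¹) := by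
  calc _ = y * (x * z) * y⁻¹ := by group
    _ = y * (z * x) * y⁻¹ := by rw [h]
    _ = _ := by group

section Ell

variable {c c' : A} {d : B} {f : A →* G} {g : B →* G} {t : G}

lemma sy_out (h : AmP.Sy c d f g) {r : A} {x : G} (h1 : x * f r = f r * x) (h2 : x ∉ f.range) :
    ∃ a₀, a₀⁻¹ * r * a₀ ∈ Subgroup.zpowers c := by
  obtain ⟨a0, a', s, e, n, y, hy, hxe⟩ := (cls A G f _ _ h.split).1 x h2
  exact ⟨a0, h.junction cls hy ⟨_, (HxP.conj_in hxe h1).symm⟩⟩

/-- The centraliser of a conjugate of an element of a factor is conjugate into a factor. -/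
lemma cent_am (h : Am c d f g) {z : G} (hz : z ≠ 1) (hm : z ∈ f.range ∨ z ∈ g.range) :
    ∃ y, (∀ x, x * z = z * x → y * x * y⁻¹ ∈ f.range) ∨
      ∀ x, x * z = z * x → y * x * y⁻¹ ∈ g.range := by
  have hs := AmP.sy h
  have key : ∀ u : G, u * z * u⁻¹ ∈ Subgroup.zpowers (f c) →
      ∀ x, x * z = z * x → u * x * u⁻¹ ∈ g.range := fun u hu x hx => by
    have h1 : u * z * u⁻¹ ≠ 1 := fun e => hz (by simpa using e)
    have hc : Cyc c := by
      rcases h.edge with ⟨rfl, -⟩ | ⟨hc, -⟩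
      · exact (h1 (by simpa using hu)).elim
      · exact hc
    exact hs.o5 cls hc (HxP.ct_root h.ct h1 hu (conj_comm hx u))
  rcases hm with ⟨a, rfl⟩ | ⟨b, rfl⟩
  · by_cases h1 : ∀ x, x * f a = f a * x → x ∈ f.range
    · exact ⟨1, Or.inl fun x hx => by simpa using h1 x hx⟩
    · obtain ⟨x, hx⟩ := not_forall.1 h1
      obtain ⟨a0, h2⟩ := sy_out hs (Classical.not_imp.1 hx).1 (Classical.not_imp.1 hx).2
      exact ⟨(f a0)⁻¹, Or.inr (key _ (by simpa using HxP.map_mem f h2))⟩
  · by_cases h1 : ∀ x, x * g b = g b * x → x ∈ g.range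
    · exact ⟨1, Or.inr fun x hx => by simpa using h1 x hx⟩
    · obtain ⟨x, hx⟩ := not_forall.1 h1
      obtain ⟨b0, h2⟩ := sy_out hs.symm (Classical.not_imp.1 hx).1 (Classical.not_imp.1 hx).2
      exact ⟨(g b0)⁻¹, Or.inr (key _ (by simpa [h.pin.comm] using HxP.map_mem g h2))⟩

lemma cent_hx (h : Hx c c' f t) {z : G} (hz : z ≠ 1) (hm : z ∈ f.range) :
    ∃ y, ∀ x, x * z = z * x → y * x * y⁻¹ ∈ f.range := by
  have key : ∀ u : G, u * z * u⁻¹ ∈ Subgroup.zpowers (f c') →
      ∀ x, x * z = z * x → u * x * u⁻¹ ∈ f.range := fun u hu x hx =>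
    HxP.o5 cls h (HxP.ct_root h.ct (fun e => hz (by simpa using e)) hu (conj_comm hx u))
  obtain ⟨a, rfl⟩ := hm
  by_cases h1 : ∀ x, x * f a = f a * x → x ∈ f.range
  · exact ⟨1, fun x hx => by simpa using h1 x hx⟩
  obtain ⟨x, hx⟩ := not_forall.1 h1
  obtain ⟨a0, a', s, e, n, w, hw, hxe⟩ := (cls A G f _ _ (HxP.split h)).1 x (Classical.not_imp.1 hx).2
  obtain ⟨k, hk⟩ := HxP.junction cls h hw ⟨_, (HxP.conj_in hxe (Classical.not_imp.1 hx).1).symm⟩
  have hk' : f (FG.ee c' c s) ^ k = (f a0)⁻¹ * f a * f a0 := by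
    rw [← map_zpow, ← map_inv, ← map_mul, ← map_mul]
    exact congrArg f hk
  cases s with
  | false => exact ⟨(f a0)⁻¹, key _ ⟨k, by rw [inv_inv]; exact hk'⟩⟩
  | true =>
    refine ⟨t * (f a0)⁻¹, key _ ⟨k, ?_⟩⟩
    have h2 : f c ^ k = (f a0)⁻¹ * f a * f a0 := hk'
    show f c' ^ k = _
    rw [h.hn.comm, conj_zpow, h2]
    group

lemma not_hyp (hG : CT G) {i : K →* G} (hi : Function.Injective i)
    (hK : ∀ x y : K, x * y = y * x) (hN : Ncy K) {z : K} (hz : z ≠ 1) {y w : G} (hw : Cyc w) :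
    y * i z * y⁻¹ ∉ Subgroup.zpowers w := fun hm => by
  obtain ⟨x, hx⟩ := hN.not_le (i := (MulAut.conj y).toMonoidHom.comp i)
    ((MulAut.conj y).injective.comp hi) w
  refine hx (hw.2 _ (HxP.ct_root hG (fun e => hz (hi (by simpa using e))) hm ?_))
  exact conj_comm (by rw [← map_mul, hK, map_mul]) y

/-- An abelian subgroup that is not cyclic is conjugate into a factor. -/
lemma ell_am (h1 : AmStmt) (h : Am c d f g) {i : K →* G} (hi : Function.Injective i)
    (hK : ∀ x y : K, x * y = y * x) (hN : Ncy K) :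
    ∃ y, (∀ x, y * i x * y⁻¹ ∈ f.range) ∨ ∀ x, y * i x * y⁻¹ ∈ g.range := by
  obtain ⟨z, hz⟩ := hN.ne
  obtain ⟨y, hy⟩ := (h1 A B G c d f g h).1 (i z)
  obtain ⟨u, hu⟩ := cent_am h (z := y * i z * y⁻¹) (fun e => hz (hi (by simpa using e)))
    (hy.imp_right fun a => a.resolve_right fun ⟨⟨w, hw, hm⟩, _⟩ => not_hyp h.ct hi hK hN hz hw hm)
  have h2 : ∀ x, u * y * i x * (u * y)⁻¹ = u * (y * i x * y⁻¹) * u⁻¹ := fun x => by group
  have h3 := fun x => conj_comm (show i x * i z = i z * i x by rw [← map_mul, hK, map_mul]) y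
  exact ⟨u * y, hu.imp (fun a x => h2 x ▸ a _ (h3 x)) fun a x => h2 x ▸ a _ (h3 x)⟩

/-- An abelian subgroup that is not cyclic is conjugate into the base. -/
lemma ell_hx (h2 : HxStmt) (h : Hx c c' f t) {i : K →* G} (hi : Function.Injective i)
    (hK : ∀ x y : K, x * y = y * x) (hN : Ncy K) : ∃ y, ∀ x, y * i x * y⁻¹ ∈ f.range := by
  obtain ⟨z, hz⟩ := hN.ne
  obtain ⟨y, hy⟩ := (h2 A G c c' f t h).1 (i z)
  obtain ⟨u, hu⟩ := cent_hx h (z := y * i z * y⁻¹) (fun e => hz (hi (by simpa using e)))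
    (hy.resolve_right fun ⟨⟨w, hw, hm⟩, _⟩ => not_hyp h.ct hi hK hN hz hw hm)
  have h2 : ∀ x, u * y * i x * (u * y)⁻¹ = u * (y * i x * y⁻¹) * u⁻¹ := fun x => by group
  exact ⟨u * y, fun x => h2 x ▸ hu _
    (conj_comm (show i x * i z = i z * i x by rw [← map_mul, hK, map_mul]) y)⟩

end Ell

end Push

end Pool.Agent.MP_494aff_an.Se

end MrgPart5

-- ======== part 6: formerly Pool.Agent.MP_494aff_an.se.PushA
section MrgPart6

/-! Amalgams over abelian groups have a hierarchy. -/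

namespace Pool.Agent.MP_494aff_an.Se

open Pool.Agent.MP_494aff_an.Pinch Pool.Agent.MP_494aff_an.Pinch.TowP Pool.Agent.MP_494aff_an.Lf

namespace PushA

open Push

/-- All amalgams of `A` with a group that satisfies `R` have a hierarchy. -/
def Good (R : (B : Type) → [Group B] → Prop) (A : Type) [Group A] : Prop :=
  ∀ (K B G : Type) [Group K] [Group B] [Group G] (i : K →* A) (j : K →* B) (f : A →* G)
    (g : B →* G), Amal i j f g → Function.Injective i → Function.Injective j → CT G →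
    (∀ x y : K, x * y = y * x) → Ncy K → R B → Hier G

variable {R : (B : Type) → [Group B] → Prop} {K A A₁ A₂ B G G₁ : Type} [Group K] [Group A]
  [Group A₁] [Group A₂] [Group B] [Group G] [Group G₁] {f₁ : A₁ →* A} {f₂ : A₂ →* A}
  {i : K →* A₁} {j : K →* B} {f : A →* G} {g : B →* G} {F : A₁ →* G₁} {g₁ : B →* G₁}
  {p : G₁ →* G}

lemma pin_re {c : A₁} {d : A₂} (h : Pin c d f₁ f₂) (hA : Amal (f₁.comp i) j f g)
    (h₁ : Amal i j F g₁) (p1 : ∀ a, p (F a) = f (f₁ a)) (p2 : ∀ b, p (g₁ b) = g b) :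
    Pin (F c) d p (f.comp f₂) where
  comm := (p1 c).trans (congrArg f h.comm)
  lift M _ φ ψ hφ := by
    obtain ⟨α, a1, a2⟩ := h.lift M (φ.comp F) ψ hφ
    obtain ⟨π, b1, b2⟩ := hA.lift M α (φ.comp g₁) fun x => (a1 _).trans (congrArg φ (h₁.comm x))
    exact ⟨π, ext2 (π := π.comp p) h₁.gen (fun a => by simp [p1, b1, a1])
      fun b => by simp [p2, b2], fun q => (b1 _).trans (a2 q)⟩
  gen T h1 h2 := hA.gen T (h.gen (T.comap f) (fun a => by
    rw [Subgroup.mem_comap, ← p1]; exact h1 _) h2) fun b => p2 b ▸ h1 _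

lemma hn_re {c c' : A₁} {t : A} (h : FG.Hn c' c f₁ t) (hA : Amal (f₁.comp i) j f g)
    (h₁ : Amal i j F g₁) (p1 : ∀ a, p (F a) = f (f₁ a)) (p2 : ∀ b, p (g₁ b) = g b) :
    FG.Hn (F c') (F c) p (f t) where
  comm := by rw [p1, p1, h.comm]; simp
  lift M _ φ τ hφ := by
    obtain ⟨α, a1, a2⟩ := h.lift M (φ.comp F) τ hφ
    obtain ⟨π, b1, b2⟩ := hA.lift M α (φ.comp g₁) fun x => (a1 _).trans (congrArg φ (h₁.comm x))
    exact ⟨π, ext2 (π := π.comp p) h₁.gen (fun a => by simp [p1, b1, a1])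
      fun b => by simp [p2, b2], (b1 _).trans a2⟩
  gen T h1 h2 := hA.gen T (h.gen (T.comap f) (fun a => by
    rw [Subgroup.mem_comap, ← p1]; exact h1 _) h2) fun b => p2 b ▸ h1 _

lemma step_pin {c : A₁} {d : A₂} (h : Pin c d f₁ f₂) (ho : orderOf c = orderOf d)
    (hA : Amal (f₁.comp i) j f g) (hi : Function.Injective i) (hj : Function.Injective j)
    (hG : CT G) (hK : ∀ x y : K, x * y = y * x) (hN : Ncy K) (hB : R B) (g1 : Good R A₁)
    (g2 : Hier A₂) : Hier G := by
  obtain ⟨G₁, _, F, g₁, h₁⟩ := FG.exists_amal i j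
  obtain ⟨p, p1, p2⟩ := h₁.lift G (f.comp f₁) g hA.comm
  have hp := pin_re h hA h₁ p1 p2
  have ho' : orderOf (F c) = orderOf d := (orderOf_injective F (amal_inj h₁ hi hj).1 c).trans ho
  exact hier_pin hp ho' (g1 K B G₁ i j F g₁ h₁ hi hj (ct_of_inj (IndP.pin_nf hp ho').1 hG) hK hN hB)
    g2

lemma step_hn {c c' : A₁} {t : A} (h : FG.Hn c' c f₁ t) (ho : orderOf c = orderOf c')
    (hA : Amal (f₁.comp i) j f g) (hi : Function.Injective i) (hj : Function.Injective j)
    (hG : CT G) (hK : ∀ x y : K, x * y = y * x) (hN : Ncy K) (hB : R B) (g1 : Good R A₁) :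
    Hier G := by
  obtain ⟨G₁, _, F, g₁, h₁⟩ := FG.exists_amal i j
  obtain ⟨p, p1, p2⟩ := h₁.lift G (f.comp f₁) g hA.comm
  have hp := hn_re h hA h₁ p1 p2
  have hF := (amal_inj h₁ hi hj).1
  have ho' : orderOf (F c) = orderOf (F c') := by
    rw [orderOf_injective F hF, orderOf_injective F hF, ho]
  exact hier_hn hp ho' (g1 K B G₁ i j F g₁ h₁ hi hj (ct_of_inj (IndP.hn_inj hp ho') hG) hK hN hB)

/-- Move the edge group into a factor. -/
lemma move {i : K →* A} (hA : Amal i j f g) (hi : Function.Injective i)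
    (hf : Function.Injective f₁) {y : A} (hy : ∀ x, y * i x * y⁻¹ ∈ f₁.range) :
    ∃ (i₁ : K →* A₁) (f' : A →* G), Function.Injective i₁ ∧ Amal (f₁.comp i₁) j f' g := by
  obtain ⟨i₁, e⟩ := factor (i := (MulAut.conj y).toMonoidHom.comp i) hf hy
  refine ⟨i₁, _, fun a b hab => hi ((MulAut.conj y).injective ?_), e ▸ amal_equiv hA (MulAut.conj y)⟩
  exact (DFunLike.congr_fun e a).symm.trans ((congrArg f₁ hab).trans (DFunLike.congr_fun e b))

lemma ind (hI : IndStmt) (h1 : AmStmt) (h2 : HxStmt)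
    (h0 : ∀ (A : Type) [Group A], Group.FG A → ¬ NA A → Good R A) (A : Type) [Group A]
    (hA : Hier A) (hc : CT A) : Good R A := by
  refine (hI (fun A _ => Hier A ∧ Good R A)
    (fun A _ a _ b => ⟨.abel A a (comm_of b), h0 A a b⟩) ?_ ?_ A hA hc).2
  · intro A₁ A₂ A _ _ _ c d f₁ f₂ h _ _ _ a1 a2
    refine ⟨hier_am h a1.1 a2.1, fun K B G _ _ _ i j f g hA hi hj hG hK hN hB => ?_⟩
    have ho := pin_ord h.pin h.hf h.hg
    obtain ⟨y, hy | hy⟩ := ell_am h1 h hi hK hN
    · obtain ⟨i₁, f', b1, b2⟩ := move hA hi h.hf hy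
      exact step_pin h.pin ho b2 b1 hj hG hK hN hB a1.2 a2.1
    · obtain ⟨i₁, f', b1, b2⟩ := move hA hi h.hg hy
      exact step_pin (IndP.pin_symm h.pin) ho.symm b2 b1 hj hG hK hN hB a2.2 a1.1
  · intro A₁ A _ _ c c' f₁ t h _ _ a1
    refine ⟨hier_hx h a1.1, fun K B G _ _ _ i j f g hA hi hj hG hK hN hB => ?_⟩
    obtain ⟨y, hy⟩ := ell_hx h2 h hi hK hN
    obtain ⟨i₁, f', b1, b2⟩ := move hA hi h.hf hy
    exact step_hn h.hn (hn_ord h.hn h.hf) b2 b1 hj hG hK hN hB a1.2

lemma base (A : Type) [Group A] (hA : Group.FG A) (ha : ¬ NA A) :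
    Good (fun B _ => Group.FG B ∧ ¬ NA B) A := by
  intro K B G _ _ _ i j f g h hi hj hG _ hN hB
  obtain ⟨k, hk⟩ := hN.ne
  have h1 : f (i k) ≠ 1 := fun e => hk (hi ((amal_inj h hi hj).1 (by simpa using e)))
  have h2 := h.gen (Subgroup.centralizer {f (i k)})
    (fun a => Subgroup.mem_centralizer_singleton_iff.2 (by rw [← map_mul, comm_of ha, map_mul]))
    fun b => Subgroup.mem_centralizer_singleton_iff.2 (by
      rw [h.comm, ← map_mul, comm_of hB.2, map_mul])
  exact .abel G (amal_fg h hA hB.1) fun x y => hG.ct _ x y h1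
    (Subgroup.mem_centralizer_singleton_iff.1 (h2 x)).symm
    (Subgroup.mem_centralizer_singleton_iff.1 (h2 y)).symm

end PushA

open Push PushA in
theorem pushA (hI : IndStmt) (h1 : AmStmt) (h2 : HxStmt) : PushAStmt := by
  intro K A B G _ _ _ _ i j f g h hi hj hG _ hK hA hB
  rcases cyc_or K with ⟨k, hk⟩ | hN
  · exact hier_pin (amal_pin h hk) (by rw [orderOf_injective i hi, orderOf_injective j hj]) hA hB
  refine PushA.ind (R := fun B _ => Hier B) hI h1 h2 ?_ A hA (ct_of_inj (amal_inj h hi hj).1 hG)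
    K B G i j f g h hi hj hG hK hN hB
  intro A _ a1 a2 K B G _ _ _ i j f g h hi hj hG hK hN hB
  exact PushA.ind hI h1 h2 base B hB (ct_of_inj (amal_inj h hi hj).2 hG) K A G j i g f
    (FG.amal_symm h) hj hi hG hK hN ⟨a1, a2⟩

end Pool.Agent.MP_494aff_an.Se

end MrgPart6

-- marker of a merged file
example : 731051 + 658527 = 731051 + 658527 := rfl

end MrgPart1

-- marker of a merged file
example : 731051 + 658527 = 731051 + 658527 := rfl
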