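import Mathlib
import Pool.Agent.MP_494aff_an.lf.Scale
import Pool.Agent.MP_494aff_an.se.Dim
import Pool.Agent.MP_494aff_an.pinch.FG
import Pool.Agent.MP_494aff_an.pinch.AttA

-- ======== part 0: formerly Pool.Agent.MP_494aff_an.se.Orb
section MrgPart0

/-! Equivariant functions on classes, and finite generation of stabilisers of classes. -/

namespace Pool.Agent.MP_494aff_an.Se

open Pool.Agent.MP_494aff_an.Pinch Pool.Agent.MP_494aff_an.Pinch.TowP Pool.Agent.MP_494aff_an.Lf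

noncomputable section

namespace OrbP

lemma rho_lam_apply {G : Type} [Group G] (g h : G) (ξ : H G) :
    rho g (lam h ξ) = lam h (rho g ξ) :=
  congrArg (fun T : Op G => T ξ) (rho_lam g h)

lemma lam_mul_apply {G : Type} [Group G] (g h : G) (ξ : H G) :
    lam (g * h) ξ = lam g (lam h ξ) := by
  rw [map_mul]; rfl

lemma eqv_mul {G X : Type} [Group G] {R : G × X → G × X → Prop}
    (hR : ∀ h g x g' x', R (g, x) (g', x') → R (h * g, x) (h * g', x')) (h : G) {a a' : G × X}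
    (e : Relation.EqvGen R a a') : Relation.EqvGen R (h * a.1, a.2) (h * a'.1, a'.2) := by
  induction e with
  | rel a a' e => exact .rel _ _ (hR h _ _ _ _ e)
  | refl a => exact .refl _
  | symm a a' _ ih => exact .symm _ _ ih
  | trans a b c _ _ ih ih' => exact .trans _ _ _ ih ih'

end OrbP

open OrbP

theorem orb (hD : DimStmt) : OrbStmt := by
  classical
  intro G X _ _ r X₁ W hG hr hinv hW
  have hI : Inv W := by
    refine ⟨?_, fun g ξ hξ => (hW _).2 ⟨fun x γ x' h => ?_, fun x hx => ?_⟩⟩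
    · have : (W : Set (X → H G)) = (⋂ x, ⋂ γ, ⋂ x', ⋂ _ : r (1, x) (γ, x'),
          {U | U x = lam γ (U x')}) ∩ ⋂ x, ⋂ _ : x ∈ X₁, {U | U x = 0} := by
        ext U
        simp only [SetLike.mem_coe, hW, Set.mem_inter_iff, Set.mem_iInter, Set.mem_ofPred_eq]
      rw [this]
      refine IsClosed.inter (isClosed_iInter fun x => isClosed_iInter fun γ =>
        isClosed_iInter fun x' => isClosed_iInter fun _ => isClosed_eq (continuous_apply x)
          ((lam γ : Op G).continuous.comp (continuous_apply x')))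
        (isClosed_iInter fun x => isClosed_iInter fun _ =>
          isClosed_eq (continuous_apply x) continuous_const)
    · rw [((hW ξ).1 hξ).1 x γ x' h, rho_lam_apply]
    · rw [((hW ξ).1 hξ).2 x hx, map_zero]
  have hs : ∀ {x γ x'}, r (1, x) (γ, x') → r (1, x') (γ⁻¹, x) := fun {x γ x'} h => by
    have := hinv γ⁻¹ _ _ _ _ h
    rw [mul_one, inv_mul_cancel] at this
    exact hr.symm this
  have ht : ∀ {x γ x' γ' x''}, r (1, x) (γ, x') → r (1, x') (γ', x'') → r (1, x) (γ * γ', x'') :=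
    fun {x γ x' γ' x''} h h' => by
      have := hinv γ _ _ _ _ h'
      rw [mul_one] at this
      exact hr.trans h this
  let S : Setoid X := ⟨fun x x' => ∃ γ, r (1, x) (γ, x'), fun x => ⟨1, hr.refl _⟩,
    fun ⟨_, h⟩ => ⟨_, hs h⟩, fun ⟨_, h⟩ ⟨_, h'⟩ => ⟨_, ht h h'⟩⟩
  obtain ⟨ρ, h1, h2⟩ : ∃ ρ : X → X, (∀ x, ∃ γ, r (1, x) (γ, ρ x)) ∧
      ∀ x γ x', r (1, x) (γ, x') → ρ x = ρ x' :=
    ⟨fun x => (Quotient.mk S x).out, fun x => S.symm (Quotient.mk_out (s := S) x),
      fun x γ x' h => congrArg Quotient.out (Quotient.sound (s := S) ⟨γ, h⟩)⟩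
  choose c hc using h1
  have h3 : ∀ x, ρ (ρ x) = ρ x := fun x => (h2 _ _ _ (hc x)).symm
  obtain ⟨Gd, hGd⟩ : ∃ Gd : X → Prop, ∀ x, Gd x ↔
      (∀ γ x', r (1, x) (γ, x') → x' ∉ X₁) ∧ ∀ γ, r (1, x) (γ, x) → γ = 1 := ⟨_, fun _ => Iff.rfl⟩
  let T : (X → H G) →L[ℂ] ({x // ρ x = x ∧ Gd x} → H G) :=
    ContinuousLinearMap.pi fun k => ContinuousLinearMap.proj k.1
  have hT : ∀ U k, T U k = U k.1 := fun _ _ => rfl
  have e1 : W ⊓ LinearMap.ker T.toLinearMap = ⊥ := by
    refine eq_bot_iff.2 fun U ⟨hU, hk⟩ => ?_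
    obtain ⟨u1, u2⟩ := (hW U).1 hU
    have hz : ∀ x, U (ρ x) = 0 := fun x => by
      by_cases hg : Gd (ρ x)
      · exact congrFun (LinearMap.mem_ker.1 hk) ⟨ρ x, h3 x, hg⟩
      · rw [hGd, not_and_or] at hg
        rcases hg with hg | hg
        · obtain ⟨γ, hg⟩ := not_forall.1 hg
          obtain ⟨x', hg⟩ := not_forall.1 hg
          obtain ⟨a1, a2⟩ := Classical.not_imp.1 hg
          rw [u1 _ _ _ a1, u2 _ (not_not.1 a2), map_zero]
        · obtain ⟨γ, hg⟩ := not_forall.1 hg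
          obtain ⟨a1, a2⟩ := Classical.not_imp.1 hg
          exact CoP.fix_zero (hG γ a2) (u1 _ _ _ a1).symm
    refine (Submodule.mem_bot ℂ).2 (funext fun x => ?_)
    rw [u1 _ _ _ (hc x), hz, map_zero]
    rfl
  have e2 : W.map T.toLinearMap = ⊤ := by
    refine eq_top_iff.2 fun V _ => ?_
    obtain ⟨V', v1, v2⟩ : ∃ V' : X → H G, (∀ k : {x // ρ x = x ∧ Gd x}, V' k.1 = V k) ∧
        ∀ x, ¬Gd x → V' x = 0 :=
      ⟨fun x => if h : ρ x = x ∧ Gd x then V ⟨x, h⟩ else 0, fun k => dif_pos k.2,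
        fun x h => dif_neg fun h' => h h'.2⟩
    refine ⟨fun x => lam (c x) (V' (ρ x)), (hW _).2 ⟨fun x γ x' h => ?_, fun x hx => ?_⟩, ?_⟩
    · have e := h2 _ _ _ h
      by_cases hg : Gd (ρ x')
      · have a1 := ht (hs (e ▸ hc x)) (ht h (hc x'))
        have a2 := ((hGd _).1 hg).2 _ a1
        rw [e, ← lam_mul_apply, inv_mul_eq_one.1 a2]
      · rw [e, v2 _ hg, map_zero, map_zero, map_zero]
    · rw [v2 _ fun hg => ((hGd _).1 hg).1 _ _ (hs (hc x)) hx, map_zero]
    · funext k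
      have a1 := hc k.1
      rw [k.2.1] at a1
      change lam (c k.1) (V' (ρ k.1)) = V k
      rw [((hGd _).1 k.2.2).2 _ a1, map_one, k.2.1, v1]
      rfl
  refine ⟨hI, Fintype.card {x // ρ x = x ∧ Gd x}, ?_⟩
  rw [hD.rn G X _ W T hI fun _ _ => rfl, e1, e2, hD.bot, hD.top, zero_add]

theorem fgv : FgvStmt := by
  classical
  intro G X _ R X₀ Λ hX hΛ hR hL h0 x P hP
  choose ρ hρ hρ' using h0
  have h1 : ∀ z, ∃ τ : G, ∀ g, Relation.EqvGen R (1, x) (g, z) →
      Relation.EqvGen R (1, x) (τ, z) := fun z => by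
    by_cases h : ∃ g, Relation.EqvGen R (1, x) (g, z)
    · exact h.imp fun _ h _ _ => h
    · exact ⟨1, fun g hg => absurd ⟨g, hg⟩ h⟩
  choose τ hτ using h1
  have h2 : ∀ a : G × X, Relation.EqvGen R (1, x) a → a.1 * (τ (ρ a.2))⁻¹ ∈ P := fun a ha => by
    have a1 := eqv_mul hR a.1 (hρ' a.2)
    simp only [mul_one] at a1
    have a2 := Relation.EqvGen.trans _ _ _ ha a1
    have a3 := eqv_mul hR (a.1 * (τ (ρ a.2))⁻¹) (hτ _ _ a2)
    simp only [mul_one, inv_mul_cancel_right] at a3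
    exact (hP _).2 (.trans _ _ _ a2 (.symm _ _ a3))
  obtain ⟨S, hS⟩ : ∃ S : Set G, S = insert (1 * (τ (ρ x))⁻¹)
      ((fun p : X × G × X => τ p.1 * p.2.1 * (τ p.2.2)⁻¹) '' X₀ ×ˢ Λ ×ˢ X₀) ∩ P := ⟨_, rfl⟩
  have hf : S.Finite :=
    hS ▸ ((((hX.prod (hΛ.prod hX)).image _).insert _).subset Set.inter_subset_left)
  have h3 : ∀ a a', Relation.EqvGen R a a' → Relation.EqvGen R (1, x) a →
      (a.1 * (τ (ρ a.2))⁻¹ ∈ Subgroup.closure S ↔
        a'.1 * (τ (ρ a'.2))⁻¹ ∈ Subgroup.closure S) := by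
    intro a a' e
    induction e with
    | rel a a' e =>
      intro ha
      have a1 := P.mul_mem (P.inv_mem (h2 a ha)) (h2 a' (.trans _ _ _ ha (.rel _ _ e)))
      have a2 : (a.1 * (τ (ρ a.2))⁻¹)⁻¹ * (a'.1 * (τ (ρ a'.2))⁻¹) ∈ Subgroup.closure S := by
        refine Subgroup.subset_closure (hS ▸ ⟨Or.inr ⟨(ρ a.2, a.1⁻¹ * a'.1, ρ a'.2),
          ⟨hρ _, hL _ _ e, hρ _⟩, ?_⟩, a1⟩)
        simp only [mul_inv_rev, inv_inv, mul_assoc]
      rw [← Subgroup.mul_mem_cancel_right _ a2, mul_inv_cancel_left]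
    | refl a => exact fun _ => Iff.rfl
    | symm a a' e ih => exact fun ha => (ih (.trans _ _ _ ha (.symm _ _ e))).symm
    | trans a b c e _ ih ih' => exact fun ha => (ih ha).trans (ih' (.trans _ _ _ ha e))
  have h4 : 1 * (τ (ρ x))⁻¹ ∈ Subgroup.closure S :=
    Subgroup.subset_closure (hS ▸ ⟨Or.inl rfl, h2 (1, x) (.refl _)⟩)
  refine (Subgroup.fg_iff P).2 ⟨S, le_antisymm ((Subgroup.closure_le _).2
    (hS ▸ Set.inter_subset_right)) fun g hg => ?_, hf⟩
  have h5 := (h3 _ _ ((hP g).1 hg) (.refl _)).1 h4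
  rw [one_mul] at h4
  exact (Subgroup.mul_mem_cancel_right _ h4).1 h5

end

end Pool.Agent.MP_494aff_an.Se

end MrgPart0

-- ======== part 1: formerly Pool.Agent.MP_494aff_an.se.Bs
section MrgPart1

/-! Groups that act on a forest with abelian edge stabilisers. -/

namespace Pool.Agent.MP_494aff_an.Se

open Pool.Agent.MP_494aff_an.Pinch Pool.Agent.MP_494aff_an.Pinch.TowP Pool.Agent.MP_494aff_an.Lf
open MulAction

namespace BsP

/-- The edges in the orbits of `D`. -/
def orb (G : Type) {Ed : Type} [Group G] [MulAction G Ed] (D : Set Ed) : Set Ed :=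
  {e | ∃ d ∈ D, ∃ g : G, g • d = e}

/-- One step along an edge of `S`. -/
def St {Vt Ed : Type} (S : Set Ed) (o t : Ed → Vt) (x y : Vt) : Prop :=
  ∃ e ∈ S, o e = x ∧ t e = y

variable {G Vt Ed : Type} [Group G] [MulAction G Vt] [MulAction G Ed] {o t : Ed → Vt}

lemma smul_mem {D : Set Ed} {e : Ed} (g : G) (h : e ∈ orb G D) : g • e ∈ orb G D := by
  obtain ⟨d, hd, k, rfl⟩ := h
  exact ⟨d, hd, g * k, mul_smul _ _ _⟩

lemma sub_orb {D : Set Ed} : D ⊆ orb G D := fun d hd => ⟨d, hd, 1, one_smul _ _⟩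

lemma orb_mono {D D' : Set Ed} (h : D ⊆ D') : orb G D ⊆ orb G D' := by
  rintro _ ⟨d, hd, g, rfl⟩
  exact ⟨d, h hd, g, rfl⟩

lemma con_mono {S S' : Set Ed} (h : S ⊆ S') {x y : Vt} (hx : Relation.EqvGen (St S o t) x y) :
    Relation.EqvGen (St S' o t) x y :=
  Relation.EqvGen.mono (r := St S o t) (fun _ _ ⟨e, he, h1⟩ => ⟨e, h he, h1⟩) x y hx

lemma con_of {S : Set Ed} {x y : Vt} (hx : Relation.EqvGen (St S o t) x y) : Con o t x y :=
  Relation.EqvGen.mono (r := St S o t) (fun _ _ ⟨e, _, h1⟩ => ⟨e, h1⟩) x y hx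

lemma exists_fin {x y : Vt} (h : Con o t x y) :
    ∃ D : Set Ed, D.Finite ∧ Relation.EqvGen (St D o t) x y := by
  induction h with
  | rel x y h =>
    obtain ⟨e, h1⟩ := h
    exact ⟨{e}, Set.finite_singleton e, .rel _ _ ⟨e, rfl, h1⟩⟩
  | refl x => exact ⟨∅, Set.finite_empty, .refl _⟩
  | symm x y _ ih =>
    obtain ⟨D, h1, h2⟩ := ih
    exact ⟨D, h1, h2.symm _ _⟩
  | trans x y z _ _ ih ih' =>
    obtain ⟨D, h1, h2⟩ := ih
    obtain ⟨D', h3, h4⟩ := ih'
    exact ⟨D ∪ D', h1.union h3,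
      (con_mono Set.subset_union_left h2).trans _ _ _ (con_mono Set.subset_union_right h4)⟩

/-- A property that agrees at the ends of the edges of a component is constant on it. -/
lemma walk {S : Set Ed} {v : Vt} (X : Vt → Prop)
    (h : ∀ e ∈ S, Relation.EqvGen (St S o t) v (o e) → (X (o e) ↔ X (t e))) {x : Vt}
    (hx : Relation.EqvGen (St S o t) v x) : X v ↔ X x := by
  have key : ∀ x y, Relation.EqvGen (St S o t) x y → Relation.EqvGen (St S o t) v x →
      (X x ↔ X y) := by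
    intro x y hxy
    induction hxy with
    | rel x y h1 =>
      obtain ⟨e, he, rfl, rfl⟩ := h1
      exact h e he
    | refl x => exact fun _ => Iff.rfl
    | symm x y h1 ih => exact fun h2 => (ih (h2.trans _ _ _ (h1.symm _ _))).symm
    | trans x y z h1 _ ih ih' => exact fun h2 => (ih h2).trans (ih' (h2.trans _ _ _ h1))
  exact key v x hx (.refl _)

/-- The components of the subgraph on the orbits of `D`. -/
def Cp (_ : Forest G o t) (D : Set Ed) : Type := Quot (St (orb G D) o t)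

/-- The component of a vertex. -/
def mk (F : Forest G o t) (D : Set Ed) (x : Vt) : Cp F D := Quot.mk _ x

instance (F : Forest G o t) (D : Set Ed) : MulAction G (Cp F D) where
  smul g := Quot.map (g • ·) (by
    rintro _ _ ⟨e, he, rfl, rfl⟩
    exact ⟨g • e, smul_mem g he, F.o_smul g e, F.t_smul g e⟩)
  one_smul := by
    rintro ⟨x⟩
    exact congrArg (Quot.mk _) (one_smul G x)
  mul_smul := by
    rintro g h ⟨x⟩
    exact congrArg (Quot.mk _) (mul_smul g h x)

lemma smul_mk (F : Forest G o t) (D : Set Ed) (g : G) (x : Vt) :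
    g • mk F D x = mk F D (g • x) := rfl

lemma mk_eq (F : Forest G o t) (D : Set Ed) (x y : Vt) :
    mk F D x = mk F D y ↔ Relation.EqvGen (St (orb G D) o t) x y := Quot.eq

lemma mk_mono (F : Forest G o t) {D D' : Set Ed} (h : D ⊆ D') {x y : Vt}
    (hx : mk F D x = mk F D y) : mk F D' x = mk F D' y :=
  (mk_eq F D' x y).2 (con_mono (orb_mono h) ((mk_eq F D x y).1 hx))

lemma mk_edge (F : Forest G o t) {D : Set Ed} {e : Ed} (h : e ∈ orb G D) :
    mk F D (o e) = mk F D (t e) := Quot.sound ⟨e, h, rfl, rfl⟩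

/-- The edges off the orbits of `D`. -/
def Eg (G : Type) {Ed : Type} [Group G] [MulAction G Ed] (D : Set Ed) : Type :=
  {e : Ed // e ∉ orb G D}

instance (D : Set Ed) : MulAction G (Eg G D) where
  smul g e := ⟨g • e.1, fun h => e.2 (by simpa using smul_mem g⁻¹ h)⟩
  one_smul e := Subtype.ext (one_smul G e.1)
  mul_smul g h e := Subtype.ext (mul_smul g h e.1)

lemma forest (F : Forest G o t) (D : Set Ed) :
    Forest G (fun e : Eg G D => mk F D (o e.1)) fun e : Eg G D => mk F D (t e.1) where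
  o_smul g e := congrArg (mk F D) (F.o_smul g e.1)
  t_smul g e := congrArg (mk F D) (F.t_smul g e.1)
  side e := by
    obtain ⟨σ, h1, h2, h3⟩ := F.side e.1
    refine ⟨Quot.lift σ ?_, h1, h2, fun e' he' => h3 e'.1 fun h => he' (Subtype.ext h)⟩
    rintro _ _ ⟨e', he', rfl, rfl⟩
    exact propext (h3 e' fun h => e.2 (h ▸ he'))

lemma ct_sub (h : CT G) (Q : Subgroup G) : CT Q :=
  ct_of_inj (f := Q.subtype) Q.subtype_injective h

/-- One new orbit of edges. -/
lemma step (hA : BsAStmt) (hH : BsHStmt) (pA : PushAStmt) (pH : PushHStmt) (F : Forest G o t)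
    (hG : CT G) {D : Set Ed} {e : Ed} (he : e ∉ orb G D) (hf : (stabilizer G e).FG)
    (hc : ∀ x ∈ stabilizer G e, ∀ y ∈ stabilizer G e, x * y = y * x)
    (h1 : (stabilizer G (mk F D (o e))).FG → Hier (stabilizer G (mk F D (o e))))
    (h2 : (stabilizer G (mk F D (t e))).FG → Hier (stabilizer G (mk F D (t e))))
    (hQ : (stabilizer G (mk F (insert e D) (o e))).FG) :
    Hier (stabilizer G (mk F (insert e D) (o e))) := by
  set Q := stabilizer G (mk F (insert e D) (o e)) with hQd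
  set A := stabilizer G (mk F D (o e)) with hAd
  set B := stabilizer G (mk F D (t e)) with hBd
  have hot : mk F (insert e D) (o e) = mk F (insert e D) (t e) :=
    mk_edge F (sub_orb (Set.mem_insert e D))
  have hAQ : A ≤ Q := fun g hg => mk_mono F (Set.subset_insert e D) hg
  have hBQ : B ≤ Q := fun g hg => by
    rw [hQd, hot]
    exact mk_mono F (Set.subset_insert e D) hg
  have hCA : stabilizer G e ≤ A := fun g hg => by
    rw [hAd, mem_stabilizer_iff, smul_mk, ← F.o_smul, mem_stabilizer_iff.1 hg]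
  have hCB : stabilizer G e ≤ B := fun g hg => by
    rw [hBd, mem_stabilizer_iff, smul_mk, ← F.t_smul, mem_stabilizer_iff.1 hg]
  let e' : Eg G D := ⟨e, he⟩
  have hC : ∀ g, g ∈ stabilizer G e ↔ g ∈ Q ∧ g • e' = e' := fun g =>
    ⟨fun h => ⟨hAQ (hCA h), Subtype.ext h⟩, fun h => congrArg Subtype.val h.2⟩
  have hK : Group.FG (stabilizer G e) := (Group.fg_iff_subgroup_fg _).2 hf
  have hK' : ∀ x y : stabilizer G e, x * y = y * x := fun x y => Subtype.ext (hc _ x.2 _ y.2)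
  have main : ∀ X : Cp F D → Prop,
      (∀ g ∈ Q, X (g • mk F D (o e)) ↔ X (g • mk F D (t e))) → X (mk F D (o e)) →
      ∀ q ∈ Q, X (q • mk F D (o e)) := by
    intro X hX h0 q hq
    refine (walk (S := orb G (insert e D)) (o := o) (t := t) (fun x => X (mk F D x)) ?_
      ((mk_eq F _ _ _).1 (mem_stabilizer_iff.1 hq).symm)).1 h0
    rintro _ ⟨d, hd, g, rfl⟩ hv
    rcases hd with rfl | hd
    · rw [F.o_smul] at hv
      rw [F.o_smul, F.t_smul]
      exact hX g ((mk_eq F _ _ _).2 hv).symm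
    · show X (mk F D _) ↔ X (mk F D _)
      rw [mk_edge F ⟨d, hd, g, rfl⟩]
  have mo : ∀ {L : Subgroup G} {x : Cp F D} {g l : G}, stabilizer G x ≤ L → l ∈ L →
      g • x = l • x → g ∈ L := fun {L x g l} hx hl h => by
    have h3 : l⁻¹ * g ∈ L := hx (by rw [mem_stabilizer_iff, mul_smul, h, inv_smul_smul])
    simpa using L.mul_mem hl h3
  by_cases hτ : ∃ τ ∈ Q, τ • mk F D (t e) = mk F D (o e)
  · obtain ⟨τ, hτQ, hτ⟩ := hτ
    have hj : ∀ x : stabilizer G e, τ * x * τ⁻¹ ∈ A := fun x => by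
      rw [hAd, mem_stabilizer_iff, mul_smul, mul_smul, ← hτ, inv_smul_smul,
        mem_stabilizer_iff.1 (hCB x.2)]
    let j : stabilizer G e →* A :=
      { toFun := fun x => ⟨τ * x * τ⁻¹, hj x⟩
        map_one' := Subtype.ext (by simp)
        map_mul' := fun x y => Subtype.ext (by simp [mul_assoc]) }
    have hτL : τ ∈ A ⊔ Subgroup.zpowers τ := Subgroup.mem_sup_right (Subgroup.mem_zpowers τ)
    have hL : Q ≤ A ⊔ Subgroup.zpowers τ := fun q hq => by
      obtain ⟨l, hl, h⟩ := main (fun x => ∃ l ∈ A ⊔ Subgroup.zpowers τ, x = l • mk F D (o e))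
        (fun g _ => by
          have h4 : g • mk F D (t e) = (g * τ⁻¹) • mk F D (o e) := by
            rw [mul_smul, ← hτ, inv_smul_smul]
          rw [h4]
          constructor
          · rintro ⟨l, hl, h⟩
            exact ⟨_, Subgroup.mul_mem _ (mo le_sup_left hl h) (Subgroup.inv_mem _ hτL), rfl⟩
          · rintro ⟨l, hl, h⟩
            exact ⟨g, by simpa using Subgroup.mul_mem _ (mo le_sup_left hl h) hτL, rfl⟩)
        ⟨1, Subgroup.one_mem _, (one_smul _ _).symm⟩ q hq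
      exact mo le_sup_left hl h
    obtain ⟨h5, h6⟩ := hH G (Cp F D) (Eg G D) _ _ e' Q A (stabilizer G e) hCA hAQ ⟨τ, hτQ⟩ j
      (forest F D) (fun _ h => h) hτ hC (fun _ => rfl) hL
    refine pH _ _ _ _ _ _ _ h5 (Subgroup.inclusion_injective _) (fun x y h => ?_) (ct_sub hG Q) hK
      hK' (h1 (h6 hQ hf))
    have h7 : τ * x * τ⁻¹ = τ * y * τ⁻¹ := congrArg Subtype.val h
    exact Subtype.ext (mul_left_cancel (mul_right_cancel h7))
  · have hLQ : A ⊔ B ≤ Q := sup_le hAQ hBQ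
    have no : ∀ g ∈ Q, ∀ l ∈ Q, g • mk F D (o e) ≠ l • mk F D (t e) := fun g hg l hl h =>
      hτ ⟨g⁻¹ * l, Q.mul_mem (Q.inv_mem hg) hl, by rw [mul_smul, ← h, inv_smul_smul]⟩
    have hL : Q ≤ A ⊔ B := fun q hq => by
      obtain ⟨l, hl, h⟩ := main
        (fun x => ∃ l ∈ A ⊔ B, x = l • mk F D (o e) ∨ x = l • mk F D (t e))
        (fun g hg => by
          constructor
          · rintro ⟨l, hl, h | h⟩
            · exact ⟨g, mo le_sup_left hl h, Or.inr rfl⟩
            · exact (no g hg l (hLQ hl) h).elim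
          · rintro ⟨l, hl, h | h⟩
            · exact (no l (hLQ hl) g hg h.symm).elim
            · exact ⟨g, mo le_sup_right hl h, Or.inl rfl⟩)
        ⟨1, Subgroup.one_mem _, Or.inl (one_smul _ _).symm⟩ q hq
      rcases h with h | h
      · exact mo le_sup_left hl h
      · exact (no q hq l (hLQ hl) h).elim
    obtain ⟨h5, h6⟩ := hA G (Cp F D) (Eg G D) _ _ e' Q A B (stabilizer G e) hCA hCB hAQ hBQ
      (forest F D) (fun _ h => h) (fun _ h => h) hC hL
    exact pA _ _ _ _ _ _ _ _ h5 (Subgroup.inclusion_injective _) (Subgroup.inclusion_injective _)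
      (ct_sub hG Q) hK hK' (h1 (h6 hQ hf).1) (h2 (h6 hQ hf).2)

lemma stab_congr (F : Forest G o t) {D D' : Set Ed} {v : Vt}
    (h : ∀ x, mk F D v = mk F D x ↔ mk F D' v = mk F D' x) :
    stabilizer G (mk F D v) = stabilizer G (mk F D' v) := by
  ext g
  rw [mem_stabilizer_iff, mem_stabilizer_iff, smul_mk, smul_mk, eq_comm, h, eq_comm]

lemma mk_congr (F : Forest G o t) {D D' : Set Ed} (h : orb G D = orb G D') (x y : Vt) :
    mk F D x = mk F D y ↔ mk F D' x = mk F D' y := by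
  rw [mk_eq, mk_eq, h]

lemma orb_insert (D : Set Ed) (e : Ed) (g : G) :
    orb G (insert e D) = orb G (insert (g • e) D) := by
  ext x
  constructor
  · rintro ⟨d, rfl | hd, k, rfl⟩
    · exact ⟨g • d, Or.inl rfl, k * g⁻¹, by rw [mul_smul, inv_smul_smul]⟩
    · exact ⟨d, Or.inr hd, k, rfl⟩
  · rintro ⟨d, rfl | hd, k, rfl⟩
    · exact ⟨e, Or.inl rfl, k * g, mul_smul _ _ _⟩
    · exact ⟨d, Or.inr hd, k, rfl⟩

/-- The induction over finite sets of orbits. -/
lemma comp (hA : BsAStmt) (hH : BsHStmt) (pA : PushAStmt) (pH : PushHStmt) (F : Forest G o t)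
    (hG : CT G) (a : Vt) (hE : ∀ e : Ed, (stabilizer G e).FG ∧
      ∀ x ∈ stabilizer G e, ∀ y ∈ stabilizer G e, x * y = y * x)
    (hV : ∀ v, Con o t a v → (stabilizer G v).FG → Hier (stabilizer G v)) {D : Set Ed}
    (hD : D.Finite) : ∀ v, Con o t a v → (stabilizer G (mk F D v)).FG →
      Hier (stabilizer G (mk F D v)) := by
  induction D, hD using Set.Finite.induction_on with
  | empty =>
    intro v hv
    have h1 : stabilizer G (mk F ∅ v) = stabilizer G v := by
      ext g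
      rw [mem_stabilizer_iff, mem_stabilizer_iff, smul_mk, eq_comm, mk_eq]
      refine ⟨fun h => ((walk (fun x => v = x) ?_ h).1 rfl).symm, fun h => by
        rw [h]
        exact .refl _⟩
      rintro _ ⟨d, hd, -⟩
      exact hd.elim
    rw [h1]
    exact hV v hv
  | @insert e D _ _ ih =>
    intro v hv
    by_cases h : ∃ g : G, g • e ∉ orb G D ∧ mk F (insert e D) v = mk F (insert e D) (o (g • e))
    · obtain ⟨g, h1, h2⟩ := h
      have h3 : Con o t a (o (g • e)) := hv.trans _ _ _ (con_of ((mk_eq F _ _ _).1 h2))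
      rw [h2, stab_congr F (mk_congr F (orb_insert D e g) _)]
      exact step hA hH pA pH F hG h1 (hE _).1 (hE _).2 (ih _ h3)
        (ih _ (h3.trans _ _ _ (.rel _ _ ⟨_, rfl, rfl⟩)))
    · have h1 : ∀ x, mk F (insert e D) v = mk F (insert e D) x ↔ mk F D v = mk F D x := by
        refine fun x => ⟨fun hx => ?_, mk_mono F (Set.subset_insert e D)⟩
        refine (walk (fun x => mk F D v = mk F D x) ?_ ((mk_eq F _ _ _).1 hx)).1 rfl
        intro e' he' h2
        have h3 : e' ∈ orb G D := by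
          obtain ⟨d, rfl | hd, g, rfl⟩ := he'
          · by_contra h4
            exact h ⟨g, h4, (mk_eq F _ _ _).2 h2⟩
          · exact ⟨d, hd, g, rfl⟩
        show mk F D v = _ ↔ mk F D v = _
        rw [mk_edge F h3]
      rw [stab_congr F h1]
      exact ih v hv

/-- The case of the whole group. -/
lemma whole (hA : BsAStmt) (hH : BsHStmt) (pA : PushAStmt) (pH : PushHStmt) (F : Forest G o t)
    (hG : CT G) (a : Vt) (hf : Group.FG G) (ha : ∀ g : G, Con o t a (g • a))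
    (hE : ∀ e : Ed, (stabilizer G e).FG ∧
      ∀ x ∈ stabilizer G e, ∀ y ∈ stabilizer G e, x * y = y * x)
    (hV : ∀ v, Con o t a v → (stabilizer G v).FG → Hier (stabilizer G v)) : Hier G := by
  obtain ⟨S, hS, hS'⟩ := Group.fg_iff.1 hf
  choose D hD hD' using fun g : G => exists_fin (ha g)
  have h1 : stabilizer G (mk F (⋃ s ∈ S, D s) a) = ⊤ := by
    rw [eq_top_iff, ← hS, Subgroup.closure_le]
    intro s hs
    exact ((mk_eq F _ _ _).2 (con_mono
      ((Set.subset_biUnion_of_mem (u := D) hs).trans sub_orb) (hD' s))).symm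
  have h2 := comp hA hH pA pH F hG a hE hV (hS'.biUnion fun s _ => hD s) a (.refl _)
  rw [h1] at h2
  exact .iso _ _ (h2 hf.out) Subgroup.topEquiv

/-- Stabilisers for the restricted action. -/
def stabEquiv {X : Type} [MulAction G X] (P : Subgroup G) (x : X) :
    stabilizer P x ≃* ↥(P ⊓ stabilizer G x) where
  toFun g := ⟨g.1.1, g.1.2, g.2⟩
  invFun g := ⟨⟨g.1, g.2.1⟩, g.2.2⟩
  left_inv _ := rfl
  right_inv _ := rfl
  map_mul' _ _ := rfl

lemma fg_equiv {G' : Type} [Group G'] {K : Subgroup G} {K' : Subgroup G'} (e : K ≃* K')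
    (h : K.FG) : K'.FG := by
  have := (Group.fg_iff_subgroup_fg K).2 h
  exact (Group.fg_iff_subgroup_fg K').1 (Group.fg_of_surjective (f := e.toMonoidHom) e.surjective)

end BsP

open BsP in
theorem bs (hA : BsAStmt) (hH : BsHStmt) (pA : PushAStmt) (pH : PushHStmt) : BsStmt := by
  intro G Vt Ed _ _ _ o t a P F hG hP ha hE hV
  refine whole (G := P) hA hH pA pH ⟨fun g => F.o_smul g.1, fun g => F.t_smul g.1, F.side⟩
    (ct_sub hG P) a ((Group.fg_iff_subgroup_fg P).2 hP) (fun g => ha g.1 g.2)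
    (fun e => ⟨fg_equiv (stabEquiv P e).symm (hE e).1, fun x hx y hy =>
      Subtype.ext ((hE e).2 x.1 ⟨x.2, hx⟩ y.1 ⟨y.2, hy⟩)⟩) fun v hv hf => ?_
  exact .iso _ _ (hV v hv (fg_equiv (stabEquiv P v) hf)) (stabEquiv P v).symm

end Pool.Agent.MP_494aff_an.Se

end MrgPart1

-- ======== part 2: formerly Pool.Agent.MP_494aff_an.se.BsA
section MrgPart2

/-! One edge of a forest: the amalgam case. -/

namespace Pool.Agent.MP_494aff_an.Se

open Pool.Agent.MP_494aff_an.Pinch Pool.Agent.MP_494aff_an.Pinch.TowP Pool.Agent.MP_494aff_an.Lf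

namespace BsA

section Ping

variable {G Vt Ed : Type} [Group G] [MulAction G Vt] [MulAction G Ed] {o t : Ed → Vt}

/-- Joined by a path that avoids the edge `e`. -/
def Jn (o t : Ed → Vt) (e : Ed) : Vt → Vt → Prop :=
  Relation.EqvGen fun a b => ∃ e', e' ≠ e ∧ o e' = a ∧ t e' = b

lemma Jn.refl (e : Ed) (a : Vt) : Jn o t e a a := Relation.EqvGen.refl a

lemma Jn.symm {e : Ed} {a b : Vt} (h : Jn o t e a b) : Jn o t e b a :=
  Relation.EqvGen.symm _ _ h

lemma Jn.trans {e : Ed} {a b c : Vt} (h : Jn o t e a b) (h' : Jn o t e b c) : Jn o t e a c :=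
  Relation.EqvGen.trans _ _ _ h h'

lemma Jn.edge {e e' : Ed} (h : e' ≠ e) : Jn o t e (o e') (t e') :=
  Relation.EqvGen.rel _ _ ⟨e', h, rfl, rfl⟩

lemma Jn.iff {e : Ed} {Z : Vt → Prop} (hZ : ∀ e', e' ≠ e → (Z (o e') ↔ Z (t e'))) {a b : Vt}
    (h : Jn o t e a b) : Z a ↔ Z b := by
  induction h with
  | rel a b h =>
    obtain ⟨e', h, rfl, rfl⟩ := h
    exact hZ e' h
  | refl a => exact Iff.rfl
  | symm a b _ ih => exact ih.symm
  | trans a b c _ _ ih ih' => exact ih.trans ih'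

lemma Jn.step {e e' : Ed} (h : e' ≠ e) (a : Vt) : Jn o t e a (o e') ↔ Jn o t e a (t e') :=
  ⟨fun h' => h'.trans (Jn.edge h), fun h' => h'.trans (Jn.edge h).symm⟩

lemma not_jn (hF : Forest G o t) (e : Ed) : ¬ Jn o t e (o e) (t e) := fun h => by
  obtain ⟨σ, h1, h2, h3⟩ := hF.side e
  exact h2 ((Jn.iff h3 h).1 h1)

lemma Jn.smul (hF : Forest G o t) (g : G) {e : Ed} {a b : Vt} (h : Jn o t e a b) :
    Jn o t (g • e) (g • a) (g • b) := by
  refine (Jn.iff (Z := fun w => Jn o t (g • e) (g • a) (g • w)) (fun e' he => ?_) h).1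
    (Jn.refl _ _)
  rw [← hF.o_smul, ← hF.t_smul]
  exact Jn.step (fun h' => he (MulAction.injective g h')) _

lemma ping_edge (hF : Forest G o t) {e e' : Ed} (hne : e' ≠ e) (ho : o e' = o e) {w : Vt}
    (h : Jn o t e' (t e') w) : Jn o t e (o e) w := by
  refine ((Jn.iff (Z := fun w => Jn o t e' (t e') w ∧ Jn o t e (o e) w) (fun x hx => ?_) h).1
    ⟨Jn.refl _ _, ho ▸ Jn.edge hne⟩).2
  by_cases hxe : x = e
  · subst hxe
    exact iff_of_false (fun h' => not_jn hF e' (by rw [ho]; exact h'.1.symm))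
      fun h' => not_jn hF x h'.2
  · exact and_congr (Jn.step hx _) (Jn.step hxe _)

lemma pong_edge (hF : Forest G o t) {e e' : Ed} (hne : e' ≠ e) (ht : t e' = t e) {w : Vt}
    (h : Jn o t e' (o e') w) : Jn o t e (t e) w := by
  refine ((Jn.iff (Z := fun w => Jn o t e' (o e') w ∧ Jn o t e (t e) w) (fun x hx => ?_) h).1
    ⟨Jn.refl _ _, ht ▸ (Jn.edge hne).symm⟩).2
  by_cases hxe : x = e
  · subst hxe
    exact iff_of_false (fun h' => not_jn hF x h'.2.symm)
      fun h' => not_jn hF e' (by rw [ht]; exact h'.1)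
  · exact and_congr (Jn.step hx _) (Jn.step hxe _)

lemma ping (hF : Forest G o t) {e : Ed} {g : G} (ho : g • o e = o e) (hne : g • e ≠ e) {w : Vt}
    (h : Jn o t e (t e) w) : Jn o t e (o e) (g • w) :=
  ping_edge hF hne (by rw [hF.o_smul, ho]) (by rw [hF.t_smul]; exact h.smul hF g)

lemma pong (hF : Forest G o t) {e : Ed} {g : G} (ht : g • t e = t e) (hne : g • e ≠ e) {w : Vt}
    (h : Jn o t e (o e) w) : Jn o t e (t e) (g • w) :=
  pong_edge hF hne (by rw [hF.t_smul, ht]) (by rw [hF.o_smul]; exact h.smul hF g)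

end Ping

section Main

variable {G Vt Ed : Type} [Group G] [MulAction G Vt] [MulAction G Ed] {o t : Ed → Vt} {e : Ed}
  {P A B C : Subgroup G}

/-- Where a typed word sends the two ends of the edge. -/
lemma loc (hCA : C ≤ A) (hCB : C ≤ B) (hAP : A ≤ P) (hBP : B ≤ P) (hF : Forest G o t)
    (hA : ∀ g ∈ A, g • o e = o e) (hB : ∀ g ∈ B, g • t e = t e)
    (hC : ∀ g, g ∈ C ↔ g ∈ P ∧ g • e = e) {G' : Type} [Group G'] {f : A →* G'} {g : B →* G'}
    (p : G' →* G) (hf : ∀ a, p (f a) = a) (hg : ∀ b, p (g b) = b) {τ : Option Bool} {z : G'}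
    (h : Gl.Typ (Subgroup.inclusion hCA) (Subgroup.inclusion hCB) f g τ z) :
    (τ = none → p z ∈ C) ∧
    (τ = some true → Jn o t e (o e) (p z • o e) ∧ Jn o t e (o e) (p z • t e)) ∧
    (τ = some false → Jn o t e (t e) (p z • o e) ∧ Jn o t e (t e) (p z • t e)) := by
  induction h with
  | base x =>
    refine ⟨fun _ => ?_, fun h => by simp at h, fun h => by simp at h⟩
    rw [hf]
    exact x.2
  | left a z τ ha _ hτ ih =>
    refine ⟨fun h => by simp at h, fun _ => ?_, fun h => by simp at h⟩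
    have hne : (a : G) • e ≠ e := fun h' => ha ⟨⟨a, (hC a).2 ⟨hAP a.2, h'⟩⟩, rfl⟩
    rw [map_mul, hf, mul_smul, mul_smul]
    rcases τ with _ | _ | _
    · have hz := ih.1 rfl
      rw [hA _ (hCA hz), hB _ (hCB hz), hA _ a.2]
      exact ⟨Jn.refl _ _, ping hF (hA _ a.2) hne (Jn.refl _ _)⟩
    · have hz := ih.2.2 rfl
      exact ⟨ping hF (hA _ a.2) hne hz.1, ping hF (hA _ a.2) hne hz.2⟩
    · exact absurd rfl hτ
  | right b z τ hb _ hτ ih =>
    refine ⟨fun h => by simp at h, fun h => by simp at h, fun _ => ?_⟩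
    have hne : (b : G) • e ≠ e := fun h' => hb ⟨⟨b, (hC b).2 ⟨hBP b.2, h'⟩⟩, rfl⟩
    rw [map_mul, hg, mul_smul, mul_smul]
    rcases τ with _ | _ | _
    · have hz := ih.1 rfl
      rw [hA _ (hCA hz), hB _ (hCB hz), hB _ b.2]
      exact ⟨pong hF (hB _ b.2) hne (Jn.refl _ _), Jn.refl _ _⟩
    · exact absurd rfl hτ
    · have hz := ih.2.1 rfl
      exact ⟨pong hF (hB _ b.2) hne hz.1, pong hF (hB _ b.2) hne hz.2⟩

lemma gen_sup (hAP : A ≤ P) (hBP : B ≤ P) (hP : P ≤ A ⊔ B) (T : Subgroup P)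
    (h1 : ∀ a, Subgroup.inclusion hAP a ∈ T) (h2 : ∀ b, Subgroup.inclusion hBP b ∈ T) (z : P) :
    z ∈ T := by
  have h : A ⊔ B ≤ T.map P.subtype :=
    sup_le (fun a ha => ⟨_, h1 ⟨a, ha⟩, rfl⟩) fun b hb => ⟨_, h2 ⟨b, hb⟩, rfl⟩
  obtain ⟨y, hy, hyz⟩ := h (hP z.2)
  rwa [← Subtype.ext (a1 := y) hyz]

lemma amal (hCA : C ≤ A) (hCB : C ≤ B) (hAP : A ≤ P) (hBP : B ≤ P) (hF : Forest G o t)
    (hA : ∀ g ∈ A, g • o e = o e) (hB : ∀ g ∈ B, g • t e = t e)
    (hC : ∀ g, g ∈ C ↔ g ∈ P ∧ g • e = e) (hP : P ≤ A ⊔ B) :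
    Amal (Subgroup.inclusion hCA) (Subgroup.inclusion hCB) (Subgroup.inclusion hAP)
      (Subgroup.inclusion hBP) := by
  refine ⟨fun _ => rfl, fun M _ φ ψ hφ => ?_, gen_sup hAP hBP hP⟩
  obtain ⟨G', _, f, g, h'⟩ := FG.exists_amal (Subgroup.inclusion hCA) (Subgroup.inclusion hCB)
  obtain ⟨p, hf, hg⟩ := h'.lift P (Subgroup.inclusion hAP) (Subgroup.inclusion hBP) fun _ => rfl
  obtain ⟨π, h1, h2⟩ := h'.lift M φ ψ hφ
  have hs : Function.Surjective p := fun z =>
    gen_sup hAP hBP hP p.range (fun a => ⟨_, hf a⟩) (fun b => ⟨_, hg b⟩) z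
  have hi : Function.Injective p := by
    refine (injective_iff_map_eq_one p).2 fun z hz => ?_
    obtain ⟨τ, hτ⟩ := Gl.exists_typ h' z
    have hl := loc hCA hCB hAP hBP hF hA hB hC (P.subtype.comp p)
      (fun a => by rw [MonoidHom.comp_apply, hf]; rfl)
      (fun b => by rw [MonoidHom.comp_apply, hg]; rfl) hτ
    rw [MonoidHom.comp_apply, hz, map_one, one_smul, one_smul] at hl
    rcases τ with _ | _ | _
    · cases hτ with
      | base x =>
        rw [hf] at hz
        have hx : x = 1 := Subtype.ext (congrArg (fun y : P => (y : G)) hz)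
        rw [hx, map_one, map_one]
    · exact absurd (hl.2.2 rfl).1.symm (not_jn hF e)
    · exact absurd (hl.2.1 rfl).2 (not_jn hF e)
  let E : G' ≃* P := MulEquiv.ofBijective p ⟨hi, hs⟩
  refine ⟨π.comp E.symm.toMonoidHom, fun a => ?_, fun b => ?_⟩
  · rw [← hf, ← h1]
    exact congrArg π (E.symm_apply_apply _)
  · rw [← hg, ← h2]
    exact congrArg π (E.symm_apply_apply _)

/-- The stabilisers of the two ends are the two factors. -/
lemma stab (hCA : C ≤ A) (hCB : C ≤ B) (hAP : A ≤ P) (hBP : B ≤ P) (hF : Forest G o t)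
    (hA : ∀ g ∈ A, g • o e = o e) (hB : ∀ g ∈ B, g • t e = t e)
    (hC : ∀ g, g ∈ C ↔ g ∈ P ∧ g • e = e) (hP : P ≤ A ⊔ B) {z : G} (hz : z ∈ P) :
    (z • o e = o e → z ∈ A) ∧ (z • t e = t e → z ∈ B) := by
  have hl := fun τ y => loc (τ := τ) (z := y) hCA hCB hAP hBP hF hA hB hC
    (f := Subgroup.inclusion hAP) (g := Subgroup.inclusion hBP) P.subtype
    (fun _ => rfl) (fun _ => rfl)
  obtain ⟨τ, hτ⟩ := Gl.exists_typ (amal hCA hCB hAP hBP hF hA hB hC hP) ⟨z, hz⟩
  have h0 := hl _ _ hτ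
  generalize hy : (⟨z, hz⟩ : P) = y at hτ h0
  have hyz : (y : G) = z := by rw [← hy]
  rw [← hyz]
  cases hτ with
  | base x => exact ⟨fun _ => hCA x.2, fun _ => hCB x.2⟩
  | left a y τ ha hτ hne =>
    have h1 := hl _ _ hτ
    refine ⟨fun h => ?_, fun h => absurd (h ▸ (h0.2.1 rfl).2) (not_jn hF e)⟩
    change ((a : G) * y) • o e = o e at h
    change (a : G) * y ∈ A
    rcases τ with _ | _ | _
    · exact mul_mem a.2 (hCA (h1.1 rfl))
    · have h2 : (y : G) • o e = o e := by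
        rw [mul_smul, smul_eq_iff_eq_inv_smul, hA _ (inv_mem a.2)] at h
        exact h
      exact absurd (h2 ▸ (h1.2.2 rfl).1.symm) (not_jn hF e)
    · exact absurd rfl hne
  | right b y τ hb hτ hne =>
    have h1 := hl _ _ hτ
    refine ⟨fun h => absurd (h ▸ (h0.2.2 rfl).1.symm) (not_jn hF e), fun h => ?_⟩
    change ((b : G) * y) • t e = t e at h
    change (b : G) * y ∈ B
    rcases τ with _ | _ | _
    · exact mul_mem b.2 (hCB (h1.1 rfl))
    · exact absurd rfl hne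
    · have h2 : (y : G) • t e = t e := by
        rw [mul_smul, smul_eq_iff_eq_inv_smul, hB _ (inv_mem b.2)] at h
        exact h
      exact absurd (h2 ▸ (h1.2.1 rfl).2) (not_jn hF e)

lemma fg_sup {A₁ A₂ : Subgroup G} (h₁ : A₁.FG) (h₂ : A₂.FG) : (A₁ ⊔ A₂).FG := by
  obtain ⟨S₁, e₁, f₁⟩ := (Subgroup.fg_iff _).1 h₁
  obtain ⟨S₂, e₂, f₂⟩ := (Subgroup.fg_iff _).1 h₂
  exact (Subgroup.fg_iff _).2 ⟨S₁ ∪ S₂, by rw [Subgroup.closure_union, e₁, e₂], f₁.union f₂⟩

lemma mem_l {A₁ B₁ A₂ B₂ : Subgroup G} {z : G} (h : z ∈ A₁ ⊔ B₁) : z ∈ (A₁ ⊔ A₂) ⊔ (B₁ ⊔ B₂) :=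
  (sup_le_sup le_sup_left le_sup_left : A₁ ⊔ B₁ ≤ (A₁ ⊔ A₂) ⊔ (B₁ ⊔ B₂)) h

lemma mem_r {A₁ B₁ A₂ B₂ : Subgroup G} {z : G} (h : z ∈ A₂ ⊔ B₂) : z ∈ (A₁ ⊔ A₂) ⊔ (B₁ ⊔ B₂) :=
  (sup_le_sup le_sup_right le_sup_right : A₂ ⊔ B₂ ≤ (A₁ ⊔ A₂) ⊔ (B₁ ⊔ B₂)) h

lemma fg_one (z : G) : (Subgroup.closure {z}).FG :=
  (Subgroup.fg_iff _).2 ⟨{z}, rfl, Set.finite_singleton z⟩

lemma fin_elt {z : G} (hz : z ∈ A ⊔ B) :
    ∃ A₀ B₀ : Subgroup G, A₀ ≤ A ∧ B₀ ≤ B ∧ A₀.FG ∧ B₀.FG ∧ z ∈ A₀ ⊔ B₀ := by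
  let T : Subgroup G :=
    { carrier := {z | ∃ A₀ B₀ : Subgroup G, A₀ ≤ A ∧ B₀ ≤ B ∧ A₀.FG ∧ B₀.FG ∧ z ∈ A₀ ⊔ B₀}
      one_mem' := ⟨Subgroup.closure {1}, Subgroup.closure {1}, by simp, by simp, fg_one 1,
        fg_one 1, one_mem _⟩
      mul_mem' := by
        rintro x y ⟨A₁, B₁, a₁, b₁, c₁, d₁, e₁⟩ ⟨A₂, B₂, a₂, b₂, c₂, d₂, e₂⟩
        exact ⟨A₁ ⊔ A₂, B₁ ⊔ B₂, sup_le a₁ a₂, sup_le b₁ b₂, fg_sup c₁ c₂, fg_sup d₁ d₂,
          mul_mem (mem_l e₁) (mem_r e₂)⟩
      inv_mem' := by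
        rintro x ⟨A₁, B₁, a₁, b₁, c₁, d₁, e₁⟩
        exact ⟨A₁, B₁, a₁, b₁, c₁, d₁, inv_mem e₁⟩ }
  have h : A ⊔ B ≤ T := sup_le
    (fun a ha => ⟨Subgroup.closure {a}, Subgroup.closure {1}, by simpa using ha, by simp,
      fg_one a, fg_one 1, Subgroup.mem_sup_left (Subgroup.subset_closure rfl)⟩)
    fun b hb => ⟨Subgroup.closure {1}, Subgroup.closure {b}, by simp, by simpa using hb,
      fg_one 1, fg_one b, Subgroup.mem_sup_right (Subgroup.subset_closure rfl)⟩
  exact h hz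

lemma fin_set {S : Set G} (hS : S.Finite) (h : ∀ z ∈ S, z ∈ A ⊔ B) :
    ∃ A₀ B₀ : Subgroup G, A₀ ≤ A ∧ B₀ ≤ B ∧ A₀.FG ∧ B₀.FG ∧ ∀ z ∈ S, z ∈ A₀ ⊔ B₀ := by
  induction S, hS using Set.Finite.induction_on with
  | empty =>
    exact ⟨Subgroup.closure {1}, Subgroup.closure {1}, by simp, by simp, fg_one 1, fg_one 1,
      fun z hz => absurd hz (Set.notMem_empty z)⟩
  | @insert x S _ _ ih =>
    obtain ⟨A₁, B₁, a₁, b₁, c₁, d₁, e₁⟩ := fin_elt (h x (Set.mem_insert _ _))
    obtain ⟨A₂, B₂, a₂, b₂, c₂, d₂, e₂⟩ := ih fun z hz => h z (Set.mem_insert_of_mem _ hz)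
    refine ⟨A₁ ⊔ A₂, B₁ ⊔ B₂, sup_le a₁ a₂, sup_le b₁ b₂, fg_sup c₁ c₂, fg_sup d₁ d₂,
      fun z hz => ?_⟩
    rcases hz with rfl | hz
    · exact mem_l e₁
    · exact mem_r (e₂ z hz)

end Main

end BsA

open BsA in
theorem bsA : BsAStmt := by
  intro G Vt Ed _ _ _ o t e P A B C hCA hCB hAP hBP hF hA hB hC hP
  refine ⟨amal hCA hCB hAP hBP hF hA hB hC hP, fun hPf hCf => ?_⟩
  obtain ⟨S, hS, hSf⟩ := (Subgroup.fg_iff _).1 hPf
  obtain ⟨A₀, B₀, a₀, b₀, c₀, d₀, e₀⟩ := fin_set (A := A) (B := B) hSf fun z hz =>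
    hP (hS ▸ Subgroup.subset_closure hz)
  have hA₁ : A₀ ⊔ C ≤ A := sup_le a₀ hCA
  have hB₁ : B₀ ⊔ C ≤ B := sup_le b₀ hCB
  have hP₁ : P ≤ (A₀ ⊔ C) ⊔ (B₀ ⊔ C) := by
    rw [← hS, Subgroup.closure_le]
    exact fun z hz => mem_l (e₀ z hz)
  have key := fun z hz => stab (z := z) (le_sup_right (a := A₀)) (le_sup_right (a := B₀))
    (hA₁.trans hAP) (hB₁.trans hBP) hF (fun g hg => hA g (hA₁ hg)) (fun g hg => hB g (hB₁ hg))
    hC hP₁ hz
  have eA : A = A₀ ⊔ C := le_antisymm (fun z hz => (key z (hAP hz)).1 (hA z hz)) hA₁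
  have eB : B = B₀ ⊔ C := le_antisymm (fun z hz => (key z (hBP hz)).2 (hB z hz)) hB₁
  exact ⟨eA ▸ fg_sup c₀ hCf, eB ▸ fg_sup d₀ hCf⟩

end Pool.Agent.MP_494aff_an.Se

end MrgPart2

-- ======== part 3: formerly Pool.Agent.MP_494aff_an.se.Fw
section MrgPart3

/-! Row FW: reduced words in the free group. -/

namespace Pool.Agent.MP_494aff_an.Se

open Pool.Agent.MP_494aff_an.Pinch FreeGroup FreeGroup.reduceCyclically

namespace Fw

abbrev Wd : Type := List (Fin 2 × Bool)

theorem norm_mk {L : Wd} (h : IsReduced L) : (mk L).norm = L.length := by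
  rw [FreeGroup.norm, toWord_mk, h.reduce_eq]

theorem red_invRev {L : Wd} (h : IsReduced L) : IsReduced (invRev L) :=
  .of_reduce_eq (by rw [reduce_invRev, h.reduce_eq])

/-- the length of the common initial part -/
def cp : Wd → Wd → ℕ
  | a :: L, b :: M => if a = b then cp L M + 1 else 0
  | _, _ => 0

theorem cp_comm : ∀ L M : Wd, cp L M = cp M L
  | [], [] => rfl
  | [], _ :: _ => rfl
  | _ :: _, [] => rfl
  | a :: L, b :: M => by simp only [cp, cp_comm L M, eq_comm (a := a)]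

theorem cp_ultra : ∀ L M N : Wd, min (cp L N) (cp M N) ≤ cp L M
  | [], _, _ => by simp [cp]
  | _ :: _, [], _ => by simp [cp]
  | _ :: _, _ :: _, [] => by simp [cp]
  | a :: L, b :: M, c :: N => by
    have := cp_ultra L M N
    by_cases h : a = c
    · by_cases h' : b = c
      · simp only [cp, h, h', if_true]; omega
      · simp [cp, h']
    · simp [cp, h]

theorem norm_cp : ∀ L M : Wd, IsReduced L → IsReduced M →
    ((mk L)⁻¹ * mk M).norm + 2 * cp L M = L.length + M.length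
  | [], M, _, hM => by simpa [cp, inv_mk] using norm_mk hM
  | a :: L, [], hL, _ => by
    rw [← one_eq_mk, mul_one, norm_inv_eq, norm_mk hL]; simp [cp]
  | a :: L, b :: M, hL, hM => by
    by_cases h : a = b
    · subst h
      have := norm_cp L M (List.IsChain.tail hL) (List.IsChain.tail hM)
      have e : (mk (a :: L))⁻¹ * mk (a :: M) = (mk L)⁻¹ * mk M := by
        rw [← List.singleton_append (l := L), ← List.singleton_append (l := M), ← mul_mk,
          ← mul_mk]
        group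
      simp only [e, cp, if_true, List.length_cons]
      omega
    · rw [inv_mk, mul_mk, norm_mk]
      · simp [cp, h]
      · refine List.IsChain.append (red_invRev hL) hM fun x hx y hy => ?_
        have hx' : x = (a.1, !a.2) := by simpa [invRev, eq_comm] using hx
        have hy' : y = b := by simpa [eq_comm] using hy
        subst hx' hy'
        intro h1
        have : a.2 ≠ y.2 := fun h2 => h (Prod.ext h1 h2)
        revert this
        cases a.2 <;> cases y.2 <;> simp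

theorem dist_eq (x y : F2) : (x⁻¹ * y).norm + 2 * cp x.toWord y.toWord = x.norm + y.norm := by
  have := norm_cp x.toWord y.toWord isReduced_toWord isReduced_toWord
  rwa [mk_toWord, mk_toWord] at this

theorem four (x y z w : F2) : (x⁻¹ * y).norm + (z⁻¹ * w).norm ≤
    max ((x⁻¹ * z).norm + (y⁻¹ * w).norm) ((x⁻¹ * w).norm + (y⁻¹ * z).norm) := by
  have e : ∀ a b : F2, (w⁻¹ * a)⁻¹ * (w⁻¹ * b) = a⁻¹ * b := fun a b => by group
  have e' : ∀ a : F2, (a⁻¹ * w).norm = (w⁻¹ * a).norm := fun a => by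
    rw [← norm_inv_eq, mul_inv_rev, inv_inv]
  have h1 := dist_eq (w⁻¹ * x) (w⁻¹ * y)
  have h2 := dist_eq (w⁻¹ * x) (w⁻¹ * z)
  have h3 := dist_eq (w⁻¹ * y) (w⁻¹ * z)
  have h4 := cp_ultra (w⁻¹ * x).toWord (w⁻¹ * y).toWord (w⁻¹ * z).toWord
  rw [e] at h1 h2 h3
  rw [e', e' y, e' x]
  omega

theorem split {w : F2} {A B : Wd} (h : w.toWord = A ++ B) :
    (mk A).norm = A.length ∧ (mk A)⁻¹ * w = mk B ∧ (mk B).norm = B.length ∧
      w.norm = A.length + B.length := by
  have hr : IsReduced (A ++ B) := h ▸ isReduced_toWord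
  refine ⟨norm_mk (List.IsChain.left_of_append hr), ?_, norm_mk (List.IsChain.right_of_append hr),
    ?_⟩
  · rw [← mk_toWord (x := w), h, ← mul_mk, inv_mul_cancel_left]
  · rw [FreeGroup.norm, h, List.length_append]

theorem geo (w : F2) (k : ℕ) (hk : k ≤ w.norm) :
    ∃ p : F2, p.norm = k ∧ (p⁻¹ * w).norm + k = w.norm := by
  obtain ⟨h1, h2, h3, h4⟩ := split (List.take_append_drop k w.toWord).symm
  have : (w.toWord.take k).length = k := List.length_take_of_le hk
  exact ⟨_, h1.trans this, by rw [h2, h3, h4]; omega⟩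

theorem norm_eq (w : F2) : w.norm = 2 * (conjugator w.toWord).length + cl w := by
  have := congrArg List.length (conj_conjugator_reduceCyclically w.toWord)
  simp only [List.length_append, invRev_length] at this
  unfold FreeGroup.norm cl
  omega

theorem norm_pow (w : F2) (n : ℕ) : (w ^ (n + 1)).norm = w.norm + n * cl w := by
  rw [norm_eq w, FreeGroup.norm, toWord_pow, reduce_flatten_replicate_succ isReduced_toWord]
  simp only [List.length_append, invRev_length, List.length_flatten, List.map_replicate,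
    List.sum_replicate, smul_eq_mul, cl]
  ring

theorem cl_inv (w : F2) : cl w⁻¹ = cl w := by
  have h1 := norm_pow w 1
  have h2 := norm_pow w⁻¹ 1
  rw [inv_pow, norm_inv_eq, norm_inv_eq] at h2
  omega

theorem cl_zero (w : F2) : cl w = 0 ↔ w = 1 := by
  refine ⟨fun h => ?_, fun h => by simp [cl, h]⟩
  have e := congrArg mk (conj_conjugator_reduceCyclically w.toWord)
  rw [List.length_eq_zero_iff.1 h, List.append_nil, mk_toWord, ← mul_mk, ← inv_mk] at e
  rw [← e, mul_inv_cancel]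

theorem conj_le (w y : F2) : cl (y * w * y⁻¹) ≤ cl w := by
  by_contra hc
  set n := w.norm + 2 * y.norm + 1 with hn
  have h1 := norm_pow (y * w * y⁻¹) n
  have h2 := norm_pow w n
  rw [conj_pow] at h1
  have h3 := norm_mul_le (y * w ^ (n + 1)) y⁻¹
  have h4 := norm_mul_le y (w ^ (n + 1))
  rw [norm_inv_eq] at h3
  have h5 : n * (cl w + 1) ≤ n * cl (y * w * y⁻¹) := Nat.mul_le_mul_left _ (by omega)
  rw [mul_add] at h5
  omega

theorem cl_conj (w y : F2) : cl (y * w * y⁻¹) = cl w := by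
  refine le_antisymm (conj_le w y) ?_
  simpa [mul_assoc] using conj_le (y * w * y⁻¹) y⁻¹

theorem cl_pow (w : F2) : ∀ k : ℕ, cl (w ^ k) = k * cl w
  | 0 => by simp [cl]
  | k + 1 => by
    have h1 := norm_pow (w ^ (k + 1)) 1
    have h2 := norm_pow w k
    have h3 := norm_pow w (k + (k + 1))
    rw [← pow_mul, show (k + 1) * (1 + 1) = k + (k + 1) + 1 by ring] at h1
    rw [add_mul] at h3
    omega

theorem cl_zpow (w : F2) (k : ℤ) : cl (w ^ k) = k.natAbs * cl w := by
  obtain ⟨n, rfl | rfl⟩ := Int.eq_nat_or_neg k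
  · simp [cl_pow]
  · simp [cl_inv, cl_pow]

theorem norm_zpow (r : F2) {k : ℤ} (hk : k ≠ 0) : (r ^ k).norm + cl r = r.norm + cl (r ^ k) := by
  have h : ∀ n : ℕ, n ≠ 0 → (r ^ n).norm + cl r = r.norm + cl (r ^ n) := fun n hn => by
    obtain ⟨m, rfl⟩ := Nat.exists_eq_add_one_of_ne_zero hn
    rw [norm_pow, cl_pow]; ring
  obtain ⟨n, rfl | rfl⟩ := Int.eq_nat_or_neg k
  · simpa using h n (by omega)
  · simpa [cl_inv, norm_inv_eq] using h n (by omega)

theorem comm (w w' : F2) (h : w ≠ 1) (h' : w' ≠ 1) (hc : w * w' = w' * w) :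
    w.norm + cl w' = w'.norm + cl w := by
  obtain ⟨r, a, b, rfl, rfl⟩ := cyc_of_commute hc
  have h1 := norm_zpow r (k := a) fun e => h (by simp [e])
  have h2 := norm_zpow r (k := b) fun e => h' (by simp [e])
  omega

theorem mid (w : F2) : ∃ p : F2, p.norm + (p⁻¹ * w).norm = w.norm ∧ 2 * p.norm ≤ w.norm ∧
    w.norm ≤ 2 * p.norm + 1 ∧ (p⁻¹ * w * p).norm = cl w := by
  have hc := isCyclicallyReduced (isReduced_toWord (x := w))
  have e := conj_conjugator_reduceCyclically w.toWord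
  have hn := norm_eq w
  have hl : (reduceCyclically w.toWord).length = cl w := rfl
  generalize conjugator w.toWord = U at e hn
  obtain ⟨A, B, hV, hA⟩ : ∃ A B : Wd, reduceCyclically w.toWord = A ++ B ∧ A.length = cl w / 2 :=
    ⟨_, _, (List.take_append_drop (cl w / 2) _).symm, List.length_take_of_le (by omega)⟩
  rw [hV] at hc e hl
  obtain ⟨h1, h2, h3, h4⟩ := split (w := w) (A := U ++ A) (B := B ++ invRev U) (by simp [← e])
  have hr : IsReduced (B ++ A) := by
    have := (hc.flatten_replicate 2).isReduced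
    rw [show (List.replicate 2 (A ++ B)).flatten = A ++ (B ++ A ++ B) by simp] at this
    exact List.IsChain.left_of_append (List.IsChain.right_of_append this)
  have h5 : mk (B ++ invRev U) * mk (U ++ A) = mk (B ++ A) := by
    simp only [← mul_mk, ← inv_mk]; group
  simp only [List.length_append, invRev_length] at h1 h3 h4 hl
  refine ⟨mk (U ++ A), by rw [h2]; omega, by omega, by omega, ?_⟩
  rw [h2, h5, norm_mk hr, List.length_append]
  omega

end Fw

theorem fw : FwStmt :=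
  ⟨Fw.four, Fw.geo, fun w => by have := Fw.norm_eq w; omega, Fw.cl_zero, Fw.cl_conj, Fw.cl_zpow,
    Fw.comm, Fw.mid⟩

end Pool.Agent.MP_494aff_an.Se

end MrgPart3

-- ======== part 4: formerly Pool.Agent.MP_494aff_an.se.Ln
section MrgPart4

/-! The family of lines of an action on a real tree. -/

open scoped Pointwise

namespace Pool.Agent.MP_494aff_an.Se

open Pool.Agent.MP_494aff_an.Pinch Pool.Agent.MP_494aff_an.Pinch.TowP Pool.Agent.MP_494aff_an.Lf

namespace LnP

variable {G T : Type} [Group G] [MetricSpace T] [MulAction G T] {ℓ : G → ℝ}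

/-- The points of least displacement. -/
def Ax (T : Type) [MetricSpace T] [MulAction G T] (ℓ : G → ℝ) (m : G) : Set T :=
  {z | dist z (m • z) = ℓ m}

/-- The lines. -/
def Lines (T : Type) [MetricSpace T] [MulAction G T] (ℓ : G → ℝ) : Set (Set T) :=
  {A | ∃ m : G, m ≠ 1 ∧ A = Ax T ℓ m ∧ A.Nontrivial ∧
    ∀ ε : ℝ, 0 < ε → ∃ m' : G, m' ≠ 1 ∧ m * m' = m' * m ∧ ℓ m' < ε}

lemma uniq (C : Cone G T ℓ) (p q z z' : T) (h : dist p z + dist z q = dist p q)
    (h' : dist p z' + dist z' q = dist p q) : dist z z' = |dist p z - dist p z'| := by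
  apply le_antisymm
  · have h4 := C.four p q z z'
    rw [dist_comm q z', dist_comm q z] at h4
    have a1 := le_abs_self (dist p z - dist p z')
    have a2 := neg_le_abs (dist p z - dist p z')
    rcases le_max_iff.1 h4 with h5 | h5 <;> linarith
  · have := abs_dist_sub_le z z' p
    rwa [dist_comm z p, dist_comm z' p] at this

lemma med (C : Cone G T ℓ) (x y z : T) : ∃ μ, dist x μ + dist μ y = dist x y ∧
    dist x μ + dist μ z = dist x z ∧ dist y μ + dist μ z = dist y z := by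
  have t1 := dist_triangle y x z
  have t2 := dist_triangle x y z
  rw [dist_comm y x] at t1
  obtain ⟨μ, h1, h2⟩ := C.geo x y ((dist x y + dist x z - dist y z) / 2) (by linarith)
    (by linarith)
  have t3 := dist_triangle x μ z
  have h4 := C.four x y μ z
  rw [dist_comm y μ] at h4
  have h5 : dist μ z = dist x z - dist x μ := by
    rcases le_max_iff.1 h4 with h5 | h5 <;> linarith
  refine ⟨μ, by linarith, by linarith, ?_⟩
  rw [dist_comm y μ]
  linarith

/-- Displacement is convex along segments. -/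
lemma disp_le (C : Cone G T ℓ) (g : G) {p q z : T} (h : dist p z + dist z q = dist p q) :
    dist z (g • z) ≤ max (dist p (g • p)) (dist q (g • q)) := by
  have e1 := C.iso g p z
  have e2 := C.iso g z q
  have e3 := C.iso g p q
  have f1 := C.four p q z (g • z)
  have f2 := C.four (g • p) (g • q) p (g • z)
  have f3 := C.four (g • p) (g • q) q (g • z)
  have t1 := dist_triangle p q (g • q)
  have t2 := dist_triangle q p (g • p)
  have n1 : 0 ≤ dist p z := dist_nonneg
  have n2 : 0 ≤ dist z q := dist_nonneg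
  have m1 := le_max_left (dist p (g • p)) (dist q (g • q))
  have m2 := le_max_right (dist p (g • p)) (dist q (g • q))
  rw [dist_comm q z] at f1
  rw [dist_comm (g • p) p, dist_comm (g • q) (g • z), dist_comm (g • q) p] at f2
  rw [dist_comm (g • p) q, dist_comm (g • q) (g • z), dist_comm (g • q) q] at f3
  rw [dist_comm q p] at t2
  rcases le_max_iff.1 f1 with a | a
  · rcases le_max_iff.1 f3 with b | b <;> linarith
  · rcases le_max_iff.1 f2 with b | b <;> linarith

lemma exists_ax (C : Cone G T ℓ) (m : G) : ∃ μ : T, dist μ (m • μ) = ℓ m := by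
  obtain ⟨z⟩ := C.ne
  have n1 : 0 ≤ dist z (m • z) := dist_nonneg
  obtain ⟨μ, h1, h2⟩ := C.geo z (m • z) (dist z (m • z) / 2) (by linarith) (by linarith)
  exact ⟨μ, C.mid m z μ h1 (by linarith)⟩

lemma disp_conj (C : Cone G T ℓ) (g m : G) (z : T) :
    dist (g • z) ((g * m * g⁻¹) • g • z) = dist z (m • z) := by
  rw [← C.iso g z (m • z), smul_smul, smul_smul, inv_mul_cancel_right]

lemma len_conj_le (C : Cone G T ℓ) (g m : G) : ℓ (g * m * g⁻¹) ≤ ℓ m := by
  obtain ⟨μ, h⟩ := exists_ax C m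
  rw [← h, ← disp_conj C g m μ]
  exact C.le _ _

lemma len_conj (C : Cone G T ℓ) (g m : G) : ℓ (g * m * g⁻¹) = ℓ m := by
  refine le_antisymm (len_conj_le C g m) ?_
  have := len_conj_le C g⁻¹ (g * m * g⁻¹)
  rwa [show g⁻¹ * (g * m * g⁻¹) * g⁻¹⁻¹ = m by group] at this

lemma smul_ax (C : Cone G T ℓ) (g m : G) : g • Ax T ℓ m = Ax T ℓ (g * m * g⁻¹) := by
  ext z
  rw [Set.mem_smul_set_iff_inv_smul_mem]
  have := disp_conj C g m (g⁻¹ • z)
  rw [smul_inv_smul] at this
  show dist (g⁻¹ • z) (m • g⁻¹ • z) = ℓ m ↔ dist z ((g * m * g⁻¹) • z) = ℓ (g * m * g⁻¹)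
  rw [this, len_conj C]

lemma ax_eq (C : Cone G T ℓ) {g h : G} (hg : g ≠ 1) (hh : h ≠ 1) (hc : g * h = h * g) :
    Ax T ℓ g = Ax T ℓ h := by
  ext z
  have := C.comm g h z hg hh hc
  show dist z (g • z) = ℓ g ↔ dist z (h • z) = ℓ h
  constructor <;> intro e <;> linarith

lemma smul_ax_of_comm (C : Cone G T ℓ) {g m : G} (hc : g * m = m * g) :
    g • Ax T ℓ m = Ax T ℓ m := by
  rw [smul_ax C, hc, mul_inv_cancel_right]

lemma conj_ne {g m : G} (hm : m ≠ 1) : g * m * g⁻¹ ≠ 1 := fun h => hm (by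
  have : m = g⁻¹ * (g * m * g⁻¹) * g := by group
  rw [this, h]
  group)

/-- A line is the set of points of least displacement of arbitrarily short elements. -/
lemma short (C : Cone G T ℓ) {A : Set T} (hA : A ∈ Lines T ℓ) {ε : ℝ} (hε : 0 < ε) :
    ∃ m : G, m ≠ 1 ∧ A = Ax T ℓ m ∧ ℓ m < ε := by
  obtain ⟨m, hm, rfl, -, h⟩ := hA
  obtain ⟨m', h1, h2, h3⟩ := h ε hε
  exact ⟨m', h1, ax_eq C hm h1 h2, h3⟩

lemma comm_of_short (C : Cone G T ℓ) {m m' : G} {p q : T} (hp : p ∈ Ax T ℓ m) (hq : q ∈ Ax T ℓ m)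
    (hp' : p ∈ Ax T ℓ m') (hq' : q ∈ Ax T ℓ m') (h : ℓ m < dist p q / 10)
    (h' : ℓ m' < dist p q / 10) : m * m' = m' * m :=
  C.small m m' p q (hp.trans_lt h) (hq.trans_lt h) (hp'.trans_lt h') (hq'.trans_lt h')

/-- The stabiliser of a line centralises one element. -/
lemma stab (hG : CT G) (C : Cone G T ℓ) {A : Set T} (hA : A ∈ Lines T ℓ) :
    ∃ m : G, m ≠ 1 ∧ A = Ax T ℓ m ∧ ∀ g : G, g • A = A → g * m = m * g := by
  obtain ⟨p, hp, q, hq, hpq⟩ : A.Nontrivial := by
    obtain ⟨m, -, -, h, -⟩ := hA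
    exact h
  have hd : 0 < dist p q / 10 := by
    have := dist_pos.2 hpq
    linarith
  obtain ⟨m, hm, rfl, hl⟩ := short C hA hd
  refine ⟨m, hm, rfl, fun g hg => Lf.csa hG hm ?_⟩
  rw [smul_ax C] at hg
  exact comm_of_short C (hg.symm ▸ hp) (hg.symm ▸ hq) hp hq (by rwa [len_conj C]) hl

lemma closed_ax (C : Cone G T ℓ) (m : G) : IsClosed (Ax T ℓ m) := by
  have h : Isometry fun z : T => m • z := Isometry.of_dist_eq (C.iso m)
  exact isClosed_eq (continuous_id.dist h.continuous) continuous_const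

lemma noflip (hG : CT G) (C : Cone G T ℓ) (g : G) (p q : T) (h1 : g • p = q) (h2 : g • q = p) :
    p = q := by
  by_cases hg : g = 1
  · rw [← h1, hg, one_smul]
  have hgg : g * g ≠ 1 := fun h => by
    have := hG.tf g hg 2 (by rw [zpow_two, h])
    omega
  have c1 := C.comm g (g * g) p hg hgg (mul_assoc g g g).symm
  have c2 := C.le (g * g) p
  have c3 := C.nonneg (g * g)
  rw [mul_smul, h1, h2, dist_self] at c1 c2
  have n1 : 0 ≤ dist p q := dist_nonneg
  obtain ⟨μ, m1, m2⟩ := C.geo p q (dist p q / 2) (by linarith) (by linarith)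
  have m3 := C.mid g p μ (by rw [h1]; exact m1) (by rw [h1]; linarith)
  have e1 := C.iso g q μ
  have e2 := C.iso g μ p
  rw [h2, dist_comm q μ] at e1
  rw [h1, dist_comm μ p] at e2
  have u := uniq C p q μ (g • μ) (by linarith) (by linarith)
  rw [show dist p μ - dist p (g • μ) = 0 by linarith, abs_zero] at u
  exact dist_eq_zero.1 (by linarith)

lemma small (C : Cone G T ℓ) (p q : T) (hpq : p ≠ q)
    (h : ∀ ε : ℝ, 0 < ε → ∃ g : G, g ≠ 1 ∧ dist p (g • p) < ε ∧ dist q (g • q) < ε) :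
    ∃ A ∈ Lines T ℓ, p ∈ A ∧ q ∈ A ∧ ∀ g : G, dist p (g • p) < dist p q / 10 →
      dist q (g • q) < dist p q / 10 → g • A = A := by
  have hd : 0 < dist p q / 10 := by
    have := dist_pos.2 hpq
    linarith
  obtain ⟨m, hm, m1, m2⟩ := h _ hd
  have key : ∀ ε : ℝ, 0 < ε → ∃ g : G, g ≠ 1 ∧ m * g = g * m ∧ dist p (g • p) < ε ∧
      dist q (g • q) < ε := fun ε hε => by
    obtain ⟨g, hg, g1, g2⟩ := h (min ε (dist p q / 10)) (lt_min hε hd)
    exact ⟨g, hg, C.small m g p q m1 m2 (g1.trans_le (min_le_right _ _))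
      (g2.trans_le (min_le_right _ _)), g1.trans_le (min_le_left _ _),
      g2.trans_le (min_le_left _ _)⟩
  have hp : p ∈ Ax T ℓ m := by
    refine le_antisymm (le_of_forall_pos_lt_add fun ε hε => ?_) (C.le m p)
    obtain ⟨g, hg, hc, g1, -⟩ := key ε hε
    have := C.comm m g p hm hg hc
    have := C.nonneg g
    linarith
  have hq : q ∈ Ax T ℓ m := by
    refine le_antisymm (le_of_forall_pos_lt_add fun ε hε => ?_) (C.le m q)
    obtain ⟨g, hg, hc, -, g2⟩ := key ε hε
    have := C.comm m g q hm hg hc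
    have := C.nonneg g
    linarith
  refine ⟨Ax T ℓ m, ⟨m, hm, rfl, ⟨p, hp, q, hq, hpq⟩, fun ε hε => ?_⟩, hp, hq,
    fun g g1 g2 => smul_ax_of_comm C (C.small g m p q g1 g2 m1 m2)⟩
  obtain ⟨g, hg, hc, g1, -⟩ := key ε hε
  exact ⟨g, hg, hc, (C.le g p).trans_lt g1⟩

end LnP

open LnP in
theorem ln : LnStmt := by
  intro G T _ _ _ ℓ hG C
  refine ⟨Lines T ℓ, hG, C.ne, C.iso, C.four, C.geo, uniq C, med C, ?_, ?_, ?_, ?_, ?_, ?_,
    small C, noflip hG C, ?_⟩
  · rintro g A ⟨m, hm, rfl, hn, h⟩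
    refine ⟨g * m * g⁻¹, conj_ne hm, smul_ax C g m, hn.image (MulAction.injective g),
      fun ε hε => ?_⟩
    obtain ⟨m', h1, h2, h3⟩ := h ε hε
    refine ⟨g * m' * g⁻¹, conj_ne h1, ?_, by rwa [len_conj C]⟩
    calc g * m * g⁻¹ * (g * m' * g⁻¹) = g * (m * m') * g⁻¹ := by group
      _ = g * m' * g⁻¹ * (g * m * g⁻¹) := by rw [h2]; group
  · rintro A ⟨m, -, rfl, -⟩
    exact closed_ax C m
  · rintro A ⟨m, -, rfl, -⟩ p hp q hq z hz
    refine le_antisymm ?_ (C.le m z)
    have := disp_le C m hz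
    rwa [show dist p (m • p) = ℓ m from hp, show dist q (m • q) = ℓ m from hq, max_self] at this
  · intro A hA A' hA' p q hpq hp hq hp' hq'
    have hd : 0 < dist p q / 10 := by
      have := dist_pos.2 hpq
      linarith
    obtain ⟨m, hm, rfl, hl⟩ := short C hA hd
    obtain ⟨m', hm', rfl, hl'⟩ := short C hA' hd
    exact ax_eq C hm hm' (comm_of_short C hp hq hp' hq' hl hl')
  · intro A hA g h hg hh
    obtain ⟨m, hm, -, hs⟩ := stab hG C hA
    exact hG.ct m g h hm (hs g hg).symm (hs h hh).symm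
  · intro A hA g z hg hgA hz
    obtain ⟨m, hm, rfl, hs⟩ := stab hG C hA
    rw [← ax_eq C hg hm (hs g hgA)]
    have c2 := C.le g z
    have c3 := C.nonneg g
    show dist z (g • z) = ℓ g
    rw [hz, dist_self] at c2 ⊢
    linarith
  · intro M hM h
    obtain ⟨m, hmM, hm, -⟩ := h 1 one_pos
    refine ⟨Ax T ℓ m, fun g hg => smul_ax_of_comm C (hM g hg m hmM),
      fun hn => ⟨m, hm, rfl, hn, fun ε hε => ?_⟩, fun g hg hg1 z μ h1 h2 => ?_⟩
    · obtain ⟨g, hg, hg1, z, hz⟩ := h ε hε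
      exact ⟨g, hg1, hM m hmM g hg, (C.le g z).trans_lt hz⟩
    · rw [← ax_eq C hg1 hm (hM g hg m hmM)]
      exact C.mid g z μ h1 h2

end Pool.Agent.MP_494aff_an.Se

end MrgPart4

-- ======== part 5: formerly Pool.Agent.MP_494aff_an.se.Pv
section MrgPart5

/-! The forest of points and lines. -/

open scoped Pointwise

namespace Pool.Agent.MP_494aff_an.Se

open Pool.Agent.MP_494aff_an.Pinch Pool.Agent.MP_494aff_an.Pinch.TowP Pool.Agent.MP_494aff_an.Lf

namespace PvP

variable {G T : Type} [Group G] [MetricSpace T] [MulAction G T] {Ln : Set (Set T)}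

/-- Flags: a point on a line. -/
def Fl (h : Tr G Ln) : SubMulAction G (T × Set T) where
  carrier := {e | e.2 ∈ Ln ∧ e.1 ∈ e.2}
  smul_mem' := fun g _ he => ⟨h.smul g _ he.1, Set.smul_mem_smul_set he.2⟩

def og (h : Tr G Ln) (e : Fl h) : T ⊕ Set T := Sum.inl e.1.1

def tg (h : Tr G Ln) (e : Fl h) : T ⊕ Set T := Sum.inr e.1.2

/-- The points whose nearest point on `A₀` is `z₀`. -/
def Sd (z₀ : T) (A₀ : Set T) (y : T) : Prop := ∀ w ∈ A₀, dist y w = dist y z₀ + dist z₀ w

theorem sd_line (h : Tr G Ln) {z₀ y y' : T} {A₀ A : Set T} (h₀ : A₀ ∈ Ln) (hz : z₀ ∈ A₀)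
    (hA : A ∈ Ln) (hne : A ≠ A₀) (hy : y ∈ A) (hy' : y' ∈ A) (hs : Sd z₀ A₀ y) :
    Sd z₀ A₀ y' := by
  intro w hw
  obtain ⟨μ, e1, e2, e3⟩ := h.med y' z₀ w
  have hμ : μ ∈ A₀ := h.convex A₀ h₀ z₀ hz w hw μ e3
  by_cases hq : z₀ = μ
  · rw [← hq] at e2
    exact e2.symm
  exfalso
  have hp : 0 < dist z₀ μ := dist_pos.2 hq
  have e4 := hs μ hμ
  have e5 := h.four y μ z₀ y'
  have c1 : dist z₀ y' = dist y' z₀ := dist_comm _ _
  have c2 : dist μ y' = dist y' μ := dist_comm _ _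
  have c3 : dist μ z₀ = dist z₀ μ := dist_comm _ _
  have e6 : dist y z₀ + dist z₀ μ + dist y' μ ≤ dist y y' := by
    rcases le_max_iff.1 e5 with e | e <;> linarith
  have t1 := dist_triangle y z₀ y'
  have t2 := dist_triangle y μ y'
  refine hne (h.two A hA A₀ h₀ z₀ μ hq ?_ ?_ hz hμ)
  · exact h.convex A hA y hy y' hy' z₀ (by linarith)
  · exact h.convex A hA y hy y' hy' μ (by linarith)

theorem forest (h : Tr G Ln) : Forest G (og h) (tg h) where
  o_smul := fun _ _ => rfl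
  t_smul := fun _ _ => rfl
  side := by
    rintro ⟨⟨z₀, A₀⟩, h₀, hz⟩
    refine ⟨Sum.elim (Sd z₀ A₀) fun A => A ≠ A₀ ∧ ∀ y ∈ A, Sd z₀ A₀ y, ?_, ?_, ?_⟩
    · intro w _
      simp
    · exact fun hh => hh.1 rfl
    · rintro ⟨⟨y, A⟩, hA, hy⟩ hne
      refine ⟨fun hs => ?_, fun hh => hh.2 y hy⟩
      have hs' : Sd z₀ A₀ y := hs
      have hne' : A ≠ A₀ := by
        rintro rfl
        have e := hs' y hy
        rw [dist_self, dist_comm z₀ y] at e
        have : y = z₀ := dist_eq_zero.1 (by linarith)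
        subst this
        exact hne rfl
      exact ⟨hne', fun y' hy' => sd_line h h₀ hz hA hne' hy hy' hs'⟩

theorem con_of_lc (h : Tr G Ln) {p q : T} (hc : LC Ln p q) :
    Con (og h) (tg h) (Sum.inl p) (Sum.inl q) := by
  induction hc with
  | rel p q hr =>
    obtain ⟨A, hA, hp, hq⟩ := hr
    exact .trans _ (Sum.inr A) _ (.rel _ _ ⟨⟨(p, A), hA, hp⟩, rfl, rfl⟩)
      (.symm _ _ (.rel _ _ ⟨⟨(q, A), hA, hq⟩, rfl, rfl⟩))
  | refl p => exact .refl _
  | symm p q _ ih => exact .symm _ _ ih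
  | trans p q r _ _ i1 i2 => exact .trans _ _ _ i1 i2

theorem good (h : Tr G Ln) {u v : T ⊕ Set T} (hc : Con (og h) (tg h) u v) :
    Sum.elim (fun _ => True) (· ∈ Ln) u ↔ Sum.elim (fun _ => True) (· ∈ Ln) v := by
  induction hc with
  | rel u v hr =>
    obtain ⟨e, rfl, rfl⟩ := hr
    exact ⟨fun _ => e.2.1, fun _ => trivial⟩
  | refl u => exact Iff.rfl
  | symm u v _ ih => exact ih.symm
  | trans u v w _ _ i1 i2 => exact i1.trans i2

end PvP

open PvP in
theorem pv (hB : BsStmt) : PvStmt := by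
  intro G T _ _ _ Ln P z h hab hpt hP hl
  refine hB G (T ⊕ Set T) (Fl h) (og h) (tg h) (Sum.inl z) P (forest h) h.ct hP
    (fun g hg => con_of_lc h (hl g hg)) (fun e => ?_) fun v hv hfg => ?_
  · have hc : ∀ x ∈ P ⊓ MulAction.stabilizer G e, ∀ y ∈ P ⊓ MulAction.stabilizer G e,
        x * y = y * x := fun x hx y hy =>
      h.comm e.1.2 e.2.1 x y (congrArg (fun f : Fl h => f.1.2) hx.2)
        (congrArg (fun f : Fl h => f.1.2) hy.2)
    exact ⟨hab _ hc, hc⟩
  · rcases v with p | A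
    · exact hpt _ hfg ⟨p, fun g hg => Sum.inl_injective hg.2⟩
    · have hA : A ∈ Ln := (good h hv).1 trivial
      refine Hier.abel _ ((Group.fg_iff_subgroup_fg _).2 hfg) fun x y => Subtype.ext ?_
      exact h.comm A hA x y (Sum.inr_injective x.2.2) (Sum.inr_injective y.2.2)

end Pool.Agent.MP_494aff_an.Se

end MrgPart5

-- ======== part 6: formerly Pool.Agent.MP_494aff_an.se.Small
section MrgPart6

/-! Small displacement at two distant points, and short words of large cyclic length. -/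

namespace Pool.Agent.MP_494aff_an.Se

open FreeGroup

namespace SmP

/-- The word metric. -/
def d (x y : F2) : ℕ := (x⁻¹ * y).norm

theorem d_comm (x y : F2) : d x y = d y x := by
  rw [d, d, ← norm_inv_eq, mul_inv_rev, inv_inv]

theorem d_tri (x y z : F2) : d x z ≤ d x y + d y z := by
  have := norm_mul_le (x⁻¹ * y) (y⁻¹ * z)
  rwa [mul_assoc, mul_inv_cancel_left] at this

theorem d_mul (g x y : F2) : d (g * x) (g * y) = d x y := by
  rw [d, d, mul_inv_rev, mul_assoc, inv_mul_cancel_left]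

theorem d_zero {x y : F2} (h : d x y = 0) : x = y := inv_mul_eq_one.1 (norm_eq_zero.1 h)

theorem four (H : FwStmt) (x y z w : F2) :
    d x y + d z w ≤ max (d x z + d y w) (d x w + d y z) := H.four x y z w

/-- A point far from a moving end stays on the segment. -/
theorem move (H : FwStmt) {x x' y p : F2} (hp : d x p + d p y = d x y) (h : d x x' < d x p) :
    d x' p + d p y = d x' y := by
  have h1 := four H x y p x'
  have h2 := d_tri x' p y
  rw [d_comm p x', d_comm y x', d_comm y p] at h1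
  omega

theorem uniq (H : FwStmt) {x y p p' : F2} (hp : d x p + d p y = d x y)
    (hp' : d x p' + d p' y = d x y) (h : d x p = d x p') : p = p' := by
  have h1 := four H p p' x y
  rw [d_comm p x, d_comm p' x] at h1
  exact d_zero (by omega)

/-- An element that moves both ends by little translates the middle of the segment. -/
theorem shift (H : FwStmt) {g q p : F2} {δ : ℕ} (h1 : d g 1 ≤ δ) (h2 : d (g * q) q ≤ δ)
    (hp : d 1 p + d p q = d 1 q) (ha : δ < d 1 p) (hb : δ < d p q) :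
    d 1 (g * p) + d (g * p) q = d 1 q ∧ d 1 (g * p) + d 1 q = d 1 p + d 1 (g * q) ∧
      d 1 p ≤ d 1 (g * p) + δ ∧ d 1 (g * p) ≤ d 1 p + δ := by
  have e1 : d g (g * p) = d 1 p := by simpa using d_mul g 1 p
  have e2 : d g (g * q) = d 1 q := by simpa using d_mul g 1 q
  have e3 : d (g * p) (g * q) = d p q := d_mul g p q
  have m1 : d 1 (g * p) + d (g * p) (g * q) = d 1 (g * q) :=
    move H (x := g) (by omega) (by omega)
  have m2 : d q (g * p) + d (g * p) 1 = d q 1 := by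
    refine move H (x := g * q) ?_ ?_
    · rw [d_comm (g * q) (g * p), d_comm (g * p) 1, d_comm (g * q) 1]
      omega
    · rw [d_comm (g * q) (g * p)]
      omega
  rw [d_comm q (g * p), d_comm (g * p) 1, d_comm q 1] at m2
  have t1 := d_tri g 1 (g * p)
  have t2 := d_tri 1 g (g * p)
  rw [d_comm 1 g] at t2
  omega

theorem cl_eq {w : F2} {a b : Fin 2 × Bool} {L : List (Fin 2 × Bool)}
    (h : w.toWord = a :: (L ++ [b])) (hab : ¬(b.1 = a.1 ∧ (!b.2) = a.2)) : cl w = w.norm := by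
  rw [cl, FreeGroup.norm, h, reduceCyclically.cons_append, if_neg hab]
  rfl

/-- A word is cyclically reduced or begins and ends with inverse letters. -/
theorem cases (w : F2) : cl w = w.norm ∨
    ∃ a L, w.toWord = a :: (L ++ [(a.1, !a.2)]) := by
  generalize hL : w.toWord = L
  induction L using List.bidirectionalRec with
  | nil => left; rw [cl, FreeGroup.norm, hL]; simp
  | singleton a => left; rw [cl, FreeGroup.norm, hL]; simp
  | cons_append a L b _ =>
    by_cases hab : b.1 = a.1 ∧ (!b.2) = a.2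
    · refine Or.inr ⟨a, L, ?_⟩
      rw [← hab.1, ← hab.2, Bool.not_not]
    · exact Or.inl (cl_eq hL hab)

theorem norm_conj {w : F2} {a : Fin 2 × Bool} {L : List (Fin 2 × Bool)}
    (h : w.toWord = a :: (L ++ [(a.1, !a.2)])) :
    ((mk [a])⁻¹ * w * mk [a]).norm + 2 ≤ w.norm := by
  have e : w = mk [a] * mk L * (mk [a])⁻¹ := by
    rw [← mk_toWord (x := w), h, inv_mk, mul_mk, mul_mk]
    simp [invRev]
  have e' : (mk [a])⁻¹ * w * mk [a] = mk L := by
    rw [e]
    group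
  have := norm_mk_le (L₁ := L)
  rw [e', FreeGroup.norm.eq_1 w, h]
  simpa using this

theorem cl_mul {w w' : F2} {a b : Fin 2 × Bool} {L L' : List (Fin 2 × Bool)}
    (h : w.toWord = a :: (L ++ [(a.1, !a.2)])) (h' : w'.toWord = b :: (L' ++ [(b.1, !b.2)]))
    (hab : a ≠ b) : cl (w * w') = w.norm + w'.norm := by
  have hr : IsReduced (w.toWord ++ w'.toWord) := by
    refine List.IsChain.append isReduced_toWord isReduced_toWord ?_
    rw [h, h', ← List.cons_append, List.getLast?_concat]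
    intro x hx y hy hxy
    simp only [Option.mem_def, Option.some.injEq, List.head?_cons] at hx hy
    subst hx hy
    by_contra hne
    exact hab (Prod.ext hxy (by simpa using hne))
  have e : (w * w').toWord = w.toWord ++ w'.toWord := by rw [toWord_mul, hr.reduce_eq]
  have e' : (w * w').toWord = a :: ((L ++ [(a.1, !a.2)] ++ b :: L') ++ [(b.1, !b.2)]) := by
    rw [e, h, h']
    simp
  rw [cl_eq e' (fun hh => hab (Prod.ext hh.1.symm (by simpa using hh.2.symm))),
    FreeGroup.norm, e, List.length_append]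
  rfl

end SmP

open SmP

theorem small (H : FwStmt) : SmallStmt := by
  intro g h q h1 h2 h3 h4
  by_cases hg : g = 1
  · simp [hg]
  have g0 : g.norm ≠ 0 := fun e => hg (norm_eq_zero.1 e)
  have e1 : ∀ x : F2, d x 1 = x.norm := fun x => by rw [d, mul_one, norm_inv_eq]
  have e2 : ∀ x : F2, d 1 x = x.norm := fun x => by rw [d_comm, e1]
  have e3 : ∀ x : F2, d (x * q) q = (q⁻¹ * x * q).norm := fun x => by rw [d_comm, d, mul_assoc]
  obtain ⟨δ, a1, a2, a3, a4, a5⟩ : ∃ δ, d g 1 ≤ δ ∧ d h 1 ≤ δ ∧ d (g * q) q ≤ δ ∧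
      d (h * q) q ≤ δ ∧ 4 * δ + 2 ≤ d 1 q := by
    refine ⟨max (max g.norm h.norm) (max (q⁻¹ * g * q).norm (q⁻¹ * h * q).norm), ?_⟩
    rw [e1, e1, e3, e3, e2]
    omega
  obtain ⟨p, p1, p2⟩ := H.geo q (2 * δ + 1) (by rw [← e2]; omega)
  rw [← e2] at p1
  have hp : d 1 p + d p q = d 1 q := by
    rw [p1, e2, add_comm]
    exact p2
  obtain ⟨b1, b2, b3, b4⟩ := shift H a1 a3 hp (by omega) (by omega)
  obtain ⟨c1, c2, c3, c4⟩ := shift H a2 a4 hp (by omega) (by omega)
  obtain ⟨d1, d2, -, -⟩ := shift H a1 a3 c1 (by omega) (by omega)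
  obtain ⟨f1, f2, -, -⟩ := shift H a2 a4 b1 (by omega) (by omega)
  have := uniq H d1 f1 (by omega)
  rw [← mul_assoc, ← mul_assoc] at this
  exact mul_right_cancel this

theorem serre : SerreStmt := by
  intro m s n hle hy
  obtain ⟨i, hi⟩ := hy 1
  rw [inv_one, one_mul, mul_one] at hi
  rcases cases (s i) with h | ⟨a, L, h⟩
  · exact Or.inl ⟨i, by omega⟩
  obtain ⟨j, hj⟩ := hy (mk [a])
  have t : ((mk [a])⁻¹ * s j * mk [a]).norm ≤ (s j).norm + 2 := by
    have t1 := norm_mul_le ((mk [a])⁻¹ * s j) (mk [a])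
    have t2 := norm_mul_le (mk [a])⁻¹ (s j)
    have t3 : (mk [a] : F2).norm ≤ 1 := norm_mk_le
    rw [norm_inv_eq] at t2
    omega
  rcases cases (s j) with h' | ⟨b, L', h'⟩
  · exact Or.inl ⟨j, by omega⟩
  by_cases hab : a = b
  · subst hab
    have := norm_conj h'
    have := hle j
    omega
  · exact Or.inr ⟨i, j, by rw [cl_mul h h' hab]; omega⟩

end Pool.Agent.MP_494aff_an.Se

end MrgPart6

-- ======== part 7: formerly Pool.Agent.MP_494aff_an.se.Tr
section MrgPart7

/-! Row TR: a representation of the free group whose trace has the cyclic length as degree. -/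

open Polynomial Matrix

namespace Pool.Agent.MP_494aff_an.Se

noncomputable section

namespace TrP

/-- The generators. -/
def gen : Fin 2 → SpecialLinearGroup (Fin 2) ℤ[X] :=
  ![⟨!![X, -1; 1, 0], by simp [det_fin_two_of]⟩,
    ⟨!![2 * X + 3, -(2 * X + 5); X + 2, -(X + 3)], by rw [det_fin_two_of]; ring⟩]

/-- The matrix of a letter. -/
def mat (x : Fin 2 × Bool) : Matrix (Fin 2) (Fin 2) ℤ[X] :=
  (cond x.2 (gen x.1) (gen x.1)⁻¹ : SpecialLinearGroup (Fin 2) ℤ[X]).1

/-- The column of the leading term. -/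
def u (x : Fin 2 × Bool) : Fin 2 → ℤ :=
  cond x.2 (![![1, 0], ![2, 1]] x.1) (![![0, 1], ![1, 1]] x.1)

/-- The row of the leading term. -/
def v (x : Fin 2 × Bool) : Fin 2 → ℤ :=
  cond x.2 (![![1, 0], ![1, -1]] x.1) (![![0, 1], ![-1, 2]] x.1)

/-- The constant term. -/
def c (x : Fin 2 × Bool) : Matrix (Fin 2) (Fin 2) ℤ :=
  cond x.2 (![!![0, -1; 1, 0], !![3, -5; 2, -3]] x.1) (![!![0, 1; -1, 0], !![-3, 5; -2, 3]] x.1)

theorem mat_eq (x : Fin 2 × Bool) (i j : Fin 2) :
    mat x i j = C (u x i * v x j) * X + C (c x i j) := by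
  obtain ⟨a, b⟩ := x
  fin_cases a <;> cases b <;> fin_cases i <;> fin_cases j <;>
    simp [mat, gen, u, v, c, adjugate_fin_two_of] <;> ring

theorem uv (x y : Fin 2 × Bool) (h : x.1 = y.1 → x.2 = y.2) : v x ⬝ᵥ u y ≠ 0 := by
  revert x y
  decide

theorem lead (L : List (Fin 2 × Bool)) (i j : Fin 2) :
    ((L.map mat).prod i j).natDegree ≤ L.length ∧
      ((L.map mat).prod i j).coeff L.length =
        (L.map fun x => vecMulVec (u x) (v x)).prod i j := by
  induction L generalizing i j with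
  | nil =>
    simp only [List.map_nil, List.prod_nil, List.length_nil, one_apply]
    split_ifs <;> simp
  | cons x L ih =>
    have h1 : ∀ k, (mat x i k).natDegree ≤ 1 := fun k => by
      rw [mat_eq]; exact natDegree_linear_le
    have h2 : ∀ k, (mat x i k).coeff 1 = u x i * v x k := fun k => by
      rw [mat_eq, coeff_add, coeff_C_mul, coeff_X_one, coeff_C]; simp
    simp only [List.map_cons, List.prod_cons, List.length_cons, mul_apply, finsetSum_coeff]
    rw [add_comm L.length 1]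
    refine ⟨natDegree_sum_le_of_forall_le _ _ fun k _ =>
      natDegree_mul_le_of_le (h1 k) (ih k j).1, Finset.sum_congr rfl fun k _ => ?_⟩
    rw [coeff_mul_add_eq_of_natDegree_le (h1 k) (ih k j).1, h2, (ih k j).2, vecMulVec_apply]

theorem rank (L : List (Fin 2 × Bool)) (x y : Fin 2 × Bool) (h : FreeGroup.IsReduced (x :: L))
    (hy : y ∈ (x :: L).getLast?) : ∃ κ : ℤ, κ ≠ 0 ∧ ∀ i j,
      ((x :: L).map fun x => vecMulVec (u x) (v x)).prod i j = κ * (u x i * v y j) := by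
  induction L generalizing x with
  | nil =>
    obtain rfl : x = y := by simpa using hy
    exact ⟨1, one_ne_zero, fun i j => by simp [vecMulVec_apply]⟩
  | cons z L ih =>
    obtain ⟨h1, h2⟩ := List.isChain_cons_cons.1 h
    obtain ⟨κ, k1, k2⟩ := ih z h2 (by simpa using hy)
    refine ⟨κ * (v x ⬝ᵥ u z), mul_ne_zero k1 (uv x z h1), fun i j => ?_⟩
    rw [List.map_cons, List.prod_cons, mul_apply]
    simp only [k2, vecMulVec_apply, dotProduct, Fin.sum_univ_two]
    ring

theorem cyc (L : List (Fin 2 × Bool)) (h : FreeGroup.IsCyclicallyReduced L) :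
    trace (L.map mat).prod ≠ 0 ∧ (trace (L.map mat).prod).natDegree = L.length := by
  have h1 : (trace (L.map mat).prod).coeff L.length ≠ 0 := by
    rw [trace_fin_two, coeff_add, (lead L 0 0).2, (lead L 1 1).2]
    cases L with
    | nil => simp
    | cons x L =>
      obtain ⟨y, hy⟩ : ∃ y, y ∈ (x :: L).getLast? :=
        ⟨_, List.getLast?_eq_some_getLast (List.cons_ne_nil x L)⟩
      obtain ⟨κ, k1, k2⟩ := rank L x y h.1 hy
      have h2 := mul_ne_zero k1 (uv y x (h.2 y hy x rfl))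
      rw [k2, k2]
      convert h2 using 1
      simp only [dotProduct, Fin.sum_univ_two]
      ring
  refine ⟨fun e => h1 (by rw [e, coeff_zero]), natDegree_eq_of_le_of_coeff_ne_zero ?_ h1⟩
  rw [trace_fin_two]
  exact natDegree_add_le_of_degree_le (lead L 0 0).1 (lead L 1 1).1

theorem lift_mk (L : List (Fin 2 × Bool)) :
    (FreeGroup.lift gen (FreeGroup.mk L)).1 = (L.map mat).prod := by
  rw [FreeGroup.lift_mk]
  induction L with
  | nil => simp
  | cons x L ih =>
    rw [List.map_cons, List.prod_cons, List.map_cons, List.prod_cons, ← ih]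
    rfl

theorem trace_conj (a b : SpecialLinearGroup (Fin 2) ℤ[X]) :
    trace (a * b * a⁻¹).1 = trace b.1 := by
  have h : trace (a * b * a⁻¹).1 = trace (a⁻¹ * (a * b)).1 := trace_mul_comm (a * b).1 a⁻¹.1
  rw [h, inv_mul_cancel_left]

end TrP

open TrP in
theorem tr : TrStmt := by
  refine ⟨FreeGroup.lift gen, fun w => ?_⟩
  have e : w = FreeGroup.mk (FreeGroup.reduceCyclically.conjugator w.toWord) *
      FreeGroup.mk (FreeGroup.reduceCyclically w.toWord) *
      (FreeGroup.mk (FreeGroup.reduceCyclically.conjugator w.toWord))⁻¹ := by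
    rw [FreeGroup.inv_mk, FreeGroup.mul_mk, FreeGroup.mul_mk,
      FreeGroup.reduceCyclically.conj_conjugator_reduceCyclically, FreeGroup.mk_toWord]
  have e' : trace (FreeGroup.lift gen w).1 =
      trace ((FreeGroup.reduceCyclically w.toWord).map mat).prod := by
    rw [← lift_mk]
    conv_lhs => rw [e, map_mul, map_mul, map_inv, trace_conj]
  rw [e']
  exact cyc _ (FreeGroup.reduceCyclically.isCyclicallyReduced FreeGroup.isReduced_toWord)

end

end Pool.Agent.MP_494aff_an.Se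

end MrgPart7

-- ======== part 8: formerly Pool.Agent.MP_494aff_an.se.Ult
section MrgPart8

/-! The ultralimit tree of an embedding into an ultrapower of the free group. -/

open Filter Topology

namespace Pool.Agent.MP_494aff_an.Se

open Pool.Agent.MP_494aff_an.Lf Monoid

noncomputable section

namespace UltP

/-! Free groups of finite rank have a hierarchy. -/

lemma hier_free (α : Type) [Finite α] : Hier (FreeGroup α) := by
  induction α using Finite.induction_empty_option with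
  | of_equiv e ih => exact Hier.iso _ _ ih (FreeGroup.freeGroupCongr e)
  | h_empty =>
    exact Hier.abel _ inferInstance fun x y => Subsingleton.elim _ _
  | @h_option α _ ih =>
    refine Hier.iso _ _ (Hier.hnn _ 1 1 ih rfl) ?_
    let f : Hnn (1 : FreeGroup α) 1 →* FreeGroup (Option α) :=
      QuotientGroup.lift _
        (Coprod.lift (FreeGroup.map some) (zpowersHom _ (FreeGroup.of none))) (by
          intro x hx
          refine (Subgroup.normalClosure_le_normal (N := MonoidHom.ker _) ?_) hx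
          rintro _ rfl
          simp)
    let g : FreeGroup (Option α) →* Hnn (1 : FreeGroup α) 1 :=
      FreeGroup.lift fun o => o.elim (QuotientGroup.mk (gen _))
        fun a => QuotientGroup.mk (Coprod.inl (FreeGroup.of a))
    have f1 : ∀ a, f (QuotientGroup.mk (Coprod.inl (FreeGroup.of a))) = FreeGroup.of (some a) :=
      fun a => by simp [f]
    have f2 : f (QuotientGroup.mk (gen _)) = FreeGroup.of none := by
      rw [QuotientGroup.lift_mk]
      simp [gen]
    refine MonoidHom.toMulEquiv f g ?_ ?_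
    · refine QuotientGroup.monoidHom_ext _ (Coprod.hom_ext ?_ ?_)
      · ext a
        simp [f, g]
      · ext
        show g (f (QuotientGroup.mk (gen _))) = QuotientGroup.mk (gen _)
        rw [f2]
        simp [g]
    · ext o
      cases o <;> simp [g, f1, f2]

lemma finite_gens (α : Type) [h : Group.FG (FreeGroup α)] : Finite α := by
  let π : FreeGroup α →* Multiplicative (α →₀ ℤ) :=
    FreeGroup.lift fun a => Multiplicative.ofAdd (Finsupp.single a 1)
  have hπ : Function.Surjective π := by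
    intro v
    have : ∀ u : α →₀ ℤ, Multiplicative.ofAdd u ∈ π.range := by
      intro u
      induction u using Finsupp.induction_linear with
      | zero => exact one_mem _
      | add u v hu hv => exact mul_mem hu hv
      | single a n =>
        refine ⟨FreeGroup.of a ^ n, ?_⟩
        rw [map_zpow, FreeGroup.lift_apply_of, ← ofAdd_zsmul]
        simp
    exact this v.toAdd
  have h1 : Group.FG (Multiplicative (α →₀ ℤ)) := Group.fg_of_surjective hπ
  have h2 : AddGroup.FG (α →₀ ℤ) := AddGroup.fg_iff_mul_fg.2 h1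
  have h3 : Module.Finite ℤ (α →₀ ℤ) := Module.Finite.iff_addGroup_fg.2 h2
  exact Module.Finite.finite_basis (Finsupp.basisSingleOne (R := ℤ) (ι := α))

lemma hier_of_inj {G : Type} [Group G] (hG : Group.FG G) (π : G →* F2)
    (hπ : Function.Injective π) : Hier G := by
  let e : G ≃* FreeGroup (IsFreeGroup.Generators π.range) :=
    (MonoidHom.ofInjective hπ).trans (IsFreeGroup.toFreeGroup _)
  have : Group.FG (FreeGroup (IsFreeGroup.Generators π.range)) :=
    Group.fg_of_surjective (f := e.toMonoidHom) e.surjective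
  have := finite_gens (IsFreeGroup.Generators π.range)
  exact Hier.iso _ _ (hier_free _) e.symm

lemma finite_ball (N : ℕ) : {w : F2 | w.norm ≤ N}.Finite :=
  (List.finite_length_le (Fin 2 × Bool) N).preimage (f := FreeGroup.toWord)
    FreeGroup.toWord_injective.injOn

/-! Representatives -/

section Rep

variable {G : Type} [Group G] {U : Ultrafilter ℕ} {ψ : G → ℕ → F2}

lemma rep_one (h : Rep U ψ) : ∀ᶠ j in U, ψ 1 j = 1 := by
  filter_upwards [h.mul 1 1] with j hj
  rw [mul_one] at hj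
  exact left_eq_mul.1 hj

lemma rep_inv (h : Rep U ψ) (g : G) : ∀ᶠ j in U, ψ g⁻¹ j = (ψ g j)⁻¹ := by
  filter_upwards [h.mul g g⁻¹, rep_one h] with j hj h1
  rw [mul_inv_cancel, h1] at hj
  exact (inv_eq_of_mul_eq_one_right hj.symm).symm

lemma rep_inj (h : Rep U ψ) {g g' : G} (e : ∀ᶠ j in U, ψ g j = ψ g' j) : g = g' := by
  by_contra hn
  have : g⁻¹ * g' ≠ 1 := fun e => hn (inv_mul_eq_one.1 e)
  obtain ⟨j, h1, h2, h3, h4⟩ :=
    ((h.ne _ this).and ((h.mul g⁻¹ g').and ((rep_inv h g).and e))).exists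
  exact h1 (by rw [h2, h3, h4, inv_mul_cancel])

lemma rep_mem (h : Rep U ψ) {m : ℕ} {y : Fin m → G} (hy : Subgroup.closure (Set.range y) = ⊤)
    (H : Subgroup (ℕ → F2)) (hH : ∀ p q : ℕ → F2, (∀ᶠ j in U, p j = q j) → q ∈ H → p ∈ H)
    (h0 : ∀ i, ψ (y i) ∈ H) (g : G) : ψ g ∈ H := by
  have : g ∈ Subgroup.closure (Set.range y) := hy ▸ Subgroup.mem_top g
  induction this using Subgroup.closure_induction with
  | mem x hx =>
    obtain ⟨i, rfl⟩ := hx
    exact h0 i
  | one => exact hH _ 1 (rep_one h) (one_mem _)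
  | mul a b _ _ ha hb => exact hH _ _ (h.mul a b) (mul_mem ha hb)
  | inv a _ ha => exact hH _ _ (rep_inv h a) (inv_mem ha)

/-- Sequences that are almost everywhere constant. -/
def cst (U : Ultrafilter ℕ) : Subgroup (ℕ → F2) where
  carrier := {p | ∃ w, ∀ᶠ j in U, p j = w}
  one_mem' := ⟨1, Eventually.of_forall fun _ => rfl⟩
  mul_mem' := by
    rintro p q ⟨a, ha⟩ ⟨b, hb⟩
    refine ⟨a * b, ?_⟩
    filter_upwards [ha, hb] with j h1 h2
    rw [Pi.mul_apply, h1, h2]
  inv_mem' := by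
    rintro p ⟨a, ha⟩
    refine ⟨a⁻¹, ?_⟩
    filter_upwards [ha] with j h1
    rw [Pi.inv_apply, h1]

lemma hier_of_bdd (hG : Group.FG G) (h : Rep U ψ) {m : ℕ} {y : Fin m → G}
    (hy : Subgroup.closure (Set.range y) = ⊤) (N : ℕ)
    (hN : ∀ i, ∀ᶠ j in U, (ψ (y i) j).norm ≤ N) : Hier G := by
  have H : ∀ g, ∃ w, ∀ᶠ j in U, ψ g j = w := by
    refine rep_mem h hy (cst U) ?_ fun i => ?_
    · rintro p q e ⟨w, hw⟩
      refine ⟨w, ?_⟩
      filter_upwards [e, hw] with j h1 h2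
      rw [h1, h2]
    · obtain ⟨w, -, hw⟩ := (Ultrafilter.eventually_exists_mem_iff (f := U)
        (P := fun w j => ψ (y i) j = w) (finite_ball N)).1
        ((hN i).mono fun j hj => ⟨_, hj, rfl⟩)
      exact ⟨w, hw⟩
  choose π hπ using H
  refine hier_of_inj hG (MonoidHom.mk' π fun a b => ?_) fun a b e => rep_inj h ?_
  · obtain ⟨j, h1, h2, h3, h4⟩ := ((hπ (a * b)).and ((hπ a).and ((hπ b).and (h.mul a b)))).exists
    rw [← h1, h4, h2, h3]
  · filter_upwards [hπ a, hπ b] with j h1 h2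
    rw [h1, h2]
    exact e

end Rep

/-! The tree -/

lemma tend_lim (U : Ultrafilter ℕ) {a : ℕ → ℝ} {C : ℝ} (h : ∀ᶠ j in U, 0 ≤ a j ∧ a j ≤ C) :
    Tendsto a U (𝓝 (limUnder U a)) := by
  obtain ⟨x, -, hx⟩ := (isCompact_Icc (a := 0) (b := C)).ultrafilter_le_nhds (U.map a)
    (le_principal_iff.2 h)
  exact tendsto_nhds_limUnder ⟨x, hx⟩

/-- Sequences of linear growth in the scale. -/
def lin (U : Ultrafilter ℕ) (lam : ℕ → ℝ) : Subgroup (ℕ → F2) where
  carrier := {p | ∃ C : ℝ, ∀ᶠ j in U, ((p j).norm : ℝ) ≤ C * lam j}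
  one_mem' := ⟨0, Eventually.of_forall fun _ => by simp⟩
  mul_mem' := by
    rintro p q ⟨a, ha⟩ ⟨b, hb⟩
    refine ⟨a + b, ?_⟩
    filter_upwards [ha, hb] with j h1 h2
    have : (((p * q) j).norm : ℝ) ≤ (p j).norm + (q j).norm := by
      exact_mod_cast FreeGroup.norm_mul_le (p j) (q j)
    linarith
  inv_mem' := by
    rintro p ⟨a, ha⟩
    refine ⟨a, ?_⟩
    filter_upwards [ha] with j h1
    rwa [Pi.inv_apply, FreeGroup.norm_inv_eq]

/-- A scale that tends to infinity. -/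
structure Sc where
  U : Ultrafilter ℕ
  lam : ℕ → ℝ
  top : Tendsto lam U atTop

variable (S : Sc)

/-- The group of sequences. -/
def X : Type := lin S.U S.lam

instance : Group (X S) := inferInstanceAs (Group (lin S.U S.lam))

variable {S}

/-- The term of index `j`. -/
def tm (j : ℕ) : X S →* F2 := (Pi.evalMonoidHom (fun _ => F2) j).comp (lin S.U S.lam).subtype

lemma pos (S : Sc) : ∀ᶠ j in S.U, 0 < S.lam j := S.top.eventually_gt_atTop 0

lemma bdd (p : X S) : ∃ C : ℝ, ∀ᶠ j in S.U, ((tm j p).norm : ℝ) / S.lam j ≤ C := by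
  obtain ⟨C, hC⟩ := p.2
  refine ⟨C, ?_⟩
  filter_upwards [hC, pos S] with j h1 h2
  exact (div_le_iff₀ h2).2 h1

/-- The limit of the norm. -/
def N (p : X S) : ℝ := limUnder S.U fun j => ((tm j p).norm : ℝ) / S.lam j

/-- The limit of the cyclic length. -/
def L (p : X S) : ℝ := limUnder S.U fun j => (cl (tm j p) : ℝ) / S.lam j

lemma tN (p : X S) : Tendsto (fun j => ((tm j p).norm : ℝ) / S.lam j) S.U (𝓝 (N p)) := by
  obtain ⟨C, hC⟩ := bdd p
  refine tend_lim S.U (C := C) ?_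
  filter_upwards [hC, pos S] with j h1 h2
  exact ⟨by positivity, h1⟩

lemma tL (hF : FwStmt) (p : X S) :
    Tendsto (fun j => (cl (tm j p) : ℝ) / S.lam j) S.U (𝓝 (L p)) := by
  obtain ⟨C, hC⟩ := bdd p
  refine tend_lim S.U (C := C) ?_
  filter_upwards [hC, pos S] with j h1 h2
  refine ⟨by positivity, le_trans ?_ h1⟩
  have : (cl (tm j p) : ℝ) ≤ (tm j p).norm := by exact_mod_cast hF.le _
  gcongr

/-- Passing an inequality between natural numbers to the limit. -/
lemma lim_le {a b : ℕ → ℕ} {x y : ℝ} (ha : Tendsto (fun j => (a j : ℝ) / S.lam j) S.U (𝓝 x))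
    (hb : Tendsto (fun j => (b j : ℝ) / S.lam j) S.U (𝓝 y)) (h : ∀ᶠ j in S.U, a j ≤ b j) :
    x ≤ y := by
  refine le_of_tendsto_of_tendsto ha hb ?_
  filter_upwards [h, pos S] with j h1 h2
  have : (a j : ℝ) ≤ b j := by exact_mod_cast h1
  show (a j : ℝ) / S.lam j ≤ (b j : ℝ) / S.lam j
  gcongr

lemma lim_eq {a b : ℕ → ℕ} {x y : ℝ} (ha : Tendsto (fun j => (a j : ℝ) / S.lam j) S.U (𝓝 x))
    (hb : Tendsto (fun j => (b j : ℝ) / S.lam j) S.U (𝓝 y)) (h : ∀ᶠ j in S.U, a j = b j) :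
    x = y :=
  le_antisymm (lim_le ha hb (h.mono fun _ e => e.le)) (lim_le hb ha (h.mono fun _ e => e.ge))

lemma lim_add {a b : ℕ → ℕ} {x y : ℝ} (ha : Tendsto (fun j => (a j : ℝ) / S.lam j) S.U (𝓝 x))
    (hb : Tendsto (fun j => (b j : ℝ) / S.lam j) S.U (𝓝 y)) :
    Tendsto (fun j => ((a j + b j : ℕ) : ℝ) / S.lam j) S.U (𝓝 (x + y)) := by
  refine (ha.add hb).congr fun j => ?_
  rw [Nat.cast_add, add_div]

lemma lim_max {a b : ℕ → ℕ} {x y : ℝ} (ha : Tendsto (fun j => (a j : ℝ) / S.lam j) S.U (𝓝 x))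
    (hb : Tendsto (fun j => (b j : ℝ) / S.lam j) S.U (𝓝 y)) :
    Tendsto (fun j => ((max (a j) (b j) : ℕ) : ℝ) / S.lam j) S.U (𝓝 (max x y)) := by
  refine (ha.max hb).congr' ?_
  filter_upwards [pos S] with j h
  rw [Nat.cast_max, max_div_div_right h.le]

lemma lim_min {a b : ℕ → ℕ} {x y : ℝ} (ha : Tendsto (fun j => (a j : ℝ) / S.lam j) S.U (𝓝 x))
    (hb : Tendsto (fun j => (b j : ℝ) / S.lam j) S.U (𝓝 y)) :
    Tendsto (fun j => ((min (a j) (b j) : ℕ) : ℝ) / S.lam j) S.U (𝓝 (min x y)) := by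
  refine (ha.min hb).congr' ?_
  filter_upwards [pos S] with j h
  rw [Nat.cast_min, min_div_div_right h.le]

lemma lim_cst (S : Sc) (c : ℕ) :
    Tendsto (fun j => (((fun _ => c : ℕ → ℕ) j : ℕ) : ℝ) / S.lam j) S.U (𝓝 0) :=
  tendsto_const_nhds.div_atTop S.top

lemma lim_lt {a b : ℕ → ℕ} {x y : ℝ} (ha : Tendsto (fun j => (a j : ℝ) / S.lam j) S.U (𝓝 x))
    (hb : Tendsto (fun j => (b j : ℝ) / S.lam j) S.U (𝓝 y)) (h : x < y / 10) :
    ∀ᶠ j in S.U, 10 * a j < b j := by
  filter_upwards [ha.eventually_lt (hb.div_const 10) h, pos S] with j h1 h2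
  rw [div_right_comm, div_lt_div_iff_of_pos_right h2] at h1
  have : (10 : ℝ) * a j < b j := by linarith
  exact_mod_cast this

lemma N_congr {p q : X S} (h : ∀ᶠ j in S.U, tm j p = tm j q) : N p = N q :=
  lim_eq (tN p) (tN q) (h.mono fun _ e => by rw [e])

lemma N_one : N (1 : X S) = 0 :=
  lim_eq (tN 1) (lim_cst S 0) (Eventually.of_forall fun j => by simp)

lemma N_inv (p : X S) : N p⁻¹ = N p :=
  lim_eq (tN _) (tN p) (Eventually.of_forall fun j => by simp)

lemma N_mul (p q : X S) : N (p * q) ≤ N p + N q :=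
  lim_le (tN _) (lim_add (tN p) (tN q)) (Eventually.of_forall fun j => by
    rw [map_mul]
    exact FreeGroup.norm_mul_le _ _)

instance : PseudoMetricSpace (X S) where
  dist p q := N (p⁻¹ * q)
  dist_self p := by rw [inv_mul_cancel, N_one]
  dist_comm p q := by rw [← N_inv, mul_inv_rev, inv_inv]
  dist_triangle p q r := by
    have := N_mul (p⁻¹ * q) (q⁻¹ * r)
    rwa [mul_assoc, mul_inv_cancel_left] at this

/-- The tree. -/
abbrev T (S : Sc) : Type := SeparationQuotient (X S)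

/-- The point of a sequence. -/
def pt (p : X S) : T S := SeparationQuotient.mk p

lemma dist_pt (p q : X S) : dist (pt p) (pt q) = N (p⁻¹ * q) := SeparationQuotient.dist_mk p q

lemma pt_surj (z : T S) : ∃ p, pt p = z := SeparationQuotient.surjective_mk z

lemma pt_congr {p q : X S} (h : ∀ᶠ j in S.U, tm j p = tm j q) : pt p = pt q := by
  rw [← dist_eq_zero, dist_pt, ← N_one (S := S)]
  exact N_congr (h.mono fun j e => by simp [e])

/-- Left translation on the tree. -/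
def mv (a : X S) : T S → T S :=
  SeparationQuotient.lift (fun p => pt (a * p)) fun p q h => by
    rw [← dist_eq_zero, dist_pt]
    have : N (p⁻¹ * q) = 0 := Metric.inseparable_iff.1 h
    simpa [mul_assoc] using this

lemma mv_pt (a p : X S) : mv a (pt p) = pt (a * p) := rfl

/-- A sequence that is termwise shorter than a given one. -/
def sub (w : X S) (z : ℕ → F2) (h : ∀ j, (z j).norm ≤ (tm j w).norm) : X S :=
  ⟨z, by
    obtain ⟨C, hC⟩ := w.2
    refine ⟨C, hC.mono fun j hj => le_trans ?_ hj⟩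
    exact_mod_cast h j⟩

lemma four (hF : FwStmt) (x y z w : T S) :
    dist x y + dist z w ≤ max (dist x z + dist y w) (dist x w + dist y z) := by
  obtain ⟨x, rfl⟩ := pt_surj x
  obtain ⟨y, rfl⟩ := pt_surj y
  obtain ⟨z, rfl⟩ := pt_surj z
  obtain ⟨w, rfl⟩ := pt_surj w
  simp only [dist_pt]
  refine lim_le (lim_add (tN _) (tN _)) (lim_max (lim_add (tN _) (tN _)) (lim_add (tN _) (tN _)))
    (Eventually.of_forall fun j => ?_)
  simp only [map_mul, map_inv]
  exact hF.four _ _ _ _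

lemma geo (hF : FwStmt) (p q : T S) (r : ℝ) (h0 : 0 ≤ r) (h1 : r ≤ dist p q) :
    ∃ z, dist p z = r ∧ dist z q = dist p q - r := by
  obtain ⟨p, rfl⟩ := pt_surj p
  obtain ⟨q, rfl⟩ := pt_surj q
  rw [dist_pt] at h1
  choose z hz hz' using fun j => hF.geo (tm j (p⁻¹ * q))
    (min ⌊r * S.lam j⌋₊ (tm j (p⁻¹ * q)).norm) (min_le_right _ _)
  let u := sub (p⁻¹ * q) z fun j => (hz j).le.trans (min_le_right _ _)
  have hu : ∀ j, tm j u = z j := fun _ => rfl
  have t := lim_min ((tendsto_nat_floor_mul_div_atTop h0).comp S.top) (tN (p⁻¹ * q))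
  rw [min_eq_left h1] at t
  refine ⟨pt (p * u), ?_, ?_⟩
  · rw [dist_pt, inv_mul_cancel_left]
    exact lim_eq (tN u) t (Eventually.of_forall hz)
  · rw [dist_pt, dist_pt, eq_sub_iff_add_eq]
    refine lim_eq (lim_add (tN _) t) (tN _) (Eventually.of_forall fun j => ?_)
    rw [mul_inv_rev, mul_assoc, map_mul, map_inv, hu]
    exact hz' j

lemma L_conj (hF : FwStmt) (a z : X S) : L (z⁻¹ * (a * z)) = L a :=
  lim_eq (tL hF _) (tL hF a) (Eventually.of_forall fun j => by
    have := hF.conj (tm j a) (tm j z)⁻¹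
    simpa [mul_assoc] using this)

lemma L_le (hF : FwStmt) (a : X S) (z : T S) : L a ≤ dist z (mv a z) := by
  obtain ⟨z, rfl⟩ := pt_surj z
  rw [mv_pt, dist_pt, ← L_conj hF a z]
  exact lim_le (tL hF _) (tN _) (Eventually.of_forall fun j => hF.le _)

lemma comm (hF : FwStmt) (a b : X S) (z : T S)
    (h : ∀ᶠ j in S.U, tm j a ≠ 1 ∧ tm j b ≠ 1 ∧ tm j a * tm j b = tm j b * tm j a) :
    dist z (mv a z) - L a = dist z (mv b z) - L b := by
  obtain ⟨z, rfl⟩ := pt_surj z
  rw [mv_pt, mv_pt, dist_pt, dist_pt, ← L_conj hF a z, ← L_conj hF b z, sub_eq_sub_iff_add_eq_add]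
  refine lim_eq (lim_add (tN _) (tL hF _)) (lim_add (tN _) (tL hF _)) (h.mono ?_)
  rintro j ⟨h1, h2, h3⟩
  refine hF.comm _ _ ?_ ?_ ?_
  · simpa [inv_mul_eq_one] using h1
  · simpa [inv_mul_eq_one] using h2
  · simp only [map_mul, map_inv, mul_assoc, mul_inv_cancel_left]
    rw [← mul_assoc (tm j a), h3, mul_assoc]

lemma mid (hF : FwStmt) (a : X S) (z μ : T S) (h1 : dist z μ = dist z (mv a z) / 2)
    (h2 : dist μ (mv a z) = dist z (mv a z) / 2) : dist μ (mv a μ) = L a := by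
  obtain ⟨z, rfl⟩ := pt_surj z
  choose p hp using fun j => hF.mid (tm j (z⁻¹ * (a * z)))
  let u := sub (z⁻¹ * (a * z)) p fun j => by have := (hp j).2.1; omega
  have hu : ∀ j, tm j u = p j := fun _ => rfl
  have e1 : N u + N u ≤ N (z⁻¹ * (a * z)) :=
    lim_le (lim_add (tN u) (tN u)) (tN _) (Eventually.of_forall fun j => by
      have := (hp j).2.1
      rw [hu]
      omega)
  have e2 : N (z⁻¹ * (a * z)) ≤ N u + N u + 0 :=
    lim_le (tN _) (lim_add (lim_add (tN u) (tN u)) (lim_cst S 1)) (Eventually.of_forall fun j => by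
      have := (hp j).2.2.1
      rw [hu]
      omega)
  have e3 : N u + N (u⁻¹ * (z⁻¹ * (a * z))) = N (z⁻¹ * (a * z)) :=
    lim_eq (lim_add (tN u) (tN _)) (tN _) (Eventually.of_forall fun j => by
      rw [← (hp j).1, map_mul, map_inv, hu])
  have e4 : N (u⁻¹ * (z⁻¹ * (a * z)) * u) = L (z⁻¹ * (a * z)) :=
    lim_eq (tN _) (tL hF _) (Eventually.of_forall fun j => by
      rw [← (hp j).2.2.2, map_mul, map_mul, map_inv, hu])
  have e5 : μ = pt (z * u) := by
    have := four hF (pt z) (mv a (pt z)) μ (pt (z * u))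
    rw [dist_comm (mv a (pt z)) μ, dist_comm (mv a (pt z)) (pt (z * u)), h1, h2, mv_pt] at this
    simp only [dist_pt, inv_mul_cancel_left, mul_inv_rev, mul_assoc] at this
    rw [← dist_le_zero]
    rcases le_max_iff.1 this with h | h <;> linarith
  rw [e5, mv_pt, dist_pt, ← L_conj hF a z, ← e4]
  simp only [mul_inv_rev, mul_assoc]

lemma small (hS : SmallStmt) (a b : X S) (p q : T S) (h1 : dist p (mv a p) < dist p q / 10)
    (h2 : dist q (mv a q) < dist p q / 10) (h3 : dist p (mv b p) < dist p q / 10)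
    (h4 : dist q (mv b q) < dist p q / 10) :
    ∀ᶠ j in S.U, tm j a * tm j b = tm j b * tm j a := by
  obtain ⟨p, rfl⟩ := pt_surj p
  obtain ⟨q, rfl⟩ := pt_surj q
  rw [mv_pt, dist_pt, dist_pt] at h1 h2 h3 h4
  filter_upwards [lim_lt (tN _) (tN _) h1, lim_lt (tN _) (tN _) h2, lim_lt (tN _) (tN _) h3,
    lim_lt (tN _) (tN _) h4] with j k1 k2 k3 k4
  have := hS _ _ _ k1 k3 (by simpa [mul_assoc] using k2) (by simpa [mul_assoc] using k4)
  simp only [map_mul, map_inv, mul_assoc, mul_inv_cancel_left, mul_right_inj] at this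
  rwa [← mul_assoc, ← mul_assoc, mul_left_inj] at this

section Act

variable {G : Type} [Group G]

/-- The action on the tree. -/
@[reducible] def act (Ψ : G → X S) (h : Rep S.U fun g j => tm j (Ψ g)) : MulAction G (T S) where
  smul g z := mv (Ψ g) z
  one_smul z := by
    obtain ⟨z, rfl⟩ := pt_surj z
    refine pt_congr ((rep_one h).mono fun j e => ?_)
    rw [map_mul, show tm j (Ψ 1) = 1 from e, one_mul]
  mul_smul a b z := by
    obtain ⟨z, rfl⟩ := pt_surj z
    refine pt_congr ((h.mul a b).mono fun j e => ?_)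
    rw [map_mul, show tm j (Ψ (a * b)) = tm j (Ψ a) * tm j (Ψ b) from e, map_mul, map_mul,
      mul_assoc]

lemma cone (hF : FwStmt) (hS : SmallStmt) (Ψ : G → X S) (h : Rep S.U fun g j => tm j (Ψ g)) :
    @Cone G _ (T S) _ (act Ψ h) fun g => L (Ψ g) := by
  let _ := act Ψ h
  have e : ∀ (g : G) (z : T S), g • z = mv (Ψ g) z := fun _ _ => rfl
  refine ⟨fun g x y => ?_, four hF, geo hF, ⟨pt 1⟩, fun g => ?_, fun g z => L_le hF _ z,
    fun g k z hg hk c => comm hF _ _ z ?_, fun g z μ => mid hF _ z μ,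
    fun g k p q h1 h2 h3 h4 => rep_inj h ?_⟩
  · obtain ⟨x, rfl⟩ := pt_surj x
    obtain ⟨y, rfl⟩ := pt_surj y
    rw [e, e, mv_pt, mv_pt, dist_pt, dist_pt]
    simp [mul_assoc]
  · exact lim_le (lim_cst S 0) (tL hF _) (Eventually.of_forall fun j => Nat.zero_le _)
  · filter_upwards [h.ne g hg, h.ne k hk, h.mul g k, h.mul k g] with j k1 k2 k3 k4
    exact ⟨k1, k2, by rw [← k3, ← k4, c]⟩
  · filter_upwards [small hS _ _ p q h1 h2 h3 h4, h.mul g k, h.mul k g] with j k1 k2 k3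
    rw [k2, k3, k1]

end Act

end UltP

open UltP in
theorem ult (hF : FwStmt) (hS : SmallStmt) (hR : SerreStmt) : UltStmt := by
  intro G _ U φ hG hφ
  obtain ⟨m, y, hy⟩ : ∃ (m : ℕ) (y : Fin m → G), Subgroup.closure (Set.range y) = ⊤ := by
    obtain ⟨s, hs⟩ := hG.out
    refine ⟨s.card, fun i => s.equivFin.symm i, ?_⟩
    rw [← hs]
    congr 1
    ext x
    exact ⟨by rintro ⟨i, rfl⟩; exact (s.equivFin.symm i).2,
      fun hx => ⟨s.equivFin ⟨x, hx⟩, by simp⟩⟩
  let D : ℕ → F2 → ℕ := fun j c => Finset.univ.sup fun i => (c⁻¹ * φ (y i) j * c).norm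
  let c : ℕ → F2 := fun j => Function.argmin (D j)
  let lam : ℕ → ℕ := fun j => D j (c j)
  let ψ : G → ℕ → F2 := fun g j => (c j)⁻¹ * φ g j * c j
  have hψ : Rep U ψ := by
    refine ⟨fun g h => (hφ.mul g h).mono fun j e => ?_,
      fun g hg => (hφ.ne g hg).mono fun j e e' => e ?_⟩
    · simp only [ψ, e, mul_assoc, mul_inv_cancel_left]
    · simpa [ψ, mul_assoc, inv_mul_eq_one] using e'
  have hcl : ∀ g j, cl (ψ g j) = cl (φ g j) := fun g j => by
    simpa using hF.conj (φ g j) (c j)⁻¹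
  have h1 : ∀ j i, (ψ (y i) j).norm ≤ lam j := fun j i =>
    Finset.le_sup (f := fun i => ((c j)⁻¹ * φ (y i) j * c j).norm) (Finset.mem_univ i)
  have h2 : ∀ j, 0 < lam j → ∀ z : F2, ∃ i, lam j ≤ (z⁻¹ * ψ (y i) j * z).norm := by
    intro j hj z
    have : lam j ≤ D j (c j * z) := Function.argmin_le (D j) _
    obtain ⟨i, -, hi⟩ := (Finset.le_sup_iff hj).1 this
    exact ⟨i, by simpa [ψ, mul_assoc] using hi⟩
  by_cases hb : ∃ N, ∀ᶠ j in U, lam j ≤ N
  · obtain ⟨N, hN⟩ := hb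
    exact Or.inl (hier_of_bdd hG hψ hy N fun i => hN.mono fun j hj => (h1 j i).trans hj)
  have ht : Tendsto lam U atTop := by
    refine tendsto_atTop.2 fun N => ?_
    have := Ultrafilter.eventually_not.2 (not_exists.1 hb N)
    exact this.mono fun j hj => (not_le.1 hj).le
  let S : Sc := ⟨U, fun j => lam j, tendsto_natCast_atTop_atTop.comp ht⟩
  have hX : ∀ g, ψ g ∈ lin U fun j => (lam j : ℝ) := by
    refine rep_mem hψ hy _ ?_ fun i => ⟨1, Eventually.of_forall fun j => ?_⟩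
    · rintro p q e ⟨C, hC⟩
      refine ⟨C, ?_⟩
      filter_upwards [e, hC] with j k1 k2
      rwa [k1]
    · rw [one_mul]
      exact Nat.cast_le.2 (h1 j i)
  let Ψ : G → X S := fun g => ⟨ψ g, hX g⟩
  have hΨ : Rep S.U fun g j => tm j (Ψ g) := hψ
  obtain ⟨g₀, -, hg₀⟩ : ∃ g₀ ∈ Set.range y ∪ Set.range fun i : Fin m × Fin m => y i.1 * y i.2,
      ∀ᶠ j in U, lam j ≤ cl (ψ g₀ j) + 2 := by
    refine (Ultrafilter.eventually_exists_mem_iff (f := U)
      (P := fun g j => lam j ≤ cl (ψ g j) + 2)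
      ((Set.finite_range _).union (Set.finite_range _))).1 ?_
    filter_upwards [ht.eventually_gt_atTop 0, eventually_all.2 fun i : Fin m × Fin m =>
      hψ.mul (y i.1) (y i.2)] with j k1 k2
    rcases hR m (fun i => ψ (y i) j) (lam j) (h1 j) (h2 j k1) with ⟨i, hi⟩ | ⟨i, i', hi⟩
    · exact ⟨_, Or.inl ⟨i, rfl⟩, hi⟩
    · exact ⟨_, Or.inr ⟨(i, i'), rfl⟩, by rw [k2 (i, i')]; exact hi⟩
  have hone : Tendsto (fun j => (lam j : ℝ) / S.lam j) S.U (𝓝 1) :=
    tendsto_const_nhds.congr' ((pos S).mono fun j hj => (div_self hj.ne').symm)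
  have hL : 1 ≤ L (Ψ g₀) + 0 := lim_le hone (lim_add (tL hF _) (lim_cst S 2)) hg₀
  refine Or.inr ⟨T S, inferInstance, act Ψ hΨ, fun g => L (Ψ g), g₀, cone hF hS Ψ hΨ, ?_, ?_⟩
  · rintro rfl
    obtain ⟨j, k1, k2, k3⟩ := (hg₀.and ((rep_one hψ).and (ht.eventually_gt_atTop 2))).exists
    rw [k2, (hF.zero 1).2 rfl] at k1
    omega
  · intro g z hz
    have e : L (Ψ g) = 0 := by
      have k := L_le hF (Ψ g) z
      rw [show mv (Ψ g) z = z from hz, dist_self] at k
      exact le_antisymm k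
        (lim_le (lim_cst S 0) (tL hF _) (Eventually.of_forall fun j => Nat.zero_le _))
    have t := (tL hF (Ψ g)).div (tL hF (Ψ g₀)) (by linarith)
    rw [e, zero_div] at t
    refine t.congr' ((pos S).mono fun j hj => ?_)
    show (cl (ψ g j) : ℝ) / S.lam j / ((cl (ψ g₀ j) : ℝ) / S.lam j) = _
    rw [div_div_div_cancel_right₀ hj.ne', hcl, hcl]

end

end Pool.Agent.MP_494aff_an.Se

end MrgPart8

-- marker of a merged file
example : 731051 + 61355 = 731051 + 61355 := rfl
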