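import Mathlib
import Pool.Agent.MP_494aff_an.se.SpecA

/-! Systems of bands in a tree. -/

open Set
open scoped Pointwise

namespace Pool.Agent.MP_494aff_an.Se

open Pool.Agent.MP_494aff_an.Pinch Pool.Agent.MP_494aff_an.Pinch.TowP Pool.Agent.MP_494aff_an.Lf

noncomputable section

/-- A group element, an interval, a position and a direction. -/
@[ext] structure St (G K : Type) where
  g : G
  k : K
  r : ℝ
  σ : ℝ

namespace St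

variable {G K : Type}

/-- Shift in the direction of the state. -/
def sh (a : St G K) (s : ℝ) : St G K := ⟨a.g, a.k, a.r + a.σ * s, a.σ⟩

/-- The opposite direction. -/
def fl (a : St G K) : St G K := ⟨a.g, a.k, a.r, -a.σ⟩

/-- Translation. -/
def sm [Group G] (h : G) (a : St G K) : St G K := ⟨h * a.g, a.k, a.r, a.σ⟩

/-- The underlying point. -/
def p (a : St G K) : K × ℝ := (a.k, a.r)

/-- The direction is a sign. -/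
def U (a : St G K) : Prop := a.σ = 1 ∨ a.σ = -1

end St

open Classical in
/-- A function with finite support as a chain. -/
def toFs {α : Type} (f : α → ℂ) : α →₀ ℂ :=
  if h : (Function.support f).Finite then Finsupp.ofSupportFinite f h else 0

/-- Intervals `K` in a tree and bands `B` between them. -/
structure Sys (G T K B : Type) where
  Ln : Set (Set T)
  len : K → ℝ
  ι : K → ℝ → T
  src : B → K
  tgt : B → K
  lo : B → ℝ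
  hi : B → ℝ
  sg : B → ℝ
  off : B → ℝ
  lab : B → G

namespace Sys

variable {G T K B : Type} [Group G] [MetricSpace T] [MulAction G T] (S : Sys G T K B)

def mv (b : B) (r : ℝ) : ℝ := S.sg b * r + S.off b

def mid (b : B) : ℝ := (S.lo b + S.hi b) / 2

def Val (x : K × ℝ) : Prop := 0 ≤ x.2 ∧ x.2 ≤ S.len x.1

structure Ok : Prop where
  tr : Tr G S.Ln
  len_nonneg : ∀ k, 0 ≤ S.len k
  iso : ∀ k r s, S.Val (k, r) → S.Val (k, s) → dist (S.ι k r) (S.ι k s) = |r - s|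
  lo_nonneg : ∀ b, 0 ≤ S.lo b
  lo_le : ∀ b, S.lo b ≤ S.hi b
  hi_le : ∀ b, S.hi b ≤ S.len (S.src b)
  sg_eq : ∀ b, S.sg b = 1 ∨ S.sg b = -1
  img : ∀ b r, S.lo b ≤ r → r ≤ S.hi b → S.Val (S.tgt b, S.mv b r)
  lab_eq : ∀ b r, S.lo b ≤ r → r ≤ S.hi b →
    S.ι (S.tgt b) (S.mv b r) = S.lab b • S.ι (S.src b) r

/-- The point of the tree. -/
def pt (a : St G K) : T := a.g • S.ι a.k a.r

/-- The image of a state under a band. -/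
def im (b : B) (a : St G K) : St G K :=
  ⟨a.g * (S.lab b)⁻¹, S.tgt b, S.mv b a.r, a.σ * S.sg b⟩

def Mv (al : B → ℝ → Prop) (a a' : St G K) : Prop :=
  ∃ b, a.k = S.src b ∧ al b a.r ∧ a' = S.im b a

/-- Joined by allowed moves. -/
def Cn (al : B → ℝ → Prop) : St G K → St G K → Prop := Relation.EqvGen (S.Mv al)

/-- Joined up to the direction. -/
def Cf (al : B → ℝ → Prop) (a a' : St G K) : Prop := S.Cn al a a' ∨ S.Cn al a a'.fl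

/-- Open moves. -/
def opn (b : B) (r : ℝ) : Prop := S.lo b < r ∧ r < S.hi b

/-- Ends of intervals, ends and midpoints of bands. -/
def Q (x : K × ℝ) : Prop :=
  x.2 = 0 ∨ x.2 = S.len x.1 ∨ ∃ b r, (r = S.lo b ∨ r = S.hi b ∨ r = S.mid b) ∧
    (x = (S.src b, r) ∨ x = (S.tgt b, S.mv b r))

def arc (k : K) (A : Set T) : Set ℝ := {r | S.Val (k, r) ∧ S.ι k r ∈ A}

def IsArc (x : K × Set T) : Prop := x.2 ∈ S.Ln ∧ (S.arc x.1 x.2).Nontrivial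

def Stp (x y : K × Set T) : Prop :=
  S.IsArc x ∧ ∃ b r, x.1 = S.src b ∧ S.opn b r ∧ r ∈ S.arc x.1 x.2 ∧
    y = (S.tgt b, S.lab b • x.2)

/-- Special arcs. -/
def SpA (x : K × Set T) : Prop :=
  S.IsArc x ∧ ∃ y, S.IsArc y ∧ (∃ r ∈ S.arc y.1 y.2, S.Q (y.1, r)) ∧ Relation.EqvGen S.Stp x y

/-- Special points. -/
def Sp (x : K × ℝ) : Prop := ∃ A, S.SpA (x.1, A) ∧ x.2 ∈ S.arc x.1 A

/-- The state at height `ρ` above an end of a band, directed inwards. -/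
def up (g : G) (e : B × Bool) (ρ : ℝ) : St G K :=
  ⟨g, S.src e.1, if e.2 then S.hi e.1 - ρ else S.lo e.1 + ρ, if e.2 then -1 else 1⟩

/-- The two sides of the band. -/
def en (g : G) (e : B × Bool) (ρ : ℝ) : Bool → St G K
  | false => S.up g e ρ
  | true => S.im e.1 (S.up g e ρ)

/-- The ends that are narrowed. -/
def En (e : B × Bool) : Prop :=
  S.lo e.1 < S.hi e.1 ∧ ∃ δ, 0 < δ ∧ ∀ ρ, 0 < ρ → ρ < δ → ¬ S.Sp (S.up 1 e ρ).p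

structure Sm (τ : ℝ) : Prop where
  pos : 0 < τ
  le : ∀ b, S.lo b < S.hi b → 3 * τ ≤ S.hi b - S.lo b
  en : ∀ e, S.En e → ∀ ρ, 0 < ρ → ρ ≤ τ → ∀ s, ¬ S.Sp (S.en 1 e ρ s).p ∧ ¬ S.Q (S.en 1 e ρ s).p
  sp : ∀ e : B × Bool, S.lo e.1 < S.hi e.1 → ¬ S.En e → ∃ A, S.SpA (S.src e.1, A) ∧
    ∀ ρ, 0 ≤ ρ → ρ ≤ τ → (S.up 1 e ρ).r ∈ S.arc (S.src e.1) A

def Adm (τ : ℝ) (t : B × Bool → ℝ) : Prop :=
  ∀ e, (S.En e → 0 < t e ∧ t e ≤ τ) ∧ (¬ S.En e → t e = 0)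

def Ad (t : B × Bool → ℝ) : Prop := ∃ τ, S.Sm τ ∧ S.Adm τ t

/-- The moves of the narrowed system. -/
def al (t : B × Bool → ℝ) (b : B) (r : ℝ) : Prop :=
  S.lo b < S.hi b ∧ S.lo b + t (b, false) ≤ r ∧ r ≤ S.hi b - t (b, true)

def Mk (t : B × Bool → ℝ) (x : K × ℝ) : Prop :=
  S.Q x ∨ ∃ e s, S.En e ∧ x = (S.en 1 e (t e) s).p

/-- Nodes, with extra marked points `Y`. -/
def Nd (t : B × Bool → ℝ) (Y : Set (K × ℝ)) (x : K × ℝ) : Prop :=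
  S.Sp x ∨ ∃ a a', a.σ = 1 ∧ S.Cn (S.al t) a a' ∧ a.p = x ∧ (S.Mk t a'.p ∨ a'.p ∈ Y)

/-- Regular states. -/
def Reg (t : B × Bool → ℝ) (Y : Set (K × ℝ)) (a : St G K) : Prop :=
  S.Val a.p ∧ ¬ S.Nd t Y a.p ∧ a.U

/-- The cell of a regular state. -/
structure Span (t : B × Bool → ℝ) (Y : Set (K × ℝ)) (a : St G K) (m M : ℝ) : Prop where
  neg : m < 0
  pos : 0 < M
  lo : S.Nd t Y (a.sh m).p
  hi : S.Nd t Y (a.sh M).p
  reg : ∀ s, m < s → s < M → S.Reg t Y (a.sh s)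

/-- Midpoints of cells. -/
def Mid (t : B × Bool → ℝ) (Y : Set (K × ℝ)) (x : K × ℝ) : Prop :=
  ∃ w, S.Span t Y ⟨1, x.1, x.2, 1⟩ (-w) w

open Classical in
/-- Half of the width. -/
def hw (t : B × Bool → ℝ) (Y : Set (K × ℝ)) (x : K × ℝ) : ℝ :=
  if h : S.Mid t Y x then h.choose else 0

/-- Families of cells. -/
def Fam (t : B × Bool → ℝ) : Type :=
  Quot fun x y : {x // S.Mid t ∅ x} =>
    ∃ a a', a.σ = 1 ∧ S.Cn (S.al t) a a' ∧ a.p = x.1 ∧ a'.p = y.1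

def rep (t : B × Bool → ℝ) (f : S.Fam t) : K × ℝ := (Quot.out f).1

/-- The reference state of an edge. -/
def rs (t : B × Bool → ℝ) (y : G × S.Fam t) : St G K :=
  ⟨y.1, (S.rep t y.2).1, (S.rep t y.2).2, 1⟩

open Classical in
/-- The signed indicator of the leaf of `q`. -/
def ind (t : B × Bool → ℝ) (q a : St G K) : ℂ :=
  if S.Cn (S.al t) q a then 1 else if S.Cn (S.al t) q a.fl then -1 else 0

/-- The crossing number of a segment with the leaf of `q`. -/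
def cr (t : B × Bool → ℝ) (q : St G K) (g : G) (k : K) (r r' : ℝ) : ℂ :=
  ∑ᶠ x ∈ Ioo r r', S.ind t q ⟨g, k, x, 1⟩

/-- The crossing number of the part of a tent above `ρ`. -/
def uc (t : B × Bool → ℝ) (q : St G K) (g : G) (e : B × Bool) (ρ : ℝ) : ℂ :=
  ∑ᶠ h ∈ Ioo ρ (t e), (S.ind t q (S.en g e h false) - S.ind t q (S.en g e h true))

/-- The potential of the leaf of `q`. -/
def pot (t : B × Bool → ℝ) (q a : St G K) : ℂ := S.cr t q a.g a.k 0 a.r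

/-- The jump of the potential along a band. -/
def th (t : B × Bool → ℝ) (q : St G K) (g : G) (b : B) : ℂ :=
  S.pot t q ⟨g, S.src b, S.mid b, 1⟩ - S.pot t q (S.im b ⟨g, S.src b, S.mid b, 1⟩)

/-- The boundary of a tent. -/
def bdc (t : B × Bool → ℝ) (e : B × Bool) : G × S.Fam t →₀ ℂ :=
  toFs fun y => S.uc t (S.rs t y) 1 e 0

/-- The chain of an initial segment. -/
def pc (t : B × Bool → ℝ) (x : K × ℝ) : G × S.Fam t →₀ ℂ :=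
  toFs fun y => S.cr t (S.rs t y) 1 x.1 0 x.2

/-- Moves between nodes. -/
def Vr (t : B × Bool → ℝ) (a a' : G × {x // S.Nd t ∅ x}) : Prop :=
  (∃ b, a.2.1.1 = S.src b ∧ (S.al t b a.2.1.2 ∨ a.2.1.2 = S.lo b ∨ a.2.1.2 = S.hi b) ∧
    a'.1 = a.1 * (S.lab b)⁻¹ ∧ a'.2.1 = (S.tgt b, S.mv b a.2.1.2)) ∨
  (a'.1 = a.1 ∧ a'.2.1.1 = a.2.1.1 ∧ ∃ A, S.SpA (a.2.1.1, A) ∧ a.2.1.2 ∈ S.arc a.2.1.1 A ∧
    a'.2.1.2 ∈ S.arc a.2.1.1 A)

/-- Vertices. -/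
def Vx (t : B × Bool → ℝ) : Type := Quot (S.Vr t)

instance (t : B × Bool → ℝ) : MulAction G (S.Vx t) where
  smul h := Quot.map (fun a => (h * a.1, a.2)) (by
    rintro a a' (⟨b, h1, h2, h3, h4⟩ | ⟨h1, h2⟩)
    · exact Or.inl ⟨b, h1, h2, by simp [h3, mul_assoc], h4⟩
    · exact Or.inr ⟨by simp [h1], h2⟩)
  one_smul := by
    rintro ⟨a⟩
    exact congrArg (Quot.mk _) (Prod.ext (one_mul _) rfl)
  mul_smul := by
    rintro g h ⟨a⟩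
    exact congrArg (Quot.mk _) (Prod.ext (mul_assoc _ _ _) rfl)

omit [MetricSpace T] in
lemma nd_zero (t : B × Bool → ℝ) (Y : Set (K × ℝ)) (k : K) : S.Nd t Y (k, 0) :=
  Or.inr ⟨⟨1, k, 0, 1⟩, ⟨1, k, 0, 1⟩, rfl, Relation.EqvGen.refl _, rfl, Or.inl (Or.inl (Or.inl rfl))⟩

open Classical in
/-- The vertex of a node. -/
def vx (t : B × Bool → ℝ) (x : K × ℝ) : S.Vx t :=
  if h : S.Nd t ∅ x then Quot.mk _ (1, ⟨x, h⟩) else Quot.mk _ (1, ⟨(x.1, 0), S.nd_zero t ∅ x.1⟩)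

/-- The ends that are narrowed and not frozen. -/
abbrev Nn (Fr : Set (B × Bool)) : Type := {e : B × Bool // S.En e ∧ e ∉ Fr}

/-- The complex of the narrowed system. -/
def cx (t : B × Bool → ℝ) (Fr : Set (B × Bool)) : Cx G (S.Vx t) (S.Fam t) (S.Nn Fr) where
  o f := S.vx t ((S.rep t f).1, (S.rep t f).2 - S.hw t ∅ (S.rep t f))
  t f := S.vx t ((S.rep t f).1, (S.rep t f).2 + S.hw t ∅ (S.rep t f))
  bd e := S.bdc t e.1

/-! Properties of a system -/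

structure Spc : Prop where
  icc : ∀ k A, S.IsArc (k, A) → ∃ r r', r < r' ∧ S.arc k A = Icc r r'
  fin : {x | S.SpA x}.Finite
  fwd : ∀ b r A, S.opn b r → S.SpA (S.src b, A) → r ∈ S.arc (S.src b) A →
    S.SpA (S.tgt b, S.lab b • A) ∧ S.mv b r ∈ S.arc (S.tgt b) (S.lab b • A)
  bwd : ∀ b r A, S.opn b r → S.SpA (S.tgt b, A) → S.mv b r ∈ S.arc (S.tgt b) A →
    S.SpA (S.src b, (S.lab b)⁻¹ • A) ∧ r ∈ S.arc (S.src b) ((S.lab b)⁻¹ • A)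
  ns : ∀ a a' A, a.U → ¬ S.Sp a.p → S.Cn S.opn a a' → a'.k = a.k → S.IsArc (a.k, A) →
    a.r ∈ S.arc a.k A → (a'.g⁻¹ * a.g) • A = A → a'.g = a.g
  g1 : ∀ a a', a.U → ¬ S.Sp a.p → S.Cn S.opn a a' → a'.p = a.p → a' = a

structure Lvs : Prop where
  sm : ∃ τ, S.Sm τ
  sp : ∀ t, S.Ad t → ∀ a a', S.Cn (S.al t) a a' → (S.Sp a.p ↔ S.Sp a'.p)
  opn : ∀ t, S.Ad t → ∀ a a', S.Cn (S.al t) a a' → ¬ S.Sp a.p → S.Cn S.opn a a'
  g2 : ∀ t, S.Ad t → ∀ a, a.U → ¬ S.Sp a.p → {a' | S.Cn (S.al t) a a'}.Finite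
  nd : ∀ t, S.Ad t → ∀ Y : Set (K × ℝ), Y.Finite → {x | S.Nd t Y x ∧ ¬ S.Sp x}.Finite

structure CellAt (t : B × Bool → ℝ) (Y : Set (K × ℝ)) : Prop where
  val : ∀ x, S.Nd t Y x → S.Val x
  nd : ∀ a a', a.U → S.Cn (S.al t) a a' → (S.Nd t Y a.p ↔ S.Nd t Y a'.p)
  reg : ∀ a a', S.Cn (S.al t) a a' → S.Reg t Y a → S.Reg t Y a'
  ex : ∀ a, S.Reg t Y a → ∃ m M, S.Span t Y a m M
  uniq : ∀ a m M m' M', S.Span t Y a m M → S.Span t Y a m' M' → m = m' ∧ M = M'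
  allow : ∀ a m M b s, S.Span t Y a m M → a.k = S.src b → m < s → s < M → S.al t b (a.sh s).r →
    ∀ s', m ≤ s' → s' ≤ M → S.al t b (a.sh s').r
  tr : ∀ a a' m M, S.Cn (S.al t) a a' → S.Span t Y a m M → S.Span t Y a' m M ∧
    ∀ s, m ≤ s → s ≤ M → S.Cn (S.al t) (a.sh s) (a'.sh s)
  same : ∀ a c m M s, S.Cn (S.al t) a c → S.Span t Y a m M → m < s → s < M →
    c.p = (a.sh s).p → c = a
  fin : {x | S.Mid t Y x}.Finite
  hw : ∀ x, S.Mid t Y x → S.Span t Y ⟨1, x.1, x.2, 1⟩ (-S.hw t Y x) (S.hw t Y x)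
  gap : ∃ η, 0 < η ∧ (∀ a m M, S.Span t Y a m M → η ≤ M - m) ∧
    ∀ k r r', S.Nd t Y (k, r) → S.Nd t Y (k, r') → r < r' →
      (∀ s, r < s → s < r' → ¬ S.Sp (k, s)) → η ≤ r' - r
  tele : ∀ (M : Type) [AddCommGroup M] (F : ℝ → M) (k : K) (r r' : ℝ) (Z : Finset ℝ),
    S.Nd t Y (k, r) → S.Nd t Y (k, r') → r ≤ r' →
    (∀ A s s', S.SpA (k, A) → s ∈ S.arc k A → s' ∈ S.arc k A → r ≤ s → s < s' → s' ≤ r' →
      F s = F s') →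
    (∀ x, x ∈ Z ↔ S.Mid t Y (k, x) ∧ r < x ∧ x < r') →
    F r' - F r = ∑ x ∈ Z, (F (x + S.hw t Y (k, x)) - F (x - S.hw t Y (k, x)))

def Cell : Prop := ∀ t, S.Ad t → ∀ Y : Set (K × ℝ), Y.Finite → (∀ y ∈ Y, S.Val y) → S.CellAt t Y

structure FamAt (t : B × Bool → ℝ) : Prop where
  fin : Finite (S.Fam t)
  span : ∀ y, S.Span t ∅ (S.rs t y) (-S.hw t ∅ (S.rep t y.2)) (S.hw t ∅ (S.rep t y.2))
  reg : ∀ y, S.Reg t ∅ (S.rs t y)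
  ex : ∀ a w, S.Span t ∅ a (-w) w → ∃ y, S.Cf (S.al t) (S.rs t y) a
  inj : ∀ y y', S.Cf (S.al t) (S.rs t y) (S.rs t y') → y = y'

structure CrsAt (t : B × Bool → ℝ) : Prop where
  self : ∀ q, S.ind t q q = 1
  fl : ∀ q a, S.Reg t ∅ q → S.ind t q a.fl = -S.ind t q a
  fl' : ∀ q a, S.Reg t ∅ q → S.ind t q.fl a = -S.ind t q a
  cn : ∀ q a a', S.Cn (S.al t) a a' → S.ind t q a = S.ind t q a'
  cn' : ∀ q q' a, S.Cn (S.al t) q q' → S.ind t q a = S.ind t q' a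
  ne : ∀ q a, S.ind t q a ≠ 0 ↔ S.Cf (S.al t) q a
  node : ∀ q a, S.Reg t ∅ q → S.Nd t ∅ a.p → S.ind t q a = 0
  cr_eq : ∀ q g k r r' x, 0 ≤ r → r' ≤ S.len k → r < x → x < r' → S.pt ⟨g, k, x, 1⟩ = S.pt q →
    S.cr t q g k r r' = S.ind t q ⟨g, k, x, 1⟩
  cr_zero : ∀ q g k r r', (∀ x, r < x → x < r' → S.ind t q ⟨g, k, x, 1⟩ = 0) →
    S.cr t q g k r r' = 0
  cr_add : ∀ q g k r r' r'', 0 ≤ r → r ≤ r' → r' ≤ r'' → r'' ≤ S.len k →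
    S.ind t q ⟨g, k, r', 1⟩ = 0 → S.cr t q g k r r'' = S.cr t q g k r r' + S.cr t q g k r' r''
  uc_eq : ∀ q g e ρ h, S.En e → 0 ≤ ρ → ρ < h → h < t e → S.pt (S.up g e h) = S.pt q →
    S.uc t q g e ρ = S.ind t q (S.en g e h false) - S.ind t q (S.en g e h true)
  uc_ne : ∀ q g e ρ, S.uc t q g e ρ ≠ 0 → ∃ h s, ρ < h ∧ h < t e ∧ S.Cf (S.al t) q (S.en g e h s)
  cr_sm : ∀ h q g k r r', S.cr t (St.sm h q) (h * g) k r r' = S.cr t q g k r r'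
  uc_sm : ∀ h q g e ρ, S.uc t (St.sm h q) (h * g) e ρ = S.uc t q g e ρ
  th_sm : ∀ h q g b, S.th t (St.sm h q) (h * g) b = S.th t q g b
  cr_sh : ∀ q m M s g k r r', S.Span t ∅ q m M → m < s → s < M → S.Nd t ∅ (k, r) →
    S.Nd t ∅ (k, r') → S.cr t (q.sh s) g k r r' = S.cr t q g k r r'
  th_sh : ∀ q m M s g b, S.Span t ∅ q m M → m < s → s < M →
    S.th t (q.sh s) g b = S.th t q g b
  band : ∀ q a b, S.Reg t ∅ q → a.k = S.src b → S.al t b a.r → a.U → S.ind t q a = 0 →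
    S.pot t q a - S.pot t q (S.im b a) = S.th t q a.g b
  link : ∀ q g e ρ, S.Reg t ∅ q → S.En e → 0 ≤ ρ → ρ ≤ t e → (∀ s, S.ind t q (S.en g e ρ s) = 0) →
    S.pot t q (S.en g e ρ false) - S.pot t q (S.en g e ρ true) =
      S.th t q g e.1 - S.uc t q g e ρ
  pc : ∀ x y, S.Val x → S.pc t x y = S.cr t (S.rs t y) 1 x.1 0 x.2
  bdc : ∀ e y, S.En e → S.bdc t e y = S.uc t (S.rs t y) 1 e 0

def Fm : Prop := ∀ t, S.Ad t → S.FamAt t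

def Crs : Prop := ∀ t, S.Ad t → S.CrsAt t

/-- The relations between the jumps do not depend on the narrowing. -/
def Cross (τ : ℝ) : Prop :=
  ∀ t t', S.Adm τ t → S.Adm τ t' → ∀ n : G × B →₀ ℂ, (∀ x ∈ n.support, S.lo x.2 < S.hi x.2) →
    (∀ q, S.Reg t' ∅ q → (n.sum fun x c => c * S.th t' q x.1 x.2) = 0) →
    ∀ q, S.Reg t ∅ q → (n.sum fun x c => c * S.th t q x.1 x.2) = 0

/-- Cycles of links. -/
def Cyc (t : B × Bool → ℝ) (n : G × (B × Bool) × ℝ →₀ ℂ) : Prop :=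
  ∀ F : St G K → ℂ, (∀ a a', S.Cn (S.al t) a a' → F a = F a') → (∀ a, F a.fl = F a) →
    (n.sum fun l c => c * (F (S.en l.1 l.2.1 l.2.2 false) - F (S.en l.1 l.2.1 l.2.2 true))) = 0

def CR (τ : ℝ) : Prop :=
  ∀ t, S.Adm τ t → ∀ n : G × (B × Bool) × ℝ →₀ ℂ,
    (∀ l ∈ n.support, S.En l.2.1 ∧ 0 < l.2.2 ∧ l.2.2 ≤ t l.2.1) → S.Cyc t n →
    ∀ q, S.Reg t ∅ q → (∀ l ∈ n.support, S.pt (S.up l.1 l.2.1 l.2.2) ≠ S.pt q) →
      (n.sum fun l c => c * S.uc t q l.1 l.2.1 l.2.2) = 0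

/-- The twins at height `ρ` are joined. -/
def Tw (t : B × Bool → ℝ) (e : B × Bool) (ρ : ℝ) : Prop :=
  S.Cn (S.al t) (S.en 1 e ρ false) (S.en 1 e ρ true)

def Conv (τ : ℝ) : Prop :=
  ∀ t, S.Adm τ t → ∀ e ρ h, S.En e → 0 < ρ → ρ < h → h < t e → S.Tw t e ρ →
    S.Reg t ∅ (S.up 1 e h) → S.Tw t e h

def AdF (τ : ℝ) (Fr : Set (B × Bool)) (t : B × Bool → ℝ) : Prop :=
  S.Adm τ t ∧ ∀ e ∈ Fr, t e = τ

/-- Every end is frozen or needed. -/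
structure Frz (τ : ℝ) (Fr : Set (B × Bool)) (s : ℝ) : Prop where
  pos : 0 < s
  en : ∀ e ∈ Fr, S.En e
  need : ∀ e, S.En e → e ∉ Fr → ∀ t, S.AdF τ Fr t → ∀ ρ, 0 < ρ → ρ < s → ρ < t e → ¬ S.Tw t e ρ
  frz : ∃ Bad : Set T, Bad.Countable ∧ ∀ e ∈ Fr, ∀ ρ, 0 < ρ → ρ < τ → S.pt (S.up 1 e ρ) ∉ Bad →
    ∃ u, S.AdF τ Fr u ∧ S.Tw u e ρ

def Fi (τ : ℝ) (Fr : Set (B × Bool)) (s : ℝ) (t : B × Bool → ℝ) : Prop :=
  S.AdF τ Fr t ∧ ∀ e, S.En e → e ∉ Fr → t e ≤ s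

/-- The links of needed ends form a forest. -/
def AC (t : B × Bool → ℝ) (Fr : Set (B × Bool)) : Prop :=
  ∀ (L : Finset (G × (B × Bool) × ℝ)) (C : Finset (St G K)), L.Nonempty →
    (∀ l ∈ L, S.En l.2.1 ∧ l.2.1 ∉ Fr ∧ 0 < l.2.2 ∧ l.2.2 < t l.2.1) →
    (∀ l ∈ L, ∀ s, ∃ c ∈ C, S.Cf (S.al t) c (S.en l.1 l.2.1 l.2.2 s)) → L.card < C.card

structure Occ (t : B × Bool → ℝ) (Fr : Set (B × Bool)) : Prop where
  pm : (S.cx t Fr).Pm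
  ne : ∀ (e : S.Nn Fr) g y, sh g (S.bdc t e.1) y ≠ 0 ↔
    ∃ h s, 0 < h ∧ h < t e.1 ∧ S.Cf (S.al t) (S.rs t y) (S.en g e.1 h s)
  width : ∀ e : S.Nn Fr, ∑ y ∈ (S.bdc t e.1).support, S.hw t ∅ (S.rep t y.2) = t e.1
  touch : ∀ (e : S.Nn Fr) g h s, 0 < h → h < t e.1 → S.Reg t ∅ (S.en g e.1 h s) →
    ∃ y d, sh g (S.bdc t e.1) y ≠ 0 ∧ |d| < S.hw t ∅ (S.rep t y.2) ∧
      S.Cf (S.al t) ((S.rs t y).sh d) (S.en g e.1 h s)
  other : ∀ F : Finset (S.Nn Fr), (∀ f, (S.cx t Fr).mult F f ≠ 1) → ∀ e ∈ F, ∀ g h s, 0 < h →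
    h < t e.1 → S.Reg t ∅ (S.en g e.1 h s) → ∃ e' ∈ F, ∃ g' h' s', 0 < h' ∧ h' < t e'.1 ∧
      (g', e') ≠ (g, e) ∧ S.Cf (S.al t) (S.en g e.1 h s) (S.en g' e'.1 h' s') ∧
      (S.cx t Fr).DC F (g, e) (g', e')

/-- The tents of frozen ends are boundaries. -/
def Pc (t : B × Bool → ℝ) (Fr : Set (B × Bool)) : Prop :=
  ∀ e ∈ Fr, S.bdc t e ∈ LinearMap.range (S.cx t Fr).d2

/-- The chains of initial segments. -/
structure Seg (t : B × Bool → ℝ) (Fr : Set (B × Bool)) : Prop where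
  desc : ∀ (M : Type) [AddCommGroup M] [Module ℂ M] (L : (G × S.Fam t →₀ ℂ) →ₗ[ℂ] M)
    (U : G → K × ℝ → M),
    (∀ a a', a.U → S.Cn (S.al t) a a' → S.Nd t ∅ a.p → U a.g a.p = U a'.g a'.p) →
    (∀ g k A r r', S.SpA (k, A) → r ∈ S.arc k A → r' ∈ S.arc k A → U g (k, r) = U g (k, r')) →
    (∀ y, L (Finsupp.single y 1) =
      U y.1 ((S.rep t y.2).1, (S.rep t y.2).2 + S.hw t ∅ (S.rep t y.2)) -
      U y.1 ((S.rep t y.2).1, (S.rep t y.2).2 - S.hw t ∅ (S.rep t y.2))) →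
    ∀ g x, S.Nd t ∅ x → L (sh g (S.pc t x)) = U g x - U g (x.1, 0)
  bd : ∀ x, S.Nd t ∅ x → (S.cx t Fr).d1 (S.pc t x) =
    Finsupp.single (S.vx t x) 1 - Finsupp.single (S.vx t (x.1, 0)) 1
  zero : ∀ k, S.pc t (k, 0) = 0
  arc : ∀ k A r r', S.SpA (k, A) → r ∈ S.arc k A → r' ∈ S.arc k A → S.pc t (k, r) = S.pc t (k, r')
  edge : ∀ f, S.pc t ((S.rep t f).1, (S.rep t f).2 + S.hw t ∅ (S.rep t f)) -
    S.pc t ((S.rep t f).1, (S.rep t f).2 - S.hw t ∅ (S.rep t f)) = Finsupp.single (1, f) 1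
  band : ∀ b r, S.Nd t ∅ (S.src b, r) → S.al t b r →
    S.pc t (S.src b, r) - sh (S.lab b)⁻¹ (S.pc t (S.tgt b, S.mv b r)) =
    S.pc t (S.src b, S.mid b) - sh (S.lab b)⁻¹ (S.pc t (S.tgt b, S.mv b (S.mid b)))
  link : ∀ e, S.En e →
    S.pc t (S.en 1 e 0 false).p - sh (S.lab e.1)⁻¹ (S.pc t (S.en 1 e 0 true).p) =
    S.pc t (S.src e.1, S.mid e.1) - sh (S.lab e.1)⁻¹ (S.pc t (S.tgt e.1, S.mv e.1 (S.mid e.1))) -
      S.bdc t e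
  con : ∀ x, S.Nd t ∅ x → (S.cx t Fr).Cn univ (S.vx t x) (S.vx t (x.1, 0))

end Sys

/-- What the construction gives for a system. -/
structure Out {G T K B Vx E Fc : Type} [Group G] [MetricSpace T] [MulAction G T] [MulAction G Vx]
    (S : Sys G T K B) (C : Cx G Vx E Fc) (vx : K × ℝ → Vx) (p : K × ℝ → (G × E →₀ ℂ))
    (θ : B → (G × E →₀ ℂ)) : Prop where
  ok : C.Ok
  fin : ∃ O : Finset Vx, ∀ v, ∃ b ∈ O, ∃ g : G, g • b = v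
  stab : ∀ v : Vx, (MulAction.stabilizer G v).FG ∧
    ∃ z : T, ∀ g ∈ MulAction.stabilizer G v, LC S.Ln z (g • z)
  zero : ∀ k, p (k, 0) = 0
  bd : ∀ x, S.Q x → C.d1 (p x) = Finsupp.single (vx x) 1 - Finsupp.single (vx (x.1, 0)) 1
  band : ∀ b r, S.lo b ≤ r → r ≤ S.hi b → S.Q (S.src b, r) →
    vx (S.src b, r) = (S.lab b)⁻¹ • vx (S.tgt b, S.mv b r) ∧
    p (S.src b, r) - sh (S.lab b)⁻¹ (p (S.tgt b, S.mv b r)) - θ b ∈ LinearMap.range C.d2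
  gen : ∀ (R : Submodule ℂ (G × E →₀ ℂ)) (u : G → K → (G × E →₀ ℂ)), LinearMap.range C.d2 ≤ R →
    (∀ g, ∀ ζ ∈ R, sh g ζ ∈ R) →
    (∀ g b, u g (S.src b) - u (g * (S.lab b)⁻¹) (S.tgt b) + sh g (θ b) ∈ R) →
    ∀ ζ, C.d1 ζ = 0 → ζ ∈ R
  con : ∀ v, ∃ (g : G) (k : K), C.Cn univ v (g • vx (k, 0))
  con' : ∀ x, S.Q x → C.Cn univ (vx x) (vx (x.1, 0))

def GeoStmt : Prop :=
  ∀ (G T K B : Type) [Group G] [MetricSpace T] [MulAction G T] [Countable G] [Fintype K]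
    [Fintype B] (S : Sys G T K B), S.Ok →
    ∃ (Vx E Fc : Type) (_ : MulAction G Vx) (_ : Fintype E) (_ : Fintype Fc) (C : Cx G Vx E Fc)
      (vx : K × ℝ → Vx) (p : K × ℝ → (G × E →₀ ℂ)) (θ : B → (G × E →₀ ℂ)), Out S C vx p θ

end

end Pool.Agent.MP_494aff_an.Se
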