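import Mathlib
import Pool.Agent.MP_494aff_an.se.SpecG

/-! Basic facts on states, moves and chains. -/

set_option linter.unusedSectionVars false

open Set
open scoped Pointwise

namespace Pool.Agent.MP_494aff_an.Se

open Pool.Agent.MP_494aff_an.Pinch Pool.Agent.MP_494aff_an.Pinch.TowP Pool.Agent.MP_494aff_an.Lf

noncomputable section

namespace St

variable {G K : Type}

@[simp] lemma sh_zero (a : St G K) : a.sh 0 = a := by ext <;> simp [sh]

lemma sh_sh (a : St G K) (s s' : ℝ) : (a.sh s).sh s' = a.sh (s + s') := by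
  ext <;> simp [sh]; ring

@[simp] lemma fl_fl (a : St G K) : a.fl.fl = a := by ext <;> simp [fl]

lemma fl_sh (a : St G K) (s : ℝ) : a.fl.sh s = (a.sh (-s)).fl := by ext <;> simp [fl, sh]

@[simp] lemma fl_p (a : St G K) : a.fl.p = a.p := rfl

@[simp] lemma sm_p [Group G] (h : G) (a : St G K) : (sm h a).p = a.p := rfl

@[simp] lemma sm_one [Group G] (a : St G K) : sm 1 a = a := by ext <;> simp [sm]

lemma sm_sm [Group G] (h h' : G) (a : St G K) : sm h (sm h' a) = sm (h * h') a := by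
  ext <;> simp [sm, mul_assoc]

lemma sm_fl [Group G] (h : G) (a : St G K) : (sm h a).fl = sm h a.fl := rfl

lemma sm_sh [Group G] (h : G) (a : St G K) (s : ℝ) : (sm h a).sh s = sm h (a.sh s) := rfl

lemma U.fl {a : St G K} (h : a.U) : a.fl.U := by
  rcases h with h | h
  · exact Or.inr (by simp [St.fl, h])
  · exact Or.inl (by simp [St.fl, h])

lemma U.sh {a : St G K} (h : a.U) (s : ℝ) : (a.sh s).U := h

lemma U.sm [Group G] {a : St G K} (h : a.U) (g : G) : (sm g a).U := h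

lemma U.ne_fl {a : St G K} (h : a.U) : a.fl ≠ a := fun e => by
  have := congrArg St.σ e
  rcases h with h | h <;> simp only [St.fl, h] at this <;> norm_num at this

lemma U.abs {a : St G K} (h : a.U) : |a.σ| = 1 := by rcases h with h | h <;> simp [h]

end St

section Chains

variable {G X : Type} [Group G]

lemma sh_single (g : G) (x : G × X) (c : ℂ) :
    sh g (Finsupp.single x c) = Finsupp.single (g * x.1, x.2) c := by
  simp [sh]

lemma sh_apply (g : G) (ζ : G × X →₀ ℂ) (y : G × X) : sh g ζ y = ζ (g⁻¹ * y.1, y.2) := by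
  have hi : Function.Injective fun x : G × X => (g * x.1, x.2) := fun x x' e => by
    simp only [Prod.mk.injEq, mul_right_inj] at e
    exact Prod.ext e.1 e.2
  have := Finsupp.mapDomain_apply hi ζ (g⁻¹ * y.1, y.2)
  simpa [sh] using this

lemma sh_one (ζ : G × X →₀ ℂ) : sh (1 : G) ζ = ζ := by ext y; simp [sh_apply]

lemma sh_sh (g h : G) (ζ : G × X →₀ ℂ) : sh g (sh h ζ) = sh (g * h) ζ := by
  ext y; simp [sh_apply, mul_assoc]

lemma toFs_apply {α : Type} {f : α → ℂ} (h : (Function.support f).Finite) (x : α) :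
    toFs f x = f x := by
  simp [toFs, h, Finsupp.ofSupportFinite_coe]

end Chains

namespace Sys

variable {G T K B : Type} [Group G] {S : Sys G T K B} {al al' : B → ℝ → Prop} {a a' a'' : St G K}

lemma im_sh (b : B) (a : St G K) (s : ℝ) : (S.im b a).sh s = S.im b (a.sh s) := by
  ext <;> simp [im, St.sh, mv]; ring

lemma im_fl (b : B) (a : St G K) : (S.im b a).fl = S.im b a.fl := by ext <;> simp [im, St.fl]

lemma im_sm (b : B) (h : G) (a : St G K) : St.sm h (S.im b a) = S.im b (St.sm h a) := by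
  ext <;> simp [im, St.sm, mul_assoc]

lemma up_sh (g : G) (e : B × Bool) (ρ s : ℝ) : (S.up g e ρ).sh s = S.up g e (ρ + s) := by
  rcases e with ⟨b, _ | _⟩ <;> ext <;> simp [up, St.sh] <;> ring

lemma en_sh (g : G) (e : B × Bool) (ρ s : ℝ) (d : Bool) :
    (S.en g e ρ d).sh s = S.en g e (ρ + s) d := by
  cases d
  · exact up_sh g e ρ s
  · simp only [en, im_sh, up_sh]

lemma up_sm (h g : G) (e : B × Bool) (ρ : ℝ) : St.sm h (S.up g e ρ) = S.up (h * g) e ρ := rfl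

lemma en_sm (h g : G) (e : B × Bool) (ρ : ℝ) (d : Bool) :
    St.sm h (S.en g e ρ d) = S.en (h * g) e ρ d := by
  cases d
  · rfl
  · simp only [en, im_sm, up_sm]

lemma en_p (g g' : G) (e : B × Bool) (ρ : ℝ) (d : Bool) : (S.en g e ρ d).p = (S.en g' e ρ d).p := by
  cases d <;> rfl

lemma up_U (g : G) (e : B × Bool) (ρ : ℝ) : (S.up g e ρ).U := by
  rcases e with ⟨b, _ | _⟩ <;> simp [up, St.U]

lemma Cn.refl (a : St G K) : S.Cn al a a := Relation.EqvGen.refl a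

lemma Cn.symm (h : S.Cn al a a') : S.Cn al a' a := Relation.EqvGen.symm _ _ h

lemma Cn.trans (h : S.Cn al a a') (h' : S.Cn al a' a'') : S.Cn al a a'' :=
  Relation.EqvGen.trans _ _ _ h h'

lemma Cn.move {b : B} (h1 : a.k = S.src b) (h2 : al b a.r) : S.Cn al a (S.im b a) :=
  Relation.EqvGen.rel _ _ ⟨b, h1, h2, rfl⟩

/-- An equivalence relation that holds for allowed moves holds for joined states. -/
lemma Cn.ind {R : St G K → St G K → Prop} (hR : Equivalence R)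
    (hm : ∀ a b, a.k = S.src b → al b a.r → R a (S.im b a)) (h : S.Cn al a a') : R a a' := by
  induction h with
  | rel x y h => obtain ⟨b, h1, h2, rfl⟩ := h; exact hm _ _ h1 h2
  | refl x => exact hR.refl x
  | symm x y _ ih => exact hR.symm ih
  | trans x y z _ _ i1 i2 => exact hR.trans i1 i2

/-- Induction with the extra knowledge that all states lie in the leaf of `c`. -/
lemma Cn.ind' {R : St G K → St G K → Prop} (hR : Equivalence R) {c : St G K}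
    (hm : ∀ a b, S.Cn al c a → a.k = S.src b → al b a.r → R a (S.im b a)) (hc : S.Cn al c a)
    (h : S.Cn al a a') : R a a' := by
  have key : S.Cn al a a' ∧ (S.Cn al c a → R a a') := by
    refine Cn.ind (R := fun x y => S.Cn al x y ∧ (S.Cn al c x → R x y)) ⟨?_, ?_, ?_⟩ ?_ h
    · exact fun x => ⟨Cn.refl x, fun _ => hR.refl x⟩
    · exact fun h => ⟨h.1.symm, fun hy => hR.symm (h.2 (hy.trans h.1.symm))⟩
    · exact fun h h' => ⟨h.1.trans h'.1, fun hx => hR.trans (h.2 hx) (h'.2 (hx.trans h.1))⟩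
    · exact fun x b h1 h2 => ⟨Cn.move h1 h2, fun hx => hm x b hx h1 h2⟩
  exact key.2 hc

lemma cn_equiv : Equivalence (S.Cn al) := ⟨Cn.refl, Cn.symm, Cn.trans⟩

lemma Cn.mono (hal : ∀ b r, al b r → al' b r) (h : S.Cn al a a') : S.Cn al' a a' :=
  Cn.ind cn_equiv (fun _ _ h1 h2 => Cn.move h1 (hal _ _ h2)) h

lemma Cn.fl (h : S.Cn al a a') : S.Cn al a.fl a'.fl :=
  Cn.ind (R := fun x y => S.Cn al x.fl y.fl) ⟨fun _ => Cn.refl _, Cn.symm, Cn.trans⟩
    (fun x b h1 h2 => by rw [im_fl]; exact Cn.move h1 h2) h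

lemma Cn.sm (g : G) (h : S.Cn al a a') : S.Cn al (St.sm g a) (St.sm g a') :=
  Cn.ind (R := fun x y => S.Cn al (St.sm g x) (St.sm g y)) ⟨fun _ => Cn.refl _, Cn.symm, Cn.trans⟩
    (fun x b h1 h2 => by rw [im_sm]; exact Cn.move h1 h2) h

lemma cn_sm (g : G) : S.Cn al (St.sm g a) (St.sm g a') ↔ S.Cn al a a' :=
  ⟨fun h => by simpa [St.sm_sm] using h.sm g⁻¹, Cn.sm g⟩

lemma cn_fl : S.Cn al a.fl a' ↔ S.Cn al a a'.fl :=
  ⟨fun h => by simpa using h.fl, fun h => by simpa using h.fl⟩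

/-- Shift of a path. -/
lemma Cn.shift {s : ℝ} (h : S.Cn al a a')
    (hs : ∀ c b, S.Cn al a c → c.k = S.src b → al b c.r → al' b (c.sh s).r) :
    S.Cn al' (a.sh s) (a'.sh s) :=
  Cn.ind' (R := fun x y => S.Cn al' (x.sh s) (y.sh s)) ⟨fun _ => Cn.refl _, Cn.symm, Cn.trans⟩
    (fun x b hx h1 h2 => by rw [im_sh]; exact Cn.move h1 (hs x b hx h1 h2)) (Cn.refl a) h

lemma Cf.refl (a : St G K) : S.Cf al a a := Or.inl (Cn.refl a)

lemma Cf.symm (h : S.Cf al a a') : S.Cf al a' a :=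
  h.elim (fun h => Or.inl h.symm) fun h => Or.inr (cn_fl.1 h.symm)

lemma Cf.trans (h : S.Cf al a a') (h' : S.Cf al a' a'') : S.Cf al a a'' := by
  rcases h with h | h <;> rcases h' with h' | h'
  · exact Or.inl (h.trans h')
  · exact Or.inr (h.trans h')
  · exact Or.inr (h.trans h'.fl)
  · exact Or.inl (h.trans (cn_fl.2 h'))

lemma cf_fl (a : St G K) : S.Cf al a a.fl := Or.inr (by simpa using Cn.refl a)

lemma cf_equiv : Equivalence (S.Cf al) := ⟨Cf.refl, Cf.symm, Cf.trans⟩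

lemma Cf.mono (hal : ∀ b r, al b r → al' b r) (h : S.Cf al a a') : S.Cf al' a a' :=
  h.imp (Cn.mono hal) (Cn.mono hal)

lemma Cf.sm (g : G) (h : S.Cf al a a') : S.Cf al (St.sm g a) (St.sm g a') :=
  h.imp (Cn.sm g) (Cn.sm g)

lemma al_mono {t t' : B × Bool → ℝ} (h : ∀ e, t' e ≤ t e) (b : B) (r : ℝ) (hb : S.al t b r) :
    S.al t' b r :=
  ⟨hb.1, by linarith [hb.2.1, h (b, false)], by linarith [hb.2.2, h (b, true)]⟩

variable [MetricSpace T] [MulAction G T]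

lemma Adm.nonneg {τ : ℝ} {t : B × Bool → ℝ} (h : S.Adm τ t) (e : B × Bool) : 0 ≤ t e := by
  by_cases he : S.En e
  · exact ((h e).1 he).1.le
  · exact ((h e).2 he).ge

lemma Adm.le {τ : ℝ} {t : B × Bool → ℝ} (h : S.Adm τ t) (hτ : 0 ≤ τ) (e : B × Bool) : t e ≤ τ := by
  by_cases he : S.En e
  · exact ((h e).1 he).2
  · exact ((h e).2 he).le.trans hτ

lemma Ad.nonneg {t : B × Bool → ℝ} (h : S.Ad t) (e : B × Bool) : 0 ≤ t e :=
  let ⟨_, _, h⟩ := h; h.nonneg e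

lemma Sm.mono {τ τ' : ℝ} (h : S.Sm τ) (h0 : 0 < τ') (hle : τ' ≤ τ) : S.Sm τ' :=
  ⟨h0, fun b hb => by linarith [h.le b hb], fun e he ρ h1 h2 => h.en e he ρ h1 (h2.trans hle),
    fun e h1 h2 => let ⟨A, hA, hr⟩ := h.sp e h1 h2; ⟨A, hA, fun ρ p q => hr ρ p (q.trans hle)⟩⟩

lemma al_base {t : B × Bool → ℝ} (h : S.Ad t) {b : B} {r : ℝ} (hb : S.al t b r) :
    S.lo b ≤ r ∧ r ≤ S.hi b :=
  ⟨by linarith [hb.2.1, h.nonneg (b, false)], by linarith [hb.2.2, h.nonneg (b, true)]⟩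

lemma al_mid {t : B × Bool → ℝ} (h : S.Ad t) {b : B} (hb : S.lo b < S.hi b) :
    S.al t b (S.mid b) := by
  obtain ⟨τ, h1, h2⟩ := h
  have := h1.le b hb
  have h3 := h2.le h1.pos.le (b, false)
  have h4 := h2.le h1.pos.le (b, true)
  have := h1.pos
  exact ⟨hb, by unfold mid; linarith, by unfold mid; linarith⟩

/-- The move at height `ρ` is allowed when `t e ≤ ρ ≤ τ`. -/
lemma al_up {τ : ℝ} {t : B × Bool → ℝ} (h1 : S.Sm τ) (h2 : S.Adm τ t) {e : B × Bool}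
    (he : S.lo e.1 < S.hi e.1) (g : G) {ρ : ℝ} (h3 : t e ≤ ρ) (h4 : ρ ≤ τ) :
    S.al t e.1 (S.up g e ρ).r := by
  have := h1.le e.1 he
  have h5 := h2.le h1.pos.le (e.1, false)
  have h6 := h2.le h1.pos.le (e.1, true)
  have := h1.pos
  rcases e with ⟨b, _ | _⟩ <;> refine ⟨he, ?_, ?_⟩ <;> simp [up] at * <;> linarith

lemma opn_up {τ : ℝ} (h1 : S.Sm τ) {e : B × Bool} (he : S.lo e.1 < S.hi e.1) (g : G) {ρ : ℝ}
    (h3 : 0 < ρ) (h4 : ρ ≤ τ) : S.opn e.1 (S.up g e ρ).r := by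
  have := h1.le e.1 he
  have := h1.pos
  rcases e with ⟨b, _ | _⟩ <;> refine ⟨?_, ?_⟩ <;> simp [up] at * <;> linarith

lemma im_U (h : S.Ok) (b : B) : (S.im b a).U ↔ a.U := by
  rcases h.sg_eq b with e | e <;> simp only [im, St.U, e]
  · simp
  · constructor <;> rintro (h | h) <;> [right; left; right; left] <;> linarith

lemma en_U (h : S.Ok) (g : G) (e : B × Bool) (ρ : ℝ) (d : Bool) : (S.en g e ρ d).U := by
  cases d
  · exact up_U g e ρ
  · exact (im_U h _).2 (up_U g e ρ)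

lemma Cn.U (h : S.Ok) (hc : S.Cn al a a') : a.U ↔ a'.U :=
  Cn.ind (R := fun x y => x.U ↔ y.U) ⟨fun _ => Iff.rfl, Iff.symm, Iff.trans⟩
    (fun _ b _ _ => (im_U h b).symm) hc

lemma pt_fl (a : St G K) : S.pt a.fl = S.pt a := rfl

lemma pt_sm (g : G) (a : St G K) : S.pt (St.sm g a) = g • S.pt a := mul_smul _ _ _

lemma pt_im (h : S.Ok) {b : B} (h1 : a.k = S.src b) (h2 : S.lo b ≤ a.r) (h3 : a.r ≤ S.hi b) :
    S.pt (S.im b a) = S.pt a := by
  simp only [pt, im, h.lab_eq b _ h2 h3, h1, mul_smul, inv_smul_smul]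

lemma Cn.pt (h : S.Ok) (hal : ∀ b r, al b r → S.lo b ≤ r ∧ r ≤ S.hi b) (hc : S.Cn al a a') :
    S.pt a = S.pt a' :=
  Cn.ind (R := fun x y => S.pt x = S.pt y) ⟨fun _ => rfl, Eq.symm, Eq.trans⟩
    (fun _ _ h1 h2 => (pt_im h h1 (hal _ _ h2).1 (hal _ _ h2).2).symm) hc

lemma Cf.pt (h : S.Ok) (hal : ∀ b r, al b r → S.lo b ≤ r ∧ r ≤ S.hi b) (hc : S.Cf al a a') :
    S.pt a = S.pt a' :=
  hc.elim (Cn.pt h hal) fun hc => (Cn.pt h hal hc).trans (pt_fl _)

lemma val_src (h : S.Ok) {b : B} {r : ℝ} (h2 : S.lo b ≤ r) (h3 : r ≤ S.hi b) :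
    S.Val (S.src b, r) := ⟨(h.lo_nonneg b).trans h2, h3.trans (h.hi_le b)⟩

lemma Cn.val (h : S.Ok) (hal : ∀ b r, al b r → S.lo b ≤ r ∧ r ≤ S.hi b) (hc : S.Cn al a a') :
    S.Val a.p ↔ S.Val a'.p :=
  Cn.ind (R := fun x y => S.Val x.p ↔ S.Val y.p) ⟨fun _ => Iff.rfl, Iff.symm, Iff.trans⟩
    (fun x b h1 h2 => ⟨fun _ => h.img b _ (hal _ _ h2).1 (hal _ _ h2).2, fun _ => by
      have := val_src h (hal _ _ h2).1 (hal _ _ h2).2
      rwa [← h1] at this⟩) hc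

lemma dist_pt (h : S.Ok) {g : G} {k : K} {r s σ σ' : ℝ} (h1 : S.Val (k, r)) (h2 : S.Val (k, s)) :
    dist (S.pt ⟨g, k, r, σ⟩) (S.pt ⟨g, k, s, σ'⟩) = |r - s| := by
  simp only [Sys.pt, h.tr.iso, h.iso k r s h1 h2]

lemma dist_sh (h : S.Ok) (hU : a.U) {s s' : ℝ} (h1 : S.Val (a.sh s).p) (h2 : S.Val (a.sh s').p) :
    dist (S.pt (a.sh s)) (S.pt (a.sh s')) = |s - s'| := by
  have := dist_pt h (g := a.g) (σ := a.σ) (σ' := a.σ) h1 h2
  rw [show (a.sh s).r - (a.sh s').r = a.σ * (s - s') by simp only [St.sh]; ring, abs_mul, hU.abs,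
    one_mul] at this
  exact this

lemma val_en {τ : ℝ} (h : S.Ok) (h1 : S.Sm τ) {e : B × Bool} (he : S.lo e.1 < S.hi e.1) (g : G)
    {ρ : ℝ} (h3 : 0 ≤ ρ) (h4 : ρ ≤ τ) (d : Bool) : S.Val (S.en g e ρ d).p ∧
      S.pt (S.en g e ρ d) = S.pt (S.up g e ρ) := by
  have := h1.le e.1 he
  have := h1.pos
  have hb : S.lo e.1 ≤ (S.up g e ρ).r ∧ (S.up g e ρ).r ≤ S.hi e.1 := by
    rcases e with ⟨b, _ | _⟩ <;> refine ⟨?_, ?_⟩ <;> simp [up] at * <;> linarith
  cases d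
  · exact ⟨val_src h hb.1 hb.2, rfl⟩
  · exact ⟨h.img _ _ hb.1 hb.2, pt_im h rfl hb.1 hb.2⟩

lemma dist_up {τ : ℝ} (h : S.Ok) (h1 : S.Sm τ) {e : B × Bool} (he : S.lo e.1 < S.hi e.1) (g : G)
    {ρ ρ' : ℝ} (h3 : 0 ≤ ρ) (h4 : ρ ≤ τ) (h5 : 0 ≤ ρ') (h6 : ρ' ≤ τ) :
    dist (S.pt (S.up g e ρ)) (S.pt (S.up g e ρ')) = |ρ - ρ'| := by
  have p1 := (val_en h h1 he g h3 h4 false).1
  have p2 := (val_en h h1 he g h5 h6 false).1
  have := dist_sh h (up_U (S := S) g e 0) (s := ρ) (s' := ρ') (by rw [up_sh, zero_add]; exact p1)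
    (by rw [up_sh, zero_add]; exact p2)
  rwa [up_sh, up_sh, zero_add, zero_add] at this

end Sys

end

end Pool.Agent.MP_494aff_an.Se
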