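import Mathlib
import Pool.Agent.MP_494aff_an.se.Base

/-! Intermediate properties of a system of bands. -/

open Set
open scoped Pointwise

namespace Pool.Agent.MP_494aff_an.Se

open Pool.Agent.MP_494aff_an.Pinch Pool.Agent.MP_494aff_an.Pinch.TowP Pool.Agent.MP_494aff_an.Lf

noncomputable section

namespace Sys

variable {G T K B : Type} [Group G] [MetricSpace T] [MulAction G T] (S : Sys G T K B)

/-- The chain of jumps along a band. -/
def vth (t : B × Bool → ℝ) (b : B) : G × S.Fam t →₀ ℂ :=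
  S.pc t (S.src b, S.mid b) - sh (S.lab b)⁻¹ (S.pc t (S.tgt b, S.mv b (S.mid b)))

/-- Bands with two different ends. -/
abbrev Bn : Type := {b : B // S.lo b < S.hi b}

/-- The values of cochains on the chains of jumps. -/
def Rg (t : B × Bool → ℝ) : Submodule ℂ (S.Bn → H G) :=
  Submodule.span ℂ {η | ∃ ξ : S.Fam t → H G, ∀ b, η b = ev ξ (S.vth t b.1)}

def CrInt [Fintype S.Bn] : Prop :=
  ∀ t, S.Ad t → Inv (S.Rg t).topologicalClosure ∧ ∃ n : ℕ, dim (S.Rg t) = n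

def CrMono : Prop := ∀ t t', S.Ad t → S.Ad t' → (∀ e, t' e ≤ t e) → S.Rg t' ≤ S.Rg t

/-- Twins stay joined when their end is narrowed fully. -/
def Lift (τ : ℝ) : Prop :=
  ∀ t t' e ρ, S.Adm τ t → S.En e → t' e = τ → (∀ e', e' ≠ e → t' e' = t e') → 0 < ρ → ρ < t e →
    S.Reg t ∅ (S.up 1 e ρ) → S.Tw t e ρ → S.Tw t' e ρ

/-- The tops lie in different orbits. -/
def Gen (t : B × Bool → ℝ) (Fr : Set (B × Bool)) : Prop :=
  ∀ e e' g, S.En e → e ∉ Fr → S.En e' → e' ∉ Fr →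
    S.pt (S.up g e (t e)) = S.pt (S.up 1 e' (t e')) → e = e'

/-- A path between twins, written with links. -/
def Dec (t : B × Bool → ℝ) (Fr : Set (B × Bool)) (e : B × Bool) (ρ : ℝ)
    (n : G × (B × Bool) × ℝ →₀ ℂ) : Prop :=
  (∀ l ∈ n.support, S.En l.2.1 ∧ l.2.1 ∉ Fr ∧ 0 < l.2.2 ∧ l.2.2 < t l.2.1 ∧
    S.pt (S.up l.1 l.2.1 l.2.2) = S.pt (S.up 1 e ρ)) ∧
  S.Cyc t (Finsupp.single (1, e, ρ) 1 - n)

def DecAll (τ : ℝ) (Fr : Set (B × Bool)) : Prop :=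
  ∀ t u e ρ, S.AdF τ Fr t → S.AdF τ Fr u → S.Tw u e ρ → ∃ n, S.Dec t Fr e ρ n

/-- The links are at the same height or high. -/
def Par (t : B × Bool → ℝ) (Fr : Set (B × Bool)) : Prop :=
  ∃ δ, 0 < δ ∧ ∀ e ∈ Fr, ∀ ρ, 0 < ρ → ρ < δ → ∀ n, S.Dec t Fr e ρ n →
    ∀ l ∈ n.support, l.2.2 = ρ ∨ δ ≤ l.2.2

end Sys

end

end Pool.Agent.MP_494aff_an.Se
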