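import Mathlib
import Pool.Agent.MP_494aff_an.se.SpecH

/-! The links of needed ends form a forest. -/

set_option linter.unusedVariables false
set_option linter.unusedSectionVars false

open Set
open scoped Pointwise

namespace Pool.Agent.MP_494aff_an.Se

open Pool.Agent.MP_494aff_an.Pinch Pool.Agent.MP_494aff_an.Pinch.TowP Pool.Agent.MP_494aff_an.Lf

namespace AcL

/-- A graph with at least as many edges as vertices carries a cycle. -/
lemma dep {ι V : Type} (L : Finset ι) (C : Finset V) (α β : ι → V) (hL : L.Nonempty)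
    (hα : ∀ l ∈ L, α l ∈ C) (hβ : ∀ l ∈ L, β l ∈ C) (hc : C.card ≤ L.card) :
    ∃ c : L → ℝ, (∃ l, c l ≠ 0) ∧ ∀ F : V → ℝ, ∑ l, c l * (F (β l) - F (α l)) = 0 := by
  classical
  obtain ⟨l1, hl1⟩ := hL
  let v : Option L → (C → ℝ) := fun o => match o with
    | none => Pi.single ⟨α l1, hα l1 hl1⟩ 1
    | some l => Pi.single ⟨β l, hβ l l.2⟩ 1 - Pi.single ⟨α l, hα l l.2⟩ 1
  have hv : ¬ LinearIndependent ℝ v := fun hi => by
    have := hi.fintype_card_le_finrank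
    simp only [Fintype.card_option, Fintype.card_coe, Module.finrank_fintype_fun_eq_card] at this
    omega
  obtain ⟨c, h0, i, hi⟩ := Fintype.not_linearIndependent_iff.1 hv
  have key : ∀ F : V → ℝ,
      c none * F (α l1) + ∑ l : L, c (some l) * (F (β l) - F (α l)) = 0 := fun F => by
    have h1 := congrArg (fun x : C → ℝ => (fun y : C => F y.1) ⬝ᵥ x) h0
    simp only [dotProduct_sum, dotProduct_zero, Fintype.sum_option, dotProduct_add,
      dotProduct_smul, v, dotProduct_sub, dotProduct_single, smul_eq_mul, mul_one] at h1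
    exact h1
  have hn : c none = 0 := by simpa using key fun _ => 1
  refine ⟨fun l => c (some l), ?_, fun F => by simpa [hn] using key F⟩
  cases i with
  | none => exact absurd hn hi
  | some l => exact ⟨l, hi⟩

/-- Lowering a function to finitely many given values. -/
lemma low {ι E : Type} (M : Finset ι) (e : ι → E) (h : ι → ℝ) (t : E → ℝ) :
    ∃ u : E → ℝ, (∀ x, u x ≤ t x) ∧ (∀ l ∈ M, u (e l) ≤ h l) ∧
      ∀ x, u x = t x ∨ ∃ l ∈ M, e l = x ∧ u x = h l := by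
  classical
  have ne : ∀ x, (insert (t x) ((M.filter fun l => e l = x).image h)).Nonempty :=
    fun x => Finset.insert_nonempty _ _
  refine ⟨fun x => Finset.min' _ (ne x), fun x => Finset.min'_le _ _ (Finset.mem_insert_self _ _),
    fun l hl => ?_, fun x => ?_⟩
  · refine Finset.min'_le _ _ (Finset.mem_insert_of_mem (Finset.mem_image_of_mem h ?_))
    exact Finset.mem_filter.2 ⟨hl, rfl⟩
  rcases Finset.mem_insert.1 (Finset.min'_mem _ (ne x)) with h1 | h1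
  · exact Or.inl h1
  · obtain ⟨l, hl, h2⟩ := Finset.mem_image.1 h1
    exact Or.inr ⟨l, (Finset.mem_filter.1 hl).1, (Finset.mem_filter.1 hl).2, h2.symm⟩

end AcL

variable {G T K B : Type} [Group G] [MetricSpace T] [MulAction G T] [Countable G] [Fintype K]
  [Fintype B] {S : Sys G T K B} {τ s : ℝ} {t : B × Bool → ℝ} {Fr : Set (B × Bool)}

namespace AcL

lemma nsp (hτ : S.Sm τ) {e : B × Bool} (he : S.En e) (g : G) {ρ : ℝ} (h0 : 0 < ρ) (h1 : ρ ≤ τ)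
    (d : Bool) : ¬ S.Sp (S.en g e ρ d).p := by
  rw [Sys.en_p g 1]
  exact (hτ.en e he ρ h0 h1 d).1

lemma twin (hτ : S.Sm τ) {e : B × Bool} (he : S.En e) (g : G) {ρ : ℝ} (h0 : 0 < ρ) (h1 : ρ ≤ τ) :
    S.Cn S.opn (S.en g e ρ false) (S.en g e ρ true) :=
  Sys.Cn.move rfl (Sys.opn_up hτ he.1 g h0 h1)

lemma same (h1 : S.Spc) (hτ : S.Sm τ) {e : B × Bool} (he : S.En e) {g g' : G} {ρ : ℝ}
    (h0 : 0 < ρ) (h2 : ρ ≤ τ) (hc : S.Cf S.opn (S.up g e ρ) (S.up g' e ρ)) : g' = g := by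
  have hs := nsp hτ he g h0 h2 false
  rcases hc with hc | hc
  · exact congrArg St.g (h1.g1 _ _ (Sys.up_U g e ρ) hs hc rfl)
  · exact congrArg St.g (h1.g1 _ _ (Sys.up_U g e ρ) hs hc rfl)

lemma tw (h : S.Ok) (h1 : S.Spc) (h2 : S.Lvs) (hτ : S.Sm τ) {u : B × Bool → ℝ} (hu : S.Ad u)
    {e : B × Bool} (he : S.En e) {g : G} {ρ : ℝ} (h0 : 0 < ρ) (h3 : ρ ≤ τ)
    (hc : S.Cf (S.al u) (S.en g e ρ false) (S.en g e ρ true)) : S.Tw u e ρ := by
  rcases hc with hc | hc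
  · have := hc.sm g⁻¹
    rwa [Sys.en_sm, Sys.en_sm, inv_mul_cancel] at this
  · have h4 := h2.opn u hu _ _ hc (nsp hτ he g h0 h3 false)
    have h5 := (twin hτ he g h0 h3).symm.trans h4
    have hU := Sys.en_U h g e ρ true
    exact absurd (h1.g1 _ _ hU (nsp hτ he g h0 h3 true) h5 rfl) hU.ne_fl

end AcL

theorem ac (h : S.Ok) (h1 : S.Spc) (h2 : S.Lvs) (hτ : S.Sm τ) (hZ : S.Frz τ Fr s)
    (ht : S.Fi τ Fr s t) : S.AC t Fr := by
  classical
  intro L C hL hl hC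
  by_contra hlt
  have hC' : ∀ d : Bool, ∀ l : G × (B × Bool) × ℝ, ∃ c, l ∈ L →
      c ∈ C ∧ S.Cf (S.al t) c (S.en l.1 l.2.1 l.2.2 d) := fun d l => by
    by_cases hm : l ∈ L
    · obtain ⟨c, h3⟩ := hC l hm d
      exact ⟨c, fun _ => h3⟩
    · exact ⟨S.up 1 l.2.1 0, fun h3 => absurd h3 hm⟩
  choose γ hγ using hC'
  obtain ⟨c, ⟨l1, hc1⟩, hc⟩ := AcL.dep L C (γ false) (γ true) hL (fun l hm => (hγ _ l hm).1)
    (fun l hm => (hγ _ l hm).1) (not_lt.1 hlt)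
  have hle : ∀ l : L, l.1.2.2 ≤ τ := fun l =>
    (hl l l.2).2.2.2.le.trans (ht.1.1.le hτ.pos.le _)
  obtain ⟨M, hM⟩ : ∃ M : Finset L, ∀ l, l ∈ M ↔ c l ≠ 0 ∧
      S.Cf S.opn (S.up l1.1.1 l1.1.2.1 l1.1.2.2) (S.up l.1.1 l.1.2.1 l.1.2.2) :=
    ⟨Finset.univ.filter _, fun l => by simp only [Finset.mem_filter, Finset.mem_univ, true_and]; rfl⟩
  obtain ⟨l0, hm0, hmin⟩ := Finset.exists_min_image (M.filter fun l => l.1.2.1 = l1.1.2.1)
    (fun l => l.1.2.2) ⟨l1, Finset.mem_filter.2 ⟨(hM l1).2 ⟨hc1, Sys.Cf.refl _⟩, rfl⟩⟩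
  obtain ⟨hm0, he0⟩ := Finset.mem_filter.1 hm0
  obtain ⟨u, hu1, hu2, hu3⟩ := AcL.low (M.erase l0) (fun l => l.1.2.1) (fun l => l.1.2.2) t
  have hA : S.AdF τ Fr u := by
    refine ⟨fun e => ⟨fun he => ⟨?_, (hu1 e).trans (ht.1.1.le hτ.pos.le e)⟩, fun he => ?_⟩,
      fun e he => ?_⟩
    · rcases hu3 e with h3 | ⟨l, _, _, h3⟩
      · rw [h3]; exact ((ht.1.1 e).1 he).1
      · rw [h3]; exact (hl l l.2).2.2.1
    · rcases hu3 e with h3 | ⟨l, _, h4, h3⟩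
      · rw [h3]; exact (ht.1.1 e).2 he
      · exact absurd (h4 ▸ (hl l l.2).1) he
    · rcases hu3 e with h3 | ⟨l, _, h4, h3⟩
      · rw [h3]; exact ht.1.2 e he
      · exact absurd (h4 ▸ he) (hl l l.2).2.1
  have hAd : S.Ad u := ⟨τ, hτ, hA.1⟩
  obtain ⟨hE0, hF0, hp0, ht0⟩ := hl l0 l0.2
  have hlt0 : l0.1.2.2 < u l0.1.2.1 := by
    rcases hu3 l0.1.2.1 with h3 | ⟨l, hm, h4, h3⟩
    · rw [h3]; exact ht0
    · rw [h3]
      obtain ⟨hne, hm⟩ := Finset.mem_erase.1 hm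
      have h5 := hmin l (Finset.mem_filter.2 ⟨hm, h4.trans he0⟩)
      refine lt_of_le_of_ne h5 fun h6 => hne ?_
      have h7 := ((hM l0).1 hm0).2.symm.trans ((hM l).1 hm).2
      rw [h4, ← h6] at h7
      have h8 := AcL.same h1 hτ hE0 hp0 (hle l0) h7
      exact Subtype.ext (Prod.ext h8 (Prod.ext h4 h6.symm))
  obtain ⟨F, hF⟩ : ∃ F : St G K → ℝ, ∀ a, F a =
      if S.Cf (S.al u) (S.en l0.1.1 l0.1.2.1 l0.1.2.2 false) a then 1 else 0 := ⟨_, fun _ => rfl⟩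
  have hFu : ∀ a a', S.Cf (S.al u) a a' → F a = F a' := fun a a' h3 => by
    rw [hF, hF]
    exact if_congr ⟨fun h4 => h4.trans h3, fun h4 => h4.trans h3.symm⟩ rfl rfl
  have hFγ : ∀ d (l : L), F (γ d l) = F (S.en l.1.1 l.1.2.1 l.1.2.2 d) := fun d l =>
    hFu _ _ ((hγ d l l.2).2.mono (Sys.al_mono hu1))
  have hsum := hc F
  rw [Finset.sum_eq_single l0] at hsum
  · have h3 := sub_eq_zero.1 ((mul_eq_zero.1 hsum).resolve_left ((hM l0).1 hm0).1)
    rw [hFγ, hFγ, hF, hF, if_pos (Sys.Cf.refl _)] at h3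
    have h4 : S.Cf (S.al u) (S.en l0.1.1 l0.1.2.1 l0.1.2.2 false)
        (S.en l0.1.1 l0.1.2.1 l0.1.2.2 true) := by
      by_contra h4
      rw [if_neg h4] at h3
      exact zero_ne_one h3
    exact hZ.need _ hE0 hF0 u hA _ hp0 (ht0.trans_le (ht.2 _ hE0 hF0)) hlt0
      (AcL.tw h h1 h2 hτ hAd hE0 hp0 (hle l0) h4)
  · intro l _ hne
    by_cases hz : c l = 0
    · rw [hz, zero_mul]
    obtain ⟨hE, _, hp, _⟩ := hl l l.2
    rw [hFγ, hFγ]
    by_cases hm : l ∈ M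
    · have h3 := Sys.al_up hτ hA.1 hE.1 l.1.1 (hu2 l (Finset.mem_erase.2 ⟨hne, hm⟩)) (hle l)
      rw [← hFu (S.en l.1.1 l.1.2.1 l.1.2.2 false) (S.en l.1.1 l.1.2.1 l.1.2.2 true)
        (Or.inl (Sys.Cn.move rfl h3)), sub_self, mul_zero]
    · have h3 : ∀ d, F (S.en l.1.1 l.1.2.1 l.1.2.2 d) = 0 := fun d => by
        rw [hF, if_neg]
        intro h4
        have hs := AcL.nsp hτ hE0 l0.1.1 hp0 (hle l0) false
        have h5 : S.Cf S.opn (S.en l0.1.1 l0.1.2.1 l0.1.2.2 false)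
            (S.en l.1.1 l.1.2.1 l.1.2.2 d) :=
          h4.imp (fun h5 => h2.opn u hAd _ _ h5 hs) fun h5 => h2.opn u hAd _ _ h5 hs
        have h6 : S.Cf S.opn (S.en l.1.1 l.1.2.1 l.1.2.2 d) (S.up l.1.1 l.1.2.1 l.1.2.2) := by
          cases d
          · exact Sys.Cf.refl _
          · exact Or.inl (AcL.twin hτ hE l.1.1 hp (hle l)).symm
        exact hm ((hM l).2 ⟨hz, ((hM l0).1 hm0).2.trans (h5.trans h6)⟩)
      rw [h3, h3, sub_self, mul_zero]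
  · exact fun h3 => absurd (Finset.mem_univ _) h3

end Pool.Agent.MP_494aff_an.Se
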