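import Mathlib
import Pool.Agent.MP_494aff_an.se.SpecH

/-! The system of bands of a ball and its complex. -/

set_option linter.unusedSectionVars false

open Set
open scoped Pointwise

namespace Pool.Agent.MP_494aff_an.Se

open Pool.Agent.MP_494aff_an.Pinch Pool.Agent.MP_494aff_an.Pinch.TowP Pool.Agent.MP_494aff_an.Lf

noncomputable section

namespace Band

variable {G T K : Type} [Group G] [MetricSpace T] [MulAction G T] {Ln : Set (Set T)}

/-- Displacement of the base point. -/
def nm (o : T) (g : G) : ℝ := dist o (g • o)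

/-- Length of the common part of two segments. -/
def gp (o : T) (g h : G) : ℝ := (nm o g + nm o h - dist (g • o) (h • o)) / 2

open Classical in
/-- The point of the segment at a given distance. -/
def io (o : T) (g : G) (r : ℝ) : T :=
  if h : ∃ z, dist o z = r ∧ dist z (g • o) = nm o g - r then h.choose else o

lemma io_spec (h : Tr G Ln) (o : T) (g : G) {r : ℝ} (h0 : 0 ≤ r) (h1 : r ≤ nm o g) :
    dist o (io o g r) = r ∧ dist (io o g r) (g • o) = nm o g - r := by
  have e : ∃ z, dist o z = r ∧ dist z (g • o) = nm o g - r := h.geo o (g • o) r h0 h1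
  rw [io, dif_pos e]
  exact e.choose_spec

lemma io_eq (h : Tr G Ln) (o : T) (g : G) {r : ℝ} {z : T} (h0 : dist o z = r)
    (h1 : dist z (g • o) ≤ nm o g - r) : io o g r = z := by
  have t1 := dist_triangle o z (g • o)
  have t2 : 0 ≤ dist z (g • o) := dist_nonneg
  obtain ⟨a, b⟩ := io_spec h o g (h0 ▸ dist_nonneg) (show r ≤ nm o g by linarith)
  unfold nm at h1 b
  have := h.uniq o (g • o) (io o g r) z (by linarith) (by linarith)
  rw [a, h0, sub_self, abs_zero] at this
  exact dist_eq_zero.1 this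

lemma nm_inv (h : Tr G Ln) (o : T) (g : G) : nm o g⁻¹ = nm o g := by
  rw [nm, ← h.iso g, smul_inv_smul, dist_comm, nm]

lemma dist_sm (h : Tr G Ln) (o : T) (a b : G) : dist (a • o) (b • o) = nm o (a⁻¹ * b) := by
  rw [← h.iso a⁻¹, inv_smul_smul, nm, mul_smul]

lemma gp_nonneg (o : T) (a b : G) : 0 ≤ gp o a b := by
  have := dist_triangle_left (a • o) (b • o) o
  unfold gp nm
  linarith

lemma gp_le (o : T) (a b : G) : gp o a b ≤ nm o a ∧ gp o a b ≤ nm o b := by
  have h1 := dist_triangle o (a • o) (b • o)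
  have h2 := dist_triangle_right o (a • o) (b • o)
  have h3 := dist_triangle o (b • o) (a • o)
  rw [dist_comm (b • o)] at h3
  unfold gp nm
  constructor <;> linarith

/-- The system. -/
def sys (Ln : Set (Set T)) (o : T) (v : K → G) (iv : K → K) : Sys G T K ((K × K) ⊕ K) where
  Ln := Ln
  len k := nm o (v k)
  ι k r := io o (v k) r
  src := Sum.elim Prod.fst iv
  tgt := Sum.elim Prod.snd id
  lo _ := 0
  hi := Sum.elim (fun p => gp o (v p.1) (v p.2)) fun k => nm o (v k)
  sg := Sum.elim (fun _ => 1) fun _ => -1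
  off := Sum.elim (fun _ => 0) fun k => nm o (v k)
  lab := Sum.elim (fun _ => 1) v

lemma ok (h : Tr G Ln) (o : T) {v : K → G} {iv : K → K} (hv : ∀ k, v (iv k) = (v k)⁻¹) :
    (sys Ln o v iv).Ok where
  tr := h
  len_nonneg _ := dist_nonneg
  iso k r s hr hs := by
    obtain ⟨a, b⟩ := io_spec h o (v k) hr.1 hr.2
    obtain ⟨c, d⟩ := io_spec h o (v k) hs.1 hs.2
    have := h.uniq o (v k • o) _ _ (by rw [a, b, nm]; ring) (by rw [c, d, nm]; ring)
    rwa [a, c] at this
  lo_nonneg _ := le_rfl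
  lo_le := by
    rintro (p | k)
    · exact gp_nonneg o _ _
    · exact dist_nonneg
  hi_le := by
    rintro (p | k)
    · exact (gp_le o _ _).1
    · show nm o (v k) ≤ nm o (v (iv k))
      rw [hv, nm_inv h]
  sg_eq := by
    rintro (p | k)
    · exact Or.inl rfl
    · exact Or.inr rfl
  img := by
    rintro (p | k) r h0 h1
    · change 0 ≤ r at h0
      change r ≤ gp o (v p.1) (v p.2) at h1
      exact ⟨show 0 ≤ 1 * r + 0 by linarith,
        show 1 * r + 0 ≤ nm o (v p.2) by linarith [(gp_le o (v p.1) (v p.2)).2]⟩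
    · change 0 ≤ r at h0
      change r ≤ nm o (v k) at h1
      exact ⟨show 0 ≤ -1 * r + nm o (v k) by linarith,
        show -1 * r + nm o (v k) ≤ nm o (v k) by linarith⟩
  lab_eq := by
    rintro (p | k) r h0 h1
    · change 0 ≤ r at h0
      change r ≤ gp o (v p.1) (v p.2) at h1
      show io o (v p.2) (1 * r + 0) = (1 : G) • io o (v p.1) r
      obtain ⟨μ, m1, m2, m3⟩ := h.med o (v p.1 • o) (v p.2 • o)
      rw [dist_comm _ μ] at m3
      unfold gp nm at h1
      obtain ⟨z, z1, z2⟩ := h.geo o μ r h0 (by linarith)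
      have t1 := dist_triangle z μ (v p.1 • o)
      have t2 := dist_triangle z μ (v p.2 • o)
      rw [one_mul, add_zero, one_smul, io_eq h o _ z1 (by unfold nm; linarith),
        io_eq h o _ z1 (by unfold nm; linarith)]
    · change 0 ≤ r at h0
      change r ≤ nm o (v k) at h1
      show io o (v k) (-1 * r + nm o (v k)) = v k • io o (v (iv k)) r
      rw [hv]
      obtain ⟨a, b⟩ := io_spec h o (v k)⁻¹ h0 (by rwa [nm_inv h])
      rw [nm_inv h] at b
      refine io_eq h o _ ?_ ?_
      · rw [← h.iso (v k)⁻¹, inv_smul_smul, dist_comm, b]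
        ring
      · rw [h.iso, dist_comm, a]
        linarith

variable {Vx E Fc : Type} [MulAction G Vx] {C : Cx G Vx E Fc}

lemma d1_sh (g : G) (ζ : G × E →₀ ℂ) :
    C.d1 (sh g ζ) = Finsupp.lmapDomain ℂ ℂ (fun v => g • v) (C.d1 ζ) := by
  induction ζ using Finsupp.induction_linear with
  | zero => simp
  | add a b ha hb => simp only [map_add, ha, hb]
  | single z c => simp [sh_single, Cx.d1, mul_smul, Finsupp.mapDomain_sub]

lemma sh_mem (g : G) {ζ : G × E →₀ ℂ} (h : ζ ∈ LinearMap.range C.d2) :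
    sh g ζ ∈ LinearMap.range C.d2 := by
  obtain ⟨η, rfl⟩ := h
  refine ⟨sh g η, ?_⟩
  induction η using Finsupp.induction_linear with
  | zero => simp
  | add a b ha hb => simp only [map_add, ha, hb]
  | single z c => simp [sh_single, Cx.d2, sh_sh]

lemma cn_smul (g : G) {u v : Vx} (h : C.Cn univ u v) : C.Cn univ (g • u) (g • v) := by
  induction h with
  | rel a b h =>
    obtain ⟨g', e, he, rfl, rfl⟩ := h
    exact .rel _ _ ⟨g * g', e, he, mul_smul _ _ _, mul_smul _ _ _⟩
  | refl a => exact .refl _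
  | symm a b _ ih => exact .symm _ _ ih
  | trans a b c _ _ h1 h2 => exact .trans _ _ _ h1 h2

variable {o : T} {v : K → G} {iv : K → K} {vx : K × ℝ → Vx} {p : K × ℝ → (G × E →₀ ℂ)}
  {θ : (K × K) ⊕ K → (G × E →₀ ℂ)}

lemma pre0 (O : Out (sys Ln o v iv) C vx p θ) (a b : K) :
    vx (a, 0) = vx (b, 0) ∧ θ (Sum.inl (a, b)) ∈ LinearMap.range C.d2 := by
  obtain ⟨h1, h2⟩ := O.band (Sum.inl (a, b)) 0 le_rfl (gp_nonneg o _ _) (Or.inl rfl)
  change vx (a, 0) = (1 : G)⁻¹ • vx (b, 1 * 0 + 0) at h1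
  change p (a, 0) - sh (1 : G)⁻¹ (p (b, 1 * 0 + 0)) - θ (Sum.inl (a, b)) ∈ _ at h2
  rw [mul_zero, add_zero] at h1 h2
  rw [O.zero, O.zero, map_zero, sub_self, zero_sub, neg_mem_iff] at h2
  exact ⟨by rw [h1, inv_one, one_smul], h2⟩

lemma pre (O : Out (sys Ln o v iv) C vx p θ) (a b : K) :
    p (a, gp o (v a) (v b)) - p (b, gp o (v a) (v b)) ∈ LinearMap.range C.d2 := by
  have h2 := (O.band (Sum.inl (a, b)) (gp o (v a) (v b)) (gp_nonneg o _ _) le_rfl
    (Or.inr (Or.inr ⟨Sum.inl (a, b), _, Or.inr (Or.inl rfl), Or.inl rfl⟩))).2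
  change p (a, gp o (v a) (v b)) - sh (1 : G)⁻¹ (p (b, 1 * gp o (v a) (v b) + 0)) -
    θ (Sum.inl (a, b)) ∈ _ at h2
  rw [one_mul, add_zero, inv_one, sh_one] at h2
  simpa using add_mem h2 (pre0 O a b).2

lemma fl0 (O : Out (sys Ln o v iv) C vx p θ) (a : K) :
    vx (a, nm o (v a)) = v a • vx (a, 0) ∧
      θ (Sum.inr a) + sh (v a)⁻¹ (p (a, nm o (v a))) ∈ LinearMap.range C.d2 := by
  obtain ⟨h1, h2⟩ := O.band (Sum.inr a) 0 le_rfl dist_nonneg (Or.inl rfl)
  change vx (iv a, 0) = (v a)⁻¹ • vx (a, -1 * 0 + nm o (v a)) at h1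
  change p (iv a, 0) - sh (v a)⁻¹ (p (a, -1 * 0 + nm o (v a))) - θ (Sum.inr a) ∈ _ at h2
  rw [mul_zero, zero_add] at h1 h2
  rw [O.zero, zero_sub, ← neg_add', neg_mem_iff, add_comm] at h2
  exact ⟨by rw [(pre0 O a (iv a)).1, h1, smul_inv_smul], h2⟩

lemma fl (O : Out (sys Ln o v iv) C vx p θ) (a : K) {r s : ℝ} (h0 : 0 ≤ r) (h1 : 0 ≤ s)
    (e : r + s = nm o (v a)) (q : (sys Ln o v iv).Q (iv a, r)) :
    sh (v a) (p (iv a, r)) - p (a, s) + p (a, nm o (v a)) ∈ LinearMap.range C.d2 := by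
  have h2 := (O.band (Sum.inr a) r h0 (show r ≤ nm o (v a) by linarith) q).2
  change p (iv a, r) - sh (v a)⁻¹ (p (a, -1 * r + nm o (v a))) - θ (Sum.inr a) ∈ _ at h2
  rw [show -1 * r + nm o (v a) = s by linarith] at h2
  have := sh_mem (v a) (add_mem h2 (fl0 O a).2)
  simp only [map_add, map_sub, sh_sh, mul_inv_cancel, sh_one] at this
  convert this using 1
  abel

lemma tri (h : Tr G Ln) (hv : ∀ k, v (iv k) = (v k)⁻¹) (O : Out (sys Ln o v iv) C vx p θ)
    (a b c : K) (e : v c = v a * v b) :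
    p (c, nm o (v c)) - p (a, nm o (v a)) - sh (v a) (p (b, nm o (v b))) ∈
      LinearMap.range C.d2 := by
  have g1 : gp o (v a) (v c) = (nm o (v a) + nm o (v c) - nm o (v b)) / 2 := by
    rw [gp, dist_sm h, e, inv_mul_cancel_left]
  have g2 : gp o (v (iv a)) (v b) = (nm o (v a) + nm o (v b) - nm o (v c)) / 2 := by
    rw [gp, dist_sm h, hv, inv_inv, ← e, nm_inv h]
  have g3 : gp o (v (iv b)) (v (iv c)) = (nm o (v b) + nm o (v c) - nm o (v a)) / 2 := by
    rw [gp, dist_sm h, hv, hv, inv_inv, nm_inv h, nm_inv h, e, mul_inv_rev, mul_inv_cancel_left,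
      nm_inv h]
  have u1 := pre O a c
  have u2 := fl O a (gp_nonneg o (v (iv a)) (v b)) (gp_nonneg o (v a) (v c)) (by linarith)
    (Or.inr (Or.inr ⟨Sum.inl (iv a, b), _, Or.inr (Or.inl rfl), Or.inl rfl⟩))
  have u3 := sh_mem (v a) (pre O (iv a) b)
  have u4 := sh_mem (v a) (fl O b (gp_nonneg o (v (iv b)) (v (iv c)))
    (gp_nonneg o (v (iv a)) (v b)) (by linarith)
    (Or.inr (Or.inr ⟨Sum.inl (iv b, iv c), _, Or.inr (Or.inl rfl), Or.inl rfl⟩)))
  have u5 := sh_mem (v c) (pre O (iv b) (iv c))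
  have u6 := fl O c (gp_nonneg o (v (iv b)) (v (iv c))) (gp_nonneg o (v a) (v c)) (by linarith)
    (Or.inr (Or.inr ⟨Sum.inl (iv b, iv c), _, Or.inr (Or.inl rfl), Or.inr (Prod.ext rfl (by
      show gp o (v (iv b)) (v (iv c)) = 1 * gp o (v (iv b)) (v (iv c)) + 0
      ring))⟩))
  simp only [map_add, map_sub, sh_sh, ← e] at u3 u4 u5
  convert sub_mem (add_mem (sub_mem (sub_mem (add_mem u6 u5) u4) u2) u3) u1 using 1
  abel

/-- An affine permutation of the chains. -/
def aff (z : G × E →₀ ℂ) (g : G) : Equiv.Perm (G × E →₀ ℂ) where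
  toFun ζ := z + sh g ζ
  invFun ζ := sh g⁻¹ (ζ - z)
  left_inv ζ := by simp [sh_sh, sh_one]
  right_inv ζ := by simp only [sh_sh, mul_inv_cancel, sh_one, add_sub_cancel]

lemma ex_coc {α : Type} (y : α → G) (X : α → (G × E →₀ ℂ)) :
    ∃ x : FreeGroup α → (G × E →₀ ℂ), (∀ i, x (FreeGroup.of i) = X i) ∧
      ∀ w w', x (w * w') = x w + sh (FreeGroup.lift y w) (x w') := by
  have key : ∀ w ζ, FreeGroup.lift (fun i => aff (X i) (y i)) w ζ =
      FreeGroup.lift (fun i => aff (X i) (y i)) w 0 + sh (FreeGroup.lift y w) ζ := by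
    intro w
    induction w using FreeGroup.induction_on with
    | C1 => simp [sh_one]
    | of i => simp [aff]
    | inv_of i _ =>
      intro ζ
      simp only [map_inv, FreeGroup.lift_apply_of]
      show sh (y i)⁻¹ (ζ - X i) = sh (y i)⁻¹ (0 - X i) + sh (y i)⁻¹ ζ
      rw [← map_add]
      congr 1
      abel
    | mul a b ha hb =>
      intro ζ
      simp only [map_mul, Equiv.Perm.mul_apply]
      rw [ha, hb, ha (FreeGroup.lift (fun i => aff (X i) (y i)) b 0), map_add, sh_sh, add_assoc]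
  refine ⟨fun w => FreeGroup.lift (fun i => aff (X i) (y i)) w 0, fun i => by simp [aff],
    fun w w' => ?_⟩
  simp only [map_mul, Equiv.Perm.mul_apply]
  exact key _ _

end Band

open Band in
theorem band (hG : GeoStmt) (hP : PvStmt) : BandStmt := by
  intro G T _ _ _ Ln m y n h hA hT hy
  obtain ⟨o⟩ := h.ne
  have cG : Countable G := Function.Surjective.countable
    (f := fun L : List (Fin m × Bool) => FreeGroup.lift y (FreeGroup.mk L)) fun g => by
      obtain ⟨w, rfl⟩ := hy g
      exact ⟨w.toWord, by simp only [FreeGroup.mk_toWord]⟩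
  let K := {L : List (Fin m × Bool) // L.length ≤ n + 1}
  have fK : Finite K := (List.finite_length_le (Fin m × Bool) (n + 1)).to_subtype
  let _ : Fintype K := Fintype.ofFinite K
  let v : K → G := fun L => FreeGroup.lift y (FreeGroup.mk L.1)
  let iv : K → K := fun L => ⟨FreeGroup.invRev L.1, by rw [FreeGroup.invRev_length]; exact L.2⟩
  have hv : ∀ k, v (iv k) = (v k)⁻¹ := fun k => by
    show FreeGroup.lift y (FreeGroup.mk (FreeGroup.invRev k.1)) = _
    rw [← FreeGroup.inv_mk, map_inv]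
  obtain ⟨Vx, E, Fc, _, _, _, C, vx, p, θ, O⟩ := hG G T K _ (sys Ln o v iv) (ok h o hv)
  let k0 : K := ⟨[], by simp⟩
  let k1 : Fin m × Bool → K := fun s => ⟨[s], by simp⟩
  have v1 : ∀ i, v (k1 (i, true)) = y i := fun i => FreeGroup.lift_apply_of
  obtain ⟨x, x1, xc⟩ := ex_coc y fun i => p (k1 (i, true), nm o (v (k1 (i, true))))
  have x0 : x 1 = 0 := by
    have := xc 1 1
    rw [mul_one, map_one, sh_one] at this
    exact left_eq_add.1 this
  have xi : ∀ w, x w⁻¹ = -sh (FreeGroup.lift y w)⁻¹ (x w) := fun w => by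
    have := xc w⁻¹ w
    rw [inv_mul_cancel, x0, map_inv] at this
    exact eq_neg_of_add_eq_zero_left this.symm
  have p0 : ∀ k, v k = 1 → p (k, nm o (v k)) = 0 := fun k hk => by
    rw [hk, nm, one_smul, dist_self, O.zero]
  have top : ∀ k, vx (k, nm o (v k)) = v k • vx (k0, 0) := fun k => by
    rw [(fl0 O k).1, (pre0 O k k0).1]
  have one : ∀ s, x (FreeGroup.mk [s]) - p (k1 s, nm o (v (k1 s))) ∈ LinearMap.range C.d2 := by
    rintro ⟨i, _ | _⟩
    · have e1 : FreeGroup.mk [(i, false)] = (FreeGroup.of i)⁻¹ := rfl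
      have e2 : v (k1 (i, false)) = (y i)⁻¹ := by
        show FreeGroup.lift y (FreeGroup.mk [(i, false)]) = _
        rw [e1, map_inv, FreeGroup.lift_apply_of]
      have := tri h hv O (k1 (i, false)) (k1 (i, true)) k0 (by
        rw [e2, v1, inv_mul_cancel]
        exact map_one _)
      rw [p0 k0 (map_one _)] at this
      rw [e1, xi, x1, FreeGroup.lift_apply_of, ← e2]
      convert this using 1
      abel
    · rw [show FreeGroup.mk [(i, true)] = FreeGroup.of i from rfl, x1, sub_self]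
      exact zero_mem _
  have lst : ∀ k : K, x (FreeGroup.mk k.1) - p (k, nm o (v k)) ∈ LinearMap.range C.d2 := by
    rintro ⟨L, hL⟩
    induction L with
    | nil =>
      rw [p0 _ (map_one _), sub_zero]
      exact x0 ▸ zero_mem _
    | cons s L ih =>
      have hL' : L.length ≤ n + 1 := (Nat.le_succ _).trans hL
      have e1 : FreeGroup.mk (s :: L) = FreeGroup.mk [s] * FreeGroup.mk L := rfl
      have t1 := tri h hv O (k1 s) ⟨L, hL'⟩ ⟨s :: L, hL⟩ (by
        show FreeGroup.lift y (FreeGroup.mk (s :: L)) = _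
        rw [e1, map_mul])
      have t2 := sh_mem (v (k1 s)) (ih hL')
      rw [map_sub] at t2
      show x (FreeGroup.mk (s :: L)) - _ ∈ _
      rw [e1, xc]
      convert sub_mem (add_mem (one s) t2) t1 using 1
      abel
  have cn : ∀ w, C.Cn univ (vx (k0, 0)) (FreeGroup.lift y w • vx (k0, 0)) := by
    intro w
    induction w using FreeGroup.induction_on with
    | C1 =>
      rw [map_one, one_smul]
      exact .refl _
    | of i =>
      have := O.con' (k1 (i, true), nm o (v (k1 (i, true)))) (Or.inr (Or.inl rfl))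
      rw [top, (pre0 O (k1 (i, true)) k0).1, v1] at this
      rw [FreeGroup.lift_apply_of]
      exact .symm _ _ this
    | inv_of i ih =>
      have := cn_smul (FreeGroup.lift y (FreeGroup.of i))⁻¹ ih
      rw [inv_smul_smul] at this
      rw [map_inv]
      exact .symm _ _ this
    | mul a b ha hb =>
      rw [map_mul, mul_smul]
      exact .trans _ _ _ ha (cn_smul _ hb)
  refine ⟨Vx, E, Fc, _, ‹_›, ‹_›, C, vx (k0, 0), x, O.ok, O.fin, fun u => ?_, xc, fun w => ?_,
    fun w h1 h2 => ?_, fun u => ?_, ?_⟩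
  · obtain ⟨h1, z, h2⟩ := O.stab u
    exact hP G T Ln _ z h hA hT h1 h2
  · induction w using FreeGroup.induction_on with
    | C1 => rw [x0, map_zero, map_one, one_smul, sub_self]
    | of i =>
      rw [x1, O.bd _ (Or.inr (Or.inl rfl)), top, (pre0 O (k1 (i, true)) k0).1, v1,
        FreeGroup.lift_apply_of]
    | inv_of i ih =>
      rw [xi, map_neg, d1_sh, ih, map_inv]
      simp [Finsupp.mapDomain_sub]
    | mul a b ha hb =>
      rw [xc, map_add, d1_sh, ha, hb, map_mul]
      simp [Finsupp.mapDomain_sub, mul_smul]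
  · have := lst ⟨w.toWord, h2.trans (Nat.le_succ _)⟩
    rwa [p0 _ (by simpa only [v, FreeGroup.mk_toWord] using h1), sub_zero,
      FreeGroup.mk_toWord] at this
  · obtain ⟨g, k, h1⟩ := O.con u
    obtain ⟨w, rfl⟩ := hy g
    rw [(pre0 O k k0).1] at h1
    exact .trans _ _ _ (cn w) (.symm _ _ h1)
  · choose sec hs using hy
    have same : ∀ w w', FreeGroup.lift y w = FreeGroup.lift y w' → x w' - x w ∈
        LinearMap.range C.d2 ⊔
          Submodule.span ℂ {z | ∃ g w, FreeGroup.lift y w = 1 ∧ z = sh g (x w)} := fun w w' e => by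
      have := xc w (w⁻¹ * w')
      rw [mul_inv_cancel_left] at this
      rw [this, add_sub_cancel_left]
      exact Submodule.mem_sup_right (Submodule.subset_span
        ⟨_, _, by rw [map_mul, map_inv, e, inv_mul_cancel], rfl⟩)
    refine O.gen _ (fun g _ => x (sec g)) le_sup_left (fun g ζ hζ => ?_) ?_
    · obtain ⟨a, ha, b, hb, rfl⟩ := Submodule.mem_sup.1 hζ
      rw [map_add]
      refine Submodule.add_mem_sup (sh_mem g ha) ?_
      refine Submodule.span_induction (fun z hz => ?_) ?_ (fun a b _ _ h1 h2 => ?_)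
        (fun c a _ h1 => ?_) hb
      · obtain ⟨g', w, h1, rfl⟩ := hz
        exact Submodule.subset_span ⟨g * g', w, h1, sh_sh _ _ _⟩
      · rw [map_zero]
        exact zero_mem _
      · rw [map_add]
        exact add_mem h1 h2
      · rw [map_smul]
        exact Submodule.smul_mem _ _ h1
    · rintro g (q | k)
      · show x (sec g) - x (sec (g * (1 : G)⁻¹)) + sh g (θ (Sum.inl q)) ∈ _
        rw [inv_one, mul_one, sub_self, zero_add]
        exact Submodule.mem_sup_left (sh_mem g (pre0 O q.1 q.2).2)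
      · show x (sec g) - x (sec (g * (v k)⁻¹)) + sh g (θ (Sum.inr k)) ∈ _
        have t1 := same (sec (g * (v k)⁻¹) * FreeGroup.mk k.1) (sec g) (by
          rw [map_mul, hs, hs]
          exact inv_mul_cancel_right _ _)
        have t2 := sh_mem g (fl0 O k).2
        have t3 := sh_mem (g * (v k)⁻¹) (lst k)
        rw [xc, hs] at t1
        rw [map_add, sh_sh] at t2
        rw [map_sub] at t3
        convert add_mem t1 (Submodule.mem_sup_left (add_mem t2 t3)) using 1
        abel

end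

end Pool.Agent.MP_494aff_an.Se
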