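import Mathlib
import Pool.Agent.MP_494aff_an.se.SpecH

/-! Cells of a narrowed system of bands. -/

set_option linter.unusedVariables false
set_option linter.unusedSectionVars false

open Set
open scoped Pointwise

namespace Pool.Agent.MP_494aff_an.Se

open Pool.Agent.MP_494aff_an.Pinch Pool.Agent.MP_494aff_an.Pinch.TowP Pool.Agent.MP_494aff_an.Lf

namespace CellP

open Sys

variable {G T K B : Type} [Group G] [MetricSpace T] [MulAction G T]
  {S : Sys G T K B} {t : B × Bool → ℝ} {Y : Set (K × ℝ)}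

lemma nd_mk {x : K × ℝ} (hx : S.Mk t x ∨ x ∈ Y) : S.Nd t Y x :=
  Or.inr ⟨⟨1, x.1, x.2, 1⟩, ⟨1, x.1, x.2, 1⟩, rfl, Cn.refl _, rfl, hx⟩

lemma nd_sp {x : K × ℝ} (hx : S.Sp x) : S.Nd t Y x := Or.inl hx

lemma val_Q (h : S.Ok) {x : K × ℝ} (hx : S.Q x) : S.Val x := by
  rcases hx with hx | hx | ⟨b, r, hr, hx⟩
  · exact ⟨hx.ge, hx.le.trans (h.len_nonneg _)⟩
  · exact ⟨(h.len_nonneg _).trans hx.ge, hx.le⟩
  · have hl := h.lo_le b
    have hb : S.lo b ≤ r ∧ r ≤ S.hi b := by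
      rcases hr with rfl | rfl | rfl
      · exact ⟨le_rfl, hl⟩
      · exact ⟨hl, le_rfl⟩
      · constructor <;> unfold Sys.mid <;> linarith
    rcases hx with rfl | rfl
    · exact val_src h hb.1 hb.2
    · exact h.img b r hb.1 hb.2

lemma val_mk (h : S.Ok) (ht : S.Ad t) {x : K × ℝ} (hx : S.Mk t x) : S.Val x := by
  rcases hx with hx | ⟨e, s, he, rfl⟩
  · exact val_Q h hx
  · obtain ⟨τ, h1, h2⟩ := ht
    exact (val_en h h1 he.1 1 (h2.nonneg e) (h2.le h1.pos.le e) s).1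

lemma val_nd (h : S.Ok) (ht : S.Ad t) (hY : ∀ y ∈ Y, S.Val y) {x : K × ℝ} (hx : S.Nd t Y x) :
    S.Val x := by
  rcases hx with ⟨A, _, hA⟩ | ⟨a, a', _, hc, rfl, hm⟩
  · exact hA.1
  · exact (Cn.val h (fun _ _ => al_base ht) hc).2 (hm.elim (val_mk h ht) (hY _))

lemma nd_iff {a : St G K} (hU : a.U) :
    S.Nd t Y a.p ↔ S.Sp a.p ∨ ∃ d, S.Cn (S.al t) a d ∧ (S.Mk t d.p ∨ d.p ∈ Y) := by
  refine or_congr_right ⟨?_, ?_⟩
  · rintro ⟨c, c', h1, hc, hp, hm⟩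
    have hk : c.k = a.k := congrArg Prod.fst hp
    have hr : c.r = a.r := congrArg Prod.snd hp
    have hs := hc.sm (a.g * c.g⁻¹)
    rcases hU with hU | hU
    · have e : St.sm (a.g * c.g⁻¹) c = a := by
        ext <;> simp [St.sm, hk, hr, h1, hU]
      rw [e] at hs
      exact ⟨_, hs, hm⟩
    · have e : St.sm (a.g * c.g⁻¹) c = a.fl := by
        ext <;> simp [St.sm, St.fl, hk, hr, h1, hU]
      rw [e] at hs
      exact ⟨_, cn_fl.1 hs, hm⟩
  · rintro ⟨d, hc, hm⟩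
    rcases hU with hU | hU
    · exact ⟨a, d, hU, hc, rfl, hm⟩
    · exact ⟨a.fl, d.fl, by simp [St.fl, hU], hc.fl, rfl, hm⟩

lemma nd_cn (h : S.Ok) (h2 : S.Lvs) (ht : S.Ad t) {a a' : St G K} (hU : a.U)
    (hc : S.Cn (S.al t) a a') : S.Nd t Y a.p ↔ S.Nd t Y a'.p := by
  rw [nd_iff hU, nd_iff ((Cn.U h hc).1 hU)]
  refine or_congr (h2.sp t ht a a' hc) ⟨?_, ?_⟩
  · rintro ⟨d, hd, hm⟩
    exact ⟨d, hc.symm.trans hd, hm⟩
  · rintro ⟨d, hd, hm⟩
    exact ⟨d, hc.trans hd, hm⟩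

lemma reg_cn (h : S.Ok) (h2 : S.Lvs) (ht : S.Ad t) {a a' : St G K}
    (hc : S.Cn (S.al t) a a') (ha : S.Reg t Y a) : S.Reg t Y a' :=
  ⟨(Cn.val h (fun _ _ => al_base ht) hc).1 ha.1,
    fun hn => ha.2.1 ((nd_cn h h2 ht ha.2.2 hc).2 hn), (Cn.U h hc).1 ha.2.2⟩

lemma span_reg {a : St G K} {m M : ℝ} (hs : S.Span t Y a m M) : S.Reg t Y a := by
  simpa using hs.reg 0 hs.neg hs.pos

lemma uniq {a : St G K} {m M m' M' : ℝ} (hs : S.Span t Y a m M) (hs' : S.Span t Y a m' M') :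
    m = m' ∧ M = M' := by
  refine ⟨le_antisymm (not_lt.1 fun hl => ?_) (not_lt.1 fun hl => ?_),
    le_antisymm (not_lt.1 fun hl => ?_) (not_lt.1 fun hl => ?_)⟩
  · exact (hs'.reg m hl (hs.neg.trans hs'.pos)).2.1 hs.lo
  · exact (hs.reg m' hl (hs'.neg.trans hs.pos)).2.1 hs'.lo
  · exact (hs.reg M' (hs.neg.trans hs'.pos) hl).2.1 hs'.hi
  · exact (hs'.reg M (hs'.neg.trans hs.pos) hl).2.1 hs.hi

lemma span_sh {a : St G K} {m M s : ℝ} (hs : S.Span t Y a m M) (h1 : m < s) (h2 : s < M) :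
    S.Span t Y (a.sh s) (m - s) (M - s) where
  neg := by linarith
  pos := by linarith
  lo := by rw [St.sh_sh, add_sub_cancel]; exact hs.lo
  hi := by rw [St.sh_sh, add_sub_cancel]; exact hs.hi
  reg s' p q := by rw [St.sh_sh]; exact hs.reg _ (by linarith) (by linarith)

lemma span_fl {a : St G K} {m M : ℝ} (hs : S.Span t Y a m M) :
    S.Span t Y a.fl (-M) (-m) where
  neg := by linarith [hs.pos]
  pos := by linarith [hs.neg]
  lo := by rw [St.fl_sh, neg_neg]; exact hs.hi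
  hi := by rw [St.fl_sh, neg_neg]; exact hs.lo
  reg s p q := by
    rw [St.fl_sh]
    have := hs.reg (-s) (by linarith) (by linarith)
    exact ⟨this.1, this.2.1, this.2.2.fl⟩

lemma span_congr {a c : St G K} {m M : ℝ} (hk : c.k = a.k) (hr : c.r = a.r) (hσ : c.σ = a.σ)
    (hs : S.Span t Y a m M) : S.Span t Y c m M := by
  have e : c = St.sm (c.g * a.g⁻¹) a := by ext <;> simp [St.sm, hk, hr, hσ]
  rw [e]
  exact ⟨hs.neg, hs.pos, hs.lo, hs.hi, hs.reg⟩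

lemma span_out {a : St G K} {m M z : ℝ} (hs : S.Span t Y a m M) (hz : S.Nd t Y (a.k, z)) :
    a.σ * (z - a.r) ≤ m ∨ M ≤ a.σ * (z - a.r) := by
  by_contra hc
  push Not at hc
  refine (hs.reg _ hc.1 hc.2).2.1 ?_
  have e : (a.sh (a.σ * (z - a.r))).p = (a.k, z) := by
    rcases (span_reg hs).2.2 with e | e <;> simp [St.sh, St.p, e]
  rw [e]
  exact hz

lemma nd_lo (ht : S.Ad t) (b : B) : S.Nd t Y (S.src b, S.lo b + t (b, false)) := by
  obtain ⟨τ, h1, h2⟩ := ht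
  refine nd_mk (Or.inl ?_)
  by_cases he : S.En (b, false)
  · exact Or.inr ⟨(b, false), false, he, by simp [Sys.en, Sys.up, St.p]⟩
  · rw [(h2 _).2 he, add_zero]
    exact Or.inl (Or.inr (Or.inr ⟨b, _, Or.inl rfl, Or.inl rfl⟩))

lemma nd_hi (ht : S.Ad t) (b : B) : S.Nd t Y (S.src b, S.hi b - t (b, true)) := by
  obtain ⟨τ, h1, h2⟩ := ht
  refine nd_mk (Or.inl ?_)
  by_cases he : S.En (b, true)
  · exact Or.inr ⟨(b, true), false, he, by simp [Sys.en, Sys.up, St.p]⟩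
  · rw [(h2 _).2 he, sub_zero]
    exact Or.inl (Or.inr (Or.inr ⟨b, _, Or.inr (Or.inl rfl), Or.inl rfl⟩))

lemma allow (ht : S.Ad t) {a : St G K} {m M s : ℝ} {b : B} (hs : S.Span t Y a m M)
    (hk : a.k = S.src b) (h1 : m < s) (h2 : s < M) (ha : S.al t b (a.sh s).r) {s' : ℝ}
    (h3 : m ≤ s') (h4 : s' ≤ M) : S.al t b (a.sh s').r := by
  have p := span_out hs (z := S.lo b + t (b, false)) (by rw [hk]; exact nd_lo ht b)
  have q := span_out hs (z := S.hi b - t (b, true)) (by rw [hk]; exact nd_hi ht b)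
  obtain ⟨a1, a2, a3⟩ := ha
  simp only [St.sh] at a2 a3 ⊢
  refine ⟨a1, ?_, ?_⟩
  · rcases (span_reg hs).2.2 with e | e <;> rw [e] at p a2 ⊢ <;> rcases p with p | p <;> linarith
  · rcases (span_reg hs).2.2 with e | e <;> rw [e] at q a3 ⊢ <;> rcases q with q | q <;> linarith

/-- The finite set of ends. -/
def Zf (S : Sys G T K B) (t : B × Bool → ℝ) (Y : Set (K × ℝ)) : Set (K × ℝ) :=
  {x | S.Nd t Y x ∧ ¬ S.Sp x} ∪
    ⋃ y ∈ {y | S.SpA y}, {(y.1, sInf (S.arc y.1 y.2)), (y.1, sSup (S.arc y.1 y.2))}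

lemma zf_fin (h1 : S.Spc) (h2 : S.Lvs) (ht : S.Ad t) (hY : Y.Finite) : (Zf S t Y).Finite :=
  (h2.nd t ht Y hY).union (h1.fin.biUnion fun _ _ => (finite_singleton _).insert _)

lemma zf_ends {k : K} {A : Set T} {u v : ℝ} (hA : S.SpA (k, A)) (huv : u < v)
    (e : S.arc k A = Icc u v) : (k, u) ∈ Zf S t Y ∧ (k, v) ∈ Zf S t Y := by
  refine ⟨Or.inr (mem_biUnion (x := (k, A)) hA ?_), Or.inr (mem_biUnion (x := (k, A)) hA ?_)⟩
  · simp [e, csInf_Icc huv.le]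
  · simp [e, csSup_Icc huv.le]

lemma zf_nd (h1 : S.Spc) {x : K × ℝ} (hx : x ∈ Zf S t Y) : S.Nd t Y x := by
  rcases hx with hx | hx
  · exact hx.1
  · simp only [mem_iUnion, mem_ofPred_eq, mem_insert_iff, mem_singleton_iff] at hx
    obtain ⟨⟨k, A⟩, hA, hx⟩ := hx
    obtain ⟨u, v, huv, e⟩ := h1.icc k A hA.1
    rcases hx with rfl | rfl
    · exact nd_sp ⟨A, hA, by simp [e, csInf_Icc huv.le, huv.le]⟩
    · exact nd_sp ⟨A, hA, by simp [e, csSup_Icc huv.le, huv.le]⟩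

lemma zf_left (h1 : S.Spc) {k : K} {r r' : ℝ} (hn : S.Nd t Y (k, r)) (hr : r < r')
    (hs : ∀ s, r < s → s < r' → ¬ S.Sp (k, s)) : (k, r) ∈ Zf S t Y := by
  by_cases hp : S.Sp (k, r)
  · obtain ⟨A, hA, hx⟩ := hp
    obtain ⟨u, v, huv, e⟩ := h1.icc k A hA.1
    simp only [e] at hx
    rcases hx.2.eq_or_lt with e' | hl
    · rw [e']; exact (zf_ends hA huv e).2
    · have a1 := min_le_left v r'
      have a2 := min_le_right v r'
      have a3 : r < min v r' := lt_min hl hr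
      refine absurd ⟨A, hA, ?_⟩ (hs ((r + min v r') / 2) (by linarith) (by linarith))
      simp only [e]
      exact ⟨by linarith [hx.1], by linarith⟩
  · exact Or.inl ⟨hn, hp⟩

lemma zf_right (h1 : S.Spc) {k : K} {r r' : ℝ} (hn : S.Nd t Y (k, r')) (hr : r < r')
    (hs : ∀ s, r < s → s < r' → ¬ S.Sp (k, s)) : (k, r') ∈ Zf S t Y := by
  by_cases hp : S.Sp (k, r')
  · obtain ⟨A, hA, hx⟩ := hp
    obtain ⟨u, v, huv, e⟩ := h1.icc k A hA.1
    simp only [e] at hx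
    rcases hx.1.eq_or_lt with e' | hl
    · rw [← e']; exact (zf_ends hA huv e).1
    · have a1 := le_max_left u r
      have a2 := le_max_right u r
      have a3 : max u r < r' := max_lt hl hr
      refine absurd ⟨A, hA, ?_⟩ (hs ((r' + max u r) / 2) (by linarith) (by linarith))
      simp only [e]
      exact ⟨by linarith, by linarith [hx.2]⟩
  · exact Or.inl ⟨hn, hp⟩

lemma nd_closed (h1 : S.Spc) (h2 : S.Lvs) (ht : S.Ad t) (hY : Y.Finite) (k : K) :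
    IsClosed {r | S.Nd t Y (k, r)} := by
  have e : {r | S.Nd t Y (k, r)} = (Prod.mk k) ⁻¹' {x | S.Nd t Y x ∧ ¬ S.Sp x} ∪
      ⋃ A ∈ (Prod.mk k) ⁻¹' {y | S.SpA y}, S.arc k A := by
    ext r
    simp only [mem_ofPred_eq, mem_union, mem_preimage, mem_iUnion, exists_prop]
    constructor
    · intro hn
      by_cases hp : S.Sp (k, r)
      · exact Or.inr hp
      · exact Or.inl ⟨hn, hp⟩
    · rintro (hn | hp)
      · exact hn.1
      · exact nd_sp hp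
  rw [e]
  refine IsClosed.union (Finite.isClosed ?_) (Finite.isClosed_biUnion ?_ fun A hA => ?_)
  · exact (h2.nd t ht Y hY).preimage (Prod.mk_right_injective k).injOn
  · exact h1.fin.preimage (Prod.mk_right_injective k).injOn
  · obtain ⟨u, v, _, e⟩ := h1.icc k A hA.1
    rw [e]
    exact isClosed_Icc

/-- A span from two neighbouring nodes. -/
lemma span_of (h : S.Ok) (ht : S.Ad t) (hY : ∀ y ∈ Y, S.Val y) {k : K} {u v r : ℝ} (g : G)
    (hu : S.Nd t Y (k, u)) (hv : S.Nd t Y (k, v)) (h3 : u < r) (h4 : r < v)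
    (hn : ∀ s, u < s → s < v → ¬ S.Nd t Y (k, s)) :
    S.Span t Y ⟨g, k, r, 1⟩ (u - r) (v - r) where
  neg := by linarith
  pos := by linarith
  lo := by simpa [St.sh, St.p] using hu
  hi := by simpa [St.sh, St.p] using hv
  reg s p q := by
    have a1 := (val_nd h ht hY hu).1
    have a2 := (val_nd h ht hY hv).2
    refine ⟨⟨?_, ?_⟩, ?_, Or.inl rfl⟩
    · simp only [St.sh, St.p] at a1 ⊢; linarith
    · simp only [St.sh, St.p] at a2 ⊢; linarith
    · exact hn _ (by simp only [St.sh]; linarith) (by simp only [St.sh]; linarith)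

lemma ex (h : S.Ok) (h1 : S.Spc) (h2 : S.Lvs) (ht : S.Ad t) (hY : Y.Finite)
    (hV : ∀ y ∈ Y, S.Val y) {a : St G K} (ha : S.Reg t Y a) : ∃ m M, S.Span t Y a m M := by
  have hc := nd_closed h1 h2 ht hY a.k
  have c1 : IsCompact ({r | S.Nd t Y (a.k, r)} ∩ Icc 0 a.r) := isCompact_Icc.inter_left hc
  have c2 : IsCompact ({r | S.Nd t Y (a.k, r)} ∩ Icc a.r (S.len a.k)) :=
    isCompact_Icc.inter_left hc
  obtain ⟨u, hu, hu'⟩ := c1.exists_isGreatest ⟨0, S.nd_zero t Y a.k, le_rfl, ha.1.1⟩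
  obtain ⟨v, hv, hv'⟩ := c2.exists_isLeast
    ⟨S.len a.k, nd_mk (Or.inl (Or.inl (Or.inr (Or.inl rfl)))), ha.1.2, le_rfl⟩
  have h3 : u < a.r := lt_of_le_of_ne hu.2.2 fun e => ha.2.1 (by have := hu.1; rwa [e] at this)
  have h4 : a.r < v := lt_of_le_of_ne hv.2.1 fun e => ha.2.1 (by have := hv.1; rwa [← e] at this)
  have hs := span_of h ht hV a.g hu.1 hv.1 h3 h4 fun s p q hn => by
    rcases le_total s a.r with l | l
    · exact absurd (hu' ⟨hn, hu.2.1.trans p.le, l⟩) (not_le.2 p)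
    · exact absurd (hv' ⟨hn, l, q.le.trans hv.2.2⟩) (not_le.2 q)
  rcases ha.2.2 with e | e
  · exact ⟨_, _, span_congr (a := ⟨a.g, a.k, a.r, 1⟩) rfl rfl e hs⟩
  · exact ⟨_, _, span_congr (a := St.fl ⟨a.g, a.k, a.r, 1⟩) rfl rfl (by simp [St.fl, e])
      (span_fl hs)⟩

lemma fw (h : S.Ok) (h2 : S.Lvs) (ht : S.Ad t) {c : St G K} {b : B} {m M : ℝ}
    (hk : c.k = S.src b) (ha : S.al t b c.r) (hs : S.Span t Y c m M) :
    S.Span t Y (S.im b c) m M ∧
      ∀ s, m ≤ s → s ≤ M → S.Cn (S.al t) (c.sh s) ((S.im b c).sh s) := by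
  have key : ∀ s, m ≤ s → s ≤ M → S.Cn (S.al t) (c.sh s) ((S.im b c).sh s) := fun s p q => by
    rw [im_sh]
    exact Cn.move hk (allow ht hs hk hs.neg hs.pos (by simpa using ha) p q)
  have hU := (span_reg hs).2.2
  have hm := (hs.neg.trans hs.pos).le
  exact ⟨⟨hs.neg, hs.pos, (nd_cn h h2 ht (hU.sh _) (key m le_rfl hm)).1 hs.lo,
    (nd_cn h h2 ht (hU.sh _) (key M hm le_rfl)).1 hs.hi,
    fun s p q => reg_cn h h2 ht (key s p.le q.le) (hs.reg s p q)⟩, key⟩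

lemma tr (h : S.Ok) (h1 : S.Spc) (h2 : S.Lvs) (ht : S.Ad t) (hY : Y.Finite)
    (hV : ∀ y ∈ Y, S.Val y) {a a' : St G K} {m M : ℝ} (hc : S.Cn (S.al t) a a')
    (hs : S.Span t Y a m M) : S.Span t Y a' m M ∧
      ∀ s, m ≤ s → s ≤ M → S.Cn (S.al t) (a.sh s) (a'.sh s) := by
  have key : (S.Span t Y a m M ↔ S.Span t Y a' m M) ∧
      (S.Span t Y a m M → ∀ s, m ≤ s → s ≤ M → S.Cn (S.al t) (a.sh s) (a'.sh s)) := by
    refine Cn.ind (R := fun c c' => (S.Span t Y c m M ↔ S.Span t Y c' m M) ∧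
      (S.Span t Y c m M → ∀ s, m ≤ s → s ≤ M → S.Cn (S.al t) (c.sh s) (c'.sh s)))
      ⟨?_, ?_, ?_⟩ ?_ hc
    · exact fun x => ⟨Iff.rfl, fun _ _ _ _ => Cn.refl _⟩
    · exact fun i => ⟨i.1.symm, fun hy s p q => (i.2 (i.1.2 hy) s p q).symm⟩
    · exact fun i j => ⟨i.1.trans j.1, fun hx s p q => (i.2 hx s p q).trans (j.2 (i.1.1 hx) s p q)⟩
    · intro c b hk ha
      refine ⟨⟨fun hx => (fw h h2 ht hk ha hx).1, fun hy => ?_⟩, fun hx => (fw h h2 ht hk ha hx).2⟩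
      obtain ⟨m', M', hx⟩ := ex h h1 h2 ht hY hV
        (reg_cn h h2 ht (Cn.move hk ha).symm (span_reg hy))
      obtain ⟨rfl, rfl⟩ := uniq (fw h h2 ht hk ha hx).1 hy
      exact hx
  exact ⟨key.1.1 hs, key.2 hs⟩

lemma g1 (h1 : S.Spc) (h2 : S.Lvs) (ht : S.Ad t) {a a' : St G K} (ha : S.Reg t Y a)
    (hc : S.Cn (S.al t) a a') (hp : a'.p = a.p) : a' = a :=
  have hn : ¬ S.Sp a.p := fun e => ha.2.1 (nd_sp e)
  h1.g1 a a' ha.2.2 hn (h2.opn t ht a a' hc hn) hp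

lemma same (h : S.Ok) (h1 : S.Spc) (h2 : S.Lvs) (ht : S.Ad t) (hY : Y.Finite)
    (hV : ∀ y ∈ Y, S.Val y) {a c : St G K} {m M s : ℝ} (hc : S.Cn (S.al t) a c)
    (hs : S.Span t Y a m M) (p : m < s) (q : s < M) (hp : c.p = (a.sh s).p) : c = a := by
  obtain ⟨hs', hj⟩ := tr h h1 h2 ht hY hV hc hs
  have hk : c.k = (a.sh s).k := congrArg Prod.fst hp
  have hr : c.r = (a.sh s).r := congrArg Prod.snd hp
  have hU := (span_reg hs).2.2
  have hU' := (span_reg hs').2.2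
  have hσ : c.σ = a.σ ∨ c.σ = -a.σ := by
    rcases hU with e | e <;> rcases hU' with e' | e' <;> simp [e, e']
  rcases hσ with e | e
  · have := (uniq hs' (span_congr (a := a.sh s) hk hr e (span_sh hs p q))).1
    have s0 : s = 0 := by linarith
    rw [s0, St.sh_zero] at hp
    exact g1 h1 h2 ht (span_reg hs) hc hp
  · have := (uniq hs' (span_congr (a := (a.sh s).fl) hk hr e (span_fl (span_sh hs p q)))).1
    have p' : m < s / 2 := by linarith [hs.neg, hs.pos]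
    have q' : s / 2 < M := by linarith [hs.neg, hs.pos]
    have e2 := g1 h1 h2 ht (hs.reg _ p' q') (hj _ p'.le q'.le) (by
      simp only [St.sh, St.p] at hk hr ⊢
      rw [hk, hr, e]
      congr 1
      ring)
    have e3 : (c.sh (s / 2)).σ = (a.sh (s / 2)).σ := congrArg St.σ e2
    change c.σ = a.σ at e3
    rcases hU with e4 | e4 <;> rw [e3, e4] at e <;> norm_num at e

lemma span_zf (h1 : S.Spc) {a : St G K} {m M : ℝ} (hs : S.Span t Y a m M) :
    (a.sh m).p ∈ Zf S t Y ∧ (a.sh M).p ∈ Zf S t Y := by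
  have hm := hs.neg.trans hs.pos
  have key : ∀ z, m < a.σ * (z - a.r) → a.σ * (z - a.r) < M → ¬ S.Sp (a.k, z) :=
    fun z p q hz => (span_out hs (nd_sp hz)).elim (not_le.2 p) (not_le.2 q)
  have l := hs.lo
  have r := hs.hi
  rcases (span_reg hs).2.2 with e | e <;> simp only [St.sh, St.p, e] at key l r ⊢
  · have k2 : ∀ s, a.r + 1 * m < s → s < a.r + 1 * M → ¬ S.Sp (a.k, s) :=
      fun s p q => key s (by linarith) (by linarith)
    exact ⟨zf_left h1 l (by linarith) k2, zf_right h1 r (by linarith) k2⟩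
  · have k2 : ∀ s, a.r + -1 * M < s → s < a.r + -1 * m → ¬ S.Sp (a.k, s) :=
      fun s p q => key s (by linarith) (by linarith)
    exact ⟨zf_right h1 l (by linarith) k2, zf_left h1 r (by linarith) k2⟩

lemma mid_fin (h1 : S.Spc) (h2 : S.Lvs) (ht : S.Ad t) (hY : Y.Finite) :
    {x | S.Mid t Y x}.Finite := by
  have hZ := zf_fin h1 h2 ht hY
  refine ((hZ.prod hZ).image fun y => (y.1.1, (y.1.2 + y.2.2) / 2)).subset ?_
  rintro x ⟨w, hw⟩
  refine ⟨(_, _), mk_mem_prod (span_zf h1 hw).1 (span_zf h1 hw).2, ?_⟩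
  refine Prod.ext rfl ?_
  simp only [St.sh, St.p]
  ring

lemma hw_span {x : K × ℝ} (hx : S.Mid t Y x) :
    S.Span t Y ⟨1, x.1, x.2, 1⟩ (-S.hw t Y x) (S.hw t Y x) := by
  unfold Sys.hw
  rw [dif_pos hx]
  exact hx.choose_spec

lemma fin_gap {F : Set ℝ} (hF : F.Finite) :
    ∃ η, 0 < η ∧ ∀ x ∈ F, ∀ y ∈ F, x < y → η ≤ y - x := by
  have hP : {p ∈ F ×ˢ F | p.1 < p.2}.Finite := (hF.prod hF).subset (sep_subset _ _)
  rcases eq_empty_or_nonempty {p ∈ F ×ˢ F | p.1 < p.2} with e | e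
  · refine ⟨1, one_pos, fun x hx y hy l => ?_⟩
    have : (x, y) ∈ {p ∈ F ×ˢ F | p.1 < p.2} := ⟨⟨hx, hy⟩, l⟩
    rw [e] at this
    exact this.elim
  · obtain ⟨p, hp, hm⟩ := exists_min_image _ (fun p : ℝ × ℝ => p.2 - p.1) hP e
    exact ⟨p.2 - p.1, sub_pos.2 hp.2, fun x hx y hy l => hm (x, y) ⟨⟨hx, hy⟩, l⟩⟩

lemma gap (h1 : S.Spc) (h2 : S.Lvs) (ht : S.Ad t) (hY : Y.Finite) :
    ∃ η, 0 < η ∧ (∀ a m M, S.Span t Y a m M → η ≤ M - m) ∧
      ∀ k r r', S.Nd t Y (k, r) → S.Nd t Y (k, r') → r < r' →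
        (∀ s, r < s → s < r' → ¬ S.Sp (k, s)) → η ≤ r' - r := by
  obtain ⟨η, h0, hη⟩ := fin_gap ((zf_fin h1 h2 ht hY).image Prod.snd)
  refine ⟨η, h0, fun a m M hs => ?_, fun k r r' n n' l hs =>
    hη r ⟨_, zf_left h1 n l hs, rfl⟩ r' ⟨_, zf_right h1 n' l hs, rfl⟩ l⟩
  have hm := hs.neg.trans hs.pos
  have z1 : (a.sh m).r ∈ Prod.snd '' Zf S t Y := ⟨_, (span_zf h1 hs).1, rfl⟩
  have z2 : (a.sh M).r ∈ Prod.snd '' Zf S t Y := ⟨_, (span_zf h1 hs).2, rfl⟩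
  rcases (span_reg hs).2.2 with e | e <;> simp only [St.sh, e] at z1 z2
  · have := hη _ z1 _ z2 (by linarith)
    linarith
  · have := hη _ z2 _ z1 (by linarith)
    linarith

lemma mid_not {k : K} {x : ℝ} (hx : S.Mid t Y (k, x)) : ¬ S.Nd t Y (k, x) :=
  (span_reg (hw_span hx)).2.1

lemma tele0 (h : S.Ok) (h1 : S.Spc) (ht : S.Ad t) (hV : ∀ y ∈ Y, S.Val y)
    {M : Type} [AddCommGroup M] (F : ℝ → M) (k : K) (r r' : ℝ) (Z : Finset ℝ)
    (n : S.Nd t Y (k, r)) (n' : S.Nd t Y (k, r')) (l : r ≤ r')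
    (hF : ∀ A s s', S.SpA (k, A) → s ∈ S.arc k A → s' ∈ S.arc k A → r ≤ s → s < s' → s' ≤ r' →
      F s = F s')
    (hZ : ∀ x, x ∈ Z ↔ S.Mid t Y (k, x) ∧ r < x ∧ x < r')
    (h0 : ∀ z, r < z → z < r' → (k, z) ∉ Zf S t Y) :
    F r' - F r = ∑ x ∈ Z, (F (x + S.hw t Y (k, x)) - F (x - S.hw t Y (k, x))) := by
  rcases l.eq_or_lt with rfl | l
  · have : Z = ∅ := Finset.eq_empty_of_forall_notMem fun x hx =>
      lt_asymm ((hZ x).1 hx).2.1 ((hZ x).1 hx).2.2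
    simp [this]
  by_cases hp : ∃ x, r < x ∧ x < r' ∧ S.Sp (k, x)
  · obtain ⟨x, p, q, A, hA, hx⟩ := hp
    obtain ⟨u, v, huv, e⟩ := h1.icc k A hA.1
    simp only [e] at hx
    have a1 : u ≤ r := not_lt.1 fun i => h0 u i (hx.1.trans_lt q) (zf_ends hA huv e).1
    have a2 : r' ≤ v := not_lt.1 fun i => h0 v (p.trans_le hx.2) i (zf_ends hA huv e).2
    have : Z = ∅ := Finset.eq_empty_of_forall_notMem fun y hy => by
      obtain ⟨y1, y2, y3⟩ := (hZ y).1 hy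
      refine mid_not y1 (nd_sp ⟨A, hA, ?_⟩)
      simp only [e]
      exact ⟨by linarith, by linarith⟩
    rw [this, hF A r r' hA (by rw [e]; exact ⟨a1, by linarith⟩)
      (by rw [e]; exact ⟨by linarith, a2⟩) le_rfl l le_rfl]
    simp
  · push Not at hp
    have hn : ∀ s, r < s → s < r' → ¬ S.Nd t Y (k, s) :=
      fun s p q i => h0 s p q (Or.inl ⟨i, hp s p q⟩)
    have hc := span_of h ht hV (r := (r + r') / 2) 1 n n' (by linarith) (by linarith) hn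
    have hm : S.Mid t Y (k, (r + r') / 2) := ⟨r' - (r + r') / 2, by
      rw [show -(r' - (r + r') / 2) = r - (r + r') / 2 by ring]; exact hc⟩
    have hw := uniq hc (hw_span hm)
    have : Z = {(r + r') / 2} := by
      ext x
      rw [hZ, Finset.mem_singleton]
      constructor
      · rintro ⟨y1, y2, y3⟩
        have := uniq (span_of h ht hV 1 n n' y2 y3 hn) (hw_span y1)
        linarith [this.1, this.2]
      · rintro rfl
        exact ⟨hm, by linarith, by linarith⟩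
    rw [this, Finset.sum_singleton, ← hw.2]
    congr 2 <;> ring

lemma tele (h : S.Ok) (h1 : S.Spc) (h2 : S.Lvs) (ht : S.Ad t) (hY : Y.Finite)
    (hV : ∀ y ∈ Y, S.Val y) {M : Type} [AddCommGroup M] (F : ℝ → M) (k : K) (N : ℕ) :
    ∀ (r r' : ℝ) (Z : Finset ℝ), {z | (k, z) ∈ Zf S t Y ∧ r < z ∧ z < r'}.ncard ≤ N →
      S.Nd t Y (k, r) → S.Nd t Y (k, r') → r ≤ r' →
      (∀ A s s', S.SpA (k, A) → s ∈ S.arc k A → s' ∈ S.arc k A → r ≤ s → s < s' → s' ≤ r' →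
        F s = F s') →
      (∀ x, x ∈ Z ↔ S.Mid t Y (k, x) ∧ r < x ∧ x < r') →
      F r' - F r = ∑ x ∈ Z, (F (x + S.hw t Y (k, x)) - F (x - S.hw t Y (k, x))) := by
  have hf : ∀ r r' : ℝ, {z | (k, z) ∈ Zf S t Y ∧ r < z ∧ z < r'}.Finite := fun r r' =>
    ((zf_fin h1 h2 ht hY).preimage (Prod.mk_right_injective k).injOn).subset fun _ hz => hz.1
  induction N with
  | zero =>
    intro r r' Z hN n n' l hF hZ
    refine tele0 h h1 ht hV F k r r' Z n n' l hF hZ fun z p q i => ?_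
    have := (ncard_eq_zero (hf r r')).1 (Nat.le_zero.1 hN)
    have hz : z ∈ {z | (k, z) ∈ Zf S t Y ∧ r < z ∧ z < r'} := ⟨i, p, q⟩
    rw [this] at hz
    exact hz
  | succ N ih =>
    intro r r' Z hN n n' l hF hZ
    by_cases h0 : ∀ z, r < z → z < r' → (k, z) ∉ Zf S t Y
    · exact tele0 h h1 ht hV F k r r' Z n n' l hF hZ h0
    push Not at h0
    obtain ⟨z, p, q, i⟩ := h0
    have nz := zf_nd h1 i
    have c1 : {y | (k, y) ∈ Zf S t Y ∧ r < y ∧ y < z}.ncard <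
        {y | (k, y) ∈ Zf S t Y ∧ r < y ∧ y < r'}.ncard :=
      ncard_lt_ncard ⟨fun y hy => ⟨hy.1, hy.2.1, hy.2.2.trans q⟩,
        fun hs => lt_irrefl z (hs ⟨i, p, q⟩).2.2⟩ (hf r r')
    have c2 : {y | (k, y) ∈ Zf S t Y ∧ z < y ∧ y < r'}.ncard <
        {y | (k, y) ∈ Zf S t Y ∧ r < y ∧ y < r'}.ncard :=
      ncard_lt_ncard ⟨fun y hy => ⟨hy.1, p.trans hy.2.1, hy.2.2⟩,
        fun hs => lt_irrefl z (hs ⟨i, p, q⟩).2.1⟩ (hf r r')
    have e1 := ih r z (Z.filter (· < z)) (by omega) n nz p.le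
      (fun A s s' a b c d e f => hF A s s' a b c d e (f.trans q.le)) fun x => by
        rw [Finset.mem_filter, hZ]
        exact ⟨fun j => ⟨j.1.1, j.1.2.1, j.2⟩, fun j => ⟨⟨j.1, j.2.1, j.2.2.trans q⟩, j.2.2⟩⟩
    have e2 := ih z r' (Z.filter (fun x => ¬ x < z)) (by omega) nz n' q.le
      (fun A s s' a b c d e f => hF A s s' a b c (p.le.trans d) e f) fun x => by
        rw [Finset.mem_filter, hZ]
        refine ⟨fun j => ⟨j.1.1, lt_of_le_of_ne (not_lt.1 j.2) ?_, j.1.2.2⟩,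
          fun j => ⟨⟨j.1, p.trans j.2.1, j.2.2⟩, not_lt.2 j.2.1.le⟩⟩
        rintro rfl
        exact mid_not j.1.1 nz
    rw [← Finset.sum_filter_add_sum_filter_not Z (· < z), ← e1, ← e2]
    abel

end CellP

variable {G T K B : Type} [Group G] [MetricSpace T] [MulAction G T] [Countable G] [Fintype K]
  [Fintype B] {S : Sys G T K B} {τ s : ℝ} {t : B × Bool → ℝ} {Fr : Set (B × Bool)}

theorem cell (h : S.Ok) (h1 : S.Spc) (h2 : S.Lvs) : S.Cell := fun t ht Y hY hV =>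
  { val := fun _ hx => CellP.val_nd h ht hV hx
    nd := fun _ _ hU hc => CellP.nd_cn h h2 ht hU hc
    reg := fun _ _ hc ha => CellP.reg_cn h h2 ht hc ha
    ex := fun _ ha => CellP.ex h h1 h2 ht hY hV ha
    uniq := fun _ _ _ _ _ hs hs' => CellP.uniq hs hs'
    allow := fun _ _ _ _ _ hs hk p q ha _ p' q' => CellP.allow ht hs hk p q ha p' q'
    tr := fun _ _ _ _ hc hs => CellP.tr h h1 h2 ht hY hV hc hs
    same := fun _ _ _ _ _ hc hs p q hp => CellP.same h h1 h2 ht hY hV hc hs p q hp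
    fin := CellP.mid_fin h1 h2 ht hY
    hw := fun _ hx => CellP.hw_span hx
    gap := CellP.gap h1 h2 ht hY
    tele := fun _ _ F k r r' Z => CellP.tele h h1 h2 ht hY hV F k _ r r' Z le_rfl }

end Pool.Agent.MP_494aff_an.Se
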