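import Mathlib
import Pool.Agent.MP_494aff_an.se.SpecH

/-! Cycles of links have crossing number zero; twins stay joined higher up. -/

set_option linter.unusedVariables false
set_option linter.unusedSectionVars false

open Set
open scoped Pointwise

namespace Pool.Agent.MP_494aff_an.Se

open Pool.Agent.MP_494aff_an.Pinch Pool.Agent.MP_494aff_an.Pinch.TowP Pool.Agent.MP_494aff_an.Lf

variable {G T K B : Type} [Group G] [MetricSpace T] [MulAction G T] [Countable G] [Fintype K]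
  [Fintype B] {S : Sys G T K B} {τ s : ℝ} {t : B × Bool → ℝ} {Fr : Set (B × Bool)}

namespace CrP

open Sys

/-- Chains on bands with two different ends. -/
abbrev W (S : Sys G T K B) : Submodule ℂ (G × B →₀ ℂ) :=
  Finsupp.supported ℂ ℂ {x : G × B | S.lo x.2 < S.hi x.2}

/-- Pairing of a chain with the jumps. -/
noncomputable abbrev L (S : Sys G T K B) (u : B × Bool → ℝ) (q : St G K) : (G × B →₀ ℂ) →ₗ[ℂ] ℂ :=
  Finsupp.linearCombination ℂ fun x => S.th u q x.1 x.2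

lemma L_eq (u : B × Bool → ℝ) (q : St G K) (m : G × B →₀ ℂ) :
    L S u q m = m.sum fun x c => c * S.th u q x.1 x.2 := by
  simp only [Finsupp.linearCombination_apply, smul_eq_mul]

/-- The difference of the potentials is given by the chain `m`. -/
def Df (S : Sys G T K B) (t : B × Bool → ℝ) (a a' : St G K) (m : G × B →₀ ℂ) : Prop :=
  m ∈ W S ∧ ∀ u, S.Ad u → (∀ e, u e ≤ t e) → ∀ q, S.Reg u ∅ q → a.U → S.ind u q a = 0 →
    S.pot u q a - S.pot u q a' = L S u q m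

lemma path (h : S.Ok) (h5 : S.Crs) {a a' : St G K} (hc : S.Cn (S.al t) a a') :
    ∃ m, Df S t a a' m := by
  refine (Cn.ind (R := fun x y => S.Cn (S.al t) x y ∧ ∃ m, Df S t x y m) ⟨?_, ?_, ?_⟩ ?_ hc).2
  · exact fun x => ⟨Cn.refl x, 0, zero_mem _, fun u _ _ q _ _ _ => by simp⟩
  · rintro x y ⟨c, m, m1, m2⟩
    refine ⟨c.symm, -m, neg_mem m1, fun u hu hl q hq hU hi => ?_⟩
    rw [map_neg, ← m2 u hu hl q hq ((c.U h).2 hU)
      (((h5 u hu).cn q x y (c.mono (al_mono hl))).trans hi), neg_sub]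
  · rintro x y z ⟨c, m, m1, m2⟩ ⟨c', m', m3, m4⟩
    refine ⟨c.trans c', m + m', add_mem m1 m3, fun u hu hl q hq hU hi => ?_⟩
    rw [map_add, ← m2 u hu hl q hq hU hi, ← m4 u hu hl q hq ((c.U h).1 hU)
      (((h5 u hu).cn q x y (c.mono (al_mono hl))).symm.trans hi), sub_add_sub_cancel]
  · intro x b h1 h2
    refine ⟨Cn.move h1 h2, Finsupp.single (x.g, b) 1, Finsupp.single_mem_supported ℂ 1 h2.1,
      fun u hu hl q hq hU hi => ?_⟩
    rw [(h5 u hu).band q x b hq h1 (al_mono hl _ _ h2) hU hi, Finsupp.linearCombination_single,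
      one_smul]

lemma path' (h : S.Ok) (h5 : S.Crs) {a a' : St G K} (hc : S.Cf (S.al t) a a') :
    ∃ m, Df S t a a' m :=
  hc.elim (path h h5) fun hc => path (a' := a'.fl) h h5 hc

lemma exists_rep (S : Sys G T K B) (t : B × Bool → ℝ) : ∃ β : St G K → St G K,
    (∀ a, S.Cf (S.al t) a (β a)) ∧ ∀ a a', S.Cf (S.al t) a a' → β a = β a' := by
  let r : Setoid (St G K) := ⟨S.Cf (S.al t), cf_equiv⟩
  exact ⟨fun a => (Quotient.mk r a).out, fun a => Cf.symm (Quotient.mk_out (s := r) a),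
    fun a a' k => congrArg Quotient.out (Quotient.sound (s := r) k)⟩

/-- The chain of a cycle of links. -/
lemma chain (h : S.Ok) (h5 : S.Crs) {n : G × (B × Bool) × ℝ →₀ ℂ}
    (hn : ∀ l ∈ n.support, S.En l.2.1) (hC : S.Cyc t n) :
    ∃ N ∈ W S, ∀ u, S.Ad u → (∀ e, u e ≤ t e) → ∀ q, S.Reg u ∅ q →
      (∀ l ∈ n.support, ∀ d, S.ind u q (S.en l.1 l.2.1 l.2.2 d) = 0) →
      L S u q N = n.sum fun l c => c * (S.th u q l.1 l.2.1.1 -
        (S.pot u q (S.en l.1 l.2.1 l.2.2 false) - S.pot u q (S.en l.1 l.2.1 l.2.2 true))) := by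
  obtain ⟨β, b1, b2⟩ := exists_rep S t
  choose m hm using fun a => path' h h5 (b1 a)
  refine ⟨n.sum fun l c => c • (Finsupp.single (l.1, l.2.1.1) 1 - m (S.en l.1 l.2.1 l.2.2 false) +
    m (S.en l.1 l.2.1 l.2.2 true)), Submodule.sum_mem _ fun l hl => Submodule.smul_mem _ _
      (add_mem (sub_mem (Finsupp.single_mem_supported ℂ 1 (hn l hl).1) (hm _).1) (hm _).1),
    fun u hu hl q hq hi => ?_⟩
  have := hC (fun a => S.pot u q (β a)) (fun a a' k => by rw [b2 a a' (Or.inl k)])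
    fun a => by rw [b2 a a.fl (cf_fl a)]
  rw [← sub_zero (L S u q _), ← this, Finsupp.sum, Finsupp.sum, Finsupp.sum, map_sum,
    ← Finset.sum_sub_distrib]
  refine Finset.sum_congr rfl fun l hl' => ?_
  rw [map_smul, map_add, map_sub, Finsupp.linearCombination_single, one_smul,
    ← (hm _).2 u hu hl q hq (en_U h _ _ _ _) (hi l hl' false),
    ← (hm _).2 u hu hl q hq (en_U h _ _ _ _) (hi l hl' true), smul_eq_mul]
  ring

lemma ind_zero (h : S.Ok) (h5 : S.Crs) (hτ : S.Sm τ) {u : B × Bool → ℝ} (hu : S.Ad u)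
    {q : St G K} {g : G} {e : B × Bool} {ρ : ℝ} (he : S.En e) (h0 : 0 ≤ ρ) (h1 : ρ ≤ τ)
    (hp : S.pt (S.up g e ρ) ≠ S.pt q) (d : Bool) : S.ind u q (S.en g e ρ d) = 0 := by
  by_contra k
  exact hp ((Cf.pt h (fun _ _ => al_base hu) (((h5 u hu).ne _ _).1 k)).trans
    (val_en h hτ he.1 g h0 h1 d).2).symm

lemma exists_low {ι : Type} (A : Finset ι) (f : ι → ℝ) (hf : ∀ l ∈ A, 0 < f l) :
    ∃ ρ, 0 < ρ ∧ ∀ l ∈ A, ρ ≤ f l := by
  rcases A.eq_empty_or_nonempty with rfl | hA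
  · exact ⟨1, one_pos, by simp⟩
  · obtain ⟨l, hl, k⟩ := A.exists_min_image f hA
    exact ⟨f l, hf l hl, k⟩

/-- A shift in the cell that avoids finitely many points. -/
lemma exists_off (h : S.Ok) {q : St G K} {m M : ℝ} (hq : q.U) (hs : S.Span t ∅ q m M)
    {P : Set T} (hP : P.Finite) : ∃ s, m < s ∧ s < M ∧ S.pt (q.sh s) ∉ P := by
  have hi : InjOn (fun s => S.pt (q.sh s)) (Ioo m M) := fun s h1 s' h2 e => by
    have := dist_sh h hq (hs.reg s h1.1 h1.2).1 (hs.reg s' h2.1 h2.2).1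
    rw [dist_eq_zero.2 e] at this
    exact sub_eq_zero.1 (abs_eq_zero.1 this.symm)
  obtain ⟨_, ⟨s, h1, rfl⟩, h2⟩ :=
    (((Ioo_infinite (hs.neg.trans hs.pos)).image hi).sdiff hP).nonempty
  exact ⟨s, h1.1, h1.2, h2⟩

end CrP

open CrP Sys in
theorem crS (h : S.Ok) (h3 : S.Cell) (h5 : S.Crs) (hτ : S.Sm τ) (hX : S.Cross τ) : S.CR τ := by
  intro t ht n hn hC q hq hp
  have hd : S.Ad t := ⟨τ, hτ, ht⟩
  have top : ∀ l ∈ n.support, l.2.2 ≤ τ := fun l hl => (hn l hl).2.2.trans (ht.le hτ.pos.le _)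
  obtain ⟨N, hN, key⟩ := chain h h5 (fun l hl => (hn l hl).1) hC
  obtain ⟨ρ, hρ, low⟩ := exists_low n.support (fun l => l.2.2) fun l hl => (hn l hl).2.1
  have ht' : S.Adm τ fun e => min (t e) ρ := fun e =>
    ⟨fun he => ⟨lt_min ((ht e).1 he).1 hρ, (min_le_left _ _).trans ((ht e).1 he).2⟩,
      fun he => (congrArg (min · ρ) ((ht e).2 he)).trans (min_eq_left hρ.le)⟩
  have hd' : S.Ad fun e => min (t e) ρ := ⟨τ, hτ, ht'⟩
  have z := hX t _ ht ht' N (fun x hx => hN hx) (fun q' hq' => ?_) q hq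
  · have hi : ∀ l ∈ n.support, ∀ d, S.ind t q (S.en l.1 l.2.1 l.2.2 d) = 0 := fun l hl =>
      ind_zero h h5 hτ hd (hn l hl).1 (hn l hl).2.1.le (top l hl) (hp l hl)
    rw [← L_eq, key t hd (fun _ => le_rfl) q hq hi] at z
    rw [← z]
    refine Finset.sum_congr rfl fun l hl => ?_
    simp only [(h5 t hd).link q l.1 l.2.1 l.2.2 hq (hn l hl).1 (hn l hl).2.1.le (hn l hl).2.2
      (hi l hl), sub_sub_cancel]
  · obtain ⟨m, M, hs⟩ := (h3 _ hd' ∅ finite_empty (by simp)).ex q' hq'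
    obtain ⟨s, s1, s2, s3⟩ := exists_off h hq'.2.2 hs
      (n.support.finite_toSet.image fun l => S.pt (S.up l.1 l.2.1 l.2.2))
    have hi : ∀ l ∈ n.support, ∀ d, S.ind (fun e => min (t e) ρ) (q'.sh s)
        (S.en l.1 l.2.1 l.2.2 d) = 0 := fun l hl =>
      ind_zero h h5 hτ hd' (hn l hl).1 (hn l hl).2.1.le (top l hl) fun e => s3 ⟨l, hl, e⟩
    simp only [← fun g b => (h5 _ hd').th_sh q' m M s g b hs s1 s2]
    rw [← L_eq, key _ hd' (fun _ => min_le_left _ _) _ (hs.reg s s1 s2) hi]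
    refine Finset.sum_eq_zero fun l hl => ?_
    have := (h5 _ hd').band _ (S.up l.1 l.2.1 l.2.2) l.2.1.1 (hs.reg s s1 s2) rfl
      (al_up hτ ht' (hn l hl).1.1 _ ((min_le_right _ _).trans (low l hl)) (top l hl))
      (up_U _ _ _) (hi l hl false)
    exact mul_eq_zero_of_right _ (sub_eq_zero.2 this.symm)

open CrP Sys in
theorem conv (h : S.Ok) (h5 : S.Crs) (hτ : S.Sm τ) (hR : S.CR τ) : S.Conv τ := by
  intro t ht e ρ r he h0 h1 h2 hT hq
  have hd : S.Ad t := ⟨τ, hτ, ht⟩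
  have h4 : r ≤ τ := h2.le.trans (ht.le hτ.pos.le _)
  have mem : ∀ l ∈ (Finsupp.single ((1 : G), e, ρ) (1 : ℂ)).support, l = (1, e, ρ) := fun l hl =>
    Finset.mem_singleton.1 (Finsupp.support_single_subset hl)
  have z := hR t ht (Finsupp.single (1, e, ρ) 1) (fun l hl => ?_) (fun F hF _ => ?_) _ hq
    fun l hl k => ?_
  · rw [Finsupp.sum_single_index (zero_mul _), one_mul,
      (h5 t hd).uc_eq _ 1 e ρ r he h0.le h1 h2 rfl] at z
    have z' : S.ind t (S.up 1 e r) (S.en 1 e r true) = 1 :=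
      (sub_eq_zero.1 z).symm.trans ((h5 t hd).self _)
    by_contra k
    have k' : ¬ S.Cn (S.al t) (S.up 1 e r) (S.en 1 e r true) := k
    rw [Sys.ind, if_neg k'] at z'
    split_ifs at z' <;> norm_num at z'
  · rw [mem l hl]
    exact ⟨he, h0, (h1.trans h2).le⟩
  · rw [Finsupp.sum_single_index (zero_mul _), hF _ _ hT, sub_self, mul_zero]
  · rw [mem l hl] at k
    have := dist_up h hτ he.1 1 h0.le (h1.le.trans h4) (h0.trans h1).le h4
    rw [dist_eq_zero.2 k] at this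
    exact h1.ne (sub_eq_zero.1 (abs_eq_zero.1 this.symm))

end Pool.Agent.MP_494aff_an.Se
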