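import Mathlib
import Pool.Agent.MP_494aff_an.se.SpecH

/-! The dimension of the space of jumps is an integer. -/

set_option linter.unusedVariables false
set_option linter.unusedSectionVars false

open Set
open scoped Pointwise

namespace Pool.Agent.MP_494aff_an.Se

open Pool.Agent.MP_494aff_an.Pinch Pool.Agent.MP_494aff_an.Pinch.TowP Pool.Agent.MP_494aff_an.Lf

noncomputable section

namespace CrIntP

section Ev

variable {G X ι : Type} [Group G]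

lemma lam_lam (g h : G) (ξ : H G) : lam g (lam h ξ) = lam (g * h) ξ := by rw [map_mul]; rfl

lemma lam_id (ξ : H G) : lam (1 : G) ξ = ξ := by rw [map_one]; rfl

lemma ev_single (ξ : X → H G) (x : G × X) : ev ξ (Finsupp.single x 1) = lam x.1 (ξ x.2) := by
  simp [ev]

lemma ev_sh (ξ : X → H G) (h : G) (ζ : G × X →₀ ℂ) : ev ξ (sh h ζ) = lam h (ev ξ ζ) :=
  LinearMap.congr_fun (Finsupp.lhom_ext' (φ := ev ξ ∘ₗ sh h) (ψ := (lam h).toLinearMap ∘ₗ ev ξ)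
    fun x => LinearMap.ext_ring (by
      simp only [LinearMap.comp_apply, Finsupp.lsingle_apply, sh_single, ev_single,
        ContinuousLinearMap.coe_coe, lam_lam])) ζ

/-- Evaluation on a family of chains. -/
def evL (ζ : ι → (G × X →₀ ℂ)) : (X → H G) →L[ℂ] (ι → H G) :=
  ContinuousLinearMap.pi fun i => ∑ x ∈ (ζ i).support,
    ζ i x • (lam x.1).comp (ContinuousLinearMap.proj x.2)

lemma evL_apply (ζ : ι → (G × X →₀ ℂ)) (ξ : X → H G) (i : ι) : evL ζ ξ i = ev ξ (ζ i) := by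
  simp [evL, ev, Finsupp.linearCombination_apply, Finsupp.sum]

lemma evL_eqi (ζ : ι → (G × X →₀ ℂ)) : Eqi (evL ζ) := fun g ξ => by
  funext i
  have e : ∀ h η, lam h (rho g η) = rho g (lam h η) := fun h η =>
    (congrArg (fun T : Op G => T η) (rho_lam g h)).symm
  simp only [evL_apply, ev, Finsupp.linearCombination_apply, Finsupp.sum, map_sum, map_smul, e]

lemma inv_top : Inv (⊤ : Submodule ℂ (ι → H G)) := ⟨isClosed_univ, fun _ _ _ => trivial⟩

lemma eqv_sm {Y : Type} {V : G × Y → G × Y → Prop}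
    (hV : ∀ h a a', V a a' → V (h * a.1, a.2) (h * a'.1, a'.2)) (h : G) {a a' : G × Y}
    (e : Relation.EqvGen V a a') : Relation.EqvGen V (h * a.1, a.2) (h * a'.1, a'.2) := by
  induction e with
  | rel x y e => exact .rel _ _ (hV h _ _ e)
  | refl x => exact .refl _
  | symm x y _ i => exact .symm _ _ i
  | trans x y z _ _ i j => exact .trans _ _ _ i j

/-- Extension of an equivariant function along an invariant relation. -/
lemma extend {Y : Type} {V : G × Y → G × Y → Prop}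
    (hV : ∀ h a a', V a a' → V (h * a.1, a.2) (h * a'.1, a'.2)) (j : X → Y) (U : X → H G)
    (hU : ∀ x γ x', Relation.EqvGen V (1, j x) (γ, j x') → U x = lam γ (U x')) :
    ∃ Ut : G × Y → H G, (∀ a a', V a a' → Ut a = Ut a') ∧ ∀ g x, Ut (g, j x) = lam g (U x) := by
  classical
  let Ut : G × Y → H G := fun a =>
    if h : ∃ z : G × X, Relation.EqvGen V a (z.1, j z.2) then lam h.choose.1 (U h.choose.2) else 0
  have key : ∀ a γ x, Relation.EqvGen V a (γ, j x) → Ut a = lam γ (U x) := fun a γ x e => by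
    have h : ∃ z : G × X, Relation.EqvGen V a (z.1, j z.2) := ⟨(γ, x), e⟩
    have e1 := eqv_sm hV h.choose.1⁻¹ (.trans _ _ _ (.symm _ _ h.choose_spec) e)
    simp only [inv_mul_cancel] at e1
    simp only [Ut, dif_pos h]
    rw [hU _ _ _ e1, lam_lam, mul_inv_cancel_left]
  refine ⟨Ut, fun a a' e => ?_, fun g x => key _ _ _ (.refl _)⟩
  by_cases h : ∃ z : G × X, Relation.EqvGen V a' (z.1, j z.2)
  · obtain ⟨z, hz⟩ := h
    rw [key _ _ _ hz, key _ _ _ (.trans _ _ _ (.rel _ _ e) hz)]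
  · have h' : ¬ ∃ z : G × X, Relation.EqvGen V a (z.1, j z.2) := fun ⟨z, hz⟩ =>
      h ⟨z, .trans _ _ _ (.symm _ _ (.rel _ _ e)) hz⟩
    simp only [Ut, dif_neg h, dif_neg h']

end Ev

variable {G T K B : Type} [Group G] [MetricSpace T] [MulAction G T] (S : Sys G T K B)
  (t : B × Bool → ℝ)

/-- Allowed moves of nodes and moves inside special arcs. -/
def V (a a' : G × K × ℝ) : Prop :=
  (∃ b, a.2.1 = S.src b ∧ S.Nd t ∅ a.2 ∧ S.al t b a.2.2 ∧ a'.1 = a.1 * (S.lab b)⁻¹ ∧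
    a'.2 = (S.tgt b, S.mv b a.2.2)) ∨
  (a'.1 = a.1 ∧ a'.2.1 = a.2.1 ∧ ∃ A, S.SpA (a.2.1, A) ∧ a.2.2 ∈ S.arc a.2.1 A ∧
    a'.2.2 ∈ S.arc a.2.1 A)

/-- Origins and ends of the chosen cells. -/
def jj : K ⊕ (S.Fam t ⊕ S.Fam t) → K × ℝ
  | .inl k => (k, 0)
  | .inr (.inl f) => ((S.rep t f).1, (S.rep t f).2 + S.hw t ∅ (S.rep t f))
  | .inr (.inr f) => ((S.rep t f).1, (S.rep t f).2 - S.hw t ∅ (S.rep t f))

variable {S t}

lemma V_sm (h : G) (a a' : G × K × ℝ) (e : V S t a a') :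
    V S t (h * a.1, a.2) (h * a'.1, a'.2) := by
  rcases e with ⟨b, h1, h2, h3, h4, h5⟩ | ⟨h1, h2⟩
  · exact Or.inl ⟨b, h1, h2, h3, by simp [h4, mul_assoc], h5⟩
  · exact Or.inr ⟨by simp [h1], h2⟩

lemma nd_Q {x : K × ℝ} (h : S.Q x) : S.Nd t ∅ x :=
  Or.inr ⟨⟨1, x.1, x.2, 1⟩, ⟨1, x.1, x.2, 1⟩, rfl, .refl _, rfl, Or.inl (Or.inl h)⟩

lemma nd_jj (h4 : S.FamAt t) : ∀ x, S.Nd t ∅ (jj S t x)
  | .inl k => S.nd_zero t ∅ k
  | .inr (.inl f) => by simpa [St.sh, St.p, Sys.rs, jj] using (h4.span (1, f)).hi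
  | .inr (.inr f) => by simpa [St.sh, St.p, Sys.rs, jj, sub_eq_add_neg] using (h4.span (1, f)).lo

lemma V_ev (h6 : S.Seg t ∅) {ξ : S.Fam t → H G} (hξ : ∀ b : S.Bn, ev ξ (S.vth t b.1) = 0)
    {a a' : G × K × ℝ} (e : Relation.EqvGen (V S t) a a') :
    lam a.1 (ev ξ (S.pc t a.2)) = lam a'.1 (ev ξ (S.pc t a'.2)) := by
  induction e with
  | rel x y e =>
    obtain ⟨g, k, r⟩ := x
    obtain ⟨g', k', r'⟩ := y
    rcases e with ⟨b, h1, h2, h3, h4, h5⟩ | ⟨h1, h2, A, h3, h4, h5⟩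
    · simp only at h1 h2 h3 h4 h5 ⊢
      subst h1
      have := hξ ⟨b, h3.1⟩
      rw [Sys.vth, ← h6.band b r h2 h3, map_sub, sub_eq_zero, ev_sh] at this
      rw [this, h4, h5, lam_lam]
    · simp only at h1 h2 h3 h4 h5 ⊢
      subst h1 h2
      rw [h6.arc _ _ _ _ h3 h4 h5]
  | refl x => rfl
  | symm x y _ i => exact i.symm
  | trans x y z _ _ i j => exact i.trans j

lemma onto (h : S.Ok) (ht : S.Ad t) (h3 : S.CellAt t ∅) (h4 : S.FamAt t) (h6 : S.Seg t ∅)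
    (U : K ⊕ (S.Fam t ⊕ S.Fam t) → H G)
    (hU : ∀ x γ x', Relation.EqvGen (V S t) (1, jj S t x) (γ, jj S t x') → U x = lam γ (U x'))
    (h0 : ∀ k, U (.inl k) = 0) : ∃ ξ : S.Fam t → H G, (∀ b : S.Bn, ev ξ (S.vth t b.1) = 0) ∧
      ∀ x, ev ξ (S.pc t (jj S t x)) = U x := by
  obtain ⟨Ut, h1, h2⟩ := extend V_sm (jj S t) U hU
  have key : ∀ g x, S.Nd t ∅ x → ev (fun f => U (.inr (.inl f)) - U (.inr (.inr f)))
      (sh g (S.pc t x)) = Ut (g, x) := fun g x hx => by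
    have := h6.desc (H G) (ev fun f => U (.inr (.inl f)) - U (.inr (.inr f))) (fun g x => Ut (g, x))
      (fun a a' aU e ha => Sys.Cn.ind' (R := fun c c' => Ut (c.g, c.p) = Ut (c'.g, c'.p))
        ⟨fun _ => rfl, Eq.symm, Eq.trans⟩ (fun c b hc e1 e2 => h1 _ _
          (Or.inl ⟨b, e1, (h3.nd _ _ aU hc).1 ha, e2, rfl, rfl⟩)) (Sys.Cn.refl a) e)
      (fun g k A r r' e1 e2 e3 => h1 _ _ (Or.inr ⟨rfl, rfl, A, e1, e2, e3⟩))
      (fun y => by
        rw [ev_single, map_sub, ← h2, ← h2]; rfl) g x hx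
    rw [this, show Ut (g, (x.1, 0)) = _ from h2 g (.inl x.1), h0, map_zero, sub_zero]
  refine ⟨fun f => U (.inr (.inl f)) - U (.inr (.inr f)), fun b => ?_, fun x => ?_⟩
  · have q1 : S.Nd t ∅ (S.src b.1, S.mid b.1) :=
      nd_Q (Or.inr (Or.inr ⟨b.1, _, Or.inr (Or.inr rfl), Or.inl rfl⟩))
    have q2 : S.Nd t ∅ (S.tgt b.1, S.mv b.1 (S.mid b.1)) :=
      nd_Q (Or.inr (Or.inr ⟨b.1, _, Or.inr (Or.inr rfl), Or.inr rfl⟩))
    have e := key 1 _ q1
    rw [sh_one] at e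
    rw [Sys.vth, map_sub, e, key _ _ q2, sub_eq_zero]
    exact h1 _ _ (Or.inl ⟨b.1, rfl, q1, Sys.al_mid ht b.2, (one_mul _).symm, rfl⟩)
  · have e := key 1 _ (nd_jj h4 x)
    rwa [sh_one, h2, lam_id] at e

end CrIntP

open CrIntP

variable {G T K B : Type} [Group G] [MetricSpace T] [MulAction G T] [Countable G] [Fintype K]
  [Fintype B] {S : Sys G T K B} {τ s : ℝ} {t : B × Bool → ℝ} {Fr : Set (B × Bool)}

theorem crInt [Fintype S.Bn] (hO : OrbStmt) (hD : DimStmt) (h : S.Ok) (h1 : S.Spc) (h2 : S.Lvs)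
    (h3 : S.Cell) (h4 : S.Fm) (h6 : ∀ t, S.Ad t → S.Seg t ∅) : S.CrInt := by
  intro t ht
  have hF := h4 t ht
  have hS := h6 t ht
  have := hF.fin
  let _ : Fintype (S.Fam t) := Fintype.ofFinite _
  let A := evL fun b : S.Bn => S.vth t b.1
  let E := evL fun x => S.pc t (jj S t x)
  have hR : S.Rg t = Submodule.map A.toLinearMap ⊤ := by
    rw [← Submodule.span_eq (Submodule.map A.toLinearMap ⊤), Sys.Rg]
    congr 1
    ext η
    exact ⟨fun ⟨ξ, e⟩ => ⟨ξ, trivial, funext fun b => (evL_apply _ ξ b).trans (e b).symm⟩,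
      fun ⟨ξ, _, e⟩ => ⟨ξ, fun b => (congrFun e b).symm.trans (evL_apply _ ξ b)⟩⟩
  have hK : ∀ ξ, ξ ∈ ⊤ ⊓ LinearMap.ker A.toLinearMap ↔ ∀ b : S.Bn, ev ξ (S.vth t b.1) = 0 :=
    fun ξ => ⟨fun e b => (evL_apply _ ξ b).symm.trans (congrFun e.2 b),
      fun e => ⟨trivial, funext fun b => (evL_apply _ ξ b).trans (e b)⟩⟩
  have r1 := hD.rn G _ _ ⊤ A inv_top (evL_eqi _)
  have r2 := hD.rn G _ _ _ E (hD.inv_ker G _ _ ⊤ A inv_top (evL_eqi _)) (evL_eqi _)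
  have hb : ⊤ ⊓ LinearMap.ker A.toLinearMap ⊓ LinearMap.ker E.toLinearMap = ⊥ := by
    refine eq_bot_iff.2 fun ξ e => funext fun f => ?_
    have e0 : ∀ x, ev ξ (S.pc t (jj S t x)) = 0 := fun x =>
      (evL_apply _ ξ x).symm.trans (congrFun e.2 x)
    have e1 := congrArg (ev ξ) (hS.edge f)
    rw [map_sub, ev_single, lam_id] at e1
    exact e1.symm.trans (sub_eq_zero.2 ((e0 (.inr (.inl f))).trans (e0 (.inr (.inr f))).symm))
  obtain ⟨-, n, hn⟩ := hO G _ (fun a a' => Relation.EqvGen (V S t) (a.1, jj S t a.2)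
    (a'.1, jj S t a'.2)) (range Sum.inl) (Submodule.map E.toLinearMap
      (⊤ ⊓ LinearMap.ker A.toLinearMap)) h.tr.ct.tf
    ⟨fun _ => .refl _, .symm _ _, .trans _ _ _⟩ (fun g _ _ _ _ e => eqv_sm V_sm g e) fun U => by
      constructor
      · rintro ⟨ξ, e, rfl⟩
        have e0 : ∀ x, E.toLinearMap ξ x = ev ξ (S.pc t (jj S t x)) := evL_apply _ ξ
        refine ⟨fun x γ x' r => ?_, ?_⟩
        · have := V_ev hS ((hK ξ).1 e) r
          rwa [lam_id, ← e0, ← e0] at this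
        · rintro _ ⟨k, rfl⟩
          rw [e0, show S.pc t (jj S t (.inl k)) = 0 from hS.zero k, map_zero]
      · rintro ⟨e1, e2⟩
        obtain ⟨ξ, e3, e4⟩ := onto h ht (h3 t ht ∅ finite_empty (by simp)) hF hS U e1
          fun k => e2 _ ⟨k, rfl⟩
        exact ⟨ξ, (hK ξ).2 e3, funext fun x => (evL_apply _ ξ x).trans (e4 x)⟩
  rw [hb, hD.bot, zero_add, hn] at r2
  rw [hD.top, r2] at r1
  have r3 := hD.nonneg G _ (Submodule.map A.toLinearMap ⊤)
  rw [hR]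
  refine ⟨hD.inv_map G _ _ ⊤ A inv_top (evL_eqi _), Fintype.card (S.Fam t) - n, ?_⟩
  rw [Nat.cast_sub (Nat.cast_le.1 (by linarith : (n : ℝ) ≤ Fintype.card (S.Fam t)))]
  linarith

end

end Pool.Agent.MP_494aff_an.Se
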