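import Mathlib
import Pool.Agent.MP_494aff_an.se.SpecH

/-! The jumps of a less narrowed system are sums of jumps of a more narrowed one. -/

set_option linter.unusedVariables false
set_option linter.unusedSectionVars false

open Set
open scoped Pointwise

namespace Pool.Agent.MP_494aff_an.Se

open Pool.Agent.MP_494aff_an.Pinch Pool.Agent.MP_494aff_an.Pinch.TowP Pool.Agent.MP_494aff_an.Lf

namespace CrMonoP

section Alg

open Finsupp

variable {G X X' : Type} [Group G]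

lemma ext1 {M : Type} [AddCommGroup M] [Module ℂ M] {F F' : (X →₀ ℂ) →ₗ[ℂ] M}
    (h : ∀ x, F (single x 1) = F' (single x 1)) (k : X →₀ ℂ) : F k = F' k :=
  LinearMap.congr_fun (Finsupp.lhom_ext' fun x => LinearMap.ext_ring (h x)) k

lemma ev_single (ξ : X → H G) (x : G × X) : ev ξ (single x 1) = lam x.1 (ξ x.2) := by simp [ev]

lemma ev_sh (ξ : X → H G) (h : G) (ζ : G × X →₀ ℂ) : ev ξ (sh h ζ) = lam h (ev ξ ζ) :=
  ext1 (F := ev ξ ∘ₗ sh h) (F' := (lam h).toLinearMap ∘ₗ ev ξ) (fun x => by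
    simp only [LinearMap.comp_apply, sh_single, ev_single, ContinuousLinearMap.coe_coe, map_mul]
    rfl) ζ

/-- An equivariant map of chains pulls cochains back. -/
lemma alg [Finite X'] (c : X' → (G × X →₀ ℂ)) (ξ' : X' → H G) :
    ∃ ξ : X → H G, ∀ (v : G × X →₀ ℂ) (v' : G × X' →₀ ℂ),
      (∀ g f', v' (g, f') = linearCombination ℂ (fun y => v (g * y.1, y.2)) (c f')) →
      ev ξ' v' = ev ξ v := by
  classical
  let _ : Fintype X' := Fintype.ofFinite _
  let d : X → (G × X' →₀ ℂ) := fun f => ∑ f', linearCombination ℂ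
    (fun y : G × X => if y.2 = f then single (y.1⁻¹, f') (1 : ℂ) else 0) (c f')
  let P : (G × X →₀ ℂ) →ₗ[ℂ] (G × X' →₀ ℂ) := linearCombination ℂ fun x => sh x.1 (d x.2)
  refine ⟨fun f => ev ξ' (d f), fun v v' hv => ?_⟩
  have e1 : ev ξ' (P v) = ev (fun f => ev ξ' (d f)) v :=
    ext1 (F := ev ξ' ∘ₗ P) (fun x => by simp [P, ev_sh, ev_single]) v
  rw [← e1]
  congr 1
  ext ⟨g, f'⟩
  rw [hv]
  have e2 : ∀ x : G × X, sh x.1 (d x.2) (g, f') =
      (c f').sum fun y a => a * single x (1 : ℂ) (g * y.1, y.2) := by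
    intro x
    rw [sh_apply]
    simp only [d, Finsupp.finsetSum_apply, linearCombination_apply, Finsupp.sum_apply]
    rw [Finset.sum_eq_single f']
    · refine Finsupp.sum_congr fun y _ => ?_
      simp only [Finsupp.smul_apply, smul_eq_mul]
      congr 1
      by_cases e : y.2 = x.2
      · rw [if_pos e, single_apply, single_apply]
        refine if_congr ?_ rfl rfl
        rw [Prod.ext_iff, Prod.ext_iff]
        simp only [e, and_true]
        rw [inv_eq_iff_eq_inv, mul_inv_rev, inv_inv, eq_inv_mul_iff_mul_eq, eq_comm]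
      · have k : x ≠ (g * y.1, y.2) := fun k => e (congrArg Prod.snd k).symm
        rw [if_neg e, single_apply, if_neg k]
        rfl
    · intro f'' _ hn
      refine Finset.sum_eq_zero fun y _ => ?_
      dsimp only
      split_ifs
      · simp [hn]
      · simp
    · simp
  refine ext1 (F := linearCombination ℂ (fun y : G × X => lapply (R := ℂ) (g * y.1, y.2)) (c f'))
    (F' := lapply (g, f') ∘ₗ P) (fun x => ?_) v |>.symm.trans ?_ |>.symm
  · simp [P, e2, linearCombination_apply, Finsupp.sum]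
  · simp [linearCombination_apply, Finsupp.sum]

end Alg

variable {G T K B : Type} [Group G] [MetricSpace T] [MulAction G T] {S : Sys G T K B}
  {t t' : B × Bool → ℝ}

lemma th_eq {q q' : St G K} (h : ∀ a, S.ind t q a = S.ind t q' a) (g : G) (b : B) :
    S.th t q g b = S.th t q' g b := by
  simp only [Sys.th, Sys.pot, Sys.cr, h]

lemma th_neg {q q' : St G K} (h : ∀ a, S.ind t q a = -S.ind t q' a) (g : G) (b : B) :
    S.th t q g b = -S.th t q' g b := by
  simp only [Sys.th, Sys.pot, Sys.cr, h, finsum_neg_distrib]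
  ring

/-- The jumps of a regular leaf are those of a reference leaf, up to sign. -/
lemma th_ref (h3 : S.Cell) (h4 : S.Fm) (h5 : S.Crs) (ht : S.Ad t) {q : St G K}
    (hq : S.Reg t ∅ q) : ∃ (y : G × S.Fam t) (ε : ℂ), (ε = 1 ∨ ε = -1) ∧
      ∀ g b, S.th t q g b = ε * S.th t (S.rs t y) g b := by
  obtain ⟨m, M, sp⟩ := (h3 t ht ∅ finite_empty (by simp)).ex q hq
  have := sp.neg
  have := sp.pos
  have e : ∀ s, (q.sh ((m + M) / 2)).sh s = q.sh ((m + M) / 2 + s) := St.sh_sh q _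
  obtain ⟨y, hy⟩ := (h4 t ht).ex (q.sh ((m + M) / 2)) ((M - m) / 2)
    ⟨by linarith, by linarith, by rw [e]; convert sp.lo using 3; ring,
      by rw [e]; convert sp.hi using 3; ring,
      fun s a b => by rw [e]; exact sp.reg _ (by linarith) (by linarith)⟩
  have k := fun g b => (h5 t ht).th_sh q m M ((m + M) / 2) g b sp (by linarith) (by linarith)
  rcases hy with hy | hy
  · exact ⟨y, 1, Or.inl rfl, fun g b => by
      rw [one_mul, ← k, th_eq fun a => (h5 t ht).cn' _ _ a hy]⟩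
  · refine ⟨y, -1, Or.inr rfl, fun g b => ?_⟩
    rw [← k, neg_one_mul]
    refine th_neg (fun a => ?_) g b
    rw [(h5 t ht).cn' _ _ a hy, (h5 t ht).fl' _ a (sp.reg _ (by linarith) (by linarith)), neg_neg]

lemma vth_apply (h : S.Ok) (h5 : S.Crs) (ht : S.Ad t) (b : B) (g : G) (y : G × S.Fam t) :
    S.vth t b (g * y.1, y.2) = S.th t (S.rs t y) g⁻¹ b := by
  have m1 : S.lo b ≤ S.mid b := by unfold Sys.mid; linarith [h.lo_le b]
  have m2 : S.mid b ≤ S.hi b := by unfold Sys.mid; linarith [h.lo_le b]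
  rw [Sys.vth, Finsupp.sub_apply, sh_apply, (h5 t ht).pc _ _ (Sys.val_src h m1 m2),
    (h5 t ht).pc _ _ (h.img b _ m1 m2)]
  have e1 := (h5 t ht).cr_sm g (S.rs t y) g⁻¹ (S.src b) 0 (S.mid b)
  have e2 := (h5 t ht).cr_sm (S.lab b * g) (S.rs t y) (g⁻¹ * (S.lab b)⁻¹) (S.tgt b) 0
    (S.mv b (S.mid b))
  rw [mul_inv_cancel] at e1
  rw [← mul_inv_rev, mul_inv_cancel, mul_inv_rev] at e2
  simp only [Sys.th, Sys.pot, Sys.im, ← e1, ← e2, inv_inv, ← mul_assoc]
  rfl

/-- A generic shift. -/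
lemma generic [Countable G] (h : S.Ok) {N : Set (K × ℝ)} (hN : N.Finite) {q : St G K} {m M : ℝ}
    (sp : S.Span t ∅ q m M) (hU : q.U) :
    ∃ s, m < s ∧ s < M ∧ ∀ a : St G K, a.p ∈ N → S.pt a ≠ S.pt (q.sh s) := by
  by_contra hn
  push Not at hn
  have hc : ((fun x : G × K × ℝ => x.1 • S.ι x.2.1 x.2.2) '' (univ ×ˢ N)).Countable :=
    (countable_univ.prod hN.countable).image _
  have : (Ioo m M).Countable := by
    refine MapsTo.countable_of_injOn (f := fun s => S.pt (q.sh s)) (fun s hs => ?_)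
      (fun s hs s' hs' e => ?_) hc
    · obtain ⟨a, a1, a2⟩ := hn s hs.1 hs.2
      exact ⟨(a.g, a.p), ⟨trivial, a1⟩, a2⟩
    · have := Sys.dist_sh h hU (sp.reg s hs.1 hs.2).1 (sp.reg s' hs'.1 hs'.2).1
      rw [show S.pt (q.sh s) = S.pt (q.sh s') from e, dist_self, eq_comm, abs_eq_zero] at this
      linarith
  have := Cardinal.Real.Ioo_countable_iff.1 this
  linarith [sp.neg, sp.pos]

/-- The leaf of a generic state splits into regular leaves. -/
lemma split [Countable G] (h : S.Ok) (h2 : S.Lvs) (h5 : S.Crs) (ht : S.Ad t) (ht' : S.Ad t')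
    (le : ∀ e, t' e ≤ t e) {q₀ : St G K} {m M : ℝ} (sp : S.Span t' ∅ q₀ m M) (hU : q₀.U) :
    ∃ Z : Finset (St G K), (∀ z ∈ Z, S.Reg t ∅ z) ∧
      ∀ g b, S.th t' q₀ g b = ∑ z ∈ Z, S.th t z g b := by
  classical
  obtain ⟨s, s1, s2, gen⟩ := generic h (h2.nd t ht ∅ finite_empty) sp hU
  have k0 := fun g b => (h5 t' ht').th_sh q₀ m M s g b sp s1 s2
  have hq := sp.reg s s1 s2
  generalize q₀.sh s = q at gen k0 hq
  have bs : ∀ b r, S.al t b r → S.lo b ≤ r ∧ r ≤ S.hi b := fun _ _ => Sys.al_base ht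
  have bs' : ∀ b r, S.al t' b r → S.lo b ≤ r ∧ r ≤ S.hi b := fun _ _ => Sys.al_base ht'
  have ns : ¬ S.Sp q.p := fun e => hq.2.1 (Or.inl e)
  have reg : ∀ a, S.Cn (S.al t') q a → S.Reg t ∅ a := fun a ha =>
    ⟨(ha.val h bs').1 hq.1, fun n => gen a ⟨n, mt (h2.sp t' ht' _ _ ha).2 ns⟩ (ha.pt h bs').symm,
      (ha.U h).1 hq.2.2⟩
  have mono : ∀ {a a'}, S.Cn (S.al t) a a' → S.Cn (S.al t') a a' := Sys.Cn.mono (Sys.al_mono le)
  let R : Setoid (St G K) := ⟨S.Cn (S.al t), Sys.cn_equiv⟩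
  have rp : ∀ a, S.Cn (S.al t) (Quotient.mk R a).out a := fun a => Quotient.mk_out (s := R) a
  let Z := (h2.g2 t' ht' q hq.2.2 ns).toFinset.image fun a => (Quotient.mk R a).out
  have z1 : ∀ z ∈ Z, S.Cn (S.al t') q z := by
    intro z hz
    obtain ⟨a, ha, rfl⟩ := Finset.mem_image.1 hz
    exact ((Finite.mem_toFinset _).1 ha).trans (mono (rp a)).symm
  have z2 : ∀ z ∈ Z, ∀ a, S.Cn (S.al t) z a → z = (Quotient.mk R a).out := by
    intro z hz a ha
    obtain ⟨a', -, rfl⟩ := Finset.mem_image.1 hz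
    rw [show Quotient.mk R a' = Quotient.mk R a from Quotient.sound ((rp a').symm.trans ha)]
  have i1 : ∀ a, S.Cn (S.al t') q a → S.ind t' q a = ∑ z ∈ Z, S.ind t z a := by
    intro a ha
    have nf : ¬ S.Cn (S.al t') q a.fl := fun e => by
      have := (h5 t' ht').fl q a hq
      rw [Sys.ind, Sys.ind, if_pos ha, if_pos e] at this
      norm_num at this
    have z3 : (Quotient.mk R a).out ∈ Z :=
      Finset.mem_image.2 ⟨a, (Finite.mem_toFinset _).2 ha, rfl⟩
    rw [Finset.sum_eq_single_of_mem _ z3, Sys.ind, Sys.ind, if_pos ha, if_pos (rp a)]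
    intro z hz hn
    rw [Sys.ind, if_neg fun e => hn (z2 z hz a e), if_neg fun e => nf ((z1 z hz).trans (mono e))]
  have i2 : ∀ a, S.ind t' q a = ∑ z ∈ Z, S.ind t z a := by
    intro a
    by_cases ha : S.Cn (S.al t') q a
    · exact i1 a ha
    by_cases hf : S.Cn (S.al t') q a.fl
    · have := i1 _ hf
      rw [(h5 t' ht').fl q a hq,
        Finset.sum_congr rfl fun z hz => (h5 t ht).fl z a (reg z (z1 z hz)),
        Finset.sum_neg_distrib] at this
      exact neg_injective this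
    rw [Sys.ind, if_neg ha, if_neg hf]
    refine (Finset.sum_eq_zero fun z hz => ?_).symm
    rw [Sys.ind, if_neg fun e => ha ((z1 z hz).trans (mono e)),
      if_neg fun e => hf ((z1 z hz).trans (mono e))]
  have c1 : ∀ g k r, r ≤ S.len k → S.cr t' q g k 0 r = ∑ z ∈ Z, S.cr t z g k 0 r := by
    intro g k r hr
    by_cases hx : ∃ x, 0 < x ∧ x < r ∧ S.pt ⟨g, k, x, 1⟩ = S.pt q
    · obtain ⟨x, x1, x2, x3⟩ := hx
      rw [(h5 t' ht').cr_eq q g k 0 r x le_rfl hr x1 x2 x3, i2]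
      exact Finset.sum_congr rfl fun z hz =>
        ((h5 t ht).cr_eq z g k 0 r x le_rfl hr x1 x2 (x3.trans ((z1 z hz).pt h bs'))).symm
    push Not at hx
    rw [(h5 t' ht').cr_zero q g k 0 r fun x x1 x2 => by_contra fun e =>
      hx x x1 x2 ((((h5 t' ht').ne _ _).1 e).pt h bs').symm]
    exact (Finset.sum_eq_zero fun z hz => (h5 t ht).cr_zero z g k 0 r fun x x1 x2 =>
      by_contra fun e => hx x x1 x2 (((z1 z hz).pt h bs').trans
        ((((h5 t ht).ne _ _).1 e).pt h bs)).symm).symm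
  refine ⟨Z, fun z hz => reg z (z1 z hz), fun g b => ?_⟩
  have m1 : S.lo b ≤ S.mid b := by unfold Sys.mid; linarith [h.lo_le b]
  have m2 : S.mid b ≤ S.hi b := by unfold Sys.mid; linarith [h.lo_le b]
  rw [← k0]
  simp only [Sys.th, Sys.pot, Sys.im, Finset.sum_sub_distrib]
  rw [c1 _ _ _ (Sys.val_src h m1 m2).2, c1 _ _ _ (h.img b _ m1 m2).2]

lemma comb (h3 : S.Cell) (h4 : S.Fm) (h5 : S.Crs) (ht : S.Ad t) (Z : Finset (St G K))
    (hZ : ∀ z ∈ Z, S.Reg t ∅ z) : ∃ c : G × S.Fam t →₀ ℂ, ∀ g b, ∑ z ∈ Z, S.th t z g b =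
      Finsupp.linearCombination ℂ (fun y => S.th t (S.rs t y) g b) c := by
  classical
  induction Z using Finset.induction_on with
  | empty => exact ⟨0, by simp⟩
  | insert z Z hz ih =>
    obtain ⟨c, hc⟩ := ih fun z hz => hZ z (Finset.mem_insert_of_mem hz)
    obtain ⟨y, ε, -, hy⟩ := th_ref h3 h4 h5 ht (hZ z (Finset.mem_insert_self _ _))
    exact ⟨Finsupp.single y ε + c, fun g b => by simp [Finset.sum_insert hz, hc, hy]⟩

end CrMonoP

open CrMonoP

variable {G T K B : Type} [Group G] [MetricSpace T] [MulAction G T] [Countable G] [Fintype K]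
  [Fintype B] {S : Sys G T K B} {τ s : ℝ} {t : B × Bool → ℝ} {Fr : Set (B × Bool)}

theorem crMono (h : S.Ok) (h1 : S.Spc) (h2 : S.Lvs) (h3 : S.Cell) (h4 : S.Fm) (h5 : S.Crs) :
    S.CrMono := by
  intro t t' ht ht' le
  have := (h4 t' ht').fin
  have ex : ∀ f' : S.Fam t', ∃ c : G × S.Fam t →₀ ℂ, ∀ g b, S.th t' (S.rs t' (1, f')) g b =
      Finsupp.linearCombination ℂ (fun y => S.th t (S.rs t y) g b) c := by
    intro f'
    obtain ⟨Z, z1, z2⟩ := split h h2 h5 ht ht' le ((h4 t' ht').span (1, f')) (Or.inl rfl)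
    obtain ⟨c, hc⟩ := comb h3 h4 h5 ht Z z1
    exact ⟨c, fun g b => (z2 g b).trans (hc g b)⟩
  choose c hc using ex
  refine Submodule.span_mono ?_
  rintro η ⟨ξ', e⟩
  obtain ⟨ξ, k⟩ := alg c ξ'
  refine ⟨ξ, fun b => (e b).trans (k _ _ fun g f' => ?_)⟩
  have := vth_apply h h5 ht' b.1 g (1, f')
  rw [mul_one] at this
  simp only [this, hc, vth_apply h h5 ht]

end Pool.Agent.MP_494aff_an.Se
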