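import Mathlib
import Pool.Agent.MP_494aff_an.se.SpecH

set_option linter.unusedVariables false
set_option linter.unusedSectionVars false

open Set
open scoped Pointwise

namespace Pool.Agent.MP_494aff_an.Se

open Pool.Agent.MP_494aff_an.Pinch Pool.Agent.MP_494aff_an.Pinch.TowP Pool.Agent.MP_494aff_an.Lf

variable {G T K B : Type} [Group G] [MetricSpace T] [MulAction G T] [Countable G] [Fintype K]
  [Fintype B] {S : Sys G T K B} {τ s : ℝ} {t : B × Bool → ℝ} {Fr : Set (B × Bool)}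

namespace CrossAux

lemma ev_one {X : Type} (ξ : X → H G) (x : G × X) (c : ℂ) :
    ev ξ (Finsupp.single x c) = c • lam x.1 (ξ x.2) := by simp [ev]

lemma ev_sh {X : Type} (ξ : X → H G) (g : G) (ζ : G × X →₀ ℂ) :
    ev ξ (sh g ζ) = lam g (ev ξ ζ) := by
  induction ζ using Finsupp.induction_linear with
  | zero => simp
  | add a b h1 h2 => simp [h1, h2]
  | single x c => rw [sh_single, ev_one, ev_one, map_smul, map_mul]; rfl

lemma ev_dl {X : Type} [DecidableEq X] (f : X) (g : G) (ζ : G × X →₀ ℂ) :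
    ev (Pi.single f (dl (1 : G))) ζ g = ζ (g, f) := by
  classical
  induction ζ using Finsupp.induction_linear with
  | zero => simp
  | add a b h1 h2 => simp [h1, h2]
  | single x c =>
    obtain ⟨x, y⟩ := x
    rw [ev_one]
    by_cases h : y = f
    · subst h
      simp [lam_one, dl_apply, Finsupp.single_apply, eq_comm]
    · simp [h]

lemma vth_apply (h : S.Ok) (h5 : S.CrsAt t) (g : G) (b : B) (y : G × S.Fam t) :
    sh g (S.vth t b) y = S.th t (S.rs t y) g b := by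
  have v1 : S.lo b ≤ S.mid b := by have := h.lo_le b; unfold Sys.mid; linarith
  have v2 : S.mid b ≤ S.hi b := by have := h.lo_le b; unfold Sys.mid; linarith
  have e1 := h5.cr_sm g (S.rs t (g⁻¹ * y.1, y.2)) 1 (S.src b) 0 (S.mid b)
  have e2 := h5.cr_sm (g * (S.lab b)⁻¹) (S.rs t (S.lab b * (g⁻¹ * y.1), y.2)) 1 (S.tgt b) 0
    (S.mv b (S.mid b))
  rw [sh_apply, Sys.vth, Finsupp.sub_apply, sh_apply, h5.pc _ _ (Sys.val_src h v1 v2),
    h5.pc _ _ (h.img b _ v1 v2), inv_inv, ← e1, ← e2]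
  simp [Sys.th, Sys.pot, Sys.im, Sys.rs, St.sm, mul_assoc]

lemma th_rs (h3 : S.CellAt t ∅) (h4 : S.FamAt t) (h5 : S.CrsAt t) {q : St G K}
    (hq : S.Reg t ∅ q) : ∃ (y : G × S.Fam t) (ε : ℂ), ∀ g b,
      S.th t q g b = ε * S.th t (S.rs t y) g b := by
  obtain ⟨m, M, hs⟩ := h3.ex q hq
  have h1 : m < (m + M) / 2 := by linarith [hs.neg, hs.pos]
  have h2 : (m + M) / 2 < M := by linarith [hs.neg, hs.pos]
  have hs' : S.Span t ∅ (q.sh ((m + M) / 2)) (-((M - m) / 2)) ((M - m) / 2) := by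
    refine ⟨by linarith, by linarith, ?_, ?_, fun s p1 p2 => ?_⟩ <;> rw [St.sh_sh]
    · convert hs.lo using 3; ring
    · convert hs.hi using 3; ring
    · exact hs.reg _ (by linarith) (by linarith)
  obtain ⟨y, hy | hy⟩ := h4.ex _ _ hs'
  · refine ⟨y, 1, fun g b => ?_⟩
    rw [← h5.th_sh q m M _ g b hs h1 h2]
    simp only [Sys.th, Sys.pot, Sys.cr, fun a => h5.cn' _ _ a hy, one_mul]
  · refine ⟨y, -1, fun g b => ?_⟩
    rw [← h5.th_sh q m M _ g b hs h1 h2]
    simp only [Sys.th, Sys.pot, Sys.cr, fun a => h5.cn' _ _ a hy,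
      fun a => h5.fl' _ a (hs.reg _ h1 h2), finsum_neg_distrib]
    ring

lemma kill_iff (h : S.Ok) (h3 : S.CellAt t ∅) (h4 : S.FamAt t) (h5 : S.CrsAt t)
    (n : G × B →₀ ℂ) : (∀ q, S.Reg t ∅ q → (n.sum fun x c => c * S.th t q x.1 x.2) = 0) ↔
      (n.sum fun x c => c • sh x.1 (S.vth t x.2)) = 0 := by
  have e : ∀ y, (n.sum fun x c => c • sh x.1 (S.vth t x.2)) y
      = n.sum fun x c => c * S.th t (S.rs t y) x.1 x.2 := fun y => by
    simp only [Finsupp.sum, Finsupp.finsetSum_apply, Finsupp.smul_apply, vth_apply h h5,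
      smul_eq_mul]
  refine ⟨fun H => Finsupp.ext fun y => (e y).trans (H _ (h4.reg y)), fun H q hq => ?_⟩
  obtain ⟨y, ε, hy⟩ := th_rs h3 h4 h5 hq
  have := e y
  rw [H] at this
  simp only [Finsupp.sum, hy, mul_left_comm _ ε, ← Finset.mul_sum] at this ⊢
  rw [← this]; simp

open Classical in
/-- The functional of a relation. -/
noncomputable def Φ (S : Sys G T K B) (n : G × B →₀ ℂ) : (S.Bn → H G) →L[ℂ] H G :=
  n.sum fun x c => c • (lam x.1).comp
    (if h : S.lo x.2 < S.hi x.2 then ContinuousLinearMap.proj (⟨x.2, h⟩ : S.Bn) else 0)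

lemma ker_iff (n : G × B →₀ ℂ) (hn : ∀ x ∈ n.support, S.lo x.2 < S.hi x.2) :
    (n.sum fun x c => c • sh x.1 (S.vth t x.2)) = 0 ↔
      (S.Rg t).topologicalClosure ≤ LinearMap.ker (Φ S n).toLinearMap := by
  classical
  have e : ∀ (ξ : S.Fam t → H G) (η : S.Bn → H G), (∀ b, η b = ev ξ (S.vth t b.1)) →
      Φ S n η = ev ξ (n.sum fun x c => c • sh x.1 (S.vth t x.2)) := fun ξ η hη => by
    simp only [Φ, Finsupp.sum, map_sum, map_smul, ev_sh, _root_.sum_apply]
    exact Finset.sum_congr rfl fun x hx => by simp [hn x hx, hη]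
  constructor
  · intro H
    refine Submodule.topologicalClosure_minimal _ (Submodule.span_le.2 ?_) (Φ S n).isClosed_ker
    rintro η ⟨ξ, hξ⟩
    exact (e ξ η hξ).trans (by rw [H, map_zero])
  · intro H
    ext y
    have := H (Submodule.le_topologicalClosure _ (Submodule.subset_span
      ⟨Pi.single y.2 (dl 1), fun b => rfl⟩))
    have h2 := (e _ _ fun b => rfl).symm.trans this
    rw [← ev_dl y.2 y.1, h2]; rfl

end CrossAux

open CrossAux in
theorem cross [Fintype S.Bn] (hD : DimStmt) (h : S.Ok) (h2 : S.Lvs) (h3 : S.Cell) (h4 : S.Fm)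
    (h5 : S.Crs) (hI : S.CrInt) (hM : S.CrMono) : ∃ τ, S.Sm τ ∧ S.Cross τ := by
  classical
  obtain ⟨τ₁, h1⟩ := h2.sm
  let c : ℝ → B × Bool → ℝ := fun σ e => if S.En e then σ else 0
  have hc : ∀ σ, 0 < σ → S.Adm σ (c σ) := fun σ hσ e =>
    ⟨fun he => by simp [c, he, hσ], fun he => by simp [c, he]⟩
  have ad : ∀ σ, 0 < σ → σ ≤ τ₁ → S.Ad (c σ) := fun σ p1 p2 => ⟨σ, h1.mono p1 p2, hc σ p1⟩
  have ex : ∃ n : ℕ, ∃ σ, 0 < σ ∧ σ ≤ τ₁ ∧ dim (S.Rg (c σ)) = n :=
    (hI _ (ad _ h1.pos le_rfl)).2.imp fun n hn => ⟨τ₁, h1.pos, le_rfl, hn⟩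
  obtain ⟨τ, p1, p2, p3⟩ := Nat.find_spec ex
  have hτ := h1.mono p1 p2
  have key : ∀ t, S.Adm τ t → (S.Rg t).topologicalClosure = (S.Rg (c τ)).topologicalClosure := by
    intro t ht
    have hd : S.Ad t := ⟨τ, hτ, ht⟩
    obtain ⟨σ, q1, q2, q3⟩ : ∃ σ, 0 < σ ∧ σ ≤ τ ∧ ∀ e, S.En e → σ ≤ t e := by
      obtain ⟨e, he⟩ := Finite.exists_min fun e : Option (B × Bool) =>
        e.elim τ fun e => if S.En e then t e else τ
      refine ⟨_, ?_, he none, fun e' he' => by simpa [he'] using he (some e')⟩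
      rcases e with _ | e
      · exact p1
      · simp only [Option.elim]; split_ifs with h0
        exacts [((ht e).1 h0).1, p1]
    have a1 := ad σ q1 (q2.trans p2)
    have l1 := hM t (c σ) hd a1 fun e => by
      by_cases he : S.En e
      · simpa [c, he] using q3 e he
      · simpa [c, he] using ht.nonneg e
    have l2 := hM (c τ) t (ad τ p1 p2) hd fun e => by
      by_cases he : S.En e
      · simpa [c, he] using ((ht e).1 he).2
      · simp [c, he, (ht e).2 he]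
    refine hD.eq _ _ _ _ (hI _ hd).1 (hI _ (ad τ p1 p2)).1 (Submodule.topologicalClosure_mono l2) ?_
    obtain ⟨n, hn⟩ := (hI _ a1).2
    rw [hD.clo, hD.clo, p3]
    refine le_trans ?_ (hD.mono _ _ _ _ l1)
    rw [hn]
    exact_mod_cast Nat.find_min' ex ⟨σ, q1, q2.trans p2, hn⟩
  refine ⟨τ, hτ, fun t t' ht ht' n hn H => ?_⟩
  have hd : S.Ad t := ⟨τ, hτ, ht⟩
  have hd' : S.Ad t' := ⟨τ, hτ, ht'⟩
  rw [kill_iff h (h3 t' hd' ∅ finite_empty (by simp)) (h4 t' hd') (h5 t' hd'), ker_iff n hn,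
    key t' ht'] at H
  rwa [kill_iff h (h3 t hd ∅ finite_empty (by simp)) (h4 t hd) (h5 t hd), ker_iff n hn, key t ht]

end Pool.Agent.MP_494aff_an.Se
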