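import Mathlib
import Pool.Agent.MP_494aff_an.se.SpecH

/-! Crossing numbers of segments with a leaf. -/

set_option linter.unusedVariables false
set_option linter.unusedSectionVars false

open Set
open scoped Pointwise

namespace Pool.Agent.MP_494aff_an.Se

open Pool.Agent.MP_494aff_an.Pinch Pool.Agent.MP_494aff_an.Pinch.TowP Pool.Agent.MP_494aff_an.Lf

variable {G T K B : Type} [Group G] [MetricSpace T] [MulAction G T] [Countable G] [Fintype K]
  [Fintype B] {S : Sys G T K B} {τ s : ℝ} {t : B × Bool → ℝ} {Fr : Set (B × Bool)}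

namespace CrsA

open Sys

lemma fs_eq {I : Set ℝ} {f : ℝ → ℂ} {x : ℝ} (hx : x ∈ I) (h : ∀ y ∈ I, y ≠ x → f y = 0) :
    ∑ᶠ y ∈ I, f y = f x := by
  rw [finsum_eq_single _ x]
  · simp [hx]
  · intro y hy
    by_cases hI : y ∈ I
    · simp [h y hI hy]
    · simp [hI]

lemma self (q : St G K) : S.ind t q q = 1 := if_pos (Cn.refl q)

lemma one {q a : St G K} (h : S.Cn (S.al t) q a) : S.ind t q a = 1 := if_pos h

lemma ind_congr {q a q' a' : St G K} (e1 : S.Cn (S.al t) q a ↔ S.Cn (S.al t) q' a')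
    (e2 : S.Cn (S.al t) q a.fl ↔ S.Cn (S.al t) q' a'.fl) : S.ind t q a = S.ind t q' a' := by
  unfold ind
  rw [propext e1, propext e2]

lemma cn (q : St G K) {a a' : St G K} (h : S.Cn (S.al t) a a') : S.ind t q a = S.ind t q a' :=
  ind_congr ⟨fun x => x.trans h, fun x => x.trans h.symm⟩
    ⟨fun x => x.trans h.fl, fun x => x.trans h.fl.symm⟩

lemma cn' {q q' : St G K} (a : St G K) (h : S.Cn (S.al t) q q') : S.ind t q a = S.ind t q' a :=
  ind_congr ⟨fun x => h.symm.trans x, fun x => h.trans x⟩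
    ⟨fun x => h.symm.trans x, fun x => h.trans x⟩

lemma ne (q a : St G K) : S.ind t q a ≠ 0 ↔ S.Cf (S.al t) q a := by
  unfold ind Cf
  by_cases h1 : S.Cn (S.al t) q a
  · simp [h1]
  · by_cases h2 : S.Cn (S.al t) q a.fl <;> simp [h1, h2]

lemma ind_sm (g : G) (q a : St G K) : S.ind t (St.sm g q) (St.sm g a) = S.ind t q a :=
  ind_congr (cn_sm g) (cn_sm (a' := a.fl) g)

lemma cr_sm (h : G) (q : St G K) (g : G) (k : K) (r r' : ℝ) :
    S.cr t (St.sm h q) (h * g) k r r' = S.cr t q g k r r' :=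
  finsum_mem_congr rfl fun x _ => ind_sm h q ⟨g, k, x, 1⟩

lemma uc_sm (h : G) (q : St G K) (g : G) (e : B × Bool) (ρ : ℝ) :
    S.uc t (St.sm h q) (h * g) e ρ = S.uc t q g e ρ :=
  finsum_mem_congr rfl fun x _ => by rw [← en_sm, ← en_sm, ind_sm, ind_sm]

lemma pot_sm (h : G) (q a : St G K) : S.pot t (St.sm h q) (St.sm h a) = S.pot t q a :=
  cr_sm h q a.g a.k 0 a.r

lemma th_sm (h : G) (q : St G K) (g : G) (b : B) :
    S.th t (St.sm h q) (h * g) b = S.th t q g b := by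
  have e1 := pot_sm (S := S) (t := t) h q ⟨g, S.src b, S.mid b, 1⟩
  have e2 := pot_sm (S := S) (t := t) h q (S.im b ⟨g, S.src b, S.mid b, 1⟩)
  rw [im_sm] at e2
  exact congrArg₂ (· - ·) e1 e2

lemma cr_zero (q : St G K) (g : G) (k : K) (r r' : ℝ)
    (h : ∀ x, r < x → x < r' → S.ind t q ⟨g, k, x, 1⟩ = 0) : S.cr t q g k r r' = 0 :=
  finsum_mem_eq_zero_of_forall_eq_zero fun x hx => h x hx.1 hx.2

lemma uc_zero (q : St G K) (g : G) (e : B × Bool) (ρ : ℝ)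
    (h : ∀ x d, ρ < x → x < t e → S.ind t q (S.en g e x d) = 0) : S.uc t q g e ρ = 0 :=
  finsum_mem_eq_zero_of_forall_eq_zero fun x hx => by
    rw [h x false hx.1 hx.2, h x true hx.1 hx.2, sub_zero]

lemma uc_ne (q : St G K) (g : G) (e : B × Bool) (ρ : ℝ) (h : S.uc t q g e ρ ≠ 0) :
    ∃ x d, ρ < x ∧ x < t e ∧ S.Cf (S.al t) q (S.en g e x d) := by
  by_contra hn
  refine h (uc_zero q g e ρ fun x d h1 h2 => ?_)
  by_contra h3
  exact hn ⟨x, d, h1, h2, (ne _ _).1 h3⟩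

lemma pt_eq (h : S.Ok) (ht : S.Ad t) {q a : St G K} (hi : S.ind t q a ≠ 0) : S.pt a = S.pt q :=
  (Cf.pt h (fun _ _ => al_base ht) ((ne q a).1 hi)).symm

lemma pos_eq (h : S.Ok) {g : G} {k : K} {x y σ σ' : ℝ} (hx : S.Val (k, x)) (hy : S.Val (k, y))
    (e : S.pt ⟨g, k, x, σ⟩ = S.pt ⟨g, k, y, σ'⟩) : x = y := by
  have := dist_pt h (g := g) (σ := σ) (σ' := σ') hx hy
  rw [e, dist_self] at this
  exact sub_eq_zero.1 (abs_eq_zero.1 this.symm)

lemma cr_eq (h : S.Ok) (ht : S.Ad t) (q : St G K) (g : G) (k : K) (r r' x : ℝ) (h0 : 0 ≤ r)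
    (h1 : r' ≤ S.len k) (h2 : r < x) (h3 : x < r') (e : S.pt ⟨g, k, x, 1⟩ = S.pt q) :
    S.cr t q g k r r' = S.ind t q ⟨g, k, x, 1⟩ := by
  refine fs_eq (f := fun y => S.ind t q ⟨g, k, y, 1⟩) ⟨h2, h3⟩ fun y hy hne => ?_
  by_contra hi
  exact hne (pos_eq h ⟨h0.trans hy.1.le, hy.2.le.trans h1⟩ ⟨h0.trans h2.le, h3.le.trans h1⟩
    ((pt_eq h ht hi).trans e.symm))

lemma cr_add (h : S.Ok) (ht : S.Ad t) (q : St G K) (g : G) (k : K) (r r' r'' : ℝ) (h0 : 0 ≤ r)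
    (h1 : r ≤ r') (h2 : r' ≤ r'') (h3 : r'' ≤ S.len k) (hz : S.ind t q ⟨g, k, r', 1⟩ = 0) :
    S.cr t q g k r r'' = S.cr t q g k r r' + S.cr t q g k r' r'' := by
  by_cases hx : ∃ x, r < x ∧ x < r'' ∧ S.ind t q ⟨g, k, x, 1⟩ ≠ 0
  · obtain ⟨x, x1, x2, x3⟩ := hx
    have e := pt_eq h ht x3
    have uq : ∀ y, r < y → y < r'' → y ≠ x → S.ind t q ⟨g, k, y, 1⟩ = 0 := fun y y1 y2 y3 => by
      by_contra hi
      exact y3 (pos_eq h ⟨h0.trans y1.le, y2.le.trans h3⟩ ⟨h0.trans x1.le, x2.le.trans h3⟩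
        ((pt_eq h ht hi).trans e.symm))
    rw [cr_eq h ht q g k r r'' x h0 h3 x1 x2 e]
    rcases lt_trichotomy x r' with hl | hl | hl
    · rw [cr_eq h ht q g k r r' x h0 (h2.trans h3) x1 hl e, cr_zero q g k r' r'' fun y y1 y2 =>
        uq y (h1.trans_lt y1) y2 (hl.trans y1).ne', add_zero]
    · exact absurd hz (hl ▸ x3)
    · rw [cr_eq h ht q g k r' r'' x (h0.trans h1) h3 hl x2 e, cr_zero q g k r r' fun y y1 y2 =>
        uq y y1 (y2.trans_le h2) (y2.trans hl).ne, zero_add]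
  · have hz' : ∀ y, r < y → y < r'' → S.ind t q ⟨g, k, y, 1⟩ = 0 := fun y y1 y2 => by
      by_contra hi
      exact hx ⟨y, y1, y2, hi⟩
    rw [cr_zero q g k r r'' hz', cr_zero q g k r r' fun y y1 y2 => hz' y y1 (y2.trans_le h2),
      cr_zero q g k r' r'' fun y y1 y2 => hz' y (h1.trans_lt y1) y2, add_zero]

lemma uc_eq (h : S.Ok) (ht : S.Ad t) (q : St G K) (g : G) (e : B × Bool) (ρ x : ℝ) (he : S.En e)
    (h0 : 0 ≤ ρ) (h1 : ρ < x) (h2 : x < t e) (ep : S.pt (S.up g e x) = S.pt q) :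
    S.uc t q g e ρ = S.ind t q (S.en g e x false) - S.ind t q (S.en g e x true) := by
  obtain ⟨τ, hτ, ha⟩ := id ht
  have hle := ((ha e).1 he).2
  refine fs_eq (f := fun y => S.ind t q (S.en g e y false) - S.ind t q (S.en g e y true))
    ⟨h1, h2⟩ fun y hy hne => ?_
  have z : ∀ d, S.ind t q (S.en g e y d) = 0 := fun d => by
    by_contra hi
    have y0 := h0.trans hy.1.le
    have y1 := hy.2.le.trans hle
    have e1 := (val_en h hτ he.1 g y0 y1 d).2.symm.trans (pt_eq h ht hi)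
    have := dist_up h hτ he.1 g y0 y1 (h0.trans h1.le) (h2.le.trans hle)
    rw [e1, ep, dist_self] at this
    exact hne (sub_eq_zero.1 (abs_eq_zero.1 this.symm))
  simp only [z, sub_zero]

lemma node (C : S.CellAt t ∅) (q a : St G K) (hq : S.Reg t ∅ q) (ha : S.Nd t ∅ a.p) :
    S.ind t q a = 0 := by
  by_contra hi
  rcases (ne q a).1 hi with c | c
  · exact (C.reg _ _ c hq).2.1 ha
  · exact (C.reg _ _ c hq).2.1 ha

/-- A leaf of regular states does not contain a state and its flip. -/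
def NF (S : Sys G T K B) (t : B × Bool → ℝ) : Prop :=
  ∀ q a, S.Reg t ∅ q → S.Cn (S.al t) q a → ¬ S.Cn (S.al t) q a.fl

lemma nf (h1 : S.Spc) (h2 : S.Lvs) (ht : S.Ad t) (C : S.CellAt t ∅) : NF S t := by
  intro q a hq c c'
  have ha := C.reg _ _ c hq
  have hs : ¬ S.Sp a.p := fun x => ha.2.1 (Or.inl x)
  exact ha.2.2.ne_fl (h1.g1 a a.fl ha.2.2 hs (h2.opn t ht _ _ (c.symm.trans c') hs) rfl)

lemma fl (N : NF S t) (q a : St G K) (hq : S.Reg t ∅ q) : S.ind t q a.fl = -S.ind t q a := by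
  unfold ind
  rw [St.fl_fl]
  by_cases h1 : S.Cn (S.al t) q a
  · simp [h1, N q a hq h1]
  · by_cases h2 : S.Cn (S.al t) q a.fl <;> simp [h1, h2]

lemma fl' (N : NF S t) (q a : St G K) (hq : S.Reg t ∅ q) : S.ind t q.fl a = -S.ind t q a := by
  rw [← fl N q a hq]
  exact ind_congr cn_fl cn_fl

lemma span_reg {a : St G K} {m M : ℝ} (h : S.Span t ∅ a m M) : S.Reg t ∅ a := by
  simpa using h.reg 0 h.neg h.pos

lemma span_sh {a : St G K} {m M s : ℝ} (h : S.Span t ∅ a m M) (h1 : m < s) (h2 : s < M) :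
    S.Span t ∅ (a.sh s) (m - s) (M - s) where
  neg := by linarith
  pos := by linarith
  lo := by rw [St.sh_sh, add_sub_cancel]; exact h.lo
  hi := by rw [St.sh_sh, add_sub_cancel]; exact h.hi
  reg u u1 u2 := by rw [St.sh_sh]; exact h.reg _ (by linarith) (by linarith)

/-- A shift inside the cell stays between two nodes. -/
lemma stay {c : St G K} {m M s r r' : ℝ} (h : S.Span t ∅ c m M) (h1 : m < s) (h2 : s < M)
    (n1 : S.Nd t ∅ (c.k, r)) (n2 : S.Nd t ∅ (c.k, r')) (c1 : r < c.r) (c2 : c.r < r') :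
    r < (c.sh s).r ∧ (c.sh s).r < r' := by
  have key : ∀ u, m < u → u < M → c.r + c.σ * u ≠ r ∧ c.r + c.σ * u ≠ r' := fun u u1 u2 =>
    ⟨fun e => (h.reg u u1 u2).2.1 (by rw [← e] at n1; exact n1),
      fun e => (h.reg u u1 u2).2.1 (by rw [← e] at n2; exact n2)⟩
  have hm := h.neg
  have hM := h.pos
  change r < c.r + c.σ * s ∧ c.r + c.σ * s < r'
  rcases (span_reg h).2.2 with e | e <;> rw [e] at key ⊢ <;> constructor <;> by_contra hn <;>
    have hn' := not_lt.1 hn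
  · exact (key (r - c.r) (by linarith) (by linarith)).1 (by ring)
  · exact (key (r' - c.r) (by linarith) (by linarith)).2 (by ring)
  · exact (key (c.r - r) (by linarith) (by linarith)).1 (by ring)
  · exact (key (c.r - r') (by linarith) (by linarith)).2 (by ring)

lemma move (C : S.CellAt t ∅) (N : NF S t) {q : St G K} {m M s : ℝ} {g : G} {k : K} {r r' x : ℝ}
    (h : S.Span t ∅ q m M) (h1 : m < s) (h2 : s < M) (n1 : S.Nd t ∅ (k, r))
    (n2 : S.Nd t ∅ (k, r')) (x1 : r < x) (x2 : x < r') (hi : S.ind t q ⟨g, k, x, 1⟩ ≠ 0) :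
    ∃ y, r < y ∧ y < r' ∧ S.ind t (q.sh s) ⟨g, k, y, 1⟩ = S.ind t q ⟨g, k, x, 1⟩ := by
  rcases (ne _ _).1 hi with c | c
  · obtain ⟨p1, p2⟩ := C.tr _ _ _ _ c h
    obtain ⟨y1, y2⟩ := stay p1 h1 h2 n1 n2 x1 x2
    exact ⟨_, y1, y2, (one (p2 s h1.le h2.le)).trans (one c).symm⟩
  · obtain ⟨p1, p2⟩ := C.tr _ _ _ _ c h
    obtain ⟨y1, y2⟩ := stay p1 h1 h2 n1 n2 x1 x2
    refine ⟨_, y1, y2, neg_injective ?_⟩
    rw [← fl N _ _ (h.reg s h1 h2), ← fl N _ _ (span_reg h), one c]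
    exact one (p2 s h1.le h2.le)

lemma cr_sh (h : S.Ok) (ht : S.Ad t) (C : S.CellAt t ∅) (N : NF S t) (q : St G K) (m M s : ℝ)
    (g : G) (k : K) (r r' : ℝ) (hq : S.Span t ∅ q m M) (h1 : m < s) (h2 : s < M)
    (n1 : S.Nd t ∅ (k, r)) (n2 : S.Nd t ∅ (k, r')) :
    S.cr t (q.sh s) g k r r' = S.cr t q g k r r' := by
  have v1 : 0 ≤ r := (C.val _ n1).1
  have v2 : r' ≤ S.len k := (C.val _ n2).2
  by_cases hx : ∃ x, r < x ∧ x < r' ∧ S.ind t q ⟨g, k, x, 1⟩ ≠ 0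
  · obtain ⟨x, x1, x2, x3⟩ := hx
    obtain ⟨y, y1, y2, y3⟩ := move C N hq h1 h2 n1 n2 x1 x2 x3
    rw [cr_eq h ht q g k r r' x v1 v2 x1 x2 (pt_eq h ht x3),
      cr_eq h ht _ g k r r' y v1 v2 y1 y2 (pt_eq h ht (y3 ▸ x3)), y3]
  · rw [cr_zero q g k r r' fun y y1 y2 => by
      by_contra hi
      exact hx ⟨y, y1, y2, hi⟩]
    refine cr_zero _ g k r r' fun x x1 x2 => ?_
    by_contra hi
    have hm := hq.neg
    have hM := hq.pos
    obtain ⟨y, y1, y2, y3⟩ := move (s := -s) C N (span_sh hq h1 h2) (by linarith) (by linarith)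
      n1 n2 x1 x2 hi
    rw [St.sh_sh, add_neg_cancel, St.sh_zero] at y3
    exact hx ⟨y, y1, y2, y3 ▸ hi⟩

lemma nd_mk {x : K × ℝ} (h : S.Mk t x) : S.Nd t ∅ x :=
  Or.inr ⟨⟨1, x.1, x.2, 1⟩, ⟨1, x.1, x.2, 1⟩, rfl, Cn.refl _, rfl, Or.inl h⟩

lemma nd_mid (b : B) : S.Nd t ∅ (S.src b, S.mid b) :=
  nd_mk (Or.inl (Or.inr (Or.inr ⟨b, _, Or.inr (Or.inr rfl), Or.inl rfl⟩)))

lemma nd_mid' (b : B) : S.Nd t ∅ (S.tgt b, S.mv b (S.mid b)) :=
  nd_mk (Or.inl (Or.inr (Or.inr ⟨b, _, Or.inr (Or.inr rfl), Or.inr rfl⟩)))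

lemma th_sh (h : S.Ok) (ht : S.Ad t) (C : S.CellAt t ∅) (N : NF S t) (q : St G K) (m M s : ℝ)
    (g : G) (b : B) (hq : S.Span t ∅ q m M) (h1 : m < s) (h2 : s < M) :
    S.th t (q.sh s) g b = S.th t q g b :=
  congrArg₂ (· - ·) (cr_sh h ht C N q m M s _ _ _ _ hq h1 h2 (S.nd_zero t ∅ _) (nd_mid b))
    (cr_sh h ht C N q m M s _ _ _ _ hq h1 h2 (S.nd_zero t ∅ _) (nd_mid' b))

/-- The change of the potential along a directed segment. -/
lemma dir (h : S.Ok) (ht : S.Ad t) (N : NF S t) {q a : St G K} {L : ℝ} (hq : S.Reg t ∅ q)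
    (hU : a.U) (hL : 0 ≤ L) (v1 : S.Val a.p) (v2 : S.Val (a.sh L).p) (z1 : S.ind t q a = 0)
    (z2 : S.ind t q (a.sh L) = 0) :
    (∀ x, 0 < x → x < L → S.pt (a.sh x) = S.pt q →
      S.pot t q (a.sh L) - S.pot t q a = S.ind t q (a.sh x)) ∧
    ((∀ x, 0 < x → x < L → S.ind t q (a.sh x) = 0) → S.pot t q (a.sh L) - S.pot t q a = 0) := by
  obtain ⟨g, k, r, σ⟩ := a
  have a1 : 0 ≤ r := v1.1
  have a2 : r ≤ S.len k := v1.2
  have a3 : 0 ≤ r + σ * L := v2.1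
  have a4 : r + σ * L ≤ S.len k := v2.2
  rcases hU with e | e <;> obtain rfl : σ = _ := e
  · have e := cr_add h ht q g k 0 r (r + 1 * L) le_rfl a1 (by linarith) a4 z1
    have e' : S.pot t q (St.sh ⟨g, k, r, 1⟩ L) - S.pot t q ⟨g, k, r, 1⟩ =
        S.cr t q g k r (r + 1 * L) := sub_eq_iff_eq_add'.2 e
    rw [e']
    refine ⟨fun x x1 x2 x3 => cr_eq h ht q g k r _ (r + 1 * x) a1 a4 (by linarith) (by linarith) x3,
      fun hz => cr_zero q g k r _ fun y y1 y2 => ?_⟩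
    have := hz (y - r) (by linarith) (by linarith)
    rwa [show St.sh ⟨g, k, r, 1⟩ (y - r) = (⟨g, k, y, 1⟩ : St G K) by simp [St.sh]] at this
  · have f : ∀ x, S.ind t q ⟨g, k, r + -1 * x, 1⟩ = -S.ind t q (St.sh ⟨g, k, r, -1⟩ x) := fun x => by
      rw [← fl N _ _ hq]; simp [St.sh, St.fl]
    have e := cr_add h ht q g k 0 (r + -1 * L) r le_rfl a3 (by linarith) a2 (by
      rw [f, z2, neg_zero])
    have e' : S.pot t q (St.sh ⟨g, k, r, -1⟩ L) - S.pot t q ⟨g, k, r, -1⟩ =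
        -S.cr t q g k (r + -1 * L) r := by
      change S.cr t q g k 0 (r + -1 * L) - S.cr t q g k 0 r = _
      rw [e]; ring
    rw [e']
    refine ⟨fun x x1 x2 x3 => ?_, fun hz => ?_⟩
    · rw [cr_eq h ht q g k _ r (r + -1 * x) a3 a2 (by linarith) (by linarith) x3, f, neg_neg]
    · rw [cr_zero q g k _ r fun y y1 y2 => ?_, neg_zero]
      have := f (r - y)
      rw [hz (r - y) (by linarith) (by linarith), neg_zero] at this
      rwa [show r + -1 * (r - y) = y by ring] at this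

lemma band0 (h : S.Ok) (ht : S.Ad t) (C : S.CellAt t ∅) (N : NF S t) {q c : St G K} {b : B}
    {L : ℝ} (hq : S.Reg t ∅ q) (hk : c.k = S.src b) (ha : S.al t b c.r) (hU : c.U) (hL : 0 ≤ L)
    (hm : (c.sh L).r = S.mid b) (z : S.ind t q c = 0) :
    S.pot t q c - S.pot t q (S.im b c) = S.th t q c.g b := by
  have hb : ∀ b r, S.al t b r → S.lo b ≤ r ∧ r ≤ S.hi b := fun _ _ => al_base ht
  have am := al_mid ht ha.1
  have all : ∀ x, 0 ≤ x → x ≤ L → S.Cn (S.al t) (c.sh x) ((S.im b c).sh x) := fun x x1 x2 => by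
    rw [im_sh]
    refine Cn.move hk ?_
    have m1 := am.2.1
    have m2 := am.2.2
    have m3 := ha.2.1
    have m4 := ha.2.2
    rw [← hm] at m1 m2
    change S.lo b + t (b, false) ≤ c.r + c.σ * L at m1
    change c.r + c.σ * L ≤ S.hi b - t (b, true) at m2
    change S.al t b (c.r + c.σ * x)
    rcases hU with e | e <;> rw [e] at m1 m2 ⊢ <;> exact ⟨ha.1, by linarith, by linarith⟩
  have c0 : S.Cn (S.al t) c (S.im b c) := Cn.move hk ha
  have nL : S.Nd t ∅ (c.sh L).p := by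
    change S.Nd t ∅ (c.k, (c.sh L).r)
    rw [hk, hm]; exact nd_mid b
  have v1 : S.Val c.p := by
    change S.Val (c.k, c.r)
    rw [hk]; exact val_src h (hb _ _ ha).1 (hb _ _ ha).2
  have v2 := C.val _ nL
  have zL := node C q _ hq nL
  have d1 := dir h ht N hq hU hL v1 v2 z zL
  have d2 := dir h ht N hq ((im_U h b).2 hU) hL ((c0.val h hb).1 v1)
    (((all L hL le_rfl).val h hb).1 v2) (cn q c0 ▸ z) (cn q (all L hL le_rfl) ▸ zL)
  have e : S.th t q c.g b = S.pot t q (c.sh L) - S.pot t q ((S.im b c).sh L) := by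
    rw [im_sh]
    change _ = S.cr t q c.g c.k 0 (c.sh L).r -
      S.cr t q (c.g * (S.lab b)⁻¹) (S.tgt b) 0 (S.mv b (c.sh L).r)
    rw [hk, hm]; rfl
  rw [e]
  by_cases hx : ∃ x, 0 < x ∧ x < L ∧ S.pt (c.sh x) = S.pt q
  · obtain ⟨x, x1, x2, x3⟩ := hx
    have cx := all x x1.le x2.le
    have e1 := d1.1 x x1 x2 x3
    have e2 := d2.1 x x1 x2 ((cx.pt h hb).symm.trans x3)
    rw [← cn q cx] at e2
    linear_combination e2 - e1
  · have z' : ∀ x, 0 < x → x < L → S.ind t q (c.sh x) = 0 := fun x x1 x2 => by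
      by_contra hi
      exact hx ⟨x, x1, x2, pt_eq h ht hi⟩
    have e1 := d1.2 z'
    have e2 := d2.2 fun x x1 x2 => cn q (all x x1.le x2.le) ▸ z' x x1 x2
    linear_combination e2 - e1

lemma band (h : S.Ok) (ht : S.Ad t) (C : S.CellAt t ∅) (N : NF S t) (q a : St G K) (b : B)
    (hq : S.Reg t ∅ q) (hk : a.k = S.src b) (ha : S.al t b a.r) (hU : a.U)
    (z : S.ind t q a = 0) : S.pot t q a - S.pot t q (S.im b a) = S.th t q a.g b := by
  have hs : a.σ * a.σ = 1 := by rcases hU with e | e <;> rw [e] <;> norm_num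
  rcases le_total 0 (a.σ * (S.mid b - a.r)) with hL | hL
  · refine band0 h ht C N hq hk ha hU hL ?_ z
    change a.r + a.σ * (a.σ * (S.mid b - a.r)) = _
    linear_combination (S.mid b - a.r) * hs
  · have := band0 (c := a.fl) (L := -(a.σ * (S.mid b - a.r))) h ht C N hq hk ha hU.fl
      (by linarith) (by
        change a.r + -a.σ * -(a.σ * (S.mid b - a.r)) = _
        linear_combination (S.mid b - a.r) * hs) (by rw [fl N _ _ hq, z, neg_zero])
    exact this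

lemma link (h : S.Ok) (ht : S.Ad t) (C : S.CellAt t ∅) (N : NF S t) (q : St G K) (g : G)
    (e : B × Bool) (ρ : ℝ) (hq : S.Reg t ∅ q) (he : S.En e) (h0 : 0 ≤ ρ) (h1 : ρ ≤ t e)
    (z : ∀ d, S.ind t q (S.en g e ρ d) = 0) :
    S.pot t q (S.en g e ρ false) - S.pot t q (S.en g e ρ true) =
      S.th t q g e.1 - S.uc t q g e ρ := by
  obtain ⟨τ, hτ, ha⟩ := id ht
  have hle := ((ha e).1 he).2
  have nT : ∀ d, S.Nd t ∅ (S.en g e (t e) d).p := fun d =>
    nd_mk (Or.inr ⟨e, d, he, en_p g 1 e _ d⟩)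
  have zT : ∀ d, S.ind t q (S.en g e (t e) d) = 0 := fun d => node C q _ hq (nT d)
  have top : S.pot t q (S.en g e (t e) false) - S.pot t q (S.en g e (t e) true) =
      S.th t q g e.1 :=
    band h ht C N q (S.up g e (t e)) e.1 hq rfl (al_up hτ ha he.1 g le_rfl hle) (up_U g e _)
      (zT false)
  have eT : ∀ d, (S.en g e ρ d).sh (t e - ρ) = S.en g e (t e) d := fun d => by
    rw [en_sh, add_sub_cancel]
  have D := fun d => dir (L := t e - ρ) h ht N hq (en_U h g e ρ d) (by linarith)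
    (val_en h hτ he.1 g h0 (h1.trans hle) d).1 (by rw [eT]; exact C.val _ (nT d)) (z d)
    (by rw [eT]; exact zT d)
  simp only [eT, en_sh] at D
  by_cases hx : ∃ x, ρ < x ∧ x < t e ∧ S.pt (S.up g e x) = S.pt q
  · obtain ⟨x, x1, x2, x3⟩ := hx
    have e1 : ∀ d, S.pot t q (S.en g e (t e) d) - S.pot t q (S.en g e ρ d) =
        S.ind t q (S.en g e x d) := fun d => by
      have := (D d).1 (x - ρ) (by linarith) (by linarith)
      rw [add_sub_cancel] at this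
      exact this ((val_en h hτ he.1 g (h0.trans x1.le) (x2.le.trans hle) d).2.trans x3)
    rw [uc_eq h ht q g e ρ x he h0 x1 x2 x3]
    linear_combination top - e1 false + e1 true
  · have z' : ∀ x d, ρ < x → x < t e → S.ind t q (S.en g e x d) = 0 := fun x d x1 x2 => by
      by_contra hi
      exact hx ⟨x, x1, x2, (val_en h hτ he.1 g (h0.trans x1.le) (x2.le.trans hle) d).2.symm.trans
        (pt_eq h ht hi)⟩
    have e1 : ∀ d, S.pot t q (S.en g e (t e) d) - S.pot t q (S.en g e ρ d) = 0 := fun d =>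
      (D d).2 fun x x1 x2 => z' _ d (by linarith) (by linarith)
    rw [uc_zero q g e ρ z']
    linear_combination top - e1 false + e1 true

lemma fin_g (h2 : S.Lvs) (ht : S.Ad t) (F : S.FamAt t) (g₀ : G) :
    {y : G × S.Fam t | ∃ a : St G K, a.g = g₀ ∧ S.Cf (S.al t) (S.rs t y) a}.Finite := by
  have := F.fin
  have lf : ∀ f : S.Fam t, {a' | S.Cn (S.al t) (S.rs t (1, f)) a'}.Finite := fun f =>
    h2.g2 t ht _ (F.reg _).2.2 fun x => (F.reg _).2.1 (Or.inl x)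
  refine (finite_iUnion fun f => (lf f).image fun c => (g₀ * c.g⁻¹, f)).subset ?_
  have key : ∀ (y : G × S.Fam t) (a : St G K), a.g = g₀ → S.Cn (S.al t) (S.rs t y) a →
      y ∈ ⋃ f, (fun c : St G K => (g₀ * c.g⁻¹, f)) '' {a' | S.Cn (S.al t) (S.rs t (1, f)) a'} := by
    rintro ⟨g, f⟩ a rfl c
    refine mem_iUnion.2 ⟨f, St.sm g⁻¹ a, ?_, by simp [St.sm]⟩
    have c' := c.sm g⁻¹
    rwa [show St.sm g⁻¹ (S.rs t (g, f)) = S.rs t (1, f) by simp [St.sm, rs]] at c'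
  rintro y ⟨a, e, c | c⟩
  · exact key y a e c
  · exact key y a.fl e c

lemma pc (h2 : S.Lvs) (ht : S.Ad t) (F : S.FamAt t) (x : K × ℝ) (y : G × S.Fam t) :
    S.pc t x y = S.cr t (S.rs t y) 1 x.1 0 x.2 := by
  refine toFs_apply ((fin_g h2 ht F 1).subset fun y hy => ?_) y
  by_contra hn
  refine hy (cr_zero _ _ _ _ _ fun z _ _ => ?_)
  by_contra hi
  exact hn ⟨_, rfl, (ne _ _).1 hi⟩

lemma bdc (h2 : S.Lvs) (ht : S.Ad t) (F : S.FamAt t) (e : B × Bool) (y : G × S.Fam t) :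
    S.bdc t e y = S.uc t (S.rs t y) 1 e 0 := by
  refine toFs_apply
    (((fin_g h2 ht F 1).union (fin_g h2 ht F (1 * (S.lab e.1)⁻¹))).subset fun y hy => ?_) y
  obtain ⟨x, d, -, -, c⟩ := uc_ne _ _ _ _ hy
  cases d
  · exact Or.inl ⟨_, rfl, c⟩
  · exact Or.inr ⟨_, rfl, c⟩

end CrsA

theorem crs (h : S.Ok) (h1 : S.Spc) (h2 : S.Lvs) (h3 : S.Cell) (h4 : S.Fm) : S.Crs := by
  intro t ht
  have C := h3 t ht ∅ finite_empty (by simp)
  have F := h4 t ht
  have N := CrsA.nf h1 h2 ht C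
  exact
    { self := CrsA.self
      fl := CrsA.fl N
      fl' := CrsA.fl' N
      cn := fun q _ _ => CrsA.cn q
      cn' := fun _ _ a => CrsA.cn' a
      ne := CrsA.ne
      node := CrsA.node C
      cr_eq := CrsA.cr_eq h ht
      cr_zero := CrsA.cr_zero
      cr_add := CrsA.cr_add h ht
      uc_eq := CrsA.uc_eq h ht
      uc_ne := CrsA.uc_ne
      cr_sm := CrsA.cr_sm
      uc_sm := CrsA.uc_sm
      th_sm := CrsA.th_sm
      cr_sh := CrsA.cr_sh h ht C N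
      th_sh := CrsA.th_sh h ht C N
      band := CrsA.band h ht C N
      link := CrsA.link h ht C N
      pc := fun x y _ => CrsA.pc h2 ht F x y
      bdc := fun e y _ => CrsA.bdc h2 ht F e y }

end Pool.Agent.MP_494aff_an.Se
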