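import Mathlib
import Pool.Agent.MP_494aff_an.se.SpecH

/-! Row FAM: families of cells. -/

set_option linter.unusedVariables false
set_option linter.unusedSectionVars false

open Set
open scoped Pointwise

namespace Pool.Agent.MP_494aff_an.Se

open Pool.Agent.MP_494aff_an.Pinch Pool.Agent.MP_494aff_an.Pinch.TowP Pool.Agent.MP_494aff_an.Lf

variable {G T K B : Type} [Group G] [MetricSpace T] [MulAction G T] [Countable G] [Fintype K]
  [Fintype B] {S : Sys G T K B} {τ s : ℝ} {t : B × Bool → ℝ} {Fr : Set (B × Bool)}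

namespace FamP

/-- The state over a point with the positive direction. -/
def st (g : G) (x : K × ℝ) : St G K := ⟨g, x.1, x.2, 1⟩

theorem eq_st {a : St G K} (h : a.σ = 1) : a = st a.g a.p := by
  ext <;> simp [st, St.p, h]

theorem cf_st {al : B → ℝ → Prop} {a : St G K} (h : a.U) : S.Cf al a (st a.g a.p) := by
  rcases h with h | h
  · rw [← eq_st h]
    exact Sys.Cf.refl a
  · have : st a.g a.p = a.fl := by ext <;> simp [st, St.p, St.fl, h]
    rw [this]
    exact Sys.cf_fl a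

theorem span_st {Y : Set (K × ℝ)} {g g' : G} {x : K × ℝ} {m M : ℝ}
    (h : S.Span t Y (st g x) m M) : S.Span t Y (st g' x) m M :=
  ⟨h.neg, h.pos, h.lo, h.hi, h.reg⟩

theorem span_fl {Y : Set (K × ℝ)} {a : St G K} {m M : ℝ} (h : S.Span t Y a m M) :
    S.Span t Y a.fl (-M) (-m) := by
  refine ⟨by linarith [h.pos], by linarith [h.neg], ?_, ?_, fun s h1 h2 => ?_⟩
  · rw [St.fl_sh, neg_neg]
    exact h.hi
  · rw [St.fl_sh, neg_neg]
    exact h.lo
  · have := h.reg (-s) (by linarith) (by linarith)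
    rw [St.fl_sh]
    exact ⟨this.1, this.2.1, this.2.2.fl⟩

theorem cls (h : S.Ok) {x y : {x // S.Mid t ∅ x}}
    (e : Relation.EqvGen (fun x y : {x // S.Mid t ∅ x} =>
      ∃ a a', a.σ = 1 ∧ S.Cn (S.al t) a a' ∧ a.p = x.1 ∧ a'.p = y.1) x y) :
    ∃ g g' : G, S.Cf (S.al t) (st g x.1) (st g' y.1) := by
  induction e with
  | rel x y e =>
    obtain ⟨a, a', h1, h2, h3, h4⟩ := e
    refine ⟨a.g, a'.g, ?_⟩
    rw [← h3, ← h4, ← eq_st h1]
    exact Sys.Cf.trans (Or.inl h2) (cf_st ((h2.U h).1 (Or.inl h1)))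
  | refl x => exact ⟨1, 1, Sys.Cf.refl _⟩
  | symm x y _ ih =>
    obtain ⟨g, g', e⟩ := ih
    exact ⟨g', g, e.symm⟩
  | trans x y z _ _ i1 i2 =>
    obtain ⟨g, g', e⟩ := i1
    obtain ⟨k, k', e'⟩ := i2
    have := e'.sm (g' * k⁻¹)
    simp only [St.sm, st, inv_mul_cancel_right] at this
    exact ⟨g, _, e.trans this⟩

theorem ex1 (h : S.Ok) {a : St G K} {w : ℝ} (ha : a.σ = 1) (hs : S.Span t ∅ a (-w) w) :
    ∃ y, S.Cf (S.al t) (S.rs t y) a := by
  rw [eq_st ha] at hs ⊢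
  have hm : S.Mid t ∅ a.p := ⟨w, span_st (g' := 1) hs⟩
  obtain ⟨g, g', e⟩ := cls h (Quot.eqvGen_exact (Quot.out_eq (Quot.mk _ ⟨a.p, hm⟩ : S.Fam t)))
  have := e.sm (a.g * g'⁻¹)
  simp only [St.sm, st, inv_mul_cancel_right] at this
  exact ⟨(a.g * g'⁻¹ * g, Quot.mk _ ⟨a.p, hm⟩), this⟩

end FamP

open FamP

theorem fm (h : S.Ok) (h1 : S.Spc) (h2 : S.Lvs) (h3 : S.Cell) : S.Fm := by
  intro t ht
  have hc := h3 t ht ∅ finite_empty (by simp)
  have hsp : ∀ y, S.Span t ∅ (S.rs t y) (-S.hw t ∅ (S.rep t y.2)) (S.hw t ∅ (S.rep t y.2)) :=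
    fun y => span_st (g := 1) (hc.hw _ (Quot.out y.2).2)
  have hr : ∀ y, S.Reg t ∅ (S.rs t y) := fun y => by
    simpa using (hsp y).reg 0 (hsp y).neg (hsp y).pos
  refine ⟨?_, hsp, hr, fun a w hs => ?_, fun y y' e => ?_⟩
  · have : Finite {x // S.Mid t ∅ x} := hc.fin.to_subtype
    exact Quot.finite _
  · have hU : a.U := (hs.reg 0 hs.neg hs.pos).2.2
    rcases hU with hU | hU
    · exact ex1 h hU hs
    · have h4 := span_fl hs
      rw [neg_neg] at h4
      obtain ⟨y, hy⟩ := ex1 h (a := a.fl) (by simp [St.fl, hU]) h4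
      exact ⟨y, hy.trans (Sys.cf_fl a).symm⟩
  · have e2 : y.2 = y'.2 := by
      rw [← Quot.out_eq y.2, ← Quot.out_eq y'.2]
      exact Quot.sound (e.elim (fun e => ⟨_, _, rfl, e, rfl, rfl⟩) fun e => ⟨_, _, rfl, e, rfl, rfl⟩)
    have hn : ¬ S.Sp (S.rs t y).p := fun e => (hr y).2.1 (Or.inl e)
    have hp : (S.rs t y').p = (S.rs t y).p := by simp only [Sys.rs, St.p, e2]
    rcases e with e | e
    · exact Prod.ext
        (congrArg St.g (h1.g1 _ _ (hr y).2.2 hn (h2.opn t ht _ _ e hn) hp)).symm e2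
    · have := congrArg St.σ (h1.g1 _ _ (hr y).2.2 hn (h2.opn t ht _ _ e hn) hp)
      simp only [St.fl, Sys.rs] at this
      norm_num at this

end Pool.Agent.MP_494aff_an.Se
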