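import Mathlib
import Pool.Agent.MP_494aff_an.se.SpecH

/-! Every end is frozen or needed. -/

set_option linter.unusedVariables false
set_option linter.unusedSectionVars false

open Set
open scoped Pointwise

namespace Pool.Agent.MP_494aff_an.Se

open Pool.Agent.MP_494aff_an.Pinch Pool.Agent.MP_494aff_an.Pinch.TowP Pool.Agent.MP_494aff_an.Lf

variable {G T K B : Type} [Group G] [MetricSpace T] [MulAction G T] [Countable G] [Fintype K]
  [Fintype B] {S : Sys G T K B} {τ s : ℝ} {t : B × Bool → ℝ} {Fr : Set (B × Bool)}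

namespace FrzP

open Sys

lemma reg_of (h : S.Ok) (hτ : S.Sm τ) {e : B × Bool} (he : S.En e) {ρ : ℝ} (h0 : 0 < ρ)
    (h1 : ρ ≤ τ) (hn : (S.up 1 e ρ).p ∉ {x | S.Nd t ∅ x ∧ ¬ S.Sp x}) : S.Reg t ∅ (S.up 1 e ρ) :=
  ⟨(val_en h hτ he.1 1 h0.le h1 false).1, fun k => hn ⟨k, (hτ.en e he ρ h0 h1 false).1⟩,
    up_U 1 e ρ⟩

lemma exists_reg (h : S.Ok) (h2 : S.Lvs) (hτ : S.Sm τ) (ht : S.Adm τ t) {e : B × Bool}
    (he : S.En e) {ρ c : ℝ} (h0 : 0 < ρ) (h1 : ρ < c) (hc : c ≤ τ) :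
    ∃ ρ', ρ < ρ' ∧ ρ' < c ∧ S.Reg t ∅ (S.up 1 e ρ') := by
  have hi : Function.Injective fun r => (S.up 1 e r).p := fun r r' k => by
    have := congrArg Prod.snd k
    rcases e with ⟨b, _ | _⟩ <;> simpa [Sys.up, St.p] using this
  obtain ⟨r, k1, k2⟩ := (Ioo_infinite h1).exists_notMem_finite
    ((h2.nd t ⟨τ, hτ, ht⟩ ∅ finite_empty).preimage hi.injOn)
  exact ⟨r, k1.1, k1.2, reg_of h hτ he (h0.trans k1.1) (k1.2.le.trans hc) k2⟩

open Classical in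
lemma adF_up (hτ : S.Sm τ) {e : B × Bool} (he : S.En e) (ht : S.AdF τ Fr t) :
    S.AdF τ (insert e Fr) (Function.update t e τ) := by
  refine ⟨fun e' => ?_, fun e' he' => ?_⟩
  · by_cases k : e' = e
    · subst k
      rw [Function.update_self]
      exact ⟨fun _ => ⟨hτ.pos, le_rfl⟩, fun k => absurd he k⟩
    · rw [Function.update_of_ne k]
      exact ht.1 e'
  · by_cases k : e' = e
    · rw [k, Function.update_self]
    · rw [Function.update_of_ne k]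
      exact ht.2 e' (he'.resolve_left k)

lemma adF_min {u : B × Bool → ℝ} (ht : S.AdF τ Fr t) (hu : S.AdF τ Fr u) :
    S.AdF τ Fr fun e => min (t e) (u e) :=
  ⟨fun e => ⟨fun he => ⟨lt_min ((ht.1 e).1 he).1 ((hu.1 e).1 he).1,
    (min_le_left _ _).trans ((ht.1 e).1 he).2⟩,
    fun he => by simp only [(ht.1 e).2 he, (hu.1 e).2 he, min_self]⟩,
    fun e he => by simp only [ht.2 e he, hu.2 e he, min_self]⟩

open Classical in
lemma height {e : B × Bool} {a : St G K} {b : B} (hU : a.U) (hk : a.k = S.src b)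
    (h1 : S.al t b a.r) (h2 : ¬ S.al (Function.update t e τ) b a.r) :
    b = e.1 ∧ ∃ r, t e ≤ r ∧ r < τ ∧ (a = S.up a.g e r ∨ a = (S.up a.g e r).fl) := by
  have key : ∀ r, b = e.1 → a.r = (S.up a.g e r).r →
      a = S.up a.g e r ∨ a = (S.up a.g e r).fl := by
    rintro r rfl k
    rcases up_U (S := S) a.g e r with m | m <;> rcases hU with n | n
    · exact Or.inl (St.ext rfl hk k (n.trans m.symm))
    · exact Or.inr (St.ext rfl hk k (by rw [n, St.fl, m]))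
    · exact Or.inr (St.ext rfl hk k (by rw [n, St.fl, m, neg_neg]))
    · exact Or.inl (St.ext rfl hk k (n.trans m.symm))
  by_cases k1 : (b, false) = e
  · subst k1
    have k2 : (b, true) ≠ (b, false) := by simp
    simp only [Sys.al, Function.update_self, Function.update_of_ne k2] at h2
    have k3 : a.r < S.lo b + τ := not_le.1 fun k => h2 ⟨h1.1, k, h1.2.2⟩
    exact ⟨rfl, a.r - S.lo b, by linarith [h1.2.1], by linarith, key _ rfl (by simp [Sys.up])⟩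
  by_cases k2 : (b, true) = e
  · subst k2
    simp only [Sys.al, Function.update_self, Function.update_of_ne k1] at h2
    have k3 : S.hi b - τ < a.r := not_le.1 fun k => h2 ⟨h1.1, h1.2.1, k⟩
    exact ⟨rfl, S.hi b - a.r, by linarith [h1.2.2], by linarith, key _ rfl (by simp [Sys.up])⟩
  simp only [Sys.al, Function.update_of_ne k1, Function.update_of_ne k2] at h2
  exact absurd h1 h2

variable (S τ) in
/-- The ends of `Fr` can be frozen. -/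
def Iv (Fr : Set (B × Bool)) : Prop :=
  (∀ e ∈ Fr, S.En e) ∧ ∃ Bad : Set T, Bad.Countable ∧ (∀ (g : G), ∀ z ∈ Bad, g • z ∈ Bad) ∧
    ∀ e ∈ Fr, ∀ ρ, 0 < ρ → ρ < τ → S.pt (S.up 1 e ρ) ∉ Bad → ∃ u, S.AdF τ Fr u ∧ S.Tw u e ρ

lemma step (h : S.Ok) (h2 : S.Lvs) (hτ : S.Sm τ) (hV : S.Conv τ) (hL : S.Lift τ)
    (hI : Iv S τ Fr) {e : B × Bool} (he : S.En e)
    (hs : ∀ s, 0 < s → ∃ t ρ, S.AdF τ Fr t ∧ 0 < ρ ∧ ρ < s ∧ ρ < t e ∧ S.Tw t e ρ) :
    Iv S τ (insert e Fr) := by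
  classical
  obtain ⟨i1, Bad, i2, i3, i4⟩ := hI
  have h3 : ∀ n : ℕ, ∃ t ρ, S.AdF τ (insert e Fr) t ∧ 0 < ρ ∧ ρ < 1 / (n + 1 : ℝ) ∧ S.Tw t e ρ := by
    intro n
    obtain ⟨t, ρ, k1, k2, k3, k4, k5⟩ := hs _ (Nat.one_div_pos_of_nat (n := n))
    obtain ⟨r, m1, m2, m3⟩ := exists_reg h h2 hτ k1.1 he k2 (lt_min k3 k4)
      ((min_le_right _ _).trans ((k1.1 e).1 he).2)
    have m4 := m2.trans_le (min_le_right _ _)
    exact ⟨_, r, adF_up hτ he k1, k2.trans m1, m2.trans_le (min_le_left _ _),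
      hL t _ e r k1.1 he (Function.update_self _ _ _) (fun e' k => Function.update_of_ne k _ _)
        (k2.trans m1) m4 m3 (hV t k1.1 e ρ r he k2 m1 m4 k5 m3)⟩
  choose t ρ k1 k2 k3 k4 using h3
  let Bad' : Set T := Bad ∪ ⋃ n, ⋃ g : G,
    (fun x : K × ℝ => g • S.ι x.1 x.2) '' {x | S.Nd (t n) ∅ x ∧ ¬ S.Sp x}
  have b1 : ∀ (g : G), ∀ z ∈ Bad', g • z ∈ Bad' := by
    rintro g z (hz | hz)
    · exact Or.inl (i3 g z hz)
    · obtain ⟨n, hz⟩ := mem_iUnion.1 hz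
      obtain ⟨g', x, hx, rfl⟩ := mem_iUnion.1 hz
      exact Or.inr (mem_iUnion.2 ⟨n, mem_iUnion.2 ⟨g * g', x, hx, mul_smul _ _ _⟩⟩)
  have hA : ∀ r, 0 < r → r < τ → S.pt (S.up 1 e r) ∉ Bad' →
      ∃ u, S.AdF τ (insert e Fr) u ∧ S.Tw u e r := by
    intro r m1 m2 m3
    obtain ⟨n, hn⟩ := exists_nat_one_div_lt m1
    refine ⟨t n, k1 n, hV _ (k1 n).1 e (ρ n) r he (k2 n) ((k3 n).trans hn)
      (by rwa [(k1 n).2 e (Or.inl rfl)]) (k4 n) (reg_of h hτ he m1 m2.le fun k => m3 ?_)⟩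
    exact Or.inr (mem_iUnion.2 ⟨n, mem_iUnion.2 ⟨1, _, k, rfl⟩⟩)
  refine ⟨fun e' he' => he'.elim (fun k => k ▸ he) (i1 e'), Bad',
    i2.union (countable_iUnion fun n => countable_iUnion fun g =>
      ((h2.nd _ ⟨τ, hτ, (k1 n).1⟩ ∅ finite_empty).image _).countable), b1, ?_⟩
  rintro e' (rfl | he') r m1 m2 m3
  · exact hA r m1 m2 m3
  obtain ⟨u, u1, u2⟩ := i4 e' he' r m1 m2 fun k => m3 (Or.inl k)
  have u3 := adF_up hτ he u1
  refine Cn.ind' (R := fun x y => ∃ u', S.AdF τ (insert e Fr) u' ∧ S.Cn (S.al u') x y)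
    ⟨fun x => ⟨_, u3, Cn.refl x⟩, fun ⟨v, p, q⟩ => ⟨v, p, q.symm⟩,
      fun ⟨v, p, q⟩ ⟨v', p', q'⟩ => ⟨_, adF_min p p',
        (q.mono (al_mono fun _ => min_le_left _ _)).trans
          (q'.mono (al_mono fun _ => min_le_right _ _))⟩⟩ (fun a b ha n1 n2 => ?_) (Cn.refl _) u2
  by_cases n3 : S.al (Function.update u e τ) b a.r
  · exact ⟨_, u3, Cn.move n1 n3⟩
  obtain ⟨rfl, r', n4, n5, n6⟩ := height ((Cn.U h ha).1 (up_U _ _ _)) n1 n2 n3
  have n7 : S.pt (S.up 1 e' r) = S.pt a := Cn.pt h (fun b r => al_base ⟨τ, hτ, u1.1⟩) ha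
  have n8 : S.pt a = a.g • S.pt (S.up 1 e r') := by
    rw [← pt_sm, up_sm, mul_one]
    rcases n6 with k | k
    · exact congrArg S.pt k
    · exact (congrArg S.pt k).trans (pt_fl _)
  obtain ⟨v, v1, v2⟩ := hA r' (((u1.1 e).1 he).1.trans_le n4) n5 fun k =>
    m3 (by rw [n7, n8]; exact b1 _ _ k)
  have v3 : S.Cn (S.al v) (S.up a.g e r') (S.im e.1 (S.up a.g e r')) := by
    have := Cn.sm a.g v2
    rwa [en_sm, en_sm, mul_one] at this
  refine ⟨v, v1, ?_⟩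
  rcases n6 with k | k
  · rw [k]
    exact v3
  · rw [k, ← im_fl]
    exact v3.fl

end FrzP

theorem freeze (h : S.Ok) (h2 : S.Lvs) (hτ : S.Sm τ) (hV : S.Conv τ) (hL : S.Lift τ) :
    ∃ Fr s, S.Frz τ Fr s := by
  obtain ⟨Fr, k1, k2⟩ := Set.exists_max_image {Fr | FrzP.Iv S τ Fr} Set.ncard (toFinite _)
    ⟨∅, fun _ h => h.elim, ∅, countable_empty, fun _ _ h => h, fun _ h => h.elim⟩
  have k3 : ∀ e, ∃ s, 0 < s ∧ (S.En e → e ∉ Fr → ∀ t, S.AdF τ Fr t → ∀ ρ, 0 < ρ → ρ < s →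
      ρ < t e → ¬ S.Tw t e ρ) := by
    intro e
    by_contra hc
    push Not at hc
    obtain ⟨he, he', -⟩ := hc 1 one_pos
    have := k2 _ (FrzP.step h h2 hτ hV hL k1 he fun s hs => by
      obtain ⟨-, -, t, m1, ρ, m2⟩ := hc s hs
      exact ⟨t, ρ, m1, m2⟩)
    rw [ncard_insert_of_notMem he'] at this
    omega
  choose f f1 f2 using k3
  obtain ⟨s, hs, hs'⟩ := (Filter.Eventually.and (self_mem_nhdsWithin (a := (0 : ℝ)) (s := Ioi 0))
    (Filter.eventually_all.2 fun e => Ioo_mem_nhdsGT (f1 e))).exists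
  obtain ⟨m1, Bad, m2, -, m3⟩ := k1
  exact ⟨Fr, s, hs, m1, fun e he he' t ht ρ p q => f2 e he he' t ht ρ p (q.trans (hs' e).2),
    Bad, m2, m3⟩

end Pool.Agent.MP_494aff_an.Se
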