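import Mathlib
import Pool.Agent.MP_494aff_an.se.SpecA

/-! Row GAP: the coboundary is onto, and chains killed by all cocycles are boundaries. -/

open Finsupp
open scoped InnerProductSpace ComplexConjugate Classical

namespace Pool.Agent.MP_494aff_an.Se

open Pool.Agent.MP_494aff_an.Pinch Pool.Agent.MP_494aff_an.Pinch.TowP Pool.Agent.MP_494aff_an.Lf

noncomputable section

namespace GapP

variable {G X : Type} [Group G] [Fintype X]

/-- The Hilbert sum. -/
abbrev L2 (G X : Type) : Type := PiLp 2 fun _ : X => H G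

/-- The unit vectors. -/
def bs (p : G × X) : L2 G X := PiLp.single 2 p.2 (dl p.1⁻¹)

theorem inner_bs (p : G × X) (η : L2 G X) : ⟪bs p, η⟫_ℂ = η p.2 p.1⁻¹ := by
  rw [PiLp.inner_apply, Finset.sum_eq_single p.2]
  · rw [bs, PiLp.single_eq_same, inner_dl]
  · intro x _ hx
    rw [bs, PiLp.single_eq_of_ne 2 hx, inner_zero_left]
  · simp

theorem on_bs : Orthonormal ℂ (bs : G × X → L2 G X) := by
  rw [orthonormal_iff_ite]
  rintro ⟨g, x⟩ ⟨g', x'⟩
  rw [inner_bs, bs]
  by_cases h : x = x'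
  · subst h
    rw [PiLp.single_eq_same, dl_apply]
    simp
  · rw [PiLp.single_eq_of_ne 2 h, if_neg fun e => h (congrArg Prod.snd e)]
    rfl

theorem ext_bs {η η' : L2 G X} (h : ∀ p, ⟪bs p, η⟫_ℂ = ⟪bs p, η'⟫_ℂ) : η = η' := by
  ext x g
  simpa [inner_bs] using h (g⁻¹, x)

theorem norm_lc (η : G × X →₀ ℂ) :
    ‖linearCombination ℂ bs η‖ ^ 2 = ∑ x ∈ η.support, ‖η x‖ ^ 2 := by
  have h := on_bs.inner_finsupp_eq_sum_left η η
  rw [inner_self_eq_norm_sq_to_K, Finsupp.sum] at h
  simp only [Complex.conj_mul'] at h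
  refine Complex.ofReal_injective ?_
  push_cast
  exact h

theorem dense_lc : Dense (Set.range (linearCombination ℂ (bs : G × X → L2 G X))) := by
  rw [← LinearMap.coe_range, Submodule.dense_iff_topologicalClosure_eq_top,
    Submodule.topologicalClosure_eq_top_iff, eq_bot_iff]
  intro η hη
  refine ext_bs fun p => ?_
  rw [inner_zero_right]
  exact hη _ ⟨single p 1, by simp⟩

omit [Fintype X] in
theorem ev_apply (ξ : X → H G) (ζ : G × X →₀ ℂ) :
    ev ξ ζ = ∑ x ∈ ζ.support, ζ x • lam x.1 (ξ x.2) := rfl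

theorem ev_one (ξ : L2 G X) (ζ : G × X →₀ ℂ) :
    ⟪linearCombination ℂ bs (ζ.mapRange conj (map_zero _)), ξ⟫_ℂ = ev ξ ζ 1 := by
  rw [← inner_dl, ev_apply, inner_sum, linearCombination_apply, sum_mapRange_index (by simp),
    Finsupp.sum, sum_inner]
  refine Finset.sum_congr rfl fun x _ => ?_
  rw [inner_smul_left, inner_smul_right, inner_bs, inner_dl, lam_coef, mul_one, Complex.conj_conj]

variable {Vx E Fc : Type} [MulAction G Vx] [Fintype E] [Fintype Fc] (K : Cx G Vx E Fc)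

/-- The coboundary. -/
def del : L2 G E →L[ℂ] L2 G Fc :=
  (toL2 G Fc : (Fc → H G) →L[ℂ] L2 G Fc) ∘L ContinuousLinearMap.pi fun f =>
    ∑ x ∈ (K.bd f).support, K.bd f x • (lam x.1 ∘L PiLp.proj 2 (fun _ : E => H G) x.2)

omit [MulAction G Vx] in
theorem del_apply (ξ : L2 G E) (f : Fc) : del K ξ f = ev ξ (K.bd f) := by
  rw [ev_apply]
  simp [del, toL2]

omit [Group G] [MulAction G Vx] [Fintype E] [Fintype Fc] in
theorem conj_bd (h : K.Pm) (f : Fc) (x : G × E) : conj (K.bd f x) = K.bd f x := by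
  rcases h f x with e | e | e <;> simp [e]

theorem adj_coef (h : K.Pm) (η : L2 G Fc) (y : G × E) :
    ⟪bs y, (del K).adjoint η⟫_ℂ = K.D2 (fun p => ⟪bs p, η⟫_ℂ) y := by
  rw [ContinuousLinearMap.adjoint_inner_right, PiLp.inner_apply, Cx.D2]
  refine Finset.sum_congr rfl fun f _ => ?_
  rw [del_apply, ev_apply, sum_inner, Finsupp.sum]
  refine Finset.sum_congr rfl fun x _ => ?_
  rw [inner_smul_left, conj_bd K h, inner_bs]
  split_ifs with e
  · rw [e, bs, PiLp.single_eq_same, lam_dl, inner_dl]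
    simp
  · rw [bs, PiLp.single_eq_of_ne 2 e]
    simp

omit [Fintype E] in
theorem d2_eq (η : G × Fc →₀ ℂ) (y : G × E) : K.d2 η y = K.D2 η y := by
  induction η using Finsupp.induction_linear with
  | zero => simp [Cx.D2]
  | add a b ha hb =>
    rw [map_add, Finsupp.add_apply, ha, hb, Cx.D2, Cx.D2, Cx.D2, ← Finset.sum_add_distrib]
    refine Finset.sum_congr rfl fun f _ => ?_
    rw [← Finsupp.sum_add]
    refine Finsupp.sum_congr fun x _ => ?_
    split_ifs <;> simp [mul_add]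
  | single p a =>
    rw [Cx.d2, linearCombination_single, Cx.D2, Finset.sum_eq_single p.2]
    · rw [sh, lmapDomain_apply, mapDomain, Finsupp.smul_apply, Finsupp.sum_apply, smul_eq_mul,
        Finsupp.mul_sum]
      refine Finsupp.sum_congr fun x _ => ?_
      obtain ⟨g, e⟩ := y
      obtain ⟨g', f⟩ := p
      by_cases h1 : x.2 = e
      · by_cases h2 : g' * x.1 = g
        · simp [← h1, ← h2, mul_comm]
        · have h3 : g' ≠ g * x.1⁻¹ := fun h => h2 (by simp [h])
          simp [h1, h2, h3]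
      · simp [h1]
    · intro f _ hf
      refine Finset.sum_eq_zero fun x _ => ?_
      have : single p a (y.1 * x.1⁻¹, f) = 0 := single_eq_of_ne fun e => hf (congrArg Prod.snd e)
      simp [this]
    · simp

omit [Fintype E] in
theorem D2_conj (h : K.Pm) (η : G × Fc → ℂ) (y : G × E) :
    K.D2 (fun p => conj (η p)) y = conj (K.D2 η y) := by
  rw [Cx.D2, Cx.D2, map_sum]
  refine Finset.sum_congr rfl fun f _ => ?_
  rw [Finsupp.sum, Finsupp.sum, map_sum]
  refine Finset.sum_congr rfl fun x _ => ?_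
  split_ifs
  · rw [map_mul, conj_bd K h]
  · simp

theorem adj_lc (h : K.Pm) (η : G × Fc →₀ ℂ) :
    (del K).adjoint (linearCombination ℂ bs η) = linearCombination ℂ bs (K.d2 η) :=
  ext_bs fun y => by
    rw [adj_coef K h, on_bs.inner_right_finsupp, d2_eq]
    simp only [on_bs.inner_right_finsupp]

theorem unit (hA : GapAStmt) (h : K.Ok) (hG : CT G) : IsUnit (del K ∘L (del K).adjoint) := by
  obtain ⟨C, hC⟩ := hA G Vx E Fc K h hG
  have h1 : ∀ η, ‖η‖ ^ 2 ≤ (|C| + 1) * ‖(del K).adjoint η‖ ^ 2 := fun η => by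
    refine dense_lc.induction (P := fun η => ‖η‖ ^ 2 ≤ (|C| + 1) * ‖(del K).adjoint η‖ ^ 2) ?_
      (isClosed_le (by fun_prop) (by fun_prop)) η
    rintro _ ⟨η, rfl⟩
    rw [adj_lc K h.pm, norm_lc, norm_lc]
    exact (hC η).trans (mul_le_mul_of_nonneg_right (by linarith [le_abs_self C])
      (Finset.sum_nonneg fun _ _ => sq_nonneg _))
  refine ContinuousLinearMap.isUnit_of_forall_le_norm_inner_map _
    (c := ⟨(|C| + 1)⁻¹, by positivity⟩) (by change (0 : ℝ) < (|C| + 1)⁻¹; positivity) fun η => ?_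
  rw [ContinuousLinearMap.comp_apply, ← ContinuousLinearMap.adjoint_inner_right,
    inner_self_eq_norm_sq_to_K]
  change _ * (|C| + 1)⁻¹ ≤ _
  rw [mul_inv_le_iff₀ (by positivity), mul_comm]
  simpa using h1 η

end GapP

open GapP in
theorem gap (hA : GapAStmt) (hF : GapFStmt) : GapStmt := by
  intro G Vx E Fc _ _ _ _ K h hG
  have hs : ∀ v, ∃ η, del K ((del K).adjoint η) = v :=
    (ContinuousLinearMap.isUnit_iff_bijective.1 (unit K hA h hG)).2
  refine ⟨fun v => ?_, fun ζ hζ => ?_⟩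
  · obtain ⟨η, hη⟩ := hs (WithLp.toLp 2 v)
    exact ⟨((del K).adjoint η).ofLp, funext fun f => (del_apply K _ f).symm.trans (by rw [hη])⟩
  obtain ⟨v, hv⟩ : ∃ v, v = linearCombination ℂ bs (ζ.mapRange conj (map_zero _)) := ⟨_, rfl⟩
  obtain ⟨η, hη⟩ := hs (del K v)
  have h1 : del K (v - (del K).adjoint η) = 0 := by rw [map_sub, hη, sub_self]
  have h2 : v = (del K).adjoint η := by
    refine sub_eq_zero.1 (inner_self_eq_zero (𝕜 := ℂ).1 ?_)
    rw [inner_sub_left, ContinuousLinearMap.adjoint_inner_left, h1, inner_zero_right, sub_zero]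
    nth_rw 1 [hv]
    rw [ev_one, hζ _ fun f => by rw [← del_apply, h1]; rfl]
    rfl
  have h3 : ∀ y, K.D2 (fun p => conj ⟪bs p, η⟫_ℂ) y = ζ y := fun y => by
    rw [D2_conj K h.pm, ← adj_coef K h.pm, ← h2, hv, on_bs.inner_right_finsupp, mapRange_apply,
      Complex.conj_conj]
  have h4 := hF G Vx E Fc K h hG (fun p => conj ⟪bs p, η⟫_ℂ)
    (by simpa only [Complex.norm_conj] using on_bs.inner_products_summable η)
    (by rw [funext h3]; exact ζ.hasFiniteSupport)
  refine ⟨ofSupportFinite _ h4, Finsupp.ext fun y => ?_⟩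
  rw [d2_eq, ← h3]
  rfl

end

end Pool.Agent.MP_494aff_an.Se
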