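import Mathlib
import Pool.Agent.MP_494aff_an.se.SpecA

/-! The boundary map on finite chains is bounded below. -/

open Finsupp

namespace Pool.Agent.MP_494aff_an.Se

open Pool.Agent.MP_494aff_an.Pinch Pool.Agent.MP_494aff_an.Pinch.TowP Pool.Agent.MP_494aff_an.Lf

noncomputable section

namespace GapA

section Vec

variable {X Y : Type}

/-- A finite chain as a square summable function. -/
def toH : (X →₀ ℂ) →ₗ[ℂ] H X := linearCombination ℂ dl

lemma toH_single (x : X) (c : ℂ) : toH (single x c) = c • dl x := by simp [toH]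

lemma toH_coef (a : X →₀ ℂ) (x : X) : toH a x = a x := by
  classical
  induction a using Finsupp.induction_linear with
  | zero => simp
  | add a b ha hb => rw [map_add, lp.coeFn_add, Pi.add_apply, ha, hb, Finsupp.add_apply]
  | single y c =>
    rw [toH_single, lp.coeFn_smul, Pi.smul_apply, dl_apply, Finsupp.single_apply]
    by_cases h : x = y
    · simp [h]
    · simp [h, Ne.symm h]

lemma hasSum_sq (ξ : H X) : HasSum (fun x => ‖ξ x‖ ^ 2) (‖ξ‖ ^ 2) := by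
  have := lp.hasSum_norm (p := 2) (by norm_num) ξ
  simpa using this

lemma norm_toH (a : X →₀ ℂ) : ‖toH a‖ ^ 2 = ∑ x ∈ a.support, ‖a x‖ ^ 2 := by
  have h := hasSum_sq (toH a)
  simp only [toH_coef] at h
  exact h.unique (hasSum_sum_of_ne_finset_zero fun x hx => by
    rw [Finsupp.notMem_support_iff.1 hx]; simp)

lemma norm_le_of (ξ : H X) (ζ : H Y) (φ : X → Y) (hφ : Function.Injective φ)
    (h : ∀ x, ‖ξ x‖ ≤ ‖ζ (φ x)‖) : ‖ξ‖ ≤ ‖ζ‖ := by
  have h1 := hasSum_sq ξ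
  have h2 := hasSum_sq ζ
  have h3 : ‖ξ‖ ^ 2 ≤ ‖ζ‖ ^ 2 := by
    rw [← h1.tsum_eq, ← h2.tsum_eq]
    exact h1.summable.tsum_le_tsum_of_inj φ hφ (fun _ _ => by positivity)
      (fun x => pow_le_pow_left₀ (norm_nonneg _) (h x) 2) h2.summable
  exact (pow_le_pow_iff_left₀ (norm_nonneg _) (norm_nonneg _) two_ne_zero).1 h3

lemma toH_map (φ : X → Y) (hφ : Function.Injective φ) (a : X →₀ ℂ) :
    toH (mapDomain φ a) = emb φ hφ (toH a) := by
  induction a using Finsupp.induction_linear with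
  | zero => simp
  | add a b ha hb => rw [mapDomain_add, map_add, map_add, map_add, ha, hb]
  | single y c => rw [mapDomain_single, toH_single, toH_single, map_smul, emb_dl]

lemma norm_map (φ : X → Y) (hφ : Function.Injective φ) (a : X →₀ ℂ) :
    ‖toH (mapDomain φ a)‖ = ‖toH a‖ := by rw [toH_map φ hφ, emb_norm]

end Vec

section Kesten

variable {G : Type} [Group G]

lemma lam_mul_sub (g h : G) (ξ : H G) :
    ‖lam (g * h) ξ - ξ‖ ≤ ‖lam g ξ - ξ‖ + ‖lam h ξ - ξ‖ := by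
  have : lam (g * h) ξ - ξ = (lam g ξ - ξ) + lam g (lam h ξ - ξ) := by
    rw [map_mul, mul_ap, map_sub]; abel
  rw [this]
  exact (norm_add_le _ _).trans (by rw [lam_norm])

lemma lam_pow_sub (g : G) (ξ : H G) (n : ℕ) : ‖lam (g ^ n) ξ - ξ‖ ≤ n * ‖lam g ξ - ξ‖ := by
  induction n with
  | zero => simp
  | succ n ih =>
    rw [pow_succ]
    refine (lam_mul_sub _ _ ξ).trans ?_
    push_cast
    linarith

lemma kesten (hA : AvgStmt) (hG : CT G) {u v : G} (h : u * v ≠ v * u) (ξ : H G) :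
    ‖ξ‖ ≤ 50 * (‖lam u ξ - ξ‖ + ‖lam v ξ - ξ‖) := by
  have h1 := hA G u v (hG.fr u v h) 5
  set T : Op G := ∑ k ∈ Finset.range 5, lam (u ^ (k + 1) * v ^ (k + 1)) with hT
  have h5 : √((5 : ℕ) : ℝ) ≤ 9 / 4 := by
    rw [Real.sqrt_le_iff]; norm_num
  have h2 : ‖T ξ‖ ≤ 9 / 2 * ‖ξ‖ :=
    (T.le_opNorm ξ).trans (mul_le_mul_of_nonneg_right
      (h1.trans ((mul_le_mul_of_nonneg_left h5 (by norm_num)).trans (by norm_num)))
      (norm_nonneg _))
  have h3 : T ξ - (5 : ℝ) • ξ =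
      ∑ k ∈ Finset.range 5, (lam (u ^ (k + 1) * v ^ (k + 1)) ξ - ξ) := by
    rw [Finset.sum_sub_distrib, hT, _root_.sum_apply, Finset.sum_const,
      Finset.card_range, ← Nat.cast_smul_eq_nsmul ℝ]
    norm_num
  have hu := norm_nonneg (lam u ξ - ξ)
  have hv := norm_nonneg (lam v ξ - ξ)
  have h4 : ‖T ξ - (5 : ℝ) • ξ‖ ≤ 25 * (‖lam u ξ - ξ‖ + ‖lam v ξ - ξ‖) := by
    rw [h3]
    refine (norm_sum_le _ _).trans ?_
    refine (Finset.sum_le_card_nsmul _ _ (5 * (‖lam u ξ - ξ‖ + ‖lam v ξ - ξ‖)) ?_).trans ?_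
    · intro k hk
      have hk' : ((k + 1 : ℕ) : ℝ) ≤ 5 := by
        have := Finset.mem_range.1 hk
        exact_mod_cast this
      have a1 := lam_mul_sub (u ^ (k + 1)) (v ^ (k + 1)) ξ
      have a2 := lam_pow_sub u ξ (k + 1)
      have a3 := lam_pow_sub v ξ (k + 1)
      nlinarith
    · rw [Finset.card_range, nsmul_eq_mul]; push_cast; linarith
  have h6 : ‖(5 : ℝ) • ξ‖ = 5 * ‖ξ‖ := by rw [norm_smul]; norm_num
  have h7 : ‖(5 : ℝ) • ξ‖ ≤ ‖T ξ‖ + ‖T ξ - (5 : ℝ) • ξ‖ := by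
    have := norm_sub_le (T ξ) (T ξ - (5 : ℝ) • ξ)
    rwa [sub_sub_cancel] at this
  linarith

end Kesten

section Cpx

variable {G Vx E Fc : Type} [Group G] (K : Cx G Vx E Fc)

lemma sh_inj {X : Type} (g : G) : Function.Injective fun x : G × X => (g * x.1, x.2) := by
  rintro ⟨a, b⟩ ⟨c, d⟩ h
  simp only [Prod.mk.injEq, mul_right_inj] at h
  exact Prod.ext h.1 h.2

lemma sh_coef {X : Type} (g : G) (ζ : G × X →₀ ℂ) (z : G × X) :
    sh g ζ z = ζ (g⁻¹ * z.1, z.2) := by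
  have := Finsupp.mapDomain_apply (sh_inj (X := X) g) ζ (g⁻¹ * z.1, z.2)
  simp only [mul_inv_cancel_left] at this
  exact this

/-- The chain lies on faces with type in `F`. -/
def On (F : Finset Fc) (η : G × Fc →₀ ℂ) : Prop := ∀ x : G × Fc, x.2 ∉ F → η x = 0

lemma d2_coef {F : Finset Fc} {η : G × Fc →₀ ℂ} (hη : On F η) (z : G × E) (S : Finset (G × Fc))
    (hS : ∀ w : G × Fc, w.2 ∈ F → sh w.1 (K.bd w.2) z ≠ 0 → w ∈ S) :
    K.d2 η z = ∑ w ∈ S, η w * sh w.1 (K.bd w.2) z := by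
  classical
  have h1 : K.d2 η z = ∑ w ∈ η.support, η w * sh w.1 (K.bd w.2) z := by
    simp [Cx.d2, linearCombination_apply, Finsupp.sum, Finset.sum_apply']
  rw [h1, Finset.sum_subset (Finset.subset_union_left (s₂ := S)),
    Finset.sum_subset (Finset.subset_union_right (s₁ := η.support) (s₂ := S))]
  · intro w _ hw
    by_cases h2 : w.2 ∈ F
    · by_cases h3 : sh w.1 (K.bd w.2) z = 0
      · rw [h3, mul_zero]
      · exact (hw (hS w h2 h3)).elim
    · rw [hη w h2, zero_mul]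
  · intro w _ hw
    rw [Finsupp.notMem_support_iff.1 hw, zero_mul]

lemma exists_occ (F : Finset Fc) (z : G × E) : ∃ S : Finset (G × Fc), S.card ≤ K.mult F z.2 ∧
    ∀ w : G × Fc, w.2 ∈ F → sh w.1 (K.bd w.2) z ≠ 0 → w ∈ S := by
  classical
  refine ⟨F.biUnion fun f => ((K.bd f).support.filter fun x => x.2 = z.2).image
    fun y => (z.1 * y.1⁻¹, f), ?_, ?_⟩
  · refine Finset.card_biUnion_le.trans ?_
    unfold Cx.mult
    refine Finset.sum_le_sum fun f _ => Finset.card_image_le.trans (le_of_eq ?_)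
    congr
  · intro w h1 h2
    rw [sh_coef] at h2
    refine Finset.mem_biUnion.2 ⟨w.2, h1, Finset.mem_image.2 ⟨(w.1⁻¹ * z.1, z.2), ?_, ?_⟩⟩
    · exact Finset.mem_filter.2 ⟨Finsupp.mem_support_iff.2 h2, rfl⟩
    · simp

lemma norm_pm (hp : K.Pm) {w : G × Fc} {z : G × E} (h : sh w.1 (K.bd w.2) z ≠ 0) :
    ‖sh w.1 (K.bd w.2) z‖ = 1 := by
  rw [sh_coef] at h ⊢
  rcases hp w.2 (w.1⁻¹ * z.1, z.2) with h1 | h1 | h1
  · exact (h h1).elim
  · rw [h1, norm_one]
  · rw [h1, norm_neg, norm_one]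

lemma one_face (hp : K.Pm) {F : Finset Fc} {η : G × Fc →₀ ℂ} (hη : On F η) {z : G × E}
    (hm : K.mult F z.2 = 1) {w : G × Fc} (h1 : w.2 ∈ F) (h2 : sh w.1 (K.bd w.2) z ≠ 0) :
    ‖η w‖ = ‖K.d2 η z‖ := by
  obtain ⟨S, hS, hS'⟩ := exists_occ K F z
  rw [d2_coef K hη z {w}, Finset.sum_singleton, norm_mul, norm_pm K hp h2, mul_one]
  intro w' h3 h4
  rw [Finset.mem_singleton]
  exact Finset.card_le_one.1 (hS.trans hm.le) _ (hS' w' h3 h4) _ (hS' w h1 h2)

lemma two_face (hp : K.Pm) {F : Finset Fc} {η : G × Fc →₀ ℂ} (hη : On F η) {z : G × E}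
    (hm : K.mult F z.2 ≤ 2) {w w' : G × Fc} (h1 : w.2 ∈ F) (h2 : sh w.1 (K.bd w.2) z ≠ 0)
    (h1' : w'.2 ∈ F) (h2' : sh w'.1 (K.bd w'.2) z ≠ 0) :
    |‖η w‖ - ‖η w'‖| ≤ ‖K.d2 η z‖ := by
  classical
  by_cases hw : w = w'
  · rw [hw, sub_self, abs_zero]; exact norm_nonneg _
  obtain ⟨S, hS, hS'⟩ := exists_occ K F z
  have hsub : ({w, w'} : Finset (G × Fc)) = S := by
    refine Finset.eq_of_subset_of_card_le ?_ ?_
    · intro x hx
      rcases Finset.mem_insert.1 hx with rfl | hx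
      · exact hS' _ h1 h2
      · rw [Finset.mem_singleton.1 hx]; exact hS' _ h1' h2'
    · rw [Finset.card_pair hw]; exact hS.trans hm
  rw [d2_coef K hη z {w, w'} (by rw [hsub]; exact hS'), Finset.sum_pair hw]
  have := abs_norm_sub_norm_le (η w * sh w.1 (K.bd w.2) z) (-(η w' * sh w'.1 (K.bd w'.2) z))
  rwa [norm_neg, norm_mul, norm_mul, norm_pm K hp h2, norm_pm K hp h2', mul_one, mul_one,
    sub_neg_eq_add] at this

omit [Group G] in
lemma pair_inj (f : Fc) : Function.Injective fun g : G => (g, f) :=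
  fun _ _ h => (Prod.mk.inj h).1

/-- The part of a chain on one type of faces. -/
def sl (f : Fc) (η : G × Fc →₀ ℂ) : G →₀ ℂ :=
  comapDomain (fun g => (g, f)) η (pair_inj f).injOn

omit [Group G] in
lemma sl_coef (f : Fc) (η : G × Fc →₀ ℂ) (g : G) : sl f η g = η (g, f) := rfl

/-- The part of a chain on one type of faces, as a chain. -/
def up (f : Fc) (a : G →₀ ℂ) : G × Fc →₀ ℂ := mapDomain (fun g => (g, f)) a

omit [Group G] in
lemma up_self (f : Fc) (a : G →₀ ℂ) (g : G) : up f a (g, f) = a g :=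
  Finsupp.mapDomain_apply (pair_inj f) a g

omit [Group G] in
lemma up_ne {f : Fc} (a : G →₀ ℂ) {x : G × Fc} (h : x.2 ≠ f) : up f a x = 0 :=
  Finsupp.mapDomain_of_notMem_range _ _ (by rintro ⟨g, rfl⟩; exact h rfl)

lemma inv_inj' (f : Fc) : Function.Injective fun g : G => (g⁻¹, f) :=
  fun _ _ h => inv_injective (Prod.mk.inj h).1

/-- The absolute values of a chain on one type of faces. -/
def ab (f : Fc) (η : G × Fc →₀ ℂ) : H G :=
  toH (mapRange (fun c : ℂ => (‖c‖ : ℂ)) (by simp)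
    (comapDomain (fun g => (g⁻¹, f)) η (inv_inj' f).injOn))

lemma ab_coef (f : Fc) (η : G × Fc →₀ ℂ) (g : G) : ab f η g = (‖η (g⁻¹, f)‖ : ℂ) := by
  rw [ab, toH_coef, mapRange_apply, comapDomain_apply]

lemma sl_le_ab (f : Fc) (η : G × Fc →₀ ℂ) : ‖toH (sl f η)‖ ≤ ‖ab f η‖ :=
  norm_le_of _ _ (fun g => g⁻¹) inv_injective fun g => by
    rw [toH_coef, sl_coef, ab_coef, inv_inv]; simp

lemma d2_up (f : Fc) (a : G →₀ ℂ) : K.d2 (up f a) =
    ∑ y ∈ (K.bd f).support, K.bd f y • mapDomain (fun g => (g * y.1, y.2)) a := by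
  induction a using Finsupp.induction_linear with
  | zero => simp [up]
  | add a b ha hb =>
    have : up f (a + b) = up f a + up f b := mapDomain_add
    rw [this, map_add, ha, hb, ← Finset.sum_add_distrib]
    simp only [mapDomain_add, smul_add]
  | single g c =>
    have h1 : sh g (K.bd f) = ∑ y ∈ (K.bd f).support, single (g * y.1, y.2) (K.bd f y) := rfl
    simp only [up, mapDomain_single, Cx.d2, linearCombination_single, h1, Finset.smul_sum,
      smul_single, smul_eq_mul, mul_comm]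

lemma bdd (f : Fc) : ∃ B : ℝ, 0 ≤ B ∧ ∀ a : G →₀ ℂ, ‖toH (K.d2 (up f a))‖ ≤ B * ‖toH a‖ := by
  refine ⟨∑ y ∈ (K.bd f).support, ‖K.bd f y‖, Finset.sum_nonneg fun _ _ => norm_nonneg _,
    fun a => ?_⟩
  rw [d2_up, map_sum, Finset.sum_mul]
  refine (norm_sum_le _ _).trans (Finset.sum_le_sum fun y _ => le_of_eq ?_)
  rw [map_smul, norm_smul, norm_map]
  intro g g' h
  exact mul_right_cancel (Prod.mk.inj h).1

/-- The translated absolute values differ by a multiple of the boundary. -/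
def Cl (F : Finset Fc) (x y : G × Fc) : Prop :=
  ∃ C : ℝ, 0 ≤ C ∧ ∀ η : G × Fc →₀ ℂ, On F η →
    ‖lam x.1 (ab x.2 η) - lam y.1 (ab y.2 η)‖ ≤ C * ‖toH (K.d2 η)‖

lemma cl_of_dc (hp : K.Pm) {F : Finset Fc} (hm : ∀ e, K.mult F e ≤ 2) {x y : G × Fc}
    (h : K.DC F x y) : Cl K F x y := by
  induction h with
  | rel x y h =>
    obtain ⟨h1, h1', z, h2, h2'⟩ := h
    refine ⟨1, zero_le_one, fun η hη => ?_⟩
    rw [one_mul]
    refine norm_le_of _ _ (fun g => (g⁻¹ * z.1, z.2)) ?_ fun g => ?_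
    · intro g g' h
      exact inv_injective (mul_right_cancel (Prod.mk.inj h).1)
    · rw [lp.coeFn_sub, Pi.sub_apply, lam_coef, lam_coef, ab_coef, ab_coef, toH_coef,
        ← Complex.ofReal_sub, Complex.norm_real, Real.norm_eq_abs, mul_inv_rev, mul_inv_rev,
        inv_inv, inv_inv]
      refine two_face K hp hη (z := (g⁻¹ * z.1, z.2)) (hm _) (w := (g⁻¹ * x.1, x.2))
        (w' := (g⁻¹ * y.1, y.2)) h1 ?_ h1' ?_
      · rw [sh_coef] at h2 ⊢
        simpa [mul_assoc] using h2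
      · rw [sh_coef] at h2' ⊢
        simpa [mul_assoc] using h2'
  | refl x => exact ⟨0, le_rfl, fun η _ => by simp⟩
  | symm x y _ ih =>
    obtain ⟨C, h0, h⟩ := ih
    exact ⟨C, h0, fun η hη => by rw [norm_sub_rev]; exact h η hη⟩
  | trans x y z _ _ ih ih' =>
    obtain ⟨C, h0, h⟩ := ih
    obtain ⟨C', h0', h'⟩ := ih'
    refine ⟨C + C', add_nonneg h0 h0', fun η hη => ?_⟩
    refine (norm_sub_le_norm_sub_add_norm_sub _ (lam y.1 (ab y.2 η)) _).trans ?_
    have := h η hη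
    have := h' η hη
    linarith

/-- The bound for all chains on `F`. -/
def Bd (F : Finset Fc) : Prop :=
  ∀ f, ∃ C : ℝ, 0 ≤ C ∧ ∀ η : G × Fc →₀ ℂ, On F η → ‖toH (sl f η)‖ ≤ C * ‖toH (K.d2 η)‖

omit [Group G] in
lemma sl_off {F : Finset Fc} {f : Fc} (hf : f ∉ F) {η : G × Fc →₀ ℂ} (hη : On F η) :
    sl f η = 0 := Finsupp.ext fun g => hη (g, f) hf

lemma closed (hA : AvgStmt) (hG : CT G) (hp : K.Pm) (h2 : K.M2) (hn : K.Na) {F : Finset Fc}
    (hF : ∀ e, K.mult F e ≠ 1) : Bd K F := by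
  intro f
  by_cases hf : f ∈ F
  swap
  · exact ⟨0, le_rfl, fun η hη => by simp [sl_off hf hη]⟩
  have hm : ∀ e, K.mult F e ≤ 2 := fun e => by rcases h2 F hF e with h | h <;> omega
  obtain ⟨x, y, hxy, hx, hy⟩ := hn F hF f hf
  obtain ⟨C, h0, h⟩ := cl_of_dc K hp hm hx
  obtain ⟨C', h0', h'⟩ := cl_of_dc K hp hm hy
  refine ⟨50 * (C + C'), by positivity, fun η hη => ?_⟩
  have a1 := h η hη
  have a2 := h' η hη
  simp only [map_one, one_ap] at a1 a2
  rw [norm_sub_rev] at a1 a2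
  have a3 := kesten hA hG hxy (ab f η)
  have a4 := sl_le_ab f η
  linarith

lemma step [DecidableEq Fc] (hp : K.Pm) {F : Finset Fc} {e : E} (he : K.mult F e = 1) :
    ∃ f₀ ∈ F, Bd K (F.erase f₀) → Bd K F := by
  classical
  have hne : K.mult F e ≠ 0 := by omega
  unfold Cx.mult at hne
  obtain ⟨f₀, hf₀, h1⟩ := Finset.exists_ne_zero_of_sum_ne_zero hne
  obtain ⟨y, hy⟩ := Finset.card_ne_zero.1 h1
  simp only [Finset.mem_filter, Finsupp.mem_support_iff] at hy
  obtain ⟨hy, hye⟩ := hy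
  have key : ∀ η : G × Fc →₀ ℂ, On F η → ‖toH (sl f₀ η)‖ ≤ ‖toH (K.d2 η)‖ := fun η hη => by
    refine norm_le_of _ _ (fun g => (g * y.1, y.2)) ?_ fun g => ?_
    · intro g g' h
      exact mul_right_cancel (Prod.mk.inj h).1
    · rw [toH_coef, toH_coef, sl_coef]
      refine (one_face K hp hη (z := (g * y.1, y.2)) (by rw [← he, ← hye]) (w := (g, f₀)) hf₀
        ?_).le
      rw [sh_coef]
      simpa using hy
  refine ⟨f₀, hf₀, fun ih f => ?_⟩
  by_cases hf : f = f₀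
  · exact ⟨1, zero_le_one, fun η hη => by rw [one_mul, hf]; exact key η hη⟩
  obtain ⟨C, h0, h⟩ := ih f
  obtain ⟨B, hB, hB'⟩ := bdd K f₀
  refine ⟨C * (1 + B), by positivity, fun η hη => ?_⟩
  have hon : On (F.erase f₀) (η - up f₀ (sl f₀ η)) := by
    rintro ⟨g, f'⟩ hx
    rw [Finsupp.sub_apply]
    by_cases h3 : f' = f₀
    · rw [h3, up_self, sl_coef, sub_self]
    · rw [up_ne _ h3, sub_zero]
      exact hη _ fun h4 => hx (Finset.mem_erase.2 ⟨h3, h4⟩)
  have hsl : sl f (η - up f₀ (sl f₀ η)) = sl f η := Finsupp.ext fun g => by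
    rw [sl_coef, sl_coef, Finsupp.sub_apply, up_ne _ hf, sub_zero]
  have a1 := h _ hon
  rw [hsl, map_sub, map_sub] at a1
  have a2 := norm_sub_le (toH (K.d2 η)) (toH (K.d2 (up f₀ (sl f₀ η))))
  have a3 := hB' (sl f₀ η)
  have a4 := mul_le_mul_of_nonneg_left (key η hη) hB
  refine a1.trans ?_
  rw [mul_assoc]
  exact mul_le_mul_of_nonneg_left (by linarith) h0

lemma bd_all (hA : AvgStmt) (hG : CT G) (hp : K.Pm) (h2 : K.M2) (hn : K.Na) (F : Finset Fc) :
    Bd K F := by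
  classical
  induction F using Finset.strongInduction with
  | H F ih =>
    by_cases hF : ∀ e, K.mult F e ≠ 1
    · exact closed K hA hG hp h2 hn hF
    · push Not at hF
      obtain ⟨e, he⟩ := hF
      obtain ⟨f₀, hf₀, h⟩ := step K hp he
      exact h (ih _ (Finset.erase_ssubset hf₀))

omit [Group G] in
lemma sum_up [Fintype Fc] (η : G × Fc →₀ ℂ) : ∑ f, up f (sl f η) = η := by
  ext ⟨g, f⟩
  rw [Finset.sum_apply', Finset.sum_eq_single f, up_self, sl_coef]
  · exact fun f' _ h => up_ne _ (Ne.symm h)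
  · exact fun h => (h (Finset.mem_univ f)).elim

end Cpx

end GapA

open GapA in
theorem gapA (hA : AvgStmt) : GapAStmt := by
  intro G Vx E Fc _ _ _ K hK hG
  choose C h0 h using bd_all K hA hG hK.pm hK.m2 hK.na Finset.univ
  refine ⟨(∑ f, C f) ^ 2, fun η => ?_⟩
  rw [← norm_toH, ← norm_toH, ← mul_pow]
  refine pow_le_pow_left₀ (norm_nonneg _) ?_ 2
  conv_lhs => rw [← sum_up η, map_sum]
  rw [Finset.sum_mul]
  refine (norm_sum_le _ _).trans (Finset.sum_le_sum fun f _ => ?_)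
  rw [up, GapA.norm_map _ (pair_inj f)]
  exact h f η fun x hx => (hx (Finset.mem_univ _)).elim

end

end Pool.Agent.MP_494aff_an.Se
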