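import Mathlib
import Pool.Agent.MP_494aff_an.se.GapA

/-! A square summable chain with finite boundary is finite. -/

open Filter Topology Finsupp

namespace Pool.Agent.MP_494aff_an.Se

open Pool.Agent.MP_494aff_an.Pinch Pool.Agent.MP_494aff_an.Pinch.TowP Pool.Agent.MP_494aff_an.Lf

noncomputable section

namespace GapF

open GapA

variable {G Vx E Fc : Type} [Group G] [Fintype Fc] (K : Cx G Vx E Fc)

lemma D2_coef (η : G × Fc → ℂ) (z : G × E) (S : Finset (G × Fc))
    (hS : ∀ w : G × Fc, η w ≠ 0 → sh w.1 (K.bd w.2) z ≠ 0 → w ∈ S) :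
    K.D2 η z = ∑ w ∈ S, η w * sh w.1 (K.bd w.2) z := by
  classical
  rw [← Finset.sum_fiberwise (s := S) (g := Prod.snd)]
  unfold Cx.D2
  refine Finset.sum_congr rfl fun f _ => ?_
  unfold Finsupp.sum
  beta_reduce
  have key : ∀ x : G × E, x.2 = z.2 → sh (z.1 * x.1⁻¹) (K.bd f) z = K.bd f x := by
    intro x hx
    rw [sh_coef, ← hx]
    simp
  refine Finset.sum_bij_ne_zero (fun x _ _ => (z.1 * x.1⁻¹, f)) ?_ ?_ ?_ ?_
  · intro x _ h
    have h1 : x.2 = z.2 := by
      by_contra h1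
      exact h (if_neg h1)
    rw [if_pos h1] at h
    refine Finset.mem_filter.2 ⟨hS _ (right_ne_zero_of_mul h) ?_, rfl⟩
    rw [key x h1]
    exact left_ne_zero_of_mul h
  · intro x _ h x' _ h' e
    have h1 : x.2 = z.2 := by
      by_contra h1
      exact h (if_neg h1)
    have h2 : x'.2 = z.2 := by
      by_contra h1
      exact h' (if_neg h1)
    exact Prod.ext (inv_injective (mul_left_cancel (Prod.mk.inj e).1)) (h1.trans h2.symm)
  · rintro ⟨g, f'⟩ hw h
    obtain rfl : f' = f := (Finset.mem_filter.1 hw).2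
    have h1 := right_ne_zero_of_mul h
    rw [sh_coef] at h1
    refine ⟨(g⁻¹ * z.1, z.2), Finsupp.mem_support_iff.2 h1, ?_, ?_⟩
    · rw [if_pos rfl]
      refine mul_ne_zero h1 ?_
      simpa using left_ne_zero_of_mul h
    · simp
  · intro x _ h
    have h1 : x.2 = z.2 := by
      by_contra h1
      exact h (if_neg h1)
    rw [if_pos h1, key x h1, mul_comm]

lemma D2_sub (η η' : G × Fc → ℂ) (z : G × E) :
    K.D2 (η - η') z = K.D2 η z - K.D2 η' z := by
  obtain ⟨S, -, hS⟩ := exists_occ K Finset.univ z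
  rw [D2_coef K η z S fun w _ => hS w (Finset.mem_univ _),
    D2_coef K η' z S fun w _ => hS w (Finset.mem_univ _),
    D2_coef K (η - η') z S fun w _ => hS w (Finset.mem_univ _), ← Finset.sum_sub_distrib]
  exact Finset.sum_congr rfl fun w _ => by rw [Pi.sub_apply, sub_mul]

lemma D2_fin {η : G × Fc → ℂ} (h : (Function.support η).Finite) :
    (Function.support (K.D2 η)).Finite := by
  refine (h.biUnion fun w _ => (sh w.1 (K.bd w.2)).support.finite_toSet).subset fun z hz => ?_
  rw [Function.mem_support, D2_coef K η z h.toFinset fun w hw _ => h.mem_toFinset.2 hw] at hz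
  obtain ⟨w, -, hw⟩ := Finset.exists_ne_zero_of_sum_ne_zero hz
  exact Set.mem_biUnion (x := w) (left_ne_zero_of_mul hw)
    (Finsupp.mem_support_iff.2 (right_ne_zero_of_mul hw))

lemma one_face' (hp : K.Pm) {F : Finset Fc} {η : G × Fc → ℂ}
    (hη : ∀ x : G × Fc, η x ≠ 0 → x.2 ∈ F) {z : G × E} (hm : K.mult F z.2 = 1) {w : G × Fc}
    (h1 : w.2 ∈ F) (h2 : sh w.1 (K.bd w.2) z ≠ 0) : ‖η w‖ = ‖K.D2 η z‖ := by
  obtain ⟨S, hS, hS'⟩ := exists_occ K F z
  rw [D2_coef K η z {w}, Finset.sum_singleton, norm_mul, norm_pm K hp h2, mul_one]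
  intro w' h3 h4
  rw [Finset.mem_singleton]
  exact Finset.card_le_one.1 (hS.trans hm.le) _ (hS' w' (hη _ h3) h4) _ (hS' w h1 h2)

lemma two_face' (hp : K.Pm) {F : Finset Fc} {η : G × Fc → ℂ}
    (hη : ∀ x : G × Fc, η x ≠ 0 → x.2 ∈ F) {z : G × E} (hm : K.mult F z.2 ≤ 2)
    (hz : K.D2 η z = 0) {w w' : G × Fc} (h1 : w.2 ∈ F) (h2 : sh w.1 (K.bd w.2) z ≠ 0)
    (h1' : w'.2 ∈ F) (h2' : sh w'.1 (K.bd w'.2) z ≠ 0) : ‖η w‖ = ‖η w'‖ := by
  classical
  by_cases hw : w = w'
  · rw [hw]
  obtain ⟨S, hS, hS'⟩ := exists_occ K F z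
  have hsub : ({w, w'} : Finset (G × Fc)) = S := by
    refine Finset.eq_of_subset_of_card_le ?_ ?_
    · intro x hx
      rcases Finset.mem_insert.1 hx with rfl | hx
      · exact hS' _ h1 h2
      · rw [Finset.mem_singleton.1 hx]; exact hS' _ h1' h2'
    · rw [Finset.card_pair hw]; exact hS.trans hm
  rw [D2_coef K η z {w, w'} (by rw [hsub]; exact fun x hx => hS' x (hη x hx)),
    Finset.sum_pair hw, add_eq_zero_iff_eq_neg] at hz
  have := congrArg norm hz
  rwa [norm_neg, norm_mul, norm_mul, norm_pm K hp h2, norm_pm K hp h2', mul_one, mul_one] at this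

omit [Group G] [Fintype Fc] in
lemma level {η : G × Fc → ℂ} (hs : Summable fun x => ‖η x‖ ^ 2) {c : ℝ} (hc : 0 < c) :
    {x | ‖η x‖ = c}.Finite := by
  have h := hs.tendsto_cofinite_zero.eventually (gt_mem_nhds (pow_pos hc 2))
  refine (Filter.eventually_cofinite.1 h).subset fun x hx => ?_
  have hx' : ‖η x‖ = c := hx
  change ¬ ‖η x‖ ^ 2 < c ^ 2
  rw [hx']
  exact lt_irrefl _

lemma closed' (hG : CT G) (hp : K.Pm) (h2 : K.M2) (hn : K.Na) {F : Finset Fc}
    (hF : ∀ e, K.mult F e ≠ 1) {η : G × Fc → ℂ} (hη : ∀ x : G × Fc, η x ≠ 0 → x.2 ∈ F)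
    (hs : Summable fun x => ‖η x‖ ^ 2) (hf : (Function.support (K.D2 η)).Finite) :
    (Function.support η).Finite := by
  have hm : ∀ e, K.mult F e ≤ 2 := fun e => by rcases h2 F hF e with h | h <;> omega
  choose S _ hS using exists_occ K F
  have hT : (⋃ z ∈ Function.support (K.D2 η), (S z : Set (G × Fc)) ∩ Function.support η).Finite :=
    hf.biUnion fun z _ => (S z).finite_toSet.inter_of_left _
  refine (hT.biUnion (t := fun t => {x | ‖η x‖ = ‖η t‖}) fun t ht => ?_).subset fun x hx => ?_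
  · simp only [Set.mem_iUnion] at ht
    obtain ⟨z, -, -, ht⟩ := ht
    exact level hs (norm_pos_iff.2 ht)
  by_contra hc
  have hx0 : 0 < ‖η x‖ := norm_pos_iff.2 hx
  have edge : ∀ (z : G × E) (w w' : G × Fc), w.2 ∈ F → sh w.1 (K.bd w.2) z ≠ 0 → w'.2 ∈ F →
      sh w'.1 (K.bd w'.2) z ≠ 0 → ‖η w‖ = ‖η x‖ → ‖η w'‖ = ‖η x‖ := by
    intro z w w' a1 a2 a3 a4 a5
    by_cases hz : K.D2 η z = 0
    · rw [← two_face' K hp hη (hm _) hz a1 a2 a3 a4, a5]
    · refine (hc (Set.mem_biUnion (x := w) (Set.mem_biUnion (x := z) hz ⟨hS z w a1 a2, ?_⟩)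
        a5.symm)).elim
      exact norm_pos_iff.1 (a5 ▸ hx0)
  have dc : ∀ y y' : G × Fc, K.DC F y y' → ∀ g : G,
      (‖η (g * y.1, y.2)‖ = ‖η x‖ ↔ ‖η (g * y'.1, y'.2)‖ = ‖η x‖) := by
    intro y y' h
    induction h with
    | rel y y' h =>
      obtain ⟨a1, a3, z, a2, a4⟩ := h
      intro g
      have b2 : sh (g * y.1) (K.bd y.2) (g * z.1, z.2) ≠ 0 := by
        rw [sh_coef] at a2 ⊢
        simpa [mul_assoc] using a2
      have b4 : sh (g * y'.1) (K.bd y'.2) (g * z.1, z.2) ≠ 0 := by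
        rw [sh_coef] at a4 ⊢
        simpa [mul_assoc] using a4
      exact ⟨edge _ (g * y.1, y.2) (g * y'.1, y'.2) a1 b2 a3 b4,
        edge _ (g * y'.1, y'.2) (g * y.1, y.2) a3 b4 a1 b2⟩
    | refl y => exact fun _ => Iff.rfl
    | symm y y' _ ih => exact fun g => (ih g).symm
    | trans y y' y'' _ _ ih ih' => exact fun g => (ih g).trans (ih' g)
  obtain ⟨u, v, huv, hu, -⟩ := hn F hF x.2 (hη x hx)
  have hu1 : u ≠ 1 := by
    rintro rfl
    exact huv (by simp)
  have pw : ∀ n : ℕ, ‖η (x.1 * u ^ n, x.2)‖ = ‖η x‖ := by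
    intro n
    induction n with
    | zero => simp
    | succ n ih =>
      have := dc _ _ hu (x.1 * u ^ n)
      rw [mul_one, mul_assoc, ← pow_succ] at this
      exact this.1 ih
  refine Set.infinite_of_injective_forall_mem (f := fun n : ℕ => (x.1 * u ^ n, x.2)) ?_ pw
    (level hs hx0)
  intro n m h
  have h1 : u ^ n = u ^ m := mul_left_cancel (Prod.mk.inj h).1
  have h3 := hG.tf u hu1 ((n : ℤ) - m) (by rw [zpow_sub, zpow_natCast, zpow_natCast, h1]; simp)
  omega

lemma fin_all (hG : CT G) (hp : K.Pm) (h2 : K.M2) (hn : K.Na) (F : Finset Fc) :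
    ∀ η : G × Fc → ℂ, (∀ x : G × Fc, η x ≠ 0 → x.2 ∈ F) → (Summable fun x => ‖η x‖ ^ 2) →
      (Function.support (K.D2 η)).Finite → (Function.support η).Finite := by
  classical
  induction F using Finset.strongInduction with
  | H F ih =>
    intro η hη hs hf
    by_cases hF : ∀ e, K.mult F e ≠ 1
    · exact closed' K hG hp h2 hn hF hη hs hf
    push Not at hF
    obtain ⟨e, he⟩ := hF
    have hne : K.mult F e ≠ 0 := by omega
    unfold Cx.mult at hne
    obtain ⟨f₀, hf₀, h1⟩ := Finset.exists_ne_zero_of_sum_ne_zero hne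
    obtain ⟨y, hy⟩ := Finset.card_ne_zero.1 h1
    simp only [Finset.mem_filter, Finsupp.mem_support_iff] at hy
    obtain ⟨hy, hye⟩ := hy
    set a : G × Fc → ℂ := fun x => if x.2 = f₀ then η x else 0 with ha
    have hfa : (Function.support a).Finite := by
      refine (hf.image fun z => (z.1 * y.1⁻¹, f₀)).subset ?_
      rintro ⟨g, f⟩ hx
      have h3 : f = f₀ := by
        by_contra h3
        exact hx (if_neg h3)
      subst h3
      have h4 : η (g, f) ≠ 0 := fun h => hx ((if_pos rfl).trans h)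
      refine ⟨(g * y.1, y.2), ?_, by simp⟩
      have := one_face' K hp hη (z := (g * y.1, y.2)) (by rw [← he, ← hye]) (w := (g, f)) hf₀
        (by rw [sh_coef]; simpa using hy)
      exact norm_pos_iff.1 (this ▸ norm_pos_iff.2 h4)
    have hb : (Function.support (η - a)).Finite := by
      refine ih _ (Finset.erase_ssubset hf₀) _ (fun x hx => ?_) ?_ ?_
      · by_cases h3 : x.2 = f₀
        · exact (hx (by simp [ha, h3])).elim
        · exact Finset.mem_erase.2 ⟨h3, hη x fun h => hx (by simp [ha, h3, h])⟩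
      · refine hs.of_nonneg_of_le (fun _ => by positivity) fun x => ?_
        by_cases h3 : x.2 = f₀ <;> simp [ha, h3]
      · refine (hf.union (D2_fin K hfa)).subset fun z hz => ?_
        by_contra h3
        rw [Set.mem_union, not_or, Function.mem_support, Function.mem_support, not_not,
          not_not] at h3
        exact hz (by rw [D2_sub, h3.1, h3.2, sub_self])
    refine (hfa.union hb).subset fun x hx => ?_
    by_contra h3
    rw [Set.mem_union, not_or, Function.mem_support, Function.mem_support, not_not, not_not,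
      Pi.sub_apply] at h3
    exact hx (by rw [← h3.2, h3.1, sub_zero])

end GapF

theorem gapF : GapFStmt := by
  intro G Vx E Fc _ _ _ K hK hG η hs hf
  exact GapF.fin_all K hG hK.pm hK.m2 hK.na Finset.univ η (fun _ _ => Finset.mem_univ _) hs hf

end

end Pool.Agent.MP_494aff_an.Se
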