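import Mathlib
import Pool.Agent.MP_494aff_an.se.SpecH

/-! Generic tops, and paths between twins written with links. -/

set_option linter.unusedVariables false
set_option linter.unusedSectionVars false

open Set
open scoped Pointwise

namespace Pool.Agent.MP_494aff_an.Se

open Pool.Agent.MP_494aff_an.Pinch Pool.Agent.MP_494aff_an.Pinch.TowP Pool.Agent.MP_494aff_an.Lf

variable {G T K B : Type} [Group G] [MetricSpace T] [MulAction G T] [Countable G] [Fintype K]
  [Fintype B] {S : Sys G T K B} {τ s : ℝ} {t : B × Bool → ℝ} {Fr : Set (B × Bool)}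

namespace GD

open Sys

/-- A height off a countable set of points. -/
lemma generic (h : S.Ok) (hτ : S.Sm τ) {e : B × Bool} (he : S.lo e.1 < S.hi e.1) {m : ℝ}
    (h0 : 0 < m) (hm : m ≤ τ) {Bad : Set T} (hB : Bad.Countable) :
    ∃ ρ, 0 < ρ ∧ ρ ≤ m ∧ S.pt (S.up 1 e ρ) ∉ Bad := by
  by_contra hn
  have hc : (Ioc 0 m).Countable := by
    refine countable_of_injective_of_countable_image (f := fun ρ => S.pt (S.up 1 e ρ))
      (fun x hx y hy hxy => ?_) (hB.mono ?_)
    · have := dist_up h hτ he 1 hx.1.le (hx.2.trans hm) hy.1.le (hy.2.trans hm)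
      rw [show S.pt (S.up 1 e x) = S.pt (S.up 1 e y) from hxy, dist_self] at this
      exact sub_eq_zero.1 (abs_eq_zero.1 this.symm)
    · rintro _ ⟨x, hx, rfl⟩
      by_contra hb
      exact hn ⟨x, hx.1, hx.2, hb⟩
  have := hc.measure_zero MeasureTheory.volume
  rw [Real.volume_Ioc, ENNReal.ofReal_eq_zero] at this
  linarith

lemma pt_up (g : G) (e : B × Bool) (ρ : ℝ) : S.pt (S.up g e ρ) = g • S.pt (S.up 1 e ρ) := by
  rw [← pt_sm, up_sm, mul_one]

lemma tops (h : S.Ok) (hτ : S.Sm τ) {m : ℝ} (h0 : 0 < m) (hm : m ≤ τ) (E : Finset (B × Bool)) :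
    ∃ v : B × Bool → ℝ, (∀ e, 0 < v e ∧ v e ≤ m) ∧ ∀ e ∈ E, ∀ e' ∈ E, ∀ g, S.En e → S.En e' →
      S.pt (S.up g e (v e)) = S.pt (S.up 1 e' (v e')) → e = e' := by
  classical
  induction E using Finset.induction_on with
  | empty => exact ⟨fun _ => m, fun _ => ⟨h0, le_rfl⟩, fun e he => by simp at he⟩
  | insert e₀ E hE ih =>
    obtain ⟨v, hv, hg⟩ := ih
    by_cases he₀ : S.En e₀
    swap
    · refine ⟨v, hv, fun e he e' he' g h1 h2 => hg e ?_ e' ?_ g h1 h2⟩
      · exact (Finset.mem_insert.1 he).resolve_left fun x => he₀ (x ▸ h1)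
      · exact (Finset.mem_insert.1 he').resolve_left fun x => he₀ (x ▸ h2)
    obtain ⟨ρ, r1, r2, r3⟩ := generic h hτ he₀.1 h0 hm
      (countable_range fun x : G × (B × Bool) => S.pt (S.up x.1 x.2 (v x.2)))
    refine ⟨Function.update v e₀ ρ, fun e => ?_, fun e he e' he' g h1 h2 hp => ?_⟩
    · by_cases x : e = e₀
      · rw [x, Function.update_self]; exact ⟨r1, r2⟩
      · rw [Function.update_of_ne x]; exact hv e
    by_cases x : e = e₀ <;> by_cases y : e' = e₀
    · rw [x, y]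
    · rw [x, Function.update_self, Function.update_of_ne y] at hp
      refine (r3 ⟨(g⁻¹, e'), ?_⟩).elim
      show S.pt (S.up g⁻¹ e' (v e')) = _
      rw [pt_up, ← hp, pt_up g, inv_smul_smul]
    · rw [y, Function.update_self, Function.update_of_ne x] at hp
      exact (r3 ⟨(g, e), hp⟩).elim
    · rw [Function.update_of_ne x, Function.update_of_ne y] at hp
      exact hg e ((Finset.mem_insert.1 he).resolve_left x) e'
        ((Finset.mem_insert.1 he').resolve_left y) g h1 h2 hp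

/-- The jump of a function along a chain of links. -/
noncomputable def jm (S : Sys G T K B) (F : St G K → ℂ) : (G × (B × Bool) × ℝ →₀ ℂ) →ₗ[ℂ] ℂ :=
  Finsupp.linearCombination ℂ fun l =>
    F (S.en l.1 l.2.1 l.2.2 false) - F (S.en l.1 l.2.1 l.2.2 true)

lemma jm_single (F : St G K → ℂ) (g : G) (e : B × Bool) (ρ : ℝ) :
    jm S F (Finsupp.single (g, e, ρ) 1) = F (S.up g e ρ) - F (S.im e.1 (S.up g e ρ)) := by
  simp [jm, en]

/-- A state above an end. -/
lemma eq_up {a : St G K} (hU : a.U) {e : B × Bool} {ρ : ℝ} (hk : a.k = S.src e.1)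
    (hr : a.r = (S.up a.g e ρ).r) : a = S.up a.g e ρ ∨ a = (S.up a.g e ρ).fl := by
  rcases hU with h1 | h1 <;> rcases up_U (S := S) a.g e ρ with h2 | h2
  · exact Or.inl (St.ext rfl hk hr (h1.trans h2.symm))
  · exact Or.inr (St.ext rfl hk hr (by simp [St.fl, h1, h2]))
  · exact Or.inr (St.ext rfl hk hr (by simp [St.fl, h1, h2]))
  · exact Or.inl (St.ext rfl hk hr (h1.trans h2.symm))

end GD

open GD Sys in
theorem genS (h : S.Ok) (hτ : S.Sm τ) (hZ : S.Frz τ Fr s) :
    ∃ t, S.Fi τ Fr s t ∧ S.Gen t Fr := by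
  classical
  obtain ⟨v, hv, hg⟩ := tops h hτ (lt_min hZ.pos hτ.pos) (min_le_right s τ) Finset.univ
  refine ⟨fun e => if S.En e then if e ∈ Fr then τ else v e else 0,
    ⟨⟨fun e => ⟨fun he => ?_, fun he => if_neg he⟩, fun e he => ?_⟩, fun e he hf => ?_⟩,
    fun e e' g h1 h2 h3 h4 hp => ?_⟩
  · simp only [if_pos he]
    split_ifs
    · exact ⟨hτ.pos, le_rfl⟩
    · exact ⟨(hv e).1, (hv e).2.trans (min_le_right s τ)⟩
  · simp only [if_pos (hZ.en e he), if_pos he]
  · simp only [if_pos he, if_neg hf]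
    exact (hv e).2.trans (min_le_left s τ)
  · simp only [if_pos h1, if_neg h2, if_pos h3, if_neg h4] at hp
    exact hg e (Finset.mem_univ _) e' (Finset.mem_univ _) g h1 h3 hp

open GD Sys in
theorem dec (h : S.Ok) (hτ : S.Sm τ) : S.DecAll τ Fr := by
  classical
  intro t u e ρ ht hu hw
  let u' : B × Bool → ℝ := fun x => min (u x) (t x)
  have hu' : S.Adm τ u' := fun x =>
    ⟨fun hx => ⟨lt_min ((hu.1 x).1 hx).1 ((ht.1 x).1 hx).1,
      (min_le_left _ _).trans ((hu.1 x).1 hx).2⟩,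
    fun hx => by simp only [u', (hu.1 x).2 hx, (ht.1 x).2 hx, min_self]⟩
  have hw' : S.Cn (S.al u') (S.up 1 e ρ) (S.im e.1 (S.up 1 e ρ)) :=
    Cn.mono (al_mono fun x => min_le_left _ _) hw
  let P : (G × (B × Bool) × ℝ →₀ ℂ) → Prop := fun n => ∀ l ∈ n.support, S.En l.2.1 ∧
    l.2.1 ∉ Fr ∧ 0 < l.2.2 ∧ l.2.2 < t l.2.1 ∧ S.pt (S.up l.1 l.2.1 l.2.2) = S.pt (S.up 1 e ρ)
  let R : St G K → St G K → Prop := fun x y => ∃ n, P n ∧ ∀ F : St G K → ℂ,
    (∀ a a', S.Cn (S.al t) a a' → F a = F a') → (∀ a, F a.fl = F a) → F x - F y = jm S F n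
  have P0 : P 0 := fun l hl => by simp at hl
  have hR : Equivalence R := by
    refine ⟨fun x => ⟨0, P0, fun F _ _ => by simp⟩, ?_, ?_⟩
    · rintro x y ⟨n, p, q⟩
      refine ⟨-n, fun l hl => p l (by simpa using hl), fun F a b => ?_⟩
      rw [map_neg, ← q F a b, neg_sub]
    · rintro x y z ⟨n, p, q⟩ ⟨n', p', q'⟩
      refine ⟨n + n', fun l hl => ?_, fun F a b => ?_⟩
      · exact (Finset.mem_union.1 (Finsupp.support_add hl)).elim (p l) (p' l)
      · rw [map_add, ← q F a b, ← q' F a b, sub_add_sub_cancel]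
  have link : ∀ (a : St G K) (x : B × Bool) (r : ℝ), S.Cn (S.al u') (S.up 1 e ρ) a →
      a.k = S.src x.1 → a.r = (S.up a.g x r).r → u' x ≤ r → r < t x → R a (S.im x.1 a) := by
    intro a x r hc hk hr h1 h2
    have hx : S.En x := by
      by_contra hx
      have := (ht.1 x).2 hx
      have := hu'.nonneg x
      linarith
    have hp : S.pt (S.up 1 e ρ) = S.pt a :=
      Cn.pt h (fun _ _ hb => al_base ⟨τ, hτ, hu'⟩ hb) hc
    have ha := eq_up ((Cn.U h hc).1 (up_U 1 e ρ)) hk hr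
    refine ⟨Finsupp.single (a.g, x, r) 1, fun l hl => ?_, fun F _ hF => ?_⟩
    · obtain rfl := Finset.mem_singleton.1 (Finsupp.support_single_subset hl)
      refine ⟨hx, fun hf => ?_, ((hu' x).1 hx).1.trans_le h1, h2, ?_⟩
      · have e1 : u' x = τ := by simp only [u', hu.2 x hf, ht.2 x hf, min_self]
        have := ht.2 x hf
        linarith
      · rw [hp]
        rcases ha with ha | ha
        · exact congrArg S.pt ha.symm
        · exact (pt_fl _).symm.trans (congrArg S.pt ha.symm)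
    · rw [jm_single]
      generalize S.up a.g x r = c at ha
      rcases ha with rfl | rfl
      · rfl
      · rw [← im_fl, hF, hF]
  obtain ⟨n, p, q⟩ : R (S.up 1 e ρ) (S.im e.1 (S.up 1 e ρ)) := by
    refine Cn.ind' hR (fun a b hc hk hb => ?_) (Cn.refl _) hw'
    by_cases h1 : S.al t b a.r
    · exact ⟨0, P0, fun F hF _ => by rw [hF _ _ (Cn.move hk h1)]; simp⟩
    by_cases h2 : S.lo b + t (b, false) ≤ a.r
    · have h3 : S.hi b - t (b, true) < a.r := not_le.1 fun h3 => h1 ⟨hb.1, h2, h3⟩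
      exact link a (b, true) (S.hi b - a.r) hc hk (by simp [up]) (by linarith [hb.2.2])
        (by linarith)
    · exact link a (b, false) (a.r - S.lo b) hc hk (by simp [up]) (by linarith [hb.2.1])
        (by linarith)
  refine ⟨n, p, fun F h1 h2 => ?_⟩
  show jm S F (Finsupp.single (1, e, ρ) 1 - n) = 0
  rw [map_sub, jm_single, q F h1 h2, sub_self]

end Pool.Agent.MP_494aff_an.Se
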