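import Mathlib
import Pool.Agent.MP_494aff_an.se.SpecH

/-! The complex of a narrowed system has the required properties. -/

set_option linter.unusedVariables false
set_option linter.unusedSectionVars false

open Set
open scoped Pointwise

namespace Pool.Agent.MP_494aff_an.Se

open Pool.Agent.MP_494aff_an.Pinch Pool.Agent.MP_494aff_an.Pinch.TowP Pool.Agent.MP_494aff_an.Lf

namespace KxP

section Cx

variable {G Vx E Fc : Type} [Group G] [MulAction G Vx] (C : Cx G Vx E Fc)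

lemma d1_single (y : G × E) : C.d1 (Finsupp.single y 1) =
    Finsupp.single (y.1 • C.t y.2) 1 - Finsupp.single (y.1 • C.o y.2) 1 := by
  simp [Cx.d1]

lemma d1_sh (g : G) (ζ : G × E →₀ ℂ) :
    C.d1 (sh g ζ) = Finsupp.lmapDomain ℂ ℂ (fun v : Vx => g • v) (C.d1 ζ) := by
  have : C.d1.comp (sh g) = (Finsupp.lmapDomain ℂ ℂ (fun v : Vx => g • v)).comp C.d1 := by
    refine Finsupp.lhom_ext' fun y => LinearMap.ext_ring ?_
    simp only [LinearMap.comp_apply, Finsupp.lsingle_apply, sh_single, d1_single, map_sub,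
      Finsupp.lmapDomain_apply, Finsupp.mapDomain_single, mul_smul]
  exact LinearMap.congr_fun this ζ

lemma bd_mem (f : Fc) : C.bd f ∈ LinearMap.range C.d2 :=
  ⟨Finsupp.single (1, f) 1, by simp [Cx.d2, sh_one]⟩

lemma cn_smul {E' : Set E} (g : G) {a b : Vx} (h : C.Cn E' a b) : C.Cn E' (g • a) (g • b) := by
  induction h with
  | rel x y h =>
    obtain ⟨g', e, he, rfl, rfl⟩ := h
    exact Relation.EqvGen.rel _ _ ⟨g * g', e, he, mul_smul _ _ _, mul_smul _ _ _⟩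
  | refl x => exact Relation.EqvGen.refl _
  | symm x y _ ih => exact Relation.EqvGen.symm _ _ ih
  | trans x y z _ _ i1 i2 => exact Relation.EqvGen.trans _ _ _ i1 i2

end Cx

variable {G T K B : Type} [Group G] [MetricSpace T] [MulAction G T] {S : Sys G T K B}
  {t : B × Bool → ℝ} {Fr : Set (B × Bool)}

lemma q_nd {x : K × ℝ} (hx : S.Q x) : S.Nd t ∅ x :=
  Or.inr ⟨⟨1, x.1, x.2, 1⟩, ⟨1, x.1, x.2, 1⟩, rfl, Relation.EqvGen.refl _, rfl,
    Or.inl (Or.inl hx)⟩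

/-- The vertex of a translated node. -/
def mk (g : G) (x : {x // S.Nd t ∅ x}) : S.Vx t := Quot.mk _ (g, x)

lemma mk_iff {g g' : G} {x x' : {x // S.Nd t ∅ x}} :
    mk g x = mk g' x' ↔ Relation.EqvGen (S.Vr t) (g, x) (g', x') := Quot.eq

lemma vx_eq {x : K × ℝ} (hx : S.Nd t ∅ x) : S.vx t x = mk 1 ⟨x, hx⟩ := dif_pos hx

lemma smul_mk (g g' : G) (x : {x // S.Nd t ∅ x}) :
    g • mk g' x = mk (g * g') x := rfl

lemma mk_eq (g : G) (x : {x // S.Nd t ∅ x}) :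
    mk g x = g • S.vx t x.1 := by
  rw [vx_eq x.2, smul_mk, mul_one]

/-- The moves that join vertices. -/
def Go (S : Sys G T K B) (t : B × Bool → ℝ) (b : B) (r : ℝ) : Prop :=
  S.al t b r ∨ r = S.lo b ∨ r = S.hi b

lemma Go.base (h : S.Ok) (ht : S.Ad t) {b : B} {r : ℝ} (hg : Go S t b r) :
    S.lo b ≤ r ∧ r ≤ S.hi b := by
  rcases hg with hg | rfl | rfl
  · exact Sys.al_base ht hg
  · exact ⟨le_rfl, h.lo_le b⟩
  · exact ⟨h.lo_le b, le_rfl⟩

lemma q_src {b : B} {r : ℝ} (hr : r = S.lo b ∨ r = S.hi b ∨ r = S.mid b) : S.Q (S.src b, r) :=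
  Or.inr (Or.inr ⟨b, r, hr, Or.inl rfl⟩)

lemma q_tgt {b : B} {r : ℝ} (hr : r = S.lo b ∨ r = S.hi b ∨ r = S.mid b) :
    S.Q (S.tgt b, S.mv b r) :=
  Or.inr (Or.inr ⟨b, r, hr, Or.inr rfl⟩)

lemma img_nd (h3 : S.Cell) (ht : S.Ad t) {b : B} {r : ℝ} (hx : S.Nd t ∅ (S.src b, r))
    (hg : Go S t b r) : S.Nd t ∅ (S.tgt b, S.mv b r) := by
  rcases hg with hg | hg | hg
  · exact ((h3 t ht ∅ finite_empty (by simp)).nd ⟨1, S.src b, r, 1⟩ _ (Or.inl rfl)
      (Sys.Cn.move (b := b) rfl hg)).1 hx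
  · exact q_nd (q_tgt (Or.inl hg))
  · exact q_nd (q_tgt (Or.inr (Or.inl hg)))

lemma vx_band (h3 : S.Cell) (ht : S.Ad t) {b : B} {r : ℝ} (hx : S.Nd t ∅ (S.src b, r))
    (hg : Go S t b r) : S.vx t (S.src b, r) = (S.lab b)⁻¹ • S.vx t (S.tgt b, S.mv b r) := by
  rw [vx_eq hx, vx_eq (img_nd h3 ht hx hg), smul_mk]
  exact Quot.sound (Or.inl ⟨b, rfl, hg, by simp, rfl⟩)

lemma en_lo (b : B) : (S.en 1 (b, false) 0 false).p = (S.src b, S.lo b) ∧
    (S.en 1 (b, false) 0 true).p = (S.tgt b, S.mv b (S.lo b)) := by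
  simp [Sys.en, Sys.up, Sys.im, St.p]

lemma en_hi (b : B) : (S.en 1 (b, true) 0 false).p = (S.src b, S.hi b) ∧
    (S.en 1 (b, true) 0 true).p = (S.tgt b, S.mv b (S.hi b)) := by
  simp [Sys.en, Sys.up, Sys.im, St.p]

lemma en_zero (e : B × Bool) : ∃ r, (r = S.lo e.1 ∨ r = S.hi e.1) ∧ (S.up 1 e 0).r = r ∧
    (S.en 1 e 0 false).p = (S.src e.1, r) ∧ (S.en 1 e 0 true).p = (S.tgt e.1, S.mv e.1 r) := by
  rcases e with ⟨b, _ | _⟩
  · exact ⟨_, Or.inl rfl, by simp [Sys.up], en_lo b⟩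
  · exact ⟨_, Or.inr rfl, by simp [Sys.up], en_hi b⟩

lemma pc_end (ht : S.Ad t) (hS : S.Seg t Fr) (hP : S.Pc t Fr) (e : B × Bool)
    (hlt : S.lo e.1 < S.hi e.1) :
    S.pc t (S.en 1 e 0 false).p - sh (S.lab e.1)⁻¹ (S.pc t (S.en 1 e 0 true).p) - S.vth t e.1 ∈
      LinearMap.range (S.cx t Fr).d2 := by
  by_cases he : S.En e
  · rw [hS.link e he, Sys.vth, sub_sub_cancel_left]
    refine neg_mem ?_
    by_cases hf : e ∈ Fr
    · exact hP e hf
    · exact bd_mem (S.cx t Fr) ⟨e, he, hf⟩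
  · obtain ⟨τ, h1, h2⟩ := id ht
    have ha := Sys.al_up h1 h2 hlt 1 ((h2 e).2 he).le h1.pos.le
    obtain ⟨r, hr, e0, e1, e2⟩ := en_zero (S := S) e
    rw [e0] at ha
    rw [e1, e2, hS.band e.1 r (q_nd (q_src (hr.imp id Or.inl))) ha, Sys.vth, sub_self]
    exact zero_mem _

lemma pc_band (h : S.Ok) (ht : S.Ad t) (hS : S.Seg t Fr) (hP : S.Pc t Fr) {b : B} {r : ℝ}
    (hx : S.Nd t ∅ (S.src b, r)) (hg : Go S t b r) :
    S.pc t (S.src b, r) - sh (S.lab b)⁻¹ (S.pc t (S.tgt b, S.mv b r)) - S.vth t b ∈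
      LinearMap.range (S.cx t Fr).d2 := by
  rcases hg with hg | hg
  · rw [hS.band b r hx hg, Sys.vth, sub_self]
    exact zero_mem _
  rcases (h.lo_le b).eq_or_lt with hlt | hlt
  · have : r = S.mid b := by
      unfold Sys.mid
      rcases hg with hg | hg <;> linarith
    rw [this, Sys.vth, sub_self]
    exact zero_mem _
  rcases hg with rfl | rfl
  · have := pc_end ht hS hP (b, false) hlt
    rwa [(en_lo b).1, (en_lo b).2] at this
  · have := pc_end ht hS hP (b, true) hlt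
    rwa [(en_hi b).1, (en_hi b).2] at this

lemma go_of_q (ht : S.Ad t) {b : B} {r : ℝ} (h1 : S.lo b ≤ r) (h2 : r ≤ S.hi b)
    (hq : S.Q (S.src b, r)) : Go S t b r := by
  rcases h1.eq_or_lt with h1 | h1
  · exact Or.inr (Or.inl h1.symm)
  rcases h2.eq_or_lt with h2 | h2
  · exact Or.inr (Or.inr h2)
  obtain ⟨τ, hτ, ha⟩ := ht
  have key : ∀ (e : B × Bool) (ρ : ℝ), 0 < ρ → (S.en 1 e ρ false).p = (S.src b, r) → t e ≤ ρ := by
    intro e ρ hρ hp
    by_contra hc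
    have hc : ρ < t e := not_le.1 hc
    by_cases he : S.En e
    · exact (hτ.en e he ρ hρ (hc.le.trans ((ha e).1 he).2) false).2 (hp ▸ hq)
    · have := (ha e).2 he
      linarith
  have k1 := key (b, false) (r - S.lo b) (by linarith) (by simp [Sys.en, Sys.up, St.p])
  have k2 := key (b, true) (S.hi b - r) (by linarith) (by simp [Sys.en, Sys.up, St.p])
  exact Or.inl ⟨h1.trans h2, by linarith, by linarith⟩

lemma d1_band (h3 : S.Cell) (ht : S.Ad t) (hS : S.Seg t Fr) {b : B} {r : ℝ}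
    (hx : S.Nd t ∅ (S.src b, r)) (hg : Go S t b r) :
    (S.cx t Fr).d1 (S.pc t (S.src b, r) - sh (S.lab b)⁻¹ (S.pc t (S.tgt b, S.mv b r))) =
      Finsupp.single ((S.lab b)⁻¹ • S.vx t (S.tgt b, 0)) 1 -
        Finsupp.single (S.vx t (S.src b, 0)) 1 := by
  rw [map_sub, d1_sh, hS.bd _ hx, hS.bd _ (img_nd h3 ht hx hg), vx_band h3 ht hx hg]
  simp only [map_sub, Finsupp.lmapDomain_apply, Finsupp.mapDomain_single]
  abel

lemma cyc (h3 : S.Cell) (ht : S.Ad t) (hS : S.Seg t Fr) (e : B × Bool) (he : S.En e) :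
    (S.cx t Fr).d1 (S.bdc t e) = 0 := by
  obtain ⟨r, hr, -, e1, e2⟩ := en_zero (S := S) e
  have hl := congrArg (S.cx t Fr).d1 (hS.link e he)
  rw [e1, e2, d1_band h3 ht hS (q_nd (q_src (hr.imp id Or.inl))) (Or.inr hr), map_sub,
    d1_band h3 ht hS (q_nd (q_src (Or.inr (Or.inr rfl)))) (Or.inl (Sys.al_mid ht he.1))] at hl
  exact sub_eq_self.1 hl.symm

lemma orb (h1 : S.Spc) (h2 : S.Lvs) (ht : S.Ad t) : ∃ X₀ : Set {x // S.Nd t ∅ x}, X₀.Finite ∧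
    ∀ x, ∃ x₀ ∈ X₀, Relation.EqvGen (S.Vr t) (1, x) (1, x₀) := by
  have hc : ∀ y : K × Set T, ∃ r, S.SpA y → r ∈ S.arc y.1 y.2 := fun y => by
    by_cases hy : S.SpA y
    · obtain ⟨r, hr⟩ := hy.1.2.nonempty
      exact ⟨r, fun _ => hr⟩
    · exact ⟨0, fun h => absurd h hy⟩
  choose c hc using hc
  refine ⟨Subtype.val ⁻¹' ({x | S.Nd t ∅ x ∧ ¬ S.Sp x} ∪ (fun y => (y.1, c y)) '' {y | S.SpA y}),
    ((h2.nd t ht ∅ finite_empty).union (h1.fin.image _)).preimage Subtype.val_injective.injOn,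
    fun x => ?_⟩
  by_cases hx : S.Sp x.1
  · obtain ⟨A, hA, hr⟩ := hx
    refine ⟨⟨(x.1.1, c (x.1.1, A)), Or.inl ⟨A, hA, hc _ hA⟩⟩, Or.inr ⟨(x.1.1, A), hA, rfl⟩, ?_⟩
    exact Relation.EqvGen.rel _ _ (Or.inr ⟨rfl, rfl, A, hA, hr, hc _ hA⟩)
  · exact ⟨x, Or.inl ⟨x.2, hx⟩, Relation.EqvGen.refl _⟩

lemma lc_of (h : S.Ok) (ht : S.Ad t) {a a' : G × {x // S.Nd t ∅ x}}
    (hv : Relation.EqvGen (S.Vr t) a a') :
    LC S.Ln (a.1 • S.ι a.2.1.1 a.2.1.2) (a'.1 • S.ι a'.2.1.1 a'.2.1.2) := by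
  induction hv with
  | rel x y hv =>
    rcases hv with ⟨b, e1, hg, e2, e3⟩ | ⟨e1, e2, A, hA, m1, m2⟩
    · have hb := Go.base h ht hg
      rw [e2, e3, e1]
      simp only [h.lab_eq b _ hb.1 hb.2, mul_smul, inv_smul_smul]
      exact Relation.EqvGen.refl _
    · rw [e1, e2]
      exact Relation.EqvGen.rel _ _ ⟨x.1 • A, h.tr.smul _ _ hA.1.1, smul_mem_smul_set m1.2,
        smul_mem_smul_set m2.2⟩
  | refl x => exact Relation.EqvGen.refl _
  | symm x y _ ih => exact Relation.EqvGen.symm _ _ ih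
  | trans x y z _ _ i1 i2 => exact Relation.EqvGen.trans _ _ _ i1 i2

lemma stab [Finite B] (hF : FgvStmt) (h : S.Ok) (h1 : S.Spc) (h2 : S.Lvs) (ht : S.Ad t)
    (v : S.Vx t) : (MulAction.stabilizer G v).FG ∧
      ∃ z : T, ∀ g ∈ MulAction.stabilizer G v, LC S.Ln z (g • z) := by
  obtain ⟨X₀, hX, hx⟩ := orb h1 h2 ht
  obtain ⟨g, x⟩ := v
  constructor
  · have h0 : (MulAction.stabilizer G (mk (1 : G) x)).FG := by
      refine hF G _ (S.Vr t) X₀ (insert 1 (range fun b => (S.lab b)⁻¹)) hX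
        ((finite_range _).insert _) ?_ ?_ hx x _ fun γ => ?_
      · rintro k g x g' x' (⟨b, e1, e2, e3, e4⟩ | ⟨e1, e2⟩)
        · exact Or.inl ⟨b, e1, e2, by simp only at e3 ⊢; rw [e3, mul_assoc], e4⟩
        · exact Or.inr ⟨by simp only at e1 ⊢; rw [e1], e2⟩
      · rintro a a' (⟨b, -, -, e3, -⟩ | ⟨e1, -⟩)
        · exact Or.inr ⟨b, by simp [e3]⟩
        · exact Or.inl (by simp [e1])
      · rw [MulAction.mem_stabilizer_iff, smul_mk, mul_one, eq_comm]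
        exact mk_iff
    have : mk g x = g • mk (1 : G) x := by
      rw [smul_mk, mul_one]
    change (MulAction.stabilizer G (mk g x)).FG
    rw [this, MulAction.stabilizer_smul_eq_stabilizer_map_conj]
    classical
    obtain ⟨F, hF⟩ := h0
    exact ⟨F.image _, by rw [Finset.coe_image, ← MonoidHom.map_closure, hF]⟩
  · refine ⟨g • S.ι x.1.1 x.1.2, fun γ hγ => ?_⟩
    have e : mk g x = mk (γ * g) x :=
      (MulAction.mem_stabilizer_iff.1 hγ).symm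
    have := lc_of h ht (mk_iff.1 e)
    rwa [mul_smul] at this

lemma gen (h : S.Ok) (h4 : S.Fm) (ht : S.Ad t) (hS : S.Seg t Fr) (hP : S.Pc t Fr)
    (R : Submodule ℂ (G × S.Fam t →₀ ℂ)) (u : G → K → (G × S.Fam t →₀ ℂ))
    (r1 : LinearMap.range (S.cx t Fr).d2 ≤ R) (r2 : ∀ g, ∀ ζ ∈ R, sh g ζ ∈ R)
    (r3 : ∀ g b, u g (S.src b) - u (g * (S.lab b)⁻¹) (S.tgt b) + sh g (S.vth t b) ∈ R)
    (ζ : G × S.Fam t →₀ ℂ) (hζ : (S.cx t Fr).d1 ζ = 0) : ζ ∈ R := by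
  let P : S.Vx t → (G × S.Fam t →₀ ℂ) ⧸ R :=
    Quot.lift (fun a => R.mkQ (u a.1 a.2.1.1 + sh a.1 (S.pc t a.2.1))) (by
      rintro ⟨g, ⟨k, r⟩, hx⟩ ⟨g', ⟨k', r'⟩, hx'⟩ (⟨b, e1, hg, e2, e3⟩ | ⟨e1, e2, A, hA, m1, m2⟩)
      · simp only at e1 hg e2 e3 ⊢
        subst e1 e2
        obtain ⟨rfl, rfl⟩ := Prod.mk.inj e3
        refine (Submodule.Quotient.eq R).2 ?_
        have := add_mem (r3 g b) (r2 g _ (r1 (pc_band h ht hS hP hx hg)))
        convert this using 1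
        simp only [map_sub, sh_sh]
        abel
      · simp only at e1 e2 hA m1 m2 ⊢
        subst e1 e2
        rw [hS.arc _ A r r' hA m1 m2])
  have hP' : ∀ g x, S.Nd t ∅ x → P (g • S.vx t x) = R.mkQ (u g x.1 + sh g (S.pc t x)) := by
    intro g x hx
    rw [← mk_eq g ⟨x, hx⟩]
    rfl
  have key : (Finsupp.linearCombination ℂ P).comp (S.cx t Fr).d1 = R.mkQ := by
    refine Finsupp.lhom_ext' fun y => LinearMap.ext_ring ?_
    have hs := (h4 t ht).span y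
    have n1 : S.Nd t ∅ ((S.rep t y.2).1, (S.rep t y.2).2 + S.hw t ∅ (S.rep t y.2)) := by
      simpa [St.sh, St.p, Sys.rs] using hs.hi
    have n2 : S.Nd t ∅ ((S.rep t y.2).1, (S.rep t y.2).2 - S.hw t ∅ (S.rep t y.2)) := by
      simpa [St.sh, St.p, Sys.rs, sub_eq_add_neg] using hs.lo
    simp only [LinearMap.comp_apply, Finsupp.lsingle_apply, d1_single, map_sub,
      Finsupp.linearCombination_single, one_smul]
    change P (y.1 • S.vx t _) - P (y.1 • S.vx t _) = _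
    rw [hP' _ _ n1, hP' _ _ n2, ← map_sub, add_sub_add_left_eq_sub, ← map_sub, hS.edge, sh_single,
      mul_one]
  have := LinearMap.congr_fun key ζ
  rw [LinearMap.comp_apply, hζ, map_zero] at this
  exact (Submodule.Quotient.mk_eq_zero R).1 this.symm

end KxP

variable {G T K B : Type} [Group G] [MetricSpace T] [MulAction G T] [Countable G] [Fintype K]
  [Fintype B] {S : Sys G T K B} {τ s : ℝ} {t : B × Bool → ℝ} {Fr : Set (B × Bool)}

open KxP in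
theorem kx (hF : FgvStmt) (h : S.Ok) (h1 : S.Spc) (h2 : S.Lvs) (h3 : S.Cell) (h4 : S.Fm)
    (ht : S.Ad t) (hS : S.Seg t Fr) (hK : (S.cx t Fr).Pm) (hM : (S.cx t Fr).M2)
    (hN : (S.cx t Fr).Na) (hP : S.Pc t Fr) :
    Out S (S.cx t Fr) (S.vx t) (S.pc t) (S.vth t) where
  ok := ⟨hK, fun f => cyc h3 ht hS f.1 f.2.1, hM, hN⟩
  fin := by
    obtain ⟨X₀, hX, hx⟩ := orb h1 h2 ht
    refine ⟨(hX.image fun x => mk (1 : G) x).toFinset, ?_⟩
    rintro ⟨g, x⟩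
    obtain ⟨x₀, m, e⟩ := hx x
    refine ⟨mk 1 x₀, (Finite.mem_toFinset _).2 ⟨x₀, m, rfl⟩, g, ?_⟩
    rw [← mk_iff.2 e, smul_mk, mul_one]
    rfl
  stab := stab hF h h1 h2 ht
  zero := hS.zero
  bd x hx := hS.bd x (q_nd hx)
  band b r p1 p2 hq := ⟨vx_band h3 ht (q_nd hq) (go_of_q ht p1 p2 hq),
    pc_band h ht hS hP (q_nd hq) (go_of_q ht p1 p2 hq)⟩
  gen := gen h h4 ht hS hP
  con := by
    rintro ⟨g, x⟩
    refine ⟨g, x.1.1, ?_⟩
    have := cn_smul (S.cx t Fr) g (hS.con x.1 x.2)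
    rwa [← mk_eq g x] at this
  con' x hx := hS.con x (q_nd hx)

end Pool.Agent.MP_494aff_an.Se
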