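import Mathlib
import Pool.Agent.MP_494aff_an.se.SpecH

/-! Twins stay joined when their end is narrowed fully. -/

set_option linter.unusedVariables false
set_option linter.unusedSectionVars false

open Set
open scoped Pointwise

namespace Pool.Agent.MP_494aff_an.Se

open Pool.Agent.MP_494aff_an.Pinch Pool.Agent.MP_494aff_an.Pinch.TowP Pool.Agent.MP_494aff_an.Lf

variable {G T K B : Type} [Group G] [MetricSpace T] [MulAction G T] [Countable G] [Fintype K]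
  [Fintype B] {S : Sys G T K B} {τ s : ℝ} {t : B × Bool → ℝ} {Fr : Set (B × Bool)}

namespace LiftP

open Sys

/-- the height over an end -/
noncomputable def ht (S : Sys G T K B) (e : B × Bool) (r : ℝ) : ℝ :=
  if e.2 then S.hi e.1 - r else r - S.lo e.1

open Classical in
/-- a new value at one end -/
noncomputable def tv (t : B × Bool → ℝ) (e : B × Bool) (v : ℝ) : B × Bool → ℝ :=
  fun e' => if e' = e then v else t e'

lemma tv_self (e : B × Bool) (v : ℝ) : tv t e v e = v := if_pos rfl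

lemma tv_ne {e e' : B × Bool} (h : e' ≠ e) (v : ℝ) : tv t e v e' = t e' := if_neg h

lemma tv_mono (e : B × Bool) {v v' : ℝ} (h : v ≤ v') (e' : B × Bool) :
    tv t e v e' ≤ tv t e v' e' := by
  by_cases k : e' = e
  · rw [k, tv_self, tv_self]; exact h
  · rw [tv_ne k, tv_ne k]

lemma tv_eq (e : B × Bool) : tv t e (t e) = t := by
  funext e'
  by_cases k : e' = e
  · rw [k, tv_self]
  · rw [tv_ne k]

lemma tv_adm (h : S.Adm τ t) {e : B × Bool} (he : S.En e) {v : ℝ} (h1 : t e ≤ v) (h2 : v ≤ τ) :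
    S.Adm τ (tv t e v) := by
  intro e'
  by_cases k : e' = e
  · rw [k, tv_self]
    exact ⟨fun _ => ⟨((h e).1 he).1.trans_le h1, h2⟩, fun k' => (k' he).elim⟩
  · rw [tv_ne k]
    exact h e'

lemma al_tv {e : B × Bool} {v : ℝ} (h1 : t e ≤ v) (b : B) (r : ℝ) :
    S.al (tv t e v) b r ↔ S.al t b r ∧ (b = e.1 → v ≤ ht S e r) := by
  by_cases k : b = e.1
  · subst k
    rcases e with ⟨b, _ | _⟩
    · simp only [al, ht, tv_self, tv_ne (show (b, true) ≠ (b, false) by simp), forall_true_left,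
        Bool.false_eq_true, if_false]
      exact ⟨fun h => ⟨⟨h.1, by linarith [h.2.1], h.2.2⟩, by linarith [h.2.1]⟩,
        fun h => ⟨h.1.1, by linarith [h.2], h.1.2.2⟩⟩
    · simp only [al, ht, tv_self, tv_ne (show (b, false) ≠ (b, true) by simp), forall_true_left,
        if_true]
      exact ⟨fun h => ⟨⟨h.1, h.2.1, by linarith [h.2.2]⟩, by linarith [h.2.2]⟩,
        fun h => ⟨h.1.1, h.1.2.1, by linarith [h.2]⟩⟩
  · have k1 : ∀ d, (b, d) ≠ e := fun d q => k (congrArg Prod.fst q)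
    simp only [al, tv_ne (k1 _), k, false_imp_iff, and_true]

lemma ht_up (g : G) (e : B × Bool) (ρ : ℝ) : ht S e (S.up g e ρ).r = ρ := by
  rcases e with ⟨b, _ | _⟩ <;> simp [ht, up]

lemma eq_up {e : B × Bool} {x : St G K} (h1 : x.k = S.src e.1) (h2 : x.U) :
    x = S.up x.g e (ht S e x.r) ∨ x = (S.up x.g e (ht S e x.r)).fl := by
  rcases e with ⟨b, _ | _⟩ <;> rcases h2 with h2 | h2
  · left; ext <;> simp [ht, up, h1, h2]
  · right; ext <;> simp [ht, up, St.fl, h1, h2]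
  · right; ext <;> simp [ht, up, St.fl, h1, h2]
  · left; ext <;> simp [ht, up, h1, h2]

lemma ht_sh (e : B × Bool) {x : St G K} (h2 : x.U) {d : ℝ} (hd : 0 ≤ d) :
    ht S e x.r - d ≤ ht S e (x.sh d).r := by
  rcases e with ⟨b, _ | _⟩ <;> rcases h2 with h2 | h2 <;> simp [ht, St.sh, h2] <;> linarith

lemma span_sh {Y : Set (K × ℝ)} {a : St G K} {m M d : ℝ} (h : S.Span t Y a m M) (h1 : m < d)
    (h2 : d < M) : S.Span t Y (a.sh d) (m - d) (M - d) := by
  refine ⟨by linarith, by linarith, ?_, ?_, fun s k1 k2 => ?_⟩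
  · rw [St.sh_sh, add_sub_cancel]; exact h.lo
  · rw [St.sh_sh, add_sub_cancel]; exact h.hi
  · rw [St.sh_sh]; exact h.reg _ (by linarith) (by linarith)

lemma top_nd {e : B × Bool} (he : S.En e) (g : G) : S.Nd t ∅ (S.up g e (t e)).p :=
  Or.inr ⟨⟨1, (S.up g e (t e)).k, (S.up g e (t e)).r, 1⟩, _, rfl, Cn.refl _, rfl,
    Or.inl (Or.inr ⟨e, false, he, rfl⟩)⟩

lemma exists_reg (h : S.Ok) (h2 : S.Lvs) (hτ : S.Sm τ) (hA : S.Adm τ t) {e : B × Bool}
    (he : S.En e) {x y : ℝ} (h0 : 0 ≤ x) (hxy : x < y) (h1 : y ≤ τ) :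
    ∃ r, x < r ∧ r < y ∧ S.Reg t ∅ (S.up 1 e r) := by
  have hf := (h2.nd t ⟨τ, hτ, hA⟩ ∅ finite_empty).preimage
    (f := fun r => (S.up 1 e r).p) (fun r _ r' _ q => by
      rw [← ht_up (S := S) 1 e r, ← ht_up (S := S) 1 e r']
      exact congrArg (fun z : K × ℝ => ht S e z.2) q)
  obtain ⟨r, r1, r2⟩ := (Ioo_infinite hxy).exists_notMem_finite hf
  have k0 : 0 < r := h0.trans_lt r1.1
  have k1 : r ≤ τ := r1.2.le.trans h1
  exact ⟨r, r1.1, r1.2, (val_en h hτ he.1 1 k0.le k1 false).1,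
    fun k => r2 ⟨k, (hτ.en e he r k0 k1 false).1⟩, up_U _ _ _⟩

lemma exists_gap {H : Set ℝ} (hH : H.Finite) (x : ℝ) :
    ∃ δ, 0 < δ ∧ ∀ y ∈ H, x - δ < y → y ≤ x + δ → y = x := by
  have h1 : ∀ᶠ y in nhds x, y ∉ H \ {x} :=
    (hH.subset sdiff_subset).isClosed.isOpen_compl.mem_nhds (fun k => k.2 rfl)
  obtain ⟨ε, ε0, h2⟩ := Metric.eventually_nhds_iff.1 h1
  refine ⟨ε / 2, by positivity, fun y hy k1 k2 => ?_⟩
  by_contra k
  exact h2 (by rw [Real.dist_eq, abs_lt]; exact ⟨by linarith, by linarith⟩) ⟨hy, k⟩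

/-- the heights of the leaf -/
def Hs (S : Sys G T K B) (t : B × Bool → ℝ) (e : B × Bool) (ρ : ℝ) : Set ℝ :=
  {y | ∃ c, S.Cf (S.al t) (S.up 1 e ρ) c ∧ c.k = S.src e.1 ∧ ht S e c.r = y}

variable {e : B × Bool} {ρ : ℝ}

lemma hs_fin (h2 : S.Lvs) (hd : S.Ad t) (hR : S.Reg t ∅ (S.up 1 e ρ)) : (Hs S t e ρ).Finite := by
  refine ((h2.g2 t hd _ hR.2.2 fun k => hR.2.1 (Or.inl k)).image fun c => ht S e c.r).subset ?_
  rintro _ ⟨c, k | k, -, rfl⟩
  · exact ⟨c, k, rfl⟩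
  · exact ⟨c.fl, k, rfl⟩

lemma cn_tv {v : ℝ} (h1 : t e ≤ v) {a a' : St G K} (h : S.Cn (S.al (tv t e v)) a a') :
    S.Cn (S.al t) a a' :=
  h.mono fun b r k => ((al_tv h1 b r).1 k).1

lemma skip {v v' : ℝ} (h1 : t e ≤ v) (h2 : v ≤ v') (hH : ∀ y ∈ Hs S t e ρ, v ≤ y → v' ≤ y)
    (hP : S.Tw (tv t e v) e ρ) : S.Tw (tv t e v') e ρ := by
  refine Cn.ind' (R := S.Cn (S.al (tv t e v'))) cn_equiv (fun x b k1 k2 k3 => ?_) (Cn.refl _) hP
  rw [al_tv h1] at k3
  refine Cn.move k2 ((al_tv (h1.trans h2) _ _).2 ⟨k3.1, fun k => ?_⟩)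
  exact hH _ ⟨x, Or.inl (cn_tv h1 k1), k ▸ k2, rfl⟩ (k3.2 k)

lemma step (h : S.Ok) (h1 : S.Spc) (h2 : S.Lvs) (h3 : S.Cell) (hτ : S.Sm τ) (hV : S.Conv τ)
    (hA : S.Adm τ t) (he : S.En e) (r0 : 0 < ρ) (r1 : ρ < t e) (hR : S.Reg t ∅ (S.up 1 e ρ))
    {y : ℝ} (hy : y ∈ Hs S t e ρ) (y1 : t e ≤ y) (y2 : y < τ) (hP : S.Tw (tv t e y) e ρ) :
    ∃ y', y < y' ∧ y' ≤ τ ∧ S.Tw (tv t e y') e ρ := by
  have hd : S.Ad t := ⟨τ, hτ, hA⟩
  have hC := h3 t hd ∅ finite_empty (by simp)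
  obtain ⟨g, c1, c2⟩ : ∃ g, S.Cf (S.al t) (S.up 1 e ρ) (S.up g e y) ∧ S.Reg t ∅ (S.up g e y) := by
    obtain ⟨c, k1, k2, rfl⟩ := hy
    have k3 : S.Reg t ∅ c := by
      rcases k1 with k | k
      · exact hC.reg _ _ k hR
      · have := hC.reg _ _ k hR
        exact ⟨this.1, this.2.1, by simpa using this.2.2.fl⟩
    refine ⟨c.g, ?_⟩
    rcases eq_up k2 k3.2.2 with k | k
    · rw [← k]; exact ⟨k1, k3⟩
    · have k' : S.up c.g e (ht S e c.r) = c.fl := by
        rw [← St.fl_fl (S.up c.g e (ht S e c.r)), ← k]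
      rw [k']
      exact ⟨k1.trans (cf_fl c), k3.1, k3.2.1, k3.2.2.fl⟩
  obtain ⟨m, M, hS⟩ := hC.ex _ c2
  have m0 := hS.neg
  have M0 := hS.pos
  have m1 : t e ≤ y + m := by
    by_contra k
    have := (hS.reg (t e - y) (by linarith) (by linarith)).2.1
    rw [up_sh, add_sub_cancel] at this
    exact this (top_nd he g)
  obtain ⟨δ₀, d0, d1⟩ := exists_gap (hs_fin h2 hd hR) y
  obtain ⟨δ, e0, e1, e2, e3⟩ : ∃ δ, 0 < δ ∧ δ ≤ δ₀ ∧ δ ≤ -m ∧ δ ≤ τ - y :=
    ⟨min δ₀ (min (-m) (τ - y)), lt_min d0 (lt_min (by linarith) (by linarith)), min_le_left _ _,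
      (min_le_right _ _).trans (min_le_left _ _), (min_le_right _ _).trans (min_le_right _ _)⟩
  have v1 : t e ≤ y - δ / 4 := by linarith
  have hA' := tv_adm hA he v1 (by linarith)
  obtain ⟨r, q1, q2, q3⟩ := exists_reg h h2 hτ hA' he (x := y - δ / 2) (y := y - δ / 4)
    (by linarith) (by linarith) (by linarith)
  have w1 : S.Tw (tv t e (y - δ / 4)) e r := hV _ hA' e ρ r he r0 (by linarith)
    (by rw [tv_self]; exact q2) (Cn.mono (al_mono (tv_mono e (by linarith))) hP) q3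
  have w2 := Cn.sm g w1
  rw [en_sm, en_sm, mul_one] at w2
  have s1 := span_sh hS (d := r - y) (by linarith) (by linarith)
  rw [up_sh, add_sub_cancel] at s1
  have y3 : t e ≤ y + δ := by linarith
  have w3 := Cn.shift (al' := S.al (tv t e (y + δ))) (s := y - r) w2 fun c b k1 k2 k3 => by
    rw [al_tv v1] at k3
    have k4 : S.Cn (S.al t) (S.up g e r) c := cn_tv v1 k1
    obtain ⟨k5, k6⟩ := hC.tr _ _ _ _ k4 s1
    have k7 := k6 (y - r) (by linarith) (by linarith)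
    rw [up_sh, add_sub_cancel] at k7
    refine (al_tv y3 _ _).2 ⟨hC.allow c _ _ b 0 k5 k2 k5.neg k5.pos (by simpa using k3.1) _
      (by linarith) (by linarith), fun k => ?_⟩
    have cU : c.U := (k4.U h).1 (up_U _ _ _)
    have k8 := ht_sh (S := S) e cU (d := y - r) (by linarith)
    have k9 := k3.2 k
    have k10 : (c.sh (y - r)).k = S.src e.1 := k ▸ k2
    by_contra k11
    have k12 := d1 _ ⟨c.sh (y - r), c1.trans (Or.inl k7), k10, rfl⟩ (by linarith) (by linarith)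
    have nS : ¬ S.Sp (S.up g e y).p := fun k => c2.2.1 (Or.inl k)
    have k13 : c.sh (y - r) = S.up g e y := by
      refine h1.g1 _ _ c2.2.2 nS (h2.opn t hd _ _ k7 nS) ?_
      rcases eq_up k10 (cU.sh _) with k | k <;> rw [k, k12] <;> rfl
    have k14 : c = S.up g e r := by
      have := congrArg (fun z => St.sh z (r - y)) k13
      simpa only [St.sh_sh, up_sh, add_sub_cancel, sub_add_sub_cancel, sub_self, St.sh_zero]
        using this
    rw [k14, ht_up] at k9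
    linarith
  rw [en_sh, en_sh, add_sub_cancel] at w3
  have w4 : ∀ g', S.Cn (S.al (tv t e (y + δ))) (S.up g' e y) (S.im e.1 (S.up g' e y)) := by
    intro g'
    have := Cn.sm (g' * g⁻¹) w3
    rwa [en_sm, en_sm, inv_mul_cancel_right] at this
  refine ⟨y + δ, by linarith, by linarith, ?_⟩
  refine Cn.ind' (R := S.Cn (S.al (tv t e (y + δ)))) cn_equiv (fun x b k1 k2 k3 => ?_)
    (Cn.refl _) hP
  rw [al_tv y1] at k3
  by_cases k4 : b = e.1 ∧ ht S e x.r = y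
  · obtain ⟨rfl, k5⟩ := k4
    rcases eq_up k2 ((k1.U h).1 (up_U _ _ _)) with k | k
    · rw [k, k5]; exact w4 _
    · rw [k, k5, ← im_fl]; exact (w4 _).fl
  · refine Cn.move k2 ((al_tv y3 _ _).2 ⟨k3.1, fun k => ?_⟩)
    have k5 := k3.2 k
    by_contra k6
    exact k4 ⟨k, d1 _ ⟨x, Or.inl (cn_tv y1 k1), k ▸ k2, rfl⟩ (by linarith) (by linarith)⟩

end LiftP

open LiftP in
theorem lift (h : S.Ok) (h1 : S.Spc) (h2 : S.Lvs) (h3 : S.Cell) (hτ : S.Sm τ)
    (hV : S.Conv τ) : S.Lift τ := by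
  classical
  intro t t' e ρ hA he t1 t2 r0 r1 hR hT
  have hF := hs_fin h2 ⟨τ, hτ, hA⟩ hR
  have key : ∀ n : ℕ, ∀ v, t e ≤ v → v ≤ τ →
      (hF.toFinset.filter fun y => v ≤ y ∧ y < τ).card < n → S.Tw (tv t e v) e ρ →
      S.Tw (tv t e τ) e ρ := by
    intro n
    induction n with
    | zero => exact fun v _ _ k => (Nat.not_lt_zero _ k).elim
    | succ n ih =>
      intro v v1 v2 hc hP
      rcases (hF.toFinset.filter fun y => v ≤ y ∧ y < τ).eq_empty_or_nonempty with k | k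
      · refine skip v1 v2 (fun y hy k1 => not_lt.1 fun k2 => ?_) hP
        exact Finset.notMem_empty y (k ▸ Finset.mem_filter.2 ⟨hF.mem_toFinset.2 hy, k1, k2⟩)
      · obtain ⟨y, y1, y2⟩ := Finset.exists_min_image _ id k
        obtain ⟨y3, y4, y5⟩ := Finset.mem_filter.1 y1
        have P1 := skip v1 y4 (fun z hz k1 => by
          rcases lt_or_ge z τ with k2 | k2
          · exact y2 z (Finset.mem_filter.2 ⟨hF.mem_toFinset.2 hz, k1, k2⟩)
          · exact y5.le.trans k2) hP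
        obtain ⟨y', p1, p2, p3⟩ := step h h1 h2 h3 hτ hV hA he r0 r1 hR (hF.mem_toFinset.1 y3)
          (v1.trans y4) y5 P1
        refine ih y' (by linarith) p2 (lt_of_lt_of_le (Finset.card_lt_card ⟨fun z hz => ?_,
          fun hz => ?_⟩) (Nat.lt_succ_iff.1 hc)) p3
        · obtain ⟨z1, z2, z3⟩ := Finset.mem_filter.1 hz
          exact Finset.mem_filter.2 ⟨z1, by linarith, z3⟩
        · exact absurd (Finset.mem_filter.1 (hz y1)).2.1 (not_le.2 p1)
  have e1 : t' = tv t e τ := by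
    funext e'
    by_cases k : e' = e
    · rw [k, tv_self, t1]
    · rw [tv_ne k, t2 e' k]
  rw [e1]
  exact key _ (t e) le_rfl ((hA e).1 he).2 (Nat.lt_succ_self _) (by rw [tv_eq]; exact hT)

end Pool.Agent.MP_494aff_an.Se
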