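import Mathlib
import Pool.Agent.MP_494aff_an.se.SpecH

/-! Leaves of the narrowed systems. -/

set_option linter.unusedVariables false
set_option linter.unusedSectionVars false

open Set
open scoped Pointwise

namespace Pool.Agent.MP_494aff_an.Se

open Pool.Agent.MP_494aff_an.Pinch Pool.Agent.MP_494aff_an.Pinch.TowP Pool.Agent.MP_494aff_an.Lf

variable {G T K B : Type} [Group G] [MetricSpace T] [MulAction G T] [Countable G] [Fintype K]
  [Fintype B] {S : Sys G T K B} {τ s : ℝ} {t : B × Bool → ℝ} {Fr : Set (B × Bool)}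

namespace LvsP

open Sys

lemma pos_min {ι : Type} (X : Set ι) (hX : X.Finite) (f : ι → ℝ) (hf : ∀ i ∈ X, 0 < f i) :
    ∃ η, 0 < η ∧ ∀ i ∈ X, η ≤ f i := by
  rcases X.eq_empty_or_nonempty with rfl | hne
  · exact ⟨1, one_pos, fun i hi => hi.elim⟩
  · obtain ⟨i, hi, hm⟩ := exists_min_image X f hX hne
    exact ⟨f i, hf i hi, hm⟩

lemma finite_Q : {x | S.Q x}.Finite := by
  have h1 : (range fun k : K => (k, (0 : ℝ))).Finite := finite_range _
  have h2 : (range fun k : K => (k, S.len k)).Finite := finite_range _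
  have h3 : (⋃ b : B, ⋃ r ∈ ({S.lo b, S.hi b, S.mid b} : Set ℝ),
      ({(S.src b, r), (S.tgt b, S.mv b r)} : Set (K × ℝ))).Finite :=
    finite_iUnion fun b => (toFinite _).biUnion fun r _ => toFinite _
  refine ((h1.union h2).union h3).subset ?_
  rintro ⟨k, r⟩ (h | h | ⟨b, r', h, h'⟩)
  · exact Or.inl (Or.inl ⟨k, Prod.ext rfl h.symm⟩)
  · exact Or.inl (Or.inr ⟨k, Prod.ext rfl h.symm⟩)
  · exact Or.inr (mem_iUnion.2 ⟨b, mem_iUnion₂.2 ⟨r', h, h'⟩⟩)

/-- A finite set of positions that contains the marked points and the ends of special arcs. -/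
lemma exists_Z (h1 : S.Spc) : ∃ Z : Set ℝ, Z.Finite ∧ (∀ x, S.Q x → x.2 ∈ Z) ∧
    ∀ k A, S.SpA (k, A) → ∃ r ∈ Z, ∃ r' ∈ Z, S.arc k A = Icc r r' := by
  refine ⟨Prod.snd '' {x | S.Q x} ∪ ((fun x : K × Set T => sInf (S.arc x.1 x.2)) '' {x | S.SpA x} ∪
    (fun x : K × Set T => sSup (S.arc x.1 x.2)) '' {x | S.SpA x}),
    (finite_Q.image _).union ((h1.fin.image _).union (h1.fin.image _)),
    fun x hx => Or.inl ⟨x, hx, rfl⟩, fun k A hA => ?_⟩
  obtain ⟨r, r', hr, e⟩ := h1.icc k A hA.1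
  refine ⟨r, Or.inr (Or.inl ⟨(k, A), hA, ?_⟩), r', Or.inr (Or.inr ⟨(k, A), hA, ?_⟩), e⟩
  · simp only [e, csInf_Icc hr.le]
  · simp only [e, csSup_Icc hr.le]

lemma q_lo (b : B) : S.Q (S.src b, S.lo b) := Or.inr (Or.inr ⟨b, _, Or.inl rfl, Or.inl rfl⟩)

lemma q_hi (b : B) : S.Q (S.src b, S.hi b) :=
  Or.inr (Or.inr ⟨b, _, Or.inr (Or.inl rfl), Or.inl rfl⟩)

lemma q_lo' (b : B) : S.Q (S.tgt b, S.mv b (S.lo b)) :=
  Or.inr (Or.inr ⟨b, _, Or.inl rfl, Or.inr rfl⟩)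

lemma q_hi' (b : B) : S.Q (S.tgt b, S.mv b (S.hi b)) :=
  Or.inr (Or.inr ⟨b, _, Or.inr (Or.inl rfl), Or.inr rfl⟩)

lemma sm (h : S.Ok) (h1 : S.Spc) : ∃ τ, S.Sm τ := by
  obtain ⟨Z, hZ, hQ, hA⟩ := exists_Z h1
  obtain ⟨η, hη, hd⟩ := pos_min {x : ℝ × ℝ | x ∈ Z ×ˢ Z ∧ x.1 < x.2}
    ((hZ.prod hZ).subset fun x hx => hx.1) (fun x => x.2 - x.1) fun x hx => sub_pos.2 hx.2
  have gap : ∀ z ∈ Z, ∀ z' ∈ Z, z < z' → η ≤ z' - z := fun z hz z' hz' hlt =>
    hd (z, z') ⟨⟨hz, hz'⟩, hlt⟩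
  have hle : ∀ b, S.lo b < S.hi b → 3 * (η / 3) ≤ S.hi b - S.lo b := fun b hb => by
    have := gap _ (hQ _ (q_lo b)) _ (hQ _ (q_hi b)) hb
    linarith
  have key : ∀ (e : B × Bool) A ρ, S.SpA (S.src e.1, A) → 0 < ρ → ρ ≤ η / 3 →
      (S.up 1 e ρ).r ∈ S.arc (S.src e.1) A →
      ∀ ρ', 0 ≤ ρ' → ρ' ≤ η / 3 → (S.up 1 e ρ').r ∈ S.arc (S.src e.1) A := by
    rintro ⟨b, d⟩ A ρ hs h0 hρ hm ρ' h0' hρ'
    obtain ⟨r, hr, r', hr', e⟩ := hA _ _ hs
    rw [e] at hm ⊢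
    have g1 := gap _ (hQ _ (q_lo b)) _ hr
    have g2 := gap _ (hQ _ (q_lo b)) _ hr'
    have g3 := gap _ hr _ (hQ _ (q_hi b))
    have g4 := gap _ hr' _ (hQ _ (q_hi b))
    cases d
    · simp only [up, Bool.false_eq_true, if_false, mem_Icc] at hm ⊢ g1 g2
      constructor
      · by_contra hc
        have := g1 (by linarith)
        linarith [hm.1]
      · have := g2 (by linarith [hm.2])
        linarith
    · simp only [up, if_true, mem_Icc] at hm ⊢ g3 g4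
      constructor
      · have := g3 (by linarith [hm.1])
        linarith
      · by_contra hc
        have := g4 (by linarith)
        linarith [hm.2]
  have hf : ∀ e, S.En e → ∀ ρ, 0 < ρ → ρ ≤ η / 3 → ¬ S.Sp (S.up 1 e ρ).p := by
    rintro e ⟨-, δ, hδ, he⟩ ρ h0 hρ ⟨A, hs, hm⟩
    have h2 : 0 < min ρ (δ / 2) := lt_min h0 (half_pos hδ)
    exact he (min ρ (δ / 2)) h2 ((min_le_right _ _).trans_lt (half_lt_self hδ))
      ⟨A, hs, key e A ρ hs h0 hρ hm _ h2.le ((min_le_left _ _).trans hρ)⟩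
  refine ⟨η / 3, by positivity, hle, fun e he ρ h0 hρ d => ⟨?_, fun hq => ?_⟩, fun e he hn => ?_⟩
  · cases d
    · exact hf e he ρ h0 hρ
    · rintro ⟨A, hs, hm⟩
      have ho : S.opn e.1 (S.up 1 e ρ).r := by
        have := hle e.1 he.1
        rcases e with ⟨b, _ | _⟩ <;> refine ⟨?_, ?_⟩ <;> simp [up] at * <;> linarith
      exact hf e he ρ h0 hρ ⟨_, h1.bwd e.1 _ A ho hs hm⟩
  · have hz := hQ _ hq
    rcases e with ⟨b, _ | _⟩ <;> cases d
    · have := gap _ (hQ _ (q_lo b)) _ hz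
      simp only [en, up, St.p, Bool.false_eq_true, if_false] at this
      linarith [this (by linarith)]
    · have a1 := gap _ (hQ _ (q_lo' b)) _ hz
      have a2 := gap _ hz _ (hQ _ (q_lo' b))
      simp only [en, up, im, mv, St.p, Bool.false_eq_true, if_false] at a1 a2
      rcases h.sg_eq b with e | e <;> rw [e] at a1 a2
      · linarith [a1 (by linarith)]
      · linarith [a2 (by linarith)]
    · have := gap _ hz _ (hQ _ (q_hi b))
      simp only [en, up, St.p, if_true] at this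
      linarith [this (by linarith)]
    · have a1 := gap _ (hQ _ (q_hi' b)) _ hz
      have a2 := gap _ hz _ (hQ _ (q_hi' b))
      simp only [en, up, im, mv, St.p, if_true] at a1 a2
      rcases h.sg_eq b with e | e <;> rw [e] at a1 a2
      · linarith [a2 (by linarith)]
      · linarith [a1 (by linarith)]
  · have : ∃ ρ, 0 < ρ ∧ ρ < η / 3 ∧ S.Sp (S.up 1 e ρ).p := by
      by_contra hc
      exact hn ⟨he, η / 3, by positivity, fun ρ a1 a2 a3 => hc ⟨ρ, a1, a2, a3⟩⟩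
    obtain ⟨ρ, a1, a2, A, hs, hm⟩ := this
    exact ⟨A, hs, key e A ρ hs a1 a2.le hm⟩

/-- Near an end that is not narrowed both sides of the band are special. -/
lemma sp_end (h : S.Ok) (h1 : S.Spc) (hτ : S.Sm τ) {e : B × Bool} (he : S.lo e.1 < S.hi e.1)
    (hn : ¬ S.En e) {ρ : ℝ} (h0 : 0 ≤ ρ) (hρ : ρ ≤ τ) :
    S.Sp (S.src e.1, (S.up 1 e ρ).r) ∧ S.Sp (S.tgt e.1, S.mv e.1 (S.up 1 e ρ).r) := by
  obtain ⟨A, hs, hm⟩ := hτ.sp e he hn
  have hb : S.lo e.1 ≤ (S.up 1 e ρ).r ∧ (S.up 1 e ρ).r ≤ S.hi e.1 := by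
    have := hτ.le e.1 he
    have := hτ.pos
    rcases e with ⟨b, _ | _⟩ <;> refine ⟨?_, ?_⟩ <;> simp [up] at * <;> linarith
  refine ⟨⟨A, hs, hm ρ h0 hρ⟩, S.lab e.1 • A,
    (h1.fwd e.1 _ A (opn_up hτ he 1 hτ.pos le_rfl) hs (hm τ hτ.pos.le le_rfl)).1,
    h.img _ _ hb.1 hb.2, ?_⟩
  show S.ι _ _ ∈ _
  rw [h.lab_eq _ _ hb.1 hb.2]
  exact smul_mem_smul_set (hm ρ h0 hρ).2

/-- An allowed move is far from the ends or both its sides are special. -/
lemma far (h : S.Ok) (h1 : S.Spc) (ht : S.Ad t) : ∃ η, 0 < η ∧ ∀ b r, S.al t b r →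
    (S.lo b + η ≤ r ∧ r ≤ S.hi b - η) ∨ (S.Sp (S.src b, r) ∧ S.Sp (S.tgt b, S.mv b r)) := by
  have hb := fun b r => al_base (b := b) (r := r) ht
  obtain ⟨τ, hτ, ha⟩ := ht
  obtain ⟨η, hη, hm⟩ := pos_min {e | S.En e} (toFinite _) t fun e he => ((ha e).1 he).1
  refine ⟨min η τ, lt_min hη hτ.pos, fun b r hal => ?_⟩
  have m1 := min_le_left η τ
  have m2 := min_le_right η τ
  obtain ⟨b1, b2⟩ := hb b r hal
  by_cases c1 : S.lo b + min η τ ≤ r
  · by_cases c2 : r ≤ S.hi b - min η τ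
    · exact Or.inl ⟨c1, c2⟩
    · have hn : ¬ S.En (b, true) := fun he => c2 (by linarith [hm _ he, hal.2.2])
      have := sp_end h h1 hτ (e := (b, true)) hal.1 hn (ρ := S.hi b - r) (by linarith)
        (by linarith)
      simp only [up, if_true, sub_sub_cancel] at this
      exact Or.inr this
  · have hn : ¬ S.En (b, false) := fun he => c1 (by linarith [hm _ he, hal.2.1])
    have := sp_end h h1 hτ (e := (b, false)) hal.1 hn (ρ := r - S.lo b) (by linarith)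
      (by linarith)
    simp only [up, Bool.false_eq_true, if_false, add_sub_cancel] at this
    exact Or.inr this

lemma sp (h : S.Ok) (h1 : S.Spc) (ht : S.Ad t) {a a' : St G K} (hc : S.Cn (S.al t) a a') :
    S.Sp a.p ↔ S.Sp a'.p := by
  obtain ⟨η, hη, hf⟩ := far h h1 ht
  refine Cn.ind (R := fun x y => S.Sp x.p ↔ S.Sp y.p) ⟨fun _ => Iff.rfl, Iff.symm, Iff.trans⟩
    (fun x b e hal => ?_) hc
  show S.Sp (x.k, x.r) ↔ S.Sp (S.tgt b, S.mv b x.r)
  rw [e]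
  rcases hf b _ hal with c | c
  · have ho : S.opn b x.r := ⟨by linarith [c.1], by linarith [c.2]⟩
    exact ⟨fun ⟨A, hs, hm⟩ => ⟨_, h1.fwd b _ A ho hs hm⟩,
      fun ⟨A, hs, hm⟩ => ⟨_, h1.bwd b _ A ho hs hm⟩⟩
  · exact iff_of_true c.1 c.2

lemma opn (h : S.Ok) (h1 : S.Spc) (ht : S.Ad t) {a a' : St G K} (hc : S.Cn (S.al t) a a')
    (hn : ¬ S.Sp a.p) : S.Cn S.opn a a' := by
  obtain ⟨η, hη, hf⟩ := far h h1 ht
  refine Cn.ind' cn_equiv (fun x b hx e hal => Cn.move e ?_) (Cn.refl a) hc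
  rcases hf b _ hal with c | c
  · exact ⟨by linarith [c.1], by linarith [c.2]⟩
  · exact (hn ((sp h h1 ht hx).2 (by rw [← e] at c; exact c.1))).elim

/-- Different states of a leaf of non special points agree on a segment of fixed length. -/
lemma thick (h : S.Ok) (h1 : S.Spc) (ht : S.Ad t) : ∃ η, 0 < η ∧ ∀ c c' : St G K, c.U →
    ¬ S.Sp c.p → S.Cn (S.al t) c c' → c ≠ c' → ∀ s, |s| ≤ η →
      S.Val (c.sh s).p ∧ S.Val (c'.sh s).p ∧ S.pt (c.sh s) = S.pt (c'.sh s) := by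
  obtain ⟨η, hη, hf⟩ := far h h1 ht
  refine ⟨η, hη, fun c c' hU hn hc hne => ?_⟩
  refine (Cn.ind' (R := fun x y => x = y ∨ ∀ s, |s| ≤ η →
    S.Val (x.sh s).p ∧ S.Val (y.sh s).p ∧ S.pt (x.sh s) = S.pt (y.sh s)) ⟨?_, ?_, ?_⟩
    (fun x b hx e hal => Or.inr fun s hs => ?_) (Cn.refl c) hc).resolve_left hne
  · exact fun _ => Or.inl rfl
  · rintro x y (e | e)
    · exact Or.inl e.symm
    · exact Or.inr fun s hs => ⟨(e s hs).2.1, (e s hs).1, (e s hs).2.2.symm⟩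
  · rintro x y z (rfl | e) e'
    · exact e'
    · rcases e' with rfl | e'
      · exact Or.inr e
      · exact Or.inr fun s hs => ⟨(e s hs).1, (e' s hs).2.1, (e s hs).2.2.trans (e' s hs).2.2⟩
  · have hxU : x.U := (Cn.U h hx).1 hU
    have hb : S.lo b ≤ (x.sh s).r ∧ (x.sh s).r ≤ S.hi b := by
      rcases hf b _ hal with d | d
      · have := abs_le.1 hs
        rcases hxU with u | u <;> simp only [St.sh, u] <;> constructor <;>
          linarith [d.1, d.2, this.1, this.2]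
      · exact (hn ((sp h h1 ht hx).2 (by rw [← e] at d; exact d.1))).elim
    rw [im_sh]
    refine ⟨?_, h.img b _ hb.1 hb.2, (pt_im h (a := x.sh s) e hb.1 hb.2).symm⟩
    have := val_src h hb.1 hb.2
    rwa [← e] at this

lemma g2 (h : S.Ok) (h1 : S.Spc) (ht : S.Ad t) {a : St G K} (hU : a.U) (hn : ¬ S.Sp a.p) :
    {a' | S.Cn (S.al t) a a'}.Finite := by
  obtain ⟨η, hη, hth⟩ := thick h h1 ht
  have hU' : ∀ c, S.Cn (S.al t) a c → c.U := fun c hc => (Cn.U h hc).1 hU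
  have hn' : ∀ c, S.Cn (S.al t) a c → ¬ S.Sp c.p := fun c hc hs => hn ((sp h h1 ht hc).2 hs)
  have part : ∀ (k : K) (σ : ℝ), σ = 1 ∨ σ = -1 →
      {c | S.Cn (S.al t) a c ∧ c.k = k ∧ c.σ = σ}.Finite := by
    intro k σ hσ
    by_contra hinf
    set L := {c | S.Cn (S.al t) a c ∧ c.k = k ∧ c.σ = σ} with hL
    have hinj : InjOn St.r L := fun c hc c' hc' e =>
      (h1.g1 c c' (hU' c hc.1) (hn' c hc.1) (opn h h1 ht (hc.1.symm.trans hc'.1) (hn' c hc.1))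
        (Prod.ext (hc'.2.1.trans hc.2.1.symm) e.symm)).symm
    have hI : (St.r '' L).Infinite := fun hf => hinf (hf.of_finite_image hinj)
    have hsub : St.r '' L ⊆ Icc 0 (S.len k) := by
      rintro _ ⟨c, hc, rfl⟩
      obtain ⟨c', hc', hne⟩ := (Infinite.nontrivial hinf).exists_ne c
      have := (hth c c' (hU' c hc.1) (hn' c hc.1) (hc.1.symm.trans hc'.1) hne.symm 0
        (by simpa using hη.le)).1
      rw [St.sh_zero, ← hc.2.1] at *
      exact this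
    obtain ⟨y, -, hy⟩ := hI.exists_accPt_of_subset_isCompact isCompact_Icc hsub
    have near : ∀ ε, 0 < ε → ∃ c ∈ L, |c.r - y| < ε ∧ c.r ≠ y := fun ε hε => by
      obtain ⟨_, ⟨h2, c, hc, rfl⟩, h3⟩ := accPt_iff_nhds.1 hy _ (Metric.ball_mem_nhds y hε)
      exact ⟨c, hc, by rwa [Metric.mem_ball, Real.dist_eq] at h2, h3⟩
    have pair : ∀ ε, 0 < ε → ε ≤ η / 4 → ∃ c ∈ L, ∃ c' ∈ L, |c.r - y| < ε ∧ c'.g⁻¹ * c.g ≠ 1 ∧
        ∀ x, |x - y| ≤ η / 2 → S.Val (k, x) ∧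
          dist (S.ι k x) ((c'.g⁻¹ * c.g) • S.ι k x) < 2 * ε := fun ε hε hε' => by
      obtain ⟨c, hc, a1, a2⟩ := near ε hε
      obtain ⟨c', hc', a3, -⟩ := near _ (abs_pos.2 (sub_ne_zero.2 a2))
      have hne : c.r ≠ c'.r := fun e => by
        rw [e] at a3
        exact lt_irrefl _ a3
      have main : ∀ x, |x - y| ≤ η / 2 → S.Val (k, x) ∧
          dist (S.ι k x) ((c'.g⁻¹ * c.g) • S.ι k x) = |c.r - c'.r| := fun x hx => by
        have hs : |σ * (x - c.r)| ≤ η := by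
          have b1 := abs_sub_le x y c.r
          rw [abs_sub_comm y c.r] at b1
          have b2 : |σ| = 1 := by rcases hσ with u | u <;> simp [u]
          rw [abs_mul, b2, one_mul]
          linarith
        obtain ⟨v1, v2, v3⟩ := hth c c' (hU' c hc.1) (hn' c hc.1) (hc.1.symm.trans hc'.1)
          (fun e => hne (by rw [e])) _ hs
        have e0 : σ * σ = 1 := by rcases hσ with u | u <;> simp [u]
        have e1 : c.r + σ * (σ * (x - c.r)) = x := by rw [← mul_assoc, e0]; ring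
        have e2 : c'.r + σ * (σ * (x - c.r)) = x - (c.r - c'.r) := by rw [← mul_assoc, e0]; ring
        simp only [St.sh, St.p, Sys.pt, hc.2.1, hc.2.2, hc'.2.1, hc'.2.2, e1, e2] at v1 v2 v3
        refine ⟨v1, ?_⟩
        rw [mul_smul, v3, inv_smul_smul, h.iso k _ _ v1 v2, sub_sub_cancel]
      refine ⟨c, hc, c', hc', a1, fun e => ?_, fun x hx => ⟨(main x hx).1, ?_⟩⟩
      · have := (main y (by simpa using (half_pos hη).le)).2
        rw [e, one_smul, dist_self] at this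
        exact hne (sub_eq_zero.1 (abs_eq_zero.1 this.symm))
      · have b1 := abs_sub_le c.r y c'.r
        rw [abs_sub_comm y c'.r] at b1
        rw [(main x hx).2]
        linarith
    have x1 : |y - η / 2 - y| ≤ η / 2 := by rw [abs_le]; constructor <;> linarith
    have x2 : |y + η / 2 - y| ≤ η / 2 := by rw [abs_le]; constructor <;> linarith
    obtain ⟨c, hc, c', hc', a1, a2, a3⟩ := pair (η / 40) (by positivity) (by linarith)
    have hd : dist (S.ι k (y - η / 2)) (S.ι k (y + η / 2)) = η := by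
      rw [h.iso k _ _ (a3 _ x1).1 (a3 _ x2).1, abs_sub_comm, abs_of_pos (by linarith)]
      ring
    obtain ⟨A, hA, hp, hq, hst⟩ := h.tr.small (S.ι k (y - η / 2)) (S.ι k (y + η / 2))
      (fun e => by rw [e, dist_self] at hd; linarith) fun ε hε => by
        obtain ⟨d, -, d', -, -, b2, b3⟩ := pair (min (ε / 2) (η / 4))
          (lt_min (half_pos hε) (by positivity)) (min_le_right _ _)
        have := min_le_left (ε / 2) (η / 4)
        exact ⟨_, b2, by linarith [(b3 _ x1).2], by linarith [(b3 _ x2).2]⟩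
    have b1 := abs_lt.1 a1
    have vc := (a3 c.r (by linarith)).1
    have hm : c.r ∈ S.arc k A := by
      refine ⟨vc, h.tr.convex A hA _ hp _ hq _ ?_⟩
      rw [hd, h.iso k _ _ (a3 _ x1).1 vc, h.iso k _ _ vc (a3 _ x2).1,
        abs_of_neg (by linarith), abs_of_neg (by linarith)]
      ring
    have harc : S.IsArc (k, A) :=
      ⟨hA, y - η / 2, ⟨(a3 _ x1).1, hp⟩, y + η / 2, ⟨(a3 _ x2).1, hq⟩, by linarith⟩
    have := h1.ns c c' A (hU' c hc.1) (hn' c hc.1)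
      (opn h h1 ht (hc.1.symm.trans hc'.1) (hn' c hc.1)) (hc'.2.1.trans hc.2.1.symm)
      (by rw [hc.2.1]; exact harc) (by rw [hc.2.1]; exact hm)
      (hst _ (by rw [hd]; linarith [(a3 _ x1).2]) (by rw [hd]; linarith [(a3 _ x2).2]))
    exact a2 (by rw [this, inv_mul_cancel])
  refine (finite_iUnion fun k : K =>
    (part k 1 (Or.inl rfl)).union (part k (-1) (Or.inr rfl))).subset fun c hc => ?_
  exact mem_iUnion.2 ⟨c.k, (hU' c hc).imp (fun u => ⟨hc, rfl, u⟩) fun u => ⟨hc, rfl, u⟩⟩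

lemma nd (h : S.Ok) (h1 : S.Spc) (ht : S.Ad t) {Y : Set (K × ℝ)} (hY : Y.Finite) :
    {x | S.Nd t Y x ∧ ¬ S.Sp x}.Finite := by
  have hM : {x | (S.Mk t x ∨ x ∈ Y) ∧ ¬ S.Sp x}.Finite := by
    refine (((finite_Q (S := S)).union (finite_range fun y : (B × Bool) × Bool =>
      (S.en 1 y.1 (t y.1) y.2).p)).union hY).subset ?_
    rintro x ⟨(hq | ⟨e, d, -, rfl⟩) | hx, -⟩
    · exact Or.inl (Or.inl hq)
    · exact Or.inl (Or.inr ⟨(e, d), rfl⟩)
    · exact Or.inr hx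
  refine (hM.biUnion fun z hz =>
    ((g2 h h1 ht (a := ⟨1, z.1, z.2, 1⟩) (Or.inl rfl) hz.2).image St.p).union
      ((g2 h h1 ht (a := ⟨1, z.1, z.2, -1⟩) (Or.inr rfl) hz.2).image St.p)).subset ?_
  rintro x ⟨hx | ⟨a, a', e1, hc, rfl, hm⟩, hn⟩
  · exact (hn hx).elim
  · refine mem_iUnion₂.2 ⟨a'.p, ⟨hm, fun hs => hn ((sp h h1 ht hc).2 hs)⟩, ?_⟩
    have h2 := hc.symm.sm a'.g⁻¹
    rcases (Cn.U h hc).1 (Or.inl e1) with u | u
    · refine Or.inl ⟨_, ?_, St.sm_p a'.g⁻¹ a⟩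
      have : St.sm a'.g⁻¹ a' = ⟨1, a'.p.1, a'.p.2, 1⟩ := by simp [St.sm, St.p, u]
      rwa [this] at h2
    · refine Or.inr ⟨_, ?_, St.sm_p a'.g⁻¹ a⟩
      have : St.sm a'.g⁻¹ a' = ⟨1, a'.p.1, a'.p.2, -1⟩ := by simp [St.sm, St.p, u]
      rwa [this] at h2

end LvsP

theorem lvs (h : S.Ok) (h1 : S.Spc) : S.Lvs :=
  ⟨LvsP.sm h h1, fun _ ht _ _ hc => LvsP.sp h h1 ht hc,
    fun _ ht _ _ hc hn => LvsP.opn h h1 ht hc hn, fun _ ht _ hU hn => LvsP.g2 h h1 ht hU hn,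
    fun _ ht _ hY => LvsP.nd h h1 ht hY⟩

end Pool.Agent.MP_494aff_an.Se
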