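import Mathlib
import Pool.Agent.MP_494aff_an.se.SpecH

/-! Closed families of tents have non abelian stabilisers. -/

set_option linter.unusedVariables false
set_option linter.unusedSectionVars false

open Set
open scoped Pointwise

namespace Pool.Agent.MP_494aff_an.Se

open Pool.Agent.MP_494aff_an.Pinch Pool.Agent.MP_494aff_an.Pinch.TowP Pool.Agent.MP_494aff_an.Lf

namespace NonabP

section General

variable {G Vx E Fc : Type} [Group G] {C : Cx G Vx E Fc} {F : Finset Fc}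

lemma dc_symm {x y : G × Fc} (h : C.DC F x y) : C.DC F y x := Relation.EqvGen.symm _ _ h

lemma dc_trans {x y z : G × Fc} (h : C.DC F x y) (h' : C.DC F y z) : C.DC F x z :=
  Relation.EqvGen.trans _ _ _ h h'

lemma dc_sm' (m : G) {x y : G × Fc} (h : C.DC F x y) : C.DC F (m * x.1, x.2) (m * y.1, y.2) := by
  induction h with
  | rel x y h =>
    obtain ⟨h1, h2, z, h3, h4⟩ := h
    refine Relation.EqvGen.rel _ _ ⟨h1, h2, (m * z.1, z.2), ?_, ?_⟩
    · simpa [sh_apply, mul_assoc] using h3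
    · simpa [sh_apply, mul_assoc] using h4
  | refl x => exact Relation.EqvGen.refl _
  | symm x y _ ih => exact dc_symm ih
  | trans x y z _ _ i1 i2 => exact dc_trans i1 i2

lemma dc_sm (m : G) {g g' k k' : G} {f f' : Fc} (h : C.DC F (g, f) (g', f')) (e : k = m * g)
    (e' : k' = m * g') : C.DC F (k, f) (k', f') := by
  subst e e'
  exact dc_sm' m h

/-- The stabiliser of a component of faces. -/
def stab (C : Cx G Vx E Fc) (F : Finset Fc) (f : Fc) : Subgroup G where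
  carrier := {m | C.DC F (1, f) (m, f)}
  one_mem' := Relation.EqvGen.refl _
  mul_mem' := fun {a b} ha hb => dc_trans ha (dc_sm a hb (mul_one a).symm rfl)
  inv_mem' := fun {a} ha => dc_symm (dc_sm a⁻¹ ha (mul_one _).symm (inv_mul_cancel a).symm)

lemma stab_comm {f f' : Fc} {g : G} (h : C.DC F (1, f) (g, f'))
    (hc : ∀ x y : G, C.DC F (1, f) (x, f) → C.DC F (1, f) (y, f) → x * y = y * x) :
    ∀ x ∈ stab C F f', ∀ y ∈ stab C F f', x * y = y * x := by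
  have key : ∀ x ∈ stab C F f', C.DC F (1, f) (g * x * g⁻¹, f) := fun x hx =>
    dc_trans (dc_trans h (dc_sm g hx (mul_one g).symm rfl))
      (dc_symm (dc_sm (g * x * g⁻¹) h (mul_one _).symm (by group)))
  intro x hx y hy
  have := hc _ _ (key x hx) (key y hy)
  calc x * y = g⁻¹ * (g * x * g⁻¹ * (g * y * g⁻¹)) * g := by group
    _ = y * x := by rw [this]; group

/-- Classes with at least two elements. -/
lemma half {α β : Type} {r : β → β → Prop} (hr : Equivalence r) (X : Finset α) (f : α → β)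
    (h : ∀ x ∈ X, ∃ y ∈ X, y ≠ x ∧ r (f x) (f y)) :
    ∃ Y : Finset β, 2 * Y.card ≤ X.card ∧ ∀ x ∈ X, ∃ c ∈ Y, r c (f x) := by
  classical
  let s : Setoid β := ⟨r, hr⟩
  refine ⟨(X.image fun x => Quotient.mk s (f x)).image Quotient.out, ?_, fun x hx => ?_⟩
  · refine le_trans (Nat.mul_le_mul_left 2 Finset.card_image_le)
      (Finset.mul_card_image_le_card X 2 fun a ha => ?_)
    obtain ⟨x, hx, rfl⟩ := Finset.mem_image.1 ha
    obtain ⟨y, hy, hne, hxy⟩ := h x hx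
    refine Finset.one_lt_card.2 ⟨y, Finset.mem_filter.2 ⟨hy, ?_⟩, x,
      Finset.mem_filter.2 ⟨hx, rfl⟩, hne⟩
    exact (Quotient.sound (s := s) hxy).symm
  · exact ⟨_, Finset.mem_image_of_mem _ (Finset.mem_image_of_mem _ hx),
      Quotient.mk_out (s := s) (f x)⟩

lemma close {H : Set ℝ} (hH : H.Infinite) {τ : ℝ} (hb : ∀ x ∈ H, 0 ≤ x ∧ x ≤ τ) {ε : ℝ}
    (hε : 0 < ε) : ∃ x ∈ H, ∃ y ∈ H, x ≠ y ∧ |x - y| < ε := by
  obtain ⟨x, hx, y, hy, hne, he⟩ := hH.exists_ne_map_eq_of_mapsTo (f := fun x => ⌊x / ε⌋)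
    (t := Set.Icc 0 ⌊τ / ε⌋) (fun x hx => ⟨Int.floor_nonneg.2 (div_nonneg (hb x hx).1 hε.le),
      Int.floor_mono (div_le_div_of_nonneg_right (hb x hx).2 hε.le)⟩) (Set.finite_Icc _ _)
  refine ⟨x, hx, y, hy, hne, ?_⟩
  have := Int.abs_sub_lt_one_of_floor_eq_floor he
  rwa [← sub_div, abs_div, abs_of_pos hε, div_lt_one hε] at this

lemma three {H : Set ℝ} (hH : H.Infinite) : ∃ x ∈ H, ∃ y ∈ H, ∃ z ∈ H, x < y ∧ y < z := by
  obtain ⟨s, hs, hc⟩ := hH.exists_subset_card_eq 3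
  have hm := (s.orderEmbOfFin hc).strictMono
  exact ⟨_, hs (s.orderEmbOfFin_mem hc 0), _, hs (s.orderEmbOfFin_mem hc 1), _,
    hs (s.orderEmbOfFin_mem hc 2), hm (by decide), hm (by decide)⟩

end General

variable {G T K B : Type} [Group G] [MetricSpace T] [MulAction G T] [Countable G] [Fintype K]
  [Fintype B] {S : Sys G T K B} {τ s : ℝ} {t : B × Bool → ℝ} {Fr : Set (B × Bool)}

/-- A generic height. -/
lemma generic (h : S.Ok) (hτ : S.Sm τ) {e : B × Bool} (he : S.lo e.1 < S.hi e.1) {v : ℝ}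
    (h0 : 0 < v) (hv : v ≤ τ) {N : Set (K × ℝ)} (hN : N.Finite) :
    ∃ ρ, 0 < ρ ∧ ρ < v ∧ ∀ (g : G), ∀ x ∈ N, S.pt (S.up 1 e ρ) ≠ g • S.ι x.1 x.2 := by
  by_contra hc
  have hB : (image2 (fun (g : G) (x : K × ℝ) => g • S.ι x.1 x.2) univ N).Countable :=
    Set.Countable.image2 countable_univ hN.countable _
  have hI : (Ioo 0 v).Countable := by
    refine Set.MapsTo.countable_of_injOn (f := fun ρ => S.pt (S.up 1 e ρ)) (fun ρ hρ => ?_)
      (fun ρ hρ ρ' hρ' e' => ?_) hB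
    · by_contra hn
      exact hc ⟨ρ, hρ.1, hρ.2, fun g x hx e' => hn ⟨g, mem_univ _, x, hx, e'.symm⟩⟩
    · have := Sys.dist_up h hτ he (1 : G) hρ.1.le (hρ.2.le.trans hv) hρ'.1.le (hρ'.2.le.trans hv)
      have e'' : S.pt (S.up 1 e ρ) = S.pt (S.up 1 e ρ') := e'
      rw [e'', dist_self] at this
      exact sub_eq_zero.1 (abs_eq_zero.1 this.symm)
  have := Cardinal.le_aleph0_iff_set_countable.2 hI
  rw [Cardinal.mk_Ioo_real h0] at this
  exact absurd this Cardinal.aleph0_lt_continuum.not_ge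

lemma pt_up (g : G) (e : B × Bool) (ρ : ℝ) : S.pt (S.up g e ρ) = g • S.pt (S.up 1 e ρ) := by
  rw [← Sys.pt_sm, Sys.up_sm, mul_one]

lemma opn_base (b : B) (r : ℝ) (h : S.opn b r) : S.lo b ≤ r ∧ r ≤ S.hi b := ⟨h.1.le, h.2.le⟩

lemma cf_en (hτ : S.Sm τ) {e : B × Bool} (he : S.lo e.1 < S.hi e.1) (g : G) {ρ : ℝ} (h0 : 0 < ρ)
    (h1 : ρ ≤ τ) (d : Bool) : S.Cf S.opn (S.up g e ρ) (S.en g e ρ d) := by
  cases d
  · exact Sys.Cf.refl _
  · exact Or.inl (Sys.Cn.move rfl (Sys.opn_up hτ he g h0 h1))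

/-- Infinitely many links of one end in a leaf generate a non abelian group. -/
lemma inf (h : S.Ok) (h1 : S.Spc) (hτ : S.Sm τ) {e : B × Bool} (he : S.En e) (M : Subgroup G)
    (hM : ∀ x ∈ M, ∀ y ∈ M, x * y = y * x) {H : Set ℝ} (hH : H.Infinite) (γ : ℝ → G)
    (hb : ∀ x ∈ H, 0 < x ∧ x ≤ τ) (hm : ∀ x ∈ H, ∀ y ∈ H, (γ y)⁻¹ * γ x ∈ M)
    (hc : ∀ x ∈ H, ∀ y ∈ H, S.Cf S.opn (S.up (γ x) e x) (S.up (γ y) e y)) : False := by
  have hd : ∀ x y, 0 ≤ x → x ≤ τ → 0 ≤ y → y ≤ τ →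
      dist (S.pt (S.up 1 e x)) (S.pt (S.up 1 e y)) = |x - y| :=
    fun x y a b c d => Sys.dist_up h hτ he.1 1 a b c d
  have hmv : ∀ x ∈ H, ∀ y ∈ H, ((γ y)⁻¹ * γ x) • S.pt (S.up 1 e x) = S.pt (S.up 1 e y) := by
    intro x hx y hy
    rw [mul_smul, ← pt_up, (hc x hx y hy).pt h opn_base, pt_up, inv_smul_smul]
  have hne : ∀ x ∈ H, ∀ y ∈ H, x ≠ y → (γ y)⁻¹ * γ x ≠ 1 := by
    intro x hx y hy hxy e1
    have k1 := hmv x hx y hy
    have k2 := hd x y (hb x hx).1.le (hb x hx).2 (hb y hy).1.le (hb y hy).2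
    rw [e1, one_smul] at k1
    rw [k1, dist_self] at k2
    exact hxy (sub_eq_zero.1 (abs_eq_zero.1 k2.symm))
  obtain ⟨A, a1, a2, a3⟩ := h.tr.abel M hM fun ε hε => by
    obtain ⟨x, hx, y, hy, hxy, hl⟩ := close hH (fun x hx => ⟨(hb x hx).1.le, (hb x hx).2⟩) hε
    refine ⟨_, hm x hx y hy, hne x hx y hy hxy, S.pt (S.up 1 e x), ?_⟩
    rwa [hmv x hx y hy, hd x y (hb x hx).1.le (hb x hx).2 (hb y hy).1.le (hb y hy).2]
  have hmid : ∀ x ∈ H, ∀ y ∈ H, x < y → S.pt (S.up 1 e ((x + y) / 2)) ∈ A := by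
    intro x hx y hy hxy
    obtain ⟨x0, x1⟩ := hb x hx
    obtain ⟨y0, y1⟩ := hb y hy
    refine a3 _ (hm x hx y hy) (hne x hx y hy hxy.ne) (S.pt (S.up 1 e x)) _ ?_ ?_
    · rw [hmv x hx y hy, hd _ _ x0.le x1 (by linarith) (by linarith), hd _ _ x0.le x1 y0.le y1,
        abs_of_nonpos (by linarith), abs_of_nonpos (by linarith)]
      ring
    · rw [hmv x hx y hy, hd _ _ (by linarith) (by linarith) y0.le y1, hd _ _ x0.le x1 y0.le y1,
        abs_of_nonpos (by linarith), abs_of_nonpos (by linarith)]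
      ring
  obtain ⟨x, hx, y, hy, z, hz, hxy, hyz⟩ := three hH
  obtain ⟨x0, x1⟩ := hb x hx
  obtain ⟨y0, y1⟩ := hb y hy
  obtain ⟨z0, z1⟩ := hb z hz
  have m1 := hmid x hx y hy hxy
  have m2 := hmid y hy z hz hyz
  have d12 := hd ((x + y) / 2) ((y + z) / 2) (by linarith) (by linarith) (by linarith) (by linarith)
  have d1 := hd ((x + y) / 2) y (by linarith) (by linarith) y0.le y1
  have d2 := hd y ((y + z) / 2) y0.le y1 (by linarith) (by linarith)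
  rw [abs_of_nonpos (by linarith)] at d12 d1 d2
  have hA : A ∈ S.Ln := a2 ⟨_, m1, _, m2, dist_pos.1 (by linarith)⟩
  have my : S.pt (S.up 1 e y) ∈ A := h.tr.convex A hA _ m1 _ m2 _ (by linarith)
  have arc : ∀ ρ, 0 ≤ ρ → ρ ≤ τ → S.pt (S.up 1 e ρ) ∈ A →
      (S.up 1 e ρ).r ∈ S.arc (S.src e.1) A := fun ρ a b c =>
    ⟨(Sys.val_en h hτ he.1 1 a b false).1, by simpa [Sys.pt, Sys.up] using c⟩
  have hI : S.IsArc (S.src e.1, A) := by
    refine ⟨hA, _, arc _ (by linarith) (by linarith) m1, _, arc _ y0.le y1 my, fun e1 => ?_⟩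
    have : S.pt (S.up 1 e ((x + y) / 2)) = S.pt (S.up 1 e y) := by
      simp only [Sys.pt]
      rw [e1]
      rfl
    rw [this, dist_self] at d1
    linarith
  have hs : ¬ S.Sp (S.up (γ y) e y).p := (hτ.en e he y y0 y1 false).1
  have key : γ x = γ y := by
    rcases hc y hy x hx with c | c
    · exact h1.ns _ _ A (Sys.up_U _ _ _) hs c rfl hI (arc _ y0.le y1 my) (a1 _ (hm y hy x hx))
    · exact h1.ns _ _ A (Sys.up_U _ _ _) hs c rfl hI (arc _ y0.le y1 my) (a1 _ (hm y hy x hx))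
  exact hne x hx y hy hxy.ne (by rw [key, inv_mul_cancel])

end NonabP

variable {G T K B : Type} [Group G] [MetricSpace T] [MulAction G T] [Countable G] [Fintype K]
  [Fintype B] {S : Sys G T K B} {τ s : ℝ} {t : B × Bool → ℝ} {Fr : Set (B × Bool)}

open NonabP in
theorem nonab (h : S.Ok) (h1 : S.Spc) (h2 : S.Lvs) (hτ : S.Sm τ) (ht : S.Adm τ t)
    (hA : S.AC t Fr) (hC : S.Occ t Fr) : (S.cx t Fr).Na := by
  classical
  intro F hF e heF
  by_contra hcon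
  have hc : ∀ x y : G, (S.cx t Fr).DC F (1, e) (x, e) → (S.cx t Fr).DC F (1, e) (y, e) →
      x * y = y * x := fun x y hx hy => by_contra fun hn => hcon ⟨x, y, hn, hx, hy⟩
  have hd : S.Ad t := ⟨τ, hτ, ht⟩
  have hle : ∀ e' : S.Nn Fr, t e'.1 ≤ τ := fun e' => ((ht _).1 e'.2.1).2
  obtain ⟨ρ, r0, r1, hρ⟩ := generic h hτ e.2.1.1 ((ht _).1 e.2.1).1 (hle e)
    (h2.nd t hd ∅ finite_empty)
  let L : Set (G × S.Nn Fr × ℝ) := {l | l.2.1 ∈ F ∧ 0 < l.2.2 ∧ l.2.2 < t l.2.1.1 ∧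
    (S.cx t Fr).DC F (1, e) (l.1, l.2.1) ∧ S.Cf S.opn (S.up 1 e.1 ρ) (S.up l.1 l.2.1.1 l.2.2)}
  have hns : ∀ l ∈ L, ∀ d, ¬ S.Sp (S.en l.1 l.2.1.1 l.2.2 d).p := fun l hl d => by
    rw [Sys.en_p l.1 1]
    exact (hτ.en _ l.2.1.2.1 _ hl.2.1 (hl.2.2.1.le.trans (hle _)) d).1
  have hreg : ∀ l ∈ L, ∀ d, S.Reg t ∅ (S.en l.1 l.2.1.1 l.2.2 d) := by
    intro l hl d
    obtain ⟨v1, v2⟩ := Sys.val_en h hτ l.2.1.2.1.1 l.1 hl.2.1.le (hl.2.2.1.le.trans (hle _)) d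
    refine ⟨v1, fun hn => ?_, Sys.en_U h _ _ _ _⟩
    exact hρ (S.en l.1 l.2.1.1 l.2.2 d).g _ ⟨hn, hns l hl d⟩
      ((hl.2.2.2.2.pt h opn_base).trans v2.symm)
  have hoth : ∀ l ∈ L, ∀ d, ∃ l' ∈ L, ∃ d', l' ≠ l ∧
      S.Cf (S.al t) (S.en l.1 l.2.1.1 l.2.2 d) (S.en l'.1 l'.2.1.1 l'.2.2 d') := by
    intro l hl d
    obtain ⟨e', he', g', ρ', d', p0, p1, pn, pc, pd⟩ :=
      hC.other F hF l.2.1 hl.1 l.1 l.2.2 d hl.2.1 hl.2.2.1 (hreg l hl d)
    refine ⟨(g', e', ρ'), ⟨he', p0, p1, dc_trans hl.2.2.2.1 pd, ?_⟩, d', fun e1 => pn ?_, pc⟩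
    · have c1 := cf_en hτ l.2.1.2.1.1 l.1 hl.2.1 (hl.2.2.1.le.trans (hle _)) d
      have c2 := cf_en hτ e'.2.1.1 g' p0 (p1.le.trans (hle _)) d'
      have c3 : S.Cf S.opn (S.en l.1 l.2.1.1 l.2.2 d) (S.en g' e'.1 ρ' d') :=
        pc.imp (fun c => h2.opn t hd _ _ c (hns l hl d)) fun c => h2.opn t hd _ _ c (hns l hl d)
      exact hl.2.2.2.2.trans (c1.trans (c3.trans c2.symm))
    · rw [← e1]
  by_cases hL : L.Finite
  · obtain ⟨Y, hY, hY'⟩ := half (Sys.cf_equiv (S := S) (al := S.al t))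
      (hL.toFinset ×ˢ (Finset.univ : Finset Bool))
      (fun x => S.en x.1.1 x.1.2.1.1 x.1.2.2 x.2) (by
        intro x hx
        obtain ⟨l', hl', d', n, c⟩ := hoth x.1 (hL.mem_toFinset.1 (Finset.mem_product.1 hx).1) x.2
        exact ⟨(l', d'), Finset.mem_product.2 ⟨hL.mem_toFinset.2 hl', Finset.mem_univ _⟩,
          fun e1 => n (congrArg Prod.fst e1), c⟩)
    have hinj : Function.Injective fun l : G × S.Nn Fr × ℝ => (l.1, l.2.1.1, l.2.2) := by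
      intro l l' e1
      simp only [Prod.mk.injEq] at e1
      exact Prod.ext e1.1 (Prod.ext (Subtype.ext e1.2.1) e1.2.2)
    have := hA (hL.toFinset.image fun l => (l.1, l.2.1.1, l.2.2)) Y
      (Finset.Nonempty.image ⟨(1, e, ρ), hL.mem_toFinset.2
        ⟨heF, r0, r1, Relation.EqvGen.refl _, Sys.Cf.refl _⟩⟩ _) (by
        intro l hl
        obtain ⟨k, hk, rfl⟩ := Finset.mem_image.1 hl
        have hk' := hL.mem_toFinset.1 hk
        exact ⟨k.2.1.2.1, k.2.1.2.2, hk'.2.1, hk'.2.2.1⟩) (by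
        intro l hl d
        obtain ⟨k, hk, rfl⟩ := Finset.mem_image.1 hl
        exact hY' (k, d) (Finset.mem_product.2 ⟨hk, Finset.mem_univ _⟩))
    rw [Finset.card_image_of_injective _ hinj] at this
    rw [Finset.card_product, Finset.card_univ, Fintype.card_bool] at hY
    omega
  · have hex : ∃ e' : S.Nn Fr, {x : ℝ | ∃ g, (g, e', x) ∈ L}.Infinite := by
      by_contra hn
      have hfin : ∀ e' : S.Nn Fr, {x : ℝ | ∃ g, (g, e', x) ∈ L}.Finite :=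
        fun e' => not_infinite.1 fun hi => hn ⟨e', hi⟩
      refine hL (Set.Finite.of_finite_image (f := fun l => l.2) ?_ ?_)
      · refine ((Set.finite_univ (α := S.Nn Fr)).prod (Set.finite_iUnion hfin)).subset ?_
        rintro _ ⟨l, hl, rfl⟩
        exact ⟨mem_univ _, mem_iUnion.2 ⟨l.2.1, l.1, hl⟩⟩
      · rintro ⟨g, e', x⟩ hl ⟨g', e'', x'⟩ hl' e1
        obtain ⟨rfl, rfl⟩ := Prod.mk.inj e1
        have hU := Sys.up_U (S := S) g e'.1 x
        rcases hl.2.2.2.2.symm.trans hl'.2.2.2.2 with c | c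
        · have := congrArg St.g (h1.g1 _ _ hU (hns _ hl false) c rfl)
          exact Prod.ext this.symm rfl
        · have e2 := h1.g1 _ _ hU (hns _ hl false) c rfl
          have e3 : g' = g := congrArg St.g e2
          subst e3
          exact absurd e2 hU.ne_fl
    obtain ⟨e', hH⟩ := hex
    have hch : ∀ x : ℝ, ∃ g, (∃ g', (g', e', x) ∈ L) → (g, e', x) ∈ L := fun x => by
      by_cases hx : ∃ g', (g', e', x) ∈ L
      · obtain ⟨g, hg⟩ := hx
        exact ⟨g, fun _ => hg⟩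
      · exact ⟨1, fun k => absurd k hx⟩
    choose γ hγ using hch
    obtain ⟨x₀, hx₀⟩ := hH.nonempty
    refine inf h h1 hτ e'.2.1 (stab (S.cx t Fr) F e') (stab_comm (hγ x₀ hx₀).2.2.2.1 hc) hH γ
      (fun x hx => ⟨(hγ x hx).2.1, (hγ x hx).2.2.1.le.trans (hle _)⟩) (fun x hx y hy => ?_)
      fun x hx y hy => (hγ x hx).2.2.2.2.symm.trans (hγ y hy).2.2.2.2
    exact dc_sm (γ y)⁻¹ (dc_trans (dc_symm (hγ y hy).2.2.2.1) (hγ x hx).2.2.2.1)
      (inv_mul_cancel _).symm rfl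

end Pool.Agent.MP_494aff_an.Se
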