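import Mathlib
import Pool.Agent.MP_494aff_an.se.SpecH

/-! Occurrences of the families of cells in the boundaries of tents. -/

set_option linter.unusedVariables false
set_option linter.unusedSectionVars false

open Set
open scoped Pointwise

namespace Pool.Agent.MP_494aff_an.Se

open Pool.Agent.MP_494aff_an.Pinch Pool.Agent.MP_494aff_an.Pinch.TowP Pool.Agent.MP_494aff_an.Lf

variable {G T K B : Type} [Group G] [MetricSpace T] [MulAction G T] [Countable G] [Fintype K]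
  [Fintype B] {S : Sys G T K B} {τ s : ℝ} {t : B × Bool → ℝ} {Fr : Set (B × Bool)}

namespace OccP

open Sys

variable {Y : Set (K × ℝ)} {a a' : St G K} {m M w : ℝ}

lemma nd_mk {x : K × ℝ} (h : S.Mk t x) : S.Nd t Y x :=
  Or.inr ⟨⟨1, x.1, x.2, 1⟩, ⟨1, x.1, x.2, 1⟩, rfl, Cn.refl _, rfl, Or.inl h⟩

lemma nd_bot (g : G) (e : B × Bool) (d : Bool) : S.Nd t Y (S.en g e 0 d).p := by
  refine nd_mk (Or.inl (Or.inr (Or.inr ⟨e.1, (S.up g e 0).r, ?_, ?_⟩)))
  · rcases e with ⟨b, _ | _⟩ <;> simp [up]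
  · cases d
    · exact Or.inl rfl
    · exact Or.inr rfl

lemma nd_top (g : G) {e : B × Bool} (he : S.En e) (d : Bool) : S.Nd t Y (S.en g e (t e) d).p :=
  nd_mk (Or.inr ⟨e, d, he, en_p _ _ _ _ _⟩)

lemma span_fl (h : S.Span t Y a m M) : S.Span t Y a.fl (-M) (-m) := by
  refine ⟨by linarith [h.pos], by linarith [h.neg], ?_, ?_, fun u h1 h2 => ?_⟩
  · rw [St.fl_sh, neg_neg]; exact h.hi
  · rw [St.fl_sh, neg_neg]; exact h.lo
  · rw [St.fl_sh]
    have := h.reg (-u) (by linarith) (by linarith)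
    exact ⟨this.1, this.2.1, this.2.2.fl⟩

lemma span_sm (g : G) (h : S.Span t Y a m M) : S.Span t Y (St.sm g a) m M :=
  ⟨h.neg, h.pos, h.lo, h.hi, h.reg⟩

lemma span_sh (h : S.Span t Y a m M) {c : ℝ} (h1 : m < c) (h2 : c < M) :
    S.Span t Y (a.sh c) (m - c) (M - c) := by
  refine ⟨by linarith, by linarith, ?_, ?_, fun u u1 u2 => ?_⟩
  · rw [St.sh_sh, add_sub_cancel]; exact h.lo
  · rw [St.sh_sh, add_sub_cancel]; exact h.hi
  · rw [St.sh_sh]; exact h.reg _ (by linarith) (by linarith)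

lemma span_U (h : S.Span t Y a m M) : a.U := (h.reg 0 h.neg h.pos).2.2

lemma span_p (h : S.Span t Y a (-w) w) (hU : a'.U) (hp : a'.p = a.p) :
    S.Span t Y a' (-w) w := by
  have hk : a'.k = a.k := congrArg Prod.fst hp
  have hr : a'.r = a.r := congrArg Prod.snd hp
  by_cases e : a'.σ = a.σ
  · have : a' = St.sm (a'.g * a.g⁻¹) a := by ext <;> simp [St.sm, hk, hr, e]
    rw [this]; exact span_sm _ h
  · have e' : a'.σ = -a.σ := by
      rcases hU with u | u <;> rcases span_U h with v | v <;> simp_all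
    have : a' = St.sm (a'.g * a.g⁻¹) a.fl := by ext <;> simp [St.sm, St.fl, hk, hr, e']
    rw [this]
    have h2 := span_fl h
    rw [neg_neg] at h2
    exact span_sm _ h2

lemma mid_of (h : S.Span t Y a (-w) w) : S.Mid t Y a.p := ⟨w, span_p h (Or.inl rfl) rfl⟩

lemma hw_eq (C : S.CellAt t Y) (h : S.Span t Y a (-w) w) : S.hw t Y a.p = w :=
  (C.uniq _ _ _ _ _ (C.hw _ (mid_of h)) (span_p h (Or.inl rfl) rfl)).2

lemma span_cf (C : S.CellAt t Y) (h : S.Span t Y a (-w) w) (hc : S.Cf (S.al t) a a') :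
    S.Span t Y a' (-w) w := by
  rcases hc with hc | hc
  · exact (C.tr _ _ _ _ hc h).1
  · have := span_fl (C.tr _ _ _ _ hc h).1
    rwa [St.fl_fl, neg_neg] at this

lemma cf_sh (C : S.CellAt t Y) (h : S.Span t Y a (-w) w) (hc : S.Cf (S.al t) a a') {d : ℝ}
    (hd : |d| < w) : ∃ d', |d'| < w ∧ S.Cf (S.al t) (a.sh d) (a'.sh d') := by
  obtain ⟨d1, d2⟩ := abs_lt.1 hd
  rcases hc with hc | hc
  · exact ⟨d, hd, Or.inl ((C.tr _ _ _ _ hc h).2 d d1.le d2.le)⟩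
  · refine ⟨-d, by rwa [abs_neg], Or.inr ?_⟩
    rw [← St.fl_sh]
    exact (C.tr _ _ _ _ hc h).2 d d1.le d2.le

lemma tent {g : G} {e : B × Bool} {h : ℝ} {d : Bool} (he : S.En e)
    (hs : S.Span t Y (S.en g e h d) m M) (h0 : 0 < h) (h1 : h < t e) :
    -h ≤ m ∧ M ≤ t e - h := by
  constructor
  · refine not_lt.1 fun k => (hs.reg (-h) k (by linarith [hs.pos])).2.1 ?_
    rw [en_sh, add_neg_cancel]; exact nd_bot g e d
  · refine not_lt.1 fun k => (hs.reg (t e - h) (by linarith [hs.neg]) k).2.1 ?_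
    rw [en_sh, add_sub_cancel]; exact nd_top g he d

/-- The length of a segment between two nodes without special points. -/
lemma len_eq (C : S.CellAt t Y) (hU : a.U) {L : ℝ} (hL : 0 ≤ L) (n0 : S.Nd t Y a.p)
    (n1 : S.Nd t Y (a.sh L).p) (ns : ∀ h, 0 < h → h ≤ L → ¬ S.Sp (a.sh h).p) (H : Finset ℝ)
    (hH : ∀ h, h ∈ H ↔ 0 < h ∧ h < L ∧ S.Mid t Y (a.sh h).p) :
    ∑ h ∈ H, S.hw t Y (a.sh h).p = L / 2 := by
  classical
  have key : ∀ r r', S.Nd t Y (a.k, r) → S.Nd t Y (a.k, r') → r' - r = L →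
      (∀ x, r ≤ x → x ≤ r' → ∃ h, 0 ≤ h ∧ h ≤ L ∧ x = a.r + a.σ * h) →
      (∀ h, (0 < h ∧ h < L) ↔ (r < a.r + a.σ * h ∧ a.r + a.σ * h < r')) →
      ∑ h ∈ H, S.hw t Y (a.sh h).p = L / 2 := by
    intro r r' k0 k1 k2 k3 k4
    have inj : Function.Injective fun h : ℝ => a.r + a.σ * h := fun x y e => by
      rcases hU with u | u <;> simp only [u] at e <;> linarith
    have := C.tele ℝ id a.k r r' (H.image fun h => a.r + a.σ * h) k0 k1 (by linarith) ?_ ?_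
    · rw [Finset.sum_image fun x _ y _ e => inj e] at this
      simp only [id] at this
      have e2 : ∑ h ∈ H, (a.r + a.σ * h + S.hw t Y (a.k, a.r + a.σ * h) -
          (a.r + a.σ * h - S.hw t Y (a.k, a.r + a.σ * h))) =
          2 * ∑ h ∈ H, S.hw t Y (a.sh h).p := by
        rw [Finset.mul_sum]
        exact Finset.sum_congr rfl fun h _ => by simp only [St.sh, St.p]; ring
      linarith
    · intro A x x' hA hx hx' l1 l2 l3
      obtain ⟨h, p1, p2, rfl⟩ := k3 x l1 (by linarith)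
      obtain ⟨h', q1, q2, rfl⟩ := k3 x' (by linarith) l3
      rcases p1.lt_or_eq with p1 | rfl
      · exact absurd ⟨A, hA, hx⟩ (ns h p1 p2)
      rcases q1.lt_or_eq with q1 | rfl
      · exact absurd ⟨A, hA, hx'⟩ (ns h' q1 q2)
      · rfl
    · intro x
      rw [Finset.mem_image]
      constructor
      · rintro ⟨h, p1, rfl⟩
        obtain ⟨p2, p3, p4⟩ := (hH h).1 p1
        exact ⟨p4, (k4 h).1 ⟨p2, p3⟩⟩
      · rintro ⟨p1, p2, p3⟩
        obtain ⟨h, -, -, rfl⟩ := k3 x p2.le p3.le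
        exact ⟨h, (hH h).2 ⟨((k4 h).2 ⟨p2, p3⟩).1, ((k4 h).2 ⟨p2, p3⟩).2, p1⟩, rfl⟩
  rcases hU with u | u
  · refine key a.r (a.r + a.σ * L) n0 n1 (by rw [u]; ring)
      (fun x x1 x2 => ⟨x - a.r, by linarith, ?_, ?_⟩) fun h => ?_
    · rw [u] at x2; linarith
    · rw [u]; ring
    · rw [u]; constructor <;> rintro ⟨p, q⟩ <;> constructor <;> linarith
  · refine key (a.r + a.σ * L) a.r n1 n0 (by rw [u]; ring)
      (fun x x1 x2 => ⟨a.r - x, by linarith, ?_, ?_⟩) fun h => ?_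
    · rw [u] at x1; linarith
    · rw [u]; ring
    · rw [u]; constructor <;> rintro ⟨p, q⟩ <;> constructor <;> linarith

lemma nt (h1 : S.Spc) (h2 : S.Lvs) (hτ : S.Sm τ) (hZ : S.Frz τ Fr s) (ht : S.Fi τ Fr s t)
    {e : B × Bool} (he : S.En e) (hf : e ∉ Fr) (g : G) {h : ℝ} (p : 0 < h) (q : h < t e) :
    ¬ S.Cf (S.al t) (S.en g e h false) (S.en g e h true) := by
  have hle : h ≤ τ := q.le.trans ((ht.1.1 e).1 he).2
  rintro (c | c)
  · refine hZ.need e he hf t ht.1 h p (q.trans_le (ht.2 e he hf)) q ?_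
    have := c.sm g⁻¹
    rwa [en_sm, en_sm, inv_mul_cancel] at this
  · have ns : ¬ S.Sp (S.en g e h false).p := by
      rw [en_p g 1]; exact (hτ.en e he h p hle false).1
    have c1 := h2.opn t ⟨τ, hτ, ht.1.1⟩ _ _ c ns
    have c2 : S.Cn S.opn (S.en g e h false) (S.en g e h true) :=
      Cn.move rfl (opn_up hτ he.1 g p hle)
    exact (up_U g e h).ne_fl (h1.g1 _ _ (up_U g e h) ns (c1.trans c2.fl.symm) rfl)

lemma ind_pm {q : St G K} (h : S.ind t q a ≠ 0) : S.ind t q a = 1 ∨ S.ind t q a = -1 := by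
  unfold ind at h ⊢
  split_ifs at h ⊢
  · exact Or.inl rfl
  · exact Or.inr rfl
  · exact absurd rfl h

lemma sh_bdc (X : S.CrsAt t) {e : B × Bool} (he : S.En e) (g : G) (y : G × S.Fam t) :
    sh g (S.bdc t e) y = S.uc t (S.rs t y) g e 0 := by
  rw [sh_apply, X.bdc _ _ he, ← X.uc_sm g, mul_one]
  congr 1
  ext <;> simp [rs, St.sm]

lemma uc_pm (h : S.Ok) (h1 : S.Spc) (h2 : S.Lvs) (X : S.CrsAt t) (hτ : S.Sm τ)
    (hZ : S.Frz τ Fr s) (ht : S.Fi τ Fr s t) {e : B × Bool} (he : S.En e) (hf : e ∉ Fr) {g : G}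
    {u : ℝ} {d : Bool} {q : St G K} (p0 : 0 < u) (p1 : u < t e)
    (hc : S.Cf (S.al t) q (S.en g e u d)) : S.uc t q g e 0 = 1 ∨ S.uc t q g e 0 = -1 := by
  have hle : u ≤ τ := p1.le.trans ((ht.1.1 e).1 he).2
  have hp : S.pt (S.up g e u) = S.pt q := by
    rw [hc.pt h fun b r => al_base ⟨τ, hτ, ht.1.1⟩, (val_en h hτ he.1 g p0.le hle d).2]
  rw [X.uc_eq q g e 0 u he le_rfl p0 p1 hp]
  have n := nt h1 h2 hτ hZ ht he hf g p0 p1
  have i1 := ind_pm ((X.ne _ _).2 hc)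
  cases d
  · have : S.ind t q (S.en g e u true) = 0 := by
      by_contra k
      exact n (hc.symm.trans ((X.ne _ _).1 k))
    rwa [this, sub_zero]
  · have : S.ind t q (S.en g e u false) = 0 := by
      by_contra k
      exact n (((X.ne _ _).1 k).symm.trans hc)
    rw [this, zero_sub]
    rcases i1 with i | i <;> rw [i]
    · exact Or.inr rfl
    · exact Or.inl (neg_neg _)

lemma mult_other {Vx E Fc : Type} [MulAction G Vx] (C : Cx G Vx E Fc) {F : Finset Fc} {e : E}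
    (h : C.mult F e ≠ 1) {f : Fc} (hf : f ∈ F) {x : G × E} (hx : C.bd f x ≠ 0) (he : x.2 = e) :
    ∃ f' ∈ F, ∃ x', C.bd f' x' ≠ 0 ∧ x'.2 = e ∧ (f', x') ≠ (f, x) := by
  classical
  obtain ⟨Z, hZ⟩ : ∃ Z : Finset (Σ _ : Fc, G × E),
      Z = F.sigma fun f => (C.bd f).support.filter fun x => x.2 = e := ⟨_, rfl⟩
  have m0 : (⟨f, x⟩ : Σ _ : Fc, G × E) ∈ Z := hZ ▸
    Finset.mem_sigma.2 ⟨hf, Finset.mem_filter.2 ⟨Finsupp.mem_support_iff.2 hx, he⟩⟩
  have m1 : Z.card = C.mult F e := by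
    rw [hZ, Finset.card_sigma]
    exact Finset.sum_congr rfl fun f _ => by congr
  have m2 := Finset.card_pos.2 ⟨_, m0⟩
  obtain ⟨⟨f', x'⟩, z1, z2⟩ := Finset.exists_mem_ne (s := Z) (by omega) ⟨f, x⟩
  rw [hZ] at z1
  obtain ⟨z3, z4⟩ := Finset.mem_sigma.1 z1
  obtain ⟨z5, z6⟩ := Finset.mem_filter.1 z4
  refine ⟨f', z3, x', Finsupp.mem_support_iff.1 z5, z6, fun k => z2 ?_⟩
  obtain ⟨rfl, rfl⟩ := Prod.mk.inj k
  rfl

end OccP

open OccP Sys

theorem occ (h : S.Ok) (h1 : S.Spc) (h2 : S.Lvs) (h3 : S.Cell) (h4 : S.Fm) (h5 : S.Crs)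
    (hτ : S.Sm τ) (hZ : S.Frz τ Fr s) (ht : S.Fi τ Fr s t) : S.Occ t Fr := by
  classical
  have hd : S.Ad t := ⟨τ, hτ, ht.1.1⟩
  have C := h3 t hd ∅ finite_empty fun _ h => h.elim
  have Fa := h4 t hd
  have X := h5 t hd
  have ne : ∀ (e : S.Nn Fr) g y, sh g (S.bdc t e.1) y ≠ 0 ↔
      ∃ u d, 0 < u ∧ u < t e.1 ∧ S.Cf (S.al t) (S.rs t y) (S.en g e.1 u d) := by
    intro e g y
    rw [sh_bdc X e.2.1]
    refine ⟨X.uc_ne _ _ _ _, fun ⟨u, d, p0, p1, hc⟩ => ?_⟩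
    rcases uc_pm h h1 h2 X hτ hZ ht e.2.1 e.2.2 p0 p1 hc with k | k <;> rw [k] <;> norm_num
  have touch : ∀ (e : S.Nn Fr) g u d, 0 < u → u < t e.1 → S.Reg t ∅ (S.en g e.1 u d) →
      ∃ y c, sh g (S.bdc t e.1) y ≠ 0 ∧ |c| < S.hw t ∅ (S.rep t y.2) ∧
        S.Cf (S.al t) ((S.rs t y).sh c) (S.en g e.1 u d) := by
    intro e g u d p0 p1 hr
    obtain ⟨m, M, hs⟩ := C.ex _ hr
    obtain ⟨t0, t1⟩ := tent e.2.1 hs p0 p1
    have m0 := hs.neg
    have m1 := hs.pos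
    have hs' := span_sh hs (c := (m + M) / 2) (by linarith) (by linarith)
    rw [show m - (m + M) / 2 = -((M - m) / 2) by ring,
      show M - (m + M) / 2 = (M - m) / 2 by ring] at hs'
    obtain ⟨y, hy⟩ := Fa.ex _ _ hs'
    have hw : S.hw t ∅ (S.rep t y.2) = (M - m) / 2 := hw_eq C (span_cf C hs' hy.symm)
    obtain ⟨c, c1, c2⟩ := cf_sh C hs' hy.symm (d := -((m + M) / 2))
      (abs_lt.2 ⟨by linarith, by linarith⟩)
    rw [St.sh_sh, add_neg_cancel, St.sh_zero] at c2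
    rw [en_sh] at hy
    exact ⟨y, c, (ne e g y).2 ⟨_, d, by linarith, by linarith, hy⟩, by rwa [hw], c2.symm⟩
  refine ⟨fun e x => ?_, ne, fun e => ?_, touch, ?_⟩
  · by_cases k : sh (1 : G) (S.bdc t e.1) x = 0
    · exact Or.inl (by rwa [sh_one] at k)
    · obtain ⟨u, d, p0, p1, hc⟩ := (ne e 1 x).1 k
      have := uc_pm h h1 h2 X hτ hZ ht e.2.1 e.2.2 p0 p1 hc
      rw [← X.bdc _ _ e.2.1] at this
      exact Or.inr this
  · obtain ⟨t0, t1⟩ := (ht.1.1 e.1).1 e.2.1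
    have fin : ∀ d, {u | 0 < u ∧ u < t e.1 ∧ S.Mid t ∅ (S.en (1 : G) e.1 u d).p}.Finite := by
      intro d
      refine (C.fin.preimage (f := fun u => (S.en (1 : G) e.1 u d).p) fun x _ y _ k => ?_).subset
        fun u hu => hu.2.2
      have k2 : ((S.en (1 : G) e.1 0 d).sh x).r = ((S.en (1 : G) e.1 0 d).sh y).r := by
        rw [en_sh, en_sh, zero_add, zero_add]; exact congrArg Prod.snd k
      simp only [St.sh] at k2
      rcases en_U h (1 : G) e.1 0 d with v | v <;> rw [v] at k2 <;> linarith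
    have half : ∀ d, ∑ u ∈ (fin d).toFinset, S.hw t ∅ (S.en (1 : G) e.1 u d).p = t e.1 / 2 := by
      intro d
      have := len_eq C (en_U h (1 : G) e.1 0 d) t0.le (nd_bot 1 e.1 d)
        (by rw [en_sh, zero_add]; exact nd_top 1 e.2.1 d)
        (fun u p0 p1 => by rw [en_sh, zero_add]; exact (hτ.en e.1 e.2.1 u p0 (p1.trans t1) d).1)
        (fin d).toFinset fun u => by rw [en_sh, zero_add, Finite.mem_toFinset]; rfl
      simpa only [en_sh, zero_add] using this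
    have ex : ∀ z ∈ (Finset.univ : Finset Bool).sigma fun d => (fin d).toFinset,
        ∃ y, S.Cf (S.al t) (S.rs t y) (S.en 1 e.1 z.2 z.1) := by
      intro z hz
      obtain ⟨w, hw⟩ := ((fin z.1).mem_toFinset.1 (Finset.mem_sigma.1 hz).2).2.2
      exact Fa.ex _ w (span_p hw (en_U h _ _ _ _) rfl)
    choose φ hφ using ex
    have mem : ∀ z ∈ (Finset.univ : Finset Bool).sigma fun d => (fin d).toFinset,
        0 < z.2 ∧ z.2 < t e.1 := fun z hz =>
      let k := (fin z.1).mem_toFinset.1 (Finset.mem_sigma.1 hz).2; ⟨k.1, k.2.1⟩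
    rw [← Finset.sum_bij (f := fun z => S.hw t ∅ (S.en (1 : G) e.1 z.2 z.1).p) φ,
      Finset.sum_sigma, Fintype.sum_bool, half, half, add_halves]
    · intro z hz
      rw [Finsupp.mem_support_iff, ← sh_one (S.bdc t e.1)]
      exact (ne e 1 _).2 ⟨_, _, (mem z hz).1, (mem z hz).2, hφ z hz⟩
    · rintro ⟨d, u⟩ hz ⟨d', u'⟩ hz' k
      have c := (hφ _ hz).symm.trans (k ▸ hφ _ hz')
      obtain ⟨p0, p1⟩ := mem _ hz
      obtain ⟨q0, q1⟩ := mem _ hz'
      have c1 := c.pt h fun b r => al_base hd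
      rw [(val_en h hτ e.2.1.1 1 p0.le (p1.le.trans t1) d).2,
        (val_en h hτ e.2.1.1 1 q0.le (q1.le.trans t1) d').2, ← dist_eq_zero,
        dist_up h hτ e.2.1.1 1 p0.le (p1.le.trans t1) q0.le (q1.le.trans t1), abs_eq_zero,
        sub_eq_zero] at c1
      obtain rfl : u = u' := c1
      have n := nt h1 h2 hτ hZ ht e.2.1 e.2.2 1 p0 p1
      cases d <;> cases d'
      · rfl
      · exact absurd c n
      · exact absurd c.symm n
      · rfl
    · intro y hy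
      rw [Finsupp.mem_support_iff, ← sh_one (S.bdc t e.1)] at hy
      obtain ⟨u, d, p0, p1, hc⟩ := (ne e 1 y).1 hy
      have hz : (⟨d, u⟩ : Σ _ : Bool, ℝ) ∈
          (Finset.univ : Finset Bool).sigma fun d => (fin d).toFinset :=
        Finset.mem_sigma.2 ⟨Finset.mem_univ _,
          (fin d).mem_toFinset.2 ⟨p0, p1, mid_of (span_cf C (Fa.span y) hc)⟩⟩
      exact ⟨_, hz, Fa.inj _ _ ((hφ _ hz).trans hc.symm)⟩
    · intro z hz
      exact hw_eq C (span_cf C (Fa.span _) (hφ z hz))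
  · intro F hF e he g u d p0 p1 hr
    obtain ⟨y, c, y1, y2, y3⟩ := touch e g u d p0 p1 hr
    obtain ⟨e', z3, ⟨g', f'⟩, z5, z6, z2⟩ := mult_other (S.cx t Fr) (hF y.2) he
      (x := (g⁻¹ * y.1, y.2)) (by rwa [sh_apply] at y1) rfl
    obtain rfl : f' = y.2 := z6
    have y4 : sh (y.1 * g'⁻¹) (S.bdc t e'.1) y ≠ 0 := by
      rw [sh_apply, mul_inv_rev, inv_inv, inv_mul_cancel_right]
      exact z5
    obtain ⟨u', d', q0, q1, hc⟩ := (ne e' _ y).1 y4
    obtain ⟨c', c1, c2⟩ := cf_sh C (Fa.span y) hc y2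
    obtain ⟨t0, t1⟩ := tent e'.2.1 (span_cf C (Fa.span y) hc) q0 q1
    obtain ⟨c3, c4⟩ := abs_lt.1 c1
    rw [en_sh] at c2
    refine ⟨e', z3, y.1 * g'⁻¹, u' + c', d', by linarith, by linarith, fun k => z2 ?_,
      y3.symm.trans c2, Relation.EqvGen.rel _ _ ⟨he, z3, y, y1, y4⟩⟩
    obtain ⟨k1, rfl⟩ := Prod.mk.inj k
    rw [← k1, mul_inv_rev, inv_inv, inv_mul_cancel_right]

end Pool.Agent.MP_494aff_an.Se
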