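import Mathlib
import Pool.Agent.MP_494aff_an.se.SpecH

/-! The links of a path between twins are at the same height or high. -/

set_option linter.unusedVariables false
set_option linter.unusedSectionVars false

open Set
open scoped Pointwise

namespace Pool.Agent.MP_494aff_an.Se

open Pool.Agent.MP_494aff_an.Pinch Pool.Agent.MP_494aff_an.Pinch.TowP Pool.Agent.MP_494aff_an.Lf

variable {G T K B : Type} [Group G] [MetricSpace T] [MulAction G T] [Countable G] [Fintype K]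
  [Fintype B] {S : Sys G T K B} {τ s : ℝ} {t : B × Bool → ℝ} {Fr : Set (B × Bool)}

namespace ParA

open Sys

lemma sep {D : Set ℝ} (hD : D.Finite) : ∃ δ : ℝ, 0 < δ ∧ ∀ d ∈ D, d ≠ 0 → δ ≤ |d| := by
  induction D, hD using Set.Finite.induction_on with
  | empty => exact ⟨1, one_pos, fun _ h => h.elim⟩
  | @insert a D _ _ ih =>
    obtain ⟨δ, h1, h2⟩ := ih
    by_cases ha : a = 0
    · exact ⟨δ, h1, fun d hd h0 => hd.elim (fun e => absurd (e.trans ha) h0) fun hd => h2 d hd h0⟩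
    · exact ⟨min δ |a|, lt_min h1 (abs_pos.2 ha), fun d hd h0 => hd.elim
        (fun e => e ▸ min_le_right _ _) fun hd => (min_le_left _ _).trans (h2 d hd h0)⟩

/-- The tops are nodes. -/
lemma top_nd {e : B × Bool} (he : S.En e) (g : G) (d : Bool) : S.Nd t ∅ (S.en g e (t e) d).p :=
  Or.inr ⟨⟨1, (S.en g e (t e) d).k, (S.en g e (t e) d).r, 1⟩, _, rfl, Cn.refl _, rfl,
    Or.inl (Or.inr ⟨e, d, he, en_p g 1 e _ d⟩)⟩

lemma not_sp (hτ : S.Sm τ) {e : B × Bool} (he : S.En e) (g : G) {ρ : ℝ} (h1 : 0 < ρ) (h2 : ρ ≤ τ)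
    (d : Bool) : ¬ S.Sp (S.en g e ρ d).p := by
  rw [en_p g 1]
  exact (hτ.en e he ρ h1 h2 d).1

/-- Nodes in a tent are far apart. -/
lemma gap_en (h : S.Ok) (hτ : S.Sm τ) {η : ℝ}
    (hη : ∀ k r r', S.Nd t ∅ (k, r) → S.Nd t ∅ (k, r') → r < r' →
      (∀ s, r < s → s < r' → ¬ S.Sp (k, s)) → η ≤ r' - r) {e : B × Bool} (he : S.En e) (g : G)
    (d : Bool) {a b : ℝ} (ha : 0 ≤ a) (hab : a < b) (hb : b ≤ τ)
    (h1 : S.Nd t ∅ (S.en g e a d).p) (h2 : S.Nd t ∅ (S.en g e b d).p) : η ≤ b - a := by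
  have e1 : ∀ c, S.en g e c d = (S.en g e 0 d).sh c := fun c => by rw [en_sh, zero_add]
  have h3 : ∀ c, a < c → c < b → ¬ S.Sp ((S.en g e 0 d).sh c).p := fun c h4 h5 =>
    e1 c ▸ not_sp hτ he g (ha.trans_lt h4) (h5.le.trans hb) d
  rw [e1] at h1 h2
  have hU := en_U h g e 0 d
  generalize S.en g e 0 d = A at h1 h2 h3 hU
  simp only [St.p, St.sh] at h1 h2 h3
  rcases hU with hU | hU <;> rw [hU] at h1 h2 h3
  · have := hη _ _ _ h1 h2 (by linarith) fun x h4 h5 => by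
      have := h3 (x - A.r) (by linarith) (by linarith)
      rwa [show A.r + 1 * (x - A.r) = x by ring] at this
    linarith
  · have := hη _ _ _ h2 h1 (by linarith) fun x h4 h5 => by
      have := h3 (A.r - x) (by linarith) (by linarith)
      rwa [show A.r + -1 * (A.r - x) = x by ring] at this
    linarith

/-- The heights of nodes in tents. -/
def Nu (S : Sys G T K B) (τ : ℝ) (t : B × Bool → ℝ) : Set ℝ :=
  {ν | ∃ e d, S.En e ∧ 0 < ν ∧ ν ≤ τ ∧ S.Nd t ∅ (S.en 1 e ν d).p}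

lemma nu_fin (h : S.Ok) (h2 : S.Lvs) (hτ : S.Sm τ) (ht : S.Adm τ t) : (Nu S τ t).Finite := by
  have h3 := h2.nd t ⟨τ, hτ, ht⟩ ∅ finite_empty
  refine (Set.finite_iUnion (f := fun x : (B × Bool) × Bool =>
    (fun ν => (S.en 1 x.1 ν x.2).p) ⁻¹' {x | S.Nd t ∅ x ∧ ¬ S.Sp x}) fun x =>
      h3.preimage fun a _ b _ hab => ?_).subset ?_
  · have e1 : ∀ c, S.en 1 x.1 c x.2 = (S.en 1 x.1 0 x.2).sh c := fun c => by rw [en_sh, zero_add]
    have hU := en_U h 1 x.1 0 x.2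
    rw [e1 a, e1 b] at hab
    have h4 := congrArg Prod.snd hab
    simp only [St.p, St.sh] at h4
    rcases hU with hU | hU <;> rw [hU] at h4 <;> linarith
  · rintro ν ⟨e, d, he, h4, h5, h6⟩
    exact mem_iUnion.2 ⟨(e, d), h6, not_sp hτ he 1 h4 h5 d⟩

/-- Every link has a parent. -/
lemma parent (h : S.Ok) (h1 : S.Spc) (h2 : S.Lvs) (C : S.CellAt t ∅) (X : S.CrsAt t)
    (hτ : S.Sm τ) (hR : S.CR τ) (hZ : S.Frz τ Fr s) (ht : S.Fi τ Fr s t) (hG : S.Gen t Fr) {η : ℝ}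
    (η0 : 0 < η) (hη : ∀ k r r', S.Nd t ∅ (k, r) → S.Nd t ∅ (k, r') → r < r' →
      (∀ s, r < s → s < r' → ¬ S.Sp (k, s)) → η ≤ r' - r) {e : B × Bool} (he : e ∈ Fr) {ρ : ℝ}
    (ρ0 : 0 < ρ) (ρ1 : ρ < τ) {n : G × (B × Bool) × ℝ →₀ ℂ} (hn : S.Dec t Fr e ρ n)
    {l : G × (B × Bool) × ℝ} (hl : l ∈ n.support) :
    ∃ ν ∈ Nu S τ t, l.2.2 - ρ = t l.2.1 - ν ∨ ∃ l' ∈ n.support, l.2.2 - l'.2.2 = t l.2.1 - ν ∧
      t l.2.1 - l.2.2 + η ≤ t l'.2.1 - l'.2.2 := by
  classical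
  have hA := ht.1.1
  have hd : S.Ad t := ⟨τ, hτ, hA⟩
  have hb : ∀ b r, S.al t b r → S.lo b ≤ r ∧ r ≤ S.hi b := fun _ _ => al_base hd
  have hle := hA.le hτ.pos.le
  obtain ⟨g, e1, y⟩ := l
  obtain ⟨a1, a2, a3, a4, a5⟩ := hn.1 _ hl
  simp only at a1 a2 a3 a4 a5 ⊢
  obtain ⟨w, w0, w1, w2⟩ : ∃ w, 0 < w ∧ w < η ∧ w < t e1 - y :=
    ⟨min η (t e1 - y) / 2, by have := lt_min η0 (sub_pos.2 a4); linarith,
      by linarith [min_le_left η (t e1 - y)], by linarith [min_le_right η (t e1 - y)]⟩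
  have hnd : ∀ c, 0 ≤ c → c < w → ¬ S.Nd t ∅ ((S.up g e1 (t e1 - w)).sh c).p := fun c c0 c1 hc => by
    rw [up_sh] at hc
    have := gap_en h hτ hη a1 g false (a := t e1 - w + c) (b := t e1) (by linarith) (by linarith)
      (hle e1) hc (top_nd a1 g false)
    linarith
  have hq : S.Reg t ∅ (S.up g e1 (t e1 - w)) :=
    ⟨(val_en h hτ a1.1 g (by linarith) (by linarith [hle e1]) false).1,
      by simpa using hnd 0 le_rfl w0, up_U _ _ _⟩
  obtain ⟨m, M, hS⟩ := C.ex _ hq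
  obtain rfl : w = M := by
    rcases lt_trichotomy w M with h3 | h3 | h3
    · have h4 := (hS.reg w (hS.neg.trans w0) h3).2.1
      rw [up_sh, sub_add_cancel] at h4
      exact absurd (top_nd a1 g false) h4
    · exact h3
    · exact absurd hS.hi (hnd M hS.pos.le h3)
  have huc : S.uc t (S.up g e1 (t e1 - w)) g e1 y ≠ 0 := by
    rw [X.uc_eq _ g e1 y (t e1 - w) a1 a3.le (by linarith) (by linarith) rfl]
    have h3 : ¬ S.Cn (S.al t) (S.up g e1 (t e1 - w)) (S.en g e1 (t e1 - w) true) := fun h4 => by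
      have h5 := h4.sm g⁻¹
      rw [up_sm, en_sm, inv_mul_cancel] at h5
      exact hZ.need e1 a1 a2 t ht.1 _ (by linarith) (by linarith [ht.2 e1 a1 a2]) (by linarith) h5
    have h4 : S.ind t (S.up g e1 (t e1 - w)) (S.en g e1 (t e1 - w) false) = 1 := X.self _
    rw [h4, Sys.ind, if_neg h3]
    split_ifs <;> norm_num
  have hsup : ∀ l' ∈ (Finsupp.single ((1 : G), e, ρ) (1 : ℂ) - n).support,
      l' = (1, e, ρ) ∨ l' ∈ n.support := fun l' hl' => by
    rcases Finset.mem_union.1 (Finsupp.support_sub hl') with h3 | h3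
    · exact Or.inl (Finset.mem_singleton.1 (Finsupp.support_single_subset h3))
    · exact Or.inr h3
  have hall : ∀ l' ∈ (Finsupp.single ((1 : G), e, ρ) (1 : ℂ) - n).support,
      S.En l'.2.1 ∧ 0 < l'.2.2 ∧ l'.2.2 ≤ t l'.2.1 ∧
        S.pt (S.up l'.1 l'.2.1 l'.2.2) = S.pt (S.up g e1 y) := fun l' hl' => by
    rcases hsup l' hl' with rfl | h3
    · exact ⟨hZ.en e he, ρ0, by rw [ht.1.2 e he]; exact ρ1.le, a5.symm⟩
    · obtain ⟨b1, -, b3, b4, b5⟩ := hn.1 _ h3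
      exact ⟨b1, b3, b4.le, b5.trans a5.symm⟩
  have dz : ∀ c, y ≤ c → c ≤ τ → dist (S.pt (S.up g e1 c)) (S.pt (S.up g e1 y)) = c - y :=
    fun c c1 c2 => by
      rw [dist_up h hτ a1.1 g (by linarith) c2 a3.le (by linarith), abs_of_nonneg (by linarith)]
  have hsum := hR t hA _ (fun l' hl' => ⟨(hall l' hl').1, (hall l' hl').2.1, (hall l' hl').2.2.1⟩)
    hn.2 _ hq fun l' hl' h3 => by
      have h4 := dz (t e1 - w) (by linarith) (by linarith [hle e1])
      rw [← h3, (hall l' hl').2.2.2, dist_self] at h4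
      linarith
  obtain ⟨⟨g', e', y'⟩, hl', hne, huc'⟩ :
      ∃ l' ∈ (Finsupp.single ((1 : G), e, ρ) (1 : ℂ) - n).support, l' ≠ (g, e1, y) ∧
        S.uc t (S.up g e1 (t e1 - w)) l'.1 l'.2.1 l'.2.2 ≠ 0 := by
    by_contra hc
    push Not at hc
    have h3 : ((1 : G), e, ρ) ≠ (g, e1, y) := fun h4 =>
      a2 ((congrArg (fun x => x.2.1) h4 : e = e1) ▸ he)
    rw [Finsupp.sum, Finset.sum_eq_single (g, e1, y)
      (fun l' hl' h4 => by rw [hc l' hl' h4, mul_zero])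
      (fun h4 => by rw [Finsupp.notMem_support_iff.1 h4, zero_mul])] at hsum
    rcases mul_eq_zero.1 hsum with h4 | h4
    · rw [Finsupp.sub_apply, Finsupp.single_eq_of_ne' h3, zero_sub, neg_eq_zero] at h4
      exact Finsupp.mem_support_iff.1 hl h4
    · exact huc h4
  obtain ⟨b1, b2, b3, b4⟩ := hall _ hl'
  obtain ⟨x, d, x1, x2, hC⟩ := X.uc_ne _ _ _ _ huc'
  simp only at b1 b2 b3 b4 x1 x2 hC
  have dz' : ∀ c, y' ≤ c → c ≤ τ → dist (S.pt (S.en g' e' c d)) (S.pt (S.up g e1 y)) = c - y' :=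
    fun c c1 c2 => by
      rw [(val_en h hτ b1.1 g' (by linarith) c2 d).2, ← b4,
        dist_up h hτ b1.1 g' (by linarith) c2 b2.le (by linarith), abs_of_nonneg (by linarith)]
  have hx : t e1 - w - y = x - y' := by
    rw [← dz _ (by linarith) (by linarith [hle e1]), ← dz' x x1.le (by linarith [hle e']),
      hC.pt h hb]
  rcases hC with hC | hC
  · obtain ⟨hS', hT⟩ := C.tr _ _ _ _ hC hS
    have c1 := hT w (hS.neg.trans w0).le le_rfl
    have c2 := hS'.hi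
    rw [up_sh, sub_add_cancel, en_sh] at c1
    rw [en_sh] at c2
    have c3 : x + w ≤ t e' := by
      by_contra c4
      have c5 := (hS'.reg (t e' - x) (by linarith [hS.neg]) (by linarith)).2.1
      rw [en_sh, add_sub_cancel] at c5
      exact c5 (top_nd b1 g' d)
    refine ⟨x + w, ⟨e', d, b1, by linarith, c3.trans (hle e'), by rwa [en_p 1 g']⟩, ?_⟩
    rcases hsup _ hl' with c4 | c4
    · have c5 : y' = ρ := congrArg (fun x => x.2.2) c4
      exact Or.inl (by linarith)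
    · refine Or.inr ⟨_, c4, by simp only; linarith, ?_⟩
      have c5 : x + w ≠ t e' := fun c5 => by
        rw [c5] at c1
        have c6 := (c1.sm g'⁻¹).pt h hb
        rw [up_sm, en_sm, inv_mul_cancel,
          (val_en h hτ b1.1 1 (hA.nonneg e') (hle e') d).2] at c6
        obtain rfl := hG e1 e' _ a1 a2 b1 (hn.1 _ c4).2.1 c6
        have c7 : S.Cn (S.al t) (S.up g e1 (t e1)) (S.up g' e1 (t e1)) := by
          cases d
          · exact c1
          · exact c1.trans (Cn.move rfl (al_up hτ hA a1.1 g' le_rfl (hle e1))).symm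
        have c8 := not_sp hτ a1 g (by linarith : 0 < t e1) (hle e1) false
        have c9 := h1.g1 _ _ (up_U g e1 _) c8 (h2.opn t hd _ _ c7 c8) rfl
        have c10 : g' = g := congrArg St.g c9
        have c11 : y' = y := by linarith
        exact hne (by rw [c10, c11])
      have c6 := gap_en h hτ hη b1 g' d (a := x + w) (b := t e') (by linarith)
        (lt_of_le_of_ne c3 c5) (hle e') c2 (top_nd b1 g' d)
      simp only
      linarith
  · have c0 : 0 < min w (x - y') := lt_min w0 (sub_pos.2 x1)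
    have c1 := min_le_left w (x - y')
    have c2 := min_le_right w (x - y')
    generalize min w (x - y') = ε at c0 c1 c2
    have c3 := ((C.tr _ _ _ _ hC hS).2 ε (hS.neg.trans c0).le c1).pt h hb
    rw [up_sh, St.fl_sh, pt_fl, en_sh] at c3
    have c4 := dz (t e1 - w + ε) (by linarith) (by linarith [hle e1])
    have c5 := dz' (x + -ε) (by linarith) (by linarith [hle e'])
    rw [c3, c5] at c4
    linarith

end ParA

theorem par (h : S.Ok) (h1 : S.Spc) (h2 : S.Lvs) (h3 : S.Cell) (h5 : S.Crs) (hτ : S.Sm τ)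
    (hR : S.CR τ) (hZ : S.Frz τ Fr s) (ht : S.Fi τ Fr s t) (hG : S.Gen t Fr) : S.Par t Fr := by
  have hd : S.Ad t := ⟨τ, hτ, ht.1.1⟩
  have C := h3 t hd ∅ finite_empty fun _ h => h.elim
  obtain ⟨η, η0, -, hη⟩ := C.gap
  have hle := ht.1.1.le hτ.pos.le
  have hD : (image2 (fun e ν => t e - ν) univ (ParA.Nu S τ t)).Finite :=
    finite_univ.image2 _ (ParA.nu_fin h h2 hτ ht.1.1)
  have key : ∀ j : ℕ, ∃ D : Set ℝ, D.Finite ∧ ∀ e ∈ Fr, ∀ ρ, 0 < ρ → ρ < τ → ∀ n,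
      S.Dec t Fr e ρ n → ∀ l ∈ n.support, τ - j * η < t l.2.1 - l.2.2 → l.2.2 - ρ ∈ D := fun j => by
    induction j with
    | zero =>
      refine ⟨∅, finite_empty, fun e _ ρ _ _ n hn l hl h4 => ?_⟩
      have h6 := (hn.1 l hl).2.2.1
      have h7 := hle l.2.1
      simp only [Nat.cast_zero, zero_mul, sub_zero] at h4
      exact absurd h4 (by linarith)
    | succ j ih =>
      obtain ⟨D, h4, h6⟩ := ih
      refine ⟨_, hD.union (h4.add hD), fun e he ρ ρ0 ρ1 n hn l hl h7 => ?_⟩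
      obtain ⟨ν, hν, h8 | ⟨l', hl', h8, h9⟩⟩ :=
        ParA.parent h h1 h2 C (h5 t hd) hτ hR hZ ht hG η0 hη he ρ0 ρ1 hn hl
      · exact Or.inl ⟨_, mem_univ _, ν, hν, h8.symm⟩
      · push_cast at h7
        exact Or.inr ⟨_, h6 e he ρ ρ0 ρ1 n hn l' hl' (by linarith), _,
          ⟨_, mem_univ _, ν, hν, h8.symm⟩, by ring⟩
  obtain ⟨N, hN⟩ := exists_nat_gt (τ / η)
  rw [div_lt_iff₀ η0] at hN
  obtain ⟨D, h4, h6⟩ := key N
  obtain ⟨δ, δ0, hδ⟩ := ParA.sep h4
  refine ⟨min δ τ, lt_min δ0 hτ.pos, fun e he ρ ρ0 ρ1 n hn l hl => ?_⟩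
  obtain ⟨-, -, a3, a4, -⟩ := hn.1 l hl
  have h7 := hδ _ (h6 e he ρ ρ0 (ρ1.trans_le (min_le_right _ _)) n hn l hl (by linarith))
  have h8 := min_le_left δ τ
  by_cases h9 : l.2.2 - ρ = 0
  · exact Or.inl (by linarith)
  · have h10 := h7 h9
    rcases abs_cases (l.2.2 - ρ) with h11 | h11
    · exact Or.inr (by linarith [h11.1])
    · exact absurd a3 (by linarith [h11.1])

end Pool.Agent.MP_494aff_an.Se
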