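import Mathlib
import Pool.Agent.MP_494aff_an.se.SpecA
import Pool.Agent.MP_494aff_an.lf.Ind

/-! Values of cochains on lifted chains. -/

open Filter Topology Finsupp

namespace Pool.Agent.MP_494aff_an.Se

open Pool.Agent.MP_494aff_an.Pinch Pool.Agent.MP_494aff_an.Pinch.TowP Pool.Agent.MP_494aff_an.Lf

noncomputable section

namespace SqP

variable {G : Type} [Group G]

lemma hier_fg {A : Type} [Group A] (h : Hier A) : Group.FG A := by
  induction h with
  | abel _ h _ => exact h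
  | amal A B c d _ _ _ iA iB => exact IndP.fg_pin (IndP.pin_amalg c d) iA iB
  | hnn A c c' _ _ iA => exact IndP.fg_hn (IndP.hn_hnn c c') iA
  | iso _ _ _ e i => exact Group.fg_of_surjective (f := e.toMonoidHom) e.surjective

lemma lam_lam (g h : G) (ξ : H G) : lam g (lam h ξ) = lam (g * h) ξ := by rw [map_mul]; rfl

lemma lam_id (ξ : H G) : lam (1 : G) ξ = ξ := by rw [map_one]; rfl

lemma cy_one {A : Type} [Group A] {ι : A →* G} {c : A → H G} (h : Cy ι c) : c 1 = 0 := by
  have := h 1 1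
  rw [mul_one, map_one, lam_id] at this
  simpa using this

lemma cy_free {α : Type} {ι : FreeGroup α →* G} {c : FreeGroup α → H G} (h : Cy ι c)
    (h0 : ∀ s, c (FreeGroup.of s) = 0) (w : FreeGroup α) : c w = 0 := by
  induction w using FreeGroup.induction_on with
  | C1 => exact cy_one h
  | of s => exact h0 s
  | inv_of s hs =>
    have := h (FreeGroup.of s)⁻¹ (FreeGroup.of s)
    rwa [inv_mul_cancel, cy_one h, hs, map_zero, add_zero, eq_comm] at this
  | mul a b ha hb => rw [h, ha, hb, map_zero, add_zero]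

lemma sh_single {X : Type} (h : G) (x : G × X) (a : ℂ) :
    sh h (single x a) = single (h * x.1, x.2) a := by
  simp [sh]

lemma ev_single {X : Type} (ξ : X → H G) (x : G × X) : ev ξ (single x 1) = lam x.1 (ξ x.2) := by
  simp [ev]

lemma ext1 {X M : Type} [AddCommGroup M] [Module ℂ M] {F F' : (X →₀ ℂ) →ₗ[ℂ] M}
    (h : ∀ x, F (single x 1) = F' (single x 1)) (k : X →₀ ℂ) : F k = F' k :=
  LinearMap.congr_fun (Finsupp.lhom_ext' fun x => LinearMap.ext_ring (h x)) k

lemma ev_sh {X : Type} (ξ : X → H G) (h : G) (ζ : G × X →₀ ℂ) :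
    ev ξ (sh h ζ) = lam h (ev ξ ζ) :=
  ext1 (F := ev ξ ∘ₗ sh h) (F' := (lam h).toLinearMap ∘ₗ ev ξ) (fun x => by
    simp only [LinearMap.comp_apply, sh_single, ev_single, ContinuousLinearMap.coe_coe, lam_lam]) ζ

variable {Vx E Fc O : Type} [MulAction G Vx]

lemma exists_orb (h : ∃ O : Finset Vx, ∀ v, ∃ b ∈ O, ∃ g : G, g • b = v) (v₀ : Vx) :
    ∃ (O : Type) (_ : Fintype O) (b : O → Vx) (orb : Vx → O) (rep : Vx → G) (i₀ : O),
      b i₀ = v₀ ∧ (∀ v, rep v • b (orb v) = v) ∧ ∀ (g : G) i, orb (g • b i) = i := by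
  classical
  obtain ⟨S, hS⟩ := h
  have e : ∀ (g : G) (v : Vx), Quotient.mk (MulAction.orbitRel G Vx) (g • v) = Quotient.mk _ v :=
    fun g v => Quotient.sound ⟨g, rfl⟩
  have : Finite (Quotient (MulAction.orbitRel G Vx)) :=
    Finite.of_surjective (fun s : S => Quotient.mk _ s.1) fun q => by
      obtain ⟨v, rfl⟩ := q.exists_rep
      obtain ⟨b, hb, g, rfl⟩ := hS v
      exact ⟨⟨b, hb⟩, (e g b).symm⟩
  let b : Quotient (MulAction.orbitRel G Vx) → Vx := fun i =>
    if i = Quotient.mk _ v₀ then v₀ else i.out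
  have hb : ∀ i, Quotient.mk _ (b i) = i := fun i => by
    simp only [b]
    split_ifs with h
    · exact h.symm
    · exact i.out_eq
  have hr : ∀ v, ∃ g : G, g • b (Quotient.mk _ v) = v := fun v =>
    Quotient.exact (hb (Quotient.mk _ v)).symm
  choose rep hrep using hr
  exact ⟨_, Fintype.ofFinite _, b, Quotient.mk _, rep, Quotient.mk _ v₀, if_pos rfl, hrep,
    fun g i => (e g _).trans (hb i)⟩

lemma d1_single (K : Cx G Vx E Fc) (x : G × E) :
    K.d1 (single x 1) = single (x.1 • K.t x.2) 1 - single (x.1 • K.o x.2) 1 := by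
  simp [Cx.d1]

lemma exists_chain (K : Cx G Vx E Fc) {v w : Vx} (h : K.Cn Set.univ v w) :
    ∃ ζ, K.d1 ζ = single w 1 - single v 1 := by
  induction h with
  | rel a b h =>
    obtain ⟨g, e, -, rfl, rfl⟩ := h
    exact ⟨single (g, e) 1, d1_single K _⟩
  | refl a => exact ⟨0, by simp⟩
  | symm a b _ i =>
    obtain ⟨ζ, h⟩ := i
    exact ⟨-ζ, by rw [map_neg, h, neg_sub]⟩
  | trans a b c _ _ i j =>
    obtain ⟨ζ, h⟩ := i
    obtain ⟨ζ', h'⟩ := j
    exact ⟨ζ' + ζ, by rw [map_add, h, h', sub_add_sub_cancel]⟩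

/-- Translation of chains of vertices. -/
def shV (g : G) : (Vx →₀ ℂ) →ₗ[ℂ] (Vx →₀ ℂ) := lmapDomain ℂ ℂ fun v => g • v

lemma shV_single (g : G) (v : Vx) : shV g (single v 1) = single (g • v) 1 := by simp [shV]

lemma d1_sh (K : Cx G Vx E Fc) (g : G) (ζ : G × E →₀ ℂ) : K.d1 (sh g ζ) = shV g (K.d1 ζ) :=
  ext1 (F := K.d1 ∘ₗ sh g) (F' := shV g ∘ₗ K.d1) (fun x => by
    simp [sh_single, d1_single, shV_single, mul_smul]) ζ

/-- Orbit representatives. -/
structure Rp (G Vx O : Type) [Group G] [MulAction G Vx] where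
  b : O → Vx
  orb : Vx → O
  rep : Vx → G
  h1 : ∀ v, rep v • b (orb v) = v
  h2 : ∀ (g : G) i, orb (g • b i) = i

namespace Rp

variable (R : Rp G Vx O) (K : Cx G Vx E Fc)

/-- The projection of lifted vertices. -/
def pr : (G × O →₀ ℂ) →ₗ[ℂ] (Vx →₀ ℂ) := lmapDomain ℂ ℂ fun x => x.1 • R.b x.2

lemma pr_single (x : G × O) : R.pr (single x 1) = single (x.1 • R.b x.2) 1 := by simp [pr]

/-- The lifted boundary. -/
def dt : (G × E →₀ ℂ) →ₗ[ℂ] (G × O →₀ ℂ) := linearCombination ℂ fun x =>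
  single (x.1 * R.rep (K.t x.2), R.orb (K.t x.2)) 1 -
    single (x.1 * R.rep (K.o x.2), R.orb (K.o x.2)) 1

lemma dt_single (x : G × E) : R.dt K (single x 1) =
    single (x.1 * R.rep (K.t x.2), R.orb (K.t x.2)) 1 -
      single (x.1 * R.rep (K.o x.2), R.orb (K.o x.2)) 1 := by
  simp [dt]

lemma pr_dt (ζ : G × E →₀ ℂ) : R.pr (R.dt K ζ) = K.d1 ζ :=
  ext1 (F := R.pr ∘ₗ R.dt K) (fun x => by
    simp [dt_single, d1_single, pr_single, mul_smul, R.h1]) ζ

lemma dt_sh (g : G) (ζ : G × E →₀ ℂ) : R.dt K (sh g ζ) = sh g (R.dt K ζ) :=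
  ext1 (F := R.dt K ∘ₗ sh g) (F' := sh g ∘ₗ R.dt K) (fun x => by
    simp [sh_single, dt_single, mul_assoc]) ζ

/-- The stabilisers of the representatives. -/
abbrev P (i : O) : Subgroup G := MulAction.stabilizer G (R.b i)

lemma factor {M : Type} [AddCommGroup M] [Module ℂ M] (F : (G × O →₀ ℂ) →ₗ[ℂ] M)
    (h : ∀ g i (p : R.P i), F (single (g * p, i) 1) = F (single (g, i) 1)) {k : G × O →₀ ℂ}
    (hk : R.pr k = 0) : F k = 0 := by
  have := ext1 (F := F)
    (F' := linearCombination ℂ (fun v => F (single (R.rep v, R.orb v) 1)) ∘ₗ R.pr) (fun x => by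
      obtain ⟨g, i⟩ := x
      have a1 := R.h1 (g • R.b i)
      rw [R.h2] at a1
      have a2 := h (R.rep (g • R.b i)) i ⟨(R.rep (g • R.b i))⁻¹ * g, by
        rw [MulAction.mem_stabilizer_iff, mul_smul, inv_smul_eq_iff, a1]⟩
      simp only [mul_inv_cancel_left] at a2
      simp [pr_single, R.h2, a2]) k
  rw [this, LinearMap.comp_apply, hk, map_zero]

/-- The function `u` changes along the fibres by the cocycles `c`. -/
def Fib (u : G × O → H G) (c : ∀ i, R.P i → H G) : Prop :=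
  ∀ g i (p : R.P i), u (g * p, i) = u (g, i) + lam g (c i p)

variable {R}

lemma Fib.eqv {u : G × O → H G} {c : ∀ i, R.P i → H G} (h : R.Fib u c) (g : G)
    {k : G × O →₀ ℂ} (hk : R.pr k = 0) :
    linearCombination ℂ u (sh g k) = lam g (linearCombination ℂ u k) := by
  have := R.factor (linearCombination ℂ u ∘ₗ sh g - (lam g).toLinearMap ∘ₗ linearCombination ℂ u)
    (fun g' i p => by
      simp only [LinearMap.sub_apply, LinearMap.comp_apply, sh_single, linearCombination_single,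
        one_smul, ContinuousLinearMap.coe_coe, ← mul_assoc, h _ i p, map_add, lam_lam]
      abel) hk
  exact sub_eq_zero.1 this

lemma Fib.uniq {u U : G × O → H G} {c : ∀ i, R.P i → H G} (h : R.Fib u c) (h' : R.Fib U c)
    {k : G × O →₀ ℂ} (hk : R.pr k = 0) :
    linearCombination ℂ u k = linearCombination ℂ U k := by
  have := R.factor (linearCombination ℂ u - linearCombination ℂ U) (fun g' i p => by
    simp only [LinearMap.sub_apply, linearCombination_single, one_smul, h _ i p, h' _ i p]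
    abel) hk
  exact sub_eq_zero.1 this

variable (R)

/-- The value of a cochain on a chain with lifted boundary. -/
def val (u : G × O → H G) (ξ : E → H G) : (G × E →₀ ℂ) × (G × O →₀ ℂ) →ₗ[ℂ] H G :=
  (ev ξ - linearCombination ℂ u ∘ₗ R.dt K).coprod (linearCombination ℂ u)

lemma val_apply (u : G × O → H G) (ξ : E → H G) (ζ : G × E →₀ ℂ) (k : G × O →₀ ℂ) :
    R.val K u ξ (ζ, k) = ev ξ ζ + linearCombination ℂ u (k - R.dt K ζ) := by
  simp only [val, LinearMap.coprod_apply, LinearMap.sub_apply, LinearMap.comp_apply, map_sub]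
  abel

variable {R K} {u : G × O → H G} {c : ∀ i, R.P i → H G} {ξ : E → H G}

lemma Fib.val_sh (h : R.Fib u c) (g : G) {ζ : G × E →₀ ℂ} {k : G × O →₀ ℂ}
    (hk : R.pr k = K.d1 ζ) : R.val K u ξ (sh g ζ, sh g k) = lam g (R.val K u ξ (ζ, k)) := by
  rw [val_apply, val_apply, dt_sh, ← map_sub, h.eqv g (by rw [map_sub, pr_dt, hk, sub_self]),
    ev_sh, map_add]

lemma Fib.val_d2 (h : R.Fib u c) (hc : ∀ f, K.d1 (K.bd f) = 0)
    (hz : ∀ f, R.val K u ξ (K.bd f, 0) = 0) (η : G × Fc →₀ ℂ) : R.val K u ξ (K.d2 η, 0) = 0 :=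
  ext1 (F := R.val K u ξ ∘ₗ LinearMap.inl ℂ _ _ ∘ₗ K.d2) (F' := 0) (fun x => by
    have := h.val_sh (K := K) (ξ := ξ) x.1 (ζ := K.bd x.2) (k := 0) (by rw [hc, map_zero])
    rw [map_zero, hz, map_zero] at this
    simpa [Cx.d2] using this) η

variable {m n : ℕ} {y : Fin m → G} {i₀ : O} {x : FreeGroup (Fin m) → (G × E →₀ ℂ)}

lemma Fib.coc (h : R.Fib u c) (hK : K.Good y n (R.b i₀) x) :
    Cy (FreeGroup.lift y) fun w =>
      R.val K u ξ (x w, single (FreeGroup.lift y w, i₀) 1 - single (1, i₀) 1) := by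
  intro w w'
  simp only
  rw [← h.val_sh _ (by rw [hK.bdx, map_sub, pr_single, pr_single, one_smul]), ← map_add, hK.coc]
  simp [sh_single]

lemma Fib.inj (h : R.Fib u c) (hK : K.Good y n (R.b i₀) x)
    (hy : Function.Surjective (FreeGroup.lift y)) {p : O → (G × E →₀ ℂ)} (hp : ∀ i, K.d1 (p i) = single (R.b i) 1 - single (R.b i₀) 1)
    (hz : ∀ f, R.val K u ξ (K.bd f, 0) = 0)
    (h1 : ∀ s, R.val K u ξ (x (FreeGroup.of s), single (y s, i₀) 1 - single (1, i₀) 1) = 0)
    (h2 : ∀ i, i ≠ i₀ → R.val K u ξ (p i, single (1, i) 1 - single (1, i₀) 1) = 0) :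
    (∀ e, ξ e = 0) ∧ ∀ i q, c i q = 0 := by
  have a1 := cy_free (h.coc (ξ := ξ) hK) (fun s => by simpa using h1 s)
  have a2 : ∀ ζ, K.d1 ζ = 0 → R.val K u ξ (ζ, 0) = 0 := fun ζ hζ => by
    have : LinearMap.range K.d2 ⊔ Submodule.span ℂ
        {z | ∃ g w, FreeGroup.lift y w = 1 ∧ z = sh g (x w)} ≤
        LinearMap.ker (R.val K u ξ ∘ₗ LinearMap.inl ℂ _ _) := by
      refine sup_le ?_ (Submodule.span_le.2 ?_)
      · rintro _ ⟨η, rfl⟩
        exact h.val_d2 hK.ok.cyc hz η
      · rintro _ ⟨g, w, hw, rfl⟩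
        have b1 := a1 w
        have b2 := h.val_sh (K := K) (ξ := ξ) g (ζ := x w) (k := 0)
          (by rw [hK.bdx, hw, one_smul, sub_self, map_zero])
        simp only [hw, sub_self] at b1
        rw [map_zero, b1, map_zero] at b2
        exact b2
    exact this (hK.gen ζ hζ)
  have a3 : ∀ z : G × O, ∃ ζ, K.d1 ζ = single (z.1 • R.b z.2) 1 - single (R.b i₀) 1 ∧
      R.val K u ξ (ζ, single z 1 - single (1, i₀) 1) = 0 := by
    rintro ⟨g, i⟩
    obtain ⟨w, rfl⟩ := hy g
    by_cases hi : i = i₀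
    · subst hi
      exact ⟨x w, hK.bdx w, a1 w⟩
    · have b1 := h.val_sh (K := K) (ξ := ξ) (FreeGroup.lift y w) (ζ := p i)
        (k := single (1, i) 1 - single (1, i₀) 1)
        (by rw [hp, map_sub, pr_single, pr_single, one_smul, one_smul])
      rw [h2 i hi, map_zero] at b1
      refine ⟨x w + sh (FreeGroup.lift y w) (p i), ?_, ?_⟩
      · rw [map_add, d1_sh, hp, hK.bdx, map_sub, shV_single, shV_single]
        abel
      · have b2 := (map_add (R.val K u ξ) _ _).trans (congrArg₂ (· + ·) (a1 w) b1)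
        simpa [sh_single] using b2
  have a4 : ∀ (z z' : G × O) ζ, K.d1 ζ = single (z.1 • R.b z.2) 1 - single (z'.1 • R.b z'.2) 1 →
      R.val K u ξ (ζ, single z 1 - single z' 1) = 0 := fun z z' ζ hζ => by
    obtain ⟨α, b1, b2⟩ := a3 z
    obtain ⟨β, b3, b4⟩ := a3 z'
    have b5 := a2 (ζ - α + β) (by rw [map_add, map_sub, hζ, b1, b3]; abel)
    have b6 : (ζ, single z 1 - single z' 1) = ((ζ - α + β, 0) + (α, single z 1 - single (1, i₀) 1) -
        (β, single z' 1 - single (1, i₀) 1) : (G × E →₀ ℂ) × (G × O →₀ ℂ)) := by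
      ext1
      · simp only [Prod.fst_add, Prod.fst_sub]
        abel
      · simp
    rw [b6, map_sub, map_add, b5, b2, b4, add_zero, sub_zero]
  refine ⟨fun e => ?_, fun i q => ?_⟩
  · have := a4 (1 * R.rep (K.t e), R.orb (K.t e)) (1 * R.rep (K.o e), R.orb (K.o e))
      (single (1, e) 1) (by simp [d1_single, R.h1])
    rw [val_apply, dt_single, sub_self, map_zero, add_zero, ev_single, lam_id] at this
    exact this
  · have := a4 (1 * q, i) (1, i) 0 (by simp [MulAction.mem_stabilizer_iff.1 q.2])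
    rw [val_apply, map_zero, map_zero, zero_add, sub_zero, map_sub, linearCombination_single,
      linearCombination_single, h 1 i q, lam_id] at this
    simpa using this

lemma ex_cy {c₀ : G → H G} (h₀ : Cy (MonoidHom.id G) c₀) (ph : O → H G) {U : G × O → H G}
    (hU : ∀ g i, U (g, i) = c₀ g + lam g (ph i)) (R : Rp G Vx O) :
    R.Fib U (fun i q => U (q, i) - U (1, i)) ∧
      (∀ i, Cy (R.P i).subtype fun q => U (q, i) - U (1, i)) ∧
      ∀ g a a', U (g * a.1, a.2) - U (g * a'.1, a'.2) = lam g (U a - U a') := by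
  have a : ∀ g (a a' : G × O), U (g * a.1, a.2) - U (g * a'.1, a'.2) = lam g (U a - U a') := by
    rintro g ⟨a, i⟩ ⟨a', i'⟩
    simp only [hU, h₀ g, map_sub, map_add, lam_lam, MonoidHom.id_apply]
    abel
  refine ⟨fun g i q => ?_, fun i q q' => ?_, a⟩
  · rw [← a g (q, i) (1, i)]
    simp
  · have := a q (q', i) (1, i)
    simp only [mul_one] at this
    simp only [Subgroup.coe_mul, Subgroup.subtype_apply, ← this]
    abel

lemma Fib.val_ex {U : G × O → H G} (h : R.Fib u c) (h' : R.Fib U c)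
    (hU : ∀ g a a', U (g * a.1, a.2) - U (g * a'.1, a'.2) = lam g (U a - U a'))
    (hξ : ∀ e, ξ e = linearCombination ℂ U (R.dt K (single (1, e) 1))) {ζ : G × E →₀ ℂ}
    {k : G × O →₀ ℂ} (hk : R.pr k = K.d1 ζ) : R.val K u ξ (ζ, k) = linearCombination ℂ U k := by
  have a : ev ξ ζ = linearCombination ℂ U (R.dt K ζ) :=
    ext1 (F' := linearCombination ℂ U ∘ₗ R.dt K) (fun z => by
      simp only [ev_single, hξ, dt_single, LinearMap.comp_apply, map_sub, linearCombination_single,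
        one_smul, one_mul]
      rw [← map_sub, ← hU]) ζ
  rw [val_apply, h.uniq h' (by rw [map_sub, pr_dt, hk, sub_self]), a, map_sub]
  abel

end Rp

end SqP

end

end Pool.Agent.MP_494aff_an.Se
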