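import Mathlib
import Pool.Agent.MP_494aff_an.se.SqA

/-! Equivariant operators, levels and cochains. -/

open Filter Topology Finsupp

namespace Pool.Agent.MP_494aff_an.Se

open Pool.Agent.MP_494aff_an.Pinch Pool.Agent.MP_494aff_an.Pinch.TowP Pool.Agent.MP_494aff_an.Lf

noncomputable section

namespace SqP

variable {G Λ κ : Type} [Group G]

/-- Operators that commute with right translations. -/
def Eo (G Λ : Type) [Group G] : Submodule ℂ ((Λ → H G) →L[ℂ] H G) where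
  carrier := {T | ∀ g η, T (fun k => rho g (η k)) = rho g (T η)}
  zero_mem' := fun g η => by simp
  add_mem' := fun hS hT g η => by
    rw [_root_.add_apply, _root_.add_apply, hS g η, hT g η, map_add]
  smul_mem' := fun a T hT g η => by
    rw [_root_.smul_apply, _root_.smul_apply, hT g η, map_smul]

lemma exists_pi (T : κ → (Λ → H G) →L[ℂ] H G) (h : ∀ j, T j ∈ Eo G Λ) :
    ∃ B : (Λ → H G) →L[ℂ] (κ → H G), Eqi B ∧ ∀ ω j, B ω j = T j ω :=
  ⟨ContinuousLinearMap.pi T, fun g ξ => funext fun j => h j g ξ, fun _ _ => rfl⟩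

lemma proj_mem (k : Λ) : (ContinuousLinearMap.proj k : (Λ → H G) →L[ℂ] H G) ∈ Eo G Λ :=
  fun _ _ => rfl

lemma lam_comp (g : G) {T : (Λ → H G) →L[ℂ] H G} (h : T ∈ Eo G Λ) : (lam g).comp T ∈ Eo G Λ :=
  fun a η => by
    rw [ContinuousLinearMap.comp_apply, ContinuousLinearMap.comp_apply, h a η, ← mul_ap,
      ← rho_lam, mul_ap]

/-- Restriction along a map of index sets. -/
def res (σ : κ → Λ) : (Λ → H G) →L[ℂ] (κ → H G) :=
  ContinuousLinearMap.pi fun k => ContinuousLinearMap.proj (σ k)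

lemma res_mem (σ : κ → Λ) {T : (κ → H G) →L[ℂ] H G} (h : T ∈ Eo G κ) :
    T.comp (res σ) ∈ Eo G Λ := fun a η => h a fun k => η (σ k)

lemma lc_mem {X : Type} {u : X → (Λ → H G) →L[ℂ] H G} (h : ∀ x, u x ∈ Eo G Λ) (k : X →₀ ℂ) :
    linearCombination ℂ u k ∈ Eo G Λ := by
  rw [linearCombination_apply]
  exact Submodule.sum_mem _ fun x _ => Submodule.smul_mem _ _ (h x)

omit [Group G] in
lemma lc_apply {X : Type} (u : X → (Λ → H G) →L[ℂ] H G) (k : X →₀ ℂ) (ω : Λ → H G) :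
    linearCombination ℂ u k ω = linearCombination ℂ (fun x => u x ω) k := by
  induction k using Finsupp.induction_linear with
  | zero => simp
  | add a b ha hb => rw [map_add, map_add, _root_.add_apply, ha, hb]
  | single x a => simp

lemma sum_top (hD : DimStmt) [Fintype Λ] (κ : Type) [Fintype κ] {W₁ : Submodule ℂ (Λ → H G)}
    (h : Inv W₁) : ∃ W : Submodule ℂ (Λ ⊕ κ → H G), Inv W ∧ dim W = dim W₁ + Fintype.card κ ∧
      ∀ η, η ∈ W ↔ (fun i => η (Sum.inl i)) ∈ W₁ := by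
  obtain ⟨a, b⟩ := hD.sum G Λ κ W₁ ⊤ (W₁.comap (LinearMap.funLeft ℂ _ Sum.inl)) h
    ⟨isClosed_univ, fun _ _ _ => trivial⟩ fun η => ⟨fun a => ⟨a, trivial⟩, fun a => a.1⟩
  exact ⟨_, a, by rw [b, hD.top], fun _ => Iff.rfl⟩

lemma rn_inj (hD : DimStmt) [Fintype Λ] [Fintype κ] {W : Submodule ℂ (Λ → H G)}
    {T : (Λ → H G) →L[ℂ] (κ → H G)} (hW : Inv W) (hT : Eqi T) (h : ∀ ω ∈ W, T ω = 0 → ω = 0) :
    dim (W.map T.toLinearMap) = dim W := by
  have a := hD.rn G Λ κ W T hW hT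
  have b : W ⊓ LinearMap.ker T.toLinearMap = ⊥ :=
    (Submodule.eq_bot_iff _).2 fun ω hω => h ω hω.1 hω.2
  rw [b, hD.bot, zero_add] at a
  exact a.symm

lemma squeeze (hD : DimStmt) [Fintype Λ] [Fintype κ] {V V' : Submodule ℂ (κ → H G)}
    {Z : Submodule ℂ (Λ → H G)} {X : (κ → H G) →L[ℂ] (Λ → H G)} {Ψ : (Λ → H G) →L[ℂ] (κ → H G)}
    (hV : Inv V) (hZ : Inv Z) (hX : Eqi X) (hΨ : Eqi Ψ) (h1 : ∀ v ∈ V, X v ∈ Z)
    (h2 : ∀ v ∈ V, Ψ (X v) = v) (h3 : ∀ ω ∈ Z, Ψ ω ∈ V') (h4 : ∀ ω ∈ Z, Ψ ω = 0 → ω = 0)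
    {N : ℤ} (hN : dim Z = N) (h5 : dim V' < ⌊dim V⌋ + 1) :
    (V.map X.toLinearMap).topologicalClosure = Z := by
  refine hD.eq G Λ _ _ (hD.inv_map G κ Λ V X hV hX) hZ
    (Submodule.topologicalClosure_minimal _ (by rintro _ ⟨v, hv, rfl⟩; exact h1 v hv) hZ.1) ?_
  rw [hD.clo, rn_inj hD hV hX fun v hv e => by rw [← h2 v hv, e, map_zero]]
  have a : dim Z ≤ dim V' := by
    rw [← rn_inj hD hZ hΨ h4]
    exact hD.mono G κ _ _ (by rintro _ ⟨ω, hω, rfl⟩; exact h3 ω hω)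
  have b : N < ⌊dim V⌋ + 1 := by exact_mod_cast hN ▸ a.trans_lt h5
  have c : (N : ℝ) ≤ ⌊dim V⌋ := by exact_mod_cast Int.lt_add_one_iff.1 b
  rw [hN]
  exact c.trans (Int.floor_le _)

/-- The spaces of cocycles of the free group that kill the short relators. -/
lemma levels (hD : DimStmt) (hC : CocStmt) {m : ℕ} (y : Fin m → G)
    (hy : Function.Surjective (FreeGroup.lift y)) :
    ∃ (n : ℕ) (V V' : Submodule ℂ (Fin m → H G)) (T : G → (Fin m → H G) →L[ℂ] H G), Inv V ∧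
      Inv V' ∧ dim V' < ⌊dim V⌋ + 1 ∧ (∀ g, T g ∈ Eo G _) ∧
      (∀ η ∈ V, (Cy (MonoidHom.id G) fun g => T g η) ∧ ∀ s, T (y s) η = η s) ∧
      ∀ c, Cy (FreeGroup.lift y) c → (∀ w, FreeGroup.lift y w = 1 → w.norm ≤ n → c w = 0) →
        (fun s => c (FreeGroup.of s)) ∈ V' := by
  obtain ⟨hI, hT, -⟩ := hC (FreeGroup (Fin m)) G (Fin m) (FreeGroup.lift y) FreeGroup.of
    (FreeGroup.closure_range_of _)
  choose T T1 T2 using hT
  let Z : ℕ → Submodule ℂ (Fin m → H G) := fun n => Zc (FreeGroup.lift y) FreeGroup.of ⊓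
    ⨅ (w) (_ : FreeGroup.lift y w = 1 ∧ w.norm ≤ n), LinearMap.ker (T w).toLinearMap
  have mem : ∀ n η, η ∈ Z n ↔ η ∈ Zc (FreeGroup.lift y) FreeGroup.of ∧
      ∀ w, FreeGroup.lift y w = 1 ∧ w.norm ≤ n → T w η = 0 := fun n η => by
    simp [Z, Submodule.mem_iInf]
  have inv : ∀ n, Inv (Z n) := fun n => by
    refine ⟨?_, fun g η h => (mem n _).2 ⟨hI.2 g η ((mem n _).1 h).1, fun w hw => ?_⟩⟩
    · have : (Z n : Set (Fin m → H G)) = (Zc (FreeGroup.lift y) FreeGroup.of : Set _) ∩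
          ⋂ (w) (_ : FreeGroup.lift y w = 1 ∧ w.norm ≤ n), {η | T w η = 0} := by
        ext η
        simp [mem]
      rw [this]
      exact hI.1.inter (isClosed_iInter fun w => isClosed_iInter fun _ =>
        isClosed_eq (T w).continuous continuous_const)
    · rw [T1, ((mem n _).1 h).2 w hw, map_zero]
  have anti : Antitone Z := fun a b hab η h =>
    (mem a _).2 ⟨((mem b _).1 h).1, fun w hw => ((mem b _).1 h).2 w ⟨hw.1, hw.2.trans hab⟩⟩
  obtain ⟨n, hn⟩ := ((hD.lim G _ Z inv anti).eventually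
    (gt_mem_nhds (Int.lt_floor_add_one (dim (⨅ n, Z n))))).exists
  choose σ hσ using hy
  refine ⟨n, ⨅ n, Z n, Z n, fun g => T (σ g), ⟨?_, fun g η h => ?_⟩, inv n, hn, fun g => T1 _,
    fun η h => ?_, fun c hc h => (mem n _).2 ⟨⟨c, hc, fun _ => rfl⟩, fun w hw => ?_⟩⟩
  · rw [Submodule.coe_iInf]
    exact isClosed_iInter fun n => (inv n).1
  · exact (Submodule.mem_iInf _).2 fun n => (inv n).2 g η ((Submodule.mem_iInf _).1 h n)
  · have h' := fun n => (mem n η).1 ((Submodule.mem_iInf _).1 h n)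
    obtain ⟨c, hc, e⟩ := (h' 0).1
    have a : ∀ w, T w η = c w := fun w => by rw [T2 w c hc, funext e]
    have b : ∀ g w, FreeGroup.lift y w = g → T (σ g) η = c w := fun g w hw => by
      have b1 := (h' _).2 (w⁻¹ * σ g) ⟨by rw [map_mul, map_inv, hw, hσ, inv_mul_cancel], le_rfl⟩
      have b2 := hc w (w⁻¹ * σ g)
      rw [mul_inv_cancel_left, ← a (w⁻¹ * σ g), b1, map_zero, add_zero] at b2
      rw [a, b2]
    refine ⟨fun g g' => ?_, fun s => by rw [b _ (FreeGroup.of s) (by simp), e]⟩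
    simp only
    rw [b _ (σ g * σ g') (by rw [map_mul, hσ, hσ]), hc, a, a, hσ, MonoidHom.id_apply]
  · rw [← T2 w c hc, h w hw.1 hw.2]

variable {Vx E Fc O : Type} [MulAction G Vx]

/-- The space of cochains and the operators that evaluate them. -/
lemma cochains (hD : DimStmt) (hC : CocStmt) (hZ : ZintStmt) (hG : CT G) [Fintype E] [Fintype O]
    (R : Rp G Vx O) (hH : ∀ v : Vx, Hier (MulAction.stabilizer G v)) :
    ∃ (S : Type) (_ : Fintype S) (ind : S → O) (gen : S → G) (W : Submodule ℂ (S ⊕ E → H G))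
      (N : ℕ) (u : G × O → (S ⊕ E → H G) →L[ℂ] H G)
      (c : ∀ i, R.P i → (S ⊕ E → H G) →L[ℂ] H G), Inv W ∧ dim W = N ∧ (∀ z, u z ∈ Eo G _) ∧
      (∀ ω ∈ W, R.Fib (fun z => u z ω) fun i p => c i p ω) ∧
      (∀ ω ∈ W, (∀ i p, c i p ω = 0) → ∀ s, ω (Sum.inl s) = 0) ∧
      (∀ ω, (∀ s, ω (Sum.inl s) = 0) → ω ∈ W ∧ ∀ z, u z ω = 0) ∧
      ∀ (U : G × O → H G) ω, (∀ i, Cy (R.P i).subtype fun q => U (q, i) - U (1, i)) →
        (∀ s, ω (Sum.inl s) = U (gen s, ind s) - U (1, ind s)) →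
        ω ∈ W ∧ ∀ i (p : R.P i), c i p ω = U (p, i) - U (1, i) := by
  choose S hS fS using fun i => Group.fg_iff.1 (hier_fg (hH (R.b i)))
  have := fun i => (fS i).fintype
  have hS' : ∀ i, Subgroup.closure (Set.range (Subtype.val : S i → R.P i)) = ⊤ := fun i => by
    rw [Subtype.range_coe, hS]
  choose hI hT _ using fun i => hC (R.P i) G (S i) (R.P i).subtype Subtype.val (hS' i)
  choose T T1 T2 using hT
  choose N hN using fun i => hZ (R.P i) G (S i) (R.P i).subtype Subtype.val (hH _)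
    (ct_of_inj (R.P i).subtype_injective hG) (R.P i).subtype_injective (hS' i)
  obtain ⟨a1, a2⟩ := hD.sig G O (fun i => S i) (fun i => Zc (R.P i).subtype Subtype.val)
    (⨅ i, (Zc (R.P i).subtype Subtype.val).comap (LinearMap.funLeft ℂ _ (Sigma.mk i))) hI
    fun η => Submodule.mem_iInf _
  obtain ⟨W, w1, w2, w3⟩ := sum_top hD E a1
  have w4 : ∀ ω, ω ∈ W ↔ ∀ i, ∃ c, Cy (R.P i).subtype c ∧
      ∀ k : S i, c k = ω (Sum.inl ⟨i, k⟩) := fun ω => (w3 ω).trans (Submodule.mem_iInf _)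
  have hr : ∀ z : G × O, (R.rep (z.1 • R.b z.2))⁻¹ * z.1 ∈ R.P z.2 := fun z => by
    have a1 := R.h1 (z.1 • R.b z.2)
    rw [R.h2] at a1
    rw [MulAction.mem_stabilizer_iff, mul_smul, inv_smul_eq_iff, a1]
  let c : ∀ i, R.P i → ((Σ i, S i) ⊕ E → H G) →L[ℂ] H G := fun i p =>
    (T i p).comp (res fun k => Sum.inl ⟨i, k⟩)
  have hc : ∀ ω i c', Cy (R.P i).subtype c' → (∀ k : S i, c' k = ω (Sum.inl ⟨i, k⟩)) →
      ∀ p, c i p ω = c' p := fun ω i c' h e p => by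
    rw [T2 i p c' h, funext e]
    rfl
  refine ⟨Σ i, S i, inferInstance, Sigma.fst, fun s => s.2.1, W, ∑ i, N i + Fintype.card E,
    fun z => (lam (R.rep (z.1 • R.b z.2))).comp (c z.2 ⟨_, hr z⟩), c, w1, ?_,
    fun z => lam_comp _ (res_mem _ (T1 _ _)), fun ω hω g i p => ?_, fun ω hω h s => ?_,
    fun ω h => ⟨(w4 ω).2 fun i => ⟨fun _ => 0, fun _ _ => by simp, fun k => (h _).symm⟩,
      fun z => ?_⟩, fun U ω h e => ⟨(w4 ω).2 fun i => ⟨_, h i, fun k => (e ⟨i, k⟩).symm⟩,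
      fun i => hc ω i _ (h i) fun k => (e ⟨i, k⟩).symm⟩⟩
  · rw [w2, a2]
    simp [hN]
  · obtain ⟨c', h, e⟩ := (w4 ω).1 hω i
    have a : (g * p) • R.b i = g • R.b i := by rw [mul_smul, MulAction.mem_stabilizer_iff.1 p.2]
    have b : (⟨_, hr (g * p, i)⟩ : R.P i) = ⟨_, hr (g, i)⟩ * p := Subtype.ext (by
      simp only [a, Subgroup.coe_mul, mul_assoc])
    simp only [ContinuousLinearMap.comp_apply, hc ω i c' h e, b]
    rw [a, h, map_add, lam_lam]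
    simp
  · obtain ⟨c', h', e⟩ := (w4 ω).1 hω s.1
    rw [← e s.2, ← hc ω _ c' h' e, h]
  · rw [ContinuousLinearMap.comp_apply, hc ω z.2 (fun _ => 0) (fun _ _ => by simp)
      fun k => (h _).symm, map_zero]

lemma exists_val (R : Rp G Vx O) (K : Cx G Vx E Fc) {S : Type}
    {u : G × O → (S ⊕ E → H G) →L[ℂ] H G} (hu : ∀ z, u z ∈ Eo G _) :
    ∃ A : (G × E →₀ ℂ) → (G × O →₀ ℂ) → (S ⊕ E → H G) →L[ℂ] H G, (∀ ζ k, A ζ k ∈ Eo G _) ∧
      ∀ ζ k ω, A ζ k ω = R.val K (fun z => u z ω) (fun e => ω (Sum.inr e)) (ζ, k) := by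
  obtain ⟨a, a1, a2⟩ : ∃ a : G × E → (S ⊕ E → H G) →L[ℂ] H G, (∀ z, a z ∈ Eo G _) ∧
      ∀ ω z, a z ω = lam z.1 (ω (Sum.inr z.2)) :=
    ⟨fun z => _, fun z => lam_comp z.1 (proj_mem (Sum.inr z.2)), fun _ _ => rfl⟩
  refine ⟨fun ζ k => linearCombination ℂ a ζ + linearCombination ℂ u (k - R.dt K ζ),
    fun ζ k => add_mem (lc_mem a1 _) (lc_mem hu _), fun ζ k ω => ?_⟩
  rw [_root_.add_apply, lc_apply, lc_apply, Rp.val_apply, funext (a2 ω), ev]

lemma exists_U {T : G → (κ → H G) →L[ℂ] H G} (hT : ∀ g, T g ∈ Eo G κ) (i₀ : O) :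
    ∃ (U : G × O → (κ ⊕ {i // i ≠ i₀} → H G) →L[ℂ] H G)
      (ph : (κ ⊕ {i // i ≠ i₀} → H G) → O → H G), (∀ z, U z ∈ Eo G _) ∧
      (∀ v g i, U (g, i) v = T g (fun s => v (Sum.inl s)) + lam g (ph v i)) ∧
      (∀ v, ph v i₀ = 0) ∧ ∀ v (i : {i // i ≠ i₀}), ph v i = v (Sum.inr i) := by
  classical
  let ph : O → (κ ⊕ {i // i ≠ i₀} → H G) →L[ℂ] H G := fun i =>
    if h : i = i₀ then 0 else ContinuousLinearMap.proj (Sum.inr ⟨i, h⟩)
  refine ⟨fun z => (T z.1).comp (res Sum.inl) + (lam z.1).comp (ph z.2), fun v i => ph i v,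
    fun z => add_mem (res_mem _ (hT _)) (lam_comp _ ?_), fun _ _ _ => rfl, fun v => ?_,
    fun v i => ?_⟩
  · simp only [ph]
    split_ifs
    · exact zero_mem _
    · exact proj_mem _
  · simp [ph]
  · simp [ph, i.2]

end SqP

end

end Pool.Agent.MP_494aff_an.Se
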