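import Mathlib
import Pool.Agent.MP_494aff_an.se.SqB

/-! The dimension squeeze: cycles bound in complexes of high level. -/

open Filter Topology Finsupp

namespace Pool.Agent.MP_494aff_an.Se

open Pool.Agent.MP_494aff_an.Pinch Pool.Agent.MP_494aff_an.Pinch.TowP Pool.Agent.MP_494aff_an.Lf

open SqP

theorem sq (hD : DimStmt) (hC : CocStmt) (hZ : ZintStmt) (hG : GapStmt) : SqStmt := by
  classical
  intro G _ m y ct hy
  obtain ⟨n, V₀, V₀', T, v1, v2, v3, v4, v5, v6⟩ := levels hD hC y hy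
  refine ⟨n, fun Vx E Fc _ _ _ K v₀ x hK ζ₀ _ hζ₀ => ?_⟩
  obtain ⟨O, _, b, orb, rep, i₀, r0, r1, r2⟩ := exists_orb hK.fin v₀
  obtain ⟨R, rfl⟩ : ∃ R : Rp G Vx O, R.b i₀ = v₀ := ⟨⟨b, orb, rep, r1, r2⟩, r0⟩
  obtain ⟨g1, g2⟩ := hG G Vx E Fc K hK.ok ct
  obtain ⟨S, _, ind, gen, W, N, u, c, w1, w2, w3, w4, w5, w6, w7⟩ :=
    cochains (E := E) hD hC hZ ct R hK.hier
  choose p hp using fun i => exists_chain K (hK.con (R.b i))
  obtain ⟨V, a1, a2, a3⟩ := sum_top hD {i // i ≠ i₀} v1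
  obtain ⟨V', -, a5, a6⟩ := sum_top hD {i // i ≠ i₀} v2
  obtain ⟨A, A1, A2⟩ := exists_val R K w3
  have A0 : ∀ (ξ : E → H G) ζ, A ζ 0 (Sum.elim 0 ξ) = ev ξ ζ := fun ξ ζ => by
    rw [A2, Rp.val_apply, funext (w6 (Sum.elim 0 ξ) fun _ => rfl).2]
    simp [linearCombination_apply]
  obtain ⟨B, eB, hB⟩ := exists_pi (fun f => A (K.bd f) 0) fun f => A1 _ _
  obtain ⟨Z, z1, z2, mZ⟩ : ∃ Z : Submodule ℂ (S ⊕ E → H G), Inv Z ∧
      dim Z = ((N - Fintype.card Fc : ℤ) : ℝ) ∧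
      ∀ ω, ω ∈ Z ↔ ω ∈ W ∧ ∀ f, A (K.bd f) 0 ω = 0 := by
    refine ⟨_, hD.inv_ker G _ _ W B w1 eB, ?_, fun ω => and_congr_right fun _ => ?_⟩
    · have b1 := hD.rn G _ _ W B w1 eB
      have b2 : W.map B.toLinearMap = ⊤ := Submodule.eq_top_iff'.2 fun η => by
        obtain ⟨ξ, rfl⟩ := g1 η
        exact ⟨Sum.elim 0 ξ, (w6 _ fun _ => rfl).1, funext fun f => (hB _ f).trans (A0 ξ _)⟩
      rw [b2, hD.top, w2] at b1
      push_cast
      linarith
    · simp only [← hB]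
      exact funext_iff
  obtain ⟨U, ph, U1, U2, U3, U4⟩ := exists_U v4 i₀
  obtain ⟨X, eX, X1⟩ := exists_pi (κ := S ⊕ E)
    (Sum.elim (fun s => U (gen s, ind s) - U (1, ind s))
      fun e => linearCombination ℂ U (R.dt K (single (1, e) 1)))
    (by
      rintro (s | e)
      · exact sub_mem (U1 _) (U1 _)
      · exact lc_mem U1 _)
  obtain ⟨Ψ, eΨ, Ψ1⟩ := exists_pi (κ := Fin m ⊕ {i // i ≠ i₀})
    (Sum.elim (fun s => A (x (FreeGroup.of s)) (single (y s, i₀) 1 - single (1, i₀) 1))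
      fun i => A (p i) (single (1, i.1) 1 - single (1, i₀) 1))
    (by rintro (s | e) <;> exact A1 _ _)
  have hX : ∀ v ∈ V, X v ∈ W ∧ ∀ ζ k, R.pr k = K.d1 ζ →
      A ζ k (X v) = linearCombination ℂ (fun z => U z v) k := fun v hv => by
    obtain ⟨b1, b2, b3⟩ := Rp.ex_cy (v5 _ ((a3 v).1 hv)).1 (ph v)
      (U := fun z => U z v) (U2 v) R
    obtain ⟨b4, b5⟩ := w7 (fun z => U z v) (X v) b2 fun s => X1 v _
    refine ⟨b4, fun ζ k hk => ?_⟩
    have b6 := w4 _ b4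
    simp only [b5] at b6
    rw [A2]
    exact b6.val_ex b1 b3 (fun e => (X1 v _).trans (lc_apply _ _ _)) hk
  have k1 : ∀ v ∈ V, X v ∈ Z := fun v hv => (mZ _).2 ⟨(hX v hv).1, fun f => by
    rw [(hX v hv).2 _ _ (by rw [map_zero, hK.ok.cyc]), map_zero]⟩
  have k2 : ∀ v ∈ V, Ψ (X v) = v := fun v hv => funext fun j => by
    obtain ⟨b1, b2⟩ := v5 _ ((a3 v).1 hv)
    have b3 : T 1 (fun i => v (Sum.inl i)) = 0 := cy_one b1
    rw [Ψ1]
    rcases j with s | i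
    · rw [Sum.elim_inl, (hX v hv).2 _ _ (by
        rw [hK.bdx, map_sub, Rp.pr_single, Rp.pr_single, FreeGroup.lift_apply_of, one_smul])]
      simp only [map_sub, linearCombination_single, one_smul, U2, U3, b2, b3, map_zero, add_zero,
        sub_zero]
    · rw [Sum.elim_inr, (hX v hv).2 _ _ (by
        rw [hp, map_sub, Rp.pr_single, Rp.pr_single, one_smul, one_smul])]
      simp only [map_sub, linearCombination_single, one_smul, U2, U3, U4, b3, map_zero, add_zero,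
        sub_zero, zero_add, lam_id]
  have k3 : ∀ ω ∈ Z, Ψ ω ∈ V' := fun ω hω => by
    obtain ⟨b1, b2⟩ := (mZ ω).1 hω
    have b3 := v6 _ ((w4 ω b1).coc (ξ := fun e => ω (Sum.inr e)) hK) fun w h1 h2 => by
      obtain ⟨η, e⟩ := hK.rel w h1 h2
      simp only [h1, sub_self, ← e]
      exact (w4 ω b1).val_d2 hK.ok.cyc (fun f => (A2 _ _ _).symm.trans (b2 f)) η
    rw [a6]
    simpa only [FreeGroup.lift_apply_of, Ψ1, Sum.elim_inl, A2] using b3
  have k4 : ∀ ω ∈ Z, Ψ ω = 0 → ω = 0 := fun ω hω e => by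
    obtain ⟨b1, b2⟩ := (mZ ω).1 hω
    have b0 : ∀ j, Ψ ω j = 0 := congrFun e
    simp only [Ψ1] at b0
    obtain ⟨b3, b4⟩ := (w4 ω b1).inj (ξ := fun e => ω (Sum.inr e)) hK hy hp
      (fun f => (A2 _ _ _).symm.trans (b2 f))
      (fun s => (A2 _ _ _).symm.trans (b0 (Sum.inl s)))
      fun i hi => (A2 _ _ _).symm.trans (b0 (Sum.inr ⟨i, hi⟩))
    funext j
    rcases j with s | e
    · exact w5 ω b1 b4 s
    · exact b3 e
  have key := squeeze hD a1 z1 eX eΨ k1 k2 k3 k4 z2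
    (by rw [a2, a5, Int.floor_add_natCast]; push_cast; linarith)
  have b1 : (V.map X.toLinearMap).topologicalClosure ≤ LinearMap.ker (A ζ₀ 0).toLinearMap := by
    refine Submodule.topologicalClosure_minimal _ ?_ (A ζ₀ 0).isClosed_ker
    rintro _ ⟨v, hv, rfl⟩
    exact ((hX v hv).2 _ _ (by rw [map_zero, hζ₀])).trans (map_zero _)
  rw [key] at b1
  obtain ⟨η, hη⟩ := g2 ζ₀ fun ξ hξ => by
    rw [← A0]
    exact b1 ((mZ _).2 ⟨(w6 _ fun _ => rfl).1, fun f => (A0 ξ _).trans (hξ f)⟩)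
  exact ⟨η, fun _ _ => trivial, hη⟩

end Pool.Agent.MP_494aff_an.Se
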