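import Mathlib
import Pool.Agent.MP_494aff_an.fr.Loop

/-! The hierarchy from complexes of every level. -/

namespace Pool.Agent.MP_494aff_an.Se

open Pool.Agent.MP_494aff_an.Pinch Pool.Agent.MP_494aff_an.Pinch.TowP Pool.Agent.MP_494aff_an.Lf

lemma exists_gen {G : Type} [Group G] (h : Group.FG G) :
    ∃ (m : ℕ) (y : Fin m → G), Function.Surjective (FreeGroup.lift y) := by
  obtain ⟨s, hs⟩ := h.out
  refine ⟨s.card, fun i => (s.equivFin.symm i : G), ?_⟩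
  rw [← MonoidHom.range_eq_top, FreeGroup.range_lift_eq_closure, ← hs]
  congr 1
  ext x
  exact ⟨fun ⟨i, hi⟩ => hi ▸ (s.equivFin.symm i).2, fun hx => ⟨s.equivFin ⟨x, hx⟩, by simp⟩⟩

theorem core (h4 : LnStmt) (h5 : BandStmt) (h6 : SqStmt) (h7 : WallStmt) : Fr.CoreStmt := by
  intro G T _ _ _ ℓ U φ hfg hct _ hC hab hP
  obtain ⟨Ln, hT⟩ := h4 G T ℓ hct hC
  obtain ⟨m, y, hy⟩ := exists_gen hfg
  obtain ⟨n, hn⟩ := h6 G m y hct hy
  obtain ⟨Vx, E, Fc, _, _, _, K, v₀, x, hK⟩ := h5 G T Ln m y n hT hab hP hy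
  exact h7 G Vx E Fc K v₀ hK.ok hct hfg hK.hier (hn Vx E Fc K v₀ x hK) fun g => hK.con _

theorem top (h1 : MeasStmt) (h2 : AbStmt) (h3 : UltStmt) (h4 : LnStmt) (h5 : BandStmt)
    (h6 : SqStmt) (h7 : WallStmt) : Un.HierStmt :=
  Fr.hier2 h3 h1 h2 (core h4 h5 h6 h7)

end Pool.Agent.MP_494aff_an.Se
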