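import Pool.Agent.MP_494aff_an.se.SpecA

/-! PROJECT SE, row WA: a shortest essential closed chain of faces is a wall. -/

namespace Pool.Agent.MP_494aff_an.Se

namespace WaP

theorem sh_apply {G X : Type} [Group G] (g : G) (c : G × X →₀ ℂ) (z : G × X) :
    sh g c z = c (g⁻¹ * z.1, z.2) := by
  have hi : Function.Injective fun x : G × X => (g * x.1, x.2) := fun x y h => by
    simp only [Prod.mk.injEq, mul_right_inj] at h
    exact Prod.ext h.1 h.2
  have := Finsupp.mapDomain_apply hi c (g⁻¹ * z.1, z.2)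
  simpa [sh] using this

/-- Chains of given length. -/
def Pt {X : Type} (A : X → X → Prop) : ℕ → X → X → Prop
  | 0, x, y => x = y
  | n + 1, x, y => ∃ w, Pt A n x w ∧ A w y

variable {X : Type} {A : X → X → Prop}

theorem Pt.add {m n : ℕ} {x y z : X} (h : Pt A m x y) (h' : Pt A n y z) : Pt A (m + n) x z := by
  induction n generalizing z with
  | zero => exact h' ▸ h
  | succ n ih =>
    obtain ⟨w, h1, h2⟩ := h'
    exact ⟨w, ih h1, h2⟩

theorem Pt.seq {n : ℕ} {x y : X} (h : Pt A n x y) :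
    ∃ p : ℕ → X, p 0 = x ∧ p n = y ∧ ∀ i < n, A (p i) (p (i + 1)) := by
  induction n generalizing y with
  | zero => exact ⟨fun _ => x, rfl, h, fun _ h => absurd h (Nat.not_lt_zero _)⟩
  | succ n ih =>
    obtain ⟨w, h1, h2⟩ := h
    obtain ⟨p, h3, h4, h5⟩ := ih h1
    refine ⟨fun i => if i ≤ n then p i else y, by simpa using h3, by simp, fun i hi => ?_⟩
    rcases Nat.lt_succ_iff_lt_or_eq.1 hi with h | rfl
    · simp only [if_pos h.le, if_pos (Nat.succ_le_of_lt h)]
      exact h5 i h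
    · simpa [h4] using h2

theorem Pt.of_seq {p : ℕ → X} {n : ℕ} (h : ∀ i < n, A (p i) (p (i + 1))) (a d : ℕ)
    (hd : a + d ≤ n) : Pt A d (p a) (p (a + d)) := by
  induction d with
  | zero => rfl
  | succ d ih => exact ⟨p (a + d), ih (by omega), h _ (by omega)⟩

theorem Pt.of_eqv (hs : ∀ x y, A x y → A y x) {x y : X} (h : Relation.EqvGen A x y) :
    (∃ n, Pt A n x y) ∧ ∃ n, Pt A n y x := by
  induction h with
  | rel x y h => exact ⟨⟨1, x, rfl, h⟩, 1, y, rfl, hs _ _ h⟩
  | refl x => exact ⟨⟨0, rfl⟩, 0, rfl⟩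
  | symm x y _ ih => exact ih.symm
  | trans x y z _ _ h1 h2 =>
    obtain ⟨⟨a, ha⟩, b, hb⟩ := h1
    obtain ⟨⟨c, hc⟩, d, hd⟩ := h2
    exact ⟨⟨_, ha.add hc⟩, _, hd.add hb⟩

variable {G Vx E Fc : Type} [Group G] (K : Cx G Vx E Fc) (F : Finset Fc)

/-- The face `x` contains the edge `z`. -/
def In (x : G × Fc) (z : G × E) : Prop := x.2 ∈ F ∧ K.bd x.2 (x.1⁻¹ * z.1, z.2) ≠ 0

variable {K F}

theorem In.smul {x : G × Fc} {z : G × E} (h : In K F x z) (g : G) :
    In K F (g * x.1, x.2) (g * z.1, z.2) := ⟨h.1, by simpa [mul_assoc] using h.2⟩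

theorem two (hm : ∀ e, K.mult F e = 0 ∨ K.mult F e = 2) {x y w : G × Fc} {z : G × E}
    (hx : In K F x z) (hy : In K F y z) (hw : In K F w z) (hxy : x ≠ y) : w = x ∨ w = y := by
  classical
  by_contra h
  rw [not_or] at h
  let oc : G × Fc → Σ _ : Fc, G × E := fun u => ⟨u.2, (u.1⁻¹ * z.1, z.2)⟩
  have hi : Function.Injective oc := fun u v huv => by
    simp only [oc, Sigma.mk.injEq, heq_eq_eq, Prod.mk.injEq, mul_left_inj, inv_inj] at huv
    exact Prod.ext huv.2.1 huv.1
  have hmem : ∀ u, In K F u z →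
      oc u ∈ F.sigma fun f => (K.bd f).support.filter fun a => a.2 = z.2 := fun u hu => by
    simp only [oc, Finset.mem_sigma, Finset.mem_filter, Finsupp.mem_support_iff]
    exact ⟨hu.1, hu.2, trivial⟩
  have h3 := Finset.two_lt_card_iff.2 ⟨oc x, oc y, oc w, hmem x hx, hmem y hy, hmem w hw,
    hi.ne hxy, hi.ne (Ne.symm h.1), hi.ne (Ne.symm h.2)⟩
  rw [Finset.card_sigma] at h3
  have h4 : 2 < K.mult F z.2 := by
    unfold Cx.mult
    convert h3
  rcases hm z.2 with h5 | h5 <;> omega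

end WaP

open WaP in
theorem wa : WaStmt := by
  classical
  intro G Vx E Fc _ _ K F hK ⟨f, hf⟩ hm
  let A : G × Fc → G × Fc → Prop := fun x y => ∃ z, In K F x z ∧ In K F y z
  have hex : ∃ k, ∃ x y : G × Fc, x.2 = y.2 ∧ x ≠ y ∧ Pt A k x y := by
    obtain ⟨x, y, hxy, hx, -⟩ := hK.na F (fun e => by rcases hm e with h | h <;> omega) f hf
    have h1 : Relation.EqvGen A (1, f) (x, f) := by
      refine Relation.EqvGen.mono (fun a b h => ?_) _ _ hx
      obtain ⟨h1, h2, z, h3, h4⟩ := h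
      rw [sh_apply] at h3 h4
      exact ⟨z, ⟨h1, h3⟩, h2, h4⟩
    obtain ⟨k, hk⟩ := (Pt.of_eqv (fun _ _ ⟨z, h1, h2⟩ => ⟨z, h2, h1⟩) h1).1
    refine ⟨k, (1, f), (x, f), rfl, fun h => hxy ?_, hk⟩
    rw [← show 1 = x from (Prod.ext_iff.1 h).1]
    simp
  obtain ⟨x, y, hxy, hne, hP⟩ := Nat.find_spec hex
  have hmin := fun m (h : m < Nat.find hex) => Nat.find_min hex h
  generalize Nat.find hex = k at hP hmin
  obtain ⟨p, rfl, rfl, hp⟩ := hP.seq
  have hk : 0 < k := Nat.pos_of_ne_zero fun h => hne (by rw [h])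
  have hD : ∀ a b, a < b → b ≤ k → (p a).2 = (p b).2 → a = 0 ∧ b = k := fun a b hab hb h => by
    obtain ⟨d, rfl⟩ := Nat.exists_eq_add_of_le hab.le
    obtain ⟨c, rfl⟩ := Nat.exists_eq_add_of_le hb
    by_cases e : p a = p (a + d)
    · have h1 := Pt.of_seq hp 0 a (by omega)
      rw [zero_add, e] at h1
      exact absurd ⟨_, _, hxy, hne, h1.add (Pt.of_seq hp (a + d) c le_rfl)⟩ (hmin _ (by omega))
    · by_contra h2
      exact hmin d (by omega) ⟨_, _, h, e, Pt.of_seq hp a d (by omega)⟩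
  have hN : ∀ a b, a < b → b ≤ k → p a ≠ p b := fun a b hab hb h => by
    obtain ⟨rfl, rfl⟩ := hD a b hab hb (by rw [h])
    exact hne h
  have hz0 : ∀ i, ∃ z, i < k → In K F (p i) z ∧ In K F (p (i + 1)) z := fun i => by
    by_cases h : i < k
    · obtain ⟨z, hz⟩ := hp i h
      exact ⟨z, fun _ => hz⟩
    · obtain ⟨z, -⟩ := hp 0 hk
      exact ⟨z, fun h' => absurd h' h⟩
  choose z hz using hz0
  have hE : ∀ a b, a < b → b < k → (z a).2 ≠ (z b).2 := fun a b hab hb h => by
    have h1 := (hz a (by omega)).1.smul ((z b).1 * (z a).1⁻¹)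
    have h2 := (hz a (by omega)).2.smul ((z b).1 * (z a).1⁻¹)
    rw [inv_mul_cancel_right, h] at h1 h2
    have h3 : ((z b).1 * (z a).1⁻¹ * (p a).1, (p a).2) ≠
        ((z b).1 * (z a).1⁻¹ * (p (a + 1)).1, (p (a + 1)).2) := fun e => by
      simp only [Prod.mk.injEq, mul_right_inj] at e
      exact hN a (a + 1) (by omega) (by omega) (Prod.ext e.1 e.2)
    rcases two hm h1 h2 (hz b hb).1 h3 with e | e
    · have := hD a b hab hb.le (by rw [e])
      omega
    · obtain rfl : b = a + 1 := by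
        by_contra h4
        have := hD (a + 1) b (by omega) hb.le (by rw [e])
        omega
      have h5 : (z (a + 1)).1 * (z a).1⁻¹ = 1 := by
        simpa using (Prod.ext_iff.1 e).1.symm
      rcases two hm h1 h2 (hz _ hb).2 h3 with e' | e'
      · rw [h5, one_mul] at e'
        exact hN a (a + 1 + 1) (by omega) (by omega) e'.symm
      · exact hN (a + 1) (a + 1 + 1) (by omega) (by omega) (e.trans e'.symm)
  set h : G := (p k).1 * (p 0).1⁻¹ with hh
  have k0 : (k : ℤ) ≠ 0 := by omega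
  have hr : ∀ i : ℤ, (i % k).toNat < k := fun i => by
    have := Int.emod_nonneg i k0
    have := Int.emod_lt_of_pos i (b := k) (by omega)
    omega
  have hdv : ∀ i j : ℤ, (i % k).toNat = (j % k).toNat → (k : ℤ) ∣ i - j := fun i j e => by
    have := Int.emod_nonneg i k0
    have := Int.emod_nonneg j k0
    exact Int.ModEq.dvd (show j % k = i % k by omega)
  have hq : ∀ i : ℤ, h ^ ((i + k) / k) = h * h ^ (i / k) := fun i => by
    rw [show (i + k) / k = i / k + 1 by simpa using Int.add_mul_ediv_right i 1 k0, add_comm,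
      zpow_one_add]
  let φ : ℤ → G × Fc := fun i => (h ^ (i / k) * (p (i % k).toNat).1, (p (i % k).toNat).2)
  let ε : ℤ → G × E := fun i =>
    (h ^ ((i - 1) / k) * (z ((i - 1) % k).toNat).1, (z ((i - 1) % k).toNat).2)
  have hφ : ∀ i : ℤ, φ (i + 1) =
      (h ^ (i / k) * (p ((i % k).toNat + 1)).1, (p ((i % k).toNat + 1)).2) := fun i => by
    have h0 := Int.emod_nonneg i k0
    have h1 := Int.emod_lt_of_pos i (b := k) (by omega)
    have h2 := Int.emod_add_mul_ediv i k
    by_cases e : i % k + 1 < k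
    · obtain ⟨h3, h4⟩ := (Int.ediv_emod_unique (a := i + 1) (r := i % k + 1) (q := i / k)
        (b := k) (by omega)).2 ⟨by omega, by omega, e⟩
      simp only [φ, h3, h4, show (i % k + 1).toNat = (i % k).toNat + 1 by omega]
    · obtain ⟨h3, h4⟩ := (Int.ediv_emod_unique (a := i + 1) (r := 0) (q := i / k + 1)
        (b := k) (by omega)).2 ⟨by rw [mul_add]; omega, le_rfl, by omega⟩
      simp only [φ, h3, h4, show (i % k).toNat + 1 = k by omega, zpow_add_one, hh,
        Int.toNat_zero, hxy, mul_assoc, inv_mul_cancel, mul_one]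
  have hR : ∀ i, In K F (φ i) (ε (i + 1)) := fun i => by
    simpa [φ, ε] using (hz _ (hr i)).1.smul (h ^ (i / k))
  have hL : ∀ i, In K F (φ (i + 1)) (ε (i + 1)) := fun i => by
    rw [hφ]
    simpa [ε] using (hz _ (hr i)).2.smul (h ^ (i / k))
  refine ⟨k, h, φ, ε, hk, fun e => hne (Prod.ext (mul_inv_eq_one.1 e).symm hxy), fun i => ?_,
    fun i => ?_, fun i => (hR i).1, fun i j e => hdv i j ?_, fun i j e => ?_, fun i => ?_,
    fun i => ?_, fun i x hx e => ?_⟩
  · simp only [φ, hq, Int.add_emod_right, mul_assoc]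
  · simp only [ε, add_sub_right_comm, hq, Int.add_emod_right, mul_assoc]
  · have h1 := hr i
    have h2 := hr j
    rcases lt_trichotomy (i % k).toNat (j % k).toNat with h3 | h3 | h3
    · have := hD _ _ h3 h2.le e
      omega
    · exact h3
    · have := hD _ _ h3 h1.le e.symm
      omega
  · rw [← sub_sub_sub_cancel_right i j 1]
    refine hdv _ _ ?_
    rcases lt_trichotomy ((i - 1) % k).toNat ((j - 1) % k).toNat with h3 | h3 | h3
    · exact absurd e (hE _ _ h3 (hr _))
    · exact h3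
    · exact absurd e.symm (hE _ _ h3 (hr _))
  · have := (hL (i - 1)).2
    rwa [sub_add_cancel, ← sh_apply] at this
  · rw [sh_apply]
    exact (hR i).2
  · rw [sh_apply] at e
    refine two hm (hR i) (hL i) ⟨hx, e⟩ fun e' => ?_
    rw [hφ] at e'
    simp only [φ, Prod.mk.injEq, mul_right_inj] at e'
    exact hN _ _ (Nat.lt_succ_self _) (hr i) (Prod.ext e'.1 e'.2)

end Pool.Agent.MP_494aff_an.Se
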