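import Pool.Agent.MP_494aff_an.se.SpecA

/-! The induction on the number of edge types. -/

open Finsupp

namespace Pool.Agent.MP_494aff_an.Se

open Pool.Agent.MP_494aff_an.Pinch Pool.Agent.MP_494aff_an.Pinch.TowP Pool.Agent.MP_494aff_an.Lf

namespace WallP

variable {G Vx E Fc : Type} [Group G] [MulAction G Vx] (K : Cx G Vx E Fc)

lemma sh_apply {X : Type} (g : G) (ζ : G × X →₀ ℂ) (z : G × X) :
    sh g ζ z = ζ (g⁻¹ * z.1, z.2) := by
  have hi : Function.Injective fun x : G × X => (g * x.1, x.2) := by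
    intro x y h
    simp only [Prod.mk.injEq, mul_right_inj] at h
    exact Prod.ext h.1 h.2
  have := mapDomain_apply hi ζ (g⁻¹ * z.1, z.2)
  simpa [sh] using this

omit [MulAction G Vx] in
lemma d2_apply (η : G × Fc →₀ ℂ) (z : G × E) :
    K.d2 η z = ∑ x ∈ η.support, η x * K.bd x.2 (x.1⁻¹ * z.1, z.2) := by
  rw [Cx.d2, linearCombination_apply, Finsupp.sum, Finset.sum_apply']
  exact Finset.sum_congr rfl fun x _ => by rw [Finsupp.smul_apply, sh_apply, smul_eq_mul]

/-- The pairing of a cycle with a function that is constant along all edges but one. -/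
lemma pairing (χ : Vx → ℂ) (ζ : G × E →₀ ℂ) (h0 : K.d1 ζ = 0) (z : G × E)
    (h : ∀ x ∈ ζ.support, x ≠ z → χ (x.1 • K.t x.2) = χ (x.1 • K.o x.2)) (hz : ζ z ≠ 0) :
    χ (z.1 • K.t z.2) = χ (z.1 • K.o z.2) := by
  have h1 := congrArg (linearCombination ℂ χ) h0
  rw [Cx.d1, map_zero, linearCombination_apply ℂ ζ, Finsupp.sum, map_sum,
    Finset.sum_eq_single z] at h1
  · simp only [map_smul, map_sub, linearCombination_single, one_mul, smul_eq_mul, mul_eq_zero,
      hz, false_or] at h1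
    exact sub_eq_zero.1 h1
  · intro x hx hxz
    simp only [map_smul, map_sub, linearCombination_single, one_smul, h x hx hxz, sub_self,
      smul_zero]
  · intro hn
    exact absurd (mem_support_iff.2 hz) hn

/-- Joined through edges of the set `S`. -/
def Jn (S : Set (G × E)) : Vx → Vx → Prop :=
  Relation.EqvGen fun a b => ∃ x ∈ S, x.1 • K.o x.2 = a ∧ x.1 • K.t x.2 = b

lemma chain {S : Set (G × E)} {a b : Vx} (h : Jn K S a b) :
    ∃ ζ : G × E →₀ ℂ, (∀ x, ζ x ≠ 0 → x ∈ S) ∧ K.d1 ζ = single b 1 - single a 1 := by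
  induction h with
  | rel a b h =>
    obtain ⟨x, hx, rfl, rfl⟩ := h
    refine ⟨single x 1, fun y hy => ?_, by rw [Cx.d1, linearCombination_single, one_smul]⟩
    rwa [(single_apply_ne_zero.1 hy).1]
  | refl a => exact ⟨0, fun x hx => absurd rfl hx, by simp⟩
  | symm a b _ ih =>
    obtain ⟨ζ, h1, h2⟩ := ih
    exact ⟨-ζ, fun x hx => h1 x (by simpa using hx), by rw [map_neg, h2, neg_sub]⟩
  | trans a b c _ _ ih ih' =>
    obtain ⟨ζ, h1, h2⟩ := ih
    obtain ⟨ζ', h1', h2'⟩ := ih'
    refine ⟨ζ + ζ', fun x hx => ?_, by rw [map_add, h2, h2']; abel⟩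
    by_cases h : ζ x = 0
    · exact h1' x fun h' => hx (by rw [Finsupp.add_apply, h, h', add_zero])
    · exact h1 x h

lemma cn_smul {S : Set E} {a b : Vx} (h : K.Cn S a b) (g : G) : K.Cn S (g • a) (g • b) := by
  induction h with
  | rel a b h =>
    obtain ⟨u, e, he, rfl, rfl⟩ := h
    exact .rel _ _ ⟨g * u, e, he, mul_smul _ _ _, mul_smul _ _ _⟩
  | refl a => exact .refl _
  | symm a b _ ih => exact ih.symm _ _
  | trans a b c _ _ ih ih' => exact ih.trans _ _ _ ih'

lemma cn_mono {S S' : Set E} (h : ∀ e ∈ S, K.Cn S' (K.o e) (K.t e)) {a b : Vx}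
    (hab : K.Cn S a b) : K.Cn S' a b := by
  induction hab with
  | rel a b h' =>
    obtain ⟨u, e, he, rfl, rfl⟩ := h'
    exact cn_smul K (h e he) u
  | refl a => exact .refl _
  | symm a b _ ih => exact ih.symm _ _
  | trans a b c _ _ ih ih' => exact ih.trans _ _ _ ih'

lemma cn_edge {S : Set E} {e : E} (he : e ∈ S) : K.Cn S (K.o e) (K.t e) :=
  .rel _ _ ⟨1, e, he, one_smul _ _, one_smul _ _⟩

lemma cn_empty {a b : Vx} (h : K.Cn ((∅ : Finset E) : Set E) a b) : a = b := by
  induction h with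
  | rel a b h => obtain ⟨_, e, he, _⟩ := h; simp at he
  | refl a => rfl
  | symm a b _ ih => exact ih.symm
  | trans a b c _ _ ih ih' => exact ih.trans ih'

omit [Group G] [MulAction G Vx] in
lemma mult_zero {F : Finset Fc} {e : E} :
    K.mult F e = 0 ↔ ∀ f ∈ F, ∀ x ∈ (K.bd f).support, x.2 ≠ e := by
  simp only [Cx.mult, Finset.sum_eq_zero_iff, Finset.card_eq_zero, Finset.filter_eq_empty_iff,
    ne_eq]

omit [Group G] [MulAction G Vx] in
lemma mult_one {F : Finset Fc} {e : E} (h : K.mult F e = 1) :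
    ∃ f₀ ∈ F, ∃ x₀ ∈ (K.bd f₀).support, x₀.2 = e ∧
      ∀ f ∈ F, ∀ x ∈ (K.bd f).support, x.2 = e → f = f₀ ∧ x = x₀ := by
  classical
  rw [Cx.mult, ← Finset.card_sigma, Finset.card_eq_one] at h
  obtain ⟨p, hp⟩ := h
  have hm := Finset.mem_singleton_self p
  rw [← hp, Finset.mem_sigma, Finset.mem_filter] at hm
  refine ⟨p.1, hm.1, p.2, hm.2.1, hm.2.2, fun f hf x hx he => ?_⟩
  have : (⟨f, x⟩ : Σ _ : Fc, G × E) ∈ ({p} : Finset _) := by
    rw [← hp, Finset.mem_sigma, Finset.mem_filter]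
    exact ⟨hf, hx, he⟩
  rw [Finset.mem_singleton] at this
  subst this
  exact ⟨rfl, rfl⟩

/-- An edge type that occurs once is removed together with its face type. -/
lemma step_one (hK : K.Ok) {E' : Finset E} {F : Finset Fc} (hS : K.Sub E' F) (hH : K.H1 E' F)
    {e : E} (he : e ∈ E') (h1 : K.mult F e = 1) : K.Step E' := by
  classical
  obtain ⟨f₀, hf₀, x₀, hx₀, rfl, hu⟩ := mult_one K h1
  refine ⟨E'.erase x₀.2, F.erase f₀, Finset.card_erase_lt_of_mem he, fun f hf x hx => ?_,
    fun ζ hζ h0 => ?_, fun hP v P hv => hP v P fun g => (hv g).trans ⟨fun h => ?_, fun h => ?_⟩⟩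
  · rw [Finset.mem_erase] at hf ⊢
    exact ⟨fun h => hf.1 (hu f hf.2 x hx h).1, hS f hf.2 x hx⟩
  · obtain ⟨η, h2, h3⟩ := hH ζ (fun x hx => Finset.mem_of_mem_erase (hζ x hx)) h0
    refine ⟨η, fun x hx => Finset.mem_coe.2 (Finset.mem_erase.2 ⟨fun hx0 => ?_, h2 x hx⟩), h3⟩
    have h4 : ζ (x.1 * x₀.1, x₀.2) = 0 := by
      by_contra hn
      exact (Finset.mem_erase.1 (hζ _ (mem_support_iff.2 hn))).1 rfl
    rw [← h3, d2_apply, Finset.sum_eq_single x] at h4
    · simp only [inv_mul_cancel_left, Prod.mk.eta, mul_eq_zero, hx0] at h4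
      exact h4.elim (mem_support_iff.1 hx) (mem_support_iff.1 hx₀)
    · intro y hy hyx
      by_contra hn
      obtain ⟨h5, h6⟩ := hu y.2 (h2 y hy) _ (mem_support_iff.2 (right_ne_zero_of_mul hn)) rfl
      refine hyx (Prod.ext ?_ (h5.trans hx0.symm))
      have h7 := congrArg Prod.fst h6
      simp only [inv_mul_eq_iff_eq_mul, mul_left_inj] at h7
      exact h7.symm
    · exact fun hn => absurd hx hn
  · refine cn_mono K (fun e he' => ?_) h
    by_cases hee : e = x₀.2
    · subst hee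
      have h2 := pairing K
        (fun w => if K.Cn (E'.erase x₀.2 : Finset E) (x₀.1 • K.o x₀.2) w then 1 else 0)
        (K.bd f₀) (hK.cyc f₀) x₀ (fun x hx hne => ?_) (mem_support_iff.1 hx₀)
      · have h4 : K.Cn (E'.erase x₀.2 : Finset E) (x₀.1 • K.o x₀.2) (x₀.1 • K.o x₀.2) := .refl _
        rw [if_pos h4] at h2
        have h3 : K.Cn (E'.erase x₀.2 : Finset E) (x₀.1 • K.o x₀.2) (x₀.1 • K.t x₀.2) := by
          by_contra hn
          rw [if_neg hn] at h2
          exact zero_ne_one h2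
        simpa using cn_smul K h3 x₀.1⁻¹
      · have h3 : K.Cn (E'.erase x₀.2 : Finset E) (x.1 • K.o x.2) (x.1 • K.t x.2) :=
          cn_smul K (cn_edge K (Finset.mem_coe.2 (Finset.mem_erase.2
            ⟨fun h => hne (hu f₀ hf₀ x hx h).2, hS f₀ hf₀ x hx⟩))) _
        exact if_congr ⟨fun h => h.trans _ _ _ (h3.symm _ _), fun h => h.trans _ _ _ h3⟩ rfl rfl
    · exact cn_edge K (Finset.mem_coe.2 (Finset.mem_erase.2 ⟨hee, he'⟩))
  · exact cn_mono K (fun e he' => cn_edge K (Finset.mem_coe.2 (Finset.mem_of_mem_erase he'))) h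

/-- The components for the edge types in `S`. -/
def Comp (S : Set E) : Type :=
  Quot fun a b : Vx => ∃ g : G, ∃ e ∈ S, g • K.o e = a ∧ g • K.t e = b

/-- The component of a vertex. -/
def cmp (S : Set E) (a : Vx) : Comp K S := Quot.mk _ a

lemma cmp_eq {S : Set E} {a b : Vx} : cmp K S a = cmp K S b ↔ K.Cn S a b := Quot.eq

instance (S : Set E) : MulAction G (Comp K S) where
  smul g := Quot.lift (fun a => cmp K S (g • a)) fun _ _ h =>
    (cmp_eq K).2 (cn_smul K (.rel _ _ h) g)
  one_smul := by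
    rintro ⟨a⟩
    exact congrArg (cmp K S) (one_smul G a)
  mul_smul := by
    rintro g h ⟨a⟩
    exact congrArg (cmp K S) (mul_smul g h a)

lemma smul_cmp (S : Set E) (g : G) (a : Vx) : g • cmp K S a = cmp K S (g • a) := rfl

/-- An edge type that lies in no face gives a splitting over the trivial group. -/
lemma step_zero (hB : BsStmt) (hG : CT G) {E' : Finset E} {F : Finset Fc} (hS : K.Sub E' F)
    (hH : K.H1 E' F) {e : E} (he : e ∈ E') (h0 : K.mult F e = 0) : K.Step E' := by
  classical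
  rw [mult_zero] at h0
  refine ⟨E'.erase e, F, Finset.card_erase_lt_of_mem he, fun f hf x hx =>
    Finset.mem_erase.2 ⟨h0 f hf x hx, hS f hf x hx⟩,
    fun ζ hζ => hH ζ fun x hx => Finset.mem_of_mem_erase (hζ x hx), fun hP v P hv hfg => ?_⟩
  set S : Set E := ((E'.erase e : Finset E) : Set E) with hSd
  have hsub : ∀ {a b : Vx}, K.Cn S a b → K.Cn E' a b := fun h =>
    cn_mono K (fun e he' => cn_edge K (Finset.mem_coe.2 (Finset.mem_of_mem_erase he'))) h
  refine hB G (Comp K S) G (fun g => cmp K S (g • K.o e)) (fun g => cmp K S (g • K.t e))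
    (cmp K S v) P ⟨fun g u => ?_, fun g u => ?_, fun g₀ => ?_⟩ hG hfg (fun g hg => ?_)
    (fun u => ?_) ?_
  · rw [smul_cmp, smul_eq_mul, mul_smul]
  · rw [smul_cmp, smul_eq_mul, mul_smul]
  · set S₀ : Set (G × E) := {x | x.2 ∈ E' ∧ x ≠ (g₀, e)} with hS₀
    have hJ : ∀ x ∈ S₀, (Jn K S₀ (g₀ • K.o e) (x.1 • K.o x.2) ↔
        Jn K S₀ (g₀ • K.o e) (x.1 • K.t x.2)) := fun x hx =>
      have h : Jn K S₀ (x.1 • K.o x.2) (x.1 • K.t x.2) := .rel _ _ ⟨x, hx, rfl, rfl⟩
      ⟨fun h' => h'.trans _ _ _ h, fun h' => h'.trans _ _ _ (h.symm _ _)⟩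
    refine ⟨Quot.lift (fun w => Jn K S₀ (g₀ • K.o e) w) ?_, Relation.EqvGen.refl _, fun h => ?_,
      fun g hg => hJ (g, e) ⟨he, fun h => hg (congrArg Prod.fst h)⟩⟩
    · rintro _ _ ⟨g, e', he', rfl, rfl⟩
      have h := Finset.mem_erase.1 (Finset.mem_coe.1 he')
      exact propext (hJ (g, e') ⟨h.2, fun h' => h.1 (congrArg Prod.snd h')⟩)
    · obtain ⟨ζ, h1, h2⟩ := chain K h
      have h3 : ζ (g₀, e) = 0 := by
        by_contra hn
        exact (h1 _ hn).2 rfl
      have h7 : ∀ x ∈ (ζ - single (g₀, e) 1).support, x.2 ∈ (E' : Set E) := by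
        intro x hx
        by_cases hx' : x = (g₀, e)
        · rw [hx']; exact he
        · refine (h1 x fun h => mem_support_iff.1 hx ?_).1
          rw [Finsupp.sub_apply, h, single_eq_of_ne hx', sub_zero]
      obtain ⟨η, h4, h5⟩ := hH (ζ - single (g₀, e) 1) h7
        (by rw [map_sub, h2, Cx.d1, linearCombination_single, one_smul, sub_self])
      have h6 := DFunLike.congr_fun h5 (g₀, e)
      rw [d2_apply, Finsupp.sub_apply, h3, single_eq_same, Finset.sum_eq_zero] at h6
      · norm_num at h6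
      · intro x hx
        refine mul_eq_zero_of_right _ ?_
        by_contra hn
        exact h0 x.2 (h4 x hx) _ (mem_support_iff.2 hn) rfl
  · have key : ∀ {a b : Vx}, K.Cn E' a b → Con (fun g : G => cmp K S (g • K.o e))
        (fun g : G => cmp K S (g • K.t e)) (cmp K S a) (cmp K S b) := by
      intro a b h
      induction h with
      | rel a b h =>
        obtain ⟨u, e', he', rfl, rfl⟩ := h
        by_cases hee : e' = e
        · subst hee
          exact .rel _ _ ⟨u, rfl, rfl⟩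
        · rw [(cmp_eq K).2 (cn_smul K (cn_edge K (S := S)
            (Finset.mem_coe.2 (Finset.mem_erase.2 ⟨hee, he'⟩))) u)]
          exact .refl _
      | refl a => exact .refl _
      | symm a b _ ih => exact ih.symm _ _
      | trans a b c _ _ ih ih' => exact ih.trans _ _ _ ih'
    exact key ((hv g).1 hg)
  · have h : P ⊓ MulAction.stabilizer G u = ⊥ := by
      refine eq_bot_iff.2 fun x hx => ?_
      have h := MulAction.mem_stabilizer_iff.1 hx.2
      rwa [smul_eq_mul, mul_eq_right] at h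
    rw [h]
    refine ⟨Subgroup.FG.bot, fun x hx y hy => ?_⟩
    rw [Subgroup.mem_bot.1 hx, Subgroup.mem_bot.1 hy]
  · have key : ∀ {p q : Comp K S}, Con (fun g : G => cmp K S (g • K.o e))
        (fun g : G => cmp K S (g • K.t e)) p q →
        ∀ a b, cmp K S a = p → cmp K S b = q → K.Cn E' a b := by
      intro p q h
      induction h with
      | rel p q h =>
        obtain ⟨u, rfl, rfl⟩ := h
        exact fun a b ha hb => ((hsub ((cmp_eq K).1 ha)).trans _ _ _
          (cn_smul K (cn_edge K (Finset.mem_coe.2 he)) u)).trans _ _ _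
          (hsub ((cmp_eq K).1 hb.symm))
      | refl p => exact fun a b ha hb => hsub ((cmp_eq K).1 (ha.trans hb.symm))
      | symm p q _ ih => exact fun a b ha hb => (ih b a hb ha).symm _ _
      | trans p q r _ _ ih ih' =>
        obtain ⟨w⟩ := q
        exact fun a b ha hb => (ih a w ha rfl).trans _ _ _ (ih' w b rfl hb)
    rintro ⟨w⟩ hw
    have hvw := key hw v w rfl rfl
    refine hP w _ fun g => ⟨fun hg => (cmp_eq K).1 (MulAction.mem_stabilizer_iff.1 hg.2).symm,
      fun hg => ⟨(hv g).2 ?_, MulAction.mem_stabilizer_iff.2 ((cmp_eq K).2 hg).symm⟩⟩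
    exact (hvw.trans _ _ _ (hsub hg)).trans _ _ _ ((cn_smul K hvw g).symm _ _)

lemma hp (hA : WaStmt) (hW : WbStmt) (hB : BsStmt) (hK : K.Ok) (hG : CT G)
    (hV : ∀ v : Vx, Hier (MulAction.stabilizer G v)) (n : ℕ) :
    ∀ (E' : Finset E) (F : Finset Fc), E'.card = n → K.Sub E' F → K.H1 E' F → K.HP E' := by
  induction n using Nat.strong_induction_on with
  | _ n ih =>
    intro E' F hn hS hH
    rcases E'.eq_empty_or_nonempty with rfl | ⟨e₀, he₀⟩
    · intro v P hv _
      have : MulAction.stabilizer G v = P := by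
        ext g
        rw [hv, MulAction.mem_stabilizer_iff]
        exact ⟨fun h => by rw [h]; exact .refl _, fun h => (cn_empty K h).symm⟩
      exact this ▸ hV v
    have hs : K.Step E' := by
      by_cases h1 : ∃ e ∈ E', K.mult F e = 1
      · obtain ⟨e, he, h⟩ := h1
        exact step_one K hK hS hH he h
      by_cases h0 : K.mult F e₀ = 0
      · exact step_zero K hB hG hS hH he₀ h0
      have h2 : ∀ e, K.mult F e ≠ 1 := fun e h => by
        obtain ⟨f, hf, x, hx, rfl, -⟩ := mult_one K h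
        exact h1 ⟨_, hS f hf x hx, h⟩
      have h3 : F.Nonempty := by
        rcases F.eq_empty_or_nonempty with rfl | h
        · exact absurd ((mult_zero K).2 fun f hf => absurd hf (Finset.notMem_empty f)) h0
        · exact h
      obtain ⟨k, h, φ, ε, hw⟩ := hA G Vx E Fc K F hK h3 (hK.m2 F h2)
      exact hW G Vx E Fc K E' F k h φ ε hK hG hS hH hw
    obtain ⟨E'', F'', h1, h2, h3, h4⟩ := hs
    exact h4 (ih _ (hn ▸ h1) E'' F'' rfl h2 h3)

end WallP

theorem wall (hA : WaStmt) (hW : WbStmt) (hB : BsStmt) : WallStmt := by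
  intro G Vx E Fc _ _ _ _ K v₀ hK hG hfg hV hH hc
  have h := WallP.hp K hA hW hB hK hG hV _ Finset.univ Finset.univ rfl
    (fun _ _ _ _ => Finset.mem_univ _) (by simpa only [Finset.coe_univ] using hH) v₀ ⊤
    (fun g => ⟨fun _ => by simpa only [Finset.coe_univ] using hc g, fun _ => trivial⟩) hfg.out
  exact Hier.iso _ _ h Subgroup.topEquiv

end Pool.Agent.MP_494aff_an.Se
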