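import Pool.Agent.MP_494aff_an.se.WbA

/-! Row WB: cutting along a wall. -/

open Finsupp
open scoped Pointwise

set_option linter.unusedSectionVars false

namespace Pool.Agent.MP_494aff_an.Se

open Pool.Agent.MP_494aff_an.Pinch Pool.Agent.MP_494aff_an.Pinch.TowP Pool.Agent.MP_494aff_an.Lf

namespace Wb

noncomputable section

theorem forest_of {G Vt Ed : Type} [Group G] [MulAction G Vt] [MulAction G Ed] {o t : Ed → Vt}
    (ho : ∀ (g : G) e, o (g • e) = g • o e) (ht : ∀ (g : G) e, t (g • e) = g • t e)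
    (hs : ∀ e, ∃ (g : G) (e₀ : Ed), e = g • e₀ ∧
      ∃ σ : Vt → Prop, σ (o e₀) ∧ ¬ σ (t e₀) ∧ ∀ e', e' ≠ e₀ → (σ (o e') ↔ σ (t e'))) :
    Forest G o t := by
  refine ⟨ho, ht, fun e => ?_⟩
  obtain ⟨g, e₀, rfl, σ, h1, h2, h3⟩ := hs e
  refine ⟨fun v => σ (g⁻¹ • v), by simpa [ho] using h1, by simpa [ht] using h2, fun e' he => ?_⟩
  simp only [← ho, ← ht]
  exact h3 _ fun h => he (by rw [← h, smul_inv_smul])

theorem cyc_sub {G : Type} [Group G] {h : G} {Q : Subgroup G} (w : G ⧸ Subgroup.zpowers h)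
    (hQ : ∀ g ∈ Q, g • w = w) : Q.FG ∧ ∀ x ∈ Q, ∀ y ∈ Q, x * y = y * x := by
  obtain ⟨u, rfl⟩ := QuotientGroup.mk_surjective w
  have hle : Q ≤ Subgroup.zpowers (u * h * u⁻¹) := fun g hg => by
    have := hQ g hg
    rw [MulAction.Quotient.smul_mk, smul_eq_mul, eq_comm, QuotientGroup.eq] at this
    obtain ⟨n, hn⟩ := Subgroup.mem_zpowers_iff.1 this
    exact Subgroup.mem_zpowers_iff.2 ⟨n, by rw [conj_zpow, hn]; group⟩
  obtain ⟨x, rfl⟩ := Q.isCyclic_iff_exists_zpowers_eq_top.1 (Subgroup.isCyclic_of_le hle)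
  refine ⟨(Subgroup.fg_iff _).2 ⟨{x}, (Subgroup.zpowers_eq_closure x).symm,
    Set.finite_singleton x⟩, ?_⟩
  rintro _ ⟨m, rfl⟩ _ ⟨n, rfl⟩
  exact zpow_mul_comm x m n

variable {G Vx E Fc : Type} [Group G] [MulAction G Vx] (K : Cx G Vx E Fc)

/-- The component of a vertex. -/
def cls (S : Set E) (v : Vx) : Set Vx := {u | K.Cn S v u}

theorem smul_cls (S : Set E) (g : G) (v : Vx) : g • cls K S v = cls K S (g • v) := by
  ext u
  rw [Set.mem_smul_set_iff_inv_smul_mem]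
  exact ⟨fun h => by simpa [cls] using cn_smul K g h,
    fun h => by simpa [cls] using cn_smul K g⁻¹ h⟩

theorem cls_eq {S : Set E} {u v : Vx} : cls K S u = cls K S v ↔ K.Cn S u v :=
  ⟨fun h => by
    have : v ∈ cls K S v := Relation.EqvGen.refl _
    rwa [← h] at this,
  fun h => Set.ext fun _ => ⟨fun h' => .trans _ _ _ (.symm _ _ h) h', fun h' => .trans _ _ _ h h'⟩⟩

theorem ex_cls {S : Set E} {R : Vx → Prop} (hR : ∀ u u', K.Cn S u u' → R u → R u') (v : Vx) :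
    (∃ u ∈ cls K S v, R u) ↔ R v :=
  ⟨fun ⟨_, h1, h2⟩ => hR _ _ (.symm _ _ h1) h2, fun h => ⟨v, .refl _, h⟩⟩

/-- The sides of the walls. -/
def Ed (S : Set E) (h : G) (p q : Vx) : SubMulAction G (Set Vx × (G ⧸ Subgroup.zpowers h)) where
  carrier := {x | ∃ g : G, x.2 = g ∧ (x.1 = cls K S (g • p) ∨ x.1 = cls K S (g • q))}
  smul_mem' := by
    rintro c ⟨_, _⟩ ⟨g, rfl, h⟩
    refine ⟨c * g, rfl, ?_⟩
    simp only [Prod.smul_mk, mul_smul, ← smul_cls] at h ⊢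
    exact h.imp (fun h => by rw [h]) fun h => by rw [h]

variable {K} {S : Set E} {h : G} {p q : Vx}

theorem key (hz : ∀ z ∈ Subgroup.zpowers h, ∀ v, v = p ∨ v = q → K.Cn S p (z • v) ∨ K.Cn S q (z • v))
    {R : Vx → Prop} (hR : ∀ u u', K.Cn S u u' → R u → R u') {g : G} (hg : R (g • p) ↔ R (g • q))
    {c : Set Vx} (hc : c = cls K S (g • p) ∨ c = cls K S (g • q)) :
    (∃ u ∈ c, R u) ↔ R ((g : G ⧸ Subgroup.zpowers h).out • p) := by
  obtain ⟨z, e⟩ := QuotientGroup.mk_out_eq_mul (Subgroup.zpowers h) g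
  have h1 : (∃ u ∈ c, R u) ↔ R (g • p) := by
    rcases hc with rfl | rfl
    · exact ex_cls K hR _
    · exact (ex_cls K hR _).trans hg.symm
  rw [h1, e, mul_smul]
  rcases hz z z.2 p (.inl rfl) with h2 | h2
  · exact ⟨hR _ _ (cn_smul K g h2), hR _ _ (.symm _ _ (cn_smul K g h2))⟩
  · exact hg.trans ⟨hR _ _ (cn_smul K g h2), hR _ _ (.symm _ _ (cn_smul K g h2))⟩

theorem forest
    (hz : ∀ z ∈ Subgroup.zpowers h, ∀ v, v = p ∨ v = q → K.Cn S p (z • v) ∨ K.Cn S q (z • v))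
    {Jn : Vx → Vx → Prop} (hJ : Equivalence Jn) (hS : ∀ u u', K.Cn S u u' → Jn u u')
    (hpq : ¬ Jn p q) (hoff : ∀ g ∉ Subgroup.zpowers h, Jn (g • p) (g • q)) :
    Forest G (fun e : Ed K S h p q => (Sum.inl e.1.1 : Set Vx ⊕ G ⧸ Subgroup.zpowers h))
      fun e => Sum.inr e.1.2 := by
  have side : ∀ (p' q' : Vx) (hp : (p' = p ∧ q' = q) ∨ (p' = q ∧ q' = p))
      (e₀ : Ed K S h p q), e₀.1 = (cls K S p', ((1 : G) : G ⧸ Subgroup.zpowers h)) →
      ∃ σ : Set Vx ⊕ G ⧸ Subgroup.zpowers h → Prop, σ (Sum.inl e₀.1.1) ∧ ¬ σ (Sum.inr e₀.1.2) ∧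
        ∀ e' : Ed K S h p q, e' ≠ e₀ → (σ (Sum.inl e'.1.1) ↔ σ (Sum.inr e'.1.2)) := by
    intro p' q' hp e₀ he
    have hR : ∀ u u', K.Cn S u u' → Jn p' u → Jn p' u' := fun u u' h1 h2 => hJ.trans h2 (hS _ _ h1)
    refine ⟨Sum.elim (fun c => ∃ u ∈ c, Jn p' u) fun w => w ≠ (1 : G) ∧ Jn p' (w.out • p),
      by rw [he]; exact ⟨p', .refl _, hJ.refl _⟩, by rw [he]; exact fun h => h.1 rfl, ?_⟩
    rintro ⟨⟨c, w⟩, hm⟩ hne
    have ⟨g, hw', hc⟩ := hm
    obtain rfl : w = g := hw'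
    simp only [Sum.elim_inl, Sum.elim_inr] at hc ⊢
    by_cases hg : g ∈ Subgroup.zpowers h
    · have hw : (g : G ⧸ Subgroup.zpowers h) = (1 : G) := by
        rw [eq_comm, QuotientGroup.eq]; simpa using hg
      have h1 : c = cls K S p ∨ c = cls K S q := by
        rcases hc with rfl | rfl
        · exact (hz g hg p (.inl rfl)).imp (fun h => ((cls_eq K).2 h).symm)
            fun h => ((cls_eq K).2 h).symm
        · exact (hz g hg q (.inr rfl)).imp (fun h => ((cls_eq K).2 h).symm)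
            fun h => ((cls_eq K).2 h).symm
      have h2 : c ≠ cls K S p' := fun h => hne (Subtype.ext (by rw [he, ← h, ← hw]))
      refine iff_of_false ?_ fun h => h.1 hw
      rcases hp with ⟨rfl, rfl⟩ | ⟨rfl, rfl⟩
      · rw [h1.resolve_left h2, ex_cls K hR]
        exact hpq
      · rw [h1.resolve_right h2, ex_cls K hR]
        exact fun h => hpq (hJ.symm h)
    · have hw : (g : G ⧸ Subgroup.zpowers h) ≠ (1 : G) := fun h => hg (by
        rw [eq_comm, QuotientGroup.eq] at h; simpa using h)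
      rw [and_iff_right hw]
      exact key hz hR ⟨fun h => hJ.trans h (hoff g hg), fun h => hJ.trans h (hJ.symm (hoff g hg))⟩
        hc
  refine forest_of (fun _ _ => rfl) (fun _ _ => rfl) ?_
  rintro ⟨⟨c, w⟩, hm⟩
  have ⟨g, hw', hc⟩ := hm
  obtain rfl : w = g := hw'
  obtain rfl | rfl : c = _ ∨ c = _ := hc
  · refine ⟨g, ⟨(cls K S p, (1 : G)), 1, rfl, .inl (by rw [one_smul])⟩, Subtype.ext ?_,
      side p q (.inl ⟨rfl, rfl⟩) _ rfl⟩
    exact Prod.ext (smul_cls K S g p).symm (congrArg QuotientGroup.mk (mul_one g).symm)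
  · refine ⟨g, ⟨(cls K S q, (1 : G)), 1, rfl, .inr (by rw [one_smul])⟩, Subtype.ext ?_,
      side q p (.inr ⟨rfl, rfl⟩) _ rfl⟩
    exact Prod.ext (smul_cls K S g q).symm (congrArg QuotientGroup.mk (mul_one g).symm)

variable {E' : Finset E} {F : Finset Fc} {k : ℕ} {φ : ℤ → G × Fc} {ε : ℤ → G × E} {a b : ℤ → Vx}

theorem hz_of (W : K.Wall F k h φ ε) (D : Sd K E' ε a b) : ∀ z ∈ Subgroup.zpowers h, ∀ v,
    v = a 0 ∨ v = b 0 → K.Cn (E2 E' ε) (a 0) (z • v) ∨ K.Cn (E2 E' ε) (b 0) (z • v) := by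
  rintro _ ⟨n, rfl⟩ v hv
  have e := per W.ε_per 0 n
  have h1 : h ^ n • v = a (0 + k * n) ∨ h ^ n • v = b (0 + k * n) := by
    have h2 := D.ends (0 + k * n)
    rw [e] at h2
    simp only [mv, mul_smul] at h2
    rcases D.ends 0 with h0 | h0 <;> rcases hv with rfl | rfl <;> rcases h2 with h2 | h2 <;>
      simp only [h0.1, h0.2, h2.1, h2.2, true_or, or_true]
  exact h1.imp (fun e => by simp only [e]; exact D.ca _) fun e => by simp only [e]; exact D.cb _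

theorem hp_step (hB : BsStmt) (hT : CT G) (hS : K.Sub E' F) (W : K.Wall F k h φ ε)
    (D : Sd K E' ε a b) (H : K.HP (E2 E' ε)) : K.HP E' := by
  intro v P hP hfg
  have hz := hz_of W D
  have h0 : (ε 0).2 ∈ E' := B_typ hS (W.φ_mem 0) (W.left 0)
  have hsub : ((E2 E' ε : Finset E) : Set E) ⊆ E' := fun e he => (mem_E2.1 he).1
  have hF := forest hz (Jn := J K E' ε) (Relation.EqvGen.is_equivalence _) (fun _ _ => cn_J K)
    D.sep fun g hg => by
      have : J K E' ε (g • (ε 0).1 • K.o (ε 0).2) (g • (ε 0).1 • K.t (ε 0).2) :=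
        .rel _ _ ⟨mv g (ε 0), h0, fun ⟨j, hj⟩ => hg (by
          obtain ⟨n, -, rfl⟩ := trans W.ε_per W.ε_typ hj
          exact ⟨n, rfl⟩), mul_smul _ _ _, mul_smul _ _ _⟩
      rcases D.ends 0 with e | e <;> rw [e.1, e.2]
      · exact this
      · exact .symm _ _ this
  have con : ∀ u u', K.Cn E' u u' → Con
      (fun e : Ed K (E2 E' ε) h (a 0) (b 0) => (Sum.inl e.1.1 : Set Vx ⊕ G ⧸ Subgroup.zpowers h))
      (fun e => Sum.inr e.1.2) (.inl (cls K (E2 E' ε) u)) (.inl (cls K (E2 E' ε) u')) := by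
    intro u u' hu
    induction hu with
    | refl u => exact .refl _
    | symm u u' _ ih => exact .symm _ _ ih
    | trans u u' u'' _ _ h1 h2 => exact .trans _ _ _ h1 h2
    | rel u u' hu =>
      obtain ⟨g, e, he, rfl, rfl⟩ := hu
      by_cases h2 : e ∈ E2 E' ε
      · rw [(cls_eq K).2 (.rel _ _ ⟨g, e, h2, rfl, rfl⟩)]
        exact .refl _
      obtain ⟨i, hi⟩ : ∃ i, e = (ε i).2 := by
        by_contra hc
        exact h2 (mem_E2.2 ⟨he, fun i hi => hc ⟨i, hi⟩⟩)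
      obtain ⟨g', hg'⟩ := exists_mv (z := (g, e)) hi
      obtain ⟨rfl, -⟩ := Prod.ext_iff.1 hg'
      subst hi
      have c1 : Con (fun e : Ed K (E2 E' ε) h (a 0) (b 0) =>
          (Sum.inl e.1.1 : Set Vx ⊕ G ⧸ Subgroup.zpowers h)) (fun e => Sum.inr e.1.2)
          (.inl (cls K (E2 E' ε) (g' • a i))) (.inl (cls K (E2 E' ε) (g' • b i))) :=
        .trans _ (.inr g') _
          (.rel _ _ ⟨⟨(_, g'), g', rfl, .inl ((cls_eq K).2 (cn_smul K g' (D.ca i))).symm⟩, rfl, rfl⟩)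
          (.symm _ _ (.rel _ _
            ⟨⟨(_, g'), g', rfl, .inr ((cls_eq K).2 (cn_smul K g' (D.cb i))).symm⟩, rfl, rfl⟩))
      simp only [mv, mul_smul]
      rcases D.ends i with e | e <;> rw [e.1, e.2] at c1
      · exact c1
      · exact .symm _ _ c1
  refine hB G _ _ _ _ (.inl (cls K (E2 E' ε) v)) P hF hT hfg (fun g hg => ?_)
    (fun e => cyc_sub e.1.2 fun g hg => congrArg (fun e : Ed K (E2 E' ε) h (a 0) (b 0) => e.1.2)
      hg.2) fun v' hv' hfg' => ?_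
  · rw [Sum.smul_inl, smul_cls]
    exact con _ _ ((hP g).1 hg)
  have hR : ∀ u u', K.Cn (E2 E' ε) u u' → K.Cn E' v u → K.Cn E' v u' := fun u u' h1 h2 =>
    .trans _ _ _ h2 (cn_mono K hsub h1)
  let Q : Set Vx ⊕ G ⧸ Subgroup.zpowers h → Prop :=
    Sum.elim (fun c => (∃ u, c = cls K (E2 E' ε) u) ∧ ∃ u ∈ c, K.Cn E' v u)
      fun w => K.Cn E' v (w.out • a 0)
  have hQ : ∀ x y, Con (fun e : Ed K (E2 E' ε) h (a 0) (b 0) =>
      (Sum.inl e.1.1 : Set Vx ⊕ G ⧸ Subgroup.zpowers h)) (fun e => Sum.inr e.1.2) x y →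
      (Q x ↔ Q y) := by
    intro x y hxy
    induction hxy with
    | refl u => rfl
    | symm u u' _ ih => exact ih.symm
    | trans u u' u'' _ _ h1 h2 => exact h1.trans h2
    | rel u u' hu =>
      obtain ⟨⟨⟨c, w⟩, hm⟩, rfl, rfl⟩ := hu
      have ⟨g, hw', hc⟩ := hm
      obtain rfl : w = g := hw'
      have c1 : K.Cn E' (g • a 0) (g • b 0) := by
        have : K.Cn E' (g • (ε 0).1 • K.o (ε 0).2) (g • (ε 0).1 • K.t (ε 0).2) :=
          .rel _ _ ⟨g * (ε 0).1, _, h0, mul_smul _ _ _, mul_smul _ _ _⟩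
        rcases D.ends 0 with e | e <;> rw [e.1, e.2]
        · exact this
        · exact .symm _ _ this
      exact (and_iff_right (hc.elim (fun h => ⟨_, h⟩) fun h => ⟨_, h⟩)).trans (key hz hR
        ⟨fun h => .trans _ _ _ h c1, fun h => .trans _ _ _ h (.symm _ _ c1)⟩ hc)
  rcases v' with c | w
  · obtain ⟨⟨u, rfl⟩, hu⟩ := (hQ _ _ hv').1 ⟨⟨v, rfl⟩, v, .refl _, .refl _⟩
    rw [ex_cls K hR] at hu
    refine H u _ (fun g => ?_) hfg'
    rw [Subgroup.mem_inf, MulAction.mem_stabilizer_iff, Sum.smul_inl, smul_cls, Sum.inl.injEq,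
      eq_comm, cls_eq, hP]
    exact and_iff_right_of_imp fun h => .trans _ _ _ (hR _ _ h hu) (.symm _ _ (cn_smul K g hu))
  · have := cyc_sub (Q := P ⊓ MulAction.stabilizer G (Sum.inr w : Set Vx ⊕ G ⧸ Subgroup.zpowers h))
      w fun g hg => Sum.inr.inj hg.2
    exact .abel _ ((Group.fg_iff_subgroup_fg _).2 this.1) fun x y =>
      Subtype.ext (this.2 _ x.2 _ y.2)

end

end Wb

open Wb in
theorem wb (hB : BsStmt) : WbStmt := by
  intro G Vx E Fc _ _ K E' F k h φ ε hK hT hS hH W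
  obtain ⟨a, b, D⟩ := sides hK hT hS hH W
  exact ⟨E2 E' ε, F2' F φ, card_lt hS W, sub2 hS W, h1_two hT hH W, hp_step hB hT hS W D⟩

end Pool.Agent.MP_494aff_an.Se
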