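import Mathlib
import Pool.Agent.MP_494aff_an.lf.Am
import Pool.Agent.MP_494aff_an.lf.Cls
import Pool.Agent.MP_494aff_an.lf.Hx
import Pool.Agent.MP_494aff_an.lf.Hyp
import Pool.Agent.MP_494aff_an.lf.Ind
import Pool.Agent.MP_494aff_an.lf.Ping
import Pool.Agent.MP_494aff_an.se.Ab
import Pool.Agent.MP_494aff_an.se.Bs
import Pool.Agent.MP_494aff_an.se.BsA
import Pool.Agent.MP_494aff_an.se.BsH
import Pool.Agent.MP_494aff_an.se.Dim
import Pool.Agent.MP_494aff_an.se.Fw
import Pool.Agent.MP_494aff_an.se.Gap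
import Pool.Agent.MP_494aff_an.se.GapA
import Pool.Agent.MP_494aff_an.se.GapF
import Pool.Agent.MP_494aff_an.se.Ln
import Pool.Agent.MP_494aff_an.se.Meas
import Pool.Agent.MP_494aff_an.se.Orb
import Pool.Agent.MP_494aff_an.se.PushA
import Pool.Agent.MP_494aff_an.se.PushH
import Pool.Agent.MP_494aff_an.se.Pv
import Pool.Agent.MP_494aff_an.se.Small
import Pool.Agent.MP_494aff_an.se.Sq
import Pool.Agent.MP_494aff_an.se.Top
import Pool.Agent.MP_494aff_an.se.Tr
import Pool.Agent.MP_494aff_an.se.Ult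
import Pool.Agent.MP_494aff_an.se.Wa
import Pool.Agent.MP_494aff_an.se.Wall
import Pool.Agent.MP_494aff_an.se.Wb
import Pool.Agent.MP_494aff_an.se.Zint

/-! The closed statements of the first part. -/

namespace Pool.Agent.MP_494aff_an.Se

theorem amAll : Lf.AmStmt := Lf.am Lf.cls (Lf.hyp Lf.cls)

theorem hxAll : Lf.HxStmt := Lf.hx Lf.cls (Lf.hyp Lf.cls)

theorem pushAAll : PushAStmt := pushA Lf.ind amAll hxAll

theorem bsAll : BsStmt := bs bsA bsH pushAAll (pushH Lf.ind amAll hxAll pushAAll)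

theorem measAll : MeasStmt := meas tr fw

theorem abAll : AbStmt := ab tr fw

theorem ultAll : UltStmt := ult fw (small fw) serre

theorem pvAll : PvStmt := pv bsAll

theorem wallAll : WallStmt := wall wa (wb bsAll) bsAll

theorem sqAll : SqStmt := sq dimS (coc dimS) (zint dimS Lf.ind) (gap (gapA Lf.avg) gapF)

theorem hier_of_band (h : BandStmt) : Un.HierStmt := top measAll abAll ultAll ln h sqAll wallAll

end Pool.Agent.MP_494aff_an.Se
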