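import Mathlib
import Pool.Agent.MP_494aff_an.se.SpecH

/-! The tents of frozen ends are boundaries after one more narrowing. -/

set_option linter.unusedVariables false
set_option linter.unusedSectionVars false

open Set
open scoped Pointwise

namespace Pool.Agent.MP_494aff_an.Se

open Pool.Agent.MP_494aff_an.Pinch Pool.Agent.MP_494aff_an.Pinch.TowP Pool.Agent.MP_494aff_an.Lf

variable {G T K B : Type} [Group G] [MetricSpace T] [MulAction G T] [Countable G] [Fintype K]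
  [Fintype B] {S : Sys G T K B} {τ s : ℝ} {t : B × Bool → ℝ} {Fr : Set (B × Bool)}

namespace PcP

lemma low {ι : Type} [Finite ι] (f : ι → ℝ) (p : ι → Prop) (hf : ∀ i, p i → 0 < f i) :
    ∃ c, 0 < c ∧ ∀ i, p i → c ≤ f i := by
  classical
  obtain ⟨x, hx⟩ := Finite.exists_min fun o : Option ι => o.elim 1 fun i => if p i then f i else 1
  refine ⟨_, ?_, fun i hi => by simpa [hi] using hx (some i)⟩
  rcases x with _ | i
  · simp
  · by_cases hi : p i
    · simpa [hi] using hf i hi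
    · simp [hi]

lemma generic (h : S.Ok) (hτ : S.Sm τ) {e : B × Bool} (he : S.lo e.1 < S.hi e.1) {c : ℝ}
    (hc : 0 < c) (hc' : c ≤ τ) {Z : Set T} (hZ : Z.Countable) :
    ∃ ρ, 0 < ρ ∧ ρ < c ∧ S.pt (S.up 1 e ρ) ∉ Z := by
  by_contra hn
  push Not at hn
  have hi : InjOn (fun ρ => S.pt (S.up 1 e ρ)) (Ioo 0 c) := fun a ha b hb hab => by
    have := Sys.dist_up h hτ he 1 ha.1.le (ha.2.le.trans hc') hb.1.le (hb.2.le.trans hc')
    simp only at hab
    rw [hab, dist_self] at this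
    exact sub_eq_zero.1 (abs_eq_zero.1 this.symm)
  have hm : MapsTo (fun ρ => S.pt (S.up 1 e ρ)) (Ioo 0 c) Z := fun a ha => hn a ha.1 ha.2
  have := hm.countable_of_injOn hi hZ
  rw [← Cardinal.le_aleph0_iff_set_countable, Cardinal.mk_Ioo_real hc] at this
  exact absurd this (not_le.2 Cardinal.aleph0_lt_continuum)

lemma nd0 (g : G) (e : B × Bool) (d : Bool) : S.Nd t ∅ (S.en g e 0 d).p := by
  refine Or.inr ⟨⟨1, (S.en g e 0 d).k, (S.en g e 0 d).r, 1⟩, _, rfl, Sys.Cn.refl _, rfl,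
    Or.inl (Or.inl (Or.inr (Or.inr ⟨e.1, (S.up g e 0).r, ?_, ?_⟩)))⟩
  · rcases e with ⟨b, _ | _⟩ <;> simp [Sys.up]
  · cases d
    · exact Or.inl rfl
    · exact Or.inr rfl

/-- a low part of a tent has no crossing with the middle of a cell -/
lemma uc_low (h : S.Ok) (hτ : S.Sm τ) (ha : S.Adm τ t) (hc : S.CellAt t ∅) (hr : S.CrsAt t)
    {q : St G K} {w ρ : ℝ} (hq : S.Span t ∅ q (-w) w) (h0 : 0 ≤ ρ) (h1 : ρ < w) (g : G)
    {e : B × Bool} (he : S.En e) : S.uc t q g e ρ = S.uc t q g e 0 := by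
  have hd : S.Ad t := ⟨τ, hτ, ha⟩
  have key : ∀ ρ', 0 ≤ ρ' → S.uc t q g e ρ' ≠ 0 →
      ∃ x, ρ < x ∧ x < t e ∧ S.pt (S.up g e x) = S.pt q := by
    intro ρ' h2 hne
    obtain ⟨x, d, x1, x2, x3⟩ := hr.uc_ne q g e ρ' hne
    have x0 : 0 < x := lt_of_le_of_lt h2 x1
    refine ⟨x, ?_, x2, ?_⟩
    · by_contra hx
      have hw : x < w := lt_of_le_of_lt (not_lt.1 hx) h1
      rcases x3 with x3 | x3
      · have := ((hc.tr _ _ _ _ x3 hq).1.reg (-x) (by linarith) (by linarith)).2.1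
        rw [Sys.en_sh, add_neg_cancel] at this
        exact this (nd0 g e d)
      · have := ((hc.tr _ _ _ _ x3 hq).1.reg x (by linarith) hw).2.1
        rw [St.fl_sh, St.fl_p, Sys.en_sh, add_neg_cancel] at this
        exact this (nd0 g e d)
    · rw [x3.pt h fun b r => Sys.al_base hd]
      exact (Sys.val_en h hτ he.1 g x0.le (x2.le.trans ((ha e).1 he).2) d).2.symm
  by_cases hx : ∃ x, ρ < x ∧ x < t e ∧ S.pt (S.up g e x) = S.pt q
  · obtain ⟨x, x1, x2, x3⟩ := hx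
    rw [hr.uc_eq q g e ρ x he h0 x1 x2 x3,
      hr.uc_eq q g e 0 x he le_rfl (lt_of_le_of_lt h0 x1) x2 x3]
  · rw [of_not_not fun hn => hx (key ρ h0 hn), of_not_not fun hn => hx (key 0 le_rfl hn)]

lemma sum_lc {X : Type} (n : X →₀ ℂ) (φ : X → ℂ) :
    (n.sum fun l c => c * φ l) = Finsupp.linearCombination ℂ φ n := by
  simp [Finsupp.linearCombination_apply]

end PcP

open PcP in
theorem pcS (h : S.Ok) (h3 : S.Cell) (h4 : S.Fm) (h5 : S.Crs) (hτ : S.Sm τ) (hR : S.CR τ)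
    (hZ : S.Frz τ Fr s) (hD : S.DecAll τ Fr) (ht : S.Fi τ Fr s t) (hP : S.Par t Fr) :
    ∃ t', S.Fi τ Fr s t' ∧ S.Pc t' Fr := by
  classical
  obtain ⟨δ, hδ, hP⟩ := hP
  obtain ⟨t', ht'⟩ : ∃ t' : B × Bool → ℝ, t' = fun e => if e ∈ Fr then τ else min (t e) δ :=
    ⟨_, rfl⟩
  have e1 : ∀ e ∈ Fr, t' e = τ := fun e he => by simp [ht', he]
  have e2 : ∀ e, e ∉ Fr → t' e = min (t e) δ := fun e he => by simp [ht', he]
  have hle : ∀ e, t' e ≤ t e := fun e => by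
    by_cases he : e ∈ Fr
    · rw [e1 e he, ht.1.2 e he]
    · rw [e2 e he]; exact min_le_left _ _
  have ha : S.Adm τ t' := fun e => by
    by_cases he : e ∈ Fr
    · rw [e1 e he]
      exact ⟨fun _ => ⟨hτ.pos, le_rfl⟩, fun hn => absurd (hZ.en e he) hn⟩
    · rw [e2 e he]
      refine ⟨fun hn => ⟨lt_min ((ht.1.1 e).1 hn).1 hδ,
        (min_le_left _ _).trans ((ht.1.1 e).1 hn).2⟩, fun hn => ?_⟩
      rw [(ht.1.1 e).2 hn]; exact min_eq_left hδ.le
  refine ⟨t', ⟨⟨ha, e1⟩, fun e h1 h2 => (hle e).trans (ht.2 e h1 h2)⟩, fun e he => ?_⟩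
  have hd : S.Ad t' := ⟨τ, hτ, ha⟩
  have hc := h3 t' hd ∅ finite_empty (by simp)
  have hf := h4 t' hd
  have hr := h5 t' hd
  have hE := hZ.en e he
  obtain ⟨η, hη, hg, -⟩ := hc.gap
  obtain ⟨c, c0, c1⟩ := low t' S.En fun e he => ((ha e).1 he).1
  obtain ⟨Bad, hB, hfr⟩ := hZ.frz
  have := hf.fin
  obtain ⟨ρ, r0, r1, r2⟩ := generic h hτ hE.1 (c := min (min c τ) (min δ (η / 2)))
    (by have := hτ.pos; positivity) ((min_le_left _ _).trans (min_le_right _ _))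
    (hB.union (countable_range fun y => S.pt (S.rs t' y)))
  simp only [lt_min_iff] at r1
  obtain ⟨⟨r3, r4⟩, r5, r6⟩ := r1
  obtain ⟨u, hu, hw⟩ := hfr e he ρ r0 r4 fun hb => r2 (Or.inl hb)
  obtain ⟨n, hn⟩ := hD t u e ρ ht.1 hu hw
  have hp := hP e he ρ r0 r5 n hn
  obtain ⟨hs, hcy⟩ := hn
  obtain ⟨m, hm⟩ : ∃ m, m = n.filter fun l => l.2.2 = ρ := ⟨_, rfl⟩
  have ms : ∀ l ∈ m.support, l ∈ n.support ∧ l.2.2 = ρ := fun l hl => by
    rwa [hm, Finsupp.support_filter, Finset.mem_filter] at hl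
  have hcy' : S.Cyc t' (Finsupp.single (1, e, ρ) 1 - m) := by
    intro F F1 F2
    have := hcy F (fun a a' hc => F1 a a' (hc.mono (Sys.al_mono hle))) F2
    rw [sum_lc, ← Finsupp.filter_add_filter_not n fun l => l.2.2 = ρ, ← hm, ← sub_sub,
      map_sub] at this
    rw [sum_lc, ← this, ← sum_lc (Finsupp.filter _ n), eq_comm, sub_eq_self]
    refine Finset.sum_eq_zero fun l hl => ?_
    rw [Finsupp.support_filter, Finset.mem_filter] at hl
    obtain ⟨l1, l2, l3, l4, -⟩ := hs l hl.1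
    have l5 : t' l.2.1 ≤ l.2.2 := by
      rw [e2 _ l2]; exact (min_le_right _ _).trans ((hp l hl.1).resolve_left hl.2)
    have := F1 _ _ (Sys.Cn.move (a := S.up l.1 l.2.1 l.2.2) rfl
      (Sys.al_up hτ ha l1.1 l.1 l5 (l4.le.trans ((ht.1.1 _).1 l1).2)))
    exact mul_eq_zero_of_right _ (sub_eq_zero.2 this)
  have su : ∀ l ∈ (Finsupp.single (1, e, ρ) 1 - m).support,
      S.En l.2.1 ∧ l.2.2 = ρ ∧ S.pt (S.up l.1 l.2.1 l.2.2) = S.pt (S.up 1 e ρ) := fun l hl => by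
    rcases Finset.mem_union.1 (Finsupp.support_sub hl) with hl | hl
    · rw [Finset.mem_singleton.1 (Finsupp.support_single_subset hl)]
      exact ⟨hE, rfl, rfl⟩
    · exact ⟨(hs l (ms l hl).1).1, (ms l hl).2, (hs l (ms l hl).1).2.2.2.2⟩
  have key : S.bdc t' e = ∑ l ∈ m.support, m l • sh l.1 (S.bdc t' l.2.1) := by
    ext y
    have hw : ρ < S.hw t' ∅ (S.rep t' y.2) := by linarith [hg _ _ _ (hf.span y)]
    have h0 := hR t' ha _ (fun l hl => ⟨(su l hl).1, (su l hl).2.1 ▸ r0,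
      (su l hl).2.1 ▸ r3.le.trans (c1 _ (su l hl).1)⟩) hcy' (S.rs t' y) (hf.reg y)
      fun l hl hb => r2 (Or.inr ⟨y, hb.symm.trans (su l hl).2.2⟩)
    rw [sum_lc, map_sub, Finsupp.linearCombination_single, one_smul, ← sum_lc, sub_eq_zero] at h0
    rw [hr.bdc e y hE, ← uc_low h hτ ha hc hr (hf.span y) r0.le hw 1 hE, h0,
      Finsupp.finsetSum_apply]
    refine Finset.sum_congr rfl fun l hl => ?_
    have hl' := (hs l (ms l hl).1).1
    beta_reduce
    rw [Finsupp.smul_apply, smul_eq_mul, sh_apply, hr.bdc _ _ hl', (ms l hl).2,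
      uc_low h hτ ha hc hr (hf.span y) r0.le hw l.1 hl', ← hr.uc_sm l.1 (S.rs t' _) 1, mul_one]
    simp [St.sm, Sys.rs]
  rw [key]
  refine Submodule.sum_mem _ fun l hl => Submodule.smul_mem _ _ ?_
  have hl' := hs l (ms l hl).1
  exact ⟨Finsupp.single (l.1, ⟨l.2.1, hl'.1, hl'.2.1⟩) 1, by simp [Cx.d2, Sys.cx]⟩

end Pool.Agent.MP_494aff_an.Se
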