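import Mathlib
import Pool.Agent.MP_494aff_an.se.SpecH

/-! The chains of initial segments. -/

set_option linter.unusedVariables false
set_option linter.unusedSectionVars false

open Set
open scoped Pointwise

namespace Pool.Agent.MP_494aff_an.Se

open Pool.Agent.MP_494aff_an.Pinch Pool.Agent.MP_494aff_an.Pinch.TowP Pool.Agent.MP_494aff_an.Lf

variable {G T K B : Type} [Group G] [MetricSpace T] [MulAction G T] [Countable G] [Fintype K]
  [Fintype B] {S : Sys G T K B} {τ s : ℝ} {t : B × Bool → ℝ} {Fr : Set (B × Bool)}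

namespace SegP

open Sys

lemma span_fl {Y : Set (K × ℝ)} {a : St G K} {m M : ℝ} (h : S.Span t Y a m M) :
    S.Span t Y a.fl (-M) (-m) where
  neg := by linarith [h.pos]
  pos := by linarith [h.neg]
  lo := by rw [St.fl_sh, neg_neg]; exact h.hi
  hi := by rw [St.fl_sh, neg_neg]; exact h.lo
  reg s h1 h2 := by
    rw [St.fl_sh]
    have := h.reg (-s) (by linarith) (by linarith)
    exact ⟨this.1, this.2.1, this.2.2.fl⟩

lemma span_sh {Y : Set (K × ℝ)} {a : St G K} {m M s : ℝ} (h : S.Span t Y a m M) (h1 : m < s)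
    (h2 : s < M) : S.Span t Y (a.sh s) (m - s) (M - s) where
  neg := by linarith
  pos := by linarith
  lo := by rw [St.sh_sh, add_sub_cancel]; exact h.lo
  hi := by rw [St.sh_sh, add_sub_cancel]; exact h.hi
  reg u h3 h4 := by rw [St.sh_sh]; exact h.reg _ (by linarith) (by linarith)

lemma span_g {Y : Set (K × ℝ)} {g g' : G} {k : K} {r σ m M : ℝ}
    (h : S.Span t Y ⟨g, k, r, σ⟩ m M) : S.Span t Y ⟨g', k, r, σ⟩ m M :=
  ⟨h.neg, h.pos, h.lo, h.hi, h.reg⟩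

lemma span_cf {Y : Set (K × ℝ)} (hC : S.CellAt t Y) {a a' : St G K} {w : ℝ}
    (hc : S.Cf (S.al t) a a') (h : S.Span t Y a (-w) w) : S.Span t Y a' (-w) w := by
  rcases hc with hc | hc
  · exact (hC.tr _ _ _ _ hc h).1
  · simpa using span_fl (hC.tr _ _ _ _ hc h).1

/-- a crossing point is the midpoint of a cell of the same width -/
lemma mid_of_cf (hC : S.CellAt t ∅) (hF : S.FamAt t) {y : G × S.Fam t} {g : G} {k : K} {z : ℝ}
    (hc : S.Cf (S.al t) (S.rs t y) ⟨g, k, z, 1⟩) :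
    S.Mid t ∅ (k, z) ∧ S.hw t ∅ (k, z) = S.hw t ∅ (S.rep t y.2) := by
  have h1 : S.Span t ∅ ⟨1, k, z, 1⟩ _ _ := span_g (span_cf hC hc (hF.span y))
  have h2 : S.Mid t ∅ (k, z) := ⟨_, h1⟩
  exact ⟨h2, (hC.uniq _ _ _ _ _ (hC.hw _ h2) h1).2⟩

lemma sh_pc (hX : S.CrsAt t) (g : G) {x : K × ℝ} (hx : S.Val x) (y : G × S.Fam t) :
    sh g (S.pc t x) y = S.cr t (S.rs t y) g x.1 0 x.2 := by
  rw [sh_apply, hX.pc _ _ hx, ← hX.cr_sm g, mul_one]
  simp only [Sys.rs, St.sm, mul_inv_cancel_left]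

lemma nd_Q {Y : Set (K × ℝ)} {x : K × ℝ} (h : S.Q x) : S.Nd t Y x :=
  Or.inr ⟨⟨1, x.1, x.2, 1⟩, ⟨1, x.1, x.2, 1⟩, rfl, Cn.refl _, rfl, Or.inl (Or.inl h)⟩

lemma desc (hC : S.CellAt t ∅) (hF : S.FamAt t) (hX : S.CrsAt t) (M : Type) [AddCommGroup M]
    [Module ℂ M] (L : (G × S.Fam t →₀ ℂ) →ₗ[ℂ] M) (U : G → K × ℝ → M)
    (hU : ∀ a a', a.U → S.Cn (S.al t) a a' → S.Nd t ∅ a.p → U a.g a.p = U a'.g a'.p)
    (hA : ∀ g k A r r', S.SpA (k, A) → r ∈ S.arc k A → r' ∈ S.arc k A → U g (k, r) = U g (k, r'))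
    (hL : ∀ y, L (Finsupp.single y 1) =
      U y.1 ((S.rep t y.2).1, (S.rep t y.2).2 + S.hw t ∅ (S.rep t y.2)) -
      U y.1 ((S.rep t y.2).1, (S.rep t y.2).2 - S.hw t ∅ (S.rep t y.2)))
    (g : G) (x : K × ℝ) (hx : S.Nd t ∅ x) : L (sh g (S.pc t x)) = U g x - U g (x.1, 0) := by
  obtain ⟨k, r⟩ := x
  have hv := hC.val _ hx
  have hfin : {z : ℝ | S.Mid t ∅ (k, z) ∧ 0 < z ∧ z < r}.Finite :=
    (hC.fin.preimage (f := fun z : ℝ => (k, z)) fun _ _ _ _ e => (Prod.ext_iff.1 e).2).subset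
      fun z hz => hz.1
  have key : ∀ z ∈ hfin.toFinset, ∃ c : G × S.Fam t →₀ ℂ,
      (∀ y, c y = S.ind t (S.rs t y) ⟨g, k, z, 1⟩) ∧
      L c = U g (k, z + S.hw t ∅ (k, z)) - U g (k, z - S.hw t ∅ (k, z)) := by
    intro z hz
    have hm := (hfin.mem_toFinset.1 hz).1
    obtain ⟨y, hy⟩ := hF.ex ⟨g, k, z, 1⟩ _ (span_g (hC.hw _ hm))
    have hw := (mid_of_cf hC hF hy).2
    have hs := hF.span y
    have w0 : -S.hw t ∅ (S.rep t y.2) ≤ S.hw t ∅ (S.rep t y.2) := by linarith [hs.pos]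
    refine ⟨Finsupp.single y (S.ind t (S.rs t y) ⟨g, k, z, 1⟩), fun y' => ?_, ?_⟩
    · by_cases e : y = y'
      · rw [← e, Finsupp.single_eq_same]
      · rw [Finsupp.single_eq_of_ne' e]
        by_contra hc
        exact e (hF.inj _ _ (hy.trans ((hX.ne _ _).1 (Ne.symm hc)).symm))
    · rw [← Finsupp.smul_single_one, map_smul, hL, hw]
      have tr : ∀ a', S.Cn (S.al t) (S.rs t y) a' →
          U y.1 ((S.rep t y.2).1, (S.rep t y.2).2 + S.hw t ∅ (S.rep t y.2)) =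
            U a'.g (a'.k, a'.r + a'.σ * S.hw t ∅ (S.rep t y.2)) ∧
          U y.1 ((S.rep t y.2).1, (S.rep t y.2).2 - S.hw t ∅ (S.rep t y.2)) =
            U a'.g (a'.k, a'.r - a'.σ * S.hw t ∅ (S.rep t y.2)) := by
        intro a' hc
        have p1 := hU _ _ (Or.inl rfl) ((hC.tr _ _ _ _ hc hs).2 _ w0 le_rfl) hs.hi
        have p2 := hU _ _ (Or.inl rfl) ((hC.tr _ _ _ _ hc hs).2 _ le_rfl w0) hs.lo
        simp only [St.sh, St.p, Sys.rs, one_mul, mul_neg, ← sub_eq_add_neg] at p1 p2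
        exact ⟨p1, p2⟩
      by_cases hc : S.Cn (S.al t) (S.rs t y) ⟨g, k, z, 1⟩
      · obtain ⟨p1, p2⟩ := tr _ hc
        rw [p1, p2, Sys.ind, if_pos hc, one_smul, one_mul]
      · have hc' := hy.resolve_left hc
        obtain ⟨p1, p2⟩ := tr _ hc'
        rw [p1, p2, Sys.ind, if_neg hc, if_pos hc']
        simp only [St.fl, neg_mul, one_mul, sub_neg_eq_add, ← sub_eq_add_neg, neg_smul, one_smul,
          neg_sub]
  choose! c hc1 hc2 using key
  have e1 : sh g (S.pc t (k, r)) = ∑ z ∈ hfin.toFinset, c z := by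
    ext y
    rw [sh_pc hX g hv, Finsupp.finsetSum_apply, Finset.sum_congr rfl fun z hz => hc1 z hz y]
    refine finsum_mem_eq_sum_of_inter_support_eq _ ?_
    ext z
    simp only [mem_inter_iff, mem_Ioo, Function.mem_support, Finite.coe_toFinset, mem_ofPred_eq]
    exact ⟨fun h => ⟨⟨(mid_of_cf hC hF ((hX.ne _ _).1 h.2)).1, h.1⟩, h.2⟩, fun h => ⟨h.1.2, h.2⟩⟩
  rw [e1, map_sum, Finset.sum_congr rfl hc2]
  exact (hC.tele M (fun r => U g (k, r)) k 0 r hfin.toFinset (S.nd_zero t ∅ k) hx hv.1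
    (fun A s s' h1 h2 h3 _ _ _ => hA g k A s s' h1 h2 h3) fun z => hfin.mem_toFinset).symm

lemma smul_vx (g : G) {x : K × ℝ} (h : S.Nd t ∅ x) :
    g • S.vx t x = Quot.mk (S.Vr t) (g, ⟨x, h⟩) := by
  rw [Sys.vx, dif_pos h]
  exact congrArg (Quot.mk _) (Prod.ext (mul_one _) rfl)

lemma vx_cn (hC : S.CellAt t ∅) (a a' : St G K) (hU : a.U) (hc : S.Cn (S.al t) a a')
    (hn : S.Nd t ∅ a.p) : a.g • S.vx t a.p = a'.g • S.vx t a'.p := by
  refine Cn.ind' (R := fun x y => x.g • S.vx t x.p = y.g • S.vx t y.p)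
    ⟨fun _ => rfl, Eq.symm, Eq.trans⟩ (fun x b hx h1 h2 => ?_) (Cn.refl a) hc
  rw [smul_vx _ ((hC.nd _ _ hU hx).1 hn), smul_vx _ ((hC.nd _ _ hU (hx.trans (Cn.move h1 h2))).1 hn)]
  exact Quot.sound (Or.inl ⟨b, h1, Or.inl h2, rfl, rfl⟩)

lemma vx_arc (g : G) (k : K) (A : Set T) (r r' : ℝ) (hA : S.SpA (k, A)) (hr : r ∈ S.arc k A)
    (hr' : r' ∈ S.arc k A) : g • S.vx t (k, r) = g • S.vx t (k, r') := by
  rw [smul_vx _ (Or.inl ⟨A, hA, hr⟩), smul_vx _ (Or.inl ⟨A, hA, hr'⟩)]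
  exact Quot.sound (Or.inr ⟨rfl, rfl, A, hA, hr, hr'⟩)

lemma arc_le (h1 : S.Spc) (hF : S.FamAt t) (hX : S.CrsAt t) {k : K} {A : Set T} {r r' : ℝ}
    (hA : S.SpA (k, A)) (hr : r ∈ S.arc k A) (hr' : r' ∈ S.arc k A) (hle : r ≤ r') :
    S.pc t (k, r) = S.pc t (k, r') := by
  ext y
  obtain ⟨u, u', -, e⟩ := h1.icc k A hA.1
  have hz : ∀ x, r ≤ x → x ≤ r' → S.ind t (S.rs t y) ⟨1, k, x, 1⟩ = 0 := fun x p q =>
    hX.node _ _ (hF.reg y) (Or.inl ⟨A, hA, by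
      change x ∈ S.arc k A
      rw [e] at hr hr' ⊢
      exact ⟨hr.1.trans p, q.trans hr'.2⟩⟩)
  rw [hX.pc _ _ hr.1, hX.pc _ _ hr'.1, hX.cr_add _ _ _ 0 r r' le_rfl hr.1.1 hle hr'.1.2
    (hz r le_rfl hle), hX.cr_zero _ _ _ r r' fun x p q => hz x p.le q.le, add_zero]

lemma edge (hC : S.CellAt t ∅) (hF : S.FamAt t) (hX : S.CrsAt t) (f : S.Fam t) :
    S.pc t ((S.rep t f).1, (S.rep t f).2 + S.hw t ∅ (S.rep t f)) -
      S.pc t ((S.rep t f).1, (S.rep t f).2 - S.hw t ∅ (S.rep t f)) = Finsupp.single (1, f) 1 := by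
  ext y
  have hs := hF.span (1, f)
  have n1 := hs.lo
  have n2 := hs.hi
  have w0 := hs.pos
  simp only [St.sh, St.p, Sys.rs, one_mul, ← sub_eq_add_neg] at n1 n2 w0
  have v1 := hC.val _ n1
  have v2 := hC.val _ n2
  rw [Finsupp.sub_apply, hX.pc _ _ v1, hX.pc _ _ v2, hX.cr_add _ _ _ 0 _ _ le_rfl v1.1
    (by dsimp only; linarith) v2.2 (hX.node _ _ (hF.reg y) n1), add_sub_cancel_left]
  by_cases e : (1, f) = y
  · rw [← e, Finsupp.single_eq_same, hX.cr_eq (S.rs t (1, f)) 1 _ _ _ (S.rep t f).2 v1.1 v2.2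
      (by dsimp only; linarith) (by dsimp only; linarith) rfl]
    exact hX.self _
  · rw [Finsupp.single_eq_of_ne' e]
    refine hX.cr_zero _ _ _ _ _ fun x p q => ?_
    by_contra hc
    have hc := (hX.ne _ _).1 hc
    dsimp only at p q
    have s1 := span_cf hC hc (hF.span y)
    have s2 := span_sh hs (s := x - (S.rep t f).2) (by dsimp only; linarith) (by dsimp only; linarith)
    simp only [St.sh, Sys.rs, one_mul, add_sub_cancel] at s2
    obtain ⟨u1, u2⟩ := hC.uniq _ _ _ _ _ s1 s2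
    have ex : x = (S.rep t f).2 := by linarith
    rw [ex] at hc
    exact e (hF.inj _ _ hc).symm

lemma jump (h : S.Ok) (hX : S.CrsAt t) {b : B} {r : ℝ} (σ : ℝ) (h1 : S.lo b ≤ r) (h2 : r ≤ S.hi b)
    (y : G × S.Fam t) :
    (S.pc t (S.src b, r) - sh (S.lab b)⁻¹ (S.pc t (S.tgt b, S.mv b r))) y =
      S.pot t (S.rs t y) ⟨1, S.src b, r, σ⟩ - S.pot t (S.rs t y) (S.im b ⟨1, S.src b, r, σ⟩) := by
  rw [Finsupp.sub_apply, hX.pc _ _ (val_src h h1 h2), sh_pc hX _ (h.img b r h1 h2)]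
  simp only [Sys.pot, Sys.im, one_mul]

lemma jump_mid (h : S.Ok) (hX : S.CrsAt t) (b : B) (y : G × S.Fam t) :
    (S.pc t (S.src b, S.mid b) - sh (S.lab b)⁻¹ (S.pc t (S.tgt b, S.mv b (S.mid b)))) y =
      S.th t (S.rs t y) 1 b :=
  jump h hX 1 (by unfold Sys.mid; linarith [h.lo_le b]) (by unfold Sys.mid; linarith [h.lo_le b]) y

end SegP

open SegP Sys in
theorem seg (h : S.Ok) (h1 : S.Spc) (h2 : S.Lvs) (h3 : S.Cell) (h4 : S.Fm) (h5 : S.Crs)
    (ht : S.Ad t) : S.Seg t Fr := by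
  have hC := h3 t ht ∅ finite_empty (by simp)
  have hF := h4 t ht
  have hX := h5 t ht
  refine ⟨desc hC hF hX, fun x hx => ?_, fun k => ?_, fun k A r r' hA hr hr' => ?_, edge hC hF hX,
    fun b r hn hb => ?_, fun e he => ?_, fun x hx => ?_⟩
  · have := desc hC hF hX _ (S.cx t Fr).d1 (fun g x => Finsupp.single (g • S.vx t x) 1)
      (fun a a' p q r => by rw [vx_cn hC a a' p q r])
      (fun g k A r r' p q q' => by rw [vx_arc g k A r r' p q q'])
      (fun y => by simp only [Cx.d1, Finsupp.linearCombination_single, one_smul]; rfl) 1 x hx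
    simpa only [sh_one, one_smul] using this
  · ext y
    rw [hX.pc _ _ ⟨le_rfl, h.len_nonneg k⟩]
    exact hX.cr_zero _ _ _ _ _ fun x p q => absurd (p.trans q) (lt_irrefl _)
  · rcases le_total r r' with hle | hle
    · exact arc_le h1 hF hX hA hr hr' hle
    · exact (arc_le h1 hF hX hA hr' hr hle).symm
  · ext y
    rw [jump h hX 1 (al_base ht hb).1 (al_base ht hb).2, jump_mid h hX]
    exact hX.band _ _ b (hF.reg y) rfl hb (Or.inl rfl) (hX.node _ _ (hF.reg y) hn)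
  · ext y
    have hr : (S.up 1 e 0).r = S.lo e.1 ∨ (S.up 1 e 0).r = S.hi e.1 := by
      rcases e with ⟨b, _ | _⟩ <;> simp [Sys.up]
    have hb : S.lo e.1 ≤ (S.up 1 e 0).r ∧ (S.up 1 e 0).r ≤ S.hi e.1 := by
      have := h.lo_le e.1
      rcases hr with hr | hr <;> rw [hr] <;> constructor <;> linarith
    have hq : ∀ s, S.Q (S.en 1 e 0 s).p := fun s => by
      refine Or.inr (Or.inr ⟨e.1, (S.up 1 e 0).r, hr.imp id Or.inl, ?_⟩)
      cases s
      · exact Or.inl rfl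
      · exact Or.inr rfl
    have := hX.link _ 1 e 0 (hF.reg y) he le_rfl (ht.nonneg e)
      fun s => hX.node _ _ (hF.reg y) (nd_Q (hq s))
    rw [Finsupp.sub_apply (g₂ := S.bdc t e), jump_mid h hX, hX.bdc _ _ he, ← this]
    exact jump h hX (S.up 1 e 0).σ hb.1 hb.2 y
  · have := desc hC hF hX _ 0 (fun g x => Finsupp.single (Quot.mk (fun a b => ∃ g : G, ∃ e ∈ univ,
        g • (S.cx t Fr).o e = a ∧ g • (S.cx t Fr).t e = b) (g • S.vx t x)) (1 : ℂ))
      (fun a a' p q r => by rw [vx_cn hC a a' p q r])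
      (fun g k A r r' p q q' => by rw [vx_arc g k A r r' p q q'])
      (fun y => by
        rw [LinearMap.zero_apply, eq_comm, sub_eq_zero]
        exact congrArg (fun v => Finsupp.single v (1 : ℂ))
          (Quot.sound ⟨y.1, y.2, mem_univ _, rfl, rfl⟩).symm) 1 x hx
    rw [LinearMap.zero_apply, eq_comm, sub_eq_zero, one_smul, one_smul,
      Finsupp.single_left_inj one_ne_zero] at this
    exact Quot.eqvGen_exact this

end Pool.Agent.MP_494aff_an.Se
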