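import Mathlib
import Pool.Agent.MP_494aff_an.se.SpecH

/-! Special arcs. -/

set_option linter.unusedVariables false
set_option linter.unusedSectionVars false

open Set
open scoped Pointwise

namespace Pool.Agent.MP_494aff_an.Se

open Pool.Agent.MP_494aff_an.Pinch Pool.Agent.MP_494aff_an.Pinch.TowP Pool.Agent.MP_494aff_an.Lf

variable {G T K B : Type} [Group G] [MetricSpace T] [MulAction G T] [Countable G] [Fintype K]
  [Fintype B] {S : Sys G T K B} {τ s : ℝ} {t : B × Bool → ℝ} {Fr : Set (B × Bool)}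

namespace SpcP

lemma oc (h : S.Ok) {k : K} {A : Set T} (hA : A ∈ S.Ln) : (S.arc k A).OrdConnected := by
  refine ⟨fun r hr r' hr' x hx => ?_⟩
  have hv : S.Val (k, x) := ⟨hr.1.1.trans hx.1, hx.2.trans hr'.1.2⟩
  refine ⟨hv, h.tr.convex A hA _ hr.2 _ hr'.2 _ ?_⟩
  rw [h.iso k r x hr.1 hv, h.iso k x r' hv hr'.1, h.iso k r r' hr.1 hr'.1,
    abs_of_nonpos (by linarith [hx.1]), abs_of_nonpos (by linarith [hx.2]),
    abs_of_nonpos (by linarith [hx.1, hx.2])]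
  ring

lemma icc (h : S.Ok) (k : K) (A : Set T) (hA : S.IsArc (k, A)) :
    ∃ r r', r < r' ∧ S.arc k A = Icc r r' := by
  have hc : ContinuousOn (S.ι k) (Icc 0 (S.len k)) := by
    refine (LipschitzOnWith.of_dist_le_mul (K := 1) fun x hx y hy => ?_).continuousOn
    rw [h.iso k x y hx hy, Real.dist_eq]
    simp
  have h1 : IsClosed (S.arc k A) :=
    hc.preimage_isClosed_of_isClosed isClosed_Icc (h.tr.closed A hA.1)
  have h2 : IsCompact (S.arc k A) :=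
    (isCompact_Icc (a := 0) (b := S.len k)).of_isClosed_subset h1 fun x hx => hx.1
  have h3 : IsConnected (S.arc k A) := ⟨hA.2.nonempty, (oc h hA.1).isPreconnected⟩
  have h4 := eq_Icc_of_connected_compact h3 h2
  refine ⟨_, _, ?_, h4⟩
  have h5 : (S.arc k A).Nontrivial := hA.2
  rw [h4] at h5
  by_contra hlt
  exact h5.not_subsingleton (subsingleton_Icc_of_ge (not_lt.1 hlt))

lemma trf (h : S.Ok) {b : B} {r : ℝ} (A : Set T) (h1 : S.lo b ≤ r) (h2 : r ≤ S.hi b) :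
    r ∈ S.arc (S.src b) A ↔ S.mv b r ∈ S.arc (S.tgt b) (S.lab b • A) := by
  simp only [Sys.arc, mem_ofPred_eq, h.lab_eq b r h1 h2, smul_mem_smul_set_iff,
    Sys.val_src h h1 h2, h.img b r h1 h2]

lemma abs_mv (h : S.Ok) (b : B) (r r' : ℝ) : |S.mv b r - S.mv b r'| = |r - r'| := by
  rw [show S.mv b r - S.mv b r' = S.sg b * (r - r') by unfold Sys.mv; ring, abs_mul]
  rcases h.sg_eq b with e | e <;> simp [e]

lemma mv_surj (h : S.Ok) (b : B) (v : ℝ) : ∃ w, S.mv b w = v := by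
  refine ⟨S.sg b * (v - S.off b), ?_⟩
  unfold Sys.mv
  rcases h.sg_eq b with e | e <;> simp [e]

lemma near {r r' x δ : ℝ} (hr : r < r') (hx : x ∈ Icc r r') (hδ : 0 < δ) :
    ∃ y ∈ Icc r r', y ≠ x ∧ |y - x| ≤ δ := by
  rcases hx.2.lt_or_eq with h | h
  · refine ⟨min r' (x + δ), ⟨le_min hr.le (by linarith [hx.1]), min_le_left _ _⟩, ?_, ?_⟩
    · exact (lt_min h (by linarith)).ne'
    · have h1 : x < min r' (x + δ) := lt_min h (by linarith)
      rw [abs_of_pos (by linarith)]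
      linarith [min_le_right r' (x + δ)]
  · have h1 : max r (x - δ) < x := max_lt (by linarith) (by linarith)
    refine ⟨max r (x - δ), ⟨le_max_left _ _, by linarith⟩, h1.ne, ?_⟩
    rw [abs_of_neg (by linarith)]
    linarith [le_max_right r (x - δ)]

lemma arc_fwd (h : S.Ok) {b : B} {r : ℝ} {A : Set T} (ho : S.opn b r)
    (hA : S.IsArc (S.src b, A)) (hr : r ∈ S.arc (S.src b) A) :
    S.IsArc (S.tgt b, S.lab b • A) := by
  obtain ⟨r0, r1, hlt, e⟩ := icc h _ _ hA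
  obtain ⟨y, hy, hne, hd⟩ := near hlt (e ▸ hr) (δ := min (r - S.lo b) (S.hi b - r))
    (lt_min (by linarith [ho.1]) (by linarith [ho.2]))
  have h1 := abs_le.1 (hd.trans (min_le_left _ _))
  have h2 := abs_le.1 (hd.trans (min_le_right _ _))
  refine ⟨h.tr.smul _ _ hA.1, S.mv b y, (trf h A (by linarith) (by linarith)).1 (e ▸ hy),
    S.mv b r, (trf h A ho.1.le ho.2.le).1 hr, fun e' => hne ?_⟩
  have := abs_mv h b y r
  rw [e', sub_self, abs_zero, eq_comm, abs_eq_zero, sub_eq_zero] at this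
  exact this

lemma arc_bwd (h : S.Ok) {b : B} {r : ℝ} {A : Set T} (ho : S.opn b r)
    (hA : S.IsArc (S.tgt b, S.lab b • A)) (hr : r ∈ S.arc (S.src b) A) :
    S.IsArc (S.src b, A) := by
  obtain ⟨r0, r1, hlt, e⟩ := icc h _ _ hA
  obtain ⟨y, hy, hne, hd⟩ := near hlt (e ▸ (trf h A ho.1.le ho.2.le).1 hr)
    (δ := min (r - S.lo b) (S.hi b - r)) (lt_min (by linarith [ho.1]) (by linarith [ho.2]))
  obtain ⟨w, rfl⟩ := mv_surj h b y
  rw [abs_mv h] at hd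
  have h1 := abs_le.1 (hd.trans (min_le_left _ _))
  have h2 := abs_le.1 (hd.trans (min_le_right _ _))
  refine ⟨?_, w, (trf h A (by linarith) (by linarith)).2 (e ▸ hy), r, hr, fun e' => hne (by rw [e'])⟩
  have := h.tr.smul (S.lab b)⁻¹ _ hA.1
  rwa [inv_smul_smul] at this

lemma spA_iff (h : S.Ok) {b : B} {r : ℝ} {A : Set T} (ho : S.opn b r)
    (hr : r ∈ S.arc (S.src b) A) : S.SpA (S.src b, A) ↔ S.SpA (S.tgt b, S.lab b • A) := by
  constructor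
  · rintro ⟨hA, y, h1, h2, h3⟩
    exact ⟨arc_fwd h ho hA hr, y, h1, h2, Relation.EqvGen.trans _ _ _
      (Relation.EqvGen.symm _ _ (Relation.EqvGen.rel _ _ ⟨hA, b, r, rfl, ho, hr, rfl⟩)) h3⟩
  · rintro ⟨hA, y, h1, h2, h3⟩
    have hA' := arc_bwd h ho hA hr
    exact ⟨hA', y, h1, h2, Relation.EqvGen.trans _ _ _
      (Relation.EqvGen.rel _ _ ⟨hA', b, r, rfl, ho, hr, rfl⟩) h3⟩

/-- An arc that misses the ends of a band is moved as a whole. -/
lemma full (h : S.Ok) {b : B} {r : ℝ} {A : Set T} (ho : S.opn b r) (hA : A ∈ S.Ln)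
    (hr : r ∈ S.arc (S.src b) A) (h1 : S.lo b ∉ S.arc (S.src b) A)
    (h2 : S.hi b ∉ S.arc (S.src b) A) :
    (∀ w ∈ S.arc (S.src b) A, S.opn b w) ∧
      ∀ w, w ∈ S.arc (S.src b) A ↔ S.mv b w ∈ S.arc (S.tgt b) (S.lab b • A) := by
  have o1 := oc h (k := S.src b) hA
  have o2 := oc h (k := S.tgt b) (h.tr.smul (S.lab b) _ hA)
  have hr' := (trf h A ho.1.le ho.2.le).1 hr
  have k1 : ∀ w ∈ S.arc (S.src b) A, S.opn b w := fun w hw =>
    ⟨not_le.1 fun hl => h1 (o1.out hw hr ⟨hl, ho.1.le⟩),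
      not_le.1 fun hl => h2 (o1.out hr hw ⟨ho.2.le, hl⟩)⟩
  refine ⟨k1, fun w => ⟨fun hw => (trf h A (k1 w hw).1.le (k1 w hw).2.le).1 hw, fun hw => ?_⟩⟩
  have := ho.1
  have := ho.2
  refine (trf h A (not_lt.1 fun hl => h1 ?_) (not_lt.1 fun hl => h2 ?_)).2 hw
  · refine (trf h A le_rfl (h.lo_le b)).2 (o2.uIcc_subset hw hr' ?_)
    rw [mem_uIcc]
    unfold Sys.mv
    rcases h.sg_eq b with e | e <;> rw [e]
    · left; constructor <;> linarith
    · right; constructor <;> linarith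
  · refine (trf h A (h.lo_le b) le_rfl).2 (o2.uIcc_subset hw hr' ?_)
    rw [mem_uIcc]
    unfold Sys.mv
    rcases h.sg_eq b with e | e <;> rw [e]
    · right; constructor <;> linarith
    · left; constructor <;> linarith

lemma q_fin : {x | S.Q x}.Finite := by
  refine ((finite_range fun k : K => (k, (0 : ℝ))).union ((finite_range fun k : K => (k, S.len k)).union
    (finite_iUnion fun b : B => ((toFinite {S.lo b, S.hi b, S.mid b}).image fun r => (S.src b, r)).union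
      ((toFinite {S.lo b, S.hi b, S.mid b}).image fun r => (S.tgt b, S.mv b r))))).subset ?_
  rintro ⟨k, r⟩ (h | h | ⟨b, r', h1, h2⟩)
  · exact Or.inl ⟨k, Prod.ext rfl h.symm⟩
  · exact Or.inr (Or.inl ⟨k, Prod.ext rfl h.symm⟩)
  · refine Or.inr (Or.inr (mem_iUnion.2 ⟨b, ?_⟩))
    rcases h2 with h2 | h2
    · exact Or.inl ⟨r', h1, h2.symm⟩
    · exact Or.inr ⟨r', h1, h2.symm⟩

lemma arc_eq (h : S.Ok) {k : K} {A A' : Set T} (hA : A ∈ S.Ln) (hA' : A' ∈ S.Ln) {r r' : ℝ}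
    (hne : r ≠ r') (h1 : r ∈ S.arc k A) (h2 : r' ∈ S.arc k A) (h3 : r ∈ S.arc k A')
    (h4 : r' ∈ S.arc k A') : A = A' := by
  refine h.tr.two A hA A' hA' _ _ (fun e => hne ?_) h1.2 h2.2 h3.2 h4.2
  have := h.iso k r r' h1.1 h2.1
  rw [e, dist_self, eq_comm, abs_eq_zero, sub_eq_zero] at this
  exact this

lemma thru_fin (h : S.Ok) (x : K × ℝ) :
    {y : K × Set T | S.IsArc y ∧ y.1 = x.1 ∧ x.2 ∈ S.arc y.1 y.2}.Finite := by
  have s1 : {y : K × Set T | y.2 ∈ S.Ln ∧ y.1 = x.1 ∧ x.2 ∈ S.arc y.1 y.2 ∧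
      ∃ v ∈ S.arc y.1 y.2, x.2 < v}.Subsingleton := by
    rintro ⟨k, A⟩ ⟨hA, rfl, h1, v, h2, h3⟩ ⟨k', A'⟩ ⟨hA', rfl, h4, v', h5, h6⟩
    have hm : x.2 < min v v' := lt_min h3 h6
    exact Prod.ext rfl (arc_eq h hA hA' hm.ne h1 ((oc h hA).out h1 h2 ⟨hm.le, min_le_left _ _⟩) h4
      ((oc h hA').out h4 h5 ⟨hm.le, min_le_right _ _⟩))
  have s2 : {y : K × Set T | y.2 ∈ S.Ln ∧ y.1 = x.1 ∧ x.2 ∈ S.arc y.1 y.2 ∧
      ∃ v ∈ S.arc y.1 y.2, v < x.2}.Subsingleton := by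
    rintro ⟨k, A⟩ ⟨hA, rfl, h1, v, h2, h3⟩ ⟨k', A'⟩ ⟨hA', rfl, h4, v', h5, h6⟩
    have hm : max v v' < x.2 := max_lt h3 h6
    exact Prod.ext rfl (arc_eq h hA hA' hm.ne' h1 ((oc h hA).out h2 h1 ⟨le_max_left _ _, hm.le⟩) h4
      ((oc h hA').out h5 h4 ⟨le_max_right _ _, hm.le⟩))
  refine (s1.finite.union s2.finite).subset ?_
  rintro y ⟨hy, h1, h2⟩
  obtain ⟨v, hv, hne⟩ := hy.2.exists_ne x.2
  rcases lt_or_gt_of_ne hne with hl | hl
  · exact Or.inr ⟨hy.1, h1, h2, v, hv, hl⟩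
  · exact Or.inl ⟨hy.1, h1, h2, v, hv, hl⟩

lemma meet_fin (h : S.Ok) {Z : Set (K × ℝ)} (hZ : Z.Finite) :
    {y : K × Set T | S.IsArc y ∧ ∃ r ∈ S.arc y.1 y.2, (y.1, r) ∈ Z}.Finite := by
  refine (hZ.biUnion fun x _ => thru_fin h x).subset ?_
  rintro y ⟨hy, r, h1, h2⟩
  exact mem_biUnion h2 ⟨hy, rfl, h1⟩

/-- An arc with two points at distance at least `l`. -/
def Long (S : Sys G T K B) (l : ℝ) (y : K × Set T) : Prop :=
  S.IsArc y ∧ ∃ u ∈ S.arc y.1 y.2, ∃ v ∈ S.arc y.1 y.2, l ≤ |u - v|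

lemma long_fin (h : S.Ok) {l : ℝ} (hl : 0 < l) : {y | Long S l y}.Finite := by
  refine (meet_fin h (Z := ⋃ k : K, (fun j : ℕ => (k, j * l)) '' Iic ⌈S.len k / l⌉₊)
    (finite_iUnion fun k => (finite_Iic _).image _)).subset ?_
  have key : ∀ (y : K × Set T) u v, y.2 ∈ S.Ln → u ∈ S.arc y.1 y.2 → v ∈ S.arc y.1 y.2 →
      l ≤ v - u → ∃ r ∈ S.arc y.1 y.2,
        (y.1, r) ∈ ⋃ k : K, (fun j : ℕ => (k, j * l)) '' Iic ⌈S.len k / l⌉₊ := by
    intro y u v hy hu hv hle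
    have h0 : 0 ≤ u / l := div_nonneg hu.1.1 hl.le
    have h1 := (div_le_iff₀ hl).1 (Nat.le_ceil (u / l))
    have h2 := Nat.ceil_lt_add_one h0
    have h3 : (⌈u / l⌉₊ : ℝ) * l ≤ (u / l + 1) * l := by gcongr
    rw [add_mul, div_mul_cancel₀ _ hl.ne'] at h3
    refine ⟨⌈u / l⌉₊ * l, (oc h hy).out hu hv ⟨h1, by linarith⟩, mem_iUnion.2 ⟨y.1, _, ?_, rfl⟩⟩
    exact Nat.ceil_mono (div_le_div_of_nonneg_right hu.1.2 hl.le)
  rintro y ⟨hy, u, hu, v, hv, hle⟩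
  refine ⟨hy, ?_⟩
  rcases le_abs'.1 hle with h1 | h1
  · exact key y u v hy.1 hu hv (by linarith)
  · exact key y v u hy.1 hv hu h1

lemma fin (h : S.Ok) : {x | S.SpA x}.Finite := by
  have hF := meet_fin h (q_fin (S := S))
  obtain ⟨l, hl, hL⟩ : ∃ l, 0 < l ∧ ∀ y, S.IsArc y → (∃ r ∈ S.arc y.1 y.2, S.Q (y.1, r)) →
      Long S l y := by
    have ev : ∀ᶠ l in nhdsWithin (0 : ℝ) (Ioi 0), ∀ y ∈ {y : K × Set T | S.IsArc y ∧
        ∃ r ∈ S.arc y.1 y.2, (y.1, r) ∈ {x | S.Q x}}, Long S l y := by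
      refine (Filter.eventually_all_finite hF).2 fun y hy => ?_
      obtain ⟨u, hu, v, hv, hne⟩ := hy.1.2
      have : 0 < |u - v| := abs_pos.2 (sub_ne_zero.2 hne)
      filter_upwards [nhdsWithin_le_nhds (Iic_mem_nhds this)] with l hl
      exact ⟨hy.1, u, hu, v, hv, hl⟩
    obtain ⟨l, h1, h2⟩ := (ev.and self_mem_nhdsWithin).exists
    exact ⟨l, h2, fun y a b => h1 y ⟨a, b⟩⟩
  have inv : ∀ x y, Relation.EqvGen S.Stp x y → (Long S l x ↔ Long S l y) := by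
    intro x y hxy
    induction hxy with
    | refl x => exact Iff.rfl
    | symm x y _ ih => exact ih.symm
    | trans x y z _ _ i1 i2 => exact i1.trans i2
    | rel x y hs =>
      obtain ⟨k, A⟩ := x
      obtain ⟨hA, b, r, rfl, ho, hr, rfl⟩ := hs
      have hA' := arc_fwd h ho hA hr
      by_cases hq : S.lo b ∈ S.arc (S.src b) A ∨ S.hi b ∈ S.arc (S.src b) A
      · refine iff_of_true (hL _ hA ?_) (hL _ hA' ?_)
        · rcases hq with hq | hq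
          · exact ⟨_, hq, Or.inr (Or.inr ⟨b, _, Or.inl rfl, Or.inl rfl⟩)⟩
          · exact ⟨_, hq, Or.inr (Or.inr ⟨b, _, Or.inr (Or.inl rfl), Or.inl rfl⟩)⟩
        · rcases hq with hq | hq
          · exact ⟨_, (trf h A le_rfl (h.lo_le b)).1 hq,
              Or.inr (Or.inr ⟨b, _, Or.inl rfl, Or.inr rfl⟩)⟩
          · exact ⟨_, (trf h A (h.lo_le b) le_rfl).1 hq,
              Or.inr (Or.inr ⟨b, _, Or.inr (Or.inl rfl), Or.inr rfl⟩)⟩
      · rw [not_or] at hq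
        have hf := (full h ho hA.1 hr hq.1 hq.2).2
        constructor
        · rintro ⟨-, u, hu, v, hv, hle⟩
          exact ⟨hA', _, (hf u).1 hu, _, (hf v).1 hv, by rwa [abs_mv h]⟩
        · rintro ⟨-, u, hu, v, hv, hle⟩
          obtain ⟨u, rfl⟩ := mv_surj h b u
          obtain ⟨v, rfl⟩ := mv_surj h b v
          exact ⟨hA, _, (hf u).2 hu, _, (hf v).2 hv, by rwa [abs_mv h] at hle⟩
  refine (long_fin h hl).subset ?_
  rintro x ⟨-, y, h1, h2, h3⟩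
  exact (inv x y h3).2 (hL y h1 h2)

lemma sh_near {c : St G K} (hU : c.U) (s s' : ℝ) : |(c.sh s).r - (c.sh s').r| = |s - s'| := by
  rw [show (c.sh s).r - (c.sh s').r = c.σ * (s - s') by simp only [St.sh]; ring, abs_mul, hU.abs,
    one_mul]

lemma agree (h : S.Ok) {c : St G K} {b : B} (h1 : c.k = S.src b) {s : ℝ}
    (h2 : S.lo b ≤ (c.sh s).r) (h3 : (c.sh s).r ≤ S.hi b) :
    S.Val (c.sh s).p ∧ S.Val ((S.im b c).sh s).p ∧ S.pt (c.sh s) = S.pt ((S.im b c).sh s) := by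
  rw [Sys.im_sh]
  refine ⟨?_, h.img b _ h2 h3, (Sys.pt_im h (a := c.sh s) h1 h2 h3).symm⟩
  have := Sys.val_src h h2 h3
  rwa [← h1] at this

lemma ns (h : S.Ok) (a a' : St G K) (A : Set T) (hU : a.U) (hn : ¬ S.Sp a.p)
    (hc : S.Cn S.opn a a') (hk : a'.k = a.k) (hA : S.IsArc (a.k, A)) (hr : a.r ∈ S.arc a.k A)
    (hm : (a'.g⁻¹ * a.g) • A = A) : a'.g = a.g := by
  let L : St G K → Set T := fun c => (c.g⁻¹ * a.g) • A
  have hL : ∀ c b, L (S.im b c) = S.lab b • L c := fun c b => by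
    simp only [L, Sys.im, mul_inv_rev, inv_inv, mul_smul]
  let N : St G K → Prop := fun c =>
    S.IsArc (c.k, L c) ∧ ¬ S.SpA (c.k, L c) ∧ c.r ∈ S.arc c.k (L c)
  have La : L a = A := by simp [L]
  have hN : ∀ c, S.Cn S.opn a c → N c := by
    intro c hac
    refine (Sys.Cn.ind (R := fun x y => N x ↔ N y) ⟨fun _ => Iff.rfl, Iff.symm, Iff.trans⟩
      (fun x b h1 h2 => ?_) hac).1 ?_
    · have t := trf h (L x) h2.1.le h2.2.le
      simp only [N, hL, h1]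
      constructor
      · rintro ⟨p1, p2, p3⟩
        exact ⟨arc_fwd h h2 p1 p3, fun p => p2 ((spA_iff h h2 p3).2 p), t.1 p3⟩
      · rintro ⟨p1, p2, p3⟩
        exact ⟨arc_bwd h h2 p1 (t.2 p3), fun p => p2 ((spA_iff h h2 (t.2 p3)).1 p), t.2 p3⟩
    · simp only [N, La]
      exact ⟨hA, fun p => hn ⟨A, p, hr⟩, hr⟩
  let J : St G K → ℝ → Prop := fun c s => (c.sh s).r ∈ S.arc c.k (L c)
  have key : (∀ s, J a s ↔ J a' s) ∧ (a = a' ∨ ∃ η, 0 < η ∧ ∀ s s', |s - s'| ≤ η → J a s' →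
      S.Val (a.sh s).p ∧ S.Val (a'.sh s).p ∧ S.pt (a.sh s) = S.pt (a'.sh s)) := by
    refine Sys.Cn.ind' (R := fun c c' => (∀ s, J c s ↔ J c' s) ∧ (c = c' ∨ ∃ η, 0 < η ∧
      ∀ s s', |s - s'| ≤ η → J c s' →
        S.Val (c.sh s).p ∧ S.Val (c'.sh s).p ∧ S.pt (c.sh s) = S.pt (c'.sh s))) ⟨?_, ?_, ?_⟩
      (c := a) ?_ (Sys.Cn.refl a) hc
    · exact fun c => ⟨fun _ => Iff.rfl, Or.inl rfl⟩
    · rintro c c' ⟨p1, rfl | ⟨η, p2, p3⟩⟩
      · exact ⟨p1, Or.inl rfl⟩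
      · refine ⟨fun s => (p1 s).symm, Or.inr ⟨η, p2, fun s s' q1 q2 => ?_⟩⟩
        obtain ⟨u1, u2, u3⟩ := p3 s s' q1 ((p1 s').2 q2)
        exact ⟨u2, u1, u3.symm⟩
    · rintro c c' c'' ⟨p1, rfl | ⟨η, p2, p3⟩⟩ ⟨q1, q⟩
      · exact ⟨q1, q⟩
      rcases q with rfl | ⟨η', q2, q3⟩
      · exact ⟨p1, Or.inr ⟨η, p2, p3⟩⟩
      refine ⟨fun s => (p1 s).trans (q1 s), Or.inr ⟨min η η', lt_min p2 q2, fun s s' w1 w2 => ?_⟩⟩
      obtain ⟨u1, u2, u3⟩ := p3 s s' (w1.trans (min_le_left _ _)) w2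
      obtain ⟨v1, v2, v3⟩ := q3 s s' (w1.trans (min_le_right _ _)) ((p1 s').1 w2)
      exact ⟨u1, v2, u3.trans v3⟩
    · intro c b hac h1 h2
      obtain ⟨p1, p2, p3⟩ := hN c hac
      have hcU := (Sys.Cn.U h hac).1 hU
      have nq : ∀ r ∈ S.arc c.k (L c), ¬ S.Q (c.k, r) := fun r q1 q2 =>
        p2 ⟨p1, _, p1, ⟨r, q1, q2⟩, Relation.EqvGen.refl _⟩
      obtain ⟨r0, r1, hlt, e⟩ := icc h _ _ p1
      rw [h1] at p1 p3 nq e
      obtain ⟨f1, f2⟩ := full h h2 p1.1 p3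
        (fun q => nq _ q (Or.inr (Or.inr ⟨b, _, Or.inl rfl, Or.inl rfl⟩)))
        (fun q => nq _ q (Or.inr (Or.inr ⟨b, _, Or.inr (Or.inl rfl), Or.inl rfl⟩)))
      have g0 := (f1 r0 (e ▸ left_mem_Icc.2 hlt.le)).1
      have g1 := (f1 r1 (e ▸ right_mem_Icc.2 hlt.le)).2
      refine ⟨fun s => ?_, Or.inr ⟨min (r0 - S.lo b) (S.hi b - r1),
        lt_min (by linarith) (by linarith), fun s s' w1 w2 => ?_⟩⟩
      · simp only [J, hL, Sys.im_sh, h1]
        exact f2 _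
      · simp only [J, h1, e] at w2
        rw [← sh_near hcU] at w1
        have u1 := abs_le.1 (w1.trans (min_le_left _ _))
        have u2 := abs_le.1 (w1.trans (min_le_right _ _))
        exact agree h h1 (by linarith [w2.1]) (by linarith [w2.2])
  obtain ⟨k1, rfl | ⟨η, hη, k2⟩⟩ := key
  · rfl
  obtain ⟨r0, r1, hlt, e⟩ := icc h _ _ hA
  have La' : L a' = A := hm
  simp only [J, La, La', hk, e] at k1 k2
  have hs : ∀ x, (a.sh (a.σ * (x - a.r))).r = x := fun x => by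
    rcases hU with u | u <;> simp [St.sh, u]
  have hp : ∀ s, S.pt (a.sh s) = S.pt (a'.sh s) →
      (a'.g⁻¹ * a.g) • S.ι a.k (a.sh s).r = S.ι a.k (a'.sh s).r := fun s q => by
    rw [mul_smul, inv_smul_eq_iff, ← hk]
    conv_lhs => rw [hk]
    exact q
  have m0 : (a.sh (a.σ * (r0 - a.r))).r ∈ Icc r0 r1 := by rw [hs]; exact left_mem_Icc.2 hlt.le
  have m1 : (a.sh (a.σ * (r1 - a.r))).r ∈ Icc r0 r1 := by rw [hs]; exact right_mem_Icc.2 hlt.le
  have n0 := (k1 _).1 m0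
  have n1 := (k1 _).1 m1
  have hσ : a'.σ = a.σ ∨ a'.σ = -a.σ := by
    have hU' := (Sys.Cn.U h hc).1 hU
    rcases hU with u | u <;> rcases hU' with v | v <;> simp [u, v]
  have hσσ : a.σ * a.σ = 1 := by rcases hU with u | u <;> simp [u]
  rcases hσ with v | v
  · have hs' : ∀ x, (a'.sh (a.σ * (x - a.r))).r = a'.r + (x - a.r) := fun x => by
      simp only [St.sh, v, ← mul_assoc, hσσ, one_mul]
    rw [hs'] at n0 n1
    have er : a'.r = a.r := by linarith [n0.1, n1.2]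
    obtain ⟨u1, -, u3⟩ := k2 (a.σ * (r1 + η - a.r)) _ (by
      rw [← mul_sub, abs_mul, hU.abs, one_mul, abs_of_pos (by linarith)]; linarith) m1
    have u4 := hp _ u3
    rw [hs, hs', er, show a.r + (r1 + η - a.r) = r1 + η by ring] at u4
    by_contra hne
    have u5 := h.tr.fix A hA.1 _ _ (fun q => hne (inv_mul_eq_one.1 q)) hm u4
    have u6 : r1 + η ∈ S.arc a.k A := ⟨by rw [← hs (r1 + η)]; exact u1, u5⟩
    rw [e] at u6
    linarith [u6.2]
  · exfalso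
    have hs' : ∀ x, (a'.sh (a.σ * (x - a.r))).r = a'.r - (x - a.r) := fun x => by
      simp only [St.sh, v, neg_mul, ← mul_assoc, hσσ, one_mul, sub_eq_add_neg]
    rw [hs'] at n0 n1
    obtain ⟨u1, -, u3⟩ := k2 (a.σ * (r0 - a.r)) _ (by simpa using hη.le) m0
    obtain ⟨v1, -, v3⟩ := k2 (a.σ * (r1 - a.r)) _ (by simpa using hη.le) m1
    have u4 := hp _ u3
    have v4 := hp _ v3
    rw [hs, hs', show a'.r - (r0 - a.r) = r1 by linarith [n0.2, n1.1]] at u4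
    rw [hs, hs', show a'.r - (r1 - a.r) = r0 by linarith [n0.2, n1.1]] at v4
    have w := h.tr.noflip _ _ _ u4 v4
    have w' := h.iso a.k r0 r1 (by rw [← hs r0]; exact u1) (by rw [← hs r1]; exact v1)
    rw [w, dist_self, eq_comm, abs_eq_zero] at w'
    linarith

lemma g1 (h : S.Ok) (a a' : St G K) (hU : a.U) (hn : ¬ S.Sp a.p) (hc : S.Cn S.opn a a')
    (hp : a'.p = a.p) : a' = a := by
  have key : a = a' ∨ ∃ η, 0 < η ∧ ∀ s, |s| ≤ η →
      S.Val (a.sh s).p ∧ S.Val (a'.sh s).p ∧ S.pt (a.sh s) = S.pt (a'.sh s) := by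
    refine Sys.Cn.ind' (R := fun c c' => c = c' ∨ ∃ η, 0 < η ∧ ∀ s, |s| ≤ η →
        S.Val (c.sh s).p ∧ S.Val (c'.sh s).p ∧ S.pt (c.sh s) = S.pt (c'.sh s)) ⟨?_, ?_, ?_⟩
      (c := a) ?_ (Sys.Cn.refl a) hc
    · exact fun c => Or.inl rfl
    · rintro c c' (rfl | ⟨η, p2, p3⟩)
      · exact Or.inl rfl
      · refine Or.inr ⟨η, p2, fun s q1 => ?_⟩
        obtain ⟨u1, u2, u3⟩ := p3 s q1
        exact ⟨u2, u1, u3.symm⟩
    · rintro c c' c'' (rfl | ⟨η, p2, p3⟩) q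
      · exact q
      rcases q with rfl | ⟨η', q2, q3⟩
      · exact Or.inr ⟨η, p2, p3⟩
      refine Or.inr ⟨min η η', lt_min p2 q2, fun s w1 => ?_⟩
      obtain ⟨u1, u2, u3⟩ := p3 s (w1.trans (min_le_left _ _))
      obtain ⟨v1, v2, v3⟩ := q3 s (w1.trans (min_le_right _ _))
      exact ⟨u1, v2, u3.trans v3⟩
    · intro c b hac h1 h2
      have hcU := (Sys.Cn.U h hac).1 hU
      refine Or.inr ⟨min (c.r - S.lo b) (S.hi b - c.r),
        lt_min (by linarith [h2.1]) (by linarith [h2.2]), fun s w1 => ?_⟩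
      have w2 := sh_near hcU s 0
      rw [St.sh_zero, sub_zero] at w2
      rw [← w2] at w1
      have u1 := abs_le.1 (w1.trans (min_le_left _ _))
      have u2 := abs_le.1 (w1.trans (min_le_right _ _))
      exact agree h h1 (by linarith) (by linarith)
  obtain rfl | ⟨η, hη, k2⟩ := key
  · rfl
  have hk : a'.k = a.k := congrArg Prod.fst hp
  have hr : a'.r = a.r := congrArg Prod.snd hp
  have hq : ∀ s, S.pt (a.sh s) = S.pt (a'.sh s) →
      (a'.g⁻¹ * a.g) • S.ι a.k (a.sh s).r = S.ι a.k (a'.sh s).r := fun s q => by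
    rw [mul_smul, inv_smul_eq_iff, ← hk]
    conv_lhs => rw [hk]
    exact q
  have hσσ : a.σ * a.σ = 1 := by rcases hU with u | u <;> simp [u]
  have hs : ∀ x, (a.sh (a.σ * x)).r = a.r + x := fun x => by
    simp only [St.sh, ← mul_assoc, hσσ, one_mul]
  obtain ⟨u1, -, u3⟩ := k2 (a.σ * η) (by rw [abs_mul, hU.abs, one_mul, abs_of_pos hη])
  obtain ⟨v1, -, v3⟩ := k2 (a.σ * -η) (by rw [abs_mul, hU.abs, one_mul, abs_neg, abs_of_pos hη])
  have u4 := hq _ u3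
  have v4 := hq _ v3
  have u2 : S.Val (a.k, a.r + η) := by rw [← hs η]; exact u1
  have v2 : S.Val (a.k, a.r + -η) := by rw [← hs (-η)]; exact v1
  have hd : S.ι a.k (a.r + η) ≠ S.ι a.k (a.r + -η) := fun w => by
    have w' := h.iso a.k _ _ u2 v2
    rw [w, dist_self, eq_comm, abs_eq_zero] at w'
    linarith
  have hσ : a'.σ = a.σ ∨ a'.σ = -a.σ := by
    have hU' := (Sys.Cn.U h hc).1 hU
    rcases hU with u | u <;> rcases hU' with v | v <;> simp [u, v]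
  rcases hσ with v | v
  · have hs' : ∀ x, (a'.sh (a.σ * x)).r = a.r + x := fun x => by
      simp only [St.sh, v, hr, ← mul_assoc, hσσ, one_mul]
    rw [hs, hs'] at u4 v4
    refine St.ext ?_ hk hr v
    by_contra hne
    obtain ⟨A, hA, m1, m2, m3⟩ := h.tr.small _ _ hd fun ε hε =>
      ⟨_, fun q => hne (inv_mul_eq_one.1 q), by rwa [u4, dist_self], by rwa [v4, dist_self]⟩
    have hpos : 0 < dist (S.ι a.k (a.r + η)) (S.ι a.k (a.r + -η)) / 10 := by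
      have := dist_pos.2 hd
      positivity
    have a1 : a.r + η ∈ S.arc a.k A := ⟨u2, m1⟩
    have a2 : a.r + -η ∈ S.arc a.k A := ⟨v2, m2⟩
    exact hne (ns h a a' A hU hn hc hk ⟨hA, _, a1, _, a2, by linarith⟩
      ((oc h hA).out a2 a1 ⟨by linarith, by linarith⟩)
      (m3 _ (by rwa [u4, dist_self]) (by rwa [v4, dist_self])))
  · exfalso
    have hs' : ∀ x, (a'.sh (a.σ * x)).r = a.r + -x := fun x => by
      simp only [St.sh, v, hr, neg_mul, ← mul_assoc, hσσ, one_mul]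
    rw [hs, hs'] at u4 v4
    rw [neg_neg] at v4
    exact hd (h.tr.noflip _ _ _ u4 v4)

end SpcP

theorem spc (h : S.Ok) : S.Spc where
  icc := SpcP.icc h
  fin := SpcP.fin h
  fwd b r A ho hA hr := ⟨(SpcP.spA_iff h ho hr).1 hA, (SpcP.trf h A ho.1.le ho.2.le).1 hr⟩
  bwd b r A ho hA hr := by
    have h1 := (SpcP.trf h ((S.lab b)⁻¹ • A) ho.1.le ho.2.le).2 (by rwa [smul_inv_smul])
    exact ⟨(SpcP.spA_iff h ho h1).2 (by rwa [smul_inv_smul]), h1⟩
  ns := SpcP.ns h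
  g1 := SpcP.g1 h

end Pool.Agent.MP_494aff_an.Se
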