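import Mathlib
import Pool.Agent.MP_494aff_an.se.SpecH

/-! The volume count: every edge type occurs twice or not at all. -/

set_option linter.unusedVariables false
set_option linter.unusedSectionVars false

open Set Filter Topology
open scoped Pointwise

namespace Pool.Agent.MP_494aff_an.Se

open Pool.Agent.MP_494aff_an.Pinch Pool.Agent.MP_494aff_an.Pinch.TowP Pool.Agent.MP_494aff_an.Lf

namespace VolP

open Sys

lemma count {ι κ Q : Type} (s : Finset ι) (s' : Finset κ) (p : ι → Q) (p' : κ → Q) (w : ι → ℝ)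
    (w' : κ → ℝ) (h0 : ∀ l ∈ s, 0 ≤ w l) (h0' : ∀ c ∈ s', 0 ≤ w' c)
    (h1 : ∀ l ∈ s, ∀ c ∈ s', p' c = p l → w' c = w l)
    (h2 : ∀ l ∈ s, ∀ l' ∈ s, p l' = p l → w l' = w l)
    (hc : ∀ l ∈ s, ∀ (s₁ : Finset ι) (s₂ : Finset κ), (∀ x, x ∈ s₁ ↔ x ∈ s ∧ p x = p l) →
      (∀ c, c ∈ s₂ ↔ c ∈ s' ∧ p' c = p l) → s₁.card ≤ s₂.card) :
    ∑ l ∈ s, w l ≤ ∑ c ∈ s', w' c := by
  classical
  rw [← Finset.sum_fiberwise_of_maps_to (t := s.image p) (g := p)
    fun l hl => Finset.mem_image_of_mem p hl]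
  refine le_trans (Finset.sum_le_sum (g := fun q => ∑ c ∈ s' with p' c = q, w' c) fun q hq => ?_) ?_
  · obtain ⟨l, hl, rfl⟩ := Finset.mem_image.1 hq
    rw [Finset.sum_congr rfl fun l' hl' => h2 l hl l' (Finset.mem_filter.1 hl').1
      (Finset.mem_filter.1 hl').2, Finset.sum_congr rfl fun c hc => h1 l hl c
      (Finset.mem_filter.1 hc).1 (Finset.mem_filter.1 hc).2, Finset.sum_const, Finset.sum_const,
      nsmul_eq_mul, nsmul_eq_mul]
    exact mul_le_mul_of_nonneg_right (Nat.cast_le.2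
      (hc l hl _ _ (fun _ => Finset.mem_filter) fun _ => Finset.mem_filter)) (h0 l hl)
  · exact (Finset.sum_fiberwise_eq_sum_filter s' _ p' w').trans_le
      (Finset.sum_le_sum_of_subset_of_nonneg (Finset.filter_subset _ _) fun c hc _ => h0' c hc)

variable {G T K B : Type} [Group G] [MetricSpace T] [MulAction G T] {S : Sys G T K B}
  {t u : B × Bool → ℝ} {Y : Set (K × ℝ)} {a a' : St G K} {m M w τ : ℝ} {Fr : Set (B × Bool)}

lemma span_congr (h : S.Span t Y a m M) (hp : ∀ s, (a'.sh s).p = (a.sh s).p) (hU : a'.U) :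
    S.Span t Y a' m M :=
  ⟨h.neg, h.pos, hp m ▸ h.lo, hp M ▸ h.hi, fun s h1 h2 =>
    ⟨hp s ▸ (h.reg s h1 h2).1, hp s ▸ (h.reg s h1 h2).2.1, hU⟩⟩

lemma span_U (h : S.Span t Y a m M) : a.U := (h.reg 0 h.neg h.pos).2.2

lemma span_fl (h : S.Span t Y a (-w) w) : S.Span t Y a.fl (-w) w := by
  refine ⟨h.neg, h.pos, ?_, ?_, fun s h1 h2 => ?_⟩
  · rw [St.fl_sh, neg_neg]
    exact h.hi
  · rw [St.fl_sh]
    exact h.lo
  · rw [St.fl_sh]
    have := h.reg (-s) (by linarith) (by linarith)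
    exact ⟨this.1, this.2.1, this.2.2.fl⟩

lemma span_iff (hU : a.U) :
    S.Span t Y a (-w) w ↔ S.Span t Y ⟨1, a.k, a.r, 1⟩ (-w) w := by
  rcases hU with e | e
  · exact ⟨fun h => span_congr h (fun s => by simp [St.sh, St.p, e]) (Or.inl rfl),
      fun h => span_congr h (fun s => by simp [St.sh, St.p, e]) (Or.inl e)⟩
  · exact ⟨fun h => span_congr (span_fl h) (fun s => by simp [St.sh, St.p, St.fl, e]) (Or.inl rfl),
      fun h => span_congr (span_fl h) (fun s => by simp [St.sh, St.p, St.fl, e]) (Or.inr e)⟩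

lemma mid_span (hC : S.CellAt t Y) (hU : a.U) (h : S.Mid t Y a.p) :
    S.Span t Y a (-S.hw t Y a.p) (S.hw t Y a.p) := (span_iff hU).2 (hC.hw _ h)

lemma span_mid (hC : S.CellAt t Y) (h : S.Span t Y a (-w) w) :
    S.Mid t Y a.p ∧ S.hw t Y a.p = w := by
  have h1 : S.Mid t Y a.p := ⟨w, (span_iff (span_U h)).1 h⟩
  exact ⟨h1, (hC.uniq _ _ _ _ _ (mid_span hC (span_U h) h1) h).2⟩

lemma mid_cf (hC : S.CellAt t Y) (hU : a.U) (h : S.Mid t Y a.p) (hc : S.Cf (S.al t) a a') :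
    S.Mid t Y a'.p ∧ S.hw t Y a'.p = S.hw t Y a.p := by
  rcases hc with hc | hc
  · exact span_mid hC (hC.tr _ _ _ _ hc (mid_span hC hU h)).1
  · exact span_mid (a := a'.fl) hC (hC.tr _ _ _ _ hc (mid_span hC hU h)).1

/-- The length of a segment without special points is the sum of the widths of its cells. -/
lemma tele (h1 : S.Spc) (hC : S.CellAt t Y) (hU : a.U) (hm : m ≤ M) (n1 : S.Nd t Y (a.sh m).p)
    (n2 : S.Nd t Y (a.sh M).p) (hs : ∀ s, m < s → s < M → ¬ S.Sp (a.sh s).p) :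
    ∃ Z : Finset ℝ, (∀ s, s ∈ Z ↔ S.Mid t Y (a.sh s).p ∧ m < s ∧ s < M) ∧
      M - m = ∑ s ∈ Z, 2 * S.hw t Y (a.sh s).p := by
  classical
  have key : ∀ r r', r ≤ r' → S.Nd t Y (a.k, r) → S.Nd t Y (a.k, r') →
      (∀ x, r < x → x < r' → ¬ S.Sp (a.k, x)) → ∃ Z : Finset ℝ,
        (∀ x, x ∈ Z ↔ S.Mid t Y (a.k, x) ∧ r < x ∧ x < r') ∧
        r' - r = ∑ x ∈ Z, 2 * S.hw t Y (a.k, x) := by
    intro r r' hr b1 b2 hs
    have hf : {x | S.Mid t Y (a.k, x) ∧ r < x ∧ x < r'}.Finite :=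
      (hC.fin.preimage (f := fun x : ℝ => (a.k, x))
        fun _ _ _ _ e => (Prod.ext_iff.1 e).2).subset fun x hx => hx.1
    refine ⟨hf.toFinset, fun x => hf.mem_toFinset, ?_⟩
    have := hC.tele ℝ id a.k r r' hf.toFinset b1 b2 hr (fun A s s' hA p1 p2 q1 q2 q3 => ?_)
      fun x => hf.mem_toFinset
    · exact this.trans (Finset.sum_congr rfl fun x _ => by simp only [id]; ring)
    · obtain ⟨c, c', -, e⟩ := h1.icc _ _ hA.1
      refine (hs ((s + s') / 2) (by linarith) (by linarith) ⟨A, hA, ?_⟩).elim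
      rw [e] at p1 p2 ⊢
      exact ⟨by linarith [p1.1], by linarith [p2.2]⟩
  rcases hU with e | e
  · obtain ⟨Z, z1, z2⟩ := key (a.r + m) (a.r + M) (by linarith) (by simpa [St.sh, St.p, e] using n1)
      (by simpa [St.sh, St.p, e] using n2) fun x p q => by
        simpa [St.sh, St.p, e] using hs (x - a.r) (by linarith) (by linarith)
    refine ⟨Z.image fun x => x - a.r, fun s => ?_, ?_⟩
    · simp only [Finset.mem_image, z1, St.sh, St.p, e, one_mul]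
      constructor
      · rintro ⟨x, ⟨p, q, q'⟩, rfl⟩
        exact ⟨by simpa using p, by linarith, by linarith⟩
      · exact fun ⟨p, q, q'⟩ => ⟨a.r + s, ⟨p, by linarith, by linarith⟩, by ring⟩
    · rw [Finset.sum_image fun x _ y _ h => by linarith]
      simpa [St.sh, St.p, e] using z2
  · obtain ⟨Z, z1, z2⟩ := key (a.r - M) (a.r - m) (by linarith)
      (by simpa [St.sh, St.p, e, sub_eq_add_neg] using n2)
      (by simpa [St.sh, St.p, e, sub_eq_add_neg] using n1) fun x p q => by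
        simpa [St.sh, St.p, e] using hs (a.r - x) (by linarith) (by linarith)
    refine ⟨Z.image fun x => a.r - x, fun s => ?_, ?_⟩
    · simp only [Finset.mem_image, z1, St.sh, St.p, e, neg_one_mul]
      constructor
      · rintro ⟨x, ⟨p, q, q'⟩, rfl⟩
        exact ⟨by simpa using p, by linarith, by linarith⟩
      · exact fun ⟨p, q, q'⟩ => ⟨a.r + -s, ⟨p, by linarith, by linarith⟩, by ring⟩
    · rw [Finset.sum_image fun x _ y _ h => by linarith]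
      simpa [St.sh, St.p, e] using z2

lemma nd_top {e : B × Bool} (he : S.En e) : S.Nd t Y (S.up 1 e (t e)).p :=
  Or.inr ⟨⟨1, (S.up 1 e (t e)).k, (S.up 1 e (t e)).r, 1⟩, _, rfl, Cn.refl _, rfl,
    Or.inl (Or.inr ⟨e, false, he, rfl⟩)⟩

lemma g_eq (h1 : S.Spc) (h2 : S.Lvs) (hu : S.Ad u) (hU : a.U) (hs : ¬ S.Sp a.p) {g g' : G}
    (hc : S.Cf (S.al u) (St.sm g a) (St.sm g' a)) : g' = g := by
  have : g' * a.g = g * a.g := by
    rcases hc with hc | hc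
    · exact congrArg St.g (h1.g1 _ _ (hU.sm g) hs (h2.opn u hu _ _ hc hs) rfl)
    · exact congrArg St.g (h1.g1 _ _ (hU.sm g) hs (h2.opn u hu _ _ hc hs) rfl)
  exact mul_right_cancel this

variable (S) in
/-- Joined up to a translation and the direction. -/
def cls (u : B × Bool → ℝ) : Setoid (St G K) where
  r a a' := ∃ g, S.Cf (S.al u) a (St.sm g a')
  iseqv := ⟨fun a => ⟨1, by simpa using Cf.refl a⟩,
    fun ⟨g, h⟩ => ⟨g⁻¹, by simpa [St.sm_sm] using (h.sm g⁻¹).symm⟩,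
    fun ⟨g, h⟩ ⟨g', h'⟩ => ⟨g * g', h.trans (by simpa [St.sm_sm] using h'.sm g)⟩⟩

lemma claim (h : S.Ok) (h1 : S.Spc) (h2 : S.Lvs) (h3 : S.Cell) (h4 : S.Fm) (hτ : S.Sm τ)
    (ht : S.Adm τ t) (hA : S.AC t Fr) (hC : S.Occ t Fr) (F : Finset (S.Nn Fr))
    (P : Finset (S.Fam t)) (hP : ∀ e ∈ F, ∀ y ∈ (S.bdc t e.1).support, y.2 ∈ P) {v : ℝ}
    (hv : 0 < v) (hvt : ∀ e ∈ F, v < t e.1) :
    ∑ e ∈ F, (t e.1 - v) ≤ ∑ f ∈ P, 2 * S.hw t ∅ (S.rep t f) := by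
  classical
  have hd : S.Ad t := ⟨τ, hτ, ht⟩
  let u : B × Bool → ℝ := fun e => if ∃ e' ∈ F, e'.1 = e then v else t e
  have uF : ∀ e ∈ F, u e.1 = v := fun e he => if_pos ⟨e, he, rfl⟩
  have ut : ∀ e, u e ≤ t e := fun e => by
    by_cases he : ∃ e' ∈ F, e'.1 = e
    · obtain ⟨e', he', rfl⟩ := he
      exact (uF e' he').trans_le (hvt e' he').le
    · exact (if_neg he).le
  have hu : S.Adm τ u := fun e => by
    by_cases he : ∃ e' ∈ F, e'.1 = e
    · obtain ⟨e', he', rfl⟩ := he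
      exact ⟨fun _ => ⟨uF e' he' ▸ hv, (ut _).trans (ht.le hτ.pos.le _)⟩,
        fun hn => (hn e'.2.1).elim⟩
    · rw [show u e = t e from if_neg he]
      exact ht e
  have hud : S.Ad u := ⟨τ, hτ, hu⟩
  have CT := h3 t hd ∅ finite_empty (by simp)
  let Y : Set (K × ℝ) := {x | S.Nd t ∅ x ∧ ¬ S.Sp x}
  have CU := h3 u hud Y (h2.nd t hd ∅ finite_empty) fun y hy => CT.val y hy.1
  have hN : ∀ x, S.Nd t ∅ x → S.Nd u Y x := fun x hx => by
    by_cases hs : S.Sp x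
    · exact Or.inl hs
    · exact Or.inr ⟨⟨1, x.1, x.2, 1⟩, _, rfl, Cn.refl _, rfl, Or.inr ⟨hx, hs⟩⟩
  have FA := h4 t hd
  have tτ : ∀ e, t e ≤ τ := ht.le hτ.pos.le
  have hE : ∀ e : S.Nn Fr, ∃ Z : Finset ℝ, e ∈ F →
      (∀ s, s ∈ Z ↔ S.Mid u Y (S.up 1 e.1 s).p ∧ v < s ∧ s < t e.1) ∧
      t e.1 - v = ∑ s ∈ Z, 2 * S.hw u Y (S.up 1 e.1 s).p := fun e => by
    by_cases he : e ∈ F
    · have := tele (a := S.up 1 e.1 0) h1 CU (up_U _ _ _) (hvt e he).le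
        (by rw [up_sh, zero_add, ← uF e he]; exact nd_top e.2.1)
        (by rw [up_sh, zero_add]; exact hN _ (nd_top e.2.1)) fun s p q => by
          rw [up_sh, zero_add]
          exact (hτ.en _ e.2.1 s (hv.trans p) (q.le.trans (tτ _)) false).1
      simp only [up_sh, zero_add] at this
      exact this.imp fun _ hZ _ => hZ
    · exact ⟨∅, fun h => (he h).elim⟩
  choose Ze hZe using hE
  have hF : ∀ f : S.Fam t, ∃ Z : Finset ℝ,
      (∀ s, s ∈ Z ↔ S.Mid u Y ((S.rs t (1, f)).sh s).p ∧ -S.hw t ∅ (S.rep t f) < s ∧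
        s < S.hw t ∅ (S.rep t f)) ∧
      2 * S.hw t ∅ (S.rep t f) = ∑ s ∈ Z, 2 * S.hw u Y ((S.rs t (1, f)).sh s).p := fun f => by
    have sp := FA.span (1, f)
    obtain ⟨Z, z1, z2⟩ := tele h1 CU (span_U sp) (sp.neg.trans sp.pos).le (hN _ sp.lo) (hN _ sp.hi)
      fun s p q hs => (sp.reg s p q).2.1 (Or.inl hs)
    exact ⟨Z, z1, by rw [← z2]; ring⟩
  choose Zf hZf using hF
  rw [Finset.sum_congr rfl fun e he => (hZe e he).2, Finset.sum_congr rfl fun f _ => (hZf f).2,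
    Finset.sum_sigma', Finset.sum_sigma']
  have mL : ∀ l ∈ F.sigma Ze, S.Mid u Y (S.up 1 l.1.1 l.2).p ∧ v < l.2 ∧ l.2 < t l.1.1 :=
    fun l hl => ((hZe _ (Finset.mem_sigma.1 hl).1).1 _).1 (Finset.mem_sigma.1 hl).2
  have mC : ∀ c ∈ P.sigma Zf, S.Mid u Y ((S.rs t (1, c.1)).sh c.2).p :=
    fun c hc => (((hZf _).1 _).1 (Finset.mem_sigma.1 hc).2).1
  have rU : ∀ y s, ((S.rs t y).sh s).U := fun _ _ => Or.inl rfl
  refine count _ _ (fun l => Quotient.mk (cls S u) (S.up 1 l.1.1 l.2))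
    (fun c => Quotient.mk (cls S u) ((S.rs t (1, c.1)).sh c.2)) _ _
    (fun l hl => by linarith [(CU.hw _ (mL l hl).1).pos])
    (fun c hc => by linarith [(CU.hw _ (mC c hc)).pos]) (fun l hl c hc e => ?_)
    (fun l hl l' hl' e => ?_) fun l hl s₁ s₂ hs₁ hs₂ => ?_
  · obtain ⟨g, hg⟩ := Quotient.exact e.symm
    exact congrArg (2 * ·) (mid_cf CU (up_U _ _ _) (mL l hl).1 hg).2
  · obtain ⟨g, hg⟩ := Quotient.exact e.symm
    exact congrArg (2 * ·) (mid_cf CU (up_U _ _ _) (mL l hl).1 hg).2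
  have hg : ∀ b : St G K, ∃ g, Quotient.mk (cls S u) b = Quotient.mk (cls S u) (S.up 1 l.1.1 l.2) →
      S.Cf (S.al u) (S.up 1 l.1.1 l.2) (St.sm g b) := fun b => by
    by_cases e : Quotient.mk (cls S u) b = Quotient.mk (cls S u) (S.up 1 l.1.1 l.2)
    · exact (Quotient.exact e.symm).imp fun _ hg _ => hg
    · exact ⟨1, fun e' => (e e').elim⟩
  choose γ hγ using hg
  have hi : Function.Injective fun l' : (Σ _ : S.Nn Fr, ℝ) =>
      (γ (S.up 1 l'.1.1 l'.2), l'.1.1, l'.2) := fun x y e => by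
    simp only [Prod.mk.injEq] at e
    exact Sigma.ext (Subtype.ext e.2.1) (heq_of_eq e.2.2)
  rw [← Finset.card_image_of_injective _ hi]
  refine (hA _ _ ?_ ?_ ?_).le.trans
    (Finset.card_image_le (f := fun c : (Σ _ : S.Fam t, ℝ) =>
      St.sm (γ ((S.rs t (1, c.1)).sh c.2)) ((S.rs t (1, c.1)).sh c.2)))
  · exact Finset.Nonempty.image ⟨l, (hs₁ l).2 ⟨hl, rfl⟩⟩ _
  · intro x hx
    obtain ⟨l', hl', rfl⟩ := Finset.mem_image.1 hx
    have := mL l' ((hs₁ _).1 hl').1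
    exact ⟨l'.1.2.1, l'.1.2.2, hv.trans this.2.1, this.2.2⟩
  intro x hx s
  obtain ⟨⟨e, r⟩, hl', rfl⟩ := Finset.mem_image.1 hx
  obtain ⟨p1, p2⟩ := (hs₁ _).1 hl'
  obtain ⟨q1, q2, q3⟩ := mL _ p1
  have he := (Finset.mem_sigma.1 p1).1
  have c1 := hγ _ p2
  dsimp only at q1 q2 q3 he c1 ⊢
  generalize γ (S.up 1 e.1 r) = g at c1 ⊢
  rw [up_sm, mul_one] at c1
  have c2 : S.Cn (S.al u) (S.up g e.1 r) (S.en g e.1 r s) := by
    cases s
    · exact Cn.refl _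
    · exact Cn.move rfl (al_up hτ hu e.2.1.1 g ((uF e he).trans_le q2.le) (q3.le.trans (tτ _)))
  have sp := mid_span (a := S.up g e.1 r) CU (up_U _ _ _) q1
  have r1 := CU.reg _ _ c2 (by simpa using sp.reg 0 sp.neg sp.pos)
  obtain ⟨y, d, y1, y2, y3⟩ := hC.touch e g r s (hv.trans q2) q3
    ⟨r1.1, fun hn => r1.2.1 (hN _ hn), r1.2.2⟩
  have e1 : (S.rs t y).sh d = St.sm y.1 ((S.rs t (1, y.2)).sh d) := by
    ext <;> simp [rs, St.sh, St.sm]
  have c3 : S.Cf (S.al u) (S.up 1 l.1.1 l.2) (St.sm y.1 ((S.rs t (1, y.2)).sh d)) :=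
    e1 ▸ (c1.trans (Or.inl c2)).trans (y3.mono (al_mono ut)).symm
  have m1 : S.Mid u Y ((S.rs t (1, y.2)).sh d).p := (mid_cf CU (up_U _ _ _) (mL l hl).1 c3).1
  have e2 : Quotient.mk (cls S u) ((S.rs t (1, y.2)).sh d) =
      Quotient.mk (cls S u) (S.up 1 l.1.1 l.2) :=
    (Quotient.sound (s := cls S u) (Exists.intro y.1 c3)).symm
  have sp' := mid_span CU (rU _ _) m1
  have e3 := g_eq h1 h2 hud (rU _ _)
    (fun hs => (sp'.reg 0 sp'.neg sp'.pos).2.1 (Or.inl (by simpa using hs)))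
    (c3.symm.trans (hγ _ e2))
  rw [sh_apply] at y1
  refine ⟨_, Finset.mem_image.2 ⟨⟨y.2, d⟩, (hs₂ _).2 ⟨Finset.mem_sigma.2
    ⟨hP e he (g⁻¹ * y.1, y.2) (Finsupp.mem_support_iff.2 y1),
      ((hZf _).1 _).2 ⟨m1, abs_lt.1 y2⟩⟩, e2⟩, rfl⟩, ?_⟩
  dsimp only
  rw [e3, ← e1]
  exact y3

end VolP

variable {G T K B : Type} [Group G] [MetricSpace T] [MulAction G T] [Countable G] [Fintype K]
  [Fintype B] {S : Sys G T K B} {τ s : ℝ} {t : B × Bool → ℝ} {Fr : Set (B × Bool)}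

theorem vol (h : S.Ok) (h1 : S.Spc) (h2 : S.Lvs) (h3 : S.Cell) (h4 : S.Fm) (hτ : S.Sm τ)
    (ht : S.Adm τ t) (hA : S.AC t Fr) (hC : S.Occ t Fr) : (S.cx t Fr).M2 := by
  classical
  intro F hF
  have FA := h4 t ⟨τ, hτ, ht⟩
  have := FA.fin
  let _ : Fintype (S.Fam t) := Fintype.ofFinite _
  let P : Finset (S.Fam t) := Finset.univ.filter fun f => (S.cx t Fr).mult F f ≠ 0
  have hP : ∀ e ∈ F, ∀ y ∈ (S.bdc t e.1).support, y.2 ∈ P := fun e he y hy =>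
    Finset.mem_filter.2 ⟨Finset.mem_univ _, fun h0 => by
      have := Finset.card_eq_zero.1 (Finset.sum_eq_zero_iff.1 h0 e he)
      exact Finset.filter_eq_empty_iff.1 this hy rfl⟩
  have c1 : ∑ e ∈ F, t e.1 ≤ ∑ f ∈ P, 2 * S.hw t ∅ (S.rep t f) := by
    have l1 : Tendsto (fun v : ℝ => ∑ e ∈ F, (t e.1 - v)) (𝓝[>] 0) (𝓝 (∑ e ∈ F, (t e.1 - 0))) :=
      (Continuous.tendsto (by fun_prop) 0).mono_left nhdsWithin_le_nhds
    simp only [sub_zero] at l1
    refine le_of_tendsto l1 ?_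
    have l2 : ∀ᶠ v in 𝓝[>] (0 : ℝ), ∀ e ∈ F, v < t e.1 := (eventually_all_finset F).2 fun e _ =>
      (eventually_lt_nhds ((ht e.1).1 e.2.1).1).filter_mono nhdsWithin_le_nhds
    filter_upwards [l2, self_mem_nhdsWithin] with v p q
    exact VolP.claim h h1 h2 h3 h4 hτ ht hA hC F P hP q p
  have c2 : ∑ e ∈ F, t e.1 = ∑ f ∈ P, (S.cx t Fr).mult F f * S.hw t ∅ (S.rep t f) := by
    simp only [Cx.mult, Nat.cast_sum, Finset.sum_mul]
    rw [Finset.sum_comm]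
    refine Finset.sum_congr rfl fun e he => ?_
    rw [← hC.width e, ← Finset.sum_fiberwise_of_maps_to (hP e he)]
    refine Finset.sum_congr rfl fun f _ => ?_
    rw [Finset.sum_congr rfl fun y hy => by rw [(Finset.mem_filter.1 hy).2], Finset.sum_const,
      nsmul_eq_mul]
    rfl
  have w0 : ∀ f, 0 < S.hw t ∅ (S.rep t f) := fun f => (FA.span (1, f)).pos
  have c3 : ∀ f ∈ P, 2 * S.hw t ∅ (S.rep t f) ≤ (S.cx t Fr).mult F f * S.hw t ∅ (S.rep t f) :=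
    fun f hf => by
      have a1 := (Finset.mem_filter.1 hf).2
      have a2 := hF f
      exact mul_le_mul_of_nonneg_right (by exact_mod_cast (by omega : 2 ≤ (S.cx t Fr).mult F f))
        (w0 f).le
  have c4 := (Finset.sum_eq_sum_iff_of_le c3).1 (le_antisymm (Finset.sum_le_sum c3) (c2 ▸ c1))
  intro f
  by_cases hf : (S.cx t Fr).mult F f = 0
  · exact Or.inl hf
  · have := mul_right_cancel₀ (w0 f).ne' (c4 f (Finset.mem_filter.2 ⟨Finset.mem_univ _, hf⟩))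
    exact Or.inr (by exact_mod_cast this.symm)

end Pool.Agent.MP_494aff_an.Se
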