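import Mathlib
import Pool.Agent.MP_494aff_an.se.Ac
import Pool.Agent.MP_494aff_an.se.Band
import Pool.Agent.MP_494aff_an.se.Cell
import Pool.Agent.MP_494aff_an.se.Cr
import Pool.Agent.MP_494aff_an.se.CrInt
import Pool.Agent.MP_494aff_an.se.CrMono
import Pool.Agent.MP_494aff_an.se.Cross
import Pool.Agent.MP_494aff_an.se.Crs
import Pool.Agent.MP_494aff_an.se.Fam
import Pool.Agent.MP_494aff_an.se.Freeze
import Pool.Agent.MP_494aff_an.se.GenDec
import Pool.Agent.MP_494aff_an.se.Kx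
import Pool.Agent.MP_494aff_an.se.Lift
import Pool.Agent.MP_494aff_an.se.Lvs
import Pool.Agent.MP_494aff_an.se.Nonab
import Pool.Agent.MP_494aff_an.se.Occ
import Pool.Agent.MP_494aff_an.se.Par
import Pool.Agent.MP_494aff_an.se.PartA
import Pool.Agent.MP_494aff_an.se.Pc
import Pool.Agent.MP_494aff_an.se.Seg
import Pool.Agent.MP_494aff_an.se.Spc
import Pool.Agent.MP_494aff_an.se.Vol

/-! Assembly of the parts. -/

namespace Pool.Agent.MP_494aff_an.Se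

theorem geo (hO : OrbStmt) (hD : DimStmt) (hF : FgvStmt) : GeoStmt := by
  intro G T K B _ _ _ _ _ _ S h
  have h1 := spc h
  have h2 := lvs h h1
  have h3 := cell h h1 h2
  have h4 := fm h h1 h2 h3
  have h5 := crs h h1 h2 h3 h4
  let _ : Fintype S.Bn := Fintype.ofFinite _
  obtain ⟨τ, hτ, hX⟩ := cross hD h h2 h3 h4 h5
    (crInt hO hD h h1 h2 h3 h4 fun t ht => seg h h1 h2 h3 h4 h5 ht) (crMono h h1 h2 h3 h4 h5)
  have hR := crS h h3 h5 hτ hX
  have hV := conv h h5 hτ hR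
  obtain ⟨Fr, s, hZ⟩ := freeze h h2 hτ hV (lift h h1 h2 h3 hτ hV)
  obtain ⟨t₀, h0, hG⟩ := genS h hτ hZ
  obtain ⟨t, ht, hP⟩ := pcS h h3 h4 h5 hτ hR hZ (dec h hτ) h0 (par h h1 h2 h3 h5 hτ hR hZ h0 hG)
  have hd : S.Ad t := ⟨τ, hτ, ht.1.1⟩
  have hA := ac h h1 h2 hτ hZ ht
  have hC := occ h h1 h2 h3 h4 h5 hτ hZ ht
  have := (h4 t hd).fin
  exact ⟨_, _, _, inferInstance, Fintype.ofFinite _, Fintype.ofFinite _, _, _, _, _,
    kx hF h h1 h2 h3 h4 hd (seg h h1 h2 h3 h4 h5 hd) hC.pm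
      (vol h h1 h2 h3 h4 hτ ht.1.1 hA hC) (nonab h h1 h2 hτ ht.1.1 hA hC) hP⟩

theorem hierAll : Un.HierStmt := hier_of_band (band (geo (orb dimS) dimS fgv) pvAll)

end Pool.Agent.MP_494aff_an.Se
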