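import Pool.Agent.MP_494aff_an.se.SpecA

/-! Row WB, part 1: the two sides of a wall. -/

open Finsupp

set_option linter.unusedSectionVars false

namespace Pool.Agent.MP_494aff_an.Se.Wb

open Pool.Agent.MP_494aff_an.Pinch Pool.Agent.MP_494aff_an.Pinch.TowP Pool.Agent.MP_494aff_an.Lf

noncomputable section

variable {G Vx E Fc X : Type} [Group G]

/-- Translation of cells. -/
def mv (g : G) (z : G × X) : G × X := (g * z.1, z.2)

theorem mv_mv (g g' : G) (z : G × X) : mv g (mv g' z) = mv (g * g') z := by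
  simp [mv, mul_assoc]

theorem mv_one (z : G × X) : mv 1 z = z := by simp [mv]

theorem mv_inj (g : G) {z z' : G × X} (h : mv g z = mv g z') : z = z' := by
  have := congrArg (mv g⁻¹) h
  simpa [mv_mv, mv_one] using this

theorem exists_mv {z z' : G × X} (h : z.2 = z'.2) : ∃ g, z = mv g z' :=
  ⟨z.1 * z'.1⁻¹, by simp [mv, ← h]⟩

theorem sh_apply (g : G) (ζ : G × X →₀ ℂ) (z : G × X) : sh g ζ z = ζ (g⁻¹ * z.1, z.2) := by
  have := Finsupp.mapDomain_apply (f := fun x : G × X => (g * x.1, x.2))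
    (fun _ _ h => mv_inj g h) ζ (g⁻¹ * z.1, z.2)
  simpa [sh] using this

theorem lin2 (w : X → ℂ) (ζ : X →₀ ℂ) {a b : X} (hab : a ≠ b)
    (h : ∀ c, c ≠ a → c ≠ b → ζ c * w c = 0) :
    linearCombination ℂ w ζ = ζ a * w a + ζ b * w b := by
  rw [linearCombination_apply, Finsupp.sum]
  exact Finset.sum_eq_add a b hab (fun c _ hc => h c hc.1 hc.2)
    (fun ha => by simp [notMem_support_iff.1 ha]) (fun hb => by simp [notMem_support_iff.1 hb])

theorem lin0 (w : X → ℂ) (ζ : X →₀ ℂ) (h : ∀ c, ζ c * w c = 0) : linearCombination ℂ w ζ = 0 := by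
  rw [linearCombination_apply, Finsupp.sum]
  exact Finset.sum_eq_zero fun c _ => h c

section Per
variable {k : ℕ} {h : G} {ψ : ℤ → G × X}

theorem per (hp : ∀ i, ψ (i + k) = (h * (ψ i).1, (ψ i).2)) (i n : ℤ) :
    ψ (i + k * n) = mv (h ^ n) (ψ i) := by
  induction n using Int.induction_on with
  | zero => simp [mv_one]
  | succ n ih =>
    rw [mul_add, mul_one, ← add_assoc, hp, ih, add_comm (n : ℤ), zpow_add, zpow_one, ← mv_mv]
    rfl
  | pred n ih =>
    have e := hp (i + k * (-(n : ℤ) - 1))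
    rw [show i + k * (-(n : ℤ) - 1) + k = i + k * -(n : ℤ) by ring, ih] at e
    refine mv_inj h ?_
    rw [mv_mv, ← zpow_one_add, show 1 + (-(n : ℤ) - 1) = -(n : ℤ) by ring, e]
    rfl

theorem trans (hp : ∀ i, ψ (i + k) = (h * (ψ i).1, (ψ i).2))
    (ht : ∀ i j, (ψ i).2 = (ψ j).2 → (k : ℤ) ∣ i - j) {g : G} {i j : ℤ}
    (e : ψ j = mv g (ψ i)) : ∃ n : ℤ, j = i + k * n ∧ g = h ^ n := by
  obtain ⟨n, hn⟩ := ht j i (by rw [e]; rfl)
  have hj : j = i + k * n := by linarith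
  refine ⟨n, hj, ?_⟩
  rw [hj, per hp] at e
  exact (mul_right_cancel (congrArg Prod.fst e)).symm

theorem inj (hp : ∀ i, ψ (i + k) = (h * (ψ i).1, (ψ i).2))
    (ht : ∀ i j, (ψ i).2 = (ψ j).2 → (k : ℤ) ∣ i - j) (hh : InfOrd h) : Function.Injective ψ := by
  intro j i e
  obtain ⟨n, h1, h2⟩ := trans hp ht (g := 1) (e.trans (mv_one _).symm)
  rw [h1, hh n h2.symm, mul_zero, add_zero]

end Per

theorem exists_sign (r : ℤ → ℂ) (hr : ∀ i, r i * r i = 1) :
    ∃ s : ℤ → ℂ, (∀ i, s i * s i = 1) ∧ ∀ i, s (i + 1) = r i * s i := by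
  refine ⟨fun i => (∏ j ∈ Finset.Ico 0 i, r j) * ∏ j ∈ Finset.Ico i 0, r j, fun i => ?_,
    fun i => ?_⟩
  · rw [mul_mul_mul_comm, ← Finset.prod_mul_distrib, ← Finset.prod_mul_distrib]
    simp [hr]
  · rcases le_or_gt 0 i with hi | hi
    · have e : Finset.Ico 0 (i + 1) = insert i (Finset.Ico 0 i) := by
        ext j; simp only [Finset.mem_Ico, Finset.mem_insert]; omega
      simp only [e, Finset.Ico_eq_empty_of_le hi, Finset.Ico_eq_empty_of_le (by omega : 0 ≤ i + 1)]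
      rw [Finset.prod_insert (by simp), mul_assoc]
    · have e : Finset.Ico i 0 = insert i (Finset.Ico (i + 1) 0) := by
        ext j; simp only [Finset.mem_Ico, Finset.mem_insert]; omega
      simp only [e, Finset.Ico_eq_empty_of_le hi.le,
        Finset.Ico_eq_empty_of_le (by omega : i + 1 ≤ 0)]
      rw [Finset.prod_insert (by simp), Finset.prod_empty, one_mul, one_mul, ← mul_assoc, hr,
        one_mul]

theorem all_int {P : ℤ → Prop} (h : ∀ i, P i ↔ P (i + 1)) (i j : ℤ) (hi : P i) : P j := by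
  have key : ∀ n : ℤ, P 0 ↔ P n := fun n => by
    induction n using Int.induction_on with
    | zero => rfl
    | succ n ih => exact ih.trans (h n)
    | pred n ih =>
      have := h (-(n : ℤ) - 1)
      rw [sub_add_cancel] at this
      exact ih.trans this.symm
  exact (key j).1 ((key i).2 hi)

variable [MulAction G Vx] (K : Cx G Vx E Fc)

/-- The boundary of a face. -/
def B (x : G × Fc) : G × E →₀ ℂ := sh x.1 (K.bd x.2)

theorem B_mv (g : G) (x : G × Fc) (z : G × E) : B K (mv g x) (mv g z) = B K x z := by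
  simp [B, mv, sh_apply, mul_assoc]

theorem d2_apply (η : G × Fc →₀ ℂ) (z : G × E) :
    K.d2 η z = linearCombination ℂ (fun x => B K x z) η :=
  apply_linearCombination ℂ (lapply z) _ η

theorem d1_single (z : G × E) (c : ℂ) :
    K.d1 (single z c) = c • (single (z.1 • K.t z.2) 1 - single (z.1 • K.o z.2) 1) := by
  rw [Cx.d1, linearCombination_single]

theorem d1_sh (g : G) (ζ : G × E →₀ ℂ) :
    K.d1 (sh g ζ) = lmapDomain ℂ ℂ (fun v => g • v) (K.d1 ζ) := by
  induction ζ using Finsupp.induction_linear with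
  | zero => simp
  | add a b ha hb => simp only [map_add, ha, hb]
  | single z c =>
    rw [sh, lmapDomain_apply, mapDomain_single, d1_single, d1_single, map_smul, map_sub]
    simp [mul_smul]

theorem pair_d1 (σ : Vx → ℂ) (ζ : G × E →₀ ℂ) : linearCombination ℂ σ (K.d1 ζ) =
    linearCombination ℂ (fun z : G × E => σ (z.1 • K.t z.2) - σ (z.1 • K.o z.2)) ζ := by
  rw [Cx.d1, apply_linearCombination]
  congr 2
  funext z
  simp

theorem cn_smul {S : Set E} (g : G) {u v : Vx} (h : K.Cn S u v) : K.Cn S (g • u) (g • v) := by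
  induction h with
  | rel a b h =>
    obtain ⟨g', e, he, rfl, rfl⟩ := h
    exact .rel _ _ ⟨g * g', e, he, mul_smul _ _ _, mul_smul _ _ _⟩
  | refl a => exact .refl _
  | symm a b _ ih => exact .symm _ _ ih
  | trans a b c _ _ h1 h2 => exact .trans _ _ _ h1 h2

theorem cn_mono {S S' : Set E} (hS : S ⊆ S') {u v : Vx} (h : K.Cn S u v) : K.Cn S' u v := by
  refine Relation.EqvGen.mono ?_ _ _ h
  rintro _ _ ⟨g, e, he, h⟩
  exact ⟨g, e, hS he, h⟩

/-- Joined through edges with type in `E'` that are not on the wall. -/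
def J (E' : Finset E) (ε : ℤ → G × E) : Vx → Vx → Prop :=
  Relation.EqvGen fun a b => ∃ z : G × E, z.2 ∈ E' ∧ z ∉ Set.range ε ∧
    z.1 • K.o z.2 = a ∧ z.1 • K.t z.2 = b

theorem chain {E' : Finset E} {ε : ℤ → G × E} {u v : Vx} (h : J K E' ε u v) :
    ∃ ζ : G × E →₀ ℂ, (∀ z, ζ z ≠ 0 → z.2 ∈ E' ∧ z ∉ Set.range ε) ∧
      K.d1 ζ = single v 1 - single u 1 := by
  induction h with
  | rel a b h =>
    obtain ⟨z, h1, h2, rfl, rfl⟩ := h
    refine ⟨single z 1, fun y hy => ?_, by rw [d1_single, one_smul]⟩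
    obtain rfl := (single_apply_ne_zero.1 hy).1
    exact ⟨h1, h2⟩
  | refl a => exact ⟨0, by simp, by simp⟩
  | symm a b _ ih =>
    obtain ⟨ζ, h1, h2⟩ := ih
    exact ⟨-ζ, fun z hz => h1 z (by simpa using hz), by rw [map_neg, h2, neg_sub]⟩
  | trans a b c _ _ ih ih' =>
    obtain ⟨ζ, h1, h2⟩ := ih
    obtain ⟨ζ', h1', h2'⟩ := ih'
    refine ⟨ζ + ζ', fun z hz => ?_, by rw [map_add, h2, h2']; abel⟩
    by_cases h0 : ζ z = 0
    · exact h1' z (by simpa [h0] using hz)
    · exact h1 z h0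

open Classical in
/-- The remaining edge types. -/
def E2 (E' : Finset E) (ε : ℤ → G × E) : Finset E := E'.filter fun e => ∀ i, e ≠ (ε i).2

open Classical in
/-- The remaining face types. -/
def F2' (F : Finset Fc) (φ : ℤ → G × Fc) : Finset Fc := F.filter fun f => ∀ i, f ≠ (φ i).2

theorem mem_E2 {E' : Finset E} {ε : ℤ → G × E} {e : E} :
    e ∈ E2 E' ε ↔ e ∈ E' ∧ ∀ i, e ≠ (ε i).2 := by
  classical exact Finset.mem_filter

theorem cn_J {E' : Finset E} {ε : ℤ → G × E} {u v : Vx} (h : K.Cn (E2 E' ε) u v) :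
    J K E' ε u v := by
  refine Relation.EqvGen.mono ?_ _ _ h
  rintro _ _ ⟨g, e, he, h⟩
  exact ⟨(g, e), (mem_E2.1 he).1, fun ⟨i, hi⟩ => (mem_E2.1 he).2 i (by rw [hi]), h⟩

variable {K} {E' : Finset E} {F : Finset Fc} {k : ℕ} {h : G} {φ : ℤ → G × Fc} {ε : ℤ → G × E}

theorem B_typ (hS : K.Sub E' F) {x : G × Fc} (hx : x.2 ∈ F) {z : G × E} (hz : B K x z ≠ 0) :
    z.2 ∈ E' := by
  rw [B, sh_apply] at hz
  exact hS _ hx (x.1⁻¹ * z.1, z.2) (mem_support_iff.2 hz)

theorem only' (W : K.Wall F k h φ ε) (g : G) (i : ℤ) {x : G × Fc} (hx : x.2 ∈ F)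
    (hz : B K x (mv g (ε i)) ≠ 0) : x = mv g (φ (i - 1)) ∨ x = mv g (φ i) := by
  have e : x = mv g (mv g⁻¹ x) := by rw [mv_mv, mul_inv_cancel, mv_one]
  rw [e, B_mv] at hz
  have := W.only (i - 1) (mv g⁻¹ x) hx (by rwa [sub_add_cancel])
  rw [sub_add_cancel] at this
  exact this.imp (fun h => by rw [← h, ← e]) fun h => by rw [← h, ← e]

theorem wall_edges (W : K.Wall F k h φ ε) {i j : ℤ} {z : G × E} (hz : B K (φ i) z ≠ 0)
    (ht : z.2 = (ε j).2) : z = ε i ∨ z = ε (i + 1) := by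
  obtain ⟨g, rfl⟩ := exists_mv ht
  rcases only' W g j (W.φ_mem i) hz with e | e
  · obtain ⟨n, h1, rfl⟩ := trans W.φ_per W.φ_typ e
    right
    rw [← per W.ε_per, h1]
    congr 1
    ring
  · obtain ⟨n, h1, rfl⟩ := trans W.φ_per W.φ_typ e
    left
    rw [← per W.ε_per, h1]

theorem B_sq (hK : K.Ok) {x : G × Fc} {z : G × E} (hz : B K x z ≠ 0) : B K x z * B K x z = 1 := by
  rw [B, sh_apply] at hz ⊢
  rcases hK.pm x.2 (x.1⁻¹ * z.1, z.2) with e | e | e
  · exact absurd e hz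
  · rw [e, one_mul]
  · rw [e, neg_mul_neg, one_mul]

theorem card_lt (hS : K.Sub E' F) (W : K.Wall F k h φ ε) : (E2 E' ε).card < E'.card := by
  classical
  refine Finset.card_lt_card ⟨fun e he => (mem_E2.1 he).1, fun hs => ?_⟩
  exact (mem_E2.1 (hs (B_typ hS (W.φ_mem 0) (W.left 0)))).2 0 rfl

theorem sub2 (hS : K.Sub E' F) (W : K.Wall F k h φ ε) : K.Sub (E2 E' ε) (F2' F φ) := by
  classical
  intro f hf x hx
  obtain ⟨hf1, hf2⟩ := Finset.mem_filter.1 hf
  refine mem_E2.2 ⟨hS f hf1 x hx, fun i hi => ?_⟩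
  obtain ⟨g, rfl⟩ := exists_mv hi
  have : B K (1, f) (mv g (ε i)) ≠ 0 := by
    rw [B, sh_apply, inv_one, one_mul]
    exact mem_support_iff.1 hx
  rcases only' W g i (x := (1, f)) hf1 this with e | e
  · exact hf2 _ (congrArg Prod.snd e)
  · exact hf2 _ (congrArg Prod.snd e)

theorem h1_two (hT : CT G) (hH : K.H1 E' F) (W : K.Wall F k h φ ε) :
    K.H1 (E2 E' ε) (F2' F φ) := by
  classical
  intro ζ hζ h0
  obtain ⟨η, hη, rfl⟩ := hH ζ (fun x hx => (mem_E2.1 (hζ x hx)).1) h0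
  refine ⟨η, fun x hx => Finset.mem_filter.2 ⟨hη x hx, fun i hi => ?_⟩, rfl⟩
  obtain ⟨g, rfl⟩ := exists_mv hi
  have hinj := inj W.φ_per W.φ_typ (hT.tf h W.ne)
  have step : ∀ j, η (mv g (φ j)) ≠ 0 ↔ η (mv g (φ (j + 1))) ≠ 0 := fun j => by
    have z0 : K.d2 η (mv g (ε (j + 1))) = 0 := by
      by_contra hc
      exact (mem_E2.1 (hζ _ (mem_support_iff.2 hc))).2 (j + 1) rfl
    rw [d2_apply, lin2 _ _ (a := mv g (φ j)) (b := mv g (φ (j + 1)))
      (fun e => by have := hinj (mv_inj g e); omega) (fun c h1 h2 => ?_), B_mv, B_mv] at z0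
    · have l : B K (φ (j + 1)) (ε (j + 1)) ≠ 0 := W.left _
      have r : B K (φ j) (ε (j + 1)) ≠ 0 := W.right _
      refine not_congr ⟨fun e => ?_, fun e => ?_⟩
      · simpa [e, l] using z0
      · simpa [e, r] using z0
    · by_contra hc
      rcases only' W g (j + 1) (hη c (mem_support_iff.2 (left_ne_zero_of_mul hc)))
        (right_ne_zero_of_mul hc) with e | e
      · exact h1 (by rwa [add_sub_cancel_right] at e)
      · exact h2 e
  refine Set.infinite_of_injective_forall_mem (f := fun j => mv g (φ j))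
    (fun a b e => hinj (mv_inj g e)) (s := (η.support : Set (G × Fc))) (fun j => ?_)
    η.support.finite_toSet
  exact mem_support_iff.2 (all_int (P := fun j => η (mv g (φ j)) ≠ 0) step i j
    (mem_support_iff.1 hx))

/-- The two sides of a wall. -/
structure Sd (K : Cx G Vx E Fc) (E' : Finset E) (ε : ℤ → G × E) (a b : ℤ → Vx) : Prop where
  ends : ∀ i, (a i = (ε i).1 • K.o (ε i).2 ∧ b i = (ε i).1 • K.t (ε i).2) ∨
    (a i = (ε i).1 • K.t (ε i).2 ∧ b i = (ε i).1 • K.o (ε i).2)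
  sep : ¬ J K E' ε (a 0) (b 0)
  ca : ∀ i, K.Cn (E2 E' ε) (a 0) (a i)
  cb : ∀ i, K.Cn (E2 E' ε) (b 0) (b i)

theorem sides (hK : K.Ok) (hT : CT G) (hS : K.Sub E' F) (hH : K.H1 E' F)
    (W : K.Wall F k h φ ε) : ∃ a b, Sd K E' ε a b := by
  classical
  have hinj := inj W.ε_per W.ε_typ (hT.tf h W.ne)
  have hne : ∀ i, ε i ≠ ε (i + 1) := fun i e => by have := hinj e; omega
  have hl : ∀ i, B K (φ i) (ε i) * B K (φ i) (ε i) = 1 := fun i => B_sq hK (W.left i)
  have hr : ∀ i, B K (φ i) (ε (i + 1)) * B K (φ i) (ε (i + 1)) = 1 := fun i => B_sq hK (W.right i)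
  obtain ⟨s, hs, hs'⟩ := exists_sign (fun i => -(B K (φ i) (ε i) * B K (φ i) (ε (i + 1))))
    fun i => by rw [neg_mul_neg, mul_mul_mul_comm, hl, hr, one_mul]
  let w : G × E → ℂ := Function.extend ε s 0
  have hw : ∀ i, w (ε i) = s i := fun i => hinj.extend_apply s 0 i
  have hw0 : ∀ z ∉ Set.range ε, w z = 0 := fun z hz =>
    Function.extend_apply' s (0 : G × E → ℂ) z hz
  have kf : ∀ x : G × Fc, x.2 ∈ F → linearCombination ℂ w (B K x) = 0 := fun x hx => by
    by_cases hφ : x ∈ Set.range φ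
    · obtain ⟨i, rfl⟩ := hφ
      rw [lin2 _ _ (hne i) fun z h1 h2 => ?_, hw, hw, hs']
      · linear_combination (-(B K (φ i) (ε i) * s i)) * hr i
      · by_contra hc
        obtain ⟨j, rfl⟩ : z ∈ Set.range ε := by_contra fun hz => hc (by rw [hw0 z hz, mul_zero])
        exact (wall_edges W (left_ne_zero_of_mul hc) rfl).elim h1 h2
    · refine lin0 _ _ fun z => by_contra fun hc => ?_
      obtain ⟨j, rfl⟩ : z ∈ Set.range ε := by_contra fun hz => hc (by rw [hw0 z hz, mul_zero])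
      have := only' W 1 j hx (by rw [mv_one]; exact left_ne_zero_of_mul hc)
      rw [mv_one, mv_one] at this
      exact this.elim (fun e => hφ ⟨_, e.symm⟩) fun e => hφ ⟨_, e.symm⟩
  have kc : ∀ ζ : G × E →₀ ℂ, (∀ z, ζ z ≠ 0 → z.2 ∈ E') → K.d1 ζ = 0 →
      linearCombination ℂ w ζ = 0 := fun ζ h1 h2 => by
    obtain ⟨η, hη, rfl⟩ := hH ζ (fun x hx => h1 x (mem_support_iff.1 hx)) h2
    rw [Cx.d2, apply_linearCombination]
    refine lin0 _ _ fun x => by_contra fun hc => ?_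
    exact right_ne_zero_of_mul hc (kf x (hη x (mem_support_iff.2 (left_ne_zero_of_mul hc))))
  let a : ℤ → Vx := fun i => if s i = 1 then (ε i).1 • K.o (ε i).2 else (ε i).1 • K.t (ε i).2
  let b : ℤ → Vx := fun i => if s i = 1 then (ε i).1 • K.t (ε i).2 else (ε i).1 • K.o (ε i).2
  have hd : ∀ i, K.d1 (single (ε i) (s i)) = single (b i) 1 - single (a i) 1 := fun i => by
    rw [d1_single]
    by_cases h1 : s i = 1
    · simp [a, b, h1]
    · simp only [a, b, if_neg h1]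
      rw [(mul_self_eq_one_iff.1 (hs i)).resolve_left h1, neg_smul, one_smul, neg_sub]
  have nJ : ∀ i, ¬ J K E' ε (a i) (b i) := fun i hJ => by
    obtain ⟨ζ, h1, h2⟩ := chain K hJ
    have := kc (ζ - single (ε i) (s i)) (fun z hz => ?_) (by rw [map_sub, h2, hd, sub_self])
    · rw [map_sub, lin0 _ _ fun z => ?_, linearCombination_single, hw, smul_eq_mul, hs] at this
      · simp at this
      · by_cases h0 : ζ z = 0
        · rw [h0, zero_mul]
        · rw [hw0 z (h1 z h0).2, mul_zero]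
    · by_cases h0 : ζ z = 0
      · rw [Finsupp.sub_apply, h0, zero_sub, neg_ne_zero] at hz
        rw [(single_apply_ne_zero.1 hz).1]
        exact B_typ hS (W.φ_mem i) (W.left i)
      · exact (h1 z h0).1
  have step : ∀ (v : Vx) i, let σ : Vx → ℂ := fun u => if K.Cn (E2 E' ε) v u then 1 else 0
      σ (b i) - σ (a i) = σ (b (i + 1)) - σ (a (i + 1)) := fun v i => by
    intro σ
    have e : ∀ j, σ (b j) - σ (a j) =
        s j * (σ ((ε j).1 • K.t (ε j).2) - σ ((ε j).1 • K.o (ε j).2)) := fun j => by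
      have := pair_d1 K σ (single (ε j) (s j))
      rw [hd] at this
      simpa using this
    have z0 := pair_d1 K σ (B K (φ i))
    rw [B, d1_sh, hK.cyc, map_zero, map_zero, ← B, lin2 _ _ (hne i) fun z h1 h2 => ?_] at z0
    · rw [e, e, hs']
      linear_combination (-(s i * B K (φ i) (ε i))) * z0 -
        s i * (σ ((ε i).1 • K.t (ε i).2) - σ ((ε i).1 • K.o (ε i).2)) * hl i
    · by_contra hc
      have hz := left_ne_zero_of_mul hc
      have hc' : K.Cn (E2 E' ε) (z.1 • K.o z.2) (z.1 • K.t z.2) :=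
        .rel _ _ ⟨z.1, z.2, mem_E2.2 ⟨B_typ hS (W.φ_mem i) hz,
          fun j hj => (wall_edges W hz hj).elim h1 h2⟩, rfl, rfl⟩
      refine right_ne_zero_of_mul hc (sub_eq_zero.2 (if_congr ⟨fun h => ?_, fun h => ?_⟩ rfl rfl))
      · exact .trans _ _ _ h (.symm _ _ hc')
      · exact .trans _ _ _ h hc'
  have sa : ∀ i, K.Cn (E2 E' ε) (a i) (a (i + 1)) := fun i => by
    have := step (a i) i
    have h1 : ¬ K.Cn (E2 E' ε) (a i) (b i) := fun h => nJ i (cn_J K h)
    have h2 : K.Cn (E2 E' ε) (a i) (a i) := .refl _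
    simp only [if_neg h1, if_pos h2] at this
    by_contra hc
    rw [if_neg hc] at this
    split_ifs at this <;> norm_num at this
  have sb : ∀ i, K.Cn (E2 E' ε) (b i) (b (i + 1)) := fun i => by
    have := step (b i) i
    have h1 : ¬ K.Cn (E2 E' ε) (b i) (a i) := fun h => nJ i (.symm _ _ (cn_J K h))
    have h2 : K.Cn (E2 E' ε) (b i) (b i) := .refl _
    simp only [if_neg h1, if_pos h2] at this
    by_contra hc
    rw [if_neg hc] at this
    split_ifs at this <;> norm_num at this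
  refine ⟨a, b, fun i => ?_, nJ 0, fun i => ?_, fun i => ?_⟩
  · by_cases h1 : s i = 1
    · exact .inl ⟨if_pos h1, if_pos h1⟩
    · exact .inr ⟨if_neg h1, if_neg h1⟩
  · exact all_int (P := fun i => K.Cn (E2 E' ε) (a 0) (a i)) (fun i =>
      ⟨fun h => .trans _ _ _ h (sa i), fun h => .trans _ _ _ h (.symm _ _ (sa i))⟩) 0 i (.refl _)
  · exact all_int (P := fun i => K.Cn (E2 E' ε) (b 0) (b i)) (fun i =>
      ⟨fun h => .trans _ _ _ h (sb i), fun h => .trans _ _ _ h (.symm _ _ (sb i))⟩) 0 i (.refl _)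

end

end Pool.Agent.MP_494aff_an.Se.Wb
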